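import Mathlib
set_option autoImplicit false

/-! Hyperbolic spaces, Gromov boundaries, hierarchically hyperbolic spaces and groups, the
hierarchically hyperbolic boundary and its topology. -/

namespace Pool.Agent.Helper548.HB

/-! ### Hyperbolic spaces -/

/-- Any two points are joined by a geodesic. -/
def GeodesicSpace (X : Type) [MetricSpace X] : Prop :=
  ∀ x y : X, ∃ γ : ℝ → X, γ 0 = x ∧ γ (dist x y) = y ∧
    ∀ s ∈ Set.Icc (0 : ℝ) (dist x y), ∀ t ∈ Set.Icc (0 : ℝ) (dist x y),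
      dist (γ s) (γ t) = |s - t|

/-- The Gromov product of `x` and `y` based at `o`. -/
noncomputable def gprod {X : Type} [MetricSpace X] (o x y : X) : ℝ :=
  (dist x o + dist y o - dist x y) / 2

/-- Gromov hyperbolicity (four point condition) with constant `δ`. -/
def HypC (X : Type) [MetricSpace X] (δ : ℝ) : Prop :=
  ∀ o x y z : X, min (gprod o x z) (gprod o z y) - δ ≤ gprod o x y

/-- A sequence converging to infinity in the sense of Gromov. -/
structure GromovSeq (X : Type) [MetricSpace X] where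
  seq : ℕ → X
  conv : ∀ (o : X) (R : ℝ), ∃ N : ℕ, ∀ m ≥ N, ∀ n ≥ N, R ≤ gprod o (seq m) (seq n)

/-- Two sequences converging to infinity are equivalent if their Gromov products tend to
infinity. -/
def GromovSeq.Equiv {X : Type} [MetricSpace X] (u v : GromovSeq X) : Prop :=
  ∀ (o : X) (R : ℝ), ∃ N : ℕ, ∀ n ≥ N, R ≤ gprod o (u.seq n) (v.seq n)

/-- The Gromov boundary: classes of sequences converging to infinity. -/
def Boundary (X : Type) [MetricSpace X] : Type := Quot (GromovSeq.Equiv (X := X))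

/-- The boundary point defined by a sequence converging to infinity. -/
def GromovSeq.lim {X : Type} [MetricSpace X] (u : GromovSeq X) : Boundary X := Quot.mk _ u

/-- The Gromov product (from `o`) of the boundary points `ξ` and `η` is at least `R`. -/
def Near {X : Type} [MetricSpace X] (o : X) (R : ℝ) (ξ η : Boundary X) : Prop :=
  ∃ u v : GromovSeq X, u.lim = ξ ∧ v.lim = η ∧
    ∃ N : ℕ, ∀ m ≥ N, ∀ n ≥ N, R ≤ gprod o (u.seq m) (v.seq n)

/-- The Gromov product (from `o`) of the point `x` and the boundary point `ζ` is at least `R`. -/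
def PB {X : Type} [MetricSpace X] (o : X) (R : ℝ) (x : X) (ζ : Boundary X) : Prop :=
  ∃ u : GromovSeq X, u.lim = ζ ∧ ∃ N : ℕ, ∀ n ≥ N, R ≤ gprod o x (u.seq n)

/-- `γ` restricted to `[0, l]` is a geodesic. -/
def IsGeod {X : Type} [MetricSpace X] (γ : ℝ → X) (l : ℝ) : Prop :=
  0 ≤ l ∧ ∀ s ∈ Set.Icc (0 : ℝ) l, ∀ t ∈ Set.Icc (0 : ℝ) l, dist (γ s) (γ t) = |s - t|

/-- Distance between two subsets (infimum of the distances of their points). -/
noncomputable def sd {X : Type} [MetricSpace X] (A B : Set X) : ℝ :=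
  sInf {r | ∃ a ∈ A, ∃ b ∈ B, r = dist a b}

/-- The set `A` has diameter at most `r`. -/
def DiamLE {X : Type} [MetricSpace X] (r : ℝ) (A : Set X) : Prop :=
  ∀ a ∈ A, ∀ b ∈ A, dist a b ≤ r

/-- The truncated distance `{a}_s`: equal to `a` if `s ≤ a` and to `0` otherwise. -/
noncomputable def thr (s a : ℝ) : ℝ := open Classical in if s ≤ a then a else 0

/-! ### Hierarchically hyperbolic spaces (Behrstock, Hagen, Sisto) -/

/-- The data of a hierarchy on the set `X`: domains `U` with their spaces `C U`, the relations of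
nesting and orthogonality, the projections `π U : X → 2^(C U)` and the relative projections:
`ρ V W ⊆ C W` (used if `V` is properly nested in `W` or transverse to `W`) and
`ρd W V : C W → 2^(C V)` (used if `V` is properly nested in `W`). -/
structure Hier (X : Type) where
  Dom : Type
  C : Dom → Type
  [met : ∀ U, MetricSpace (C U)]
  nest : Dom → Dom → Prop
  orth : Dom → Dom → Prop
  π : ∀ U : Dom, X → Set (C U)
  ρ : ∀ _V W : Dom, Set (C W)
  ρd : ∀ W V : Dom, C W → Set (C V)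

attribute [instance] Hier.met

/-- proper nesting -/
def Hier.pnest {X : Type} (𝔛 : Hier X) (V W : 𝔛.Dom) : Prop := 𝔛.nest V W ∧ V ≠ W

/-- transversality: neither orthogonal nor comparable for nesting -/
def Hier.trans {X : Type} (𝔛 : Hier X) (V W : 𝔛.Dom) : Prop :=
  ¬ 𝔛.orth V W ∧ ¬ 𝔛.nest V W ∧ ¬ 𝔛.nest W V

/-- distance of the projections of `x` and `y` to the space of the domain `U` -/
noncomputable def Hier.dom {X : Type} (𝔛 : Hier X) (U : 𝔛.Dom) (x y : X) : ℝ :=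
  sd (𝔛.π U x) (𝔛.π U y)

/-- The axioms of a (normalised) hierarchically hyperbolic space structure on the set `X` with the
distance function `d`. One constant `K` serves for all the constants of the axioms. -/
structure IsHHS {X : Type} (d : X → X → ℝ) (𝔛 : Hier X) (K : ℝ) : Prop where
  one_le : 1 ≤ K
  geod : ∀ U, GeodesicSpace (𝔛.C U)
  hyp : ∀ U, HypC (𝔛.C U) K
  -- projections
  π_ne : ∀ U x, (𝔛.π U x).Nonempty
  π_diam : ∀ U x, DiamLE K (𝔛.π U x)
  π_lip : ∀ U x y, ∀ p ∈ 𝔛.π U x, ∀ q ∈ 𝔛.π U y, dist p q ≤ K * d x y + K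
  π_surj : ∀ U (p : 𝔛.C U), ∃ x, ∃ q ∈ 𝔛.π U x, dist p q ≤ K
  -- nesting
  nest_refl : ∀ U, 𝔛.nest U U
  nest_antisymm : ∀ U V, 𝔛.nest U V → 𝔛.nest V U → U = V
  nest_trans : ∀ U V W, 𝔛.nest U V → 𝔛.nest V W → 𝔛.nest U W
  nest_max : ∃ S, ∀ U, 𝔛.nest U S
  ρ_ne : ∀ V W, (𝔛.pnest V W ∨ 𝔛.trans V W) → (𝔛.ρ V W).Nonempty
  ρ_diam : ∀ V W, (𝔛.pnest V W ∨ 𝔛.trans V W) → DiamLE K (𝔛.ρ V W)
  ρd_ne : ∀ V W, 𝔛.pnest V W → ∀ p, (𝔛.ρd W V p).Nonempty
  -- orthogonality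
  orth_symm : ∀ U V, 𝔛.orth U V → 𝔛.orth V U
  orth_irrefl : ∀ U, ¬ 𝔛.orth U U
  orth_nest : ∀ V W U, 𝔛.nest V W → 𝔛.orth W U → 𝔛.orth V U
  container : ∀ T U, 𝔛.nest U T → (∃ V, 𝔛.nest V T ∧ 𝔛.orth V U) →
    ∃ W, 𝔛.pnest W T ∧ ∀ V, 𝔛.nest V T → 𝔛.orth V U → 𝔛.nest V W
  orth_not_nest : ∀ V W, 𝔛.orth V W → ¬ 𝔛.nest V W ∧ ¬ 𝔛.nest W V
  -- consistency
  cons_trans : ∀ V W, 𝔛.trans V W → ∀ x,
    sd (𝔛.π W x) (𝔛.ρ V W) ≤ K ∨ sd (𝔛.π V x) (𝔛.ρ W V) ≤ K
  cons_nest : ∀ V W, 𝔛.pnest V W → ∀ x,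
    sd (𝔛.π W x) (𝔛.ρ V W) ≤ K ∨ DiamLE K (𝔛.π V x ∪ ⋃ p ∈ 𝔛.π W x, 𝔛.ρd W V p)
  cons_ρ : ∀ U V W, 𝔛.nest U V → (𝔛.pnest V W ∨ (𝔛.trans V W ∧ ¬ 𝔛.orth W U)) →
    sd (𝔛.ρ U W) (𝔛.ρ V W) ≤ K
  -- finite complexity
  complexity : ∃ n : ℕ, ∀ s : Finset 𝔛.Dom, (∀ U ∈ s, ∀ V ∈ s, 𝔛.nest U V ∨ 𝔛.nest V U) →
    s.card ≤ n
  -- large links
  large_links : ∀ W x x', ∃ F : Finset 𝔛.Dom, (F.card : ℝ) ≤ K * 𝔛.dom W x x' + K ∧
    (∀ T ∈ F, 𝔛.pnest T W ∧ sd (𝔛.π W x) (𝔛.ρ T W) ≤ K * 𝔛.dom W x x' + K) ∧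
    ∀ U, 𝔛.pnest U W → (∃ T ∈ F, 𝔛.nest U T) ∨ 𝔛.dom U x x' < K
  -- bounded geodesic image
  bgi : ∀ V W, 𝔛.pnest V W → ∀ (γ : ℝ → 𝔛.C W) (l : ℝ), IsGeod γ l →
    DiamLE K (⋃ t ∈ Set.Icc (0 : ℝ) l, 𝔛.ρd W V (γ t)) ∨
    ∃ t ∈ Set.Icc (0 : ℝ) l, ∃ p ∈ 𝔛.ρ V W, dist (γ t) p ≤ K
  -- partial realization
  realization : ∀ (F : Set 𝔛.Dom), (∀ U ∈ F, ∀ V ∈ F, U ≠ V → 𝔛.orth U V) →
    ∀ p : ∀ U, 𝔛.C U, ∃ x, ∀ U ∈ F, sd (𝔛.π U x) {p U} ≤ K ∧
      (∀ W, (𝔛.pnest U W ∨ 𝔛.trans U W) → sd (𝔛.π W x) (𝔛.ρ U W) ≤ K)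
  -- uniqueness
  uniqueness : ∀ κ : ℝ, ∃ θ : ℝ, ∀ x y, θ ≤ d x y → ∃ U, κ ≤ 𝔛.dom U x y
  -- distance formula
  distance : ∃ s₀ : ℝ, ∀ s ≥ s₀, ∃ A : ℝ, ∀ x y,
    {U | s ≤ 𝔛.dom U x y}.Finite ∧
    (∑ᶠ U, thr s (𝔛.dom U x y)) ≤ A * d x y + A ∧
    d x y ≤ A * (∑ᶠ U, thr s (𝔛.dom U x y)) + A

/-! ### Hierarchically hyperbolic groups -/

/-- word length of `g` with respect to the finite set `S` -/
noncomputable def wlen {G : Type} [Group G] (S : Finset G) (g : G) : ℕ :=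
  sInf {n | ∃ l : List G, l.length = n ∧ (∀ x ∈ l, x ∈ S ∨ x⁻¹ ∈ S) ∧ l.prod = g}

/-- word metric -/
noncomputable def wd {G : Type} [Group G] (S : Finset G) (g h : G) : ℝ := wlen S (g⁻¹ * h)

/-- The Cayley graph of `G` with respect to `S` is hyperbolic (four point condition of Gromov on
the vertices, for the word metric). -/
def HypCayley {G : Type} [Group G] (S : Finset G) : Prop :=
  ∃ δ : ℝ, ∀ x y z w : G,
    wd S x y + wd S z w ≤ max (wd S x z + wd S y w) (wd S x w + wd S y z) + δ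

/-- A hierarchically hyperbolic group structure on `G` (generated by the finite set `S`): a
hierarchically hyperbolic structure on `G` with the word metric, an action of `G` on the set of
domains with finitely many orbits, preserving nesting and orthogonality (hence transversality),
and isometries `C U → C (g U)`, compatible with products, with the projections and with the
relative projections. -/
structure HHG (G : Type) [Group G] (S : Finset G) where
  H : Hier G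
  K : ℝ
  isHHS : IsHHS (wd S) H K
  act : G → H.Dom → H.Dom
  act_one : ∀ U, act 1 U = U
  act_mul : ∀ g h U, act (g * h) U = act g (act h U)
  cofinite : ∃ F : Finset H.Dom, ∀ U, ∃ g, ∃ V ∈ F, act g V = U
  act_nest : ∀ g U V, H.nest (act g U) (act g V) ↔ H.nest U V
  act_orth : ∀ g U V, H.orth (act g U) (act g V) ↔ H.orth U V
  iso : ∀ (g : G) (U : H.Dom), H.C U → H.C (act g U)
  iso_isom : ∀ g U p q, dist (iso g U p) (iso g U q) = dist p q
  iso_surj : ∀ g U, Function.Surjective (iso g U)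
  iso_one : ∀ U p, HEq (iso 1 U p) p
  iso_mul : ∀ g h U p, HEq (iso (g * h) U p) (iso g (act h U) (iso h U p))
  iso_π : ∀ g U x, H.π (act g U) (g * x) = iso g U '' H.π U x
  iso_ρ : ∀ g U V, (H.pnest U V ∨ H.trans U V) → H.ρ (act g U) (act g V) = iso g V '' H.ρ U V
  iso_ρd : ∀ g W V p, H.pnest V W →
    H.ρd (act g W) (act g V) (iso g W p) = iso g V '' H.ρd W V p

/-! ### The boundary (Durham, Hagen, Sisto) -/

/-- A boundary point: a formal convex combination `∑ w U • pt U` over a finite nonempty set of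
pairwise orthogonal domains (those with `w U ≠ 0`) of points `pt U` of the Gromov boundaries. -/
structure BPt {X : Type} (𝔛 : Hier X) where
  w : 𝔛.Dom → ℝ
  nonneg : ∀ U, 0 ≤ w U
  fin : (Function.support w).Finite
  sum : ∑ᶠ U, w U = 1
  orth : ∀ U V, w U ≠ 0 → w V ≠ 0 → U ≠ V → 𝔛.orth U V
  pt : ∀ U, w U ≠ 0 → Boundary (𝔛.C U)

/-- The boundary projection of `q` to the space of a domain `U` outside the support of `q`: for a
domain `T` in the support which is not orthogonal to `U` it is `ρ T U` if `T` is properly nested in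
`U` or transverse to `U`, and it is `ρd T U y` for `y` close to the boundary point `q_T` (Gromov
product at least `R`) if `U` is properly nested in `T`. -/
def bproj {X : Type} (𝔛 : Hier X) (x₀ : X) (q : BPt 𝔛) (R : ℝ) (U : 𝔛.Dom) : Set (𝔛.C U) :=
  {a | (∃ T, q.w T ≠ 0 ∧ (𝔛.pnest T U ∨ 𝔛.trans T U) ∧ a ∈ 𝔛.ρ T U) ∨
    (∃ T, ∃ h : q.w T ≠ 0, 𝔛.pnest U T ∧
      ∃ y : 𝔛.C T, (∀ o ∈ 𝔛.π T x₀, PB o R y (q.pt T h)) ∧ a ∈ 𝔛.ρd T U y)}

/-- Distance from the base point to the boundary projection. -/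
noncomputable def bdist {X : Type} (𝔛 : Hier X) (x₀ : X) (q : BPt 𝔛) (R : ℝ) (U : 𝔛.Dom) : ℝ :=
  sd (𝔛.π U x₀) (bproj 𝔛 x₀ q R U)

/-- The basic neighbourhood of the boundary point `p` with parameters `R` (large) and `ε` (small).
It consists of the boundary points `q` such that
(1) on the common support, the points are `R`-close and the weights `ε`-close,
(2) each domain of the support of `p` which is not in the support of `q` is not orthogonal to some
domain of the support of `q`, the boundary projection of `q` to it is `R`-close to the point of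
`p`, and the quotients of the distances from the base point to these projections are `ε`-close to
the quotients of the weights,
(3) the total weight of `q` on the domains orthogonal to the whole support of `p` is less than `ε`,
(4) the distance to the boundary projection of `q` to a domain orthogonal to the whole support of
`p` is less than `ε` times the distances occurring in (2). -/
def bnhd {X : Type} (𝔛 : Hier X) (x₀ : X) (p : BPt 𝔛) (R ε : ℝ) : Set (BPt 𝔛) :=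
  {q |
    (∀ U, ∀ hp : p.w U ≠ 0, ∀ hq : q.w U ≠ 0,
      |q.w U - p.w U| < ε ∧ ∀ o ∈ 𝔛.π U x₀, Near o R (p.pt U hp) (q.pt U hq)) ∧
    (∀ U, p.w U ≠ 0 → q.w U = 0 → ∃ T, q.w T ≠ 0 ∧ ¬ 𝔛.orth T U) ∧
    (∑ᶠ T ∈ {T | ∀ U, p.w U ≠ 0 → 𝔛.orth T U}, q.w T) < ε ∧
    ∃ R₀ : ℝ, ∀ R' ≥ R₀,
      (∀ U, ∀ hp : p.w U ≠ 0, q.w U = 0 →
        ∀ a ∈ bproj 𝔛 x₀ q R' U, ∀ o ∈ 𝔛.π U x₀, PB o R a (p.pt U hp)) ∧
      (∀ U U', p.w U ≠ 0 → q.w U = 0 → p.w U' ≠ 0 → q.w U' = 0 →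
        |bdist 𝔛 x₀ q R' U / bdist 𝔛 x₀ q R' U' - p.w U / p.w U'| < ε) ∧
      (∀ U V, p.w U ≠ 0 → q.w U = 0 → (∀ U', p.w U' ≠ 0 → 𝔛.orth V U') → q.w V = 0 →
        (∃ T, q.w T ≠ 0 ∧ ¬ 𝔛.orth T V) →
        bdist 𝔛 x₀ q R' V / bdist 𝔛 x₀ q R' U < ε)}

theorem Near.mono {X : Type} [MetricSpace X] {o : X} {R R' : ℝ} {ξ ζ : Boundary X}
    (h : Near o R ξ ζ) (hR : R' ≤ R) : Near o R' ξ ζ := by
  obtain ⟨u, v, hu, hv, N, hN⟩ := h
  exact ⟨u, v, hu, hv, N, fun m hm n hn => hR.trans (hN m hm n hn)⟩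

theorem PB.mono {X : Type} [MetricSpace X] {o : X} {R R' : ℝ} {x : X} {ζ : Boundary X}
    (h : PB o R x ζ) (hR : R' ≤ R) : PB o R' x ζ := by
  obtain ⟨u, hu, N, hN⟩ := h
  exact ⟨u, hu, N, fun n hn => hR.trans (hN n hn)⟩

theorem bnhd_mono {X : Type} (𝔛 : Hier X) (x₀ : X) (p : BPt 𝔛) {R R' ε ε' : ℝ}
    (hR : R' ≤ R) (hε : ε ≤ ε') : bnhd 𝔛 x₀ p R ε ⊆ bnhd 𝔛 x₀ p R' ε' := by
  rintro q ⟨h1, h2, h3, R₀, h4⟩
  refine ⟨fun U hp hq => ⟨(h1 U hp hq).1.trans_le hε, fun o ho => ((h1 U hp hq).2 o ho).mono hR⟩,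
    h2, h3.trans_le hε, R₀, fun S hS => ?_⟩
  obtain ⟨a, b, c⟩ := h4 S hS
  exact ⟨fun U hp hq x hx o ho => (a U hp hq x hx o ho).mono hR,
    fun U U' k1 k2 k3 k4 => (b U U' k1 k2 k3 k4).trans_le hε,
    fun U V' k1 k2 k3 k4 k5 => (c U V' k1 k2 k3 k4 k5).trans_le hε⟩

/-- The topology of the boundary: a set is open if it contains a basic neighbourhood of each of its
points. -/
@[reducible] def bTop {X : Type} (𝔛 : Hier X) (x₀ : X) : TopologicalSpace (BPt 𝔛) where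
  IsOpen O := ∀ p ∈ O, ∃ R ε : ℝ, 0 < ε ∧ bnhd 𝔛 x₀ p R ε ⊆ O
  isOpen_univ := fun _ _ => ⟨0, 1, one_pos, fun _ _ => trivial⟩
  isOpen_inter := by
    intro U V hU hV p hp
    obtain ⟨R, ε, hε, h⟩ := hU p hp.1
    obtain ⟨R', ε', hε', h'⟩ := hV p hp.2
    refine ⟨max R R', min ε ε', lt_min hε hε', fun q hq => ⟨h ?_, h' ?_⟩⟩
    · exact bnhd_mono 𝔛 x₀ p (le_max_left _ _) (min_le_left _ _) hq
    · exact bnhd_mono 𝔛 x₀ p (le_max_right _ _) (min_le_right _ _) hq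
  isOpen_sUnion := by
    intro S hS p hp
    obtain ⟨U, hU, hpU⟩ := hp
    obtain ⟨R, ε, hε, h⟩ := hS U hU p hpU
    exact ⟨R, ε, hε, fun q hq => ⟨U, hU, h hq⟩⟩

/-- The hierarchically hyperbolic boundary of a group with a hierarchically hyperbolic group
structure (base point: the neutral element). -/
def HHG.boundary {G : Type} [Group G] {S : Finset G} (𝔊 : HHG G S) : Type := BPt 𝔊.H

instance {G : Type} [Group G] {S : Finset G} (𝔊 : HHG G S) : TopologicalSpace 𝔊.boundary :=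
  bTop 𝔊.H 1

end Pool.Agent.Helper548.HB
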