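import Pool.Agent.Helper548.HB.Core

set_option autoImplicit false

/-! The topology of the hierarchically hyperbolic boundary with the separate definition of the
remote and of the non-remote part of a basic neighbourhood. -/

namespace Pool.Agent.Helper548.HB

/-- The boundary point `q` is remote with respect to the support of `p`: the supports are disjoint
and every domain of the support of `p` is not orthogonal to some domain of the support of `q`. -/
def Remote {X : Type} (𝔛 : Hier X) (p q : BPt 𝔛) : Prop :=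
  (∀ U, p.w U ≠ 0 → q.w U = 0) ∧ ∀ U, p.w U ≠ 0 → ∃ T, q.w T ≠ 0 ∧ ¬ 𝔛.orth T U

/-- The remote part of the basic neighbourhood: remote points `q` such that
(1) the boundary projections of `q` to the domains of the support of `p` are `R`-close to the
points of `p`,
(2) the quotients of the distances from the base point to these projections are `ε`-close to the
quotients of the weights,
(3) the distance to the boundary projection of `q` to a domain orthogonal to the support of `p` is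
less than `ε` times the distances occurring in (2),
(4) the total weight of `q` on the domains orthogonal to the support of `p` is less than `ε`. -/
def bnhdRem {X : Type} (𝔛 : Hier X) (x₀ : X) (p : BPt 𝔛) (R ε : ℝ) : Set (BPt 𝔛) :=
  {q | Remote 𝔛 p q ∧
    (∃ R₀ : ℝ, ∀ R' ≥ R₀,
      (∀ U, ∀ hp : p.w U ≠ 0, ∀ a ∈ bproj 𝔛 x₀ q R' U, ∀ o ∈ 𝔛.π U x₀, PB o R a (p.pt U hp)) ∧
      (∀ U U', p.w U ≠ 0 → p.w U' ≠ 0 →
        |bdist 𝔛 x₀ q R' U / bdist 𝔛 x₀ q R' U' - p.w U / p.w U'| < ε) ∧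
      (∀ U V, p.w U ≠ 0 → (∀ U', p.w U' ≠ 0 → 𝔛.orth V U') → q.w V = 0 →
        (∃ T, q.w T ≠ 0 ∧ ¬ 𝔛.orth T V) →
        bdist 𝔛 x₀ q R' V / bdist 𝔛 x₀ q R' U < ε)) ∧
    (∑ᶠ T ∈ {T | ∀ U, p.w U ≠ 0 → 𝔛.orth T U}, q.w T) < ε}

/-- The non-remote part of the basic neighbourhood: points `q` which are not remote, such that
(1) the total weight of `q` outside the support of `p` is less than `ε`,
(2) on the common support, the points are `R`-close and the weights `ε`-close. -/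
def bnhdNon {X : Type} (𝔛 : Hier X) (x₀ : X) (p : BPt 𝔛) (R ε : ℝ) : Set (BPt 𝔛) :=
  {q | ¬ Remote 𝔛 p q ∧ (∑ᶠ T ∈ {T | p.w T = 0}, q.w T) < ε ∧
    ∀ U, ∀ hp : p.w U ≠ 0, ∀ hq : q.w U ≠ 0,
      |q.w U - p.w U| < ε ∧ ∀ o ∈ 𝔛.π U x₀, Near o R (p.pt U hp) (q.pt U hq)}

/-- The basic neighbourhood: union of the remote and the non-remote part. -/
def bnhdLit {X : Type} (𝔛 : Hier X) (x₀ : X) (p : BPt 𝔛) (R ε : ℝ) : Set (BPt 𝔛) :=
  bnhdRem 𝔛 x₀ p R ε ∪ bnhdNon 𝔛 x₀ p R ε

theorem bnhdLit_mono {X : Type} (𝔛 : Hier X) (x₀ : X) (p : BPt 𝔛) {R R' ε ε' : ℝ}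
    (hR : R' ≤ R) (hε : ε ≤ ε') : bnhdLit 𝔛 x₀ p R ε ⊆ bnhdLit 𝔛 x₀ p R' ε' := by
  rintro q (⟨h1, ⟨R₀, h4⟩, h3⟩ | ⟨h1, h2, h3⟩)
  · refine Or.inl ⟨h1, ⟨R₀, fun S hS => ?_⟩, h3.trans_le hε⟩
    obtain ⟨a, b, c⟩ := h4 S hS
    exact ⟨fun U hp x hx o ho => (a U hp x hx o ho).mono hR,
      fun U U' k1 k2 => (b U U' k1 k2).trans_le hε,
      fun U V' k1 k2 k3 k4 => (c U V' k1 k2 k3 k4).trans_le hε⟩
  · exact Or.inr ⟨h1, h2.trans_le hε, fun U hp hq =>
      ⟨(h3 U hp hq).1.trans_le hε, fun o ho => ((h3 U hp hq).2 o ho).mono hR⟩⟩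

/-- The topology of the boundary defined by these neighbourhoods: a set is open if it contains a
basic neighbourhood of each of its points. -/
@[reducible] def bTopLit {X : Type} (𝔛 : Hier X) (x₀ : X) : TopologicalSpace (BPt 𝔛) where
  IsOpen O := ∀ p ∈ O, ∃ R ε : ℝ, 0 < ε ∧ bnhdLit 𝔛 x₀ p R ε ⊆ O
  isOpen_univ := fun _ _ => ⟨0, 1, one_pos, fun _ _ => trivial⟩
  isOpen_inter := by
    intro U V hU hV p hp
    obtain ⟨R, ε, hε, h⟩ := hU p hp.1
    obtain ⟨R', ε', hε', h'⟩ := hV p hp.2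
    refine ⟨max R R', min ε ε', lt_min hε hε', fun q hq => ⟨h ?_, h' ?_⟩⟩
    · exact bnhdLit_mono 𝔛 x₀ p (le_max_left _ _) (min_le_left _ _) hq
    · exact bnhdLit_mono 𝔛 x₀ p (le_max_right _ _) (min_le_right _ _) hq
  isOpen_sUnion := by
    intro S hS p hp
    obtain ⟨U, hU, hpU⟩ := hp
    obtain ⟨R, ε, hε, h⟩ := hS U hU p hpU
    exact ⟨R, ε, hε, fun q hq => ⟨U, hU, h hq⟩⟩

/-- The hierarchically hyperbolic boundary with the topology defined by the remote and non-remote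
parts of the basic neighbourhoods (base point: the neutral element). -/
def HHG.boundaryLit {G : Type} [Group G] {S : Finset G} (𝔊 : HHG G S) : Type := BPt 𝔊.H

instance {G : Type} [Group G] {S : Finset G} (𝔊 : HHG G S) : TopologicalSpace 𝔊.boundaryLit :=
  bTopLit 𝔊.H 1

end Pool.Agent.Helper548.HB
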