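import Mathlib
import Pool.Agent.Helper548.HB.Core
set_option autoImplicit false

/-! Auxiliary definitions for the proof: the group, its hierarchy, the model of the boundary. -/

namespace Pool.Agent.Helper548.HB

/-- the free group on a (= false) and c (= true) -/
abbrev H : Type := FreeGroup Bool

/-- the vertex group F(a,c) x Z -/
abbrev V : Type := H × Multiplicative ℤ

/-- the generators of the vertex group -/
def ga : V := (FreeGroup.of false, 1)
def gc : V := (FreeGroup.of true, 1)
def gz : V := (1, Multiplicative.ofAdd 1)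

/-- A group G generated by (an injective copy of) V = F(a,c) x Z and an involution s with
s c s = c⁻¹ s c⁻¹, with a function `head` (first entry of the normal form, the gate in V of the
elements outside V). It is the amalgam of V and PSL(2,Z) = < s, u = s c > along < c >. -/
structure GData where
  G : Type
  [grp : Group G]
  ι : V →* G
  s : G
  head : G → V
  ι_inj : Function.Injective ι
  s_mul_s : s * s = 1
  scs : s * ι gc * s = ι gc⁻¹ * s * ι gc⁻¹
  gen : Subgroup.closure (Set.range ι ∪ {s}) = ⊤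
  s_not_mem : s ∉ ι.range
  head_s : head s = 1
  head_left : ∀ (v : V) (g : G), g ∉ ι.range → head (ι v * g) = v * head g
  head_right : ∀ (v : V) (g : G), g ∉ ι.range → head (g * ι v) = head g
  head_step : ∀ g : G, g ∉ ι.range → g * s ∉ ι.range →
    head (g * s) = head g ∨
    (head (g * s) = head g * gc ∧ ∃ v : V, g = ι (head g) * s * ι v) ∨
    (head g = head (g * s) * gc ∧ ∃ v : V, g * s = ι (head (g * s)) * s * ι v)
  head_s_mul : ∀ g : G, g ∉ ι.range → (∀ j : ℤ, j ≤ 1 → head g ≠ gc ^ j) → head (s * g) = 1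

attribute [instance] GData.grp


/-- a geodesic realisation of a connected graph with a group of automorphisms -/
structure Realz {W : Type} (Γ : SimpleGraph W) (A : Type) [Group A] [MulAction A W] where
  X : Type
  [met : MetricSpace X]
  [act : MulAction A X]
  ι : W → X
  geod : GeodesicSpace X
  isom : ∀ (g : A) (x y : X), dist (g • x) (g • y) = dist x y
  dist_ι : ∀ a b, dist (ι a) (ι b) = (Γ.dist a b : ℝ)
  ι_smul : ∀ (g : A) (a : W), ι (g • a) = g • ι a
  dense : ∀ x : X, ∃ a, dist x (ι a) ≤ 1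

attribute [instance] Realz.met Realz.act

/-- Cayley tree of H -/
def TG : SimpleGraph H where
  Adj g h := ∃ b : Bool, h = g * FreeGroup.of b ∨ g = h * FreeGroup.of b
  symm := ⟨fun _ _ ⟨b, hb⟩ => ⟨b, hb.symm⟩⟩
  loopless := ⟨fun g ⟨b, hb⟩ => by
    have h1 : FreeGroup.of b = (1 : H) := by
      rcases hb with h | h <;> exact (mul_eq_left.1 h.symm)
    exact FreeGroup.of_ne_one b h1⟩

/-- exponent sum of c -/
noncomputable def psi : H →* Multiplicative ℤ :=
  FreeGroup.lift fun b => if b then Multiplicative.ofAdd 1 else 1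

/-- the coordinate of the element (h, n) of V in the line: n + t psi(h) -/
noncomputable def lam (t : ℝ) (v : V) : ℝ := (v.2.toAdd : ℝ) + t * ((psi v.1).toAdd : ℝ)

namespace GData
variable (D : GData)

/-- the vertices of the graph: cosets of V -/
abbrev Q : Type := D.G ⧸ D.ι.range

/-- the coned-off graph: `g V` is adjacent to `g s V` -/
def Γ : SimpleGraph D.Q where
  Adj x y := ∃ g : D.G, x = (g : D.Q) ∧ y = ((g * D.s : D.G) : D.Q)
  symm := ⟨fun x y ⟨g, h1, h2⟩ => ⟨g * D.s, h2, by rw [mul_assoc, D.s_mul_s, mul_one]; exact h1⟩⟩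
  loopless := ⟨fun x ⟨g, h1, h2⟩ => by
    rw [h1] at h2
    have := (QuotientGroup.eq.1 h2)
    rw [inv_mul_cancel_left] at this
    exact D.s_not_mem this⟩

open Classical in
/-- the retraction of G onto V: v ↦ v on V and the head outside V -/
noncomputable def cut (g : D.G) : V :=
  if h : g ∈ D.ι.range then h.choose else D.head g

/-- the coordinates of the gate of `g` in the coset `x` -/
noncomputable def co (x : D.Q) (g : D.G) : V := D.cut (x.out⁻¹ * g)

/-- the coordinates of the gate of the coset `y` in the coset `x` (meaningful for `y ≠ x`) -/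
noncomputable def cq (x y : D.Q) : V := D.co x y.out

end GData

/-- the domains -/
inductive Dm (D : GData) : Type
  | S : Dm D
  | T (x : D.Q) : Dm D
  | L (x : D.Q) : Dm D

section Hierarchy
variable (D : GData) (RG : Realz D.Γ D.G) (RT : Realz TG H) (t : ℝ)

/-- the space of a domain -/
def Dm.C : Dm D → Type
  | .S => RG.X
  | .T _ => RT.X
  | .L _ => ℝ

instance Dm.met : ∀ U : Dm D, MetricSpace (Dm.C D RG RT U)
  | .S => RG.met
  | .T _ => RT.met
  | .L _ => (inferInstance : MetricSpace ℝ)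

/-- nesting -/
def Dm.nest : Dm D → Dm D → Prop
  | U, V => U = V ∨ V = .S

/-- orthogonality: `T x ⟂ L x` -/
def Dm.orth : Dm D → Dm D → Prop
  | .T x, .L y => x = y
  | .L x, .T y => x = y
  | _, _ => False

/-- projections -/
noncomputable def Dm.π : ∀ U : Dm D, D.G → Set (Dm.C D RG RT U)
  | .S, g => {RG.ι (g : D.Q)}
  | .T x, g => {RT.ι (D.co x g).1}
  | .L x, g => {lam t (D.co x g)}

/-- relative projections, upwards and transverse -/
noncomputable def Dm.ρ : ∀ _U W : Dm D, Set (Dm.C D RG RT W)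
  | .T x, .S => {RG.ι x}
  | .L x, .S => {RG.ι x}
  | .T y, .T x => {RT.ι (D.cq x y).1}
  | .L y, .T x => {RT.ι (D.cq x y).1}
  | .T y, .L x => {lam t (D.cq x y)}
  | .L y, .L x => {lam t (D.cq x y)}
  | .S, _ => ∅

/-- relative projections, downwards -/
noncomputable def Dm.ρd : ∀ W U : Dm D, Dm.C D RG RT W → Set (Dm.C D RG RT U)
  | .S, .T x, p => {a | dist p (RG.ι x) ≤ 3 ∨ ∃ y, dist p (RG.ι y) ≤ 1 ∧ a = RT.ι (D.cq x y).1}
  | .S, .L x, p => {a | dist p (RG.ι x) ≤ 3 ∨ ∃ y, dist p (RG.ι y) ≤ 1 ∧ a = lam t (D.cq x y)}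
  | _, _, _ => ∅

/-- the hierarchy -/
noncomputable def hier : Hier D.G where
  Dom := Dm D
  C := Dm.C D RG RT
  met := Dm.met D RG RT
  nest := Dm.nest D
  orth := Dm.orth D
  π := Dm.π D RG RT t
  ρ := Dm.ρ D RG RT t
  ρd := Dm.ρd D RG RT t

/-- the generating set {a, c, z, s} -/
noncomputable def GData.gens : Finset D.G := by
  classical
  exact {D.ι ga, D.ι gc, D.ι gz, D.s}

end Hierarchy

/-- the constant used in all axioms -/
noncomputable def KK (t : ℝ) : ℝ := 100 + 20 * |t|

/-- size of an element of V: word length in the product -/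
def vsz (v : V) : ℕ := FreeGroup.norm v.1 + v.2.toAdd.natAbs

section Model


/-- the sequences n and -n in the real line -/
def rseq (b : Bool) : GromovSeq ℝ where
  seq n := if b then (n : ℝ) else -(n : ℝ)
  conv := by
    intro o R
    obtain ⟨N, hN⟩ := exists_nat_ge (R + |o|)
    refine ⟨N, fun m hm n hn => ?_⟩
    have hm' : (N : ℝ) ≤ m := by exact_mod_cast hm
    have hn' : (N : ℝ) ≤ n := by exact_mod_cast hn
    unfold gprod
    simp only [Real.dist_eq]
    have h1 := le_abs_self o
    have h2 := neg_abs_le o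
    have hm0 : (0 : ℝ) ≤ m := Nat.cast_nonneg m
    have hn0 : (0 : ℝ) ≤ n := Nat.cast_nonneg n
    cases b
    · simp only [Bool.false_eq_true, if_false]
      have e1 := neg_abs_le (-(m : ℝ) - o)
      have e2 := neg_abs_le (-(n : ℝ) - o)
      have e3 : |-(m : ℝ) - -(n : ℝ)| ≤ m + n - 2 * N := by
        rw [abs_le]; constructor <;> linarith
      linarith
    · simp only [if_true]
      have e1 := le_abs_self ((m : ℝ) - o)
      have e2 := le_abs_self ((n : ℝ) - o)
      have e3 : |(m : ℝ) - n| ≤ m + n - 2 * N := by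
        rw [abs_le]; constructor <;> linarith
      linarith

/-- the two ends of the real line -/
def rinf (b : Bool) : Boundary ℝ := (rseq b).lim

/-- sign -/
def sgb (b : Bool) : ℝ := if b then 1 else -1

/-- Model of the boundary: `lim` the boundary points of the coned-off graph; `arc x ξ r` the point
of the join of the end ξ of the tree at x and of an end of the line at x, with slope r = (weight of
the line)/(weight of the tree), signed; `pole x b` the ends of the line at x. -/
inductive MPt (D : GData) (RG : Realz D.Γ D.G) (RT : Realz TG H) : Type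
  | lim (ω : Boundary RG.X)
  | arc (x : D.Q) (ξ : Boundary RT.X) (r : ℝ)
  | pole (x : D.Q) (b : Bool)

variable {D : GData} {RG : Realz D.Γ D.G} {RT : Realz TG H}

/-- the point q is not at the vertex x and its gate in x has coordinates v -/
def MPt.away (x : D.Q) (v : V) : MPt D RG RT → Prop
  | .lim ω => ∃ R : ℝ, ∀ y : D.Q,
      PB (RG.ι ((1 : D.G) : D.Q)) R (RG.ι y) ω → y ≠ x ∧ D.cq x y = v
  | .arc y _ _ => y ≠ x ∧ D.cq x y = v
  | .pole y _ => y ≠ x ∧ D.cq x y = v

/-- q is close to the boundary point ω of the coned-off graph -/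
def MPt.nearlim (ω : Boundary RG.X) (R : ℝ) : MPt D RG RT → Prop
  | .lim ω' => Near (RG.ι ((1 : D.G) : D.Q)) R ω ω'
  | .arc y _ _ => PB (RG.ι ((1 : D.G) : D.Q)) R (RG.ι y) ω
  | .pole y _ => PB (RG.ι ((1 : D.G) : D.Q)) R (RG.ι y) ω

/-- basic neighbourhoods in the model -/
def mnhd (t : ℝ) : MPt D RG RT → ℝ → ℝ → Set (MPt D RG RT)
  | .lim ω, R, _ => {q | q.nearlim ω R}
  | .arc x ξ r, R, ε => {q |
      (∃ ξ' r', q = .arc x ξ' r' ∧ Near (RT.ι 1) R ξ ξ' ∧ |r' - r| < ε) ∨
      (∃ v, q.away x v ∧ PB (RT.ι 1) R (RT.ι v.1) ξ ∧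
        |lam t v / (FreeGroup.norm v.1 : ℝ) - r| < ε)}
  | .pole x b, R, ε => {q | q = .pole x b ∨
      (∃ ξ' r', q = .arc x ξ' r' ∧ R < sgb b * r') ∨
      (∃ v, q.away x v ∧ R < sgb b * lam t v ∧ (FreeGroup.norm v.1 : ℝ) < ε * |lam t v|)}

theorem mnhd_mono (t : ℝ) (p : MPt D RG RT) {R R' ε ε' : ℝ} (hR : R' ≤ R) (hε : ε ≤ ε') :
    mnhd t p R ε ⊆ mnhd t p R' ε' := by
  cases p with
  | lim ω =>
    intro q hq
    cases q with
    | lim ω' => exact Near.mono hq hR
    | arc y _ _ => exact PB.mono hq hR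
    | pole y _ => exact PB.mono hq hR
  | arc x ξ r =>
    rintro q (⟨ξ', r', h1, h2, h3⟩ | ⟨v, h1, h2, h3⟩)
    · exact Or.inl ⟨ξ', r', h1, h2.mono hR, h3.trans_le hε⟩
    · exact Or.inr ⟨v, h1, h2.mono hR, h3.trans_le hε⟩
  | pole x b =>
    rintro q (h | ⟨ξ', r', h1, h2⟩ | ⟨v, h1, h2, h3⟩)
    · exact Or.inl h
    · exact Or.inr (Or.inl ⟨ξ', r', h1, hR.trans_lt h2⟩)
    · exact Or.inr (Or.inr ⟨v, h1, hR.trans_lt h2,
        h3.trans_le (mul_le_mul_of_nonneg_right hε (abs_nonneg _))⟩)

/-- topology of the model -/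
@[reducible] def mTop (t : ℝ) (D : GData) (RG : Realz D.Γ D.G) (RT : Realz TG H) :
    TopologicalSpace (MPt D RG RT) where
  IsOpen O := ∀ p ∈ O, ∃ R ε : ℝ, 0 < ε ∧ mnhd t p R ε ⊆ O
  isOpen_univ := fun _ _ => ⟨0, 1, one_pos, fun _ _ => trivial⟩
  isOpen_inter := by
    intro U V hU hV p hp
    obtain ⟨R, ε, hε, h⟩ := hU p hp.1
    obtain ⟨R', ε', hε', h'⟩ := hV p hp.2
    refine ⟨max R R', min ε ε', lt_min hε hε', fun q hq => ⟨h ?_, h' ?_⟩⟩
    · exact mnhd_mono t p (le_max_left _ _) (min_le_left _ _) hq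
    · exact mnhd_mono t p (le_max_right _ _) (min_le_right _ _) hq
  isOpen_sUnion := by
    intro S hS p hp
    obtain ⟨U, hU, hpU⟩ := hp
    obtain ⟨R, ε, hε, h⟩ := hS U hU p hpU
    exact ⟨R, ε, hε, fun q hq => ⟨U, hU, h hq⟩⟩

open Classical in
/-- weights of the model points -/
noncomputable def MPt.w : MPt D RG RT → Dm D → ℝ
  | .lim _, .S => 1
  | .lim _, _ => 0
  | .arc _ _ _, .S => 0
  | .arc x _ r, .T y => if y = x then 1 / (1 + |r|) else 0
  | .arc x _ r, .L y => if y = x then |r| / (1 + |r|) else 0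
  | .pole x _, .L y => if y = x then 1 else 0
  | .pole _ _, _ => 0

/-- points of the model points -/
noncomputable def MPt.bp : ∀ (p : MPt D RG RT) (U : Dm D), p.w U ≠ 0 →
    Boundary (Dm.C D RG RT U)
  | .lim ω, .S, _ => ω
  | .lim _, .T _, h => (h rfl).elim
  | .lim _, .L _, h => (h rfl).elim
  | .arc _ _ _, .S, h => (h rfl).elim
  | .arc _ ξ _, .T _, _ => ξ
  | .arc _ _ r, .L _, _ => open Classical in rinf (decide (0 < r))
  | .pole _ _, .S, h => (h rfl).elim
  | .pole _ _, .T _, h => (h rfl).elim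
  | .pole _ b, .L _, _ => rinf b

theorem MPt.w_nonneg (p : MPt D RG RT) (U : Dm D) : 0 ≤ p.w U := by
  cases p <;> cases U <;> simp only [MPt.w] <;> (try split_ifs) <;> positivity

theorem MPt.w_supp (p : MPt D RG RT) : ∃ F : Finset (Dm D), Function.support p.w ⊆ F ∧
    ∑ U ∈ F, p.w U = 1 := by
  classical
  cases p with
  | lim ω =>
    refine ⟨{.S}, ?_, by simp [MPt.w]⟩
    intro U hU
    cases U with
    | S => simp
    | T x => exact absurd rfl hU
    | L x => exact absurd rfl hU
  | arc x ξ r =>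
    refine ⟨{.T x, .L x}, ?_, ?_⟩
    · intro U hU
      cases U with
      | S => exact absurd rfl hU
      | T y =>
        by_cases h : y = x
        · subst h; simp
        · exact absurd (by simp [MPt.w, h]) hU
      | L y =>
        by_cases h : y = x
        · subst h; simp
        · exact absurd (by simp [MPt.w, h]) hU
    · rw [Finset.sum_pair (by simp)]
      simp only [MPt.w, if_true]
      have : (1 + |r|) ≠ 0 := by positivity
      field_simp
  | pole x b =>
    refine ⟨{.L x}, ?_, by simp [MPt.w]⟩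
    intro U hU
    cases U with
    | S => exact absurd rfl hU
    | T y => exact absurd rfl hU
    | L y =>
      by_cases h : y = x
      · subst h; simp
      · exact absurd (by simp [MPt.w, h]) hU

theorem MPt.w_orth (p : MPt D RG RT) (U V : Dm D) (h : p.w U ≠ 0) (h' : p.w V ≠ 0)
    (hUV : U ≠ V) : Dm.orth D U V := by
  cases p <;> cases U <;> cases V <;> simp_all [MPt.w, Dm.orth]

/-- the boundary point of a model point -/
noncomputable def MPt.toB (t : ℝ) (p : MPt D RG RT) : BPt (hier D RG RT t) where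
  w := p.w
  nonneg := p.w_nonneg
  fin := by
    obtain ⟨F, h, _⟩ := p.w_supp
    exact F.finite_toSet.subset h
  sum := by
    obtain ⟨F, h, h1⟩ := p.w_supp
    exact (finsum_eq_sum_of_support_subset _ h).trans h1
  orth := p.w_orth
  pt := p.bp

/-- basic clopen type sets: points whose tree coordinate at x lies in A -/
def DA (x : D.Q) (A : Set H) : Set (MPt D RG RT) :=
  {q | (∃ ξ r, q = .arc x ξ r ∧ ∃ R : ℝ, ∀ h : H, PB (RT.ι 1) R (RT.ι h) ξ → h ∈ A) ∨
    ∃ v, q.away x v ∧ v.1 ∈ A}

/-- the points beyond the c-line of v at x -/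
def BB (x : D.Q) (v : V) : Set (MPt D RG RT) := {q | ∃ j : ℤ, q.away x (v * gc ^ j)}

/-- the points of the boundary at the vertex y -/
def MPt.atv (y : D.Q) : MPt D RG RT → Prop
  | .lim _ => False
  | .arc z _ _ => z = y
  | .pole z _ => z = y

end Model

/-- half space of the free group behind an a-edge -/
def HS (k : H) (b : Bool) : Set H := {h | (k⁻¹ * h).toWord.head? = some (false, b)}

/-- the end ξ lies in the set A -/
def EndIn (RT : Realz TG H) (A : Set H) (ξ : Boundary RT.X) : Prop :=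
  ∃ R : ℝ, ∀ h : H, PB (RT.ι 1) R (RT.ι h) ξ → h ∈ A

/-- ξ is the limit of h c^n (b = true) or h c^(-n) (b = false) -/
def IsCEnd (RT : Realz TG H) (h : H) (b : Bool) (ξ : Boundary RT.X) : Prop :=
  ∀ R : ℝ, ∃ N : ℕ, ∀ n ≥ N,
    PB (RT.ι 1) R (RT.ι (h * FreeGroup.of true ^ (if b then (n : ℤ) else -(n : ℤ)))) ξ

/-- ends which are not ends of c-lines -/
def Generic (RT : Realz TG H) (ξ : Boundary RT.X) : Prop := ∀ h b, ¬ IsCEnd RT h b ξ

/-- the half of the coned-off graph beyond the edge {gV, gsV} containing gcsV -/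
def RR (D : GData) (g : D.G) : Set D.Q :=
  {x | x ≠ (g : D.Q) ∧ ∃ j : ℤ, 1 ≤ j ∧ D.cut (g⁻¹ * x.out) = gc ^ j}

/-- p and q are separated in (Z ∪ {p,q}) minus F -/
def Sep {X : Type} [TopologicalSpace X] (Z : Set X) (p q : X) (F : Set X) : Prop :=
  q ∉ connectedComponentIn ((Z ∪ {p, q}) \ F) p

/-- points a of the complement of {p,q} which together with one other point, but no single point,
separate p and q in the component of a -/
def Aset {X : Type} [TopologicalSpace X] (p q : X) : Set X :=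
  {a | a ∈ ({p, q} : Set X)ᶜ ∧ ∃ b ∈ connectedComponentIn ({p, q} : Set X)ᶜ a,
    Sep (connectedComponentIn ({p, q} : Set X)ᶜ a) p q {a, b} ∧
    ∀ c ∈ connectedComponentIn ({p, q} : Set X)ᶜ a,
      ¬ Sep (connectedComponentIn ({p, q} : Set X)ᶜ a) p q {c}}

/-- the complement of {p,q} has uncountably many components with at least two points -/
def Wild {X : Type} [TopologicalSpace X] (p q : X) : Prop :=
  p ≠ q ∧ ¬ {C : Set X | C.Nontrivial ∧ ∃ a ∈ ({p, q} : Set X)ᶜ,
    C = connectedComponentIn ({p, q} : Set X)ᶜ a}.Countable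

/-- the topological invariant -/
def Inv (X : Type) [TopologicalSpace X] : Prop :=
  ∃ p q : X, Wild p q ∧ ∃ a ∈ ({p, q} : Set X)ᶜ,
    (closure (Aset p q) ∩ connectedComponentIn ({p, q} : Set X)ᶜ a).Subsingleton

end Pool.Agent.Helper548.HB
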