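import Pool.Agent.Helper548.HB.Defs
import Pool.Agent.Helper548.HB.CoreLit

set_option autoImplicit false

/-! Comparison of both topologies. -/

namespace Pool.Agent.Helper548.HB

theorem lit_sum_le {X : Type} {𝔛 : Hier X} (q : BPt 𝔛) (A B : Set 𝔛.Dom)
    (h : ∀ T, q.w T ≠ 0 → T ∈ A → T ∈ B) :
    (∑ᶠ T ∈ A, q.w T) ≤ ∑ᶠ T ∈ B, q.w T := by
  classical
  rw [finsum_mem_eq_sum_filter _ _ q.fin, finsum_mem_eq_sum_filter _ _ q.fin]
  refine Finset.sum_le_sum_of_subset_of_nonneg ?_ fun T _ _ => q.nonneg T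
  intro T hT
  rw [Finset.mem_filter] at hT ⊢
  refine ⟨hT.1, h T ?_ hT.2⟩
  have := hT.1
  rw [Set.Finite.mem_toFinset] at this
  exact this

theorem lit_split {X : Type} {𝔛 : Hier X} (q : BPt 𝔛) (A : Set 𝔛.Dom) (U₀ : 𝔛.Dom)
    (h : ∀ T, q.w T ≠ 0 → T ∉ A → T = U₀) :
    1 ≤ (∑ᶠ T ∈ A, q.w T) + q.w U₀ := by
  classical
  rw [finsum_mem_eq_sum_filter _ _ q.fin]
  have h1 : ∑ T ∈ q.fin.toFinset, q.w T = 1 := by
    rw [← q.sum, finsum_eq_sum _ q.fin]
  rw [← h1, ← Finset.sum_filter_add_sum_filter_not q.fin.toFinset (fun T => T ∈ A)]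
  have h2 : ∑ T ∈ q.fin.toFinset with T ∉ A, q.w T ≤ q.w U₀ := by
    have h3 : (q.fin.toFinset.filter fun T => T ∉ A) ⊆ {U₀} := by
      intro T hT
      rw [Finset.mem_filter, Set.Finite.mem_toFinset] at hT
      rw [Finset.mem_singleton]
      exact h T hT.1 hT.2
    calc ∑ T ∈ q.fin.toFinset with T ∉ A, q.w T ≤ ∑ T ∈ {U₀}, q.w T :=
          Finset.sum_le_sum_of_subset_of_nonneg h3 fun T _ _ => q.nonneg T
      _ = q.w U₀ := Finset.sum_singleton _ _
  linarith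

/-- If every domain is orthogonal to at most one domain then the basic neighbourhoods with small
parameter are equal. -/
theorem bnhdLit_eq {X : Type} (𝔛 : Hier X) (x₀ : X) (hi : ∀ U, ¬ 𝔛.orth U U)
    (hs : ∀ U V, 𝔛.orth U V → 𝔛.orth V U)
    (h1 : ∀ U V W, 𝔛.orth U V → 𝔛.orth U W → V = W) (p : BPt 𝔛) :
    ∃ ε₀ : ℝ, 0 < ε₀ ∧ ∀ R ε : ℝ, ε ≤ ε₀ → bnhdLit 𝔛 x₀ p R ε = bnhd 𝔛 x₀ p R ε := by
  classical
  obtain ⟨m, hm0, hm⟩ : ∃ m : ℝ, 0 < m ∧ ∀ U, p.w U ≠ 0 → m ≤ p.w U := by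
    by_cases hne : p.fin.toFinset.Nonempty
    · refine ⟨p.fin.toFinset.inf' hne p.w, ?_, ?_⟩
      · rw [Finset.lt_inf'_iff]
        intro U hU
        rw [Set.Finite.mem_toFinset] at hU
        exact lt_of_le_of_ne (p.nonneg U) (Ne.symm hU)
      · intro U hU
        exact Finset.inf'_le _ (by rw [Set.Finite.mem_toFinset]; exact hU)
    · refine ⟨1, one_pos, fun U hU => ?_⟩
      exact absurd ⟨U, by rw [Set.Finite.mem_toFinset]; exact hU⟩ hne
  refine ⟨min (m / 2) 1, lt_min (by linarith) one_pos, fun R ε hε => ?_⟩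
  have hεm : ε ≤ m / 2 := hε.trans (min_le_left _ _)
  have hε1 : ε ≤ 1 := hε.trans (min_le_right _ _)
  apply Set.Subset.antisymm
  · rintro q (⟨⟨r1, r2⟩, ⟨R₀, h4⟩, h3⟩ | ⟨hr, h2, h3⟩)
    · refine ⟨fun U hp hq => absurd (r1 U hp) hq, fun U hp _ => r2 U hp, h3, R₀, fun R' hR' => ?_⟩
      obtain ⟨a, b, c⟩ := h4 R' hR'
      exact ⟨fun U hp _ => a U hp, fun U U' k1 _ k2 _ => b U U' k1 k2,
        fun U V k1 _ k2 k3 k4 => c U V k1 k2 k3 k4⟩
    · -- the supports meet and the support of p is contained in that of q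
      have hsub : ∀ U, p.w U ≠ 0 → q.w U ≠ 0 := by
        intro U hU hqU
        obtain ⟨U₀, hU₀, hqU₀⟩ : ∃ U₀, p.w U₀ ≠ 0 ∧ q.w U₀ ≠ 0 := by
          by_contra hcon
          push Not at hcon
          have := lit_split q {T | p.w T = 0} U (fun T hT hTp => absurd (hcon T hTp) hT)
          rw [hqU] at this
          linarith
        have hne : U ≠ U₀ := fun e => hqU₀ (e ▸ hqU)
        have ho : 𝔛.orth U₀ U := p.orth U₀ U hU₀ hU hne.symm
        have hall : ∀ T, q.w T ≠ 0 → T ∉ {T | p.w T = 0} → T = U₀ := by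
          intro T hT hTp
          by_contra hTU
          have h5 := p.orth U₀ T hU₀ hTp (Ne.symm hTU)
          have h6 := h1 U₀ U T ho h5
          subst h6
          exact hT hqU
        have h7 := lit_split q {T | p.w T = 0} U₀ hall
        have h8 := (h3 U₀ hU₀ hqU₀).1
        rw [abs_lt] at h8
        have h9 : p.w U₀ + p.w U ≤ 1 := by
          have h10 : ∑ T ∈ p.fin.toFinset, p.w T = 1 := by
            rw [← p.sum, finsum_eq_sum _ p.fin]
          rw [← h10]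
          have h11 : ({U₀, U} : Finset 𝔛.Dom) ⊆ p.fin.toFinset := by
            intro T hT
            rw [Set.Finite.mem_toFinset]
            rw [Finset.mem_insert, Finset.mem_singleton] at hT
            rcases hT with rfl | rfl
            · exact hU₀
            · exact hU
          calc p.w U₀ + p.w U = ∑ T ∈ ({U₀, U} : Finset 𝔛.Dom), p.w T :=
                (Finset.sum_pair hne.symm).symm
            _ ≤ _ := Finset.sum_le_sum_of_subset_of_nonneg h11 fun T _ _ => p.nonneg T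
        have h12 := hm U hU
        linarith [h8.1, h8.2]
      refine ⟨h3, fun U hp hq => absurd hq (hsub U hp), ?_, 0, fun R' _ => ⟨fun U hp hq =>
        absurd hq (hsub U hp), fun U U' hp hq => absurd hq (hsub U hp), fun U V hp hq =>
        absurd hq (hsub U hp)⟩⟩
      refine lt_of_le_of_lt (lit_sum_le q _ _ ?_) h2
      intro T hT hTo
      show p.w T = 0
      by_contra hTp
      exact hi T (hTo T hTp)
  · rintro q ⟨h3, h2, h4, R₀, h5⟩
    by_cases hr : Remote 𝔛 p q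
    · refine Or.inl ⟨hr, ⟨R₀, fun R' hR' => ?_⟩, h4⟩
      obtain ⟨a, b, c⟩ := h5 R' hR'
      exact ⟨fun U hp => a U hp (hr.1 U hp), fun U U' k1 k2 => b U U' k1 (hr.1 U k1) k2 (hr.1 U' k2),
        fun U V k1 k2 k3 k4 => c U V k1 (hr.1 U k1) k2 k3 k4⟩
    · refine Or.inr ⟨hr, ?_, h3⟩
      refine lt_of_le_of_lt (lit_sum_le q _ _ ?_) h4
      intro T hT hTp U hU
      obtain ⟨U₀, hU₀, hqU₀⟩ : ∃ U₀, p.w U₀ ≠ 0 ∧ q.w U₀ ≠ 0 := by
        by_contra hcon
        push Not at hcon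
        exact hr ⟨hcon, fun U hU => h2 U hU (hcon U hU)⟩
      have hTU₀ : T ≠ U₀ := fun e => hU₀ (e ▸ hTp)
      have ho : 𝔛.orth U₀ T := q.orth U₀ T hqU₀ hT hTU₀.symm
      by_cases hUU : U = U₀
      · rw [hUU]; exact hs _ _ ho
      · have h6 := p.orth U₀ U hU₀ hU (Ne.symm hUU)
        have h7 := h1 U₀ T U ho h6
        subst h7
        exact absurd hTp hU

/-- If every domain is orthogonal to at most one domain then both topologies are equal. -/
theorem bTopLit_eq {X : Type} (𝔛 : Hier X) (x₀ : X) (hi : ∀ U, ¬ 𝔛.orth U U)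
    (hs : ∀ U V, 𝔛.orth U V → 𝔛.orth V U)
    (h1 : ∀ U V W, 𝔛.orth U V → 𝔛.orth U W → V = W) : bTopLit 𝔛 x₀ = bTop 𝔛 x₀ := by
  ext O
  constructor
  · intro h p hp
    obtain ⟨R, ε, hε, hO⟩ := h p hp
    obtain ⟨ε₀, hε₀, he⟩ := bnhdLit_eq 𝔛 x₀ hi hs h1 p
    refine ⟨R, min ε ε₀, lt_min hε hε₀, ?_⟩
    rw [← he R (min ε ε₀) (min_le_right _ _)]
    exact (bnhdLit_mono 𝔛 x₀ p le_rfl (min_le_left _ _)).trans hO
  · intro h p hp
    obtain ⟨R, ε, hε, hO⟩ := h p hp
    obtain ⟨ε₀, hε₀, he⟩ := bnhdLit_eq 𝔛 x₀ hi hs h1 p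
    refine ⟨R, min ε ε₀, lt_min hε hε₀, ?_⟩
    rw [he R (min ε ε₀) (min_le_right _ _)]
    exact (bnhd_mono 𝔛 x₀ p le_rfl (min_le_left _ _)).trans hO

/-- Both topologies agree for the hierarchies of the example. -/
theorem bTopLit_hier (D : GData) (RG : Realz D.Γ D.G) (RT : Realz TG H) (t : ℝ) (x₀ : D.G) :
    bTopLit (hier D RG RT t) x₀ = bTop (hier D RG RT t) x₀ := by
  apply bTopLit_eq
  · intro U
    cases U <;> exact fun h => h
  · intro U V h
    cases U <;> cases V <;> first | exact h.elim | exact Eq.symm h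
  · intro U V W h h'
    cases U <;> cases V <;> cases W <;> first | exact h.elim | exact h'.elim | skip
    · have e1 : _ = _ := h
      have e2 : _ = _ := h'
      rw [← e1, ← e2]
    · have e1 : _ = _ := h
      have e2 : _ = _ := h'
      rw [← e1, ← e2]

end Pool.Agent.Helper548.HB
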