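import Pool.Agent.Helper548.HB.Defs

set_option autoImplicit false

/-! Hyperbolic spaces, Gromov boundaries, hierarchically hyperbolic spaces and groups, the
hierarchically hyperbolic boundary and its topology. -/

namespace Pool.Agent.Helper548.HB



theorem connected (D : GData) : D.Γ.Connected := by
  have hmk : ∀ (x : D.G) (v : V), ((x * D.ι v : D.G) : D.Q) = (x : D.Q) := by
    intro x v
    refine (QuotientGroup.eq.2 ?_).symm
    rw [inv_mul_cancel_left]
    exact ⟨v, rfl⟩
  have hs : D.s⁻¹ = D.s := inv_eq_of_mul_eq_one_left D.s_mul_s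
  have key : ∀ g : D.G, D.Γ.Reachable ((1 : D.G) : D.Q) (g : D.Q) := by
    intro g
    have hg : g ∈ Subgroup.closure (Set.range D.ι ∪ {D.s}) := by
      rw [D.gen]; trivial
    induction hg using Subgroup.closure_induction_right with
    | one => exact SimpleGraph.Reachable.refl _
    | mul_right x hx y hy ih =>
      rcases hy with ⟨v, rfl⟩ | hy
      · rw [hmk]; exact ih
      · rw [Set.mem_singleton_iff.1 hy]
        exact ih.trans (SimpleGraph.Adj.reachable ⟨x, rfl, rfl⟩)
    | mul_inv_cancel x hx y hy ih =>
      rcases hy with ⟨v, rfl⟩ | hy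
      · rw [← map_inv, hmk]; exact ih
      · rw [Set.mem_singleton_iff.1 hy, hs]
        exact ih.trans (SimpleGraph.Adj.reachable ⟨x, rfl, rfl⟩)
  have key2 : ∀ x : D.Q, D.Γ.Reachable ((1 : D.G) : D.Q) x := by
    intro x
    induction x using QuotientGroup.induction_on with
    | H g => exact key g
  have : Nonempty D.Q := ⟨((1 : D.G) : D.Q)⟩
  exact SimpleGraph.Connected.mk fun x y => (key2 x).symm.trans (key2 y)

end Pool.Agent.Helper548.HB
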