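import Pool.Agent.Helper548.HB.Defs

set_option autoImplicit false

/-! Hyperbolic spaces, Gromov boundaries, hierarchically hyperbolic spaces and groups, the
hierarchically hyperbolic boundary and its topology. -/

namespace Pool.Agent.Helper548.HB



theorem gens_top (D : GData) : Subgroup.closure (D.gens : Set D.G) = ⊤ := by
  classical
  have hga : D.ι ga ∈ Subgroup.closure (D.gens : Set D.G) :=
    Subgroup.subset_closure (by simp [GData.gens])
  have hgc : D.ι gc ∈ Subgroup.closure (D.gens : Set D.G) :=
    Subgroup.subset_closure (by simp [GData.gens])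
  have hgz : D.ι gz ∈ Subgroup.closure (D.gens : Set D.G) :=
    Subgroup.subset_closure (by simp [GData.gens])
  have hs : D.s ∈ Subgroup.closure (D.gens : Set D.G) :=
    Subgroup.subset_closure (by simp [GData.gens])
  set K : Subgroup V := (Subgroup.closure (D.gens : Set D.G)).comap D.ι with hK
  have h1 : (K.comap (MonoidHom.inl H (Multiplicative ℤ))) = ⊤ := by
    rw [eq_top_iff, ← FreeGroup.closure_range_of, Subgroup.closure_le]
    rintro _ ⟨b, rfl⟩
    cases b
    · exact hga
    · exact hgc
  have h2 : ∀ h : H, ((h, 1) : V) ∈ K := by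
    intro h
    have : h ∈ K.comap (MonoidHom.inl H (Multiplicative ℤ)) := by
      rw [h1]
      exact Subgroup.mem_top h
    exact this
  have h3 : ∀ n : Multiplicative ℤ, ((1, n) : V) ∈ K := by
    intro n
    have h4 : ((1, n) : V) = (gz : V) ^ (n.toAdd) := by
      unfold gz
      rw [Prod.pow_mk, one_zpow]
      congr 1
      rw [← ofAdd_zsmul]
      simp
    rw [h4]
    exact K.zpow_mem hgz _
  rw [eq_top_iff, ← D.gen, Subgroup.closure_le]
  rintro x (⟨v, rfl⟩ | hx)
  · have h5 : v ∈ K := by
      have : v = ((v.1, 1) : V) * ((1, v.2) : V) := by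
        ext <;> simp
      rw [this]
      exact K.mul_mem (h2 _) (h3 _)
    exact h5
  · rw [Set.mem_singleton_iff] at hx
    rw [hx]
    exact hs

end Pool.Agent.Helper548.HB
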