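import Pool.Agent.Helper548.HB.Defs

set_option autoImplicit false

/-! Hyperbolic spaces, Gromov boundaries, hierarchically hyperbolic spaces and groups, the
hierarchically hyperbolic boundary and its topology. -/

namespace Pool.Agent.Helper548.HB



/-- induction along words -/
theorem wd_induct {G : Type} [Group G] (S : Finset G) (hS : Subgroup.closure (S : Set G) = ⊤)
    (f : G → G → ℝ) (C : ℝ) (h0 : ∀ g, f g g ≤ 0) (htri : ∀ g h k, f g k ≤ f g h + f h k)
    (h1 : ∀ g b, (b ∈ S ∨ b⁻¹ ∈ S) → f g (g * b) ≤ C) (g h : G) :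
    f g h ≤ C * wd S g h := by
  have key : ∀ (l : List G), (∀ x ∈ l, x ∈ S ∨ x⁻¹ ∈ S) → ∀ g : G,
      f g (g * l.prod) ≤ C * l.length := by
    intro l
    induction l with
    | nil =>
      intro _ g
      simpa using h0 g
    | cons b l ih =>
      intro hl g
      have hb := h1 g b (hl b (by simp))
      have h2 := ih (fun x hx => hl x (by simp [hx])) (g * b)
      have h3 := htri g (g * b) (g * b * l.prod)
      rw [List.prod_cons, ← mul_assoc, List.length_cons]
      push_cast
      linarith
  have hne : {n | ∃ l : List G, l.length = n ∧ (∀ x ∈ l, x ∈ S ∨ x⁻¹ ∈ S) ∧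
      l.prod = g⁻¹ * h}.Nonempty := by
    have hm : g⁻¹ * h ∈ (Subgroup.closure (S : Set G)).toSubmonoid := by rw [hS]; trivial
    rw [Subgroup.closure_toSubmonoid] at hm
    obtain ⟨l, hl, hp⟩ := Submonoid.exists_list_of_mem_closure hm
    exact ⟨l.length, l, rfl, fun x hx => by simpa using hl x hx, hp⟩
  obtain ⟨l, hlen, hl, hp⟩ := Nat.sInf_mem hne
  have h4 := key l hl g
  rw [hp, mul_inv_cancel_left, hlen] at h4
  exact h4

end Pool.Agent.Helper548.HB
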