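import Pool.Agent.Helper548.HB.Defs
import Pool.Agent.Helper548.HB.P_connected
import Pool.Agent.Helper548.HB.P_gens_top
import Pool.Agent.Helper548.HB.P_wd_induct

set_option autoImplicit false

/-! Hyperbolic spaces, Gromov boundaries, hierarchically hyperbolic spaces and groups, the
hierarchically hyperbolic boundary and its topology. -/

namespace Pool.Agent.Helper548.HB



theorem G_lip_dist_one (D : GData) (g b : D.G) (hb : b ∈ D.gens ∨ b⁻¹ ∈ D.gens) :
    D.Γ.dist (g : D.Q) ((g * b : D.G) : D.Q) ≤ 1 := by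
  classical
  have key : b ∈ D.ι.range ∨ b = D.s := by
    rcases hb with h | h
    · simp only [GData.gens, Finset.mem_insert, Finset.mem_singleton] at h
      rcases h with h | h | h | h
      · exact Or.inl ⟨_, h.symm⟩
      · exact Or.inl ⟨_, h.symm⟩
      · exact Or.inl ⟨_, h.symm⟩
      · exact Or.inr h
    · simp only [GData.gens, Finset.mem_insert, Finset.mem_singleton] at h
      rcases h with h | h | h | h
      · exact Or.inl (inv_mem_iff.1 ⟨_, h.symm⟩)
      · exact Or.inl (inv_mem_iff.1 ⟨_, h.symm⟩)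
      · exact Or.inl (inv_mem_iff.1 ⟨_, h.symm⟩)
      · refine Or.inr ?_
        have h2 : b = D.s⁻¹ := by rw [← h, inv_inv]
        rw [h2]
        exact inv_eq_of_mul_eq_one_left D.s_mul_s
  rcases key with hr | hs
  · have h1 : (g : D.Q) = ((g * b : D.G) : D.Q) := by
      rw [QuotientGroup.eq, inv_mul_cancel_left]
      exact hr
    rw [← h1, SimpleGraph.dist_self]
    exact Nat.zero_le _
  · have hadj : D.Γ.Adj (g : D.Q) ((g * b : D.G) : D.Q) := ⟨g, rfl, by rw [hs]⟩
    exact (SimpleGraph.dist_eq_one_iff_adj.2 hadj).le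

theorem G_lip (D : GData) (g h : D.G) : (D.Γ.dist (g : D.Q) (h : D.Q) : ℝ) ≤ wd D.gens g h := by
  have h := wd_induct D.gens (gens_top D)
    (fun g h => (D.Γ.dist (g : D.Q) (h : D.Q) : ℝ)) 1
    (fun g => by simp)
    (fun g h k => by
      have := (connected D).dist_triangle (u := (g : D.Q)) (v := (h : D.Q)) (w := (k : D.Q))
      exact_mod_cast this)
    (fun g b hb => by exact_mod_cast G_lip_dist_one D g b hb) g h
  simpa using h

end Pool.Agent.Helper548.HB
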