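import Pool.Agent.Helper548.HB.Defs

set_option autoImplicit false

/-! Hyperbolic spaces, Gromov boundaries, hierarchically hyperbolic spaces and groups, the
hierarchically hyperbolic boundary and its topology. -/

namespace Pool.Agent.Helper548.HB



theorem qc_freeGroup_countable (α : Type) [Countable α] : Countable (FreeGroup α) := by
  have : Function.Surjective (FreeGroup.mk : List (α × Bool) → FreeGroup α) := by
    intro x
    exact ⟨Quot.out x, Quot.out_eq x⟩
  exact this.countable

theorem Q_countable (D : GData) : Countable D.Q := by
  have hH : Countable H := qc_freeGroup_countable Bool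
  have hV : Countable V := inferInstance
  let f : Option V → D.G := fun o => o.elim D.s D.ι
  have hfc : Countable (FreeGroup (Option V)) := qc_freeGroup_countable (Option V)
  have hsurj : Function.Surjective (FreeGroup.lift f) := by
    rw [← MonoidHom.range_eq_top, eq_top_iff, ← D.gen, Subgroup.closure_le]
    rintro x (⟨v, rfl⟩ | hx)
    · exact ⟨FreeGroup.of (some v), by simp [f]⟩
    · rw [Set.mem_singleton_iff] at hx
      subst hx
      exact ⟨FreeGroup.of none, by simp [f]⟩
  have hG : Countable D.G := hsurj.countable
  exact Quotient.countable

end Pool.Agent.Helper548.HB
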