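import Pool.Agent.Helper548.HB.Defs

set_option autoImplicit false

/-! Hyperbolic spaces, Gromov boundaries, hierarchically hyperbolic spaces and groups, the
hierarchically hyperbolic boundary and its topology. -/

namespace Pool.Agent.Helper548.HB



theorem h940_TG (x : H) : ∀ g : H, TG.Reachable g (g * x) := by
  induction x using FreeGroup.induction_on with
  | C1 => intro g; rw [mul_one]
  | of b =>
    intro g
    exact SimpleGraph.Adj.reachable ⟨b, Or.inl rfl⟩
  | inv_of b _ =>
    intro g
    refine SimpleGraph.Adj.reachable ⟨b, Or.inr ?_⟩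
    exact (inv_mul_cancel_right g (FreeGroup.of b)).symm
  | mul x y hx hy =>
    intro g
    have h1 := hy (g * x)
    rw [mul_assoc] at h1
    exact (hx g).trans h1

theorem TG_connected : TG.Connected := by
  refine SimpleGraph.Connected.mk (nonempty := ⟨1⟩) ?_
  intro a b
  have h1 := h940_TG (a⁻¹ * b) a
  rwa [mul_inv_cancel_left] at h1

end Pool.Agent.Helper548.HB
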