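import Pool.Agent.Helper548.HB.Defs
import Pool.Agent.Helper548.HB.P_TG_connected

set_option autoImplicit false

/-! Hyperbolic spaces, Gromov boundaries, hierarchically hyperbolic spaces and groups, the
hierarchically hyperbolic boundary and its topology. -/

namespace Pool.Agent.Helper548.HB



theorem TG_dist (g h : H) : TG.dist g h = FreeGroup.norm (g⁻¹ * h) := by
  have step : ∀ a b : H, TG.Adj a b → FreeGroup.norm (a⁻¹ * b) ≤ 1 := by
    rintro a b ⟨c, hc | hc⟩
    · rw [hc, inv_mul_cancel_left, FreeGroup.norm_of]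
    · rw [hc, mul_inv_rev, inv_mul_cancel_right, FreeGroup.norm_inv_eq, FreeGroup.norm_of]
  have hge : ∀ (a b : H) (p : TG.Walk a b), FreeGroup.norm (a⁻¹ * b) ≤ p.length := by
    intro a b p
    induction p with
    | nil => simp
    | @cons u v w hadj p ih =>
      rw [SimpleGraph.Walk.length_cons]
      have h1 : u⁻¹ * w = (u⁻¹ * v) * (v⁻¹ * w) := by group
      rw [h1]
      have h2 := FreeGroup.norm_mul_le (u⁻¹ * v) (v⁻¹ * w)
      have h3 := step u v hadj
      omega
  have hle : ∀ (L : List (Bool × Bool)) (a : H), ∃ p : TG.Walk a (a * FreeGroup.mk L),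
      p.length = L.length := by
    intro L
    induction L with
    | nil =>
      intro a
      have h1 : a * FreeGroup.mk [] = a := by
        rw [← FreeGroup.one_eq_mk, mul_one]
      rw [h1]
      exact ⟨SimpleGraph.Walk.nil, rfl⟩
    | cons x L ih =>
      intro a
      obtain ⟨b, e⟩ := x
      have h1 : FreeGroup.mk ((b, e) :: L) = FreeGroup.mk [(b, e)] * FreeGroup.mk L := by
        rw [FreeGroup.mul_mk]; rfl
      obtain ⟨p, hp⟩ := ih (a * FreeGroup.mk [(b, e)])
      have hadj : TG.Adj a (a * FreeGroup.mk [(b, e)]) := by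
        refine ⟨b, ?_⟩
        cases e with
        | true => left; rfl
        | false =>
          right
          have h2 : FreeGroup.mk [(b, false)] = (FreeGroup.of b)⁻¹ := rfl
          rw [h2, inv_mul_cancel_right]
      rw [h1, ← mul_assoc]
      exact ⟨SimpleGraph.Walk.cons hadj p, by rw [SimpleGraph.Walk.length_cons, hp]; rfl⟩
  apply le_antisymm
  · have h1 : g * FreeGroup.mk (FreeGroup.toWord (g⁻¹ * h)) = h := by
      rw [FreeGroup.mk_toWord]; group
    have h2 := hle (FreeGroup.toWord (g⁻¹ * h)) g
    rw [h1] at h2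
    obtain ⟨q, hq⟩ := h2
    calc TG.dist g h ≤ q.length := SimpleGraph.dist_le q
      _ = _ := hq
  · obtain ⟨p, hp⟩ := (TG_connected.preconnected g h).exists_walk_length_eq_dist
    rw [← hp]
    exact hge g h p

end Pool.Agent.Helper548.HB
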