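import Pool.Agent.Helper548.HB.Defs
import Pool.Agent.Helper548.HB.P_TG_connected
import Pool.Agent.Helper548.HB.P_TG_dist

set_option autoImplicit false

/-! Hyperbolic spaces, Gromov boundaries, hierarchically hyperbolic spaces and groups, the
hierarchically hyperbolic boundary and its topology. -/

namespace Pool.Agent.Helper548.HB



theorem TG_bott_edge (g : H) (b : Bool) (h1 : g ≠ 1) (h2 : (FreeGroup.of b)⁻¹ * g ≠ 1) :
    (FreeGroup.toWord ((FreeGroup.of b)⁻¹ * g)).getLast? = (FreeGroup.toWord g).getLast? := by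
  have e1 : FreeGroup.toWord ((FreeGroup.of b)⁻¹ * g)
      = FreeGroup.reduce ((b, false) :: FreeGroup.toWord g) := by
    rw [FreeGroup.toWord_mul, FreeGroup.toWord_inv, FreeGroup.toWord_of]
    rfl
  have e2 : FreeGroup.reduce (FreeGroup.toWord g) = FreeGroup.toWord g := FreeGroup.reduce_toWord g
  have h1' : FreeGroup.toWord g ≠ [] := fun h => h1 (FreeGroup.toWord_eq_nil_iff.1 h)
  have h2' : FreeGroup.toWord ((FreeGroup.of b)⁻¹ * g) ≠ [] :=
    fun h => h2 (FreeGroup.toWord_eq_nil_iff.1 h)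
  rw [e1] at h2' ⊢
  rw [FreeGroup.reduce.cons, e2] at h2' ⊢
  rcases hL : FreeGroup.toWord g with _ | ⟨hd, tl⟩
  · exact absurd hL h1'
  · rw [hL] at h2'
    simp only at h2' ⊢
    split_ifs at h2' ⊢ with hc
    · rcases tl with _ | ⟨a, tl'⟩
      · exact absurd rfl h2'
      · simp [List.getLast?_cons_cons]
    · simp [List.getLast?_cons_cons]

theorem TG_bott_step (p u v : H) (huv : TG.Adj u v) (hu : u ≠ p) (hv : v ≠ p) :
    (FreeGroup.toWord (u⁻¹ * p)).getLast? = (FreeGroup.toWord (v⁻¹ * p)).getLast? := by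
  have key : ∀ (u v : H) (b : Bool), v = u * FreeGroup.of b → u ≠ p → v ≠ p →
      (FreeGroup.toWord (v⁻¹ * p)).getLast? = (FreeGroup.toWord (u⁻¹ * p)).getLast? := by
    intro u v b h hu hv
    have e : v⁻¹ * p = (FreeGroup.of b)⁻¹ * (u⁻¹ * p) := by rw [h]; group
    rw [e]
    apply TG_bott_edge
    · intro h; exact hu (inv_mul_eq_one.1 h)
    · rw [← e]; intro h; exact hv (inv_mul_eq_one.1 h)
  obtain ⟨b, hb | hb⟩ := huv
  · exact (key u v b hb hu hv).symm
  · exact key v u b hb hv hu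

theorem TG_bott_walk (p : H) : ∀ (x y : H) (w : TG.Walk x y), p ∉ w.support →
    (FreeGroup.toWord (x⁻¹ * p)).getLast? = (FreeGroup.toWord (y⁻¹ * p)).getLast? := by
  intro x y w
  induction w with
  | nil => intro _; rfl
  | @cons u v w' huv q ih =>
    intro hp
    rw [SimpleGraph.Walk.support_cons, List.mem_cons, not_or] at hp
    rw [← ih hp.2]
    apply TG_bott_step p u v huv
    · intro h; exact hp.1 h.symm
    · intro h; apply hp.2; rw [← h]; exact SimpleGraph.Walk.start_mem_support q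

theorem TG_bott (x y p : H) (h : TG.dist x p + TG.dist p y = TG.dist x y) (w : TG.Walk x y) :
    ∃ q ∈ w.support, TG.dist p q ≤ 1 := by
  by_cases hp : p ∈ w.support
  · exact ⟨p, hp, by simp⟩
  exfalso
  have hx : x ≠ p := by
    intro h; apply hp; rw [← h]; exact SimpleGraph.Walk.start_mem_support w
  have hy : y ≠ p := by
    intro h; apply hp; rw [← h]; exact SimpleGraph.Walk.end_mem_support w
  have hF := TG_bott_walk p x y w hp
  rw [TG_dist, TG_dist, TG_dist] at h
  have hA : FreeGroup.toWord (x⁻¹ * p) ≠ [] := fun h =>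
    hx (inv_mul_eq_one.1 (FreeGroup.toWord_eq_nil_iff.1 h))
  have hB : FreeGroup.toWord (y⁻¹ * p) ≠ [] := fun h =>
    hy (inv_mul_eq_one.1 (FreeGroup.toWord_eq_nil_iff.1 h))
  have hpy : FreeGroup.norm (p⁻¹ * y) = FreeGroup.norm (y⁻¹ * p) := by
    rw [← FreeGroup.norm_inv_eq]; congr 1; group
  rw [hpy] at h
  obtain ⟨A', c, hAc⟩ : ∃ A' c, FreeGroup.toWord (x⁻¹ * p) = A' ++ [c] :=
    ⟨_, _, (List.dropLast_append_getLast hA).symm⟩
  obtain ⟨B', d, hBd⟩ : ∃ B' d, FreeGroup.toWord (y⁻¹ * p) = B' ++ [d] :=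
    ⟨_, _, (List.dropLast_append_getLast hB).symm⟩
  rw [hAc, hBd, List.getLast?_append, List.getLast?_append] at hF
  have hcd : c = d := by simpa using hF
  have e1 : x⁻¹ * p = FreeGroup.mk A' * FreeGroup.mk [c] := by
    rw [FreeGroup.mul_mk, ← hAc, FreeGroup.mk_toWord]
  have e2 : y⁻¹ * p = FreeGroup.mk B' * FreeGroup.mk [c] := by
    rw [FreeGroup.mul_mk, hcd, ← hBd, FreeGroup.mk_toWord]
  have e3 : x⁻¹ * y = FreeGroup.mk A' * (FreeGroup.mk B')⁻¹ := by
    have : x⁻¹ * y = (x⁻¹ * p) * (y⁻¹ * p)⁻¹ := by group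
    rw [this, e1, e2]; group
  have n1 : FreeGroup.norm (x⁻¹ * y) ≤ A'.length + B'.length := by
    rw [e3]
    refine (FreeGroup.norm_mul_le _ _).trans ?_
    rw [FreeGroup.norm_inv_eq]
    exact Nat.add_le_add FreeGroup.norm_mk_le FreeGroup.norm_mk_le
  have n2 : FreeGroup.norm (x⁻¹ * p) = A'.length + 1 := by
    rw [FreeGroup.norm, hAc]; simp
  have n3 : FreeGroup.norm (y⁻¹ * p) = B'.length + 1 := by
    rw [FreeGroup.norm, hBd]; simp
  omega

end Pool.Agent.Helper548.HB
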