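import Pool.Agent.Helper548.HB.Defs

set_option autoImplicit false

/-! Hyperbolic spaces, Gromov boundaries, hierarchically hyperbolic spaces and groups, the
hierarchically hyperbolic boundary and its topology. -/

namespace Pool.Agent.Helper548.HB



theorem TG_smul (g a b : H) : TG.Adj (g • a) (g • b) ↔ TG.Adj a b := by
  simp only [TG, smul_eq_mul, mul_assoc, mul_right_inj]

end Pool.Agent.Helper548.HB
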