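import Pool.Agent.Helper548.HB.Defs

set_option autoImplicit false

/-! Hyperbolic spaces, Gromov boundaries, hierarchically hyperbolic spaces and groups, the
hierarchically hyperbolic boundary and its topology. -/

namespace Pool.Agent.Helper548.HB



theorem adj_consec (D : GData) (x : D.Q) (v : V) :
    D.Γ.Adj ((x.out * D.ι v * D.s : D.G) : D.Q) ((x.out * D.ι (v * gc) * D.s : D.G) : D.Q) := by
  have hs : D.s⁻¹ = D.s := inv_eq_of_mul_eq_one_left D.s_mul_s
  have h2 : D.s * (D.ι gc)⁻¹ * D.s = D.ι gc * D.s * D.ι gc := by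
    have h := congrArg (fun g => g⁻¹) D.scs
    simp only [mul_inv_rev, map_inv, inv_inv, hs] at h
    rw [← mul_assoc, ← mul_assoc] at h
    exact h
  refine ⟨x.out * D.ι v * D.s * (D.ι gc)⁻¹, ?_, ?_⟩
  · rw [QuotientGroup.eq]
    refine ⟨gc⁻¹, ?_⟩
    rw [map_inv]
    group
  · rw [QuotientGroup.eq]
    refine ⟨gc, ?_⟩
    have h3 : x.out * D.ι v * D.s * (D.ι gc)⁻¹ * D.s =
        x.out * D.ι v * (D.s * (D.ι gc)⁻¹ * D.s) := by group
    rw [h3, h2, map_mul]
    group

end Pool.Agent.Helper548.HB
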