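import Pool.Agent.Helper548.HB.Defs

set_option autoImplicit false

/-! Hyperbolic spaces, Gromov boundaries, hierarchically hyperbolic spaces and groups, the
hierarchically hyperbolic boundary and its topology. -/

namespace Pool.Agent.Helper548.HB



theorem cut_not_mem (D : GData) (g : D.G) (h : g ∉ D.ι.range) : D.cut g = D.head g := by
  unfold GData.cut
  exact dif_neg h

end Pool.Agent.Helper548.HB
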