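import Pool.Agent.Helper548.HB.Defs
import Pool.Agent.Helper548.HB.P_cut_not_mem

set_option autoImplicit false

/-! Hyperbolic spaces, Gromov boundaries, hierarchically hyperbolic spaces and groups, the
hierarchically hyperbolic boundary and its topology. -/

namespace Pool.Agent.Helper548.HB



theorem cut_right (D : GData) (v : V) (g : D.G) (h : g ∉ D.ι.range) :
    D.cut (g * D.ι v) = D.cut g := by
  have hnot : g * D.ι v ∉ D.ι.range := by
    intro hm
    exact h ((Subgroup.mul_mem_cancel_right D.ι.range ⟨v, rfl⟩).mp hm)
  rw [cut_not_mem D _ hnot, cut_not_mem D g h, D.head_right v g h]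

end Pool.Agent.Helper548.HB
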