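import Pool.Agent.Helper548.HB.Defs
import Pool.Agent.Helper548.HB.P_cut_right

set_option autoImplicit false

/-! Hyperbolic spaces, Gromov boundaries, hierarchically hyperbolic spaces and groups, the
hierarchically hyperbolic boundary and its topology. -/

namespace Pool.Agent.Helper548.HB



theorem co_eq_cq (D : GData) (x : D.Q) (g : D.G) (h : (g : D.Q) ≠ x) :
    D.co x g = D.cq x (g : D.Q) := by
  obtain ⟨⟨_, v, rfl⟩, hu'⟩ := QuotientGroup.mk_out_eq_mul D.ι.range g
  have h1 : x.out⁻¹ * g ∉ D.ι.range := by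
    intro hc
    apply h
    have h2 := QuotientGroup.eq.2 hc
    rw [← h2]
    exact Quotient.out_eq' x
  show D.cut (x.out⁻¹ * g) = D.cut (x.out⁻¹ * (g : D.Q).out)
  rw [hu', ← mul_assoc]
  exact (cut_right D v _ h1).symm

end Pool.Agent.Helper548.HB
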