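import Pool.Agent.Helper548.HB.Defs

set_option autoImplicit false

/-! Hyperbolic spaces, Gromov boundaries, hierarchically hyperbolic spaces and groups, the
hierarchically hyperbolic boundary and its topology. -/

namespace Pool.Agent.Helper548.HB



theorem cut_iota (D : GData) (v : V) : D.cut (D.ι v) = v := by
  have h : D.ι v ∈ D.ι.range := ⟨v, rfl⟩
  unfold GData.cut
  rw [dif_pos h]
  exact D.ι_inj h.choose_spec

end Pool.Agent.Helper548.HB
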