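import Pool.Agent.Helper548.HB.Defs
import Pool.Agent.Helper548.HB.P_cut_iota
import Pool.Agent.Helper548.HB.P_cut_not_mem

set_option autoImplicit false

/-! Hyperbolic spaces, Gromov boundaries, hierarchically hyperbolic spaces and groups, the
hierarchically hyperbolic boundary and its topology. -/

namespace Pool.Agent.Helper548.HB



theorem cut_left (D : GData) (v : V) (g : D.G) : D.cut (D.ι v * g) = v * D.cut g := by
  by_cases h : g ∈ D.ι.range
  · obtain ⟨w, rfl⟩ := h
    rw [← map_mul, cut_iota, cut_iota]
  · have h' : D.ι v * g ∉ D.ι.range := by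
      intro hc
      apply h
      have := D.ι.range.mul_mem (D.ι.range.inv_mem ⟨v, rfl⟩) hc
      rwa [inv_mul_cancel_left] at this
    rw [cut_not_mem D _ h', cut_not_mem D _ h]
    exact D.head_left v g h

end Pool.Agent.Helper548.HB
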