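import Pool.Agent.Helper548.HB.Defs
import Pool.Agent.Helper548.HB.P_cut_iota
import Pool.Agent.Helper548.HB.P_cut_not_mem
import Pool.Agent.Helper548.HB.P_cut_left
import Pool.Agent.Helper548.HB.P_co_eq_cq

set_option autoImplicit false

/-! Hyperbolic spaces, Gromov boundaries, hierarchically hyperbolic spaces and groups, the
hierarchically hyperbolic boundary and its topology. -/

namespace Pool.Agent.Helper548.HB



theorem adj_eq (D : GData) (x y : D.Q) (h : D.Γ.Adj x y) :
    y = ((x.out * D.ι (D.cq x y) * D.s : D.G) : D.Q) := by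
  have hne : x ≠ y := h.ne
  obtain ⟨g, h1, h2⟩ := h
  have h3 : ((x.out : D.G) : D.Q) = x := Quotient.out_eq' x
  have h4 : ((x.out : D.G) : D.Q) = (g : D.Q) := h3.trans h1
  obtain ⟨v, hv⟩ := QuotientGroup.eq.1 h4
  have hg : g = x.out * D.ι v := by
    rw [hv, mul_inv_cancel_left]
  rw [hg] at h2
  have h5 : D.co x (x.out * D.ι v * D.s) = D.cq x y := by
    rw [co_eq_cq D x _ (by rw [← h2]; exact hne.symm), ← h2]
  have h6 : D.co x (x.out * D.ι v * D.s) = v := by
    show D.cut (x.out⁻¹ * (x.out * D.ι v * D.s)) = v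
    have e : x.out⁻¹ * (x.out * D.ι v * D.s) = D.ι v * D.s := by group
    rw [e, cut_left, cut_not_mem D D.s D.s_not_mem, D.head_s, mul_one]
  rw [← h5, h6]
  exact h2

end Pool.Agent.Helper548.HB
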