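import Pool.Agent.Helper548.HB.Defs
import Pool.Agent.Helper548.HB.P_cut_iota
import Pool.Agent.Helper548.HB.P_cut_not_mem
import Pool.Agent.Helper548.HB.P_cut_left
import Pool.Agent.Helper548.HB.P_co_eq_cq

set_option autoImplicit false

/-! Hyperbolic spaces, Gromov boundaries, hierarchically hyperbolic spaces and groups, the
hierarchically hyperbolic boundary and its topology. -/

namespace Pool.Agent.Helper548.HB



theorem adj_mk (D : GData) (x : D.Q) (v : V) :
    D.Γ.Adj x ((x.out * D.ι v * D.s : D.G) : D.Q) ∧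
    D.cq x ((x.out * D.ι v * D.s : D.G) : D.Q) = v := by
  have h1 : ((x.out * D.ι v : D.G) : D.Q) = x := by
    rw [QuotientGroup.mk_mul_of_mem _ (⟨v, rfl⟩ : D.ι v ∈ D.ι.range)]
    exact QuotientGroup.out_eq' x
  refine ⟨⟨x.out * D.ι v, h1.symm, rfl⟩, ?_⟩
  have hne : ((x.out * D.ι v * D.s : D.G) : D.Q) ≠ x := by
    intro h
    have h2 : ((x.out * D.ι v : D.G) : D.Q) = ((x.out * D.ι v * D.s : D.G) : D.Q) := by
      rw [h1, h]
    have h3 := QuotientGroup.eq.1 h2
    rw [inv_mul_cancel_left] at h3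
    exact D.s_not_mem h3
  rw [← co_eq_cq D x _ hne]
  show D.cut (x.out⁻¹ * (x.out * D.ι v * D.s)) = v
  have h4 : x.out⁻¹ * (x.out * D.ι v * D.s) = D.ι v * D.s := by group
  rw [h4, cut_left, cut_not_mem D _ D.s_not_mem, D.head_s, mul_one]

end Pool.Agent.Helper548.HB
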