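import Pool.Agent.Helper548.HB.Defs

set_option autoImplicit false

/-! Hyperbolic spaces, Gromov boundaries, hierarchically hyperbolic spaces and groups, the
hierarchically hyperbolic boundary and its topology. -/

namespace Pool.Agent.Helper548.HB



theorem sep_symm_aux {X : Type} [TopologicalSpace X] (Y : Set X) (p q : X)
    (h : q ∈ connectedComponentIn Y p) : p ∈ connectedComponentIn Y q := by
  have hp : p ∈ Y := by
    by_contra hp
    rw [connectedComponentIn_eq_empty hp] at h
    exact h
  rw [← connectedComponentIn_eq h]
  exact mem_connectedComponentIn hp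

theorem sep_symm {X : Type} [TopologicalSpace X] (Z : Set X) (p q : X) (F : Set X) :
    Sep Z p q F ↔ Sep Z q p F := by
  unfold Sep
  rw [Set.pair_comm q p]
  exact ⟨fun h h' => h (sep_symm_aux _ _ _ h'), fun h h' => h (sep_symm_aux _ _ _ h')⟩

end Pool.Agent.Helper548.HB
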