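import Pool.Agent.Helper548.HB.Defs
import Pool.Agent.Helper548.HB.P_sep_symm

set_option autoImplicit false

/-! Hyperbolic spaces, Gromov boundaries, hierarchically hyperbolic spaces and groups, the
hierarchically hyperbolic boundary and its topology. -/

namespace Pool.Agent.Helper548.HB



theorem aset_symm {X : Type} [TopologicalSpace X] (p q : X) : Aset p q = Aset q p := by
  ext a
  simp only [Aset, Set.mem_setOf_eq]
  rw [Set.pair_comm p q]
  simp only [sep_symm _ p q]

end Pool.Agent.Helper548.HB
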