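import Pool.Agent.Helper548.HB.Defs

set_option autoImplicit false

/-! Hyperbolic spaces, Gromov boundaries, hierarchically hyperbolic spaces and groups, the
hierarchically hyperbolic boundary and its topology. -/

namespace Pool.Agent.Helper548.HB



theorem pb_close {X : Type} [MetricSpace X] {o : X} {R : ℝ} {x y : X} {ζ : Boundary X}
    (h : PB o R x ζ) : PB o (R - dist x y) y ζ := by
  obtain ⟨u, hu, N, hN⟩ := h
  refine ⟨u, hu, N, fun n hn => ?_⟩
  have h1 := hN n hn
  unfold gprod at h1 ⊢
  have h2 : dist x o ≤ dist x y + dist y o := dist_triangle _ _ _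
  have h3 : dist y (u.seq n) ≤ dist y x + dist x (u.seq n) := dist_triangle _ _ _
  rw [dist_comm y x] at h3
  linarith

end Pool.Agent.Helper548.HB
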