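import Pool.Agent.Helper548.HB.Defs
import Pool.Agent.Helper548.HB.P_pb_close
import Pool.Agent.Helper548.HB.P_pb_ex

set_option autoImplicit false

/-! Hyperbolic spaces, Gromov boundaries, hierarchically hyperbolic spaces and groups, the
hierarchically hyperbolic boundary and its topology. -/

namespace Pool.Agent.Helper548.HB



theorem pb_vert {W : Type} {Γ : SimpleGraph W} {A : Type} [Group A] [MulAction A W]
    (Re : Realz Γ A) (o : Re.X) (ξ : Boundary Re.X) (R : ℝ) :
    ∃ x : W, PB o R (Re.ι x) ξ := by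
  obtain ⟨x, hx⟩ := pb_ex o ξ (R + 1)
  obtain ⟨a, ha⟩ := Re.dense x
  exact ⟨a, (pb_close (y := Re.ι a) hx).mono (by linarith)⟩

end Pool.Agent.Helper548.HB
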