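import Pool.Agent.Helper548.HB.Defs
import Pool.Agent.Helper548.HB.P_pb_vert

set_option autoImplicit false

/-! Hyperbolic spaces, Gromov boundaries, hierarchically hyperbolic spaces and groups, the
hierarchically hyperbolic boundary and its topology. -/

namespace Pool.Agent.Helper548.HB



theorem away_uniq {D : GData} {RG : Realz D.Γ D.G} {RT : Realz TG H} (q : MPt D RG RT)
    (x : D.Q) (v v' : V) (h : q.away x v) (h' : q.away x v') : v = v' := by
  cases q with
  | lim ω =>
    obtain ⟨R, hR⟩ := h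
    obtain ⟨R', hR'⟩ := h'
    obtain ⟨y, hy⟩ := pb_vert RG (RG.ι ((1 : D.G) : D.Q)) ω (max R R')
    have mono : ∀ R0 ≤ max R R', PB (RG.ι ((1 : D.G) : D.Q)) R0 (RG.ι y) ω := by
      intro R0 h0
      obtain ⟨u, hu, N, hN⟩ := hy
      exact ⟨u, hu, N, fun n hn => h0.trans (hN n hn)⟩
    exact (hR y (mono R (le_max_left _ _))).2.symm.trans (hR' y (mono R' (le_max_right _ _))).2
  | arc y ξ r => exact h.2.symm.trans h'.2
  | pole y b => exact h.2.symm.trans h'.2

end Pool.Agent.Helper548.HB
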