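import Pool.Agent.Helper548.HB.Defs
import Pool.Agent.Helper548.HB.P_cut_iota

set_option autoImplicit false

/-! Hyperbolic spaces, Gromov boundaries, hierarchically hyperbolic spaces and groups, the
hierarchically hyperbolic boundary and its topology. -/

namespace Pool.Agent.Helper548.HB



theorem co_spec (D : GData) (x : D.Q) (g : D.G) (h : (g : D.Q) = x) :
    x.out * D.ι (D.co x g) = g := by
  have h1 : ((x.out : D.G) : D.Q) = (g : D.Q) := by
    rw [h]; exact QuotientGroup.out_eq' x
  rw [QuotientGroup.eq] at h1
  obtain ⟨v, hv⟩ := h1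
  have h2 : D.co x g = v := by
    unfold GData.co
    rw [← hv]; exact cut_iota D v
  rw [h2, hv]
  group

end Pool.Agent.Helper548.HB
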