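import Pool.Agent.Helper548.HB.Defs

set_option autoImplicit false

/-! Hyperbolic spaces, Gromov boundaries, hierarchically hyperbolic spaces and groups, the
hierarchically hyperbolic boundary and its topology. -/

namespace Pool.Agent.Helper548.HB



theorem pb_base {X : Type} [MetricSpace X] {o o' : X} {R : ℝ} {x : X} {ζ : Boundary X}
    (h : PB o R x ζ) : PB o' (R - dist o o') x ζ := by
  obtain ⟨u, hu, N, hN⟩ := h
  refine ⟨u, hu, N, fun n hn => ?_⟩
  have h1 := hN n hn
  unfold gprod at h1 ⊢
  have h2 := dist_triangle x o' o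
  have h3 := dist_triangle (u.seq n) o' o
  rw [dist_comm o' o] at h2 h3
  linarith

end Pool.Agent.Helper548.HB
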