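import Pool.Agent.Helper548.HB.Defs

set_option autoImplicit false

/-! Hyperbolic spaces, Gromov boundaries, hierarchically hyperbolic spaces and groups, the
hierarchically hyperbolic boundary and its topology. -/

namespace Pool.Agent.Helper548.HB



/-- a sequence of vertices whose Gromov products tend to infinity converges to a boundary point -/
theorem seq_vert {X : Type} [MetricSpace X] (o : X) (f : ℕ → X)
    (h : ∀ R : ℝ, ∃ N : ℕ, ∀ m ≥ N, ∀ n ≥ N, R ≤ gprod o (f m) (f n)) :
    ∃ ξ : Boundary X, ∀ R : ℝ, ∃ N : ℕ, ∀ n ≥ N, PB o R (f n) ξ := by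
  have hbase : ∀ o' x y : X, gprod o x y - dist o o' ≤ gprod o' x y := by
    intro o' x y
    unfold gprod
    have h1 := dist_triangle x o' o
    have h2 := dist_triangle y o' o
    rw [dist_comm o o']
    linarith
  obtain ⟨u, hu⟩ : ∃ u : GromovSeq X, u.seq = f := by
    refine ⟨⟨f, fun o' R => ?_⟩, rfl⟩
    obtain ⟨N, hN⟩ := h (R + dist o o')
    refine ⟨N, fun m hm n hn => ?_⟩
    have h1 := hN m hm n hn
    have h2 := hbase o' (f m) (f n)
    linarith
  refine ⟨u.lim, fun R => ?_⟩
  obtain ⟨N, hN⟩ := h R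
  refine ⟨N, fun n hn => ⟨u, rfl, N, fun m hm => ?_⟩⟩
  rw [hu]
  exact hN n hn m hm

end Pool.Agent.Helper548.HB
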