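import Pool.Agent.Helper548.HB.Defs
import Pool.Agent.Helper548.HB.P_TG_dist
import Pool.Agent.Helper548.HB.P_pb_base
import Pool.Agent.Helper548.HB.P_seq_vert

set_option autoImplicit false

/-! Hyperbolic spaces, Gromov boundaries, hierarchically hyperbolic spaces and groups, the
hierarchically hyperbolic boundary and its topology. -/

namespace Pool.Agent.Helper548.HB



theorem e_cend_ex_norm (z : ℤ) : FreeGroup.norm (FreeGroup.of true ^ z : H) = z.natAbs := by
  cases z with
  | ofNat n =>
    rw [Int.ofNat_eq_natCast, zpow_natCast, FreeGroup.norm_of_pow]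
    rfl
  | negSucc n =>
    rw [zpow_negSucc, FreeGroup.norm_inv_eq, FreeGroup.norm_of_pow]
    rfl

theorem e_cend_ex_dist (RT : Realz TG H) (h : H) (x y : ℤ) :
    dist (RT.ι (h * FreeGroup.of true ^ x)) (RT.ι (h * FreeGroup.of true ^ y)) =
      ((y - x).natAbs : ℝ) := by
  rw [RT.dist_ι, TG_dist]
  have h1 : (h * FreeGroup.of true ^ x)⁻¹ * (h * FreeGroup.of true ^ y) =
      (FreeGroup.of true ^ (y - x) : H) := by
    rw [mul_inv_rev, mul_assoc, inv_mul_cancel_left, ← zpow_neg, ← zpow_add]
    congr 1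
    ring
  rw [h1, e_cend_ex_norm]

theorem e_cend_ex (RT : Realz TG H) (h : H) (b : Bool) : ∃ ξ, IsCEnd RT h b ξ := by
  have hg : ∀ m n : ℕ, gprod (RT.ι h)
      (RT.ι (h * FreeGroup.of true ^ (if b then (m : ℤ) else -(m : ℤ))))
      (RT.ι (h * FreeGroup.of true ^ (if b then (n : ℤ) else -(n : ℤ)))) = min (m : ℝ) n := by
    intro m n
    unfold gprod
    have e0 : RT.ι h = RT.ι (h * FreeGroup.of true ^ (0 : ℤ)) := by rw [zpow_zero, mul_one]
    rw [e0, e_cend_ex_dist, e_cend_ex_dist, e_cend_ex_dist]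
    have k1 : ((0 : ℤ) - (if b then (m : ℤ) else -(m : ℤ))).natAbs = m := by
      cases b <;> simp
    have k2 : ((0 : ℤ) - (if b then (n : ℤ) else -(n : ℤ))).natAbs = n := by
      cases b <;> simp
    rw [k1, k2]
    rcases le_total m n with hmn | hmn
    · have k3 : ((if b then (n : ℤ) else -(n : ℤ)) - (if b then (m : ℤ) else -(m : ℤ))).natAbs =
          n - m := by
        cases b
        · simp only [Bool.false_eq_true, if_false]; omega
        · simp only [if_true]; omega
      rw [k3, min_eq_left (by exact_mod_cast hmn), Nat.cast_sub hmn]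
      ring
    · have k3 : ((if b then (n : ℤ) else -(n : ℤ)) - (if b then (m : ℤ) else -(m : ℤ))).natAbs =
          m - n := by
        cases b
        · simp only [Bool.false_eq_true, if_false]; omega
        · simp only [if_true]; omega
      rw [k3, min_eq_right (by exact_mod_cast hmn), Nat.cast_sub hmn]
      ring
  obtain ⟨ξ, hξ⟩ := seq_vert (RT.ι h)
    (fun n : ℕ => RT.ι (h * FreeGroup.of true ^ (if b then (n : ℤ) else -(n : ℤ)))) (by
      intro R
      refine ⟨⌈R⌉₊, fun m hm n hn => ?_⟩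
      rw [hg]
      have h1 : R ≤ (⌈R⌉₊ : ℝ) := Nat.le_ceil R
      refine le_min (h1.trans (by exact_mod_cast hm)) (h1.trans (by exact_mod_cast hn)))
  refine ⟨ξ, ?_⟩
  intro R
  obtain ⟨N, hN⟩ := hξ (R + dist (RT.ι h) (RT.ι 1))
  refine ⟨N, fun n hn => ?_⟩
  have h1 := pb_base (o' := RT.ι 1) (hN n hn)
  rw [add_sub_cancel_right] at h1
  exact h1

end Pool.Agent.Helper548.HB
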