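import Pool.Agent.Helper548.HB.Defs

set_option autoImplicit false

/-! Hyperbolic spaces, Gromov boundaries, hierarchically hyperbolic spaces and groups, the
hierarchically hyperbolic boundary and its topology. -/

namespace Pool.Agent.Helper548.HB



theorem e_norm (h : H) : ∃ C : ℝ, ∀ j : ℤ,
    abs ((FreeGroup.norm (h * FreeGroup.of true ^ j) : ℝ) - abs (j : ℝ)) ≤ C := by
  have hz : ∀ j : ℤ, FreeGroup.norm ((FreeGroup.of true : FreeGroup Bool) ^ j) = j.natAbs := by
    intro j
    rcases Int.eq_nat_or_neg j with ⟨n, rfl | rfl⟩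
    · rw [zpow_natCast, FreeGroup.norm_of_pow, Int.natAbs_natCast]
    · rw [zpow_neg, zpow_natCast, FreeGroup.norm_inv_eq, FreeGroup.norm_of_pow, Int.natAbs_neg,
        Int.natAbs_natCast]
  refine ⟨(FreeGroup.norm h : ℝ), fun j => ?_⟩
  have h1 : (FreeGroup.norm (h * FreeGroup.of true ^ j) : ℝ) ≤
      FreeGroup.norm h + FreeGroup.norm ((FreeGroup.of true : FreeGroup Bool) ^ j) := by
    exact_mod_cast FreeGroup.norm_mul_le h ((FreeGroup.of true : FreeGroup Bool) ^ j)
  have h2 : (FreeGroup.norm ((FreeGroup.of true : FreeGroup Bool) ^ j) : ℝ) ≤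
      FreeGroup.norm h + FreeGroup.norm (h * FreeGroup.of true ^ j) := by
    have := FreeGroup.norm_mul_le h⁻¹ (h * FreeGroup.of true ^ j)
    rw [inv_mul_cancel_left, FreeGroup.norm_inv_eq] at this
    exact_mod_cast this
  rw [hz] at h1 h2
  have h3 : ((j.natAbs : ℕ) : ℝ) = abs (j : ℝ) := by
    rw [Nat.cast_natAbs, Int.cast_abs]
  rw [h3] at h1 h2
  rw [abs_le]
  constructor <;> linarith

end Pool.Agent.Helper548.HB
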