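import Pool.Agent.Helper548.HB.Defs

set_option autoImplicit false

/-! Hyperbolic spaces, Gromov boundaries, hierarchically hyperbolic spaces and groups, the
hierarchically hyperbolic boundary and its topology. -/

namespace Pool.Agent.Helper548.HB



theorem fob_geo {W : Type} (Γ : SimpleGraph W) (hc : Γ.Connected) {x y : W} (w : Γ.Walk x y)
    (hw : w.length = Γ.dist x y) {q : W} (hq : q ∈ w.support) :
    Γ.dist x q + Γ.dist q y = Γ.dist x y := by
  classical
  apply le_antisymm
  · have h1 := SimpleGraph.dist_le (w.takeUntil q hq)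
    have h2 := SimpleGraph.dist_le (w.dropUntil q hq)
    have h3 := congrArg SimpleGraph.Walk.length (w.take_spec hq)
    rw [SimpleGraph.Walk.length_append] at h3
    omega
  · exact hc.dist_triangle

theorem four_of_bott {W : Type} (Γ : SimpleGraph W) (hc : Γ.Connected)
    (hb : ∀ x y p : W, Γ.dist x p + Γ.dist p y = Γ.dist x y → ∀ w : Γ.Walk x y,
      ∃ q ∈ w.support, Γ.dist p q ≤ 1) (o x y z : W) :
    min (((Γ.dist x o : ℝ) + Γ.dist z o - Γ.dist x z) / 2)
      (((Γ.dist z o : ℝ) + Γ.dist y o - Γ.dist z y) / 2) - 4 ≤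
    ((Γ.dist x o : ℝ) + Γ.dist y o - Γ.dist x y) / 2 := by
  classical
  have tri : ∀ a b c : W, Γ.dist a c ≤ Γ.dist a b + Γ.dist b c := fun a b c => hc.dist_triangle
  have com : ∀ a b : W, Γ.dist a b = Γ.dist b a := fun a b => SimpleGraph.dist_comm
  -- the minimal point
  have hex : ∃ n : ℕ, ∃ p : W, Γ.dist x p + Γ.dist p y = Γ.dist x y ∧ Γ.dist o p = n :=
    ⟨_, x, by simp, rfl⟩
  obtain ⟨p, hp, hpm⟩ := Nat.find_spec hex
  have hmin : ∀ p' : W, Γ.dist x p' + Γ.dist p' y = Γ.dist x y → Γ.dist o p ≤ Γ.dist o p' := by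
    intro p' hp'
    rw [hpm]
    exact Nat.find_min' hex ⟨p', hp', rfl⟩
  -- part 2
  obtain ⟨w1, hw1⟩ := hc.exists_walk_length_eq_dist x z
  obtain ⟨w2, hw2⟩ := hc.exists_walk_length_eq_dist z y
  obtain ⟨q, hq, hpq⟩ := hb x y p hp (w1.append w2)
  have part2 : Γ.dist x o + Γ.dist z o ≤ Γ.dist x z + 2 * (Γ.dist o p + 1) ∨
      Γ.dist z o + Γ.dist y o ≤ Γ.dist z y + 2 * (Γ.dist o p + 1) := by
    have hqo : Γ.dist q o ≤ Γ.dist o p + 1 := by
      have h1 := tri q p o
      rw [com q p, com p o] at h1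
      omega
    rw [SimpleGraph.Walk.mem_support_append_iff] at hq
    rcases hq with hq | hq
    · left
      have h1 := fob_geo Γ hc w1 hw1 hq
      have h2 := tri x q o
      have h3 := tri z q o
      rw [com z q] at h3
      omega
    · right
      have h1 := fob_geo Γ hc w2 hw2 hq
      have h2 := tri z q o
      have h3 := tri y q o
      rw [com y q] at h3
      omega
  -- part 1
  obtain ⟨w, hw⟩ := hc.exists_walk_length_eq_dist x y
  obtain ⟨v1, hv1⟩ := hc.exists_walk_length_eq_dist x o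
  obtain ⟨v2, hv2⟩ := hc.exists_walk_length_eq_dist o y
  let P : ℕ → Prop := fun i => ∃ u, Γ.dist x u + Γ.dist u o = Γ.dist x o ∧ Γ.dist (w.getVert i) u ≤ 1
  have hP0 : P 0 := ⟨x, by simp, by simp⟩
  have hB : ∃ i j : ℕ, P i ∧ Γ.dist (w.getVert i) (w.getVert j) ≤ 1 ∧
      ∃ u, Γ.dist o u + Γ.dist u y = Γ.dist o y ∧ Γ.dist (w.getVert j) u ≤ 1 := by
    have hsp := Nat.findGreatest_spec (P := P) (Nat.zero_le w.length) hP0
    rcases Nat.eq_or_lt_of_le (Nat.findGreatest_le (P := P) w.length) with h | h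
    · refine ⟨_, w.length, hsp, ?_, y, by simp, by simp⟩
      rw [h]
      simp
    · refine ⟨_, Nat.findGreatest P w.length + 1, hsp, ?_, ?_⟩
      · exact (SimpleGraph.dist_eq_one_iff_adj.2 (w.adj_getVert_succ h)).le
      · have hnP : ¬ P (Nat.findGreatest P w.length + 1) :=
          Nat.findGreatest_is_greatest (Nat.lt_succ_self _) h
        have hbt := fob_geo Γ hc w hw (w.getVert_mem_support (Nat.findGreatest P w.length + 1))
        obtain ⟨q', hq', hpq'⟩ := hb x y _ hbt (v1.append v2)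
        rw [SimpleGraph.Walk.mem_support_append_iff] at hq'
        rcases hq' with hq' | hq'
        · exact absurd ⟨q', fob_geo Γ hc v1 hv1 hq', hpq'⟩ hnP
        · exact ⟨q', fob_geo Γ hc v2 hv2 hq', hpq'⟩
  obtain ⟨i, j, ⟨u, hu1, hu2⟩, hij, u', hu'1, hu'2⟩ := hB
  have hbi := fob_geo Γ hc w hw (w.getVert_mem_support i)
  have hbj := fob_geo Γ hc w hw (w.getVert_mem_support j)
  have hmi := hmin _ hbi
  have hmj := hmin _ hbj
  have part1 : 2 * Γ.dist o p + Γ.dist x y ≤ Γ.dist x o + Γ.dist y o + 5 := by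
    set a := w.getVert i
    set b := w.getVert j
    have t1 := tri o u a
    have t2 := tri x u a
    have t3 := tri o u' b
    have t4 := tri b u' y
    have t5 := tri x a b
    have c1 := com u a
    have c2 := com u' b
    have c3 := com o u
    have c4 := com y o
    omega
  have h1 : (2 * (Γ.dist o p : ℝ)) + Γ.dist x y ≤ Γ.dist x o + Γ.dist y o + 5 := by
    exact_mod_cast part1
  rcases part2 with h | h
  · have h2 : (Γ.dist x o : ℝ) + Γ.dist z o ≤ Γ.dist x z + 2 * (Γ.dist o p + 1) := by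
      exact_mod_cast h
    have := min_le_left (((Γ.dist x o : ℝ) + Γ.dist z o - Γ.dist x z) / 2)
      (((Γ.dist z o : ℝ) + Γ.dist y o - Γ.dist z y) / 2)
    linarith
  · have h2 : (Γ.dist z o : ℝ) + Γ.dist y o ≤ Γ.dist z y + 2 * (Γ.dist o p + 1) := by
      exact_mod_cast h
    have := min_le_right (((Γ.dist x o : ℝ) + Γ.dist z o - Γ.dist x z) / 2)
      (((Γ.dist z o : ℝ) + Γ.dist y o - Γ.dist z y) / 2)
    linarith

end Pool.Agent.Helper548.HB
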