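import Pool.Agent.Helper548.HB.Defs

set_option autoImplicit false

/-! Hyperbolic spaces, Gromov boundaries, hierarchically hyperbolic spaces and groups, the
hierarchically hyperbolic boundary and its topology. -/

namespace Pool.Agent.Helper548.HB



theorem hyp_of_four {W : Type} (Γ : SimpleGraph W) (A : Type) [Group A] [MulAction A W]
    (R : Realz Γ A)
    (h : ∀ o x y z : W, min (((Γ.dist x o : ℝ) + Γ.dist z o - Γ.dist x z) / 2)
      (((Γ.dist z o : ℝ) + Γ.dist y o - Γ.dist z y) / 2) - 4 ≤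
      ((Γ.dist x o : ℝ) + Γ.dist y o - Γ.dist x y) / 2) : HypC R.X 10 := by
  intro o x y z
  obtain ⟨o', ho⟩ := R.dense o
  obtain ⟨x', hx⟩ := R.dense x
  obtain ⟨y', hy⟩ := R.dense y
  obtain ⟨z', hz⟩ := R.dense z
  have key : ∀ (p q : R.X) (p' q' : W), dist p (R.ι p') ≤ 1 → dist q (R.ι q') ≤ 1 →
      dist p q ≤ (Γ.dist p' q' : ℝ) + 2 ∧ (Γ.dist p' q' : ℝ) ≤ dist p q + 2 := by
    intro p q p' q' hp hq
    rw [← R.dist_ι p' q']
    have h1 := dist_triangle4 p (R.ι p') (R.ι q') q
    have h2 := dist_triangle4 (R.ι p') p q (R.ι q')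
    rw [dist_comm (R.ι q') q] at h1
    rw [dist_comm (R.ι p') p] at h2
    constructor <;> linarith
  have hh := h o' x' y' z'
  have kxo := key x o x' o' hx ho
  have kyo := key y o y' o' hy ho
  have kzo := key z o z' o' hz ho
  have kxy := key x y x' y' hx hy
  have kxz := key x z x' z' hx hz
  have kzy := key z y z' y' hz hy
  unfold gprod
  have h1 : min ((dist x o + dist z o - dist x z) / 2) ((dist z o + dist y o - dist z y) / 2) ≤
      min (((Γ.dist x' o' : ℝ) + Γ.dist z' o' - Γ.dist x' z') / 2)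
      (((Γ.dist z' o' : ℝ) + Γ.dist y' o' - Γ.dist z' y') / 2) + 3 := by
    rw [← min_add_add_right]
    refine min_le_min ?_ ?_ <;> linarith [kxo.1, kyo.1, kzo.1, kxz.2, kzy.2]
  linarith [kxo.2, kyo.2, kxy.1]

end Pool.Agent.Helper548.HB
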