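import Pool.Agent.Helper548.HB.Defs
import Pool.Agent.Helper548.HB.P_four_of_bott
import Pool.Agent.Helper548.HB.P_hyp_of_four
import Pool.Agent.Helper548.HB.P_TG_connected
import Pool.Agent.Helper548.HB.P_TG_bott

set_option autoImplicit false

/-! Hyperbolic spaces, Gromov boundaries, hierarchically hyperbolic spaces and groups, the
hierarchically hyperbolic boundary and its topology. -/

namespace Pool.Agent.Helper548.HB



theorem hyp_RT (RT : Realz TG H) : HypC RT.X 10 :=
  hyp_of_four TG H RT (four_of_bott TG TG_connected TG_bott)

end Pool.Agent.Helper548.HB
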