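import Pool.Agent.Helper548.HB.Defs
import Pool.Agent.Helper548.HB.P_cut_iota
import Pool.Agent.Helper548.HB.P_cut_not_mem
import Pool.Agent.Helper548.HB.P_cut_left
import Pool.Agent.Helper548.HB.P_cut_right

set_option autoImplicit false

/-! Hyperbolic spaces, Gromov boundaries, hierarchically hyperbolic spaces and groups, the
hierarchically hyperbolic boundary and its topology. -/

namespace Pool.Agent.Helper548.HB



theorem cut_step (D : GData) (g : D.G) :
    D.cut (g * D.s) = D.cut g ∨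
    (D.cut (g * D.s) = D.cut g * gc ∧ ∃ v : V, g = D.ι (D.cut g) * D.s * D.ι v) ∨
    (D.cut g = D.cut (g * D.s) * gc ∧ ∃ v : V, g * D.s = D.ι (D.cut (g * D.s)) * D.s * D.ι v) := by
  have hvs : ∀ v : V, D.ι v * D.s ∉ D.ι.range := by
    intro v hmem
    apply D.s_not_mem
    have h1 : (D.ι v)⁻¹ * (D.ι v * D.s) ∈ D.ι.range :=
      D.ι.range.mul_mem (D.ι.range.inv_mem ⟨v, rfl⟩) hmem
    rwa [inv_mul_cancel_left] at h1
  have hcut : ∀ v : V, D.cut (D.ι v * D.s) = v := by
    intro v
    rw [cut_not_mem D _ (hvs v), D.head_left v D.s D.s_not_mem, D.head_s, mul_one]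
  by_cases hg : g ∈ D.ι.range
  · obtain ⟨v, rfl⟩ := hg
    left
    rw [hcut, cut_iota]
  · by_cases hgs : g * D.s ∈ D.ι.range
    · obtain ⟨v, hv⟩ := hgs
      left
      have h1 : g = D.ι v * D.s := by
        rw [hv, mul_assoc, D.s_mul_s, mul_one]
      rw [← hv, cut_iota, h1, hcut]
    · rw [cut_not_mem D _ hg, cut_not_mem D _ hgs]
      exact D.head_step g hg hgs

end Pool.Agent.Helper548.HB
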