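import Pool.Agent.Helper548.HB.Defs
import Pool.Agent.Helper548.HB.P_cut_step
import Pool.Agent.Helper548.HB.P_co_eq_cq

set_option autoImplicit false

/-! Hyperbolic spaces, Gromov boundaries, hierarchically hyperbolic spaces and groups, the
hierarchically hyperbolic boundary and its topology. -/

namespace Pool.Agent.Helper548.HB



theorem cq_step_adj (D : GData) (x : D.Q) (g : D.G) (a v : V)
    (h : x.out⁻¹ * g = D.ι a * D.s * D.ι v) : D.Γ.Adj x (g : D.Q) := by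
  refine ⟨x.out * D.ι a, ?_, ?_⟩
  · rw [QuotientGroup.mk_mul_of_mem _ (MonoidHom.mem_range.2 ⟨a, rfl⟩)]
    exact (QuotientGroup.out_eq' x).symm
  · have h1 : g = x.out * D.ι a * D.s * D.ι v := by
      have h2 : g = x.out * (x.out⁻¹ * g) := by group
      rw [h2, h]
      simp only [mul_assoc]
    have h3 : (g : D.Q) = ((x.out * D.ι a * D.s * D.ι v : D.G) : D.Q) := by rw [← h1]
    rw [h3, QuotientGroup.mk_mul_of_mem _ (MonoidHom.mem_range.2 ⟨v, rfl⟩)]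

theorem cq_step (D : GData) (x y y' : D.Q) (hy : y ≠ x) (hy' : y' ≠ x) (h : D.Γ.Adj y y') :
    D.cq x y = D.cq x y' ∨ (D.cq x y' = D.cq x y * gc ∧ D.Γ.Adj x y) ∨
    (D.cq x y = D.cq x y' * gc ∧ D.Γ.Adj x y') := by
  obtain ⟨g, rfl, rfl⟩ := h
  rw [← co_eq_cq D x g hy, ← co_eq_cq D x (g * D.s) hy']
  have h1 := cut_step D (x.out⁻¹ * g)
  have h2 : D.co x g = D.cut (x.out⁻¹ * g) := rfl
  have h3 : D.co x (g * D.s) = D.cut (x.out⁻¹ * g * D.s) := by
    rw [mul_assoc]; rfl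
  rw [h2, h3]
  rcases h1 with h1 | ⟨h1, v, hv⟩ | ⟨h1, v, hv⟩
  · exact Or.inl h1.symm
  · exact Or.inr (Or.inl ⟨h1, cq_step_adj D x g _ v hv⟩)
  · refine Or.inr (Or.inr ⟨h1, cq_step_adj D x (g * D.s) (D.cut (x.out⁻¹ * g * D.s)) v ?_⟩)
    rw [← mul_assoc]
    exact hv

end Pool.Agent.Helper548.HB
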