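import Pool.Agent.Helper548.HB.Defs
import Pool.Agent.Helper548.HB.P_cq_step

set_option autoImplicit false

/-! Hyperbolic spaces, Gromov boundaries, hierarchically hyperbolic spaces and groups, the
hierarchically hyperbolic boundary and its topology. -/

namespace Pool.Agent.Helper548.HB



theorem walk_avoid (D : GData) (x y y' : D.Q) (w : D.Γ.Walk y y')
    (hw : ∀ q ∈ w.support, 2 ≤ D.Γ.dist x q) : D.cq x y = D.cq x y' := by
  have hne : ∀ q : D.Q, 2 ≤ D.Γ.dist x q → q ≠ x := by
    rintro q hq rfl
    rw [SimpleGraph.dist_self] at hq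
    omega
  have hna : ∀ q : D.Q, 2 ≤ D.Γ.dist x q → ¬ D.Γ.Adj x q := by
    intro q hq hadj
    rw [SimpleGraph.dist_eq_one_iff_adj.2 hadj] at hq
    omega
  induction w with
  | nil => rfl
  | cons hadj p ih =>
    rename_i u v w'
    have hu : 2 ≤ D.Γ.dist x u := hw u (by simp)
    have hv : 2 ≤ D.Γ.dist x v := hw v (by simp)
    have h1 : D.cq x u = D.cq x v := by
      rcases cq_step D x u v (hne u hu) (hne v hv) hadj with h | h | h
      · exact h
      · exact absurd h.2 (hna u hu)
      · exact absurd h.2 (hna v hv)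
    exact h1.trans (ih fun q hq => hw q (by simp [hq]))

end Pool.Agent.Helper548.HB
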