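import Pool.Agent.Helper548.HB.Defs
import Pool.Agent.Helper548.HB.P_adj_eq
import Pool.Agent.Helper548.HB.P_adj_consec
import Pool.Agent.Helper548.HB.P_cq_step
import Pool.Agent.Helper548.HB.P_connected
import Pool.Agent.Helper548.HB.P_walk_avoid

set_option autoImplicit false

/-! Hyperbolic spaces, Gromov boundaries, hierarchically hyperbolic spaces and groups, the
hierarchically hyperbolic boundary and its topology. -/

namespace Pool.Agent.Helper548.HB



theorem bott_aux (D : GData) (p x : D.Q) (hx : 2 ≤ D.Γ.dist p x) :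
    ∃ p' : D.Q, D.Γ.Adj p p' ∧ D.Γ.dist p' x + 1 ≤ D.Γ.dist p x ∧
      (D.cq p x = D.cq p p' ∨ D.cq p x = D.cq p p' * gc) := by
  classical
  have hconn := connected D
  obtain ⟨W, hW⟩ := hconn.exists_walk_length_eq_dist p x
  cases W with
  | nil => simp at hx
  | @cons _ p' _ hadj W' =>
    cases W' with
    | nil =>
      rw [SimpleGraph.Walk.length_cons, SimpleGraph.Walk.length_nil] at hW
      omega
    | @cons _ p'' _ hadj' W'' =>
      rw [SimpleGraph.Walk.length_cons, SimpleGraph.Walk.length_cons] at hW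
      have hfar : ∀ q ∈ W''.support, 2 ≤ D.Γ.dist p q := by
        intro q hq
        have h1 : D.Γ.dist q x ≤ (W''.dropUntil q hq).length := SimpleGraph.dist_le _
        have h2 := W''.length_dropUntil_le hq
        have h3 := hconn.dist_triangle (u := p) (v := q) (w := x)
        omega
      have hp'' : 2 ≤ D.Γ.dist p p'' := hfar p'' W''.start_mem_support
      have h1 := walk_avoid D p p'' x W'' hfar
      refine ⟨p', hadj, ?_, ?_⟩
      · have h2 : D.Γ.dist p' x ≤ (SimpleGraph.Walk.cons hadj' W'').length := SimpleGraph.dist_le _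
        rw [SimpleGraph.Walk.length_cons] at h2
        omega
      · have hne : p'' ≠ p := by
          rintro rfl
          rw [SimpleGraph.dist_self] at hp''
          omega
        rw [← h1]
        rcases cq_step D p p' p'' hadj.ne' hne hadj' with h | ⟨h, _⟩ | ⟨_, h⟩
        · left; exact h.symm
        · right; exact h
        · rw [← SimpleGraph.dist_eq_one_iff_adj] at h
          omega

theorem bott (D : GData) (x y p : D.Q) (h : D.Γ.dist x p + D.Γ.dist p y = D.Γ.dist x y)
    (w : D.Γ.Walk x y) : ∃ q ∈ w.support, D.Γ.dist p q ≤ 1 := by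
  classical
  have hconn := connected D
  by_contra hcon
  push Not at hcon
  have hfar : ∀ q ∈ w.support, 2 ≤ D.Γ.dist p q := fun q hq => hcon q hq
  have hx := hfar x w.start_mem_support
  have hy := hfar y w.end_mem_support
  have hc := walk_avoid D p x y w hfar
  obtain ⟨p1, ha1, hd1, hc1⟩ := bott_aux D p x hx
  obtain ⟨p2, ha2, hd2, hc2⟩ := bott_aux D p y hy
  have ht : 2 ≤ D.Γ.dist p1 p2 := by
    have h1 := hconn.dist_triangle (u := x) (v := p1) (w := y)
    have h2 := hconn.dist_triangle (u := p1) (v := p2) (w := y)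
    rw [SimpleGraph.dist_comm (u := x) (v := p1)] at h1
    rw [SimpleGraph.dist_comm (u := x) (v := p)] at h
    omega
  have e1 := adj_eq D p p1 ha1
  have e2 := adj_eq D p p2 ha2
  have hne : p1 ≠ p2 := by
    rintro rfl
    rw [SimpleGraph.dist_self] at ht
    omega
  have hna : ¬ D.Γ.Adj p1 p2 := by
    intro hadj
    rw [← SimpleGraph.dist_eq_one_iff_adj] at hadj
    omega
  rcases hc1 with h1 | h1 <;> rcases hc2 with h2 | h2
  · apply hne
    have h3 : D.cq p p1 = D.cq p p2 := by rw [← h1, hc, h2]
    rw [e1, e2, h3]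
  · apply hna
    have h3 : D.cq p p1 = D.cq p p2 * gc := by rw [← h1, hc, h2]
    rw [e1, e2, h3]
    exact (adj_consec D p (D.cq p p2)).symm
  · apply hna
    have h3 : D.cq p p2 = D.cq p p1 * gc := by rw [← h2, ← hc, h1]
    rw [e1, e2, h3]
    exact adj_consec D p (D.cq p p1)
  · apply hne
    have h3 : D.cq p p1 = D.cq p p2 := mul_right_cancel (b := gc) (by rw [← h1, hc, h2])
    rw [e1, e2, h3]

end Pool.Agent.Helper548.HB
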