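import Pool.Agent.Helper548.HB.Defs
import Pool.Agent.Helper548.HB.P_connected
import Pool.Agent.Helper548.HB.P_bott
import Pool.Agent.Helper548.HB.P_four_of_bott
import Pool.Agent.Helper548.HB.P_hyp_of_four

set_option autoImplicit false

/-! Hyperbolic spaces, Gromov boundaries, hierarchically hyperbolic spaces and groups, the
hierarchically hyperbolic boundary and its topology. -/

namespace Pool.Agent.Helper548.HB



theorem hyp_RG (D : GData) (RG : Realz D.Γ D.G) : HypC RG.X 10 :=
  hyp_of_four D.Γ D.G RG (four_of_bott D.Γ (connected D) (fun x y p h w => bott D x y p h w))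

end Pool.Agent.Helper548.HB
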