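import Pool.Agent.Helper548.HB.Defs

set_option autoImplicit false

/-! Hyperbolic spaces, Gromov boundaries, hierarchically hyperbolic spaces and groups, the
hierarchically hyperbolic boundary and its topology. -/

namespace Pool.Agent.Helper548.HB



theorem near_symm {X : Type} [MetricSpace X] {o : X} {R : ℝ} {ξ ζ : Boundary X}
    (h : Near o R ξ ζ) : Near o R ζ ξ := by
  obtain ⟨u, v, hu, hv, N, hN⟩ := h
  refine ⟨v, u, hv, hu, N, fun m hm n hn => (hN n hn m hm).trans (le_of_eq ?_)⟩
  unfold gprod
  rw [dist_comm (u.seq n) (v.seq m)]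
  ring

end Pool.Agent.Helper548.HB
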