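import Pool.Agent.Helper548.HB.Defs

set_option autoImplicit false

/-! Hyperbolic spaces, Gromov boundaries, hierarchically hyperbolic spaces and groups, the
hierarchically hyperbolic boundary and its topology. -/

namespace Pool.Agent.Helper548.HB



private theorem j29886_comm {X : Type} [MetricSpace X] (o x y : X) :
    gprod o x y = gprod o y x := by
  unfold gprod
  rw [dist_comm x y]
  ring

private theorem j29886_equiv {X : Type} [MetricSpace X] {δ : ℝ} (hyp : HypC X δ) :
    Equivalence (GromovSeq.Equiv (X := X)) := by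
  refine ⟨?_, ?_, ?_⟩
  · intro u o R
    obtain ⟨N, hN⟩ := u.conv o R
    exact ⟨N, fun n hn => hN n hn n hn⟩
  · intro u v h o R
    obtain ⟨N, hN⟩ := h o R
    refine ⟨N, fun n hn => ?_⟩
    rw [j29886_comm]
    exact hN n hn
  · intro u v w h1 h2 o R
    obtain ⟨N1, hN1⟩ := h1 o (R + δ)
    obtain ⟨N2, hN2⟩ := h2 o (R + δ)
    refine ⟨max N1 N2, fun n hn => ?_⟩
    have h3 := hN1 n (le_trans (le_max_left _ _) hn)
    have h4 := hN2 n (le_trans (le_max_right _ _) hn)
    have h5 := hyp o (u.seq n) (w.seq n) (v.seq n)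
    have h6 := le_min h3 h4
    linarith

theorem lim_eq_iff {X : Type} [MetricSpace X] {δ : ℝ} (hyp : HypC X δ)
    (u v : GromovSeq X) : u.lim = v.lim ↔ u.Equiv v := by
  constructor
  · intro h
    have h1 := Quot.eqvGen_exact h
    rwa [(j29886_equiv hyp).eqvGen_iff] at h1
  · intro h
    exact Quot.sound h

end Pool.Agent.Helper548.HB
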