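import Pool.Agent.Helper548.HB.Defs
import Pool.Agent.Helper548.HB.P_lim_eq_iff

set_option autoImplicit false

/-! Hyperbolic spaces, Gromov boundaries, hierarchically hyperbolic spaces and groups, the
hierarchically hyperbolic boundary and its topology. -/

namespace Pool.Agent.Helper548.HB



theorem near_of_rep {X : Type} [MetricSpace X] {δ : ℝ} (hδ : 0 ≤ δ) (hyp : HypC X δ)
    {o : X} {R : ℝ} {ξ η : Boundary X} (h : Near o R ξ η) (u v : GromovSeq X)
    (hu : u.lim = ξ) (hv : v.lim = η) :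
    ∃ N : ℕ, ∀ m ≥ N, ∀ n ≥ N, R - 2 * δ ≤ gprod o (u.seq m) (v.seq n) := by
  obtain ⟨u', v', hu', hv', N, hN⟩ := h
  have h1 : u.Equiv u' := (lim_eq_iff hyp u u').1 (hu.trans hu'.symm)
  have h2 : v'.Equiv v := (lim_eq_iff hyp v' v).1 (hv'.trans hv.symm)
  obtain ⟨N1, hN1⟩ := h1 o R
  obtain ⟨N2, hN2⟩ := h2 o R
  refine ⟨max N (max N1 N2), fun m hm n hn => ?_⟩
  have hm0 : N ≤ m := le_trans (le_max_left _ _) hm
  have hn0 : N ≤ n := le_trans (le_max_left _ _) hn
  have hm1 : N1 ≤ m := le_trans (le_trans (le_max_left _ _) (le_max_right _ _)) hm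
  have hn2 : N2 ≤ n := le_trans (le_trans (le_max_right _ _) (le_max_right _ _)) hn
  have a1 := hN1 m hm1
  have a2 := hN2 n hn2
  have a3 := hN m hm0 n hn0
  have b1 := hyp o (u.seq m) (v.seq n) (u'.seq m)
  have b2 := hyp o (u'.seq m) (v.seq n) (v'.seq n)
  have c2 : R ≤ min (gprod o (u'.seq m) (v'.seq n)) (gprod o (v'.seq n) (v.seq n)) :=
    le_min a3 a2
  have c3 : R - δ ≤ gprod o (u'.seq m) (v.seq n) := by linarith
  have c1 : R - δ ≤ min (gprod o (u.seq m) (u'.seq m)) (gprod o (u'.seq m) (v.seq n)) :=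
    le_min (by linarith) c3
  linarith

end Pool.Agent.Helper548.HB
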