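import Pool.Agent.Helper548.HB.Defs
import Pool.Agent.Helper548.HB.P_pb_near
import Pool.Agent.Helper548.HB.P_near_symm
import Pool.Agent.Helper548.HB.P_hyp_RG

set_option autoImplicit false

/-! Hyperbolic spaces, Gromov boundaries, hierarchically hyperbolic spaces and groups, the
hierarchically hyperbolic boundary and its topology. -/

namespace Pool.Agent.Helper548.HB



theorem l_near {D : GData} {RG : Realz D.Γ D.G} {RT : Realz TG H} (ω : Boundary RG.X)
    (x : D.Q) (v : V) (h : (MPt.lim ω : MPt D RG RT).away x v) :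
    ∃ R : ℝ, ∀ q : MPt D RG RT, q.nearlim ω R → q.away x v := by
  obtain ⟨R0, hR0⟩ := h
  refine ⟨R0 + 30, ?_⟩
  intro q hq
  cases q with
  | lim ω' =>
    refine ⟨R0 + 30, ?_⟩
    intro y hy
    have h1 : Near (RG.ι ((1 : D.G) : D.Q)) (R0 + 30) ω' ω := near_symm hq
    have h2 := pb_near (by norm_num : (0 : ℝ) ≤ 10) (hyp_RG D RG) hy h1
    have h3 : R0 + 30 - 3 * 10 = R0 := by ring
    rw [h3] at h2
    exact hR0 y h2
  | arc y ξ r => exact hR0 y (PB.mono hq (by linarith))
  | pole y b => exact hR0 y (PB.mono hq (by linarith))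

end Pool.Agent.Helper548.HB
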