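import Pool.Agent.Helper548.HB.Defs
import Pool.Agent.Helper548.HB.P_cq_step
import Pool.Agent.Helper548.HB.P_connected
import Pool.Agent.Helper548.HB.P_walk_avoid

set_option autoImplicit false

/-! Hyperbolic spaces, Gromov boundaries, hierarchically hyperbolic spaces and groups, the
hierarchically hyperbolic boundary and its topology. -/

namespace Pool.Agent.Helper548.HB



/-- along a geodesic walk from y to y' avoiding x the gate in x changes by at most c^4 -/
theorem walk_geo (D : GData) (x y y' : D.Q) (w : D.Γ.Walk y y') (hw : w.length = D.Γ.dist y y')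
    (hx : x ∉ w.support) : ∃ j : ℤ, |j| ≤ 4 ∧ D.cq x y' = D.cq x y * gc ^ j := by
  classical
  -- geodesicity: neighbours of `x` on the walk have indices at distance at most two
  have hclose : ∀ i j : ℕ, i ≤ j → j ≤ w.length → D.Γ.Adj x (w.getVert i) →
      D.Γ.Adj x (w.getVert j) → j ≤ i + 2 := by
    intro i j hij hj h1 h2
    have d1 : D.Γ.dist y (w.getVert i) ≤ i := by
      refine (SimpleGraph.dist_le (w.take i)).trans ?_
      rw [SimpleGraph.Walk.take_length]
      exact min_le_left _ _
    have d2 : D.Γ.dist (w.getVert i) (w.getVert j) ≤ 2 := by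
      have := SimpleGraph.dist_le (SimpleGraph.Walk.cons h1.symm (SimpleGraph.Walk.cons h2 SimpleGraph.Walk.nil))
      simpa using this
    have d3 : D.Γ.dist (w.getVert j) y' ≤ w.length - j := by
      refine (SimpleGraph.dist_le (w.drop j)).trans ?_
      rw [SimpleGraph.Walk.drop_length]
    have t1 : D.Γ.dist y y' ≤ D.Γ.dist y (w.getVert j) + D.Γ.dist (w.getVert j) y' :=
      (connected D).dist_triangle
    have t2 : D.Γ.dist y (w.getVert j) ≤
        D.Γ.dist y (w.getVert i) + D.Γ.dist (w.getVert i) (w.getVert j) :=
      (connected D).dist_triangle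
    omega
  -- the steps of the walk
  have hne : ∀ i : ℕ, w.getVert i ≠ x := by
    intro i h
    exact hx (h ▸ w.getVert_mem_support i)
  have hstep : ∀ k : ℕ, k ≤ w.length → ∃ j : ℤ,
      |j| ≤ (((Finset.range k).filter
        (fun i => D.Γ.Adj x (w.getVert i) ∨ D.Γ.Adj x (w.getVert (i + 1)))).card : ℤ) ∧
      D.cq x (w.getVert k) = D.cq x y * gc ^ j := by
    intro k
    induction k with
    | zero =>
      intro _
      refine ⟨0, by simp, by simp⟩
    | succ k ih =>
      intro hk
      obtain ⟨j, hj, hj'⟩ := ih (by omega)
      have hadj : D.Γ.Adj (w.getVert k) (w.getVert (k + 1)) :=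
        w.adj_getVert_succ (by omega)
      rw [Finset.range_add_one, Finset.filter_insert]
      rcases cq_step D x _ _ (hne k) (hne (k + 1)) hadj with h | ⟨h, h'⟩ | ⟨h, h'⟩
      · refine ⟨j, ?_, by rw [← h, hj']⟩
        split_ifs
        · rw [Finset.card_insert_of_notMem (by simp)]
          push_cast
          omega
        · exact hj
      · refine ⟨j + 1, ?_, by rw [h, hj', zpow_add_one, mul_assoc]⟩
        rw [if_pos (Or.inl h'), Finset.card_insert_of_notMem (by simp)]
        push_cast
        rw [abs_le] at hj ⊢
        omega
      · refine ⟨j - 1, ?_, ?_⟩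
        · rw [if_pos (Or.inr h'), Finset.card_insert_of_notMem (by simp)]
          push_cast
          rw [abs_le] at hj ⊢
          omega
        · rw [← mul_left_inj gc, ← h, hj', mul_assoc, ← zpow_add_one, sub_add_cancel]
  obtain ⟨j, hj, hj'⟩ := hstep w.length le_rfl
  refine ⟨j, hj.trans ?_, by rw [← hj', w.getVert_length]⟩
  -- at most four steps
  have hcard : ((Finset.range w.length).filter
        (fun i => D.Γ.Adj x (w.getVert i) ∨ D.Γ.Adj x (w.getVert (i + 1)))).card ≤ 4 := by
    rcases ((Finset.range w.length).filter
        (fun i => D.Γ.Adj x (w.getVert i) ∨ D.Γ.Adj x (w.getVert (i + 1)))).eq_empty_or_nonempty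
      with he | he
    · rw [he]; simp
    · have hm := Finset.min'_mem _ he
      have hle : ∀ i ∈ (Finset.range w.length).filter
          (fun i => D.Γ.Adj x (w.getVert i) ∨ D.Γ.Adj x (w.getVert (i + 1))),
          Finset.min' _ he ≤ i := fun i hi => Finset.min'_le _ i hi
      generalize Finset.min' _ he = m at hm hle
      have hsub : (Finset.range w.length).filter
        (fun i => D.Γ.Adj x (w.getVert i) ∨ D.Γ.Adj x (w.getVert (i + 1))) ⊆
          Finset.Icc m (m + 3) := by
        intro i hi
        have h1 := hle i hi
        rw [Finset.mem_Icc]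
        refine ⟨h1, ?_⟩
        rw [Finset.mem_filter, Finset.mem_range] at hi hm
        obtain ⟨hi1, hi2⟩ := hi
        obtain ⟨hm1, hm2⟩ := hm
        rcases hm2 with hm2 | hm2 <;> rcases hi2 with hi2 | hi2
        · have := hclose m i h1 (by omega) hm2 hi2
          omega
        · have := hclose m (i + 1) (by omega) (by omega) hm2 hi2
          omega
        · rcases Nat.lt_or_ge i (m + 1) with h | h
          · omega
          · have := hclose (m + 1) i h (by omega) hm2 hi2
            omega
        · have := hclose (m + 1) (i + 1) (by omega) (by omega) hm2 hi2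
          omega
      refine (Finset.card_le_card hsub).trans ?_
      rw [Nat.card_Icc]
      omega
  exact_mod_cast hcard

end Pool.Agent.Helper548.HB
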