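import Pool.Agent.Helper548.HB.Defs
import Pool.Agent.Helper548.HB.P_co_eq_cq
import Pool.Agent.Helper548.HB.P_connected
import Pool.Agent.Helper548.HB.P_walk_geo

set_option autoImplicit false

/-! Hyperbolic spaces, Gromov boundaries, hierarchically hyperbolic spaces and groups, the
hierarchically hyperbolic boundary and its topology. -/

namespace Pool.Agent.Helper548.HB



/-- Behrstock inequality -/
theorem behr (D : GData) (x y : D.Q) (hxy : x ≠ y) (g : D.G) :
    (∃ j : ℤ, |j| ≤ 6 ∧ D.co x g = D.cq x y * gc ^ j) ∨
    (∃ j : ℤ, |j| ≤ 6 ∧ D.co y g = D.cq y x * gc ^ j) := by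
  classical
  by_cases hzx : (g : D.Q) = x
  · right
    refine ⟨0, by norm_num, ?_⟩
    rw [zpow_zero, mul_one, co_eq_cq D y g (fun h => hxy (hzx.symm.trans h)), hzx]
  · by_cases hzy : (g : D.Q) = y
    · left
      refine ⟨0, by norm_num, ?_⟩
      rw [zpow_zero, mul_one, co_eq_cq D x g hzx, hzy]
    · rw [co_eq_cq D x g hzx, co_eq_cq D y g hzy]
      obtain ⟨w, hw⟩ := (connected D).exists_walk_length_eq_dist y (g : D.Q)
      by_cases hx : x ∈ w.support
      · right
        have hspec := w.take_spec hx
        have hlen : (w.takeUntil x hx).length + (w.dropUntil x hx).length = w.length := by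
          rw [← SimpleGraph.Walk.length_append, hspec]
        have h1 : D.Γ.dist y x ≤ (w.takeUntil x hx).length := SimpleGraph.dist_le _
        have h2 : D.Γ.dist x (g : D.Q) ≤ (w.dropUntil x hx).length := SimpleGraph.dist_le _
        have h3 : D.Γ.dist y (g : D.Q) ≤ D.Γ.dist y x + D.Γ.dist x (g : D.Q) :=
          (connected D).dist_triangle
        have hgeo : (w.dropUntil x hx).length = D.Γ.dist x (g : D.Q) := by omega
        have hy : y ∉ (w.dropUntil x hx).support := by
          intro hy
          have h4 : D.Γ.dist y (g : D.Q) ≤ ((w.dropUntil x hx).dropUntil y hy).length :=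
            SimpleGraph.dist_le _
          have h5 : ((w.dropUntil x hx).takeUntil y hy).length +
              ((w.dropUntil x hx).dropUntil y hy).length = (w.dropUntil x hx).length := by
            rw [← SimpleGraph.Walk.length_append, SimpleGraph.Walk.take_spec]
          have h6 : (w.takeUntil x hx).length = 0 := by omega
          exact hxy (SimpleGraph.Walk.eq_of_length_eq_zero h6).symm
        obtain ⟨j, hj, h⟩ := walk_geo D y x (g : D.Q) (w.dropUntil x hx) hgeo hy
        exact ⟨j, by omega, h⟩
      · left
        obtain ⟨j, hj, h⟩ := walk_geo D x y (g : D.Q) w hw hx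
        exact ⟨j, by omega, h⟩

end Pool.Agent.Helper548.HB
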