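import Pool.Agent.Helper548.HB.Defs
import Pool.Agent.Helper548.HB.P_behr
import Pool.Agent.Helper548.HB.P_pb_vert

set_option autoImplicit false

/-! Hyperbolic spaces, Gromov boundaries, hierarchically hyperbolic spaces and groups, the
hierarchically hyperbolic boundary and its topology. -/

namespace Pool.Agent.Helper548.HB



theorem m_behr_mono {X : Type} [MetricSpace X] {o : X} {R R' : ℝ} (hR : R' ≤ R) {x : X}
    {ζ : Boundary X} (h : PB o R x ζ) : PB o R' x ζ := by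
  obtain ⟨u, hu, N, hN⟩ := h
  exact ⟨u, hu, N, fun n hn => hR.trans (hN n hn)⟩

theorem m_behr_z {D : GData} (x y : D.Q) (hxy : x ≠ y) (z : D.Q) (v w : V)
    (hv : D.cq y z = v) (hw : D.cq x z = w) :
    (∃ j : ℤ, |j| ≤ 6 ∧ w = D.cq x y * gc ^ j) ∨ (∃ j : ℤ, |j| ≤ 6 ∧ v = D.cq y x * gc ^ j) := by
  subst hv hw
  exact behr D x y hxy z.out

theorem m_behr {D : GData} {RG : Realz D.Γ D.G} {RT : Realz TG H} (x y : D.Q) (hxy : x ≠ y)
    (q : MPt D RG RT) (v w : V) (hv : q.away y v) (hw : q.away x w) :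
    (∃ j : ℤ, |j| ≤ 6 ∧ w = D.cq x y * gc ^ j) ∨ (∃ j : ℤ, |j| ≤ 6 ∧ v = D.cq y x * gc ^ j) := by
  cases q with
  | lim ω =>
    obtain ⟨R1, h1⟩ := hv
    obtain ⟨R2, h2⟩ := hw
    obtain ⟨z, hz⟩ := pb_vert RG (RG.ι ((1 : D.G) : D.Q)) ω (max R1 R2)
    exact m_behr_z x y hxy z v w (h1 z (m_behr_mono (le_max_left _ _) hz)).2
      (h2 z (m_behr_mono (le_max_right _ _) hz)).2
  | arc z ξ r => exact m_behr_z x y hxy z v w hv.2 hw.2
  | pole z b => exact m_behr_z x y hxy z v w hv.2 hw.2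

end Pool.Agent.Helper548.HB
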