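import Pool.Agent.Helper548.HB.Defs

set_option autoImplicit false

/-! Hyperbolic spaces, Gromov boundaries, hierarchically hyperbolic spaces and groups, the
hierarchically hyperbolic boundary and its topology. -/

namespace Pool.Agent.Helper548.HB



theorem pb_dist {X : Type} [MetricSpace X] {o : X} {R : ℝ} {x : X} {ζ : Boundary X}
    (h : PB o R x ζ) : R ≤ dist o x := by
  obtain ⟨u, -, N, hN⟩ := h
  have h1 := hN N le_rfl
  unfold gprod at h1
  have h2 := dist_triangle o x (u.seq N)
  have h3 := dist_triangle x o (u.seq N)
  have h4 := dist_comm x o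
  have h5 := dist_comm (u.seq N) x
  have h6 := dist_comm (u.seq N) o
  linarith

end Pool.Agent.Helper548.HB
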