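import Pool.Agent.Helper548.HB.Defs
import Pool.Agent.Helper548.HB.P_lim_eq_iff

set_option autoImplicit false

/-! Hyperbolic spaces, Gromov boundaries, hierarchically hyperbolic spaces and groups, the
hierarchically hyperbolic boundary and its topology. -/

namespace Pool.Agent.Helper548.HB



theorem pb_of_rep {X : Type} [MetricSpace X] {δ : ℝ} (hyp : HypC X δ)
    {o : X} {R : ℝ} {x : X} {ζ : Boundary X}
    (h : PB o R x ζ) (v : GromovSeq X) (hv : v.lim = ζ) :
    ∃ N : ℕ, ∀ n ≥ N, R - δ ≤ gprod o x (v.seq n) := by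
  obtain ⟨u, hu, N, hN⟩ := h
  have he : u.Equiv v := (lim_eq_iff hyp u v).1 (hu.trans hv.symm)
  obtain ⟨M, hM⟩ := he o R
  refine ⟨max N M, fun n hn => ?_⟩
  have h1 := hN n (le_of_max_le_left hn)
  have h2 := hM n (le_of_max_le_right hn)
  have h3 := hyp o x (v.seq n) (u.seq n)
  have h4 : R ≤ min (gprod o x (u.seq n)) (gprod o (u.seq n) (v.seq n)) := le_min h1 h2
  linarith

end Pool.Agent.Helper548.HB
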