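import Pool.Agent.Helper548.HB.Defs
import Pool.Agent.Helper548.HB.P_connected
import Pool.Agent.Helper548.HB.P_walk_avoid
import Pool.Agent.Helper548.HB.P_pb_of_rep
import Pool.Agent.Helper548.HB.P_pb_dist
import Pool.Agent.Helper548.HB.P_pb_vert
import Pool.Agent.Helper548.HB.P_hyp_RG

set_option autoImplicit false

/-! Hyperbolic spaces, Gromov boundaries, hierarchically hyperbolic spaces and groups, the
hierarchically hyperbolic boundary and its topology. -/

namespace Pool.Agent.Helper548.HB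



theorem l_away_ex (D : GData) (RG : Realz D.Γ D.G) (RT : Realz TG H) (x : D.Q)
    (ω : Boundary RG.X) : ∃ v, (MPt.lim ω : MPt D RG RT).away x v := by
  classical
  have hyp := hyp_RG D RG
  obtain ⟨y0, hy0⟩ := pb_vert RG (RG.ι ((1 : D.G) : D.Q)) ω
    (dist (RG.ι ((1 : D.G) : D.Q)) (RG.ι x) + 40)
  refine ⟨D.cq x y0, dist (RG.ι ((1 : D.G) : D.Q)) (RG.ι x) + 40, fun y hy => ?_⟩
  generalize RG.ι ((1 : D.G) : D.Q) = o at hy0 hy
  refine ⟨?_, ?_⟩
  · rintro rfl
    have := pb_dist hy
    linarith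
  · obtain ⟨u, hu, N, hN⟩ := hy0
    obtain ⟨N', hN'⟩ := pb_of_rep hyp hy u hu
    have h1 := hN (max N N') (le_max_left _ _)
    have h2 := hN' (max N N') (le_max_right _ _)
    have h3 := hyp o (RG.ι y) (RG.ι y0) (u.seq (max N N'))
    have h4 : gprod o (u.seq (max N N')) (RG.ι y0) = gprod o (RG.ι y0) (u.seq (max N N')) := by
      unfold gprod
      rw [dist_comm (u.seq (max N N')) (RG.ι y0)]
      ring
    have h5 : dist o (RG.ι x) + 20 ≤ gprod o (RG.ι y) (RG.ι y0) := by
      rw [h4] at h3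
      have h6 : dist o (RG.ι x) + 30 ≤ min (gprod o (RG.ι y) (u.seq (max N N')))
          (gprod o (RG.ι y0) (u.seq (max N N'))) := le_min (by linarith) (by linarith)
      linarith
    obtain ⟨w, hw⟩ := (connected D).exists_walk_length_eq_dist y0 y
    symm
    apply walk_avoid D x y0 y w
    intro q hq
    have e1 : (w.takeUntil q hq).length + (w.dropUntil q hq).length = w.length := by
      rw [← SimpleGraph.Walk.length_append, SimpleGraph.Walk.take_spec]
    have e2 : D.Γ.dist y0 q ≤ (w.takeUntil q hq).length := SimpleGraph.dist_le _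
    have e3 : D.Γ.dist q y ≤ (w.dropUntil q hq).length := SimpleGraph.dist_le _
    have e4 : D.Γ.dist y0 q + D.Γ.dist q y ≤ D.Γ.dist y0 y := by omega
    have e5 : dist (RG.ι y0) (RG.ι q) + dist (RG.ι q) (RG.ι y) ≤ dist (RG.ι y0) (RG.ι y) := by
      rw [RG.dist_ι, RG.dist_ι, RG.dist_ι]
      exact_mod_cast e4
    have t1 : dist (RG.ι y0) o ≤ dist (RG.ι y0) (RG.ι q) + dist (RG.ι q) (RG.ι x) +
        dist (RG.ι x) o := (dist_triangle _ (RG.ι x) _).trans (by
          have := dist_triangle (RG.ι y0) (RG.ι q) (RG.ι x); linarith)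
    have t2 : dist (RG.ι y) o ≤ dist (RG.ι q) (RG.ι y) + dist (RG.ι q) (RG.ι x) +
        dist (RG.ι x) o := (dist_triangle _ (RG.ι x) _).trans (by
          have := dist_triangle (RG.ι y) (RG.ι q) (RG.ι x)
          rw [dist_comm (RG.ι y) (RG.ι q)] at this; linarith)
    have h7 : (20 : ℝ) ≤ dist (RG.ι q) (RG.ι x) := by
      unfold gprod at h5
      rw [dist_comm (RG.ι x) o] at t1 t2
      rw [dist_comm (RG.ι y) (RG.ι y0)] at h5
      linarith
    rw [dist_comm, RG.dist_ι] at h7
    have h8 : 20 ≤ D.Γ.dist x q := by exact_mod_cast h7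
    omega

end Pool.Agent.Helper548.HB
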