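import Pool.Agent.Helper548.HB.Defs
import Pool.Agent.Helper548.HB.P_l_away_ex

set_option autoImplicit false

/-! Hyperbolic spaces, Gromov boundaries, hierarchically hyperbolic spaces and groups, the
hierarchically hyperbolic boundary and its topology. -/

namespace Pool.Agent.Helper548.HB



theorem m_cases {D : GData} {RG : Realz D.Γ D.G} {RT : Realz TG H} (q : MPt D RG RT)
    (x : D.Q) : q.atv x ∨ ∃ v, q.away x v := by
  cases q with
  | lim ω => exact Or.inr (l_away_ex D RG RT x ω)
  | arc z ξ r =>
    by_cases h : z = x
    · exact Or.inl h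
    · exact Or.inr ⟨D.cq x z, h, rfl⟩
  | pole z b =>
    by_cases h : z = x
    · exact Or.inl h
    · exact Or.inr ⟨D.cq x z, h, rfl⟩

end Pool.Agent.Helper548.HB
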