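import Pool.Agent.Helper548.HB.Defs

set_option autoImplicit false

/-! Hyperbolic spaces, Gromov boundaries, hierarchically hyperbolic spaces and groups, the
hierarchically hyperbolic boundary and its topology. -/

namespace Pool.Agent.Helper548.HB



theorem m_excl {D : GData} {RG : Realz D.Γ D.G} {RT : Realz TG H} (q : MPt D RG RT)
    (x : D.Q) (v : V) (h : q.atv x) : ¬ q.away x v := by
  intro h2
  cases q with
  | lim ω => exact h
  | arc z ξ r => exact h2.1 h
  | pole z b => exact h2.1 h

end Pool.Agent.Helper548.HB
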