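import Pool.Agent.Helper548.HB.Defs

set_option autoImplicit false

/-! Hyperbolic spaces, Gromov boundaries, hierarchically hyperbolic spaces and groups, the
hierarchically hyperbolic boundary and its topology. -/

namespace Pool.Agent.Helper548.HB



theorem psi_line (t : ℝ) (v : V) (j : ℤ) : lam t (v * gc ^ j) = lam t v + t * j := by
  have h1 : (gc ^ j : V).1 = FreeGroup.of true ^ j := by
    simp [gc]
  have h2 : (gc ^ j : V).2 = 1 := by
    simp [gc]
  have h3 : psi (FreeGroup.of true) = Multiplicative.ofAdd (1 : ℤ) := by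
    simp [psi]
  have h4 : (psi (v * gc ^ j).1).toAdd = (psi v.1).toAdd + j := by
    rw [Prod.fst_mul, h1, map_mul, map_zpow, h3, toAdd_mul, toAdd_zpow, toAdd_ofAdd]
    simp
  have h5 : (v * gc ^ j).2 = v.2 := by
    rw [Prod.snd_mul, h2, mul_one]
  unfold lam
  rw [h4, h5]
  push_cast
  ring

end Pool.Agent.Helper548.HB
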