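import Pool.Agent.Helper548.HB.Defs
import Pool.Agent.Helper548.HB.P_TG_dist
import Pool.Agent.Helper548.HB.P_pb_dist
import Pool.Agent.Helper548.HB.P_psi_line
import Pool.Agent.Helper548.HB.P_away_uniq
import Pool.Agent.Helper548.HB.P_m_excl

set_option autoImplicit false

/-! Hyperbolic spaces, Gromov boundaries, hierarchically hyperbolic spaces and groups, the
hierarchically hyperbolic boundary and its topology. -/

namespace Pool.Agent.Helper548.HB



theorem norm_pow_le' (x : H) (n : ℕ) : FreeGroup.norm (x ^ n) ≤ n * FreeGroup.norm x := by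
  induction n with
  | zero => simp
  | succ n ih =>
    rw [pow_succ]
    have := FreeGroup.norm_mul_le (x ^ n) x
    calc _ ≤ _ := this
      _ ≤ _ := by rw [Nat.succ_mul]; omega

theorem norm_zpow_le' (x : H) (j : ℤ) : FreeGroup.norm (x ^ j) ≤ j.natAbs * FreeGroup.norm x := by
  rcases Int.natAbs_eq j with h | h
  · rw [h, zpow_natCast, Int.natAbs_natCast]
    exact norm_pow_le' x _
  · rw [h, zpow_neg, zpow_natCast, FreeGroup.norm_inv_eq, Int.natAbs_neg, Int.natAbs_natCast]
    exact norm_pow_le' x _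

theorem m_leave {D : GData} {RG : Realz D.Γ D.G} {RT : Realz TG H} (t : ℝ) (p : MPt D RG RT)
    (y : D.Q) (hp : p.atv y) (u : V) : ∃ R ε : ℝ, 0 < ε ∧ ∀ q ∈ mnhd t p R ε,
      ∀ v, q.away y v → ∀ j : ℤ, |j| ≤ 6 → v ≠ u * gc ^ j := by
  cases p with
  | lim ω => exact hp.elim
  | arc z ξ r =>
    obtain rfl : z = y := hp
    refine ⟨FreeGroup.norm u.1 + 7, 1, one_pos, ?_⟩
    rintro q (⟨ξ', r', rfl, -, -⟩ | ⟨v', h1, h2, -⟩) v hv j hj
    · exact absurd hv (m_excl _ z v rfl)
    · rintro rfl
      obtain rfl := away_uniq q z _ _ hv h1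
      have h3 := pb_dist h2
      rw [RT.dist_ι, TG_dist, inv_one, one_mul] at h3
      have h4 : (u * gc ^ j).1 = u.1 * (FreeGroup.of true) ^ j := by
        simp [gc]
      rw [h4] at h3
      have h5 := FreeGroup.norm_mul_le u.1 ((FreeGroup.of true) ^ j)
      have h6 := norm_zpow_le' (FreeGroup.of true) j
      rw [FreeGroup.norm_of, mul_one] at h6
      have h7 : j.natAbs ≤ 6 := by
        rw [Int.abs_eq_natAbs] at hj
        exact_mod_cast hj
      have h8 : FreeGroup.norm (u.1 * (FreeGroup.of true) ^ j) ≤ FreeGroup.norm u.1 + 6 := by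
        omega
      have h9 : ((FreeGroup.norm (u.1 * (FreeGroup.of true) ^ j) : ℕ) : ℝ) ≤
          (FreeGroup.norm u.1 : ℝ) + 6 := by exact_mod_cast h8
      linarith
  | pole z b =>
    obtain rfl : z = y := hp
    refine ⟨|lam t u| + |t| * 6, 1, one_pos, ?_⟩
    rintro q (rfl | ⟨ξ', r', rfl, -⟩ | ⟨v', h1, h2, -⟩) v hv j hj
    · exact absurd hv (m_excl _ z v rfl)
    · exact absurd hv (m_excl _ z v rfl)
    · rintro rfl
      obtain rfl := away_uniq q z _ _ hv h1
      rw [psi_line] at h2
      have h3 : sgb b * (lam t u + t * j) ≤ |lam t u + t * j| := by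
        cases b
        · simp only [sgb, Bool.false_eq_true, if_false, neg_one_mul]
          exact neg_le_abs _
        · simp only [sgb, if_true, one_mul]
          exact le_abs_self _
      have h4 := abs_add_le (lam t u) (t * j)
      rw [abs_mul] at h4
      have h5 : |(j : ℝ)| ≤ 6 := by exact_mod_cast hj
      have h6 : |t| * |(j : ℝ)| ≤ |t| * 6 := mul_le_mul_of_nonneg_left h5 (abs_nonneg t)
      linarith

end Pool.Agent.Helper548.HB
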