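import Pool.Agent.Helper548.HB.Defs
import Pool.Agent.Helper548.HB.P_m_leave

set_option autoImplicit false

/-! Hyperbolic spaces, Gromov boundaries, hierarchically hyperbolic spaces and groups, the
hierarchically hyperbolic boundary and its topology. -/

namespace Pool.Agent.Helper548.HB



/-- points near a point at y are at y or away from y -/
theorem m_nat {D : GData} {RG : Realz D.Γ D.G} {RT : Realz TG H} (t : ℝ) (p : MPt D RG RT)
    (y x : D.Q) (hp : p.atv y) (hx : x ≠ y) : ∃ R ε : ℝ, 0 < ε ∧ ∀ q ∈ mnhd t p R ε,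
      ¬ q.atv x := by
  obtain ⟨R, ε, hε, h⟩ := m_leave t p y hp (D.cq y x)
  refine ⟨R, ε, hε, fun q hq hqx => ?_⟩
  have haw : q.away y (D.cq y x) := by
    cases q with
    | lim ω => exact hqx.elim
    | arc z ξ r =>
      have hz : z = x := hqx
      subst hz
      exact ⟨hx, rfl⟩
    | pole z b =>
      have hz : z = x := hqx
      subst hz
      exact ⟨hx, rfl⟩
  refine h q hq _ haw 0 (by simp) ?_
  rw [zpow_zero, mul_one]

end Pool.Agent.Helper548.HB
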