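import Pool.Agent.Helper548.HB.Defs
import Pool.Agent.Helper548.HB.P_m_cases
import Pool.Agent.Helper548.HB.P_m_excl
import Pool.Agent.Helper548.HB.P_l_near
import Pool.Agent.Helper548.HB.P_m_behr
import Pool.Agent.Helper548.HB.P_m_leave
import Pool.Agent.Helper548.HB.P_m_nat

set_option autoImplicit false

/-! Hyperbolic spaces, Gromov boundaries, hierarchically hyperbolic spaces and groups, the
hierarchically hyperbolic boundary and its topology. -/

namespace Pool.Agent.Helper548.HB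



theorem m_loc_at {D : GData} {RG : Realz D.Γ D.G} {RT : Realz TG H} (t : ℝ) (q : MPt D RG RT)
    (x z : D.Q) (v : V) (hq : q.atv z) (hz : z ≠ x) (hv : D.cq x z = v) :
    ∃ R ε : ℝ, 0 < ε ∧ ∀ q' ∈ mnhd t q R ε, ∃ j : ℤ, |j| ≤ 6 ∧ q'.away x (v * gc ^ j) := by
  obtain ⟨R₁, ε₁, h1, h1'⟩ := m_leave t q z hq (D.cq z x)
  obtain ⟨R₂, ε₂, h2, h2'⟩ := m_nat t q z x hq hz.symm
  refine ⟨max R₁ R₂, min ε₁ ε₂, lt_min h1 h2, fun q' hq' => ?_⟩
  have hq1 := mnhd_mono t q (le_max_left R₁ R₂) (min_le_left ε₁ ε₂) hq'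
  have hq2 := mnhd_mono t q (le_max_right R₁ R₂) (min_le_right ε₁ ε₂) hq'
  rcases m_cases q' z with h3 | ⟨v', h3⟩
  · refine ⟨0, by simp, ?_⟩
    rw [zpow_zero, mul_one]
    cases q' with
    | lim ω => exact h3.elim
    | arc y ξ r =>
      have h4 : y = z := h3
      subst h4
      exact ⟨hz, hv⟩
    | pole y b =>
      have h4 : y = z := h3
      subst h4
      exact ⟨hz, hv⟩
  · rcases m_cases q' x with h4 | ⟨w, h4⟩
    · exact absurd h4 (h2' q' hq2)
    · rcases m_behr x z hz.symm q' v' w h3 h4 with ⟨j, hj, hw⟩ | ⟨j, hj, hw⟩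
      · refine ⟨j, hj, ?_⟩
        rw [← hv, ← hw]
        exact h4
      · exact absurd hw (h1' q' hq1 v' h3 j hj)

/-- the gate in x is locally constant up to powers of c -/
theorem m_loc {D : GData} {RG : Realz D.Γ D.G} {RT : Realz TG H} (t : ℝ) (q : MPt D RG RT)
    (x : D.Q) (v : V) (h : q.away x v) : ∃ R ε : ℝ, 0 < ε ∧ ∀ q' ∈ mnhd t q R ε,
      ∃ j : ℤ, |j| ≤ 6 ∧ q'.away x (v * gc ^ j) := by
  cases q with
  | lim ω =>
    obtain ⟨R, hR⟩ := l_near (RT := RT) ω x v h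
    refine ⟨R, 1, one_pos, fun q' hq' => ⟨0, by simp, ?_⟩⟩
    rw [zpow_zero, mul_one]
    exact hR q' hq'
  | arc z ξ r => exact m_loc_at t _ x z v rfl h.1 h.2
  | pole z b => exact m_loc_at t _ x z v rfl h.1 h.2

end Pool.Agent.Helper548.HB
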