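import Pool.Agent.Helper548.HB.Defs
import Pool.Agent.Helper548.HB.P_near_of_rep

set_option autoImplicit false

/-! Hyperbolic spaces, Gromov boundaries, hierarchically hyperbolic spaces and groups, the
hierarchically hyperbolic boundary and its topology. -/

namespace Pool.Agent.Helper548.HB



theorem near_trans {X : Type} [MetricSpace X] {δ : ℝ} (hδ : 0 ≤ δ) (hyp : HypC X δ)
    {o : X} {R : ℝ} {ξ ζ η : Boundary X}
    (h : Near o R ξ ζ) (h' : Near o R ζ η) : Near o (R - 5 * δ) ξ η := by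
  obtain ⟨u, w, hu, hw, N1, hN1⟩ := h
  obtain ⟨v, hv⟩ : ∃ v : GromovSeq X, v.lim = η := by
    obtain ⟨_, v, _, hv, _⟩ := h'
    exact ⟨v, hv⟩
  obtain ⟨N2, hN2⟩ := near_of_rep hδ hyp h' w v hw hv
  refine ⟨u, v, hu, hv, max N1 N2, fun m hm n hn => ?_⟩
  have h1 := hN1 m ((le_max_left _ _).trans hm) (max N1 N2) (le_max_left _ _)
  have h2 := hN2 (max N1 N2) (le_max_right _ _) n ((le_max_right _ _).trans hn)
  have h3 := hyp o (u.seq m) (v.seq n) (w.seq (max N1 N2))
  have h4 : R - 2 * δ ≤ min (gprod o (u.seq m) (w.seq (max N1 N2)))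
      (gprod o (w.seq (max N1 N2)) (v.seq n)) := le_min (by linarith) h2
  linarith

end Pool.Agent.Helper548.HB
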