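import Pool.Agent.Helper548.HB.Defs
import Pool.Agent.Helper548.HB.P_TG_dist
import Pool.Agent.Helper548.HB.P_pb_near
import Pool.Agent.Helper548.HB.P_near_trans
import Pool.Agent.Helper548.HB.P_near_symm
import Pool.Agent.Helper548.HB.P_pb_dist
import Pool.Agent.Helper548.HB.P_pb_close
import Pool.Agent.Helper548.HB.P_hyp_RT
import Pool.Agent.Helper548.HB.P_psi_line
import Pool.Agent.Helper548.HB.P_m_loc

set_option autoImplicit false

/-! Hyperbolic spaces, Gromov boundaries, hierarchically hyperbolic spaces and groups, the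
hierarchically hyperbolic boundary and its topology. -/

namespace Pool.Agent.Helper548.HB



theorem w082_pow (g : H) (n : ℕ) : FreeGroup.norm (g ^ n) ≤ n * FreeGroup.norm g := by
  induction n with
  | zero => simp
  | succ n ih =>
    rw [pow_succ]
    refine (FreeGroup.norm_mul_le _ _).trans ?_
    rw [Nat.add_mul, Nat.one_mul]
    exact Nat.add_le_add_right ih _

theorem w082_zpow (j : ℤ) (hj : |j| ≤ 6) : FreeGroup.norm ((FreeGroup.of true : H) ^ j) ≤ 6 := by
  have h1 : FreeGroup.norm ((FreeGroup.of true : H) ^ j) ≤ j.natAbs := by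
    rcases Int.natAbs_eq j with h | h
    · conv_lhs => rw [h]
      rw [zpow_natCast]
      refine (w082_pow _ _).trans ?_
      simp
    · conv_lhs => rw [h]
      rw [zpow_neg, zpow_natCast, FreeGroup.norm_inv_eq]
      refine (w082_pow _ _).trans ?_
      simp
  refine h1.trans ?_
  have := Int.natCast_natAbs j
  omega

theorem w082_fst (v : V) (j : ℤ) : (v * gc ^ j).1 = v.1 * (FreeGroup.of true : H) ^ j := by
  have h : (gc ^ j).1 = (FreeGroup.of true : H) ^ j := by
    exact map_zpow (MonoidHom.fst H (Multiplicative ℤ)) gc j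
  rw [Prod.fst_mul, h]

theorem w082_arith (r t ε L n n' j B R0 : ℝ) (hε : 0 < ε) (hB : B = 6 * (|r| + ε + |t|))
    (hj : |j| ≤ 6) (hn : R0 + 66 + 4 * B / ε ≤ n) (hR0 : 0 ≤ R0) (h1 : n' ≤ n + 6) (h2 : n ≤ n' + 6)
    (h : |L / n - r| < ε / 4) : |(L + t * j) / n' - r| < ε := by
  have hB0 : 0 < B := by
    rw [hB]
    positivity
  have hq : 0 < 4 * B / ε := by positivity
  have hn0 : 0 < n := by linarith
  have hn' : 0 < n' := by linarith
  have hL : |L| ≤ (|r| + ε) * n := by
    have e : L = (L / n) * n := by field_simp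
    rw [e, abs_mul, abs_of_pos hn0]
    apply mul_le_mul_of_nonneg_right _ hn0.le
    have := abs_sub_abs_le_abs_sub (L / n) r
    linarith
  have key : |(L + t * j) / n' - L / n| ≤ B / n' := by
    have e : (L + t * j) / n' - L / n = (L * (n - n') + t * j * n) / (n' * n) := by
      field_simp
      ring
    rw [e, abs_div, abs_of_pos (mul_pos hn' hn0), div_le_div_iff₀ (mul_pos hn' hn0) hn']
    have k1 : |L * (n - n') + t * j * n| ≤ (|r| + ε) * n * 6 + |t| * 6 * n := by
      refine (abs_add_le _ _).trans ?_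
      rw [abs_mul, abs_mul, abs_mul, abs_of_pos hn0]
      have k2 : |n - n'| ≤ 6 := by
        rw [abs_le]
        constructor <;> linarith
      have k3 : |L| * |n - n'| ≤ (|r| + ε) * n * 6 :=
        mul_le_mul hL k2 (abs_nonneg _) (by positivity)
      have k4 : |t| * |j| * n ≤ |t| * 6 * n :=
        mul_le_mul_of_nonneg_right (mul_le_mul_of_nonneg_left hj (abs_nonneg _)) hn0.le
      linarith
    have k5 : |L * (n - n') + t * j * n| ≤ B * n := by
      rw [hB]
      linarith
    calc |L * (n - n') + t * j * n| * n' ≤ B * n * n' := mul_le_mul_of_nonneg_right k5 hn'.le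
      _ = B * (n' * n) := by ring
  have key2 : B / n' < ε / 2 := by
    rw [div_lt_iff₀ hn']
    have : 4 * B / ε < n' := by linarith
    rw [div_lt_iff₀ hε] at this
    linarith
  have h3 : |(L + t * j) / n' - r| ≤ |(L + t * j) / n' - L / n| + |L / n - r| := by
    have e : (L + t * j) / n' - r = ((L + t * j) / n' - L / n) + (L / n - r) := by ring
    rw [e]
    exact abs_add_le _ _
  linarith

theorem m_nb_arc {D : GData} {RG : Realz D.Γ D.G} {RT : Realz TG H} (t : ℝ) (x : D.Q)
    (ξ : Boundary RT.X) (r : ℝ) (R ε : ℝ) (hε : 0 < ε) :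
    ∃ R' ε' : ℝ, 0 < ε' ∧ ∀ q ∈ mnhd t (MPt.arc x ξ r : MPt D RG RT) R' ε',
      ∃ R'' ε'' : ℝ, 0 < ε'' ∧ mnhd t q R'' ε'' ⊆ mnhd t (MPt.arc x ξ r : MPt D RG RT) R ε := by
  have hB0 : 0 < 6 * (|r| + ε + |t|) := by positivity
  have hq0 : 0 < 4 * (6 * (|r| + ε + |t|)) / ε := by positivity
  have hRa := le_abs_self R
  have hRn := abs_nonneg R
  refine ⟨|R| + 66 + 4 * (6 * (|r| + ε + |t|)) / ε, ε / 4, by positivity, ?_⟩
  set R' := |R| + 66 + 4 * (6 * (|r| + ε + |t|)) / ε with hR'
  have hRR : R + 60 ≤ R' := by linarith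
  rintro q (⟨ξ', r', rfl, h2, h3⟩ | ⟨v, h1, h2, h3⟩)
  · refine ⟨R', ε / 4, by positivity, ?_⟩
    rintro q' (⟨ξ'', r'', rfl, h5, h6⟩ | ⟨v, h4, h5, h6⟩)
    · refine Or.inl ⟨ξ'', r'', rfl,
        (near_trans (by norm_num) (hyp_RT RT) h2 h5).mono (by linarith), ?_⟩
      have e : r'' - r = (r'' - r') + (r' - r) := by ring
      rw [e]
      have := abs_add_le (r'' - r') (r' - r)
      linarith
    · refine Or.inr ⟨v, h4,
        (pb_near (by norm_num) (hyp_RT RT) h5 (near_symm h2)).mono (by linarith), ?_⟩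
      have e : lam t v / (FreeGroup.norm v.1 : ℝ) - r =
        (lam t v / (FreeGroup.norm v.1 : ℝ) - r') + (r' - r) := by ring
      rw [e]
      have := abs_add_le (lam t v / (FreeGroup.norm v.1 : ℝ) - r') (r' - r)
      linarith
  · obtain ⟨R'', ε'', hε'', hloc⟩ := m_loc t q x v h1
    refine ⟨R'', ε'', hε'', fun q' hq' => ?_⟩
    obtain ⟨j, hj, hj2⟩ := hloc q' hq'
    have hz := w082_zpow j hj
    have hfst := w082_fst v j
    have n1 : FreeGroup.norm (v * gc ^ j).1 ≤ FreeGroup.norm v.1 + 6 := by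
      rw [hfst]
      exact (FreeGroup.norm_mul_le _ _).trans (Nat.add_le_add_left hz _)
    have n2 : FreeGroup.norm v.1 ≤ FreeGroup.norm (v * gc ^ j).1 + 6 := by
      have e : v.1 = (v * gc ^ j).1 * ((FreeGroup.of true : H) ^ j)⁻¹ := by
        rw [hfst, mul_inv_cancel_right]
      calc FreeGroup.norm v.1 = FreeGroup.norm ((v * gc ^ j).1 * ((FreeGroup.of true : H) ^ j)⁻¹) := by
            rw [← e]
        _ ≤ FreeGroup.norm (v * gc ^ j).1 + FreeGroup.norm ((FreeGroup.of true : H) ^ j)⁻¹ :=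
            FreeGroup.norm_mul_le _ _
        _ ≤ FreeGroup.norm (v * gc ^ j).1 + 6 := by
            rw [FreeGroup.norm_inv_eq]
            exact Nat.add_le_add_left hz _
    have n1' : (FreeGroup.norm (v * gc ^ j).1 : ℝ) ≤ (FreeGroup.norm v.1 : ℝ) + 6 := by
      exact_mod_cast n1
    have n2' : (FreeGroup.norm v.1 : ℝ) ≤ (FreeGroup.norm (v * gc ^ j).1 : ℝ) + 6 := by
      exact_mod_cast n2
    have hd : dist (RT.ι v.1) (RT.ι (v * gc ^ j).1) ≤ 6 := by
      rw [RT.dist_ι, TG_dist, hfst, inv_mul_cancel_left]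
      exact_mod_cast hz
    have hnR : R' ≤ (FreeGroup.norm v.1 : ℝ) := by
      have h5 := pb_dist h2
      rw [RT.dist_ι, TG_dist, inv_one, one_mul] at h5
      exact h5
    refine Or.inr ⟨v * gc ^ j, hj2, (pb_close h2).mono (by linarith), ?_⟩
    rw [psi_line]
    have hj6 : |(j : ℝ)| ≤ 6 := by
      have : ((|j| : ℤ) : ℝ) ≤ ((6 : ℤ) : ℝ) := by exact_mod_cast hj
      rw [Int.cast_abs] at this
      exact_mod_cast this
    exact w082_arith r t ε (lam t v) (FreeGroup.norm v.1) (FreeGroup.norm (v * gc ^ j).1) j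
      (6 * (|r| + ε + |t|)) |R| hε rfl hj6 hnR hRn n1' n2' h3

end Pool.Agent.Helper548.HB
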