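import Pool.Agent.Helper548.HB.Defs

set_option autoImplicit false

/-! Hyperbolic spaces, Gromov boundaries, hierarchically hyperbolic spaces and groups, the
hierarchically hyperbolic boundary and its topology. -/

namespace Pool.Agent.Helper548.HB



theorem nop_gprod_comm {X : Type} [MetricSpace X] (o x y : X) : gprod o x y = gprod o y x := by
  simp only [gprod, dist_comm x y]; ring

theorem near_of_pb {X : Type} [MetricSpace X] {δ : ℝ} (hyp : HypC X δ)
    {o : X} {R : ℝ} {x : X} {ζ η : Boundary X}
    (h : PB o R x ζ) (h' : PB o R x η) : Near o (R - δ) ζ η := by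
  obtain ⟨u, hu, N, hN⟩ := h
  obtain ⟨v, hv, M, hM⟩ := h'
  refine ⟨u, v, hu, hv, max N M, fun m hm n hn => ?_⟩
  have h1 := hN m (le_of_max_le_left hm)
  have h2 := hM n (le_of_max_le_right hn)
  have h3 := hyp o (u.seq m) (v.seq n) x
  rw [nop_gprod_comm o (u.seq m) x] at h3
  have h4 : R ≤ min (gprod o x (u.seq m)) (gprod o x (v.seq n)) := le_min h1 h2
  linarith

end Pool.Agent.Helper548.HB
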