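import Pool.Agent.Helper548.HB.Defs

set_option autoImplicit false

/-! Hyperbolic spaces, Gromov boundaries, hierarchically hyperbolic spaces and groups, the
hierarchically hyperbolic boundary and its topology. -/

namespace Pool.Agent.Helper548.HB



theorem pb_move {X : Type} [MetricSpace X] {δ : ℝ} (hyp : HypC X δ)
    {o : X} {R : ℝ} {x y : X} {ζ : Boundary X}
    (h : PB o R x ζ) (h' : R ≤ gprod o x y) : PB o (R - δ) y ζ := by
  obtain ⟨u, hu, N, hN⟩ := h
  refine ⟨u, hu, N, fun n hn => ?_⟩
  have h1 := hyp o y (u.seq n) x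
  have h2 : gprod o y x = gprod o x y := by
    unfold gprod
    rw [dist_comm y x]
    ring
  rw [h2] at h1
  have h3 : R ≤ min (gprod o x y) (gprod o x (u.seq n)) := le_min h' (hN n hn)
  linarith

end Pool.Agent.Helper548.HB
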