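import Pool.Agent.Helper548.HB.Defs
import Pool.Agent.Helper548.HB.P_connected
import Pool.Agent.Helper548.HB.P_walk_geo
import Pool.Agent.Helper548.HB.P_near_of_pb
import Pool.Agent.Helper548.HB.P_pb_move
import Pool.Agent.Helper548.HB.P_pb_near
import Pool.Agent.Helper548.HB.P_near_trans
import Pool.Agent.Helper548.HB.P_near_symm
import Pool.Agent.Helper548.HB.P_pb_dist
import Pool.Agent.Helper548.HB.P_pb_vert
import Pool.Agent.Helper548.HB.P_hyp_RG
import Pool.Agent.Helper548.HB.P_m_cases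
import Pool.Agent.Helper548.HB.P_m_leave
import Pool.Agent.Helper548.HB.P_m_nat

set_option autoImplicit false

/-! Hyperbolic spaces, Gromov boundaries, hierarchically hyperbolic spaces and groups, the
hierarchically hyperbolic boundary and its topology. -/

namespace Pool.Agent.Helper548.HB



theorem nbl_between (D : GData) (x y z : D.Q)
    (h : ∀ j : ℤ, |j| ≤ 4 → D.cq y z ≠ D.cq y x * gc ^ j) :
    D.Γ.dist x y + D.Γ.dist y z = D.Γ.dist x z := by
  classical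
  have hc := connected D
  obtain ⟨w, hw⟩ := hc.exists_walk_length_eq_dist x z
  have hy : y ∈ w.support := by
    by_contra hcon
    obtain ⟨j, hj, he⟩ := walk_geo D y x z w hw hcon
    exact h j hj he
  have h1 : D.Γ.dist x y ≤ (w.takeUntil y hy).length := SimpleGraph.dist_le _
  have h2 : D.Γ.dist y z ≤ (w.dropUntil y hy).length := SimpleGraph.dist_le _
  have h3 : (w.takeUntil y hy).length + (w.dropUntil y hy).length = w.length := by
    have := congrArg SimpleGraph.Walk.length (w.take_spec hy)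
    rwa [SimpleGraph.Walk.length_append] at this
  have h4 : D.Γ.dist x z ≤ D.Γ.dist x y + D.Γ.dist y z := hc.dist_triangle
  omega

theorem nbl_move {D : GData} {RG : Realz D.Γ D.G} (ω : Boundary RG.X) (R' : ℝ) (y z : D.Q)
    (hy : PB (RG.ι ((1 : D.G) : D.Q)) R' (RG.ι y) ω)
    (h : ∀ j : ℤ, |j| ≤ 4 → D.cq y z ≠ D.cq y ((1 : D.G) : D.Q) * gc ^ j) :
    PB (RG.ι ((1 : D.G) : D.Q)) (R' - 10) (RG.ι z) ω := by
  have h1 := nbl_between D ((1 : D.G) : D.Q) y z h
  have h2 := pb_dist hy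
  refine pb_move (hyp_RG D RG) hy ?_
  unfold gprod
  rw [RG.dist_ι, RG.dist_ι, RG.dist_ι]
  rw [RG.dist_ι] at h2
  have e1 : D.Γ.dist y ((1 : D.G) : D.Q) = D.Γ.dist ((1 : D.G) : D.Q) y := SimpleGraph.dist_comm
  have e2 : D.Γ.dist z ((1 : D.G) : D.Q) = D.Γ.dist ((1 : D.G) : D.Q) z := SimpleGraph.dist_comm
  rw [e1, e2]
  have h3 : (D.Γ.dist ((1 : D.G) : D.Q) y : ℝ) + D.Γ.dist y z = D.Γ.dist ((1 : D.G) : D.Q) z := by
    exact_mod_cast h1
  linarith

theorem nbl_atv {D : GData} {RG : Realz D.Γ D.G} {RT : Realz TG H} (t : ℝ)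
    (ω : Boundary RG.X) (R R' : ℝ) (hR : R + 50 ≤ R') (q : MPt D RG RT) (y : D.Q)
    (hq : q.atv y) (hy : PB (RG.ι ((1 : D.G) : D.Q)) R' (RG.ι y) ω) :
    ∃ R'' ε'' : ℝ, 0 < ε'' ∧ ∀ q' ∈ mnhd t q R'' ε'', q'.nearlim ω R := by
  obtain ⟨R'', ε'', hε, hlv⟩ := m_leave t q y hq (D.cq y ((1 : D.G) : D.Q))
  refine ⟨R'', ε'', hε, ?_⟩
  intro q' hq'
  have hl := hlv q' hq'
  have fin : ∀ z : D.Q, (∀ j : ℤ, |j| ≤ 6 → D.cq y z ≠ D.cq y ((1 : D.G) : D.Q) * gc ^ j) →
      PB (RG.ι ((1 : D.G) : D.Q)) (R' - 10) (RG.ι z) ω := fun z hz =>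
    nbl_move ω R' y z hy (fun j hj => hz j (hj.trans (by norm_num)))
  rcases m_cases q' y with hat | ⟨v, haw⟩
  · cases q' with
    | lim ω' => exact hat.elim
    | arc z ξ r =>
      have hz : z = y := hat
      subst hz
      exact hy.mono (by linarith)
    | pole z b =>
      have hz : z = y := hat
      subst hz
      exact hy.mono (by linarith)
  · have hv := hl v haw
    cases q' with
    | lim ω' =>
      obtain ⟨R1, hR1⟩ := haw
      obtain ⟨z, hz⟩ := pb_vert RG (RG.ι ((1 : D.G) : D.Q)) ω' (max R1 R')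
      obtain ⟨hzy, hcq⟩ := hR1 z (hz.mono (le_max_left _ _))
      have h1 := fin z (fun j hj => by rw [hcq]; exact hv j hj)
      have h2 : PB (RG.ι ((1 : D.G) : D.Q)) (R' - 10) (RG.ι z) ω' :=
        hz.mono (by linarith [le_max_right R1 R'])
      exact (near_of_pb (hyp_RG D RG) h1 h2).mono (by linarith)
    | arc z ξ r =>
      obtain ⟨hzy, hcq⟩ := haw
      exact (fin z (fun j hj => by rw [hcq]; exact hv j hj)).mono (by linarith)
    | pole z b =>
      obtain ⟨hzy, hcq⟩ := haw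
      exact (fin z (fun j hj => by rw [hcq]; exact hv j hj)).mono (by linarith)

theorem m_nb_lim {D : GData} {RG : Realz D.Γ D.G} {RT : Realz TG H} (t : ℝ)
    (ω : Boundary RG.X) (R ε : ℝ) (hε : 0 < ε) :
    ∃ R' ε' : ℝ, 0 < ε' ∧ ∀ q ∈ mnhd t (MPt.lim ω : MPt D RG RT) R' ε',
      ∃ R'' ε'' : ℝ, 0 < ε'' ∧ mnhd t q R'' ε'' ⊆ mnhd t (MPt.lim ω : MPt D RG RT) R ε := by
  refine ⟨R + 50, 1, one_pos, ?_⟩
  intro q hq
  cases q with
  | lim ω' =>
    have hq' : Near (RG.ι ((1 : D.G) : D.Q)) (R + 50) ω ω' := hq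
    refine ⟨R + 50, 1, one_pos, ?_⟩
    intro p hp
    cases p with
    | lim ω'' =>
      have hp' : Near (RG.ι ((1 : D.G) : D.Q)) (R + 50) ω' ω'' := hp
      exact (near_trans (by norm_num : (0:ℝ) ≤ 10) (hyp_RG D RG) hq' hp').mono (by linarith)
    | arc y ξ r =>
      have hp' : PB (RG.ι ((1 : D.G) : D.Q)) (R + 50) (RG.ι y) ω' := hp
      exact (pb_near (by norm_num : (0:ℝ) ≤ 10) (hyp_RG D RG) hp' (near_symm hq')).mono (by linarith)
    | pole y b =>
      have hp' : PB (RG.ι ((1 : D.G) : D.Q)) (R + 50) (RG.ι y) ω' := hp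
      exact (pb_near (by norm_num : (0:ℝ) ≤ 10) (hyp_RG D RG) hp' (near_symm hq')).mono (by linarith)
  | arc y ξ r =>
    have hy : PB (RG.ι ((1 : D.G) : D.Q)) (R + 50) (RG.ι y) ω := hq
    exact nbl_atv t ω R (R + 50) le_rfl _ y rfl hy
  | pole y b =>
    have hy : PB (RG.ι ((1 : D.G) : D.Q)) (R + 50) (RG.ι y) ω := hq
    exact nbl_atv t ω R (R + 50) le_rfl _ y rfl hy

end Pool.Agent.Helper548.HB
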