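import Pool.Agent.Helper548.HB.Defs
import Pool.Agent.Helper548.HB.P_TG_dist
import Pool.Agent.Helper548.HB.P_pb_dist
import Pool.Agent.Helper548.HB.P_hyp_RT
import Pool.Agent.Helper548.HB.P_psi_line
import Pool.Agent.Helper548.HB.P_m_loc

set_option autoImplicit false

/-! Hyperbolic spaces, Gromov boundaries, hierarchically hyperbolic spaces and groups, the
hierarchically hyperbolic boundary and its topology. -/

namespace Pool.Agent.Helper548.HB



theorem nbp_zpow (j : ℤ) : FreeGroup.norm ((FreeGroup.of true : H) ^ j) ≤ j.natAbs := by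
  have hn : ∀ n : ℕ, FreeGroup.norm ((FreeGroup.of true : H) ^ n) ≤ n := by
    intro n
    induction n with
    | zero => simp
    | succ n ih =>
      rw [pow_succ]
      refine (FreeGroup.norm_mul_le _ _).trans ?_
      rw [FreeGroup.norm_of]
      omega
  rcases Int.natAbs_eq j with h | h
  · have h1 : (FreeGroup.of true : H) ^ j = (FreeGroup.of true : H) ^ j.natAbs := by
      conv_lhs => rw [h]
      rw [zpow_natCast]
    rw [h1]
    exact hn _
  · have h1 : (FreeGroup.of true : H) ^ j = ((FreeGroup.of true : H) ^ j.natAbs)⁻¹ := by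
      conv_lhs => rw [h]
      rw [zpow_neg, zpow_natCast]
    rw [h1, FreeGroup.norm_inv_eq]
    exact hn _

theorem nbp_norm (v : V) (j : ℤ) (hj : |j| ≤ 6) :
    (FreeGroup.norm (v * gc ^ j).1 : ℝ) ≤ FreeGroup.norm v.1 + 6 := by
  have h1 : (v * gc ^ j).1 = v.1 * (FreeGroup.of true : H) ^ j := rfl
  rw [h1]
  have h2 := FreeGroup.norm_mul_le v.1 ((FreeGroup.of true : H) ^ j)
  have h3 := nbp_zpow j
  have h4 : j.natAbs ≤ 6 := by
    rw [abs_le] at hj
    omega
  have h5 : FreeGroup.norm (v.1 * (FreeGroup.of true : H) ^ j) ≤ FreeGroup.norm v.1 + 6 := by omega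
  exact_mod_cast h5

theorem nbp_dist (RT : Realz TG H) (h : H) : dist (RT.ι 1) (RT.ι h) = FreeGroup.norm h := by
  rw [RT.dist_ι, TG_dist, inv_one, one_mul]

theorem m_nb_pole {D : GData} {RG : Realz D.Γ D.G} {RT : Realz TG H} (t : ℝ) (x : D.Q)
    (b : Bool) (R ε : ℝ) (hε : 0 < ε) :
    ∃ R' ε' : ℝ, 0 < ε' ∧ ∀ q ∈ mnhd t (MPt.pole x b : MPt D RG RT) R' ε',
      ∃ R'' ε'' : ℝ, 0 < ε'' ∧ mnhd t q R'' ε'' ⊆ mnhd t (MPt.pole x b : MPt D RG RT) R ε := by
  have hs : sgb b = 1 ∨ sgb b = -1 := by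
    cases b
    · right; rfl
    · left; rfl
  have hsabs : ∀ y : ℝ, sgb b * y ≤ |y| := by
    intro y
    rcases hs with h | h <;> rw [h]
    · rw [one_mul]; exact le_abs_self y
    · rw [neg_one_mul]; exact neg_le_abs y
  have hslow : ∀ y z : ℝ, sgb b * y - |z| ≤ sgb b * (y + z) := by
    intro y z
    rcases hs with h | h <;> rw [h]
    · have := neg_abs_le z
      linarith
    · have := le_abs_self z
      linarith
  have hR0 := le_abs_self R
  have hRn := abs_nonneg R
  have ht0 := abs_nonneg t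
  have hε12 : 0 < 12 / ε := by positivity
  refine ⟨|R| + 12 / ε + 12 * |t| + 1, ε / 2, by positivity, ?_⟩
  rintro q (rfl | ⟨ξ, r, rfl, hr⟩ | ⟨v, hv, hl, hn⟩)
  · exact ⟨R, ε, hε, subset_rfl⟩
  · refine ⟨1, 1, one_pos, ?_⟩
    rintro q' (⟨ξ', r', rfl, -, h⟩ | ⟨v, hv, hPB, h⟩)
    · refine Or.inr (Or.inl ⟨ξ', r', rfl, ?_⟩)
      have h1 := hslow r (r' - r)
      rw [add_sub_cancel] at h1
      linarith
    · refine Or.inr (Or.inr ⟨v, hv, ?_⟩)
      have hN : (1 : ℝ) ≤ FreeGroup.norm v.1 := by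
        have := pb_dist hPB
        rwa [nbp_dist] at this
      set N : ℝ := (FreeGroup.norm v.1 : ℝ) with hNdef
      have hN0 : 0 < N := by linarith
      have h1 := hslow r (lam t v / N - r)
      rw [add_sub_cancel] at h1
      have h2 : |R| + 12 / ε ≤ sgb b * (lam t v / N) := by linarith
      have h3 : sgb b * (lam t v / N) * N = sgb b * lam t v := by
        field_simp
      have h4 : (|R| + 12 / ε) * N ≤ sgb b * lam t v := by
        rw [← h3]
        exact mul_le_mul_of_nonneg_right h2 hN0.le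
      have h5 : 12 / ε * N ≤ |lam t v| := by
        have := hsabs (lam t v)
        nlinarith
      constructor
      · nlinarith [mul_pos hε12 hN0]
      · have h6 : 12 * N ≤ ε * |lam t v| := by
          calc 12 * N = ε * (12 / ε * N) := by field_simp
            _ ≤ _ := mul_le_mul_of_nonneg_left h5 hε.le
        linarith
  · obtain ⟨R2, ε2, h0, hloc⟩ := m_loc t q x v hv
    refine ⟨R2, ε2, h0, fun q' hq' => ?_⟩
    obtain ⟨j, hj, hw⟩ := hloc q' hq'
    refine Or.inr (Or.inr ⟨v * gc ^ j, hw, ?_⟩)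
    rw [psi_line]
    have hj' : |(j : ℝ)| ≤ 6 := by exact_mod_cast hj
    have htj : |t * j| ≤ 6 * |t| := by
      rw [abs_mul]
      nlinarith [abs_nonneg t]
    have h1 := hslow (lam t v) (t * j)
    have h2 := hsabs (lam t v)
    have h3 : |lam t v| - 6 * |t| ≤ |lam t v + t * j| := by
      have := abs_sub_abs_le_abs_sub (lam t v) (-(t * j))
      rw [abs_neg, sub_neg_eq_add] at this
      linarith
    constructor
    · linarith
    · have h4 := nbp_norm v j hj
      have h5 : ε * (|lam t v| - 6 * |t|) ≤ ε * |lam t v + t * j| :=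
        mul_le_mul_of_nonneg_left h3 hε.le
      have h6 : 12 + 12 * (ε * |t|) ≤ ε * |lam t v| := by
        have h7 : 12 / ε + 12 * |t| ≤ |lam t v| := by linarith
        calc 12 + 12 * (ε * |t|) = ε * (12 / ε + 12 * |t|) := by field_simp
          _ ≤ _ := mul_le_mul_of_nonneg_left h7 hε.le
      nlinarith

end Pool.Agent.Helper548.HB
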