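import Pool.Agent.Helper548.HB.Defs

set_option autoImplicit false

/-! Hyperbolic spaces, Gromov boundaries, hierarchically hyperbolic spaces and groups, the
hierarchically hyperbolic boundary and its topology. -/

namespace Pool.Agent.Helper548.HB



theorem near_self {X : Type} [MetricSpace X] (o : X) (R : ℝ) (ξ : Boundary X) :
    Near o R ξ ξ := by
  obtain ⟨u, rfl⟩ := Quot.exists_rep ξ
  exact ⟨u, u, rfl, rfl, u.conv o R⟩

end Pool.Agent.Helper548.HB
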