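import Pool.Agent.Helper548.HB.Defs
import Pool.Agent.Helper548.HB.P_near_self

set_option autoImplicit false

/-! Hyperbolic spaces, Gromov boundaries, hierarchically hyperbolic spaces and groups, the
hierarchically hyperbolic boundary and its topology. -/

namespace Pool.Agent.Helper548.HB



theorem m_self {D : GData} {RG : Realz D.Γ D.G} {RT : Realz TG H} (t : ℝ) (p : MPt D RG RT)
    (R ε : ℝ) (hε : 0 < ε) : p ∈ mnhd t p R ε := by
  cases p with
  | lim ω => exact near_self _ R ω
  | arc x ξ r =>
    exact Or.inl ⟨ξ, r, rfl, near_self _ R ξ, by rw [sub_self, abs_zero]; exact hε⟩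
  | pole x b => exact Or.inl rfl

end Pool.Agent.Helper548.HB
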