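import Pool.Agent.Helper548.HB.Defs
import Pool.Agent.Helper548.HB.P_m_self
import Pool.Agent.Helper548.HB.P_m_nb_lim
import Pool.Agent.Helper548.HB.P_m_nb_arc
import Pool.Agent.Helper548.HB.P_m_nb_pole

set_option autoImplicit false

/-! Hyperbolic spaces, Gromov boundaries, hierarchically hyperbolic spaces and groups, the
hierarchically hyperbolic boundary and its topology. -/

namespace Pool.Agent.Helper548.HB



theorem m_basis_nb {D : GData} {RG : Realz D.Γ D.G} {RT : Realz TG H} (t : ℝ) (p : MPt D RG RT)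
    (R ε : ℝ) (hε : 0 < ε) :
    ∃ R' ε' : ℝ, 0 < ε' ∧ ∀ q ∈ mnhd t p R' ε',
      ∃ R'' ε'' : ℝ, 0 < ε'' ∧ mnhd t q R'' ε'' ⊆ mnhd t p R ε := by
  cases p with
  | lim ω => exact m_nb_lim t ω R ε hε
  | arc x ξ r => exact m_nb_arc t x ξ r R ε hε
  | pole x b => exact m_nb_pole t x b R ε hε

theorem m_basis {D : GData} {RG : Realz D.Γ D.G} {RT : Realz TG H} (t : ℝ) (p : MPt D RG RT) :
    (@nhds _ (mTop t D RG RT) p).HasBasis (fun i : ℝ × ℝ => 0 < i.2)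
      (fun i => mnhd t p i.1 i.2) := by
  letI : TopologicalSpace (MPt D RG RT) := mTop t D RG RT
  rw [Filter.hasBasis_iff]
  intro s
  rw [mem_nhds_iff]
  constructor
  · rintro ⟨U, hUs, hU, hpU⟩
    obtain ⟨R, ε, hε, h⟩ := hU p hpU
    exact ⟨(R, ε), hε, h.trans hUs⟩
  · rintro ⟨⟨R, ε⟩, hε, h⟩
    refine ⟨{q | ∃ R' ε' : ℝ, 0 < ε' ∧ mnhd t q R' ε' ⊆ mnhd t p R ε}, ?_, ?_, ?_⟩
    · rintro q ⟨R', ε', hε', hq⟩
      exact h (hq (m_self t q R' ε' hε'))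
    · rintro q ⟨R', ε', hε', hq⟩
      obtain ⟨R2, ε2, hε2, h2⟩ := m_basis_nb t q R' ε' hε'
      refine ⟨R2, ε2, hε2, ?_⟩
      intro q' hq'
      obtain ⟨R3, ε3, hε3, h3⟩ := h2 q' hq'
      exact ⟨R3, ε3, hε3, h3.trans hq⟩
    · exact ⟨R, ε, hε, Set.Subset.refl _⟩

end Pool.Agent.Helper548.HB
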