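import Pool.Agent.Helper548.HB.Defs
import Pool.Agent.Helper548.HB.P_co_spec
import Pool.Agent.Helper548.HB.P_adj_mk
import Pool.Agent.Helper548.HB.P_e_cend_ex
import Pool.Agent.Helper548.HB.P_e_norm
import Pool.Agent.Helper548.HB.P_psi_line
import Pool.Agent.Helper548.HB.P_m_basis

set_option autoImplicit false

/-! Hyperbolic spaces, Gromov boundaries, hierarchically hyperbolic spaces and groups, the
hierarchically hyperbolic boundary and its topology. -/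

namespace Pool.Agent.Helper548.HB



theorem b_c_real (a t C ε : ℝ) (hε : 0 < ε) : ∃ N : ℕ, ∀ j : ℕ, j ≥ N → ∀ n : ℝ, |n - (j:ℝ)| ≤ C →
    |(a + t * (j:ℝ)) / n - t| < ε := by
  obtain ⟨N, hN⟩ := exists_nat_ge (C + (|a| + |t| * C) / ε + 1)
  refine ⟨N, fun j hj n hn => ?_⟩
  have hC : 0 ≤ C := (abs_nonneg _).trans hn
  have hj' : (N:ℝ) ≤ j := by exact_mod_cast hj
  have h1 := (abs_le.1 hn).1
  have hq : 0 ≤ (|a| + |t| * C) / ε := by positivity
  have hn1 : (|a| + |t| * C) / ε + 1 ≤ n := by linarith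
  have hn0 : 0 < n := by linarith
  have e : (a + t * (j:ℝ)) / n - t = (a + t * ((j:ℝ) - n)) / n := by
    field_simp
    ring
  rw [e, abs_div, abs_of_pos hn0, div_lt_iff₀ hn0]
  have h2 : |a + t * ((j:ℝ) - n)| ≤ |a| + |t| * C := by
    refine (abs_add_le _ _).trans ?_
    rw [abs_mul]
    have h3 : |(j:ℝ) - n| ≤ C := by rw [abs_sub_comm]; exact hn
    have := mul_le_mul_of_nonneg_left h3 (abs_nonneg t)
    linarith
  have h4 : (|a| + |t| * C) / ε < n := by linarith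
  rw [div_lt_iff₀ hε] at h4
  linarith

/-- the vertices g c^j s V accumulate on the part at gV -/
theorem b_c (t : ℝ) (D : GData) (RG : Realz D.Γ D.G) (RT : Realz TG H) (g : D.G)
    (U : Set (MPt D RG RT)) (hU : @IsOpen _ (mTop t D RG RT) U)
    (h : {q : MPt D RG RT | q.atv (g : D.Q)} ⊆ U) : ∃ J : ℕ, ∀ j ≥ J,
      ∃ q ∈ U, q.atv ((g * D.ι gc ^ j * D.s : D.G) : D.Q) := by
  obtain ⟨x, hx⟩ : ∃ x : D.Q, (g : D.Q) = x := ⟨_, rfl⟩
  obtain ⟨u, hu⟩ : ∃ u : V, u = D.co x g := ⟨_, rfl⟩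
  have hco : x.out * D.ι u = g := by rw [hu]; exact co_spec D x g hx
  obtain ⟨ξ, hξ⟩ := e_cend_ex RT u.1 true
  have hp : (MPt.arc x ξ t : MPt D RG RT) ∈ U := by
    apply h
    show x = (g : D.Q)
    exact hx.symm
  obtain ⟨R, ε, hε, hsub⟩ := hU _ hp
  obtain ⟨N1, hN1⟩ := hξ R
  obtain ⟨C, hC⟩ := e_norm u.1
  obtain ⟨N2, hN2⟩ := b_c_real (lam t u) t C ε hε
  refine ⟨max N1 N2, fun j hj => ?_⟩
  have hj1 : j ≥ N1 := le_trans (le_max_left _ _) hj
  have hj2 : j ≥ N2 := le_trans (le_max_right _ _) hj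
  have hadj := adj_mk D x (u * gc ^ j)
  have hy : ((x.out * D.ι (u * gc ^ j) * D.s : D.G) : D.Q) = ((g * D.ι gc ^ j * D.s : D.G) : D.Q) := by
    rw [map_mul, map_pow, ← mul_assoc, hco]
  rw [hy] at hadj
  refine ⟨.pole ((g * D.ι gc ^ j * D.s : D.G) : D.Q) true, hsub ?_, rfl⟩
  right
  have hgc1 : (u * gc ^ j).1 = u.1 * FreeGroup.of true ^ (j:ℤ) := by
    rw [Prod.fst_mul, Prod.pow_fst, zpow_natCast]
    rfl
  refine ⟨u * gc ^ j, ⟨hadj.1.ne', hadj.2⟩, ?_, ?_⟩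
  · have := hN1 j hj1
    rw [hgc1]
    simpa using this
  · have hl : lam t (u * gc ^ j) = lam t u + t * (j:ℝ) := by
      have := psi_line t u (j:ℤ)
      rw [zpow_natCast] at this
      rw [this]
      push_cast
      rfl
    rw [hl, hgc1]
    apply hN2 j hj2
    have := hC (j:ℤ)
    rw [show abs (((j:ℤ)):ℝ) = (j:ℝ) by simp] at this
    exact this

end Pool.Agent.Helper548.HB
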