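import Pool.Agent.Helper548.HB.Defs
import Pool.Agent.Helper548.HB.P_co_spec
import Pool.Agent.Helper548.HB.P_adj_mk
import Pool.Agent.Helper548.HB.P_e_cend_ex
import Pool.Agent.Helper548.HB.P_e_norm
import Pool.Agent.Helper548.HB.P_psi_line
import Pool.Agent.Helper548.HB.P_m_basis

set_option autoImplicit false

/-! Hyperbolic spaces, Gromov boundaries, hierarchically hyperbolic spaces and groups, the
hierarchically hyperbolic boundary and its topology. -/

namespace Pool.Agent.Helper548.HB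



theorem csc_pow_aux (D : GData) (j : ℕ) :
    (D.ι gc * D.s * D.ι gc) ^ j = D.s * D.ι (gc ^ (-(j : ℤ))) * D.s := by
  have hs := D.s_mul_s
  have hsi : D.s⁻¹ = D.s := inv_eq_of_mul_eq_one_right hs
  have h1 : D.ι gc * D.s * D.ι gc = D.s * D.ι gc⁻¹ * D.s := by
    have h := congrArg (·⁻¹) D.scs
    simp only [mul_inv_rev, hsi, map_inv, inv_inv] at h
    rw [map_inv]
    rw [← mul_assoc, ← mul_assoc] at h
    exact h.symm
  rw [h1]
  induction j with
  | zero => simp [hs]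
  | succ n ih =>
    rw [pow_succ, ih]
    have e : (gc : V) ^ (-((n + 1 : ℕ) : ℤ)) = gc ^ (-(n : ℤ)) * gc⁻¹ := by
      push_cast
      rw [neg_add, zpow_add, zpow_neg_one]
    rw [e, map_mul]
    calc D.s * D.ι (gc ^ (-(n : ℤ))) * D.s * (D.s * D.ι gc⁻¹ * D.s)
        = D.s * D.ι (gc ^ (-(n : ℤ))) * (D.s * D.s) * D.ι gc⁻¹ * D.s := by
          simp only [mul_assoc]
      _ = D.s * (D.ι (gc ^ (-(n : ℤ))) * D.ι gc⁻¹) * D.s := by
          rw [hs]; simp only [mul_assoc, one_mul]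

/-- the vertices g (csc)^j V accumulate on the part at gsV -/
theorem b_csc (t : ℝ) (D : GData) (RG : Realz D.Γ D.G) (RT : Realz TG H) (g : D.G)
    (U : Set (MPt D RG RT)) (hU : @IsOpen _ (mTop t D RG RT) U)
    (h : {q : MPt D RG RT | q.atv ((g * D.s : D.G) : D.Q)} ⊆ U) : ∃ J : ℕ, ∀ j ≥ J,
      ∃ q ∈ U, q.atv ((g * (D.ι gc * D.s * D.ι gc) ^ j : D.G) : D.Q) := by
  set x : D.Q := ((g * D.s : D.G) : D.Q) with hx
  set v : V := D.co x (g * D.s) with hv
  have hco : x.out * D.ι v = g * D.s := co_spec D x (g * D.s) rfl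
  obtain ⟨ξ, hξ⟩ := e_cend_ex RT v.1 false
  have hp : (MPt.arc x ξ (-t) : MPt D RG RT) ∈ U := h rfl
  obtain ⟨R, ε, hε, hsub⟩ := hU _ hp
  obtain ⟨N, hN⟩ := hξ R
  obtain ⟨C, hC⟩ := e_norm v.1
  have hC0 : 0 ≤ C := (abs_nonneg _).trans (hC 0)
  obtain ⟨M, hM⟩ := exists_nat_gt (C + (|lam t v| + |t| * C) / ε)
  refine ⟨max N M, fun j hj => ?_⟩
  have hjN : N ≤ j := (le_max_left _ _).trans hj
  have hjM : M ≤ j := (le_max_right _ _).trans hj
  have hy : ((g * (D.ι gc * D.s * D.ι gc) ^ j : D.G) : D.Q) =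
      ((x.out * D.ι (v * gc ^ (-(j : ℤ))) * D.s : D.G) : D.Q) := by
    rw [csc_pow_aux, map_mul, ← mul_assoc x.out, hco]
    simp only [mul_assoc]
  obtain ⟨hadj, hcq⟩ := adj_mk D x (v * gc ^ (-(j : ℤ)))
  rw [hy]
  set y : D.Q := ((x.out * D.ι (v * gc ^ (-(j : ℤ))) * D.s : D.G) : D.Q) with hydef
  refine ⟨MPt.pole y true, hsub ?_, rfl⟩
  right
  refine ⟨v * gc ^ (-(j : ℤ)), ⟨fun e => ?_, hcq⟩, ?_, ?_⟩
  · rw [e] at hadj
    exact D.Γ.loopless.irrefl _ hadj
  · have := hN j hjN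
    simpa [gc] using this
  · rw [psi_line]
    have hn := hC (-(j : ℤ))
    have e1 : ((v * gc ^ (-(j : ℤ)) : V)).1 = v.1 * FreeGroup.of true ^ (-(j : ℤ)) := by
      simp [gc]
    rw [e1]
    set n : ℝ := (FreeGroup.norm (v.1 * FreeGroup.of true ^ (-(j : ℤ))) : ℝ) with hndef
    have hj' : |((-(j : ℤ) : ℤ) : ℝ)| = (j : ℝ) := by
      push_cast
      rw [abs_neg, abs_of_nonneg (Nat.cast_nonneg j)]
    rw [hj'] at hn
    obtain ⟨n1, n2⟩ := abs_le.1 hn
    have hMj : (M : ℝ) ≤ j := by exact_mod_cast hjM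
    have hK : 0 ≤ |lam t v| + |t| * C := by positivity
    have hnpos : (|lam t v| + |t| * C) / ε < n := by linarith
    have hn0 : 0 < n := lt_of_le_of_lt (by positivity) hnpos
    have e2 : (lam t v + t * ((-(j : ℤ) : ℤ) : ℝ)) / n - -t = (lam t v + t * (n - j)) / n := by
      push_cast
      field_simp
      ring
    rw [e2, abs_div, abs_of_pos hn0, div_lt_iff₀ hn0]
    have h3 : |lam t v + t * (n - j)| ≤ |lam t v| + |t| * C := by
      refine (abs_add_le _ _).trans ?_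
      rw [abs_mul]
      have := mul_le_mul_of_nonneg_left hn (abs_nonneg t)
      linarith
    have h4 : |lam t v| + |t| * C < ε * n := by
      rw [div_lt_iff₀ hε] at hnpos
      linarith
    linarith

end Pool.Agent.Helper548.HB
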