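import Pool.Agent.Helper548.HB.Defs

set_option autoImplicit false

/-! Hyperbolic spaces, Gromov boundaries, hierarchically hyperbolic spaces and groups, the
hierarchically hyperbolic boundary and its topology. -/

namespace Pool.Agent.Helper548.HB



theorem r_csc_mk (D : GData) (g : D.G) :
    ((g * (D.ι gc * D.s * D.ι gc) : D.G) : D.Q) = ((g * D.ι gc * D.s : D.G) : D.Q) ∧
    ((g * (D.ι gc * D.s * D.ι gc) * D.s : D.G) : D.Q) = ((g * D.s : D.G) : D.Q) := by
  constructor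
  · have h1 : g * (D.ι gc * D.s * D.ι gc) = (g * D.ι gc * D.s) * D.ι gc := by
      simp only [mul_assoc]
    rw [h1]
    exact QuotientGroup.mk_mul_of_mem _ ⟨gc, rfl⟩
  · have h1 : g * (D.ι gc * D.s * D.ι gc) * D.s = (g * D.s) * D.ι gc⁻¹ := by
      calc g * (D.ι gc * D.s * D.ι gc) * D.s = g * D.ι gc * (D.s * D.ι gc * D.s) := by
            simp only [mul_assoc]
        _ = g * D.ι gc * (D.ι gc⁻¹ * D.s * D.ι gc⁻¹) := by rw [D.scs]
        _ = g * (D.ι gc * D.ι gc⁻¹) * D.s * D.ι gc⁻¹ := by simp only [mul_assoc]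
        _ = (g * D.s) * D.ι gc⁻¹ := by rw [← map_mul, mul_inv_cancel, map_one, mul_one]
    rw [h1]
    exact QuotientGroup.mk_mul_of_mem _ ⟨gc⁻¹, rfl⟩

end Pool.Agent.Helper548.HB
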