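import Pool.Agent.Helper548.HB.Defs
import Pool.Agent.Helper548.HB.P_cut_right

set_option autoImplicit false

/-! Hyperbolic spaces, Gromov boundaries, hierarchically hyperbolic spaces and groups, the
hierarchically hyperbolic boundary and its topology. -/

namespace Pool.Agent.Helper548.HB



/-- membership in RR can be tested with any representative -/
theorem r_cut (D : GData) (g k : D.G) (h : (k : D.Q) ≠ (g : D.Q)) :
    (k : D.Q) ∈ RR D g ↔ ∃ j : ℤ, 1 ≤ j ∧ D.cut (g⁻¹ * k) = gc ^ j := by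
  obtain ⟨⟨_, v, rfl⟩, hn⟩ := QuotientGroup.mk_out_eq_mul D.ι.range k
  have hnot : g⁻¹ * k ∉ D.ι.range := by
    intro hmem
    exact h (QuotientGroup.eq.2 hmem).symm
  have hcut : D.cut (g⁻¹ * ((k : D.Q).out)) = D.cut (g⁻¹ * k) := by
    rw [hn]
    have : g⁻¹ * (k * D.ι v) = g⁻¹ * k * D.ι v := by rw [mul_assoc]
    show D.cut (g⁻¹ * (k * D.ι v)) = _
    rw [this]
    exact cut_right D v _ hnot
  constructor
  · rintro ⟨_, j, hj, hj2⟩
    exact ⟨j, hj, by rw [← hcut]; exact hj2⟩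
  · rintro ⟨j, hj, hj2⟩
    exact ⟨h, j, hj, by rw [hcut]; exact hj2⟩

end Pool.Agent.Helper548.HB
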