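import Pool.Agent.Helper548.HB.Defs
import Pool.Agent.Helper548.HB.P_cut_not_mem
import Pool.Agent.Helper548.HB.P_cut_left
import Pool.Agent.Helper548.HB.P_r_cut

set_option autoImplicit false

/-! Hyperbolic spaces, Gromov boundaries, hierarchically hyperbolic spaces and groups, the
hierarchically hyperbolic boundary and its topology. -/

namespace Pool.Agent.Helper548.HB



theorem r_mem (D : GData) (g : D.G) : ((g * D.ι gc * D.s : D.G) : D.Q) ∈ RR D g := by
  have hne : ((g * D.ι gc * D.s : D.G) : D.Q) ≠ (g : D.Q) := by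
    intro h
    have h1 := QuotientGroup.eq.1 h
    apply D.s_not_mem
    have h2 : (D.s : D.G) = ((g * D.ι gc * D.s)⁻¹ * g * D.ι gc)⁻¹ := by
      simp only [mul_inv_rev, mul_assoc, inv_inv, inv_mul_cancel_left, inv_mul_cancel, mul_one]
    rw [h2]
    exact D.ι.range.inv_mem (D.ι.range.mul_mem h1 ⟨gc, rfl⟩)
  rw [r_cut D g (g * D.ι gc * D.s) hne]
  refine ⟨1, le_refl _, ?_⟩
  have h3 : g⁻¹ * (g * D.ι gc * D.s) = D.ι gc * D.s := by
    simp only [mul_assoc, inv_mul_cancel_left]
  rw [h3, cut_left, cut_not_mem D D.s D.s_not_mem, D.head_s, mul_one, zpow_one]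

end Pool.Agent.Helper548.HB
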