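import Pool.Agent.Helper548.HB.Defs
import Pool.Agent.Helper548.HB.P_cut_not_mem
import Pool.Agent.Helper548.HB.P_r_cut

set_option autoImplicit false

/-! Hyperbolic spaces, Gromov boundaries, hierarchically hyperbolic spaces and groups, the
hierarchically hyperbolic boundary and its topology. -/

namespace Pool.Agent.Helper548.HB



theorem r_out (D : GData) (g : D.G) : (g : D.Q) ∉ RR D g ∧ ((g * D.s : D.G) : D.Q) ∉ RR D g := by
  refine ⟨fun h => h.1 rfl, fun h => ?_⟩
  have hne := h.1
  rw [r_cut D g (g * D.s) hne] at h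
  obtain ⟨j, hj, h1⟩ := h
  rw [inv_mul_cancel_left, cut_not_mem D D.s D.s_not_mem, D.head_s] at h1
  have h2 := congrArg (fun v : V => psi ((MonoidHom.fst H (Multiplicative ℤ)) v)) h1
  simp only [map_one, map_zpow] at h2
  have h3 : psi ((MonoidHom.fst H (Multiplicative ℤ)) gc) = Multiplicative.ofAdd 1 := by
    simp [psi, gc]
  rw [h3] at h2
  have h4 := congrArg Multiplicative.toAdd h2
  simp at h4
  omega

end Pool.Agent.Helper548.HB
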