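import Pool.Agent.Helper548.HB.Defs
import Pool.Agent.Helper548.HB.P_cut_left
import Pool.Agent.Helper548.HB.P_r_cut

set_option autoImplicit false

/-! Hyperbolic spaces, Gromov boundaries, hierarchically hyperbolic spaces and groups, the
hierarchically hyperbolic boundary and its topology. -/

namespace Pool.Agent.Helper548.HB



theorem r_c (D : GData) (g : D.G) : RR D (g * D.ι gc) ⊆ RR D g := by
  rintro x ⟨hx, j, hj, hcut⟩
  have hq : ((g * D.ι gc : D.G) : D.Q) = (g : D.Q) := by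
    rw [QuotientGroup.eq]
    refine ⟨gc⁻¹, ?_⟩
    rw [map_inv]
    group
  rw [hq] at hx
  refine ⟨hx, j + 1, by omega, ?_⟩
  have h1 : (g * D.ι gc)⁻¹ * x.out = D.ι gc⁻¹ * (g⁻¹ * x.out) := by
    rw [map_inv]
    group
  rw [h1, cut_left] at hcut
  have h2 : D.cut (g⁻¹ * x.out) = gc * (gc⁻¹ * D.cut (g⁻¹ * x.out)) := by group
  rw [h2, hcut, add_comm, zpow_add, zpow_one]

end Pool.Agent.Helper548.HB
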