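import Pool.Agent.Helper548.HB.Defs
import Pool.Agent.Helper548.HB.P_cut_iota
import Pool.Agent.Helper548.HB.P_cut_not_mem
import Pool.Agent.Helper548.HB.P_cut_left
import Pool.Agent.Helper548.HB.P_r_cut

set_option autoImplicit false

/-! Hyperbolic spaces, Gromov boundaries, hierarchically hyperbolic spaces and groups, the
hierarchically hyperbolic boundary and its topology. -/

namespace Pool.Agent.Helper548.HB



theorem r_csc_inj (i j : ℤ) (h : gc ^ i = gc ^ j) : i = j := by
  have key : ∀ n : ℤ, psi (gc ^ n).1 = Multiplicative.ofAdd n := by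
    intro n
    have e1 : (gc ^ n).1 = (FreeGroup.of true : H) ^ n := rfl
    have e2 : psi (FreeGroup.of true) = Multiplicative.ofAdd (1 : ℤ) := by
      simp [psi]
    rw [e1, map_zpow, e2, ← ofAdd_zsmul]
    simp
  have h1 : psi (gc ^ i).1 = psi (gc ^ j).1 := by rw [h]
  rw [key, key] at h1
  exact Multiplicative.ofAdd.injective h1

theorem r_csc (D : GData) (g : D.G) : RR D (g * (D.ι gc * D.s * D.ι gc)) ⊆ RR D g := by
  intro x
  obtain ⟨k, rfl⟩ := QuotientGroup.mk_surjective x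
  intro hx
  set G' : D.G := g * (D.ι gc * D.s * D.ι gc) with hG'
  have hne : (k : D.Q) ≠ (G' : D.Q) := hx.1
  rw [r_cut D G' k hne] at hx
  obtain ⟨j, hj, hcut⟩ := hx
  set k' : D.G := G'⁻¹ * k with hk'
  have hk'V : k' ∉ D.ι.range := fun hmem => hne (QuotientGroup.eq.2 hmem).symm
  have hck'V : D.ι gc * k' ∉ D.ι.range := by
    intro hmem
    apply hk'V
    have h1 : k' = (D.ι gc)⁻¹ * (D.ι gc * k') := by group
    rw [h1]
    exact mul_mem (inv_mem ⟨gc, rfl⟩) hmem
  have hhead : D.head (D.ι gc * k') = gc ^ (j + 1) := by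
    rw [D.head_left gc k' hk'V, ← cut_not_mem D k' hk'V, hcut, zpow_add, zpow_one]
    exact (Commute.refl gc).zpow_right j
  have hs1 : D.head (D.s * (D.ι gc * k')) = 1 := by
    refine D.head_s_mul _ hck'V (fun i hi h => ?_)
    rw [hhead] at h
    have := r_csc_inj _ _ h
    omega
  have hsV : D.s * (D.ι gc * k') ∉ D.ι.range := by
    rintro ⟨v, hv⟩
    have h1 : D.ι gc * k' = D.s * D.ι v := by
      rw [hv, ← mul_assoc D.s D.s, D.s_mul_s, one_mul]
    rw [h1, D.head_right v D.s D.s_not_mem, D.head_s] at hhead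
    have h2 : gc ^ (0 : ℤ) = gc ^ (j + 1) := by rw [zpow_zero]; exact hhead
    have := r_csc_inj _ _ h2
    omega
  have hg : g⁻¹ * k = D.ι gc * (D.s * (D.ι gc * k')) := by
    rw [hk', hG']
    group
  have hgV : g⁻¹ * k ∉ D.ι.range := by
    intro hmem
    apply hsV
    rw [hg] at hmem
    have h1 : D.s * (D.ι gc * k') = (D.ι gc)⁻¹ * (D.ι gc * (D.s * (D.ι gc * k'))) := by group
    rw [h1]
    exact mul_mem (inv_mem ⟨gc, rfl⟩) hmem
  have hne' : (k : D.Q) ≠ (g : D.Q) := fun h => hgV (QuotientGroup.eq.1 h.symm)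
  refine (r_cut D g k hne').2 ⟨1, le_rfl, ?_⟩
  rw [hg, cut_left, cut_not_mem D _ hsV, hs1, mul_one, zpow_one]

end Pool.Agent.Helper548.HB
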