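import Pool.Agent.Helper548.HB.Defs
import Pool.Agent.Helper548.HB.P_r_mem
import Pool.Agent.Helper548.HB.P_r_c
import Pool.Agent.Helper548.HB.P_r_csc
import Pool.Agent.Helper548.HB.P_r_csc_mk

set_option autoImplicit false

/-! Hyperbolic spaces, Gromov boundaries, hierarchically hyperbolic spaces and groups, the
hierarchically hyperbolic boundary and its topology. -/

namespace Pool.Agent.Helper548.HB



/-- all the later edges of a descending sequence lie in the closed half -/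
theorem r_seq (D : GData) (f : ℕ → D.G)
    (hf : ∀ k, f (k + 1) = f k * D.ι gc ∨ f (k + 1) = f k * (D.ι gc * D.s * D.ι gc)) (k n : ℕ) :
    (((f (k + n)) : D.Q) ∈ RR D (f k) ∨ ((f (k + n)) : D.Q) = (f k : D.Q) ∨
      ((f (k + n)) : D.Q) = ((f k * D.s : D.G) : D.Q)) ∧
    (((f (k + n) * D.s : D.G) : D.Q) ∈ RR D (f k) ∨
      ((f (k + n) * D.s : D.G) : D.Q) = (f k : D.Q) ∨
      ((f (k + n) * D.s : D.G) : D.Q) = ((f k * D.s : D.G) : D.Q)) ∧
    RR D (f (k + n)) ⊆ RR D (f k) := by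
  have step : ∀ k,
      (((f (k + 1)) : D.Q) ∈ RR D (f k) ∨ ((f (k + 1)) : D.Q) = (f k : D.Q) ∨
        ((f (k + 1)) : D.Q) = ((f k * D.s : D.G) : D.Q)) ∧
      (((f (k + 1) * D.s : D.G) : D.Q) ∈ RR D (f k) ∨
        ((f (k + 1) * D.s : D.G) : D.Q) = (f k : D.Q) ∨
        ((f (k + 1) * D.s : D.G) : D.Q) = ((f k * D.s : D.G) : D.Q)) ∧
      RR D (f (k + 1)) ⊆ RR D (f k) := by
    intro k
    rcases hf k with h | h
    · rw [h]
      refine ⟨Or.inr (Or.inl ?_), Or.inl (r_mem D (f k)), r_c D (f k)⟩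
      refine (QuotientGroup.eq.2 ?_).symm
      rw [inv_mul_cancel_left]
      exact ⟨gc, rfl⟩
    · rw [h]
      obtain ⟨h1, h2⟩ := r_csc_mk D (f k)
      refine ⟨Or.inl ?_, Or.inr (Or.inr h2), r_csc D (f k)⟩
      rw [h1]
      exact r_mem D (f k)
  induction n generalizing k with
  | zero => exact ⟨Or.inr (Or.inl rfl), Or.inr (Or.inr rfl), le_rfl⟩
  | succ n ih =>
    obtain ⟨s1, s2, s3⟩ := step k
    obtain ⟨i1, i2, i3⟩ := ih (k + 1)
    have e : k + (n + 1) = k + 1 + n := by omega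
    rw [e]
    refine ⟨?_, ?_, i3.trans s3⟩
    · rcases i1 with h | h | h
      · exact Or.inl (s3 h)
      · rw [h]
        exact s1
      · rw [h]
        exact s2
    · rcases i2 with h | h | h
      · exact Or.inl (s3 h)
      · rw [h]
        exact s1
      · rw [h]
        exact s2

end Pool.Agent.Helper548.HB
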