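import Pool.Agent.Helper548.HB.Defs
import Pool.Agent.Helper548.HB.P_cut_step
import Pool.Agent.Helper548.HB.P_r_cut

set_option autoImplicit false

/-! Hyperbolic spaces, Gromov boundaries, hierarchically hyperbolic spaces and groups, the
hierarchically hyperbolic boundary and its topology. -/

namespace Pool.Agent.Helper548.HB



theorem r_sep (D : GData) (g : D.G) (z z' : D.Q) (h : D.Γ.Adj z z') (h1 : z ≠ (g : D.Q))
    (h2 : z ≠ ((g * D.s : D.G) : D.Q)) (h3 : z' ≠ (g : D.Q)) (h4 : z' ≠ ((g * D.s : D.G) : D.Q)) :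
    z ∈ RR D g ↔ z' ∈ RR D g := by
  obtain ⟨k, rfl, rfl⟩ := h
  rw [r_cut D g k h1, r_cut D g (k * D.s) h3]
  have key : ∀ (m : D.G) (v : V), g⁻¹ * m = D.ι 1 * D.s * D.ι v →
      (m : D.Q) = ((g * D.s : D.G) : D.Q) := by
    intro m v hm
    have hm' : m = g * D.s * D.ι v := by
      rw [map_one, one_mul] at hm
      rw [mul_assoc, ← hm, mul_inv_cancel_left]
    rw [hm']
    refine (QuotientGroup.eq.2 ?_).symm
    rw [inv_mul_cancel_left]
    exact ⟨v, rfl⟩
  have hms : g⁻¹ * (k * D.s) = g⁻¹ * k * D.s := (mul_assoc _ _ _).symm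
  rcases cut_step D (g⁻¹ * k) with hc | ⟨hc, v, hv⟩ | ⟨hc, v, hv⟩
  · rw [hms, hc]
  · rw [hms, hc]
    constructor
    · rintro ⟨j, hj, hjc⟩
      exact ⟨j + 1, by omega, by rw [hjc, zpow_add_one]⟩
    · rintro ⟨j, hj, hjc⟩
      have h5 : D.cut (g⁻¹ * k) = gc ^ (j - 1) := by
        rw [zpow_sub_one, ← hjc, mul_inv_cancel_right]
      refine ⟨j - 1, ?_, h5⟩
      by_contra hlt
      have hj1 : j - 1 = 0 := by omega
      rw [hj1, zpow_zero] at h5
      rw [h5] at hv
      exact h2 (key k v hv)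
  · rw [hms, hc]
    constructor
    · rintro ⟨j, hj, hjc⟩
      have h5 : D.cut (g⁻¹ * k * D.s) = gc ^ (j - 1) := by
        rw [zpow_sub_one, ← hjc, mul_inv_cancel_right]
      refine ⟨j - 1, ?_, h5⟩
      by_contra hlt
      have hj1 : j - 1 = 0 := by omega
      rw [hj1, zpow_zero] at h5
      rw [h5] at hv
      exact h4 (key (k * D.s) v (by rw [hms]; exact hv))
    · rintro ⟨j, hj, hjc⟩
      exact ⟨j + 1, by omega, by rw [hjc, zpow_add_one]⟩

end Pool.Agent.Helper548.HB
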