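import Pool.Agent.Helper548.HB.Defs
import Pool.Agent.Helper548.HB.P_r_sep

set_option autoImplicit false

/-! Hyperbolic spaces, Gromov boundaries, hierarchically hyperbolic spaces and groups, the
hierarchically hyperbolic boundary and its topology. -/

namespace Pool.Agent.Helper548.HB



/-- a walk from outside the half to the half meets the edge -/
theorem r_walk (D : GData) (g : D.G) (x z : D.Q) (hx : x ∉ RR D g) (hz : z ∈ RR D g)
    (w : D.Γ.Walk x z) : (g : D.Q) ∈ w.support ∨ ((g * D.s : D.G) : D.Q) ∈ w.support := by
  induction w with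
  | nil => exact absurd hz hx
  | @cons u v w' hadj p ih =>
    by_cases hv : v ∈ RR D g
    · by_contra hcon
      push Not at hcon
      obtain ⟨h1, h2⟩ := hcon
      have hu : u ∈ (SimpleGraph.Walk.cons hadj p).support := by simp
      have hvm : v ∈ (SimpleGraph.Walk.cons hadj p).support := by
        rw [SimpleGraph.Walk.support_cons]
        exact List.mem_cons_of_mem _ p.start_mem_support
      have e1 : u ≠ (g : D.Q) := fun e => h1 (e ▸ hu)
      have e2 : u ≠ ((g * D.s : D.G) : D.Q) := fun e => h2 (e ▸ hu)
      have e3 : v ≠ (g : D.Q) := fun e => h1 (e ▸ hvm)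
      have e4 : v ≠ ((g * D.s : D.G) : D.Q) := fun e => h2 (e ▸ hvm)
      exact hx ((r_sep D g u v hadj e1 e2 e3 e4).2 hv)
    · rcases ih hv hz with h | h
      · left
        rw [SimpleGraph.Walk.support_cons]
        exact List.mem_cons_of_mem _ h
      · right
        rw [SimpleGraph.Walk.support_cons]
        exact List.mem_cons_of_mem _ h

end Pool.Agent.Helper548.HB
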