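import Pool.Agent.Helper548.HB.Defs
import Pool.Agent.Helper548.HB.P_connected
import Pool.Agent.Helper548.HB.P_r_mem
import Pool.Agent.Helper548.HB.P_r_out
import Pool.Agent.Helper548.HB.P_r_csc_mk
import Pool.Agent.Helper548.HB.P_r_seq
import Pool.Agent.Helper548.HB.P_r_walk

set_option autoImplicit false

/-! Hyperbolic spaces, Gromov boundaries, hierarchically hyperbolic spaces and groups, the
hierarchically hyperbolic boundary and its topology. -/

namespace Pool.Agent.Helper548.HB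



/-- if both moves occur infinitely often the edges go to infinity -/
theorem r_far (D : GData) (f : ℕ → D.G) (x : D.Q) (hx : x ∉ RR D (f 0))
    (hf : ∀ k, f (k + 1) = f k * D.ι gc ∨ f (k + 1) = f k * (D.ι gc * D.s * D.ι gc))
    (h1 : ∀ N, ∃ k ≥ N, f (k + 1) = f k * D.ι gc)
    (h2 : ∀ N, ∃ k ≥ N, f (k + 1) = f k * (D.ι gc * D.s * D.ι gc)) (N : ℕ) :
    ∃ K : ℕ, ∀ k ≥ K, N ≤ D.Γ.dist x (f k : D.Q) ∧ N ≤ D.Γ.dist x ((f k * D.s : D.G) : D.Q) := by
  have hsub : ∀ k n, k ≤ n → RR D (f n) ⊆ RR D (f k) := by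
    intro k n hkn
    obtain ⟨m, rfl⟩ := Nat.exists_eq_add_of_le hkn
    exact (r_seq D f hf k m).2.2
  have hP : ∀ n, ((f (n + 1) : D.G) : D.Q) = (f n : D.Q) ∨ ((f (n + 1) : D.G) : D.Q) ∈ RR D (f n) := by
    intro n
    rcases hf n with h | h
    · left
      rw [h]
      refine (QuotientGroup.eq.2 ?_).symm
      rw [inv_mul_cancel_left]
      exact ⟨gc, rfl⟩
    · right
      rw [h, (r_csc_mk D (f n)).1]
      exact r_mem D (f n)
  have hQ : ∀ n, ((f (n + 1) * D.s : D.G) : D.Q) = ((f n * D.s : D.G) : D.Q) ∨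
      ((f (n + 1) * D.s : D.G) : D.Q) ∈ RR D (f n) := by
    intro n
    rcases hf n with h | h
    · right
      rw [h]
      exact r_mem D (f n)
    · left
      rw [h, (r_csc_mk D (f n)).2]
  have hPs : ∀ k j, k ≤ j → ((f j : D.G) : D.Q) ∈ RR D (f k) → ∀ n, j ≤ n →
      ((f n : D.G) : D.Q) ∈ RR D (f k) := by
    intro k j hkj hj n hn
    induction n, hn using Nat.le_induction with
    | base => exact hj
    | succ n hn ih =>
      rcases hP n with h | h
      · rw [h]; exact ih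
      · exact hsub k n (hkj.trans hn) h
  have hQs : ∀ k j, k ≤ j → ((f j * D.s : D.G) : D.Q) ∈ RR D (f k) → ∀ n, j ≤ n →
      ((f n * D.s : D.G) : D.Q) ∈ RR D (f k) := by
    intro k j hkj hj n hn
    induction n, hn using Nat.le_induction with
    | base => exact hj
    | succ n hn ih =>
      rcases hQ n with h | h
      · rw [h]; exact ih
      · exact hsub k n (hkj.trans hn) h
  have claim : ∀ k, ∃ m, ∀ n, m ≤ n → ((f n : D.G) : D.Q) ∈ RR D (f k) ∧
      ((f n * D.s : D.G) : D.Q) ∈ RR D (f k) := by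
    intro k
    obtain ⟨k1, hk1, e1⟩ := h1 k
    obtain ⟨k2, hk2, e2⟩ := h2 k
    have m1 : ((f (k1 + 1) * D.s : D.G) : D.Q) ∈ RR D (f k) := by
      rw [e1]
      exact hsub k k1 hk1 (r_mem D (f k1))
    have m2 : ((f (k2 + 1) : D.G) : D.Q) ∈ RR D (f k) := by
      rw [e2, (r_csc_mk D (f k2)).1]
      exact hsub k k2 hk2 (r_mem D (f k2))
    refine ⟨max (k1 + 1) (k2 + 1), fun n hn => ⟨?_, ?_⟩⟩
    · exact hPs k (k2 + 1) (by omega) m2 n ((le_max_right _ _).trans hn)
    · exact hQs k (k1 + 1) (by omega) m1 n ((le_max_left _ _).trans hn)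
  have hstep : ∀ k N, N ≤ D.Γ.dist x (f k : D.Q) → N ≤ D.Γ.dist x ((f k * D.s : D.G) : D.Q) →
      ∀ z ∈ RR D (f k), N + 1 ≤ D.Γ.dist x z := by
    intro k N hN1 hN2 z hz
    have hxk : x ∉ RR D (f k) := fun h => hx (hsub 0 k (Nat.zero_le k) h)
    obtain ⟨w, hw⟩ := (connected D).exists_walk_length_eq_dist x z
    have key : ∀ v : D.Q, N ≤ D.Γ.dist x v → v ∉ RR D (f k) → v ∈ w.support → N + 1 ≤ D.Γ.dist x z := by
      intro v hv hvR hvs
      obtain ⟨q, r, hqr⟩ := SimpleGraph.Walk.mem_support_iff_exists_append.1 hvs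
      have h3 : w.length = q.length + r.length := by rw [hqr, SimpleGraph.Walk.length_append]
      have h4 : D.Γ.dist x v ≤ q.length := SimpleGraph.dist_le q
      have h5 : r.length ≠ 0 := by
        intro h
        have h6 := SimpleGraph.Walk.eq_of_length_eq_zero h
        rw [h6] at hvR
        exact hvR hz
      omega
    obtain ⟨o1, o2⟩ := r_out D (f k)
    rcases r_walk D (f k) x z hxk hz w with h | h
    · exact key _ hN1 o1 h
    · exact key _ hN2 o2 h
  induction N with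
  | zero => exact ⟨0, fun k _ => ⟨Nat.zero_le _, Nat.zero_le _⟩⟩
  | succ N ih =>
    obtain ⟨K, hK⟩ := ih
    obtain ⟨m, hm⟩ := claim K
    refine ⟨m, fun n hn => ?_⟩
    obtain ⟨a1, a2⟩ := hK K le_rfl
    obtain ⟨b1, b2⟩ := hm n hn
    exact ⟨hstep K N a1 a2 _ b1, hstep K N a1 a2 _ b2⟩

end Pool.Agent.Helper548.HB
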