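import Pool.Agent.Helper548.HB.Defs
import Pool.Agent.Helper548.HB.P_connected
import Pool.Agent.Helper548.HB.P_r_seq
import Pool.Agent.Helper548.HB.P_r_walk
import Pool.Agent.Helper548.HB.P_r_far

set_option autoImplicit false

/-! Hyperbolic spaces, Gromov boundaries, hierarchically hyperbolic spaces and groups, the
hierarchically hyperbolic boundary and its topology. -/

namespace Pool.Agent.Helper548.HB



theorem r_gprod_aux (D : GData) (g : D.G) (x z : D.Q) (hx : x ∉ RR D g)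
    (hz : z ∈ RR D g ∨ z = (g : D.Q) ∨ z = ((g * D.s : D.G) : D.Q)) :
    ∃ e : D.Q, (e = (g : D.Q) ∨ e = ((g * D.s : D.G) : D.Q)) ∧
      D.Γ.dist x e + D.Γ.dist e z ≤ D.Γ.dist x z := by
  rcases hz with hz | hz | hz
  · obtain ⟨w, hw⟩ := (connected D).exists_walk_length_eq_dist x z
    have hkey : ∀ e : D.Q, e ∈ w.support → D.Γ.dist x e + D.Γ.dist e z ≤ D.Γ.dist x z := by
      classical
      intro e he
      have h1 := SimpleGraph.dist_le (w.takeUntil e he)
      have h2 := SimpleGraph.dist_le (w.dropUntil e he)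
      have h3 : (w.takeUntil e he).length + (w.dropUntil e he).length = w.length := by
        rw [← SimpleGraph.Walk.length_append, w.take_spec he]
      omega
    rcases r_walk D g x z hx hz w with h | h
    · exact ⟨_, Or.inl rfl, hkey _ h⟩
    · exact ⟨_, Or.inr rfl, hkey _ h⟩
  · exact ⟨z, Or.inl hz, by simp⟩
  · exact ⟨z, Or.inr hz, by simp⟩

/-- Gromov products in a descending sequence -/
theorem r_gprod (D : GData) (f : ℕ → D.G) (x : D.Q) (hx : x ∉ RR D (f 0))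
    (hf : ∀ k, f (k + 1) = f k * D.ι gc ∨ f (k + 1) = f k * (D.ι gc * D.s * D.ι gc))
    (h1 : ∀ N, ∃ k ≥ N, f (k + 1) = f k * D.ι gc)
    (h2 : ∀ N, ∃ k ≥ N, f (k + 1) = f k * (D.ι gc * D.s * D.ι gc)) (R : ℝ) :
    ∃ K : ℕ, ∀ k ≥ K, ∀ l ≥ K, ∀ z z' : D.Q, (z = (f k : D.Q) ∨ z = ((f k * D.s : D.G) : D.Q)) →
      (z' = (f l : D.Q) ∨ z' = ((f l * D.s : D.G) : D.Q)) →
      R ≤ ((D.Γ.dist z x : ℝ) + D.Γ.dist z' x - D.Γ.dist z z') / 2 := by
  obtain ⟨N, hN⟩ := exists_nat_ge (R + 2)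
  obtain ⟨K, hK⟩ := r_far D f x hx hf h1 h2 N
  have hxK : x ∉ RR D (f K) := by
    intro h
    have h3 := (r_seq D f hf 0 K).2.2
    rw [Nat.zero_add] at h3
    exact hx (h3 h)
  have hin : ∀ k ≥ K, ∀ z : D.Q, (z = (f k : D.Q) ∨ z = ((f k * D.s : D.G) : D.Q)) →
      z ∈ RR D (f K) ∨ z = (f K : D.Q) ∨ z = ((f K * D.s : D.G) : D.Q) := by
    intro k hk z hz
    obtain ⟨n, rfl⟩ := Nat.exists_eq_add_of_le hk
    obtain ⟨a1, a2, _⟩ := r_seq D f hf K n
    rcases hz with hz | hz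
    · rw [hz]; exact a1
    · rw [hz]; exact a2
  have hfar : ∀ e : D.Q, (e = (f K : D.Q) ∨ e = ((f K * D.s : D.G) : D.Q)) → N ≤ D.Γ.dist x e := by
    intro e he
    rcases he with he | he
    · rw [he]; exact (hK K le_rfl).1
    · rw [he]; exact (hK K le_rfl).2
  have hadj : D.Γ.Adj (f K : D.Q) ((f K * D.s : D.G) : D.Q) := ⟨f K, rfl, rfl⟩
  have hedge : ∀ e e' : D.Q, (e = (f K : D.Q) ∨ e = ((f K * D.s : D.G) : D.Q)) →
      (e' = (f K : D.Q) ∨ e' = ((f K * D.s : D.G) : D.Q)) → D.Γ.dist e e' ≤ 1 := by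
    intro e e' he he'
    rcases he with he | he <;> rcases he' with he' | he'
    · rw [he, he', SimpleGraph.dist_self]; exact Nat.zero_le _
    · rw [he, he', SimpleGraph.dist_eq_one_iff_adj.mpr hadj]
    · rw [he, he', SimpleGraph.dist_eq_one_iff_adj.mpr hadj.symm]
    · rw [he, he', SimpleGraph.dist_self]; exact Nat.zero_le _
  refine ⟨K, fun k hk l hl z z' hz hz' => ?_⟩
  obtain ⟨e, he, hez⟩ := r_gprod_aux D (f K) x z hxK (hin k hk z hz)
  obtain ⟨e', he', hez'⟩ := r_gprod_aux D (f K) x z' hxK (hin l hl z' hz')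
  have t1 := (connected D).dist_triangle (u := z) (v := e) (w := z')
  have t2 := (connected D).dist_triangle (u := e) (v := e') (w := z')
  have t3 := hedge e e' he he'
  have t4 := hfar e he
  have t5 := hfar e' he'
  have s1 : D.Γ.dist z e = D.Γ.dist e z := SimpleGraph.dist_comm
  have s2 : D.Γ.dist z x = D.Γ.dist x z := SimpleGraph.dist_comm
  have s3 : D.Γ.dist z' x = D.Γ.dist x z' := SimpleGraph.dist_comm
  have hfin : 2 * N + D.Γ.dist z z' ≤ D.Γ.dist z x + D.Γ.dist z' x + 1 := by omega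
  have hfin' : (2 * N + D.Γ.dist z z' : ℝ) ≤ D.Γ.dist z x + D.Γ.dist z' x + 1 := by
    exact_mod_cast hfin
  linarith

end Pool.Agent.Helper548.HB
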