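import Pool.Agent.Helper548.HB.Defs
import Pool.Agent.Helper548.HB.P_pb_move
import Pool.Agent.Helper548.HB.P_pb_base
import Pool.Agent.Helper548.HB.P_seq_vert
import Pool.Agent.Helper548.HB.P_hyp_RG
import Pool.Agent.Helper548.HB.P_l_away_ex
import Pool.Agent.Helper548.HB.P_m_basis
import Pool.Agent.Helper548.HB.P_r_gprod

set_option autoImplicit false

/-! Hyperbolic spaces, Gromov boundaries, hierarchically hyperbolic spaces and groups, the
hierarchically hyperbolic boundary and its topology. -/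

namespace Pool.Agent.Helper548.HB



/-- the edges of a descending sequence with both moves infinitely often converge -/
theorem b_lim (t : ℝ) (D : GData) (RG : Realz D.Γ D.G) (RT : Realz TG H) (f : ℕ → D.G)
    (x : D.Q) (hx : x ∉ RR D (f 0)) (v : V)
    (hv : ∀ k, (f k : D.Q) ≠ x ∧ ∃ j : ℤ, D.cq x (f k : D.Q) = v * gc ^ j)
    (hf : ∀ k, f (k + 1) = f k * D.ι gc ∨ f (k + 1) = f k * (D.ι gc * D.s * D.ι gc))
    (h1 : ∀ N, ∃ k ≥ N, f (k + 1) = f k * D.ι gc)
    (h2 : ∀ N, ∃ k ≥ N, f (k + 1) = f k * (D.ι gc * D.s * D.ι gc)) :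
    ∃ ω : Boundary RG.X, (MPt.lim ω : MPt D RG RT) ∈ BB x v ∧
      ∀ O : Set (MPt D RG RT), @IsOpen _ (mTop t D RG RT) O → MPt.lim ω ∈ O →
      ∃ K : ℕ, ∀ k ≥ K, {q : MPt D RG RT | q.atv (f k : D.Q)} ⊆ O ∧
        {q : MPt D RG RT | q.atv ((f k * D.s : D.G) : D.Q)} ⊆ O := by
  set o : RG.X := RG.ι x with ho
  set o1 : RG.X := RG.ι ((1 : D.G) : D.Q) with ho1
  have hg : ∀ z z' : D.Q, gprod o (RG.ι z) (RG.ι z') =
      ((D.Γ.dist z x : ℝ) + D.Γ.dist z' x - D.Γ.dist z z') / 2 := by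
    intro z z'
    unfold gprod
    rw [ho, RG.dist_ι, RG.dist_ι, RG.dist_ι]
  have hr := r_gprod D f x hx hf h1 h2
  obtain ⟨ω, hω⟩ := seq_vert o (fun k => RG.ι (f k : D.Q)) (by
    intro R
    obtain ⟨K, hK⟩ := hr R
    refine ⟨K, fun m hm n hn => ?_⟩
    rw [hg]
    exact hK m hm n hn _ _ (Or.inl rfl) (Or.inl rfl))
  have hyp := hyp_RG D RG
  -- both families of vertices converge to ω
  have hA : ∀ R : ℝ, ∃ N : ℕ, ∀ n ≥ N, PB o1 R (RG.ι (f n : D.Q)) ω ∧
      PB o1 R (RG.ι ((f n * D.s : D.G) : D.Q)) ω := by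
    intro R
    obtain ⟨N1, hN1⟩ := hω (R + dist o o1 + 10)
    obtain ⟨N2, hN2⟩ := hr (R + dist o o1 + 10)
    refine ⟨max N1 N2, fun n hn => ?_⟩
    have a1 := hN1 n ((le_max_left _ _).trans hn)
    have a2 := hN2 n ((le_max_right _ _).trans hn) n ((le_max_right _ _).trans hn)
      (f n : D.Q) ((f n * D.s : D.G) : D.Q) (Or.inl rfl) (Or.inr rfl)
    rw [← hg] at a2
    have a3 := pb_move hyp a1 a2
    constructor
    · exact (pb_base (o' := o1) a1).mono (by linarith)
    · exact (pb_base (o' := o1) a3).mono (by linarith)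
  refine ⟨ω, ?_, ?_⟩
  · obtain ⟨w, R, hR⟩ := l_away_ex D RG RT x ω
    obtain ⟨N, hN⟩ := hA R
    obtain ⟨_, h4⟩ := hR _ (hN N le_rfl).1
    obtain ⟨_, j, hj⟩ := hv N
    refine ⟨j, R, fun y hy => ?_⟩
    obtain ⟨h5, h6⟩ := hR y hy
    exact ⟨h5, by rw [h6, ← h4, hj]⟩
  · intro O hO hω'
    obtain ⟨R, ε, hε, hsub⟩ := hO _ hω'
    obtain ⟨K, hK⟩ := hA R
    refine ⟨K, fun k hk => ⟨?_, ?_⟩⟩
    · intro q hq
      apply hsub
      cases q with
      | lim ω' => exact absurd hq (by intro h; exact h)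
      | arc y ξ r =>
        have hy : y = (f k : D.Q) := hq
        subst hy
        exact (hK k hk).1
      | pole y b =>
        have hy : y = (f k : D.Q) := hq
        subst hy
        exact (hK k hk).1
    · intro q hq
      apply hsub
      cases q with
      | lim ω' => exact absurd hq (by intro h; exact h)
      | arc y ξ r =>
        have hy : y = ((f k * D.s : D.G) : D.Q) := hq
        subst hy
        exact (hK k hk).2
      | pole y b =>
        have hy : y = ((f k * D.s : D.G) : D.Q) := hq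
        subst hy
        exact (hK k hk).2

end Pool.Agent.Helper548.HB
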