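import Pool.Agent.Helper548.HB.Defs
import Pool.Agent.Helper548.HB.P_near_self
import Pool.Agent.Helper548.HB.P_m_basis

set_option autoImplicit false

/-! Hyperbolic spaces, Gromov boundaries, hierarchically hyperbolic spaces and groups, the
hierarchically hyperbolic boundary and its topology. -/

namespace Pool.Agent.Helper548.HB



theorem g_arc_cont (t : ℝ) (D : GData) (RG : Realz D.Γ D.G) (RT : Realz TG H) (x : D.Q)
    (ξ : Boundary RT.X) :
    @Continuous ℝ _ _ (mTop t D RG RT) (fun r => (MPt.arc x ξ r : MPt D RG RT)) := by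
  letI := mTop t D RG RT
  rw [continuous_iff_continuousAt]
  intro r
  have h := m_basis (D := D) (RG := RG) (RT := RT) t (MPt.arc x ξ r)
  refine h.tendsto_right_iff.2 ?_
  rintro ⟨R, ε⟩ hε
  filter_upwards [Metric.ball_mem_nhds r hε] with r' hr'
  rw [Metric.mem_ball, Real.dist_eq] at hr'
  exact Or.inl ⟨ξ, r', rfl, near_self _ _ _, hr'⟩

end Pool.Agent.Helper548.HB
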