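import Pool.Agent.Helper548.HB.Defs
import Pool.Agent.Helper548.HB.P_m_basis

set_option autoImplicit false

/-! Hyperbolic spaces, Gromov boundaries, hierarchically hyperbolic spaces and groups, the
hierarchically hyperbolic boundary and its topology. -/

namespace Pool.Agent.Helper548.HB



/-- the poles are limits of every longitude -/
theorem g_pole_cl (t : ℝ) (D : GData) (RG : Realz D.Γ D.G) (RT : Realz TG H) (x : D.Q)
    (ξ : Boundary RT.X) (b : Bool) (r₀ : ℝ) :
    (MPt.pole x b : MPt D RG RT) ∈ @closure _ (mTop t D RG RT)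
      {q | ∃ r, r₀ < sgb b * r ∧ q = MPt.arc x ξ r} := by
  letI : TopologicalSpace (MPt D RG RT) := mTop t D RG RT
  rw [mem_closure_iff_nhds_basis (m_basis t (MPt.pole x b : MPt D RG RT))]
  rintro ⟨R, ε⟩ _
  have hs : sgb b * (sgb b * (max R r₀ + 1)) = max R r₀ + 1 := by
    cases b <;> simp [sgb]
  refine ⟨MPt.arc x ξ (sgb b * (max R r₀ + 1)), ⟨_, ?_, rfl⟩, ?_⟩
  · rw [hs]
    linarith [le_max_right R r₀]
  · refine Or.inr (Or.inl ⟨ξ, _, rfl, ?_⟩)
    rw [hs]
    show R < max R r₀ + 1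
    linarith [le_max_left R r₀]

end Pool.Agent.Helper548.HB
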