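import Pool.Agent.Helper548.HB.Defs
import Pool.Agent.Helper548.HB.P_e_cend_ex
import Pool.Agent.Helper548.HB.P_g_arc_cont
import Pool.Agent.Helper548.HB.P_g_pole_cl

set_option autoImplicit false

/-! Hyperbolic spaces, Gromov boundaries, hierarchically hyperbolic spaces and groups, the
hierarchically hyperbolic boundary and its topology. -/

namespace Pool.Agent.Helper548.HB



theorem g_sigma (t : ℝ) (D : GData) (RG : Realz D.Γ D.G) (RT : Realz TG H) (y : D.Q) :
    @IsPreconnected _ (mTop t D RG RT) {q : MPt D RG RT | q.atv y} := by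
  letI : TopologicalSpace (MPt D RG RT) := mTop t D RG RT
  have key : ∀ ξ : Boundary RT.X, IsPreconnected
      (Set.range (fun r : ℝ => (MPt.arc y ξ r : MPt D RG RT)) ∪
        {MPt.pole y true, MPt.pole y false}) := by
    intro ξ
    have h1 : IsPreconnected (Set.range (fun r : ℝ => (MPt.arc y ξ r : MPt D RG RT))) :=
      isPreconnected_range (g_arc_cont t D RG RT y ξ)
    have hp : ∀ b : Bool, (MPt.pole y b : MPt D RG RT) ∈
        closure (Set.range (fun r : ℝ => (MPt.arc y ξ r : MPt D RG RT))) := by
      intro b
      have h2 := g_pole_cl t D RG RT y ξ b 0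
      refine closure_mono ?_ h2
      rintro q ⟨r, -, rfl⟩
      exact ⟨r, rfl⟩
    refine h1.subset_closure Set.subset_union_left ?_
    refine Set.union_subset subset_closure ?_
    intro q hq
    rcases hq with rfl | hq
    · exact hp true
    · rw [Set.mem_singleton_iff] at hq
      rw [hq]
      exact hp false
  obtain ⟨ξ₀, -⟩ := e_cend_ex RT 1 true
  have hU : {q : MPt D RG RT | q.atv y} = ⋃ ξ : Boundary RT.X,
      (Set.range (fun r : ℝ => (MPt.arc y ξ r : MPt D RG RT)) ∪
        {MPt.pole y true, MPt.pole y false}) := by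
    ext q
    constructor
    · intro hq
      rw [Set.mem_iUnion]
      cases q with
      | lim ω => exact absurd hq (by simp [MPt.atv])
      | arc z ξ r =>
        have hz : z = y := hq
        subst hz
        exact ⟨ξ, Or.inl ⟨r, rfl⟩⟩
      | pole z b =>
        have hz : z = y := hq
        subst hz
        refine ⟨ξ₀, Or.inr ?_⟩
        cases b
        · right; rfl
        · left; rfl
    · intro hq
      rw [Set.mem_iUnion] at hq
      obtain ⟨ξ, hq⟩ := hq
      rcases hq with ⟨r, rfl⟩ | hq
      · rfl
      · rcases hq with rfl | hq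
        · rfl
        · rw [Set.mem_singleton_iff] at hq
          rw [hq]
          rfl
  rw [hU]
  refine isPreconnected_iUnion ⟨MPt.pole y true, ?_⟩ key
  rw [Set.mem_iInter]
  intro ξ
  exact Or.inr (Or.inl rfl)

end Pool.Agent.Helper548.HB
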