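import Pool.Agent.Helper548.HB.Defs
import Pool.Agent.Helper548.HB.P_cut_not_mem
import Pool.Agent.Helper548.HB.P_cut_left
import Pool.Agent.Helper548.HB.P_cut_step
import Pool.Agent.Helper548.HB.P_adj_consec
import Pool.Agent.Helper548.HB.P_connected
import Pool.Agent.Helper548.HB.P_r_mem
import Pool.Agent.Helper548.HB.P_r_cut
import Pool.Agent.Helper548.HB.P_r_sep
import Pool.Agent.Helper548.HB.P_r_out

set_option autoImplicit false

/-! Hyperbolic spaces, Gromov boundaries, hierarchically hyperbolic spaces and groups, the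
hierarchically hyperbolic boundary and its topology. -/

namespace Pool.Agent.Helper548.HB



theorem gc_zpow_inj_hb {i j : ℤ} (h : gc ^ i = gc ^ j) : i = j := by
  have h1 := congrArg (fun v : V => psi v.1) h
  simp only [Prod.pow_fst, map_zpow] at h1
  have h2 : psi gc.1 = Multiplicative.ofAdd 1 := by
    simp [psi, gc]
  rw [h2, ← ofAdd_zsmul, ← ofAdd_zsmul] at h1
  have h3 := Multiplicative.ofAdd.injective h1
  simpa using h3

theorem r_disj_adj (D : GData) (g : D.G) (z : D.Q) (h1 : z ∈ RR D g) (h2 : z ∈ RR D (g * D.s))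
    (ha : D.Γ.Adj (g : D.Q) z) : False := by
  obtain ⟨h, e1, e2⟩ := ha
  obtain ⟨v, hv⟩ := QuotientGroup.eq.1 e1
  have hh : h = g * D.ι v := by rw [hv, mul_inv_cancel_left]
  subst hh
  have ne1 : z ≠ (g : D.Q) := h1.1
  have ne2 : z ≠ ((g * D.s : D.G) : D.Q) := h2.1
  rw [e2] at h1 h2 ne1 ne2
  obtain ⟨j, hj, hj1⟩ := (r_cut D g _ ne1).1 h1
  obtain ⟨j', hj', hj1'⟩ := (r_cut D (g * D.s) _ ne2).1 h2
  have hs : (D.s)⁻¹ = D.s := inv_eq_of_mul_eq_one_left D.s_mul_s
  have k1 : g⁻¹ * (g * D.ι v * D.s) = D.ι v * D.s := by group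
  have k2 : (g * D.s)⁻¹ * (g * D.ι v * D.s) = D.s * (D.ι v * D.s) := by
    rw [mul_inv_rev, hs]; group
  rw [k1, cut_left, cut_not_mem D D.s D.s_not_mem, D.head_s, mul_one] at hj1
  rw [k2] at hj1'
  have n1 : D.ι v * D.s ∉ D.ι.range := by
    intro hm
    exact D.s_not_mem ((Subgroup.mul_mem_cancel_left _ (MonoidHom.mem_range.2 ⟨v, rfl⟩)).1 hm)
  have n2 : D.s * (D.ι v * D.s) ∉ D.ι.range := by
    intro hm
    apply ne2
    rw [eq_comm]
    rw [QuotientGroup.eq, k2]
    exact hm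
  rw [cut_not_mem D _ n2] at hj1'
  have hhead : D.head (D.ι v * D.s) = v := by
    rw [D.head_left v D.s D.s_not_mem, D.head_s, mul_one]
  rcases eq_or_lt_of_le hj with hj0 | hj0
  · subst hj0
    rw [zpow_one] at hj1
    subst hj1
    have n3 : D.s * D.ι gc⁻¹ ∉ D.ι.range := by
      intro hm
      exact D.s_not_mem ((Subgroup.mul_mem_cancel_right _ (MonoidHom.mem_range.2 ⟨gc⁻¹, rfl⟩)).1 hm)
    rw [← mul_assoc, D.scs, mul_assoc, D.head_left _ _ n3, D.head_right _ _ D.s_not_mem, D.head_s,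
      mul_one, ← zpow_neg_one] at hj1'
    have := gc_zpow_inj_hb hj1'
    omega
  · have h3 := D.head_s_mul _ n1 (by
      intro i hi heq
      rw [hhead, hj1] at heq
      have := gc_zpow_inj_hb heq
      omega)
    rw [h3, ← zpow_zero gc] at hj1'
    have := gc_zpow_inj_hb hj1'
    omega

theorem r_disj (D : GData) (g : D.G) (z : D.Q) (h1 : z ∈ RR D g) (h2 : z ∈ RR D (g * D.s)) :
    False := by
  have hgs : g * D.s * D.s = g := by rw [mul_assoc, D.s_mul_s, mul_one]
  obtain ⟨w⟩ := (connected D).preconnected z (g : D.Q)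
  have key : ∀ (a b : D.Q) (w : D.Γ.Walk a b), b = (g : D.Q) → a ∈ RR D g →
      a ∈ RR D (g * D.s) → False := by
    intro a b w
    induction w with
    | nil =>
      intro hb ha _
      exact ha.1 hb
    | @cons a a' b hadj w ih =>
      intro hb ha ha'
      by_cases c1 : a' = (g : D.Q)
      · exact r_disj_adj D g a ha ha' (c1 ▸ hadj.symm)
      by_cases c2 : a' = ((g * D.s : D.G) : D.Q)
      · exact r_disj_adj D (g * D.s) a ha' (by rw [hgs]; exact ha) (c2 ▸ hadj.symm)
      · refine ih hb ((r_sep D g a a' hadj ha.1 ha'.1 c1 c2).1 ha) ?_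
        refine (r_sep D (g * D.s) a a' hadj ha'.1 ?_ c2 ?_).1 ha'
        · rw [hgs]; exact ha.1
        · rw [hgs]; exact c1
  exact key z _ w rfl h1 h2
end Pool.Agent.Helper548.HB
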