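import Pool.Agent.Helper548.HB.Defs
import Pool.Agent.Helper548.HB.P_cq_step
import Pool.Agent.Helper548.HB.P_r_mem
import Pool.Agent.Helper548.HB.P_r_out
import Pool.Agent.Helper548.HB.P_r_disj
import Pool.Agent.Helper548.HB.P_r_csc_mk
import Pool.Agent.Helper548.HB.P_r_seq
import Pool.Agent.Helper548.HB.P_b_c
import Pool.Agent.Helper548.HB.P_b_csc
import Pool.Agent.Helper548.HB.P_b_lim
import Pool.Agent.Helper548.HB.P_g_sigma

set_option autoImplicit false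

/-! Hyperbolic spaces, Gromov boundaries, hierarchically hyperbolic spaces and groups, the
hierarchically hyperbolic boundary and its topology. -/

namespace Pool.Agent.Helper548.HB



/-- points at a vertex beyond the line are beyond the line -/
theorem be_mem {D : GData} {RG : Realz D.Γ D.G} {RT : Realz TG H} {x : D.Q} {v : V} {z : D.Q}
    (hz : z ≠ x) (hj : ∃ j : ℤ, D.cq x z = v * gc ^ j) {q : MPt D RG RT} (hq : q.atv z) :
    q ∈ BB x v := by
  obtain ⟨j, hj⟩ := hj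
  refine ⟨j, ?_⟩
  cases q with
  | lim ω => exact hq.elim
  | arc z' ξ r =>
    have h : z' = z := hq
    subst h
    exact ⟨hz, hj⟩
  | pole z' b =>
    have h : z' = z := hq
    subst h
    exact ⟨hz, hj⟩

theorem be_sub_c (D : GData) (g : D.G) : RR D (g * D.ι gc) ⊆ RR D g := by
  have h := (r_seq D (fun k : ℕ => g * D.ι gc ^ k)
    (fun k => Or.inl (by show g * D.ι gc ^ (k + 1) = g * D.ι gc ^ k * D.ι gc
                         rw [pow_succ, mul_assoc])) 0 1).2.2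
  have h' : RR D (g * D.ι gc ^ (0 + 1)) ⊆ RR D (g * D.ι gc ^ 0) := h
  rw [zero_add, pow_one, pow_zero, mul_one] at h'
  exact h'

theorem be_sub_csc (D : GData) (g : D.G) :
    RR D (g * (D.ι gc * D.s * D.ι gc)) ⊆ RR D g := by
  have h := (r_seq D (fun k : ℕ => g * (D.ι gc * D.s * D.ι gc) ^ k)
    (fun k => Or.inr (by
      show g * (D.ι gc * D.s * D.ι gc) ^ (k + 1) =
        g * (D.ι gc * D.s * D.ι gc) ^ k * (D.ι gc * D.s * D.ι gc)
      rw [pow_succ]; exact (mul_assoc _ _ _).symm)) 0 1).2.2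
  have h' : RR D (g * (D.ι gc * D.s * D.ι gc) ^ (0 + 1)) ⊆
      RR D (g * (D.ι gc * D.s * D.ι gc) ^ 0) := h
  rw [zero_add, pow_one, pow_zero, mul_one] at h'
  exact h'

theorem be_mk_c (D : GData) (g : D.G) : ((g * D.ι gc : D.G) : D.Q) = (g : D.Q) := by
  apply QuotientGroup.eq.2
  rw [mul_inv_rev, mul_assoc, inv_mul_cancel, mul_one]
  exact D.ι.range.inv_mem ⟨gc, rfl⟩

/-- the state of the descent -/
structure BeP (D : GData) (RG : Realz D.Γ D.G) (RT : Realz TG H) (x : D.Q) (v : V)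
    (U1 U2 : Set (MPt D RG RT)) (g : D.G) : Prop where
  n1 : (g : D.Q) ≠ x
  n2 : ((g * D.s : D.G) : D.Q) ≠ x
  j1 : ∃ j : ℤ, D.cq x (g : D.Q) = v * gc ^ j
  j2 : ∃ j : ℤ, D.cq x ((g * D.s : D.G) : D.Q) = v * gc ^ j
  a1 : {q : MPt D RG RT | q.atv (g : D.Q)} ⊆ U1
  a2 : {q : MPt D RG RT | q.atv ((g * D.s : D.G) : D.Q)} ⊆ U2
  out : x ∉ RR D g

theorem be_step (D : GData) (RG : Realz D.Γ D.G) (RT : Realz TG H) (x : D.Q) (v : V)
    (U1 U2 : Set (MPt D RG RT))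
    (hside : ∀ y : D.Q, y ≠ x → (∃ j : ℤ, D.cq x y = v * gc ^ j) →
      {q : MPt D RG RT | q.atv y} ⊆ U1 ∨ {q : MPt D RG RT | q.atv y} ⊆ U2)
    (g : D.G) (h : BeP D RG RT x v U1 U2 g) :
    ∃ g' : D.G, BeP D RG RT x v U1 U2 g' ∧
      (g' = g * D.ι gc ∨ g' = g * (D.ι gc * D.s * D.ι gc)) := by
  have hm : ((g * D.ι gc * D.s : D.G) : D.Q) ∈ RR D g := r_mem D g
  have hmx : ((g * D.ι gc * D.s : D.G) : D.Q) ≠ x := by
    intro e
    rw [e] at hm
    exact h.out hm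
  have hadj : D.Γ.Adj (g : D.Q) ((g * D.ι gc * D.s : D.G) : D.Q) :=
    ⟨g * D.ι gc, (be_mk_c D g).symm, rfl⟩
  have hmj : ∃ j : ℤ, D.cq x ((g * D.ι gc * D.s : D.G) : D.Q) = v * gc ^ j := by
    obtain ⟨j, hj⟩ := h.j1
    rcases cq_step D x _ _ h.n1 hmx hadj with e | ⟨e, _⟩ | ⟨e, _⟩
    · exact ⟨j, by rw [← e, hj]⟩
    · exact ⟨j + 1, by rw [e, hj, mul_assoc, zpow_add_one]⟩
    · refine ⟨j - 1, ?_⟩
      have e' := eq_mul_inv_of_mul_eq e.symm
      rw [e', hj, mul_assoc, zpow_sub_one]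
  rcases hside _ hmx hmj with h1 | h2
  · -- `m` is on the side `U1`: csc move
    obtain ⟨e1, e2⟩ := r_csc_mk D g
    refine ⟨g * (D.ι gc * D.s * D.ι gc), ⟨?_, ?_, ?_, ?_, ?_, ?_, ?_⟩, Or.inr rfl⟩
    · rw [e1]; exact hmx
    · rw [e2]; exact h.n2
    · rw [e1]; exact hmj
    · rw [e2]; exact h.j2
    · rw [e1]; exact h1
    · rw [e2]; exact h.a2
    · exact fun hx => h.out (be_sub_csc D g hx)
  · refine ⟨g * D.ι gc, ⟨?_, ?_, ?_, ?_, ?_, ?_, ?_⟩, Or.inl rfl⟩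
    · rw [be_mk_c]; exact h.n1
    · exact hmx
    · rw [be_mk_c]; exact h.j1
    · exact hmj
    · rw [be_mk_c]; exact h.a1
    · exact h2
    · exact fun hx => h.out (be_sub_c D g hx)

theorem be_core (t : ℝ) (D : GData) (RG : Realz D.Γ D.G) (RT : Realz TG H) (x : D.Q) (v : V)
    (U1 U2 : Set (MPt D RG RT)) (hU1 : @IsOpen _ (mTop t D RG RT) U1)
    (hU2 : @IsOpen _ (mTop t D RG RT) U2) (hcov : BB x v ⊆ U1 ∪ U2)
    (hdis : ∀ q ∈ BB (RG := RG) (RT := RT) x v, q ∈ U1 → q ∈ U2 → False)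
    (hside : ∀ y : D.Q, y ≠ x → (∃ j : ℤ, D.cq x y = v * gc ^ j) →
      {q : MPt D RG RT | q.atv y} ⊆ U1 ∨ {q : MPt D RG RT | q.atv y} ⊆ U2)
    (g : D.G) (h : BeP D RG RT x v U1 U2 g) : False := by
  classical
  have hst : ∀ g : {g : D.G // BeP D RG RT x v U1 U2 g},
      ∃ g' : {g : D.G // BeP D RG RT x v U1 U2 g},
        (g'.1 = g.1 * D.ι gc ∨ g'.1 = g.1 * (D.ι gc * D.s * D.ι gc)) := by
    intro g
    obtain ⟨g', h1, h2⟩ := be_step D RG RT x v U1 U2 hside g.1 g.2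
    exact ⟨⟨g', h1⟩, h2⟩
  choose nx hnx using hst
  let F : ℕ → {g : D.G // BeP D RG RT x v U1 U2 g} := fun n =>
    Nat.rec ⟨g, h⟩ (fun _ p => nx p) n
  have hF : ∀ k, (F (k + 1)).1 = (F k).1 * D.ι gc ∨
      (F (k + 1)).1 = (F k).1 * (D.ι gc * D.s * D.ι gc) := fun k => hnx (F k)
  by_cases i2 : ∀ N, ∃ k ≥ N, (F (k + 1)).1 = (F k).1 * (D.ι gc * D.s * D.ι gc)
  · by_cases i1 : ∀ N, ∃ k ≥ N, (F (k + 1)).1 = (F k).1 * D.ι gc
    · -- both moves infinitely often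
      obtain ⟨ω, hω, hlim⟩ := b_lim t D RG RT (fun k => (F k).1) x (F 0).2.out v
        (fun k => ⟨(F k).2.n1, (F k).2.j1⟩) hF i1 i2
      rcases hcov hω with hω1 | hω2
      · obtain ⟨K, hK⟩ := hlim U1 hU1 hω1
        have hq : (MPt.pole (((F K).1 * D.s : D.G) : D.Q) true : MPt D RG RT).atv
            (((F K).1 * D.s : D.G) : D.Q) := rfl
        exact hdis _ (be_mem (F K).2.n2 (F K).2.j2 hq) ((hK K le_rfl).2 hq) ((F K).2.a2 hq)
      · obtain ⟨K, hK⟩ := hlim U2 hU2 hω2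
        have hq : (MPt.pole (((F K).1 : D.G) : D.Q) true : MPt D RG RT).atv
            (((F K).1 : D.G) : D.Q) := rfl
        exact hdis _ (be_mem (F K).2.n1 (F K).2.j1 hq) ((F K).2.a1 hq) ((hK K le_rfl).1 hq)
    · -- eventually only csc
      push Not at i1
      obtain ⟨N, hN⟩ := i1
      have hpow : ∀ j : ℕ, (F (N + j)).1 = (F N).1 * (D.ι gc * D.s * D.ι gc) ^ j := by
        intro j
        induction j with
        | zero => rw [pow_zero, mul_one, add_zero]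
        | succ j ih =>
          rcases hF (N + j) with e | e
          · exact absurd e (hN (N + j) (Nat.le_add_right _ _))
          · rw [← add_assoc, e, ih, pow_succ]; exact (mul_assoc _ _ _)
      obtain ⟨J, hJ⟩ := b_csc t D RG RT (F N).1 U2 hU2 (F N).2.a2
      obtain ⟨q, hq2, hqa⟩ := hJ J le_rfl
      rw [← hpow J] at hqa
      exact hdis q (be_mem (F (N + J)).2.n1 (F (N + J)).2.j1 hqa) ((F (N + J)).2.a1 hqa) hq2
  · -- eventually only c
    push Not at i2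
    obtain ⟨N, hN⟩ := i2
    have hpow : ∀ j : ℕ, (F (N + j)).1 = (F N).1 * D.ι gc ^ j := by
      intro j
      induction j with
      | zero => rw [pow_zero, mul_one, add_zero]
      | succ j ih =>
        rcases hF (N + j) with e | e
        · rw [← add_assoc, e, ih, pow_succ, mul_assoc]
        · exact absurd e (hN (N + j) (Nat.le_add_right _ _))
    obtain ⟨J, hJ⟩ := b_c t D RG RT (F N).1 U1 hU1 (F N).2.a1
    obtain ⟨q, hq1, hqa⟩ := hJ J le_rfl
    rw [← hpow J] at hqa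
    exact hdis q (be_mem (F (N + J)).2.n2 (F (N + J)).2.j2 hqa) hq1 ((F (N + J)).2.a2 hqa)

/-- the two sides of a clopen partition of the part beyond a c-line do not separate adjacent
vertices -/
theorem b_edge (t : ℝ) (D : GData) (RG : Realz D.Γ D.G) (RT : Realz TG H) (x : D.Q) (v : V)
    (U W : Set (MPt D RG RT)) (hU : @IsOpen _ (mTop t D RG RT) U)
    (hW : @IsOpen _ (mTop t D RG RT) W) (hcov : BB x v ⊆ U ∪ W)
    (hdis : ∀ q ∈ BB (RG := RG) (RT := RT) x v, q ∈ U → q ∈ W → False)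
    (hside : ∀ y : D.Q, y ≠ x → (∃ j : ℤ, D.cq x y = v * gc ^ j) →
      {q : MPt D RG RT | q.atv y} ⊆ U ∨ {q : MPt D RG RT | q.atv y} ⊆ W)
    (y y' : D.Q) (hadj : D.Γ.Adj y y') (hy : y ≠ x) (hy' : y' ≠ x)
    (hj : ∃ j : ℤ, D.cq x y = v * gc ^ j) (hj' : ∃ j : ℤ, D.cq x y' = v * gc ^ j)
    (h1 : {q : MPt D RG RT | q.atv y} ⊆ U) : {q : MPt D RG RT | q.atv y'} ⊆ U := by
  rcases hside y' hy' hj' with h | h2
  · exact h
  · exfalso
    obtain ⟨g, e1, e2⟩ := hadj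
    subst e1
    subst e2
    by_cases hx : x ∈ RR D g
    · have hx' : x ∉ RR D (g * D.s) := fun h => r_disj D g x hx h
      have ess : g * D.s * D.s = g := by rw [mul_assoc, D.s_mul_s, mul_one]
      refine be_core t D RG RT x v W U hW hU (by rw [Set.union_comm]; exact hcov)
        (fun q hq a b => hdis q hq b a) (fun z hz hzj => (hside z hz hzj).symm) (g * D.s)
        ⟨hy', ?_, hj', ?_, h2, ?_, hx'⟩
      · rw [ess]; exact hy
      · rw [ess]; exact hj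
      · rw [ess]; exact h1
    · exact be_core t D RG RT x v U W hU hW hcov hdis hside g ⟨hy, hy', hj, hj', h1, h2, hx⟩

end Pool.Agent.Helper548.HB
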