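import Pool.Agent.Helper548.HB.Defs
import Pool.Agent.Helper548.HB.P_adj_eq
import Pool.Agent.Helper548.HB.P_adj_mk
import Pool.Agent.Helper548.HB.P_adj_consec
import Pool.Agent.Helper548.HB.P_cq_step
import Pool.Agent.Helper548.HB.P_connected

set_option autoImplicit false

/-! Hyperbolic spaces, Gromov boundaries, hierarchically hyperbolic spaces and groups, the
hierarchically hyperbolic boundary and its topology. -/

namespace Pool.Agent.Helper548.HB



theorem beyond_walk_a (D : GData) (x : D.Q) (v : V) (y x' : D.Q) (w : D.Γ.Walk y x')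
    (hx : x' = x) (hy : y ≠ x) (h : ∃ j : ℤ, D.cq x y = v * gc ^ j) :
    ∃ (j : ℤ) (w : D.Γ.Walk y ((x.out * D.ι (v * gc ^ j) * D.s : D.G) : D.Q)),
      ∀ z ∈ w.support, z ≠ x ∧ ∃ j : ℤ, D.cq x z = v * gc ^ j := by
  induction w with
  | nil => exact absurd hx hy
  | @cons a b c hab w' ih =>
    obtain ⟨j, hj⟩ := h
    by_cases hb : b = x
    · subst hb
      have e := adj_eq D b a hab.symm
      rw [hj] at e
      refine ⟨j, SimpleGraph.Walk.nil.copy rfl e, ?_⟩
      intro z hz
      rw [SimpleGraph.Walk.support_copy, SimpleGraph.Walk.support_nil, List.mem_singleton] at hz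
      subst hz
      exact ⟨hy, j, hj⟩
    · have hb2 : ∃ j : ℤ, D.cq x b = v * gc ^ j := by
        rcases cq_step D x a b hy hb hab with h1 | ⟨h1, _⟩ | ⟨h1, _⟩
        · exact ⟨j, by rw [← h1, hj]⟩
        · exact ⟨j + 1, by rw [h1, hj, mul_assoc, zpow_add, zpow_one]⟩
        · refine ⟨j - 1, ?_⟩
          rw [hj] at h1
          rw [zpow_sub_one, ← mul_assoc, h1, mul_inv_cancel_right]
      obtain ⟨k, w2, hw2⟩ := ih hx hb hb2
      refine ⟨k, SimpleGraph.Walk.cons hab w2, ?_⟩
      intro z hz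
      rw [SimpleGraph.Walk.support_cons, List.mem_cons] at hz
      rcases hz with hz | hz
      · subst hz
        exact ⟨hy, j, hj⟩
      · exact hw2 z hz

theorem beyond_walk_b (D : GData) (x : D.Q) (v : V) (j : ℤ) (n : ℕ) :
    ∃ w : D.Γ.Walk ((x.out * D.ι (v * gc ^ j) * D.s : D.G) : D.Q)
      ((x.out * D.ι (v * gc ^ (j + n)) * D.s : D.G) : D.Q),
      ∀ z ∈ w.support, z ≠ x ∧ ∃ j : ℤ, D.cq x z = v * gc ^ j := by
  have hp : ∀ k : ℤ, ((x.out * D.ι (v * gc ^ k) * D.s : D.G) : D.Q) ≠ x ∧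
      ∃ j : ℤ, D.cq x ((x.out * D.ι (v * gc ^ k) * D.s : D.G) : D.Q) = v * gc ^ j := by
    intro k
    obtain ⟨h1, h2⟩ := adj_mk D x (v * gc ^ k)
    exact ⟨h1.ne.symm, k, h2⟩
  induction n with
  | zero =>
    refine ⟨SimpleGraph.Walk.nil.copy rfl (by simp), ?_⟩
    intro z hz
    rw [SimpleGraph.Walk.support_copy, SimpleGraph.Walk.support_nil, List.mem_singleton] at hz
    subst hz
    exact hp j
  | succ n ih =>
    obtain ⟨w, hw⟩ := ih
    have h3 := adj_consec D x (v * gc ^ (j + n))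
    have e : v * gc ^ (j + (n : ℤ)) * gc = v * gc ^ (j + ((n + 1 : ℕ) : ℤ)) := by
      rw [mul_assoc]
      congr 1
      rw [← zpow_add_one]
      congr 1
      push_cast
      ring
    rw [e] at h3
    refine ⟨w.concat h3, ?_⟩
    intro z hz
    rw [SimpleGraph.Walk.support_concat, List.mem_append] at hz
    rcases hz with hz | hz
    · exact hw z hz
    · rw [List.mem_singleton] at hz
      subst hz
      exact hp _

/-- the vertices beyond the c-line of v at x: any two are joined by a walk of such vertices -/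
theorem beyond_walk (D : GData) (x : D.Q) (v : V) (y y' : D.Q) (hy : y ≠ x) (hy' : y' ≠ x)
    (h : ∃ j : ℤ, D.cq x y = v * gc ^ j) (h' : ∃ j : ℤ, D.cq x y' = v * gc ^ j) :
    ∃ w : D.Γ.Walk y y', ∀ z ∈ w.support, z ≠ x ∧ ∃ j : ℤ, D.cq x z = v * gc ^ j := by
  obtain ⟨i, w1, h1⟩ := beyond_walk_a D x v y x (((connected D).preconnected y x).some) rfl hy h
  obtain ⟨j, w2, h2⟩ := beyond_walk_a D x v y' x (((connected D).preconnected y' x).some) rfl hy' h'
  have h3 : ∃ w : D.Γ.Walk ((x.out * D.ι (v * gc ^ i) * D.s : D.G) : D.Q)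
      ((x.out * D.ι (v * gc ^ j) * D.s : D.G) : D.Q),
      ∀ z ∈ w.support, z ≠ x ∧ ∃ j : ℤ, D.cq x z = v * gc ^ j := by
    rcases le_total i j with hij | hij
    · obtain ⟨n, hn⟩ := Int.le.dest hij
      subst hn
      exact beyond_walk_b D x v i n
    · obtain ⟨n, hn⟩ := Int.le.dest hij
      subst hn
      obtain ⟨w, hw⟩ := beyond_walk_b D x v j n
      refine ⟨w.reverse, fun z hz => hw z ?_⟩
      rw [SimpleGraph.Walk.support_reverse, List.mem_reverse] at hz
      exact hz
  obtain ⟨w3, h3⟩ := h3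
  refine ⟨(w1.append w3).append w2.reverse, fun z hz => ?_⟩
  rw [SimpleGraph.Walk.mem_support_append_iff, SimpleGraph.Walk.mem_support_append_iff,
    SimpleGraph.Walk.support_reverse, List.mem_reverse] at hz
  rcases hz with (hz | hz) | hz
  · exact h1 z hz
  · exact h3 z hz
  · exact h2 z hz

end Pool.Agent.Helper548.HB
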