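import Pool.Agent.Helper548.HB.Defs
import Pool.Agent.Helper548.HB.P_pb_dist
import Pool.Agent.Helper548.HB.P_pb_close
import Pool.Agent.Helper548.HB.P_pb_ex
import Pool.Agent.Helper548.HB.P_pb_vert

set_option autoImplicit false

/-! Hyperbolic spaces, Gromov boundaries, hierarchically hyperbolic spaces and groups, the
hierarchically hyperbolic boundary and its topology. -/

namespace Pool.Agent.Helper548.HB



theorem bproj_L_aux {D : GData} {RG : Realz D.Γ D.G} {RT : Realz TG H} (t : ℝ) (q : MPt D RG RT)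
    (x y : D.Q) (v : V) (hyx : y ≠ x) (hv : D.cq x y = v) (hS : q.w .S = 0)
    (hT : ∀ z, q.w (.T z) ≠ 0 → z = y) (hL : ∀ z, q.w (.L z) ≠ 0 → z = y)
    (hne : q.w (.T y) ≠ 0 ∨ q.w (.L y) ≠ 0) (R : ℝ) :
    bproj (hier D RG RT t) (1 : D.G) (q.toB t) R (Dm.L x) = {lam t v} := by
  ext a
  constructor
  · rintro (⟨T, hT', -, ha⟩ | ⟨T, hT', hn, -⟩)
    · cases T with
      | S => exact absurd hS hT'
      | T z =>
        have hz : z = y := hT z hT'
        subst hz
        have ha' : a = lam t (D.cq x z) := ha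
        rw [ha', hv]
        rfl
      | L z =>
        have hz : z = y := hL z hT'
        subst hz
        have ha' : a = lam t (D.cq x z) := ha
        rw [ha', hv]
        rfl
    · obtain ⟨h1, h2⟩ := hn
      rcases h1 with h1 | h1
      · exact absurd h1 h2
      · subst h1
        exact absurd hS hT'
  · intro ha
    have ha' : a = lam t v := ha
    left
    rcases hne with h1 | h1
    · refine ⟨.T y, h1, Or.inr ⟨fun h => hyx h, ?_, ?_⟩, ?_⟩
      · rintro (h | h) <;> cases h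
      · rintro (h | h) <;> cases h
      · show a = lam t (D.cq x y)
        rw [ha', hv]
    · refine ⟨.L y, h1, Or.inr ⟨fun h => h, ?_, ?_⟩, ?_⟩
      · rintro (h | h)
        · exact hyx (by injection h)
        · cases h
      · rintro (h | h)
        · exact hyx (by injection h with h'; exact h'.symm)
        · cases h
      · show a = lam t (D.cq x y)
        rw [ha', hv]

theorem bproj_L_aux2 {D : GData} {RG : Realz D.Γ D.G} (t : ℝ) (x : D.Q) (v : V)
    (ω : Boundary RG.X) (R1 R a : ℝ)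
    (hR1 : ∀ (y : D.Q), PB (RG.ι ((1 : D.G) : D.Q)) R1 (RG.ι y) ω → y ≠ x ∧ D.cq x y = v)
    (hRa : R1 + 1 ≤ R) (hRb : dist (RG.ι ((1 : D.G) : D.Q)) (RG.ι x) + 4 ≤ R) (y : RG.X)
    (hy' : PB (RG.ι ((1 : D.G) : D.Q)) R y ω)
    (ha' : dist y (RG.ι x) ≤ 3 ∨ ∃ z, dist y (RG.ι z) ≤ 1 ∧ a = lam t (D.cq x z)) : a = lam t v := by
  have hd := pb_dist hy'
  rcases ha' with ha' | ⟨z, hz, ha'⟩
  · exfalso
    have h2 := dist_triangle (RG.ι ((1 : D.G) : D.Q)) (RG.ι x) y
    rw [dist_comm (RG.ι x) y] at h2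
    linarith
  · have h2 : PB (RG.ι ((1 : D.G) : D.Q)) R1 (RG.ι z) ω := (pb_close hy').mono (by linarith)
    rw [ha', (hR1 z h2).2]

theorem bproj_L {D : GData} {RG : Realz D.Γ D.G} {RT : Realz TG H} (t : ℝ) (q : MPt D RG RT)
    (x : D.Q) (v : V) (h : q.away x v) : ∃ R₀ : ℝ, ∀ R ≥ R₀,
    bproj (hier D RG RT t) (1 : D.G) (q.toB t) R (Dm.L x) = {lam t v} := by
  classical
  cases q with
  | arc y ξ r =>
    obtain ⟨hyx, hv⟩ : y ≠ x ∧ D.cq x y = v := h
    refine ⟨0, fun R _ => bproj_L_aux t _ x y v hyx hv rfl ?_ ?_ ?_ R⟩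
    · intro z hz
      by_contra hc
      exact hz (by simp [MPt.w, hc])
    · intro z hz
      by_contra hc
      exact hz (by simp [MPt.w, hc])
    · left
      simp only [MPt.w, if_true]
      positivity
  | pole y b =>
    obtain ⟨hyx, hv⟩ : y ≠ x ∧ D.cq x y = v := h
    refine ⟨0, fun R _ => bproj_L_aux t _ x y v hyx hv rfl ?_ ?_ ?_ R⟩
    · intro z hz
      exact absurd rfl hz
    · intro z hz
      by_contra hc
      exact hz (by simp [MPt.w, hc])
    · right
      simp [MPt.w]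
  | lim ω =>
    obtain ⟨R1, hR1⟩ : ∃ R : ℝ, ∀ y : D.Q,
      PB (RG.ι ((1 : D.G) : D.Q)) R (RG.ι y) ω → y ≠ x ∧ D.cq x y = v := h
    refine ⟨max (R1 + 1) (dist (RG.ι ((1 : D.G) : D.Q)) (RG.ι x) + 4), fun R hR => ?_⟩
    have hRa : R1 + 1 ≤ R := (le_max_left _ _).trans hR
    have hRb : dist (RG.ι ((1 : D.G) : D.Q)) (RG.ι x) + 4 ≤ R := (le_max_right _ _).trans hR
    ext a
    constructor
    · rintro (⟨T, hT, hrel, ha⟩ | ⟨T, hT, hn, y, hy, ha⟩)
      · cases T with
        | S =>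
          exfalso
          rcases hrel with ⟨h1, -⟩ | ⟨-, -, h1⟩
          · rcases h1 with h1 | h1 <;> cases h1
          · exact h1 (Or.inr rfl)
        | T z => exact absurd rfl hT
        | L z => exact absurd rfl hT
      · cases T with
        | S =>
          have hy' : PB (RG.ι ((1 : D.G) : D.Q)) R (y : RG.X) ω := hy _ rfl
          exact bproj_L_aux2 t x v ω R1 R a hR1 hRa hRb y hy' ha
        | T z => exact absurd rfl hT
        | L z => exact absurd rfl hT
    · intro ha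
      have ha' : a = lam t v := ha
      right
      obtain ⟨z, hz⟩ := pb_vert RG (RG.ι ((1 : D.G) : D.Q)) ω R
      have h2 := hR1 z (hz.mono (by linarith))
      refine ⟨.S, ?_, ⟨Or.inr rfl, by intro h; cases h⟩, (RG.ι z : RG.X), ?_, ?_⟩
      · show (1 : ℝ) ≠ 0
        exact one_ne_zero
      · intro o ho
        have ho' : o = RG.ι ((1 : D.G) : D.Q) := ho
        rw [ho']
        exact hz
      · show dist (RG.ι z) (RG.ι x) ≤ 3 ∨ ∃ z', dist (RG.ι z) (RG.ι z') ≤ 1 ∧ a = lam t (D.cq x z')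
        refine Or.inr ⟨z, ?_, ?_⟩
        · rw [dist_self]; exact zero_le_one
        · rw [ha', h2.2]

end Pool.Agent.Helper548.HB
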