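import Pool.Agent.Helper548.HB.Defs

set_option autoImplicit false

/-! Hyperbolic spaces, Gromov boundaries, hierarchically hyperbolic spaces and groups, the
hierarchically hyperbolic boundary and its topology. -/

namespace Pool.Agent.Helper548.HB



theorem bproj_S {D : GData} {RG : Realz D.Γ D.G} {RT : Realz TG H} (t : ℝ) (p : MPt D RG RT)
    (y : D.Q) (hp : p.atv y) (R : ℝ) :
    bproj (hier D RG RT t) (1 : D.G) (p.toB t) R Dm.S = {RG.ι y} := by
  apply Set.Subset.antisymm
  · rintro a (⟨T, hT, -, ha⟩ | ⟨T, -, hT2, -⟩)
    · have hw : p.w T ≠ 0 := hT
      cases p with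
      | lim ω => exact hp.elim
      | arc z ξ r =>
        have hz : z = y := hp
        subst hz
        cases T with
        | S => exact absurd rfl hw
        | T x =>
          by_cases hx : x = z
          · subst hx; exact ha
          · exact absurd (by simp [MPt.w, hx]) hw
        | L x =>
          by_cases hx : x = z
          · subst hx; exact ha
          · exact absurd (by simp [MPt.w, hx]) hw
      | pole z b =>
        have hz : z = y := hp
        subst hz
        cases T with
        | S => exact absurd rfl hw
        | T x => exact absurd rfl hw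
        | L x =>
          by_cases hx : x = z
          · subst hx; exact ha
          · exact absurd (by simp [MPt.w, hx]) hw
    · exfalso
      obtain ⟨h1, h2⟩ := hT2
      rcases h1 with h1 | h1
      · exact h2 h1
      · exact h2 h1.symm
  · rintro a ha
    have ha' : a = RG.ι y := ha
    left
    cases p with
    | lim ω => exact hp.elim
    | arc z ξ r =>
      have hz : z = y := hp
      subst hz
      refine ⟨Dm.T z, ?_, Or.inl ⟨Or.inr rfl, fun h => by cases h⟩, ha'⟩
      show MPt.w (MPt.arc z ξ r : MPt D RG RT) (Dm.T z) ≠ 0
      simp only [MPt.w, if_true]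
      positivity
    | pole z b =>
      have hz : z = y := hp
      subst hz
      refine ⟨Dm.L z, ?_, Or.inl ⟨Or.inr rfl, fun h => by cases h⟩, ha'⟩
      show MPt.w (MPt.pole z b : MPt D RG RT) (Dm.L z) ≠ 0
      simp [MPt.w]

end Pool.Agent.Helper548.HB
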