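import Pool.Agent.Helper548.HB.Defs
import Pool.Agent.Helper548.HB.P_pb_dist
import Pool.Agent.Helper548.HB.P_pb_close
import Pool.Agent.Helper548.HB.P_pb_ex
import Pool.Agent.Helper548.HB.P_pb_vert

set_option autoImplicit false

/-! Hyperbolic spaces, Gromov boundaries, hierarchically hyperbolic spaces and groups, the
hierarchically hyperbolic boundary and its topology. -/

namespace Pool.Agent.Helper548.HB



theorem bproj_T {D : GData} {RG : Realz D.Γ D.G} {RT : Realz TG H} (t : ℝ) (q : MPt D RG RT)
    (x : D.Q) (v : V) (h : q.away x v) : ∃ R₀ : ℝ, ∀ R ≥ R₀,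
    bproj (hier D RG RT t) (1 : D.G) (q.toB t) R (Dm.T x) = {RT.ι v.1} := by
  cases q with
  | lim ω =>
    obtain ⟨R1, hR1⟩ := h
    refine ⟨max (R1 + 1) (dist (RG.ι ((1 : D.G) : D.Q)) (RG.ι x) + 4), fun R hR => ?_⟩
    have hRa : R1 + 1 ≤ R := (le_max_left _ _).trans hR
    have hRb : dist (RG.ι ((1 : D.G) : D.Q)) (RG.ι x) + 4 ≤ R := (le_max_right _ _).trans hR
    have key : ∀ y0 : RG.X, PB (RG.ι ((1 : D.G) : D.Q)) R y0 ω → ∀ a : RT.X,
        (dist y0 (RG.ι x) ≤ 3 ∨ ∃ y, dist y0 (RG.ι y) ≤ 1 ∧ a = RT.ι (D.cq x y).1) →
          a = RT.ι v.1 := by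
      intro y0 hPB a ha
      have hd := pb_dist hPB
      rcases ha with h1 | ⟨y, hy, hay⟩
      · exfalso
        have h2 := dist_triangle (RG.ι ((1 : D.G) : D.Q)) (RG.ι x) y0
        rw [dist_comm (RG.ι x) y0] at h2
        linarith
      · have h2 := (pb_close (y := RG.ι y) hPB).mono (R' := R1) (by linarith)
        rw [hay, (hR1 y h2).2]
    apply Set.Subset.antisymm
    · rintro a (⟨T, hT, hT2, hT3⟩ | ⟨T, hT, hT2, y0, hy0, ha⟩)
      · exfalso
        cases T with
        | S =>
          rcases hT2 with hT2 | hT2
          · rcases hT2.1 with h1 | h1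
            · cases h1
            · cases h1
          · exact hT2.2.2 (Or.inr rfl)
        | T z => exact hT rfl
        | L z => exact hT rfl
      · cases T with
        | S =>
          exact key y0 (hy0 _ rfl) a ha
        | T z => exact absurd rfl hT
        | L z => exact absurd rfl hT
    · rintro a ha
      obtain ⟨y, hy⟩ := pb_vert RG (RG.ι ((1 : D.G) : D.Q)) ω R
      right
      refine ⟨Dm.S, one_ne_zero, ⟨Or.inr rfl, fun h => by cases h⟩, RG.ι y, ?_, ?_⟩
      · intro o ho
        have ho' : o = RG.ι ((1 : D.G) : D.Q) := ho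
        rw [ho']
        exact hy
      · right
        refine ⟨y, ?_, ?_⟩
        · have : dist (RG.ι y) (RG.ι y) ≤ 1 := by
            rw [dist_self]
            exact zero_le_one
          exact this
        · have h2 : PB (RG.ι ((1 : D.G) : D.Q)) R1 (RG.ι y) ω := hy.mono (by linarith)
          rw [(hR1 y h2).2]
          exact ha
  | arc z ξ r =>
    obtain ⟨hzx, hzv⟩ := h
    refine ⟨0, fun R _ => ?_⟩
    have hT : ∀ T : Dm D, (MPt.arc z ξ r : MPt D RG RT).w T ≠ 0 → T = Dm.T z ∨ T = Dm.L z := by
      intro T hT
      cases T with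
      | S => exact absurd rfl hT
      | T y =>
        left
        by_contra hne
        apply hT
        have h1 : y ≠ z := fun h => hne (by rw [h])
        simp [MPt.w, h1]
      | L y =>
        right
        by_contra hne
        apply hT
        have h1 : y ≠ z := fun h => hne (by rw [h])
        simp [MPt.w, h1]
    apply Set.Subset.antisymm
    · rintro a (⟨T, hT1, hT2, hT3⟩ | ⟨T, hT1, hT2, y0, hy0, ha⟩)
      · rcases hT T hT1 with rfl | rfl
        · have h1 : a = RT.ι (D.cq x z).1 := hT3
          rw [hzv] at h1
          exact h1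
        · have h1 : a = RT.ι (D.cq x z).1 := hT3
          rw [hzv] at h1
          exact h1
      · exfalso
        rcases hT T hT1 with rfl | rfl
        · rcases hT2.1 with h1 | h1
          · exact hT2.2 h1
          · cases h1
        · rcases hT2.1 with h1 | h1
          · exact hT2.2 h1
          · cases h1
    · rintro a ha
      left
      refine ⟨Dm.T z, ?_, Or.inr ⟨fun h => h, ?_, ?_⟩, ?_⟩
      · have h1 : (1 : ℝ) / (1 + |r|) ≠ 0 := by positivity
        have h2 : (MPt.arc z ξ r : MPt D RG RT).w (Dm.T z) = 1 / (1 + |r|) := by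
          simp [MPt.w]
        show (MPt.arc z ξ r : MPt D RG RT).w (Dm.T z) ≠ 0
        rw [h2]
        exact h1
      · rintro (h1 | h1)
        · injection h1 with h2
          exact hzx h2
        · cases h1
      · rintro (h1 | h1)
        · injection h1 with h2
          exact hzx h2.symm
        · cases h1
      · have h1 : a = RT.ι (D.cq x z).1 := by
          rw [hzv]
          exact ha
        exact h1
  | pole z b =>
    obtain ⟨hzx, hzv⟩ := h
    refine ⟨0, fun R _ => ?_⟩
    have hT : ∀ T : Dm D, (MPt.pole z b : MPt D RG RT).w T ≠ 0 → T = Dm.L z := by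
      intro T hT
      cases T with
      | S => exact absurd rfl hT
      | T y => exact absurd rfl hT
      | L y =>
        by_contra hne
        apply hT
        have h1 : y ≠ z := fun h => hne (by rw [h])
        simp [MPt.w, h1]
    apply Set.Subset.antisymm
    · rintro a (⟨T, hT1, hT2, hT3⟩ | ⟨T, hT1, hT2, y0, hy0, ha⟩)
      · have := hT T hT1
        subst this
        have h1 : a = RT.ι (D.cq x z).1 := hT3
        rw [hzv] at h1
        exact h1
      · exfalso
        have := hT T hT1
        subst this
        rcases hT2.1 with h1 | h1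
        · exact hT2.2 h1
        · cases h1
    · rintro a ha
      left
      refine ⟨Dm.L z, ?_, Or.inr ⟨?_, ?_, ?_⟩, ?_⟩
      · have h2 : (MPt.pole z b : MPt D RG RT).w (Dm.L z) = 1 := by
          simp [MPt.w]
        show (MPt.pole z b : MPt D RG RT).w (Dm.L z) ≠ 0
        rw [h2]
        exact one_ne_zero
      · intro h1
        exact hzx h1
      · rintro (h1 | h1)
        · cases h1
        · cases h1
      · rintro (h1 | h1)
        · cases h1
        · cases h1
      · have h1 : a = RT.ι (D.cq x z).1 := by
          rw [hzv]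
          exact ha
        exact h1

end Pool.Agent.Helper548.HB
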