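import Pool.Agent.Helper548.HB.Defs
import Pool.Agent.Helper548.HB.P_cut_iota

set_option autoImplicit false

/-! Hyperbolic spaces, Gromov boundaries, hierarchically hyperbolic spaces and groups, the
hierarchically hyperbolic boundary and its topology. -/

namespace Pool.Agent.Helper548.HB



theorem cut_right_mem (D : GData) (v : V) (g : D.G) (h : g ∈ D.ι.range) :
    D.cut (g * D.ι v) = D.cut g * v := by
  obtain ⟨w, rfl⟩ := h
  rw [← map_mul, cut_iota, cut_iota]

end Pool.Agent.Helper548.HB
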