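import Pool.Agent.Helper548.HB.Defs
import Pool.Agent.Helper548.HB.P_cut_right
import Pool.Agent.Helper548.HB.P_cut_right_mem
import Pool.Agent.Helper548.HB.P_cut_step

set_option autoImplicit false

/-! Hyperbolic spaces, Gromov boundaries, hierarchically hyperbolic spaces and groups, the
hierarchically hyperbolic boundary and its topology. -/

namespace Pool.Agent.Helper548.HB



theorem gens_lip_V (D : GData) (g : D.G) (v : V)
    (hv : FreeGroup.norm v.1 + v.2.toAdd.natAbs ≤ 1) :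
    FreeGroup.norm ((D.cut g).1⁻¹ * (D.cut (g * D.ι v)).1) +
      ((D.cut g).2⁻¹ * (D.cut (g * D.ι v)).2).toAdd.natAbs ≤ 1 := by
  by_cases hg : g ∈ D.ι.range
  · rw [cut_right_mem D v g hg, Prod.fst_mul, Prod.snd_mul, inv_mul_cancel_left,
      inv_mul_cancel_left]
    exact hv
  · rw [cut_right D v g hg, inv_mul_cancel, inv_mul_cancel, FreeGroup.norm_one, toAdd_one]
    simp

theorem gens_lip_s (D : GData) (g : D.G) :
    FreeGroup.norm ((D.cut g).1⁻¹ * (D.cut (g * D.s)).1) +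
      ((D.cut g).2⁻¹ * (D.cut (g * D.s)).2).toAdd.natAbs ≤ 1 := by
  rcases cut_step D g with h | ⟨h, -⟩ | ⟨h, -⟩
  · rw [h, inv_mul_cancel, inv_mul_cancel, FreeGroup.norm_one, toAdd_one]
    simp
  · rw [h, Prod.fst_mul, Prod.snd_mul, inv_mul_cancel_left, inv_mul_cancel_left]
    show FreeGroup.norm (FreeGroup.of true) + (Multiplicative.toAdd (1 : Multiplicative ℤ)).natAbs ≤ 1
    rw [FreeGroup.norm_of, toAdd_one]
    simp
  · rw [h, Prod.fst_mul, Prod.snd_mul, mul_inv_rev, mul_inv_rev, inv_mul_cancel_right,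
      inv_mul_cancel_right]
    show FreeGroup.norm (FreeGroup.of true)⁻¹ +
      (Multiplicative.toAdd (1 : Multiplicative ℤ)⁻¹).natAbs ≤ 1
    rw [FreeGroup.norm_inv_eq, FreeGroup.norm_of, inv_one, toAdd_one]
    simp

theorem gens_lip_mem (D : GData) (b : D.G) (hb : b ∈ D.gens) :
    b = D.ι ga ∨ b = D.ι gc ∨ b = D.ι gz ∨ b = D.s := by
  unfold GData.gens at hb
  simpa using hb

theorem gens_lip_size : (FreeGroup.norm ga.1 + ga.2.toAdd.natAbs ≤ 1) ∧
    (FreeGroup.norm gc.1 + gc.2.toAdd.natAbs ≤ 1) ∧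
    (FreeGroup.norm gz.1 + gz.2.toAdd.natAbs ≤ 1) := by
  refine ⟨?_, ?_, ?_⟩
  · show FreeGroup.norm (FreeGroup.of false) + (Multiplicative.toAdd (1 : Multiplicative ℤ)).natAbs ≤ 1
    rw [FreeGroup.norm_of, toAdd_one]
    simp
  · show FreeGroup.norm (FreeGroup.of true) + (Multiplicative.toAdd (1 : Multiplicative ℤ)).natAbs ≤ 1
    rw [FreeGroup.norm_of, toAdd_one]
    simp
  · show FreeGroup.norm (1 : H) + (Multiplicative.toAdd (Multiplicative.ofAdd (1:ℤ))).natAbs ≤ 1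
    rw [FreeGroup.norm_one, toAdd_ofAdd]
    simp

theorem gens_lip_inv (v : V) (h : FreeGroup.norm v.1 + v.2.toAdd.natAbs ≤ 1) :
    FreeGroup.norm (v⁻¹).1 + (v⁻¹).2.toAdd.natAbs ≤ 1 := by
  rw [Prod.fst_inv, Prod.snd_inv, FreeGroup.norm_inv_eq, toAdd_inv, Int.natAbs_neg]
  exact h

/-- the retraction is 1-Lipschitz -/
theorem gens_lip (D : GData) (g : D.G) (b : D.G) (hb : b ∈ D.gens ∨ b⁻¹ ∈ D.gens) :
    FreeGroup.norm ((D.cut g).1⁻¹ * (D.cut (g * b)).1) +
      ((D.cut g).2⁻¹ * (D.cut (g * b)).2).toAdd.natAbs ≤ 1 := by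
  obtain ⟨za, zc, zz⟩ := gens_lip_size
  rcases hb with hb | hb
  · rcases gens_lip_mem D b hb with rfl | rfl | rfl | rfl
    · exact gens_lip_V D g ga za
    · exact gens_lip_V D g gc zc
    · exact gens_lip_V D g gz zz
    · exact gens_lip_s D g
  · have hinv : ∀ v : V, b⁻¹ = D.ι v → b = D.ι v⁻¹ := by
      intro v hv
      rw [map_inv, ← hv, inv_inv]
    rcases gens_lip_mem D b⁻¹ hb with h | h | h | h
    · rw [hinv _ h]
      exact gens_lip_V D g _ (gens_lip_inv _ za)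
    · rw [hinv _ h]
      exact gens_lip_V D g _ (gens_lip_inv _ zc)
    · rw [hinv _ h]
      exact gens_lip_V D g _ (gens_lip_inv _ zz)
    · have h1 : b = D.s := by
        have h2 : D.s⁻¹ = D.s := inv_eq_of_mul_eq_one_left D.s_mul_s
        rw [← h2, ← h, inv_inv]
      rw [h1]
      exact gens_lip_s D g

end Pool.Agent.Helper548.HB
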