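import Pool.Agent.Helper548.HB.Defs

set_option autoImplicit false

/-! Hyperbolic spaces, Gromov boundaries, hierarchically hyperbolic spaces and groups, the
hierarchically hyperbolic boundary and its topology. -/

namespace Pool.Agent.Helper548.HB



theorem vsz_triangle (u v w : V) : vsz (u⁻¹ * w) ≤ vsz (u⁻¹ * v) + vsz (v⁻¹ * w) := by
  have h1 : u⁻¹ * w = (u⁻¹ * v) * (v⁻¹ * w) := by group
  have h2 : FreeGroup.norm (u⁻¹ * w).1 ≤
      FreeGroup.norm (u⁻¹ * v).1 + FreeGroup.norm (v⁻¹ * w).1 := by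
    rw [h1, Prod.fst_mul]
    exact FreeGroup.norm_mul_le _ _
  have h3 : (u⁻¹ * w).2.toAdd.natAbs ≤
      (u⁻¹ * v).2.toAdd.natAbs + (v⁻¹ * w).2.toAdd.natAbs := by
    rw [h1, Prod.snd_mul, toAdd_mul]
    exact Int.natAbs_add_le _ _
  unfold vsz
  omega

end Pool.Agent.Helper548.HB
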