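import Pool.Agent.Helper548.HB.Defs
import Pool.Agent.Helper548.HB.P_gens_lip
import Pool.Agent.Helper548.HB.P_gens_top
import Pool.Agent.Helper548.HB.P_vsz_triangle
import Pool.Agent.Helper548.HB.P_wd_induct

set_option autoImplicit false

/-! Hyperbolic spaces, Gromov boundaries, hierarchically hyperbolic spaces and groups, the
hierarchically hyperbolic boundary and its topology. -/

namespace Pool.Agent.Helper548.HB



theorem co_lip (D : GData) (x : D.Q) (g h : D.G) :
    (vsz ((D.co x g)⁻¹ * D.co x h) : ℝ) ≤ wd D.gens g h := by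
  have h1 := wd_induct D.gens (gens_top D)
    (fun g h => (vsz ((D.co x g)⁻¹ * D.co x h) : ℝ)) 1
    (fun g => by
      show (vsz ((D.co x g)⁻¹ * D.co x g) : ℝ) ≤ 0
      rw [inv_mul_cancel]
      simp [vsz])
    (fun a b c => by
      have := vsz_triangle (D.co x a) (D.co x b) (D.co x c)
      exact_mod_cast this)
    (fun a b hb => by
      have h2 := gens_lip D (x.out⁻¹ * a) b hb
      have h3 : vsz ((D.co x a)⁻¹ * D.co x (a * b)) ≤ 1 := by
        unfold vsz GData.co
        rw [← mul_assoc]
        exact h2
      exact_mod_cast h3) g h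
  simpa using h1

end Pool.Agent.Helper548.HB
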