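import Pool.Agent.Helper548.HB.Defs
import Pool.Agent.Helper548.HB.P_cut_left

set_option autoImplicit false

/-! Hyperbolic spaces, Gromov boundaries, hierarchically hyperbolic spaces and groups, the
hierarchically hyperbolic boundary and its topology. -/

namespace Pool.Agent.Helper548.HB



theorem co_smul (D : GData) (k : D.G) (x : D.Q) (w : V)
    (hw : D.ι w = (k • x).out⁻¹ * k * x.out) (g : D.G) :
    D.co (k • x) (k * g) = w * D.co x g := by
  unfold GData.co
  rw [← cut_left, hw]
  congr 1
  group

end Pool.Agent.Helper548.HB
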