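import Pool.Agent.Helper548.HB.Defs

set_option autoImplicit false

/-! Hyperbolic spaces, Gromov boundaries, hierarchically hyperbolic spaces and groups, the
hierarchically hyperbolic boundary and its topology. -/

namespace Pool.Agent.Helper548.HB



theorem few_near_aux {W : Type} [DecidableEq W] (Γ : SimpleGraph W) (x y : W) (w : Γ.Walk x y)
    (hw : w.length = Γ.dist x y) (hc : Γ.Connected) (q : W) (hq : q ∈ w.support) :
    w.getVert (Γ.dist x q) = q := by
  have h1 : Γ.dist x q ≤ (w.takeUntil q hq).length := SimpleGraph.dist_le _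
  have h2 : Γ.dist q y ≤ (w.dropUntil q hq).length := SimpleGraph.dist_le _
  have h3 := hc.dist_triangle (u := x) (v := q) (w := y)
  have h4 : (w.takeUntil q hq).length + (w.dropUntil q hq).length = w.length := by
    conv_rhs => rw [← w.take_spec hq]
    rw [SimpleGraph.Walk.length_append]
  have h5 : Γ.dist x q = (w.takeUntil q hq).length := by omega
  rw [h5]
  exact SimpleGraph.Walk.getVert_length_takeUntil hq

/-- a geodesic walk has at most three vertices within distance one of a given vertex -/
theorem few_near {W : Type} [DecidableEq W] (Γ : SimpleGraph W) (x y z : W) (w : Γ.Walk x y)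
    (hw : w.length = Γ.dist x y) (F : Finset W) (hF : ∀ q ∈ F, q ∈ w.support ∧ Γ.dist q z ≤ 1)
    (hc : Γ.Connected) : F.card ≤ 3 := by
  by_cases hne : F.Nonempty
  · obtain ⟨q0, hq0, hmin⟩ := F.exists_min_image (fun q => Γ.dist x q) hne
    have hinj : Set.InjOn (fun q => Γ.dist x q) (F : Set W) := by
      intro a ha b hb hab
      have h1 := few_near_aux Γ x y w hw hc a (hF a ha).1
      have h2 := few_near_aux Γ x y w hw hc b (hF b hb).1
      simp only at hab
      rw [hab] at h1
      exact h1.symm.trans h2
    have himg : F.image (fun q => Γ.dist x q) ⊆ Finset.Icc (Γ.dist x q0) (Γ.dist x q0 + 2) := by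
      intro i hi
      obtain ⟨q, hq, rfl⟩ := Finset.mem_image.1 hi
      rw [Finset.mem_Icc]
      refine ⟨hmin q hq, ?_⟩
      have h1 := hc.dist_triangle (u := x) (v := q0) (w := q)
      have h2 := hc.dist_triangle (u := q0) (v := z) (w := q)
      have h3 := (hF q hq).2
      have h4 := (hF q0 hq0).2
      rw [SimpleGraph.dist_comm (u := q) (v := z)] at h3
      omega
    have h1 := Finset.card_le_card himg
    rw [Finset.card_image_of_injOn hinj, Nat.card_Icc] at h1
    omega
  · rw [Finset.not_nonempty_iff_eq_empty] at hne
    rw [hne]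
    simp

end Pool.Agent.Helper548.HB
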