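import Pool.Agent.Helper548.HB.Defs
import Pool.Agent.Helper548.HB.P_cut_right
import Pool.Agent.Helper548.HB.P_cut_step
import Pool.Agent.Helper548.HB.P_co_eq_cq
import Pool.Agent.Helper548.HB.P_cq_step
import Pool.Agent.Helper548.HB.P_connected
import Pool.Agent.Helper548.HB.P_gens_lip
import Pool.Agent.Helper548.HB.P_gens_top
import Pool.Agent.Helper548.HB.P_vsz_triangle
import Pool.Agent.Helper548.HB.P_wd_induct
import Pool.Agent.Helper548.HB.P_few_near

set_option autoImplicit false

/-! Hyperbolic spaces, Gromov boundaries, hierarchically hyperbolic spaces and groups, the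
hierarchically hyperbolic boundary and its topology. -/

namespace Pool.Agent.Helper548.HB



theorem dl_one : vsz (1 : V) = 0 := by
  simp [vsz]

theorem dl_gens (D : GData) (b : D.G) (hb : b ∈ D.gens ∨ b⁻¹ ∈ D.gens) :
    b ∈ D.ι.range ∨ b = D.s := by
  have hs : D.s⁻¹ = D.s := by
    rw [inv_eq_iff_mul_eq_one]; exact D.s_mul_s
  have key : ∀ c : D.G, c ∈ D.gens → c ∈ D.ι.range ∨ c = D.s := by
    intro c hc
    unfold GData.gens at hc
    simp only [Finset.mem_insert, Finset.mem_singleton] at hc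
    rcases hc with h | h | h | h
    · exact Or.inl ⟨_, h.symm⟩
    · exact Or.inl ⟨_, h.symm⟩
    · exact Or.inl ⟨_, h.symm⟩
    · exact Or.inr h
  rcases hb with h | h
  · exact key b h
  · rcases key _ h with h1 | h1
    · left
      have := D.ι.range.inv_mem h1
      rwa [inv_inv] at this
    · right
      rw [← hs, ← h1, inv_inv]

theorem dl_adj (D : GData) (x : D.Q) (a : D.G) (c v : V)
    (h : (x.out)⁻¹ * a = D.ι c * D.s * D.ι v) : D.Γ.Adj x (a : D.Q) := by
  refine ⟨x.out * D.ι c, ?_, ?_⟩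
  · conv_lhs => rw [← QuotientGroup.out_eq' x]
    rw [QuotientGroup.eq]
    exact ⟨c, by group⟩
  · rw [QuotientGroup.eq]
    refine ⟨v⁻¹, ?_⟩
    have ha : a = x.out * (D.ι c * D.s * D.ι v) := by rw [← h]; group
    rw [ha, map_inv]
    group

theorem dl_near (D : GData) (x : D.Q) (a b : D.G) (hb : b ∈ D.gens ∨ b⁻¹ ∈ D.gens)
    (hx : vsz ((D.co x a)⁻¹ * D.co x (a * b)) ≠ 0) :
    D.Γ.dist x (a : D.Q) ≤ 1 ∨ D.Γ.dist x ((a * b : D.G) : D.Q) ≤ 1 := by
  have hne : D.co x (a * b) ≠ D.co x a := by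
    intro h
    apply hx
    rw [h, inv_mul_cancel, dl_one]
  have hco : D.co x (a * b) = D.cut ((x.out)⁻¹ * a * b) := by
    unfold GData.co
    rw [mul_assoc]
  rcases dl_gens D b hb with ⟨v, hv⟩ | hs
  · left
    have hr : (x.out)⁻¹ * a ∈ D.ι.range := by
      by_contra hcon
      apply hne
      rw [hco, ← hv, cut_right D v _ hcon]
      rfl
    have hxa : x = (a : D.Q) := by
      conv_lhs => rw [← QuotientGroup.out_eq' x]
      rw [QuotientGroup.eq]
      exact hr
    rw [← hxa, SimpleGraph.dist_self]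
    exact zero_le_one
  · rw [hs] at hco hne ⊢
    rcases cut_step D ((x.out)⁻¹ * a) with h | ⟨-, v, hv⟩ | ⟨-, v, hv⟩
    · exfalso
      apply hne
      rw [hco, h]
      rfl
    · left
      exact (SimpleGraph.dist_eq_one_iff_adj.2 (dl_adj D x a _ v hv)).le
    · right
      rw [mul_assoc] at hv
      exact (SimpleGraph.dist_eq_one_iff_adj.2 (dl_adj D x (a * D.s) _ v hv)).le

theorem dist_lower (D : GData) (g g' : D.G) (w : D.Γ.Walk (g : D.Q) (g' : D.Q))
    (hw : w.length = D.Γ.dist (g : D.Q) (g' : D.Q)) (F : Finset D.Q)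
    (hF : ∀ x ∈ F, x ∈ w.support) :
    (∑ x ∈ F, (vsz ((D.co x g)⁻¹ * D.co x g') : ℝ)) ≤ 8 * wd D.gens g g' := by
  classical
  refine wd_induct D.gens (gens_top D)
    (fun a b => ∑ x ∈ F, (vsz ((D.co x a)⁻¹ * D.co x b) : ℝ)) 8 ?_ ?_ ?_ g g'
  · intro a
    simp [dl_one]
  · intro a b c
    rw [← Finset.sum_add_distrib]
    refine Finset.sum_le_sum fun x _ => ?_
    exact_mod_cast vsz_triangle (D.co x a) (D.co x b) (D.co x c)
  · intro a b hb
    have h1 : ∀ x, vsz ((D.co x a)⁻¹ * D.co x (a * b)) ≤ 1 := by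
      intro x
      have := gens_lip D ((x.out)⁻¹ * a) b hb
      rw [mul_assoc] at this
      exact this
    have h2 : ∑ x ∈ F, vsz ((D.co x a)⁻¹ * D.co x (a * b)) ≤ 8 := by
      rw [← Finset.sum_filter_ne_zero]
      calc ∑ x ∈ F with vsz ((D.co x a)⁻¹ * D.co x (a * b)) ≠ 0, vsz ((D.co x a)⁻¹ * D.co x (a * b))
          ≤ ∑ x ∈ F with vsz ((D.co x a)⁻¹ * D.co x (a * b)) ≠ 0, 1 := Finset.sum_le_sum fun x _ => h1 x
        _ = (F.filter (fun x => vsz ((D.co x a)⁻¹ * D.co x (a * b)) ≠ 0)).card := by simp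
        _ ≤ (F.filter (fun x => D.Γ.dist x (a : D.Q) ≤ 1) ∪
              F.filter (fun x => D.Γ.dist x ((a * b : D.G) : D.Q) ≤ 1)).card := by
            refine Finset.card_le_card fun x hx => ?_
            rw [Finset.mem_filter] at hx
            rw [Finset.mem_union, Finset.mem_filter, Finset.mem_filter]
            rcases dl_near D x a b hb hx.2 with h | h
            · exact Or.inl ⟨hx.1, h⟩
            · exact Or.inr ⟨hx.1, h⟩
        _ ≤ 3 + 3 := by
            refine (Finset.card_union_le _ _).trans (add_le_add ?_ ?_)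
            · refine few_near D.Γ _ _ (a : D.Q) w hw _ (fun q hq => ?_) (connected D)
              rw [Finset.mem_filter] at hq
              exact ⟨hF q hq.1, hq.2⟩
            · refine few_near D.Γ _ _ ((a * b : D.G) : D.Q) w hw _ (fun q hq => ?_) (connected D)
              rw [Finset.mem_filter] at hq
              exact ⟨hF q hq.1, hq.2⟩
        _ ≤ 8 := by norm_num
    exact_mod_cast h2

end Pool.Agent.Helper548.HB
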