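import Pool.Agent.Helper548.HB.Defs

set_option autoImplicit false

/-! Hyperbolic spaces, Gromov boundaries, hierarchically hyperbolic spaces and groups, the
hierarchically hyperbolic boundary and its topology. -/

namespace Pool.Agent.Helper548.HB



theorem wd_triangle {G : Type} [Group G] (S : Finset G) (hS : Subgroup.closure (S : Set G) = ⊤)
    (x y z : G) : wlen S (x⁻¹ * z) ≤ wlen S (x⁻¹ * y) + wlen S (y⁻¹ * z) := by
  have hne : ∀ g : G, {n | ∃ l : List G, l.length = n ∧ (∀ x ∈ l, x ∈ S ∨ x⁻¹ ∈ S) ∧ l.prod = g}.Nonempty := by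
    intro g
    have hg : g ∈ (Subgroup.closure (S : Set G)).toSubmonoid := by rw [hS]; trivial
    rw [Subgroup.closure_toSubmonoid] at hg
    obtain ⟨l, hl, hp⟩ := Submonoid.exists_list_of_mem_closure hg
    exact ⟨l.length, l, rfl, fun x hx => by simpa using hl x hx, hp⟩
  obtain ⟨l₁, h1, h2, h3⟩ := Nat.sInf_mem (hne (x⁻¹ * y))
  obtain ⟨l₂, k1, k2, k3⟩ := Nat.sInf_mem (hne (y⁻¹ * z))
  have e1 : wlen S (x⁻¹ * y) = l₁.length := h1.symm
  have e2 : wlen S (y⁻¹ * z) = l₂.length := k1.symm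
  rw [e1, e2]
  apply Nat.sInf_le
  refine ⟨l₁ ++ l₂, List.length_append, ?_, ?_⟩
  · intro a ha
    rcases List.mem_append.mp ha with h | h
    · exact h2 a h
    · exact k2 a h
  · rw [List.prod_append, h3, k3]
    group

end Pool.Agent.Helper548.HB
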