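import Pool.Agent.Helper548.HB.Defs
import Pool.Agent.Helper548.HB.P_cut_iota
import Pool.Agent.Helper548.HB.P_gens_lip

set_option autoImplicit false

/-! Hyperbolic spaces, Gromov boundaries, hierarchically hyperbolic spaces and groups, the
hierarchically hyperbolic boundary and its topology. -/

namespace Pool.Agent.Helper548.HB



theorem wlen_iota (D : GData) (v : V) :
    wlen D.gens (D.ι v) = FreeGroup.norm v.1 + v.2.toAdd.natAbs := by
  have hcut1 : D.cut 1 = 1 := by
    have := cut_iota D 1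
    rwa [map_one] at this
  have lower : ∀ l : List D.G, (∀ x ∈ l, x ∈ D.gens ∨ x⁻¹ ∈ D.gens) →
      FreeGroup.norm (D.cut l.prod).1 + (D.cut l.prod).2.toAdd.natAbs ≤ l.length := by
    intro l
    induction l using List.reverseRecOn with
    | nil =>
      intro _
      simp [hcut1]
    | append_singleton l b ih =>
      intro hl
      have h1 := ih fun x hx => hl x (by simp [hx])
      have h2 := gens_lip D l.prod b (hl b (by simp))
      rw [List.prod_append, List.prod_singleton, List.length_append, List.length_singleton]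
      have h3 : FreeGroup.norm (D.cut (l.prod * b)).1 ≤ FreeGroup.norm (D.cut l.prod).1 +
          FreeGroup.norm ((D.cut l.prod).1⁻¹ * (D.cut (l.prod * b)).1) := by
        have := FreeGroup.norm_mul_le (D.cut l.prod).1 ((D.cut l.prod).1⁻¹ * (D.cut (l.prod * b)).1)
        rwa [mul_inv_cancel_left] at this
      have h4 : (D.cut (l.prod * b)).2.toAdd.natAbs ≤ (D.cut l.prod).2.toAdd.natAbs +
          ((D.cut l.prod).2⁻¹ * (D.cut (l.prod * b)).2).toAdd.natAbs := by
        have := Int.natAbs_add_le (D.cut l.prod).2.toAdd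
          ((D.cut l.prod).2⁻¹ * (D.cut (l.prod * b)).2).toAdd
        rwa [← toAdd_mul, mul_inv_cancel_left] at this
      omega
  have ha : D.ι ga ∈ D.gens := by simp [GData.gens]
  have hc : D.ι gc ∈ D.gens := by simp [GData.gens]
  have hz : D.ι gz ∈ D.gens := by simp [GData.gens]
  have upper1 : ∀ L : List (Bool × Bool), ∃ l : List D.G, l.length = L.length ∧
      (∀ x ∈ l, x ∈ D.gens ∨ x⁻¹ ∈ D.gens) ∧ l.prod = D.ι (FreeGroup.mk L, 1) := by
    intro L
    induction L with
    | nil =>
      refine ⟨[], rfl, by simp, ?_⟩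
      rw [List.prod_nil, ← map_one D.ι]
      rfl
    | cons p L ih =>
      obtain ⟨l, h1, h2, h3⟩ := ih
      have key : ∃ y : D.G, (y ∈ D.gens ∨ y⁻¹ ∈ D.gens) ∧ y = D.ι (FreeGroup.mk [p], 1) := by
        obtain ⟨b, e⟩ := p
        have hgen : D.ι ((FreeGroup.of b, 1) : V) ∈ D.gens := by
          cases b
          · exact ha
          · exact hc
        cases e
        · refine ⟨_, Or.inr ?_, rfl⟩
          rw [← map_inv]
          convert hgen using 2
          rw [Prod.inv_mk, inv_one, FreeGroup.inv_mk]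
          rfl
        · exact ⟨_, Or.inl hgen, rfl⟩
      obtain ⟨y, hy1, hy2⟩ := key
      refine ⟨y :: l, by simp [h1], ?_, ?_⟩
      · intro x hx
        rcases List.mem_cons.1 hx with rfl | hx
        · exact hy1
        · exact h2 x hx
      · rw [List.prod_cons, h3, hy2, ← map_mul, Prod.mk_mul_mk, mul_one, FreeGroup.mul_mk]
        rfl
  have upper2 : ∀ n : ℤ, ∃ l : List D.G, l.length = n.natAbs ∧
      (∀ x ∈ l, x ∈ D.gens ∨ x⁻¹ ∈ D.gens) ∧ l.prod = D.ι (1, Multiplicative.ofAdd n) := by
    intro n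
    have hpow : ∀ k : ℕ, (gz : V) ^ k = (1, Multiplicative.ofAdd (k : ℤ)) := by
      intro k
      rw [gz, Prod.pow_mk, one_pow, ← ofAdd_nsmul, nsmul_one]
    obtain ⟨k, rfl | rfl⟩ := n.eq_nat_or_neg
    · refine ⟨List.replicate k (D.ι gz), by simp, ?_, ?_⟩
      · intro x hx
        rw [List.eq_of_mem_replicate hx]
        exact Or.inl hz
      · rw [List.prod_replicate, ← map_pow, hpow]
    · refine ⟨List.replicate k (D.ι gz)⁻¹, by simp, ?_, ?_⟩
      · intro x hx
        rw [List.eq_of_mem_replicate hx, inv_inv]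
        exact Or.inr hz
      · rw [List.prod_replicate, inv_pow, ← map_pow, hpow, ← map_inv, Prod.inv_mk, inv_one]
        rfl
  obtain ⟨l1, a1, a2, a3⟩ := upper1 v.1.toWord
  obtain ⟨l2, b1, b2, b3⟩ := upper2 v.2.toAdd
  have hmem : (FreeGroup.norm v.1 + v.2.toAdd.natAbs) ∈
      {n | ∃ l : List D.G, l.length = n ∧ (∀ x ∈ l, x ∈ D.gens ∨ x⁻¹ ∈ D.gens) ∧ l.prod = D.ι v} := by
    refine ⟨l1 ++ l2, ?_, ?_, ?_⟩
    · rw [List.length_append, a1, b1]; rfl
    · intro x hx
      rcases List.mem_append.1 hx with h | h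
      · exact a2 x h
      · exact b2 x h
    · rw [List.prod_append, a3, b3, ← map_mul, Prod.mk_mul_mk, mul_one, one_mul, FreeGroup.mk_toWord]
      rfl
  apply le_antisymm
  · exact Nat.sInf_le hmem
  · obtain ⟨l, h1, h2, h3⟩ := Nat.sInf_mem ⟨_, hmem⟩
    have h4 := lower l h2
    rw [h3, cut_iota, h1] at h4
    exact h4

end Pool.Agent.Helper548.HB
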