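import Pool.Agent.Helper548.HB.Defs
import Pool.Agent.Helper548.HB.P_co_eq_cq
import Pool.Agent.Helper548.HB.P_co_spec
import Pool.Agent.Helper548.HB.P_adj_eq
import Pool.Agent.Helper548.HB.P_adj_mk
import Pool.Agent.Helper548.HB.P_cq_step
import Pool.Agent.Helper548.HB.P_connected
import Pool.Agent.Helper548.HB.P_walk_avoid
import Pool.Agent.Helper548.HB.P_walk_geo
import Pool.Agent.Helper548.HB.P_wlen_iota
import Pool.Agent.Helper548.HB.P_gens_top
import Pool.Agent.Helper548.HB.P_vsz_triangle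
import Pool.Agent.Helper548.HB.P_wd_triangle

set_option autoImplicit false

/-! Hyperbolic spaces, Gromov boundaries, hierarchically hyperbolic spaces and groups, the
hierarchically hyperbolic boundary and its topology. -/

namespace Pool.Agent.Helper548.HB



theorem dist_upper_vsz_one : vsz (1 : V) = 0 := by
  simp [vsz]

theorem dist_upper_vsz_gc : vsz gc = 1 := by
  simp [vsz, gc]

theorem dist_upper_vsz_gc_inv : vsz gc⁻¹ = 1 := by
  simp [vsz, gc]

theorem dist_upper_near (u v : V) (h : u = v ∨ v = u * gc ∨ u = v * gc) :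
    vsz (u⁻¹ * v) ≤ 1 ∧ vsz (v⁻¹ * u) ≤ 1 := by
  rcases h with h | h | h
  · rw [h, inv_mul_cancel, dist_upper_vsz_one]
    exact ⟨Nat.zero_le _, Nat.zero_le _⟩
  · rw [h, inv_mul_cancel_left, mul_inv_rev, inv_mul_cancel_right, dist_upper_vsz_gc,
      dist_upper_vsz_gc_inv]
    exact ⟨le_rfl, le_rfl⟩
  · rw [h, inv_mul_cancel_left, mul_inv_rev, inv_mul_cancel_right, dist_upper_vsz_gc,
      dist_upper_vsz_gc_inv]
    exact ⟨le_rfl, le_rfl⟩

theorem dist_upper_E (D : GData) (x y y'' y' : D.Q) (p : D.Γ.Walk y y'')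
    (hp : ∀ q ∈ p.support, 2 ≤ D.Γ.dist x q) (h : D.Γ.Adj y'' y') (hne : y' ≠ x) :
    vsz ((D.cq x y)⁻¹ * D.cq x y') ≤ 1 ∧ vsz ((D.cq x y')⁻¹ * D.cq x y) ≤ 1 := by
  have h1 := walk_avoid D x y y'' p hp
  have h2 : y'' ≠ x := by
    intro he
    have := hp y'' p.end_mem_support
    rw [he, SimpleGraph.dist_self] at this
    omega
  rw [h1]
  apply dist_upper_near
  rcases cq_step D x y'' y' h2 hne h with h3 | h3 | h3
  · exact Or.inl h3
  · exact Or.inr (Or.inl h3.1)
  · exact Or.inr (Or.inr h3.1)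

/-- subwalks -/
theorem dist_upper_sub (D : GData) (y : ℕ → D.Q) (m : ℕ)
    (hadj : ∀ i < m, D.Γ.Adj (y i) (y (i + 1))) (i j : ℕ) (hij : i ≤ j) (hj : j ≤ m) :
    ∃ p : D.Γ.Walk (y i) (y j), p.length = j - i ∧
      ∀ q ∈ p.support, ∃ k, i ≤ k ∧ k ≤ j ∧ q = y k := by
  induction j, hij using Nat.le_induction with
  | base =>
    refine ⟨SimpleGraph.Walk.nil, by simp, ?_⟩
    intro q hq
    rw [SimpleGraph.Walk.support_nil, List.mem_singleton] at hq
    exact ⟨i, le_rfl, le_rfl, hq⟩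
  | succ j hij ih =>
    obtain ⟨p, hp, hs⟩ := ih (by omega)
    refine ⟨p.concat (hadj j (by omega)), ?_, ?_⟩
    · rw [SimpleGraph.Walk.length_concat, hp]; omega
    · intro q hq
      rw [SimpleGraph.Walk.support_concat, List.mem_append,
        List.mem_singleton] at hq
      rcases hq with hq | hq
      · obtain ⟨k, h1, h2, h3⟩ := hs q hq
        exact ⟨k, h1, by omega, h3⟩
      · exact ⟨j + 1, by omega, le_rfl, hq⟩

theorem dist_upper_dist (D : GData) (y : ℕ → D.Q) (m : ℕ)
    (hadj : ∀ i < m, D.Γ.Adj (y i) (y (i + 1))) (hd : D.Γ.dist (y 0) (y m) = m) (i j : ℕ)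
    (hij : i ≤ j) (hj : j ≤ m) : D.Γ.dist (y i) (y j) = j - i := by
  have hc := connected D
  obtain ⟨p1, h1, -⟩ := dist_upper_sub D y m hadj 0 i (Nat.zero_le _) (by omega)
  obtain ⟨p2, h2, -⟩ := dist_upper_sub D y m hadj i j hij hj
  obtain ⟨p3, h3, -⟩ := dist_upper_sub D y m hadj j m hj le_rfl
  have e1 := SimpleGraph.dist_le p1
  have e2 := SimpleGraph.dist_le p2
  have e3 := SimpleGraph.dist_le p3
  have t1 := hc.dist_triangle (u := y 0) (v := y i) (w := y m)
  have t2 := hc.dist_triangle (u := y i) (v := y j) (w := y m)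
  omega

theorem dist_upper_in (D : GData) (x : D.Q) (a b : D.G) (ha : (a : D.Q) = x) (v : V)
    (hb : b = x.out * D.ι v) : wlen D.gens (a⁻¹ * b) = vsz ((D.co x a)⁻¹ * v) := by
  have h := co_spec D x a ha
  obtain ⟨c, hc⟩ : ∃ c, c = D.co x a := ⟨_, rfl⟩
  rw [← hc] at h ⊢
  have h1 : a⁻¹ * b = D.ι (c⁻¹ * v) := by
    rw [← h, hb, map_mul, map_inv]
    group
  rw [h1, wlen_iota]
  rfl

theorem dist_upper_enter (D : GData) (x y : D.Q) (h : D.Γ.Adj x y) :
    ((x.out * D.ι (D.cq x y) * D.s : D.G) : D.Q) = y ∧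
      D.co y (x.out * D.ι (D.cq x y) * D.s) = D.cq y x := by
  have h1 := adj_eq D x y h
  refine ⟨h1.symm, ?_⟩
  obtain ⟨a, ha⟩ : ∃ a, a = x.out * D.ι (D.cq x y) * D.s := ⟨_, rfl⟩
  rw [← ha] at h1 ⊢
  have h2 := co_spec D y a h1.symm
  have h3 := (adj_mk D y (D.co y a)).2
  rw [h2] at h3
  have h4 : ((a * D.s : D.G) : D.Q) = x := by
    have h5 : a * D.s = x.out * D.ι (D.cq x y) := by
      rw [ha, mul_assoc, D.s_mul_s, mul_one]
    have h6 : D.ι (D.cq x y) ∈ D.ι.range := MonoidHom.mem_range.2 ⟨D.cq x y, rfl⟩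
    rw [h5, QuotientGroup.mk_mul_of_mem _ h6]
    exact QuotientGroup.out_eq' x
  rw [h4] at h3
  exact h3.symm

theorem dist_upper_s (D : GData) : wlen D.gens D.s ≤ 1 := by
  apply Nat.sInf_le
  refine ⟨[D.s], rfl, ?_, List.prod_singleton⟩
  intro x hx
  left
  rw [List.mem_singleton] at hx
  rw [hx]
  unfold GData.gens
  simp

theorem dist_upper_main (D : GData) (g g' : D.G) (y : ℕ → D.Q) (m : ℕ)
    (h0 : y 0 = (g : D.Q)) (hm : y m = (g' : D.Q))
    (hadj : ∀ i < m, D.Γ.Adj (y i) (y (i + 1))) (hd : D.Γ.dist (y 0) (y m) = m) (i : ℕ)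
    (hi : i ≤ m) : ∃ a : D.G, (a : D.Q) = y i ∧
      vsz ((D.co (y i) a)⁻¹ * D.co (y i) g) ≤ 1 ∧
      wlen D.gens (g⁻¹ * a) ≤ i + ∑ k ∈ Finset.range i,
        (vsz ((D.co (y k) g)⁻¹ * D.co (y k) g') + 4) := by
  have hdist := dist_upper_dist D y m hadj hd
  have hne : ∀ i j, i < j → j ≤ m → y i ≠ y j := by
    intro i j hij hj he
    have := hdist i j hij.le hj
    rw [he, SimpleGraph.dist_self] at this
    omega
  induction i with
  | zero =>
    refine ⟨g, h0.symm, ?_, ?_⟩
    · rw [inv_mul_cancel, dist_upper_vsz_one]; exact Nat.zero_le _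
    · rw [inv_mul_cancel]
      refine le_trans ?_ (Nat.zero_le _)
      apply Nat.sInf_le
      exact ⟨[], rfl, fun x hx => absurd hx (List.not_mem_nil), List.prod_nil⟩
  | succ i ih =>
    obtain ⟨a, ha1, ha2, ha3⟩ := ih (by omega)
    have hadj' := hadj i (by omega)
    obtain ⟨he1, he2⟩ := dist_upper_enter D (y i) (y (i + 1)) hadj'
    refine ⟨(y i).out * D.ι (D.cq (y i) (y (i + 1))) * D.s, he1, ?_, ?_⟩
    · rw [he2, co_eq_cq D (y (i + 1)) g (by rw [← h0]; exact hne 0 (i + 1) (by omega) hi), ← h0]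
      rcases Nat.eq_zero_or_pos i with hi0 | hi0
      · subst hi0
        rw [inv_mul_cancel, dist_upper_vsz_one]; exact Nat.zero_le _
      · obtain ⟨p, -, hs⟩ := dist_upper_sub D y m hadj 0 (i - 1) (Nat.zero_le _) (by omega)
        refine (dist_upper_E D (y (i + 1)) (y 0) (y (i - 1)) (y i) p ?_ ?_ ?_).2
        · intro q hq
          obtain ⟨k, -, hk, rfl⟩ := hs q hq
          rw [SimpleGraph.dist_comm, hdist k (i + 1) (by omega) hi]
          omega
        · have := hadj (i - 1) (by omega)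
          rw [Nat.sub_add_cancel hi0] at this
          exact this
        · exact hne i (i + 1) (Nat.lt_succ_self i) hi
    · -- the length
      have hS := gens_top D
      obtain ⟨e, he⟩ : ∃ e, e = (y i).out * D.ι (D.cq (y i) (y (i + 1))) := ⟨_, rfl⟩
      rw [← he]
      have t1 := wd_triangle D.gens hS g a (e * D.s)
      have t2 := wd_triangle D.gens hS a e (e * D.s)
      rw [inv_mul_cancel_left] at t2
      have t3 := dist_upper_s D
      have t4 := dist_upper_in D (y i) a e ha1 _ he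
      have t5 := vsz_triangle (D.co (y i) a) (D.co (y i) g) (D.cq (y i) (y (i + 1)))
      have t6 := vsz_triangle (D.co (y i) g) (D.co (y i) g') (D.cq (y i) (y (i + 1)))
      have t7 : vsz ((D.co (y i) g')⁻¹ * D.cq (y i) (y (i + 1))) ≤ 1 := by
        rw [co_eq_cq D (y i) g' (by rw [← hm]; exact (hne i m (by omega) le_rfl).symm), ← hm]
        rcases Nat.eq_or_lt_of_le hi with hi0 | hi0
        · rw [hi0, inv_mul_cancel, dist_upper_vsz_one]; exact Nat.zero_le _
        · obtain ⟨p, -, hs⟩ := dist_upper_sub D y m hadj (i + 2) m (by omega) le_rfl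
          refine (dist_upper_E D (y i) (y m) (y (i + 2)) (y (i + 1)) p.reverse ?_ ?_ ?_).1
          · intro q hq
            rw [SimpleGraph.Walk.support_reverse, List.mem_reverse] at hq
            obtain ⟨k, hk, hk2, rfl⟩ := hs q hq
            rw [hdist i k (by omega) hk2]
            omega
          · exact (hadj (i + 1) (by omega)).symm
          · exact (hne i (i + 1) (Nat.lt_succ_self i) hi).symm
      rw [Finset.sum_range_succ]
      omega

theorem dist_upper (D : GData) (g g' : D.G) (w : D.Γ.Walk (g : D.Q) (g' : D.Q))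
    (hw : w.length = D.Γ.dist (g : D.Q) (g' : D.Q)) (F : Finset D.Q)
    (hF : ∀ x ∈ w.support, x ∈ F) :
    wd D.gens g g' ≤ w.length + ∑ x ∈ F, ((vsz ((D.co x g)⁻¹ * D.co x g') : ℝ) + 4) := by
  classical
  have h0 : w.getVert 0 = (g : D.Q) := w.getVert_zero
  have hm : w.getVert w.length = (g' : D.Q) := w.getVert_length
  have hadj : ∀ i < w.length, D.Γ.Adj (w.getVert i) (w.getVert (i + 1)) :=
    fun i hi => w.adj_getVert_succ hi
  have hd : D.Γ.dist (w.getVert 0) (w.getVert w.length) = w.length := by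
    rw [h0, hm, hw]
  obtain ⟨a, ha1, ha2, ha3⟩ := dist_upper_main D g g' w.getVert w.length h0 hm hadj hd w.length
    le_rfl
  have hS := gens_top D
  have t1 := wd_triangle D.gens hS g a g'
  have t2 := dist_upper_in D (w.getVert w.length) a g' ha1 (D.co (w.getVert w.length) g')
    (co_spec D (w.getVert w.length) g' hm.symm).symm
  have t3 := vsz_triangle (D.co (w.getVert w.length) a) (D.co (w.getVert w.length) g)
    (D.co (w.getVert w.length) g')
  have hnat : wlen D.gens (g⁻¹ * g') ≤ w.length + ∑ k ∈ Finset.range (w.length + 1),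
      (vsz ((D.co (w.getVert k) g)⁻¹ * D.co (w.getVert k) g') + 4) := by
    rw [Finset.sum_range_succ]
    omega
  have hinj : Set.InjOn w.getVert (Finset.range (w.length + 1) : Set ℕ) := by
    intro i hi j hj hij
    have hi' := Finset.mem_range.1 (Finset.mem_coe.1 hi)
    have hj' := Finset.mem_range.1 (Finset.mem_coe.1 hj)
    rcases le_total i j with h | h
    · have := dist_upper_dist D w.getVert w.length hadj hd i j h (by omega)
      rw [hij, SimpleGraph.dist_self] at this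
      omega
    · have := dist_upper_dist D w.getVert w.length hadj hd j i h (by omega)
      rw [hij, SimpleGraph.dist_self] at this
      omega
  have hsum : ∑ k ∈ Finset.range (w.length + 1),
      (vsz ((D.co (w.getVert k) g)⁻¹ * D.co (w.getVert k) g') + 4) ≤
      ∑ x ∈ F, (vsz ((D.co x g)⁻¹ * D.co x g') + 4) := by
    rw [← Finset.sum_image (f := fun x => vsz ((D.co x g)⁻¹ * D.co x g') + 4) hinj]
    refine Finset.sum_le_sum_of_subset ?_
    intro x hx
    obtain ⟨k, -, rfl⟩ := Finset.mem_image.1 hx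
    exact hF _ (w.getVert_mem_support k)
  have hfin : wlen D.gens (g⁻¹ * g') ≤ w.length + ∑ x ∈ F,
      (vsz ((D.co x g)⁻¹ * D.co x g') + 4) := hnat.trans (Nat.add_le_add_left hsum _)
  have hR : ((wlen D.gens (g⁻¹ * g') : ℕ) : ℝ) ≤ ((w.length + ∑ x ∈ F,
      (vsz ((D.co x g)⁻¹ * D.co x g') + 4) : ℕ) : ℝ) := by exact_mod_cast hfin
  rw [wd]
  push_cast at hR
  exact hR

end Pool.Agent.Helper548.HB
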