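import Mathlib
set_option autoImplicit false

namespace Pool.Agent.Helper548.HB

/-- contiguous parts of reduced words are reduced -/
theorem red_sub {α : Type} {L₁ L₂ : List (α × Bool)} (h : FreeGroup.IsReduced L₂)
    (h' : L₁ <:+: L₂) : FreeGroup.IsReduced L₁ := by
  obtain ⟨s, t, rfl⟩ := h'
  unfold FreeGroup.IsReduced at h ⊢
  rw [List.append_assoc] at h
  exact (h.right_of_append).left_of_append

end Pool.Agent.Helper548.HB
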