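import Pool.Agent.Helper548.HB.Defs
import Pool.Agent.Helper548.HB.RedSub

set_option autoImplicit false

/-! Hyperbolic spaces, Gromov boundaries, hierarchically hyperbolic spaces and groups, the
hierarchically hyperbolic boundary and its topology. -/

namespace Pool.Agent.Helper548.HB



theorem head_step_c (w : List (Bool × Bool)) (hw : FreeGroup.IsReduced w) (ε b : Bool) :
    (FreeGroup.reduce (w ++ [(true, ε)])).head? = some (false, b) ↔ w.head? = some (false, b) := by
  rcases List.eq_nil_or_concat w with rfl | ⟨u, y, rfl⟩
  · simp
  · rw [List.concat_eq_append] at hw ⊢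
    by_cases hy : y = (true, !ε)
    · subst hy
      have hu : FreeGroup.IsReduced u := red_sub hw ⟨[], [(true, !ε)], by simp⟩
      have hstep : FreeGroup.Red.Step (u ++ [(true, !ε)] ++ [(true, ε)]) u := by
        have h1 : FreeGroup.Red.Step (u ++ (true, !ε) :: (true, !(!ε)) :: []) (u ++ []) :=
          FreeGroup.Red.Step.not
        simpa using h1
      rw [FreeGroup.reduce.Step.eq hstep, hu.reduce_eq]
      cases u with
      | nil => simp
      | cons a u => simp
    · have hr : FreeGroup.IsReduced (u ++ [y] ++ [(true, ε)]) := by
        refine List.IsChain.append hw (List.isChain_singleton _) ?_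
        intro x hx z hz h1
        simp only [List.getLast?_append, List.getLast?_singleton, Option.some_or, Option.mem_def,
          Option.some.injEq] at hx
        simp only [List.head?_cons, Option.mem_def, Option.some.injEq] at hz
        subst hx hz
        by_contra h2
        apply hy
        obtain ⟨y1, y2⟩ := y
        simp only at h1 h2
        subst h1
        cases y2 <;> cases ε <;> simp_all
      rw [hr.reduce_eq]
      cases u with
      | nil => simp
      | cons a u => simp

theorem head_mul_c (g : H) (b : Bool) :
    (g * FreeGroup.of true).toWord.head? = some (false, b) ↔ g.toWord.head? = some (false, b) := by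
  rw [FreeGroup.toWord_mul, FreeGroup.toWord_of]
  exact head_step_c _ FreeGroup.isReduced_toWord _ _

theorem head_mul_cinv (g : H) (b : Bool) :
    (g * (FreeGroup.of true)⁻¹).toWord.head? = some (false, b) ↔ g.toWord.head? = some (false, b) := by
  rw [FreeGroup.toWord_mul, FreeGroup.toWord_inv, FreeGroup.toWord_of]
  exact head_step_c _ FreeGroup.isReduced_toWord _ _

theorem e_HS_c (k h : H) (b : Bool) (j : ℤ) :
    h * FreeGroup.of true ^ j ∈ HS k b ↔ h ∈ HS k b := by
  show (k⁻¹ * (h * FreeGroup.of true ^ j)).toWord.head? = some (false, b)
    ↔ (k⁻¹ * h).toWord.head? = some (false, b)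
  rw [← mul_assoc]
  induction j using Int.induction_on with
  | zero => rw [zpow_zero, mul_one]
  | succ i ih => rw [zpow_add_one, ← mul_assoc, head_mul_c, ih]
  | pred i ih => rw [zpow_sub_one, ← mul_assoc, head_mul_cinv, ih]

end Pool.Agent.Helper548.HB
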