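import Pool.Agent.Helper548.HB.Defs
import Pool.Agent.Helper548.HB.P_TG_dist
import Pool.Agent.Helper548.HB.P_pb_of_rep
import Pool.Agent.Helper548.HB.P_near_of_pb
import Pool.Agent.Helper548.HB.P_pb_move
import Pool.Agent.Helper548.HB.P_pb_near
import Pool.Agent.Helper548.HB.P_pb_dist
import Pool.Agent.Helper548.HB.P_hyp_RT

set_option autoImplicit false

/-! Hyperbolic spaces, Gromov boundaries, hierarchically hyperbolic spaces and groups, the
hierarchically hyperbolic boundary and its topology. -/

namespace Pool.Agent.Helper548.HB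



theorem ea_mk_replicate (x : Bool × Bool) (n : ℕ) :
    FreeGroup.mk (List.replicate n x) = (FreeGroup.mk [x]) ^ n := by
  induction n with
  | zero => rfl
  | succ n ih =>
    rw [List.replicate_succ, pow_succ', ← ih, FreeGroup.mul_mk]
    rfl

theorem ea_cpow (b : Bool) (n : ℕ) :
    (FreeGroup.of true : H) ^ (if b then (n : ℤ) else -(n : ℤ)) = FreeGroup.mk (List.replicate n (true, b)) := by
  rw [ea_mk_replicate]
  cases b
  · simp only [Bool.false_eq_true, if_false]
    rw [zpow_neg, zpow_natCast, ← inv_pow]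
    rfl
  · simp only [if_true]
    rw [zpow_natCast]
    rfl

theorem ea_key (h0 : H) : ∃ h : H, ∀ (b : Bool) (n : ℕ),
    FreeGroup.norm (h * FreeGroup.of true ^ (if b then (n : ℤ) else -(n : ℤ))) = FreeGroup.norm h0 + 1 + n ∧
    FreeGroup.norm (h0⁻¹ * (h * FreeGroup.of true ^ (if b then (n : ℤ) else -(n : ℤ)))) ≤ 1 + n := by
  obtain ⟨e, he⟩ : ∃ e : Bool, ∀ x ∈ h0.toWord.getLast?, x.1 = false → x.2 = e := by
    cases hg : h0.toWord.getLast? with
    | none => exact ⟨true, fun x hx => by simp at hx⟩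
    | some y =>
      refine ⟨y.2, fun x hx _ => ?_⟩
      have : y = x := by simpa using hx
      rw [this]
  refine ⟨h0 * FreeGroup.mk [(false, e)], fun b n => ?_⟩
  rw [ea_cpow]
  have hmk : h0 * FreeGroup.mk [(false, e)] * FreeGroup.mk (List.replicate n (true, b)) =
      h0 * FreeGroup.mk ((false, e) :: List.replicate n (true, b)) := by
    rw [mul_assoc, FreeGroup.mul_mk]
    rfl
  rw [hmk]
  constructor
  · have h1 : h0 * FreeGroup.mk ((false, e) :: List.replicate n (true, b)) =
        FreeGroup.mk (h0.toWord ++ ((false, e) :: List.replicate n (true, b))) := by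
      rw [← FreeGroup.mul_mk, FreeGroup.mk_toWord]
    have hred : FreeGroup.IsReduced (h0.toWord ++ ((false, e) :: List.replicate n (true, b))) := by
      unfold FreeGroup.IsReduced
      rw [List.isChain_append]
      refine ⟨FreeGroup.isReduced_toWord, ?_, ?_⟩
      · rw [List.isChain_cons]
        refine ⟨?_, List.isChain_replicate_of_rel _ (fun _ => rfl)⟩
        intro y hy
        cases n with
        | zero => simp at hy
        | succ n =>
          rw [List.replicate_succ, List.head?_cons, Option.mem_some_iff] at hy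
          rw [← hy]
          intro h
          exact absurd h (by simp)
      · intro x hx y hy
        rw [List.head?_cons, Option.mem_some_iff] at hy
        rw [← hy]
        intro h
        exact he x hx h
    rw [h1]
    unfold FreeGroup.norm
    rw [FreeGroup.toWord_mk, hred.reduce_eq, List.length_append, List.length_cons, List.length_replicate]
    omega
  · rw [inv_mul_cancel_left]
    refine FreeGroup.norm_mk_le.trans ?_
    rw [List.length_cons, List.length_replicate]
    omega

theorem e_approx (RT : Realz TG H) (ξ : Boundary RT.X) (R : ℝ) :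
    ∃ h : H, ∀ b ξ', IsCEnd RT h b ξ' → Near (RT.ι 1) R ξ ξ' := by
  induction ξ using Quot.ind with
  | mk u => ?_
  obtain ⟨N, hN⟩ := u.conv (RT.ι 1) (R + 50)
  obtain ⟨h0, hh0⟩ := RT.dense (u.seq N)
  have hpb : PB (RT.ι 1) (R + 49) (RT.ι h0) (Quot.mk _ u) := by
    refine ⟨u, rfl, N, fun n hn => ?_⟩
    have h1 := hN N le_rfl n hn
    unfold gprod at h1 ⊢
    have h2 := dist_triangle (u.seq N) (RT.ι h0) (RT.ι 1)
    have h3 := dist_triangle (RT.ι h0) (u.seq N) (u.seq n)
    rw [dist_comm (RT.ι h0) (u.seq N)] at h3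
    linarith
  obtain ⟨h, hh⟩ := ea_key h0
  refine ⟨h, fun b ξ' hξ' => ?_⟩
  have hn0 := pb_dist hpb
  have hd : ∀ a b : H, dist (RT.ι a) (RT.ι b) = (FreeGroup.norm (a⁻¹ * b) : ℝ) := by
    intro a b
    rw [RT.dist_ι, TG_dist]
  obtain ⟨N', hN'⟩ := hξ' (R + 49)
  have h1 := hN' N' le_rfl
  obtain ⟨k1, k2⟩ := hh b N'
  have hg : R + 49 ≤ gprod (RT.ι 1) (RT.ι (h * FreeGroup.of true ^ (if b then (N' : ℤ) else -(N' : ℤ)))) (RT.ι h0) := by
    have e1 : dist (RT.ι (h * FreeGroup.of true ^ (if b then (N' : ℤ) else -(N' : ℤ)))) (RT.ι 1) =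
        (FreeGroup.norm h0 : ℝ) + 1 + N' := by
      rw [dist_comm, hd, inv_one, one_mul, k1]
      push_cast
      ring
    have e2 : dist (RT.ι h0) (RT.ι 1) = (FreeGroup.norm h0 : ℝ) := by
      rw [dist_comm, hd, inv_one, one_mul]
    have e3 : dist (RT.ι (h * FreeGroup.of true ^ (if b then (N' : ℤ) else -(N' : ℤ)))) (RT.ι h0) ≤ 1 + N' := by
      rw [dist_comm, hd]
      exact_mod_cast k2
    rw [hd, inv_one, one_mul] at hn0
    unfold gprod
    linarith
  have h2 := pb_move (hyp_RT RT) h1 hg
  have h3 := near_of_pb (hyp_RT RT) (hpb.mono (by linarith : R + 49 - 10 ≤ R + 49)) h2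
  exact h3.mono (by linarith)

end Pool.Agent.Helper548.HB
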