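import Pool.Agent.Helper548.HB.Defs
import Pool.Agent.Helper548.HB.P_TG_dist
import Pool.Agent.Helper548.HB.P_pb_of_rep
import Pool.Agent.Helper548.HB.P_hyp_RT

set_option autoImplicit false

/-! Hyperbolic spaces, Gromov boundaries, hierarchically hyperbolic spaces and groups, the
hierarchically hyperbolic boundary and its topology. -/

namespace Pool.Agent.Helper548.HB



theorem e_cend_ne (RT : Realz TG H) (h : H) (ξ ξ' : Boundary RT.X)
    (h1 : IsCEnd RT h true ξ) (h2 : IsCEnd RT h false ξ') : ξ ≠ ξ' := by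
  rintro rfl
  have hyp := hyp_RT RT
  obtain ⟨N1, hN1⟩ := h1 ((FreeGroup.norm h : ℝ) + 21)
  obtain ⟨N2, hN2⟩ := h2 ((FreeGroup.norm h : ℝ) + 21)
  obtain ⟨m, hm1, hm2⟩ : ∃ m : ℕ, N1 ≤ m ∧ N2 ≤ m := ⟨max N1 N2, le_max_left _ _, le_max_right _ _⟩
  have a1 := hN1 m hm1
  have a2 := hN2 m hm2
  simp only [if_true] at a1
  simp only [Bool.false_eq_true, if_false] at a2
  obtain ⟨v, hv, _⟩ := id a1
  obtain ⟨K1, hK1⟩ := pb_of_rep hyp a1 v hv
  obtain ⟨K2, hK2⟩ := pb_of_rep hyp a2 v hv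
  have b1 := hK1 (max K1 K2) (le_max_left _ _)
  have b2 := hK2 (max K1 K2) (le_max_right _ _)
  set z := v.seq (max K1 K2) with hz
  set p := RT.ι (h * FreeGroup.of true ^ ((m : ℕ) : ℤ)) with hp
  set q := RT.ι (h * FreeGroup.of true ^ (-(m : ℤ))) with hq
  have b3 := hyp (RT.ι 1) p q z
  have b4 : gprod (RT.ι 1) z q = gprod (RT.ι 1) q z := by
    unfold gprod
    rw [dist_comm z q]
    ring
  rw [b4] at b3
  have b5 : (FreeGroup.norm h : ℝ) + 21 - 10 ≤ min (gprod (RT.ι 1) p z) (gprod (RT.ι 1) q z) :=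
    le_min b1 b2
  have b6 : (FreeGroup.norm h : ℝ) + 1 ≤ gprod (RT.ι 1) p q := by linarith
  have d1 : dist p (RT.ι 1) ≤ (FreeGroup.norm h : ℝ) + m := by
    rw [hp, RT.dist_ι, TG_dist, mul_one, FreeGroup.norm_inv_eq]
    have := FreeGroup.norm_mul_le h (FreeGroup.of true ^ ((m : ℕ) : ℤ))
    rw [zpow_natCast, FreeGroup.norm_of_pow] at this
    rw [zpow_natCast]
    exact_mod_cast this
  have d2 : dist q (RT.ι 1) ≤ (FreeGroup.norm h : ℝ) + m := by
    rw [hq, RT.dist_ι, TG_dist, mul_one, FreeGroup.norm_inv_eq]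
    have := FreeGroup.norm_mul_le h (FreeGroup.of true ^ (-(m : ℤ)))
    rw [zpow_neg, FreeGroup.norm_inv_eq, zpow_natCast, FreeGroup.norm_of_pow] at this
    rw [zpow_neg, zpow_natCast]
    exact_mod_cast this
  have d3 : dist p q = (m : ℝ) + m := by
    rw [hp, hq, RT.dist_ι, TG_dist]
    have : (h * FreeGroup.of true ^ ((m : ℕ) : ℤ))⁻¹ * (h * FreeGroup.of true ^ (-(m : ℤ))) =
        (FreeGroup.of true ^ (m + m))⁻¹ := by
      rw [mul_inv_rev, mul_assoc, inv_mul_cancel_left, zpow_neg, zpow_natCast, ← mul_inv_rev,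
        ← pow_add]
    rw [this, FreeGroup.norm_inv_eq, FreeGroup.norm_of_pow]
    push_cast
    ring
  have b7 : gprod (RT.ι 1) p q ≤ FreeGroup.norm h := by
    unfold gprod
    rw [d3]
    linarith
  linarith

end Pool.Agent.Helper548.HB
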