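import Pool.Agent.Helper548.HB.Defs
import Pool.Agent.Helper548.HB.P_TG_dist
import Pool.Agent.Helper548.HB.P_pb_of_rep
import Pool.Agent.Helper548.HB.P_near_of_pb
import Pool.Agent.Helper548.HB.P_pb_move
import Pool.Agent.Helper548.HB.P_pb_vert
import Pool.Agent.Helper548.HB.P_hyp_RT

set_option autoImplicit false

/-! Hyperbolic spaces, Gromov boundaries, hierarchically hyperbolic spaces and groups, the
hierarchically hyperbolic boundary and its topology. -/

namespace Pool.Agent.Helper548.HB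



theorem e_side_isRed_append {L1 L2 : List (Bool × Bool)} (h1 : FreeGroup.IsReduced L1)
    (h2 : FreeGroup.IsReduced L2) (hne : L1.head? ≠ L2.head?) :
    FreeGroup.IsReduced (FreeGroup.invRev L1 ++ L2) := by
  have h3 : FreeGroup.IsReduced (FreeGroup.invRev L1) := by
    have := FreeGroup.isReduced_toWord (x := (FreeGroup.mk L1)⁻¹)
    rw [FreeGroup.toWord_inv, FreeGroup.toWord_mk, h1.reduce_eq] at this
    exact this
  unfold FreeGroup.IsReduced at *
  rw [List.isChain_append]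
  refine ⟨h3, h2, ?_⟩
  intro x hx y hy hxy
  have hx' : x ∈ (FreeGroup.invRev L1).getLast? := hx
  unfold FreeGroup.invRev at hx'
  rw [List.getLast?_reverse, List.head?_map] at hx'
  rw [Option.mem_def, Option.map_eq_some_iff] at hx'
  obtain ⟨a, ha, rfl⟩ := hx'
  rw [Option.mem_def] at hy
  rw [ha, hy] at hne
  have : a ≠ y := fun h => hne (by rw [h])
  obtain ⟨a1, a2⟩ := a
  obtain ⟨y1, y2⟩ := y
  simp only at hxy ⊢
  subst hxy
  cases a2 <;> cases y2 <;> simp_all

theorem e_side_norm {u w : H} (hne : u.toWord.head? ≠ w.toWord.head?) :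
    FreeGroup.norm (u⁻¹ * w) = FreeGroup.norm u + FreeGroup.norm w := by
  unfold FreeGroup.norm
  have h := e_side_isRed_append (FreeGroup.isReduced_toWord (x := u))
    (FreeGroup.isReduced_toWord (x := w)) hne
  rw [FreeGroup.toWord_mul, FreeGroup.toWord_inv, h.reduce_eq, List.length_append,
    FreeGroup.invRev_length]

theorem e_side_head {k g h : H}
    (hk : 2 * FreeGroup.norm k + FreeGroup.norm (g⁻¹ * h) < FreeGroup.norm g + FreeGroup.norm h) :
    (k⁻¹ * g).toWord.head? = (k⁻¹ * h).toWord.head? := by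
  by_contra hne
  have h1 := e_side_norm hne
  have h2 : (k⁻¹ * g)⁻¹ * (k⁻¹ * h) = g⁻¹ * h := by group
  rw [h2] at h1
  have h3 : FreeGroup.norm g ≤ FreeGroup.norm k + FreeGroup.norm (k⁻¹ * g) := by
    have := FreeGroup.norm_mul_le k (k⁻¹ * g)
    rwa [mul_inv_cancel_left] at this
  have h4 : FreeGroup.norm h ≤ FreeGroup.norm k + FreeGroup.norm (k⁻¹ * h) := by
    have := FreeGroup.norm_mul_le k (k⁻¹ * h)
    rwa [mul_inv_cancel_left] at this
  omega

theorem e_side (RT : Realz TG H) (ξ : Boundary RT.X) (k : H) (b : Bool) :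
    EndIn RT (HS k b) ξ ∨ EndIn RT (HS k b)ᶜ ξ := by
  have hyp := hyp_RT RT
  obtain ⟨v, hv⟩ := Quot.exists_rep ξ
  have key : ∀ h h' : H, PB (RT.ι 1) (FreeGroup.norm k + 21) (RT.ι h) ξ →
      PB (RT.ι 1) (FreeGroup.norm k + 21) (RT.ι h') ξ →
      (k⁻¹ * h).toWord.head? = (k⁻¹ * h').toWord.head? := by
    intro h h' p p'
    obtain ⟨N, hN⟩ := pb_of_rep hyp p v hv
    obtain ⟨N', hN'⟩ := pb_of_rep hyp p' v hv
    have e1 := hN (max N N') (le_max_left _ _)
    have e2 := hN' (max N N') (le_max_right _ _)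
    have e3 := hyp (RT.ι 1) (RT.ι h) (RT.ι h') (v.seq (max N N'))
    have e4 : gprod (RT.ι 1) (v.seq (max N N')) (RT.ι h') =
        gprod (RT.ι 1) (RT.ι h') (v.seq (max N N')) := by
      unfold gprod
      rw [dist_comm (v.seq (max N N')) (RT.ι h')]
      ring
    rw [e4] at e3
    have e5 : (FreeGroup.norm k : ℝ) + 21 - 10 ≤ min (gprod (RT.ι 1) (RT.ι h) (v.seq (max N N')))
        (gprod (RT.ι 1) (RT.ι h') (v.seq (max N N'))) := le_min e1 e2
    have e6 : (FreeGroup.norm k : ℝ) + 1 ≤ gprod (RT.ι 1) (RT.ι h) (RT.ι h') := by linarith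
    unfold gprod at e6
    rw [RT.dist_ι, RT.dist_ι, RT.dist_ι, TG_dist, TG_dist, TG_dist, mul_one, mul_one,
      FreeGroup.norm_inv_eq, FreeGroup.norm_inv_eq] at e6
    apply e_side_head
    have e7 : (2 * FreeGroup.norm k + FreeGroup.norm (h⁻¹ * h') : ℝ) <
        FreeGroup.norm h + FreeGroup.norm h' := by linarith
    exact_mod_cast e7
  obtain ⟨h₀, hh₀⟩ := pb_vert RT (RT.ι 1) ξ (FreeGroup.norm k + 21)
  by_cases hm : h₀ ∈ HS k b
  · left
    refine ⟨FreeGroup.norm k + 21, fun h hh => ?_⟩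
    change (k⁻¹ * h).toWord.head? = _
    rw [key h h₀ hh hh₀]
    exact hm
  · right
    refine ⟨FreeGroup.norm k + 21, fun h hh => ?_⟩
    intro hc
    apply hm
    change (k⁻¹ * h₀).toWord.head? = _
    rw [key h₀ h hh₀ hh]
    exact hc

end Pool.Agent.Helper548.HB
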