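import Pool.Agent.Helper548.HB.Defs
import Pool.Agent.Helper548.HB.P_e_side
import Pool.Agent.Helper548.HB.P_e_HS_c

set_option autoImplicit false

/-! Hyperbolic spaces, Gromov boundaries, hierarchically hyperbolic spaces and groups, the
hierarchically hyperbolic boundary and its topology. -/

namespace Pool.Agent.Helper548.HB



/-- if the c-line of h misses the half space, so do its ends -/
theorem e_cend_out (RT : Realz TG H) (h : H) (b : Bool) (ξ : Boundary RT.X)
    (hξ : IsCEnd RT h b ξ) (k : H) (b' : Bool) (hh : h ∉ HS k b') : EndIn RT (HS k b')ᶜ ξ := by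
  rcases e_side RT ξ k b' with ⟨R, hR⟩ | h1
  · exfalso
    obtain ⟨N, hN⟩ := hξ R
    exact hh ((e_HS_c k h b' _).1 (hR _ (hN N le_rfl)))
  · exact h1

end Pool.Agent.Helper548.HB
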