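import Pool.Agent.Helper548.HB.Defs
import Pool.Agent.Helper548.HB.P_lim_eq_iff
import Pool.Agent.Helper548.HB.P_near_of_rep

set_option autoImplicit false

/-! Hyperbolic spaces, Gromov boundaries, hierarchically hyperbolic spaces and groups, the
hierarchically hyperbolic boundary and its topology. -/

namespace Pool.Agent.Helper548.HB



theorem eq_of_near {X : Type} [MetricSpace X] {δ : ℝ} (hδ : 0 ≤ δ) (hyp : HypC X δ)
    {o : X} {ξ ζ : Boundary X} (h : ∀ R : ℝ, Near o R ξ ζ) : ξ = ζ := by
  obtain ⟨u, hu⟩ := Quot.exists_rep ξ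
  obtain ⟨v, hv⟩ := Quot.exists_rep ζ
  have hu' : u.lim = ξ := hu
  have hv' : v.lim = ζ := hv
  rw [← hu', ← hv', lim_eq_iff hyp]
  intro o' R
  obtain ⟨N, hN⟩ := near_of_rep hδ hyp (h (R + 2 * δ + dist o o')) u v hu' hv'
  refine ⟨N, fun n hn => ?_⟩
  have h1 := hN n hn n hn
  have h2 : dist (u.seq n) o ≤ dist (u.seq n) o' + dist o o' := by
    have := dist_triangle (u.seq n) o' o
    rw [dist_comm o' o] at this
    exact this
  have h3 : dist (v.seq n) o ≤ dist (v.seq n) o' + dist o o' := by
    have := dist_triangle (v.seq n) o' o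
    rw [dist_comm o' o] at this
    exact this
  unfold gprod at h1 ⊢
  linarith

end Pool.Agent.Helper548.HB
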