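import Pool.Agent.Helper548.HB.Defs
import Pool.Agent.Helper548.HB.P_near_of_pb
import Pool.Agent.Helper548.HB.P_eq_of_near
import Pool.Agent.Helper548.HB.P_hyp_RT

set_option autoImplicit false

/-! Hyperbolic spaces, Gromov boundaries, hierarchically hyperbolic spaces and groups, the
hierarchically hyperbolic boundary and its topology. -/

namespace Pool.Agent.Helper548.HB



theorem e_cend_uniq (RT : Realz TG H) (h : H) (b : Bool) (ξ ξ' : Boundary RT.X)
    (h1 : IsCEnd RT h b ξ) (h2 : IsCEnd RT h b ξ') : ξ = ξ' := by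
  refine eq_of_near (o := RT.ι 1) (by norm_num : (0 : ℝ) ≤ 10) (hyp_RT RT) (fun R => ?_)
  obtain ⟨N1, hN1⟩ := h1 (R + 10)
  obtain ⟨N2, hN2⟩ := h2 (R + 10)
  have e1 := hN1 (max N1 N2) (le_max_left _ _)
  have e2 := hN2 (max N1 N2) (le_max_right _ _)
  have e3 := near_of_pb (hyp_RT RT) e1 e2
  have e4 : R + 10 - 10 = R := by ring
  rw [e4] at e3
  exact e3

end Pool.Agent.Helper548.HB
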