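import Pool.Agent.Helper548.HB.Defs
import Pool.Agent.Helper548.HB.P_pb_vert

set_option autoImplicit false

/-! Hyperbolic spaces, Gromov boundaries, hierarchically hyperbolic spaces and groups, the
hierarchically hyperbolic boundary and its topology. -/

namespace Pool.Agent.Helper548.HB



theorem e_excl (RT : Realz TG H) (ξ : Boundary RT.X) (A : Set H) (h1 : EndIn RT A ξ)
    (h2 : EndIn RT Aᶜ ξ) : False := by
  obtain ⟨R1, hR1⟩ := h1
  obtain ⟨R2, hR2⟩ := h2
  obtain ⟨h, hh⟩ := pb_vert RT (RT.ι 1) ξ (max R1 R2)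
  exact hR2 h (PB.mono hh (le_max_right _ _)) (hR1 h (PB.mono hh (le_max_left _ _)))
end Pool.Agent.Helper548.HB
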