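import Pool.Agent.Helper548.HB.Defs
import Pool.Agent.Helper548.HB.P_TG_dist
import Pool.Agent.Helper548.HB.P_pb_of_rep
import Pool.Agent.Helper548.HB.P_near_of_pb
import Pool.Agent.Helper548.HB.P_pb_move
import Pool.Agent.Helper548.HB.P_pb_vert
import Pool.Agent.Helper548.HB.P_hyp_RT
import Pool.Agent.Helper548.HB.P_e_side
import Pool.Agent.Helper548.HB.RedSub

set_option autoImplicit false

/-! Hyperbolic spaces, Gromov boundaries, hierarchically hyperbolic spaces and groups, the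
hierarchically hyperbolic boundary and its topology. -/

namespace Pool.Agent.Helper548.HB



/-- `c^n` or `c^(-n)` -/
def egh_cp (e : Bool) (n : ℕ) : H := FreeGroup.of true ^ (if e then (n : ℤ) else -(n : ℤ))

theorem egh_mk (e : Bool) (n : ℕ) :
    (FreeGroup.mk (List.replicate n (true, e)) : H) = egh_cp e n := by
  have h1 : (FreeGroup.mk (List.replicate n (true, true)) : H) = FreeGroup.of true ^ n := by
    rw [← FreeGroup.toWord_of_pow true n, FreeGroup.mk_toWord]
  unfold egh_cp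
  cases e with
  | true => simp only [if_true, zpow_natCast]; exact h1
  | false =>
    simp only [Bool.false_eq_true, if_false, zpow_neg, zpow_natCast]
    rw [← h1, FreeGroup.inv_mk]
    simp [FreeGroup.invRev]

theorem egh_word (e : Bool) (n : ℕ) : (egh_cp e n).toWord = List.replicate n (true, e) := by
  rw [← egh_mk, FreeGroup.toWord_mk, FreeGroup.reduce_replicate]

theorem egh_norm (e : Bool) (n : ℕ) : FreeGroup.norm (egh_cp e n) = n := by
  unfold FreeGroup.norm
  rw [egh_word, List.length_replicate]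

theorem egh_list : ∀ L : List (Bool × Bool), FreeGroup.IsReduced L →
    ∃ (n : ℕ) (e : Bool) (L' : List (Bool × Bool)), L = List.replicate n (true, e) ++ L' ∧
      (L'.head? = none ∨ ∃ b, L'.head? = some (false, b))
  | [], _ => ⟨0, true, [], by simp, Or.inl rfl⟩
  | x :: L, hL => by
    obtain ⟨n, e, L', h1, h2⟩ := egh_list L (red_sub hL ⟨[x], [], by simp⟩)
    rcases x with ⟨x1, x2⟩
    cases x1 with
    | false => exact ⟨0, true, (false, x2) :: L, by simp, Or.inr ⟨x2, rfl⟩⟩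
    | true =>
      cases n with
      | zero =>
        refine ⟨1, x2, L', ?_, h2⟩
        simp only [List.replicate_zero, List.nil_append] at h1
        simp [h1]
      | succ n =>
        refine ⟨n + 2, e, L', ?_, h2⟩
        have h3 : FreeGroup.IsReduced ((true, x2) :: (true, e) :: (List.replicate n (true, e) ++ L')) := by
          rw [h1, List.replicate_succ, List.cons_append] at hL
          exact hL
        have h4 : x2 = e := (FreeGroup.isReduced_cons_cons.1 h3).1 rfl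
        rw [h1, h4]
        simp [List.replicate_succ]

theorem egh_dec (g : H) : ∃ (n : ℕ) (e : Bool) (g' : H), g = egh_cp e n * g' ∧
    FreeGroup.norm g = n + FreeGroup.norm g' ∧
    (g'.toWord.head? = none ∨ ∃ b, g'.toWord.head? = some (false, b)) := by
  obtain ⟨n, e, L', h1, h2⟩ := egh_list g.toWord FreeGroup.isReduced_toWord
  have hred : FreeGroup.IsReduced L' := by
    have h3 : FreeGroup.IsReduced g.toWord := FreeGroup.isReduced_toWord
    exact red_sub h3 ⟨List.replicate n (true, e), [], by rw [h1]; simp⟩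
  have hw : (FreeGroup.mk L' : H).toWord = L' := by
    rw [FreeGroup.toWord_mk, hred.reduce_eq]
  refine ⟨n, e, FreeGroup.mk L', ?_, ?_, ?_⟩
  · rw [← egh_mk, FreeGroup.mul_mk, ← h1, FreeGroup.mk_toWord]
  · unfold FreeGroup.norm
    rw [hw, h1]; simp
  · rw [hw]; exact h2

theorem egh_diff (e : Bool) (n m : ℕ) :
    (FreeGroup.norm ((egh_cp e n)⁻¹ * egh_cp e m) : ℝ) ≤ |(n : ℝ) - m| := by
  have key : ∀ k : ℤ, (FreeGroup.norm (FreeGroup.of true ^ k : H)) = k.natAbs := by
    intro k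
    obtain ⟨n, rfl | rfl⟩ := k.eq_nat_or_neg
    · rw [zpow_natCast, FreeGroup.norm_of_pow]; simp
    · rw [zpow_neg, zpow_natCast, FreeGroup.norm_inv_eq, FreeGroup.norm_of_pow]; simp
  unfold egh_cp
  rw [← zpow_neg, ← zpow_add, key]
  rw [Nat.cast_natAbs]
  push_cast
  cases e
  · simp only [Bool.false_eq_true, if_false]
    push_cast
    rw [show (- -(n:ℝ) + -(m:ℝ)) = (n:ℝ) - m by ring]
  · simp only [if_true]
    push_cast
    rw [abs_sub_comm]
    rw [show (-(n:ℝ) + (m:ℝ)) = (m:ℝ) - n by ring]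

theorem egh_dist (RT : Realz TG H) (a b : H) :
    dist (RT.ι a) (RT.ι b) = (FreeGroup.norm (a⁻¹ * b) : ℝ) := by
  rw [RT.dist_ι, TG_dist]

theorem egh_step (RT : Realz TG H) (ξ : Boundary RT.X) (h : H)
    (hcon : ∀ k b, EndIn RT (HS k b) ξ → h ∈ HS k b) (J : ℕ) :
    ∃ R : ℝ, ∀ y : H, PB (RT.ι 1) R (RT.ι y) ξ →
      ∃ (n : ℕ) (e : Bool) (g' : H), J ≤ n ∧ h⁻¹ * y = egh_cp e n * g' ∧
        FreeGroup.norm (h⁻¹ * y) = n + FreeGroup.norm g' := by
  have h1 : ∀ (n : ℕ) (e b : Bool), ∃ R : ℝ, ∀ y : H, PB (RT.ι 1) R (RT.ι y) ξ →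
      y ∉ HS (h * egh_cp e n) b := by
    intro n e b
    have hn : h ∉ HS (h * egh_cp e n) b := by
      intro hh
      unfold HS at hh
      simp only [Set.mem_ofPred_eq] at hh
      rw [mul_inv_rev, inv_mul_cancel_right] at hh
      rw [FreeGroup.toWord_inv, egh_word] at hh
      have hmem : (false, b) ∈ FreeGroup.invRev (List.replicate n (true, e)) :=
        List.mem_of_mem_head? (by rw [hh]; rfl)
      simp [FreeGroup.invRev] at hmem
    rcases e_side RT ξ (h * egh_cp e n) b with h2 | h2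
    · exact absurd (hcon _ _ h2) hn
    · exact h2
  choose Rf hRf using h1
  obtain ⟨M, hM⟩ : ∃ M : ℝ, ∀ (n : ℕ) (e b : Bool), n < J → Rf n e b ≤ M := by
    obtain ⟨M, hM⟩ := (((Finset.range J) ×ˢ (Finset.univ : Finset (Bool × Bool))).image
      (fun p => Rf p.1 p.2.1 p.2.2)).exists_le
    refine ⟨M, fun n e b hn => hM _ ?_⟩
    rw [Finset.mem_image]
    exact ⟨(n, e, b), by simp [hn], rfl⟩
  refine ⟨max M (J + dist (RT.ι 1) (RT.ι h)), fun y hy => ?_⟩
  obtain ⟨n, e, g', h2, h3, h4⟩ := egh_dec (h⁻¹ * y)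
  by_cases hJ : J ≤ n
  · exact ⟨n, e, g', hJ, h2, h3⟩
  · exfalso
    push Not at hJ
    rcases h4 with h4 | ⟨b, h4⟩
    · have hg : g' = 1 := by
        rw [List.head?_eq_none_iff] at h4
        exact FreeGroup.toWord_eq_nil_iff.1 h4
      have hnorm : FreeGroup.norm (h⁻¹ * y) = n := by
        rw [h3, hg, FreeGroup.norm_one]; rfl
      obtain ⟨u, -, N, hN⟩ := hy
      have h5 := hN N le_rfl
      unfold gprod at h5
      have h6 : dist (u.seq N) (RT.ι 1) ≤ dist (RT.ι y) (u.seq N) + dist (RT.ι y) (RT.ι 1) := by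
        rw [dist_comm (RT.ι y) (u.seq N)]
        exact dist_triangle _ _ _
      have h7 : dist (RT.ι y) (RT.ι 1) ≤ dist (RT.ι h) (RT.ι y) + dist (RT.ι 1) (RT.ι h) := by
        have := dist_triangle (RT.ι y) (RT.ι h) (RT.ι 1)
        rw [dist_comm (RT.ι y) (RT.ι h), dist_comm (RT.ι h) (RT.ι 1)] at this
        exact this
      rw [egh_dist RT h y, hnorm] at h7
      have h8 : (n : ℝ) < J := by exact_mod_cast hJ
      have h9 := le_max_right M (J + dist (RT.ι 1) (RT.ι h))
      linarith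
    · have hy' : PB (RT.ι 1) (Rf n e b) (RT.ι y) ξ :=
        hy.mono ((hM n e b hJ).trans (le_max_left _ _))
      refine hRf n e b y hy' ?_
      unfold HS
      simp only [Set.mem_ofPred_eq]
      rw [mul_inv_rev, mul_assoc, h2, inv_mul_cancel_left]
      exact h4

theorem e_gen_h (RT : Realz TG H) (ξ : Boundary RT.X) (hξ : Generic RT ξ) (h : H) :
    ∃ k b, EndIn RT (HS k b) ξ ∧ h ∉ HS k b := by
  by_contra hc
  push Not at hc
  have hcon : ∀ k b, EndIn RT (HS k b) ξ → h ∈ HS k b := fun k b hk => hc k b hk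
  choose Rs hRs using egh_step RT ξ h hcon
  have hy : ∀ J : ℕ, ∃ y : H, PB (RT.ι 1) (max (Rs J) J) (RT.ι y) ξ :=
    fun J => pb_vert RT (RT.ι 1) ξ _
  choose y hy using hy
  have hd := fun J => hRs J (y J) ((hy J).mono (le_max_left _ _))
  choose n e g' h1 h2 h3 using hd
  have hpig : ∃ e₀ : Bool, ∀ J, ∃ J' ≥ J, e J' = e₀ := by
    by_cases ht : ∀ J, ∃ J' ≥ J, e J' = true
    · exact ⟨true, ht⟩
    · push Not at ht
      obtain ⟨J₀, hJ₀⟩ := ht
      refine ⟨false, fun J => ⟨max J J₀, le_max_left _ _, ?_⟩⟩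
      have := hJ₀ (max J J₀) (le_max_right _ _)
      simpa using this
  obtain ⟨e₀, he₀⟩ := hpig
  refine hξ h e₀ fun R => ?_
  obtain ⟨J₀, hJ₀⟩ := exists_nat_ge (R + 10 + dist (RT.ι 1) (RT.ι h))
  obtain ⟨J', hJ', heq⟩ := he₀ J₀
  have hd0 : 0 ≤ dist (RT.ι 1) (RT.ι h) := dist_nonneg
  have hJJ : (J₀ : ℝ) ≤ J' := by exact_mod_cast hJ'
  refine ⟨J₀, fun m hm => ?_⟩
  have hmm : (J₀ : ℝ) ≤ m := by exact_mod_cast hm
  have hnn : (J₀ : ℝ) ≤ n J' := by exact_mod_cast hJ'.trans (h1 J')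
  have hPB : PB (RT.ι 1) (R + 10) (RT.ι (y J')) ξ := by
    refine (hy J').mono ?_
    have := le_max_right (Rs J') (J' : ℝ)
    linarith
  have hg : R + 10 ≤ gprod (RT.ι 1) (RT.ι (y J')) (RT.ι (h * egh_cp e₀ m)) := by
    have a1 : dist (RT.ι h) (RT.ι (y J')) = (n J' : ℝ) + FreeGroup.norm (g' J') := by
      rw [egh_dist, h3]; push_cast; ring
    have a2 : dist (RT.ι h) (RT.ι (h * egh_cp e₀ m)) = (m : ℝ) := by
      rw [egh_dist, inv_mul_cancel_left, egh_norm]
    have a3 : dist (RT.ι (y J')) (RT.ι (h * egh_cp e₀ m)) ≤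
        FreeGroup.norm (g' J') + |(n J' : ℝ) - m| := by
      rw [egh_dist]
      have e1 : (y J')⁻¹ * (h * egh_cp e₀ m) =
          (g' J')⁻¹ * ((egh_cp e₀ (n J'))⁻¹ * egh_cp e₀ m) := by
        have e2 : (y J')⁻¹ * h = (g' J')⁻¹ * (egh_cp e₀ (n J'))⁻¹ := by
          have e3 := congrArg (·⁻¹) (h2 J')
          simp only [mul_inv_rev, inv_inv] at e3
          rw [heq] at e3
          exact e3
        rw [← mul_assoc, e2, mul_assoc]
      rw [e1]
      have e4 := FreeGroup.norm_mul_le (g' J')⁻¹ ((egh_cp e₀ (n J'))⁻¹ * egh_cp e₀ m)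
      rw [FreeGroup.norm_inv_eq] at e4
      have e5 : ((FreeGroup.norm ((g' J')⁻¹ * ((egh_cp e₀ (n J'))⁻¹ * egh_cp e₀ m)) : ℕ) : ℝ) ≤
          (FreeGroup.norm (g' J') : ℝ) +
            (FreeGroup.norm ((egh_cp e₀ (n J'))⁻¹ * egh_cp e₀ m) : ℝ) := by exact_mod_cast e4
      exact e5.trans (add_le_add_right (egh_diff e₀ (n J') m) _)
    have a4 : dist (RT.ι h) (RT.ι (y J')) ≤ dist (RT.ι (y J')) (RT.ι 1) + dist (RT.ι 1) (RT.ι h) := by
      rw [dist_comm (RT.ι h)]; exact dist_triangle _ _ _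
    have a5 : dist (RT.ι h) (RT.ι (h * egh_cp e₀ m)) ≤
        dist (RT.ι (h * egh_cp e₀ m)) (RT.ι 1) + dist (RT.ι 1) (RT.ι h) := by
      rw [dist_comm (RT.ι h)]; exact dist_triangle _ _ _
    have a6 : |(n J' : ℝ) - m| ≤ n J' + m - 2 * J₀ := by
      rw [abs_le]; constructor <;> linarith
    unfold gprod
    linarith
  have hfin := pb_move (hyp_RT RT) hPB hg
  have h10 : R + 10 - 10 = R := by ring
  rw [h10] at hfin
  exact hfin

end Pool.Agent.Helper548.HB
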