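import Pool.Agent.Helper548.HB.Defs
import Pool.Agent.Helper548.HB.P_TG_dist
import Pool.Agent.Helper548.HB.P_pb_of_rep
import Pool.Agent.Helper548.HB.P_near_of_pb
import Pool.Agent.Helper548.HB.P_pb_move
import Pool.Agent.Helper548.HB.P_eq_of_near
import Pool.Agent.Helper548.HB.P_pb_vert
import Pool.Agent.Helper548.HB.P_hyp_RT
import Pool.Agent.Helper548.HB.P_e_side
import Pool.Agent.Helper548.HB.RedSub

set_option autoImplicit false

/-! Hyperbolic spaces, Gromov boundaries, hierarchically hyperbolic spaces and groups, the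
hierarchically hyperbolic boundary and its topology. -/

namespace Pool.Agent.Helper548.HB



theorem eg_norm0 (x y : H) (h : ∀ l, x.toWord.head? = some l → y.toWord.head? ≠ some l) :
    FreeGroup.norm (x⁻¹ * y) = FreeGroup.norm x + FreeGroup.norm y := by
  have h1 : FreeGroup.IsReduced (FreeGroup.invRev x.toWord ++ y.toWord) := by
    unfold FreeGroup.IsReduced
    rw [List.isChain_append]
    refine ⟨?_, FreeGroup.isReduced_toWord, ?_⟩
    · rw [← FreeGroup.toWord_inv]
      exact FreeGroup.isReduced_toWord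
    · intro a ha b hb
      unfold FreeGroup.invRev at ha
      rw [List.getLast?_reverse, List.head?_map] at ha
      rw [Option.mem_def, Option.map_eq_some_iff] at ha
      obtain ⟨c, hc, rfl⟩ := ha
      have h2 := h c hc
      rw [Option.mem_def] at hb
      rw [hb] at h2
      intro h3
      simp only at h3 ⊢
      by_contra h4
      apply h2
      rw [Option.some_inj]
      apply Prod.ext
      · exact h3.symm
      · revert h4
        cases b.2 <;> cases c.2 <;> simp
  have h2 : x⁻¹ * y = FreeGroup.mk (FreeGroup.invRev x.toWord ++ y.toWord) := by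
    rw [← FreeGroup.mul_mk, ← FreeGroup.inv_mk, FreeGroup.mk_toWord, FreeGroup.mk_toWord]
  rw [FreeGroup.norm, h2, FreeGroup.toWord_mk, h1.reduce_eq, List.length_append,
    FreeGroup.invRev_length]
  rfl

theorem eg_gp (RT : Realz TG H) (h g : H) : gprod (RT.ι 1) (RT.ι h) (RT.ι g) =
    ((FreeGroup.norm h : ℝ) + FreeGroup.norm g - FreeGroup.norm (h⁻¹ * g)) / 2 := by
  unfold gprod
  rw [RT.dist_ι, RT.dist_ι, RT.dist_ι, TG_dist, TG_dist, TG_dist, mul_one, mul_one,
    FreeGroup.norm_inv_eq, FreeGroup.norm_inv_eq]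

theorem eg_pre (RT : Realz TG H) (h g : H) (s : List (Bool × Bool))
    (hs : h.toWord = g.toWord ++ s) :
    (FreeGroup.norm g : ℝ) ≤ gprod (RT.ι 1) (RT.ι h) (RT.ι g) := by
  have h1 : h = g * FreeGroup.mk s := by
    rw [← FreeGroup.mk_toWord (x := h), hs, ← FreeGroup.mul_mk, FreeGroup.mk_toWord]
  have h2 : h⁻¹ * g = (FreeGroup.mk s)⁻¹ := by
    rw [h1]; group
  have h3 : FreeGroup.norm (h⁻¹ * g) ≤ s.length := by
    rw [h2, FreeGroup.norm_inv_eq]
    exact FreeGroup.norm_mk_le
  have h4 : FreeGroup.norm h = FreeGroup.norm g + s.length := by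
    unfold FreeGroup.norm
    rw [hs, List.length_append]
  have h5 : (FreeGroup.norm (h⁻¹ * g) : ℝ) ≤ s.length := by exact_mod_cast h3
  have h6 : (FreeGroup.norm h : ℝ) = FreeGroup.norm g + s.length := by exact_mod_cast h4
  rw [eg_gp]
  linarith

theorem eg_sep (RT : Realz TG H) (h h' k : H) (b : Bool) (hh : h ∈ HS k b) (hh' : h' ∉ HS k b) :
    gprod (RT.ι 1) (RT.ι h') (RT.ι h) ≤ FreeGroup.norm k := by
  have h1 : (k⁻¹ * h).toWord.head? = some (false, b) := hh
  have h2 : ¬ (k⁻¹ * h').toWord.head? = some (false, b) := hh'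
  have h3 := eg_norm0 (k⁻¹ * h') (k⁻¹ * h) (by
    intro l hl h4
    rw [h1, Option.some_inj] at h4
    rw [← h4] at hl
    exact h2 hl)
  have h4 : (k⁻¹ * h')⁻¹ * (k⁻¹ * h) = h'⁻¹ * h := by group
  rw [h4] at h3
  have h5 : FreeGroup.norm h ≤ FreeGroup.norm k + FreeGroup.norm (k⁻¹ * h) := by
    calc FreeGroup.norm h = FreeGroup.norm (k * (k⁻¹ * h)) := by congr 1; group
      _ ≤ _ := FreeGroup.norm_mul_le _ _
  have h6 : FreeGroup.norm h' ≤ FreeGroup.norm k + FreeGroup.norm (k⁻¹ * h') := by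
    calc FreeGroup.norm h' = FreeGroup.norm (k * (k⁻¹ * h')) := by congr 1; group
      _ ≤ _ := FreeGroup.norm_mul_le _ _
  rw [eg_gp, h3]
  have h5' : (FreeGroup.norm h : ℝ) ≤ FreeGroup.norm k + FreeGroup.norm (k⁻¹ * h) := by exact_mod_cast h5
  have h6' : (FreeGroup.norm h' : ℝ) ≤ FreeGroup.norm k + FreeGroup.norm (k⁻¹ * h') := by exact_mod_cast h6
  push_cast
  linarith

theorem eg_in (RT : Realz TG H) (h k : H) (b : Bool) (hh : h ∈ HS k b) (h1k : (1 : H) ∉ HS k b) :
    (FreeGroup.norm k : ℝ) ≤ gprod (RT.ι 1) (RT.ι h) (RT.ι k) := by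
  have h1 : (k⁻¹ * h).toWord.head? = some (false, b) := hh
  have h2 : ¬ (k⁻¹ * 1).toWord.head? = some (false, b) := h1k
  have h3 := eg_norm0 (k⁻¹ * 1) (k⁻¹ * h) (by
    intro l hl h4
    rw [h1, Option.some_inj] at h4
    rw [← h4] at hl
    exact h2 hl)
  have h4 : (k⁻¹ * 1)⁻¹ * (k⁻¹ * h) = h := by group
  rw [h4, mul_one, FreeGroup.norm_inv_eq] at h3
  have h5 : FreeGroup.norm (h⁻¹ * k) = FreeGroup.norm (k⁻¹ * h) := by
    rw [← FreeGroup.norm_inv_eq]; congr 1; group
  rw [eg_gp, h5, h3]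
  push_cast
  linarith

theorem eg_common {α : Type} [DecidableEq α] : ∀ l l' : List α, ∃ q s s' : List α, l = q ++ s ∧
    l' = q ++ s' ∧ ∀ a, s.head? = some a → s'.head? ≠ some a
  | [], l' => ⟨[], [], l', rfl, rfl, by simp⟩
  | a :: l, [] => ⟨[], a :: l, [], rfl, rfl, by simp⟩
  | a :: l, b :: l' => by
    by_cases h : a = b
    · obtain ⟨q, s, s', h1, h2, h3⟩ := eg_common l l'
      refine ⟨a :: q, s, s', by rw [h1]; rfl, by rw [h2, h]; rfl, h3⟩
    · refine ⟨[], a :: l, b :: l', rfl, rfl, ?_⟩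
      intro c hc hc'
      simp only [List.head?_cons, Option.some_inj] at hc hc'
      exact h (hc.trans hc'.symm)

theorem eg_take (RT : Realz TG H) (h h' : H) (L : ℕ)
    (hL : (L : ℝ) ≤ gprod (RT.ι 1) (RT.ι h) (RT.ι h')) :
    h.toWord.take L = h'.toWord.take L := by
  obtain ⟨q, s, s', h1, h2, h3⟩ := eg_common h.toWord h'.toWord
  have hs : FreeGroup.IsReduced s := red_sub (FreeGroup.isReduced_toWord (x := h))
    (by rw [h1]; exact (List.suffix_append q s).isInfix)
  have hs' : FreeGroup.IsReduced s' := red_sub (FreeGroup.isReduced_toWord (x := h'))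
    (by rw [h2]; exact (List.suffix_append q s').isInfix)
  have e1 : (FreeGroup.mk s).toWord = s := by rw [FreeGroup.toWord_mk, hs.reduce_eq]
  have e2 : (FreeGroup.mk s').toWord = s' := by rw [FreeGroup.toWord_mk, hs'.reduce_eq]
  have h4 := eg_norm0 (FreeGroup.mk s) (FreeGroup.mk s') (by rw [e1, e2]; exact h3)
  have h5 : h = FreeGroup.mk q * FreeGroup.mk s := by
    rw [← FreeGroup.mk_toWord (x := h), h1, ← FreeGroup.mul_mk]
  have h6 : h' = FreeGroup.mk q * FreeGroup.mk s' := by
    rw [← FreeGroup.mk_toWord (x := h'), h2, ← FreeGroup.mul_mk]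
  have h7 : h⁻¹ * h' = (FreeGroup.mk s)⁻¹ * FreeGroup.mk s' := by
    rw [h5, h6]; group
  have n1 : FreeGroup.norm (FreeGroup.mk s) = s.length := by unfold FreeGroup.norm; rw [e1]
  have n2 : FreeGroup.norm (FreeGroup.mk s') = s'.length := by unfold FreeGroup.norm; rw [e2]
  have n3 : FreeGroup.norm h = q.length + s.length := by
    unfold FreeGroup.norm; rw [h1, List.length_append]
  have n4 : FreeGroup.norm h' = q.length + s'.length := by
    unfold FreeGroup.norm; rw [h2, List.length_append]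
  rw [eg_gp, h7, h4, n1, n2, n3, n4] at hL
  push_cast at hL
  have h8 : (L : ℝ) ≤ q.length := by linarith
  have h9 : L ≤ q.length := by exact_mod_cast h8
  rw [h1, h2, List.take_append_of_le_length h9, List.take_append_of_le_length h9]

theorem eg_two (RT : Realz TG H) {R : ℝ} {x y : RT.X} {ξ : Boundary RT.X}
    (hx : PB (RT.ι 1) R x ξ) (hy : PB (RT.ι 1) R y ξ) :
    R - 20 ≤ gprod (RT.ι 1) x y := by
  obtain ⟨u, hu, -⟩ := id hx
  obtain ⟨N, hN⟩ := pb_of_rep (hyp_RT RT) hx u hu
  obtain ⟨N', hN'⟩ := pb_of_rep (hyp_RT RT) hy u hu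
  have h1 := hN (max N N') (le_max_left _ _)
  have h2 := hN' (max N N') (le_max_right _ _)
  have h3 := hyp_RT RT (RT.ι 1) x y (u.seq (max N N'))
  have h4 : gprod (RT.ι 1) (u.seq (max N N')) y = gprod (RT.ι 1) y (u.seq (max N N')) := by
    unfold gprod
    rw [dist_comm (u.seq (max N N')) y]
    ring
  rw [h4] at h3
  have h5 := le_min h1 h2
  linarith

theorem eg_len (RT : Realz TG H) {R : ℝ} {h : H} {ξ : Boundary RT.X}
    (hx : PB (RT.ι 1) R (RT.ι h) ξ) : R ≤ FreeGroup.norm h := by
  obtain ⟨u, hu, N, hN⟩ := hx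
  have h1 := hN N le_rfl
  have h2 : dist (RT.ι h) (RT.ι 1) = FreeGroup.norm h := by
    rw [RT.dist_ι, TG_dist, mul_one, FreeGroup.norm_inv_eq]
  unfold gprod at h1
  have h3 := dist_triangle (u.seq N) (RT.ι h) (RT.ι 1)
  rw [dist_comm (u.seq N) (RT.ι h)] at h3
  rw [h2] at h1 h3
  linarith

theorem eg_endIn (RT : Realz TG H) {ξ : Boundary RT.X} {R : ℝ} {h k : H} {b : Bool}
    (hh : h ∈ HS k b) (hx : PB (RT.ι 1) R (RT.ι h) ξ) (hR : (FreeGroup.norm k : ℝ) + 20 < R) :
    EndIn RT (HS k b) ξ := by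
  rcases e_side RT ξ k b with h1 | ⟨R₁, h1⟩
  · exact h1
  · exfalso
    obtain ⟨h', hh'⟩ := pb_vert RT (RT.ι 1) ξ (max R₁ R)
    have h2 := h1 h' (hh'.mono (le_max_left _ _))
    have h3 := eg_two RT (hh'.mono (le_max_right _ _)) hx
    have h4 := eg_sep RT h h' k b hh h2
    linarith

theorem eg_letter (RT : Realz TG H) {ξ : Boundary RT.X} {M : ℕ}
    (hM : ∀ k b, M ≤ FreeGroup.norm k → (1 : H) ∉ HS k b → ¬ EndIn RT (HS k b) ξ)
    {R : ℝ} {h : H} (hx : PB (RT.ι 1) R (RT.ι h) ξ) (i : ℕ) (hi : M ≤ i) (hiR : (i : ℝ) + 20 < R) :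
    ∃ e, h.toWord[i]? = some (true, e) := by
  have h1 := eg_len RT hx
  have h2 : i < h.toWord.length := by
    have h3 : (i : ℝ) < FreeGroup.norm h := by linarith
    have h4 : i < FreeGroup.norm h := by exact_mod_cast h3
    exact h4
  have hred := FreeGroup.isReduced_toWord (x := h)
  have hdec : h.toWord = h.toWord.take i ++ h.toWord.drop i := (List.take_append_drop i _).symm
  rcases hw : h.toWord[i] with ⟨a, e⟩
  cases a with
  | true => exact ⟨e, by rw [List.getElem?_eq_getElem h2, hw]⟩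
  | false =>
    exfalso
    set k : H := FreeGroup.mk (h.toWord.take i) with hk
    have hkw : k.toWord = h.toWord.take i := by
      rw [hk, FreeGroup.toWord_mk]
      exact (red_sub hred (List.take_prefix i _).isInfix).reduce_eq
    have hkn : FreeGroup.norm k = i := by
      unfold FreeGroup.norm
      rw [hkw, List.length_take]
      omega
    have hkh : k⁻¹ * h = FreeGroup.mk (h.toWord.drop i) := by
      have h5 : h = k * FreeGroup.mk (h.toWord.drop i) := by
        rw [hk, FreeGroup.mul_mk, List.take_append_drop, FreeGroup.mk_toWord]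
      rw [inv_mul_eq_iff_eq_mul]
      exact h5
    have hkhw : (k⁻¹ * h).toWord = h.toWord.drop i := by
      rw [hkh, FreeGroup.toWord_mk]
      exact (red_sub hred (List.drop_suffix i _).isInfix).reduce_eq
    have hhead : (h.toWord.drop i).head? = some (false, e) := by
      rw [List.head?_drop, List.getElem?_eq_getElem h2, hw]
    have hmem : h ∈ HS k e := by
      show (k⁻¹ * h).toWord.head? = some (false, e)
      rw [hkhw, hhead]
    have h1k : (1 : H) ∉ HS k e := by
      intro h5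
      have h6 : (k⁻¹ * 1).toWord.head? = some (false, e) := h5
      rw [mul_one, FreeGroup.toWord_inv, hkw] at h6
      unfold FreeGroup.invRev at h6
      rw [List.head?_reverse, List.getLast?_map, Option.map_eq_some_iff] at h6
      obtain ⟨c, hc, hce⟩ := h6
      have h7 : FreeGroup.IsReduced (h.toWord.take i ++ h.toWord.drop i) := by
        rw [← hdec]; exact hred
      unfold FreeGroup.IsReduced at h7
      rw [List.isChain_append] at h7
      have h8 := h7.2.2 c hc (false, e) hhead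
      have h9 : c.1 = false := congrArg Prod.fst hce
      have h10 : (!c.2) = e := congrArg Prod.snd hce
      have h11 := h8 h9
      simp only at h11
      rw [h11] at h10
      revert h10
      cases e <;> simp
    refine hM k e (by rw [hkn]; exact hi) h1k (eg_endIn RT hmem hx ?_)
    rw [hkn]
    exact hiR

theorem eg_run (RT : Realz TG H) {ξ : Boundary RT.X} {M : ℕ}
    (hM : ∀ k b, M ≤ FreeGroup.norm k → (1 : H) ∉ HS k b → ¬ EndIn RT (HS k b) ξ)
    {R : ℝ} {h : H} (hx : PB (RT.ι 1) R (RT.ι h) ξ) {e : Bool}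
    (he : h.toWord[M]? = some (true, e)) :
    ∀ n : ℕ, ((M + n : ℕ) : ℝ) + 20 < R → h.toWord[M + n]? = some (true, e) := by
  intro n
  induction n with
  | zero => intro _; exact he
  | succ n ih =>
    intro hn
    have h1 := ih (by push_cast at hn ⊢; linarith)
    obtain ⟨e', h2⟩ := eg_letter RT hM hx (M + (n + 1)) (by omega) hn
    have hred := FreeGroup.isReduced_toWord (x := h)
    unfold FreeGroup.IsReduced at hred
    rw [List.isChain_iff_getElem] at hred
    have h3 : M + n + 1 < h.toWord.length := by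
      by_contra h4
      rw [List.getElem?_eq_none (by omega)] at h2
      exact Option.some_ne_none _ h2.symm
    have h4 := hred (M + n) h3
    rw [List.getElem?_eq_getElem (by omega), Option.some_inj] at h1
    have h2' : h.toWord[M + n + 1]? = some (true, e') := h2
    rw [List.getElem?_eq_getElem h3, Option.some_inj] at h2'
    rw [h1, h2'] at h4
    have h5 := h4 rfl
    simp only at h5
    rw [h2, ← h5]

theorem eg_takes (w : List (Bool × Bool)) (M : ℕ) (e : Bool) (n : ℕ)
    (h : ∀ m < n, w[M + m]? = some (true, e)) :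
    w.take (M + n) = w.take M ++ List.replicate n (true, e) := by
  induction n with
  | zero => simp
  | succ n ih =>
    have h1 := ih (fun m hm => h m (by omega))
    have h2 := h n (by omega)
    rw [← Nat.add_assoc, List.take_add_one, h1, h2, List.replicate_succ', List.append_assoc]
    rfl

theorem eg_pow (e : Bool) (n : ℕ) :
    (FreeGroup.mk (List.replicate n (true, e)) : H) =
      FreeGroup.of true ^ (if e then (n : ℤ) else -(n : ℤ)) := by
  induction n with
  | zero => cases e <;> simp [FreeGroup.one_eq_mk]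
  | succ n ih =>
    rw [List.replicate_succ', ← FreeGroup.mul_mk, ih]
    cases e with
    | true =>
      have h1 : (FreeGroup.mk [(true, true)] : H) = FreeGroup.of true := rfl
      rw [h1]
      simp only [if_true]
      push_cast
      rw [zpow_add, zpow_one]
    | false =>
      have h1 : (FreeGroup.mk [(true, false)] : H) = (FreeGroup.of true)⁻¹ := rfl
      rw [h1]
      simp only [Bool.false_eq_true, if_false]
      push_cast
      rw [neg_add, zpow_add, zpow_neg_one]

theorem eg_far (RT : Realz TG H) {ξ : Boundary RT.X} (hξ : Generic RT ξ) (M : ℕ) :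
    ∃ k b, M ≤ FreeGroup.norm k ∧ (1 : H) ∉ HS k b ∧ EndIn RT (HS k b) ξ := by
  by_contra hcon
  have hM : ∀ k b, M ≤ FreeGroup.norm k → (1 : H) ∉ HS k b → ¬ EndIn RT (HS k b) ξ := by
    intro k b h1 h2 h3
    exact hcon ⟨k, b, h1, h2, h3⟩
  obtain ⟨h₀, hh₀⟩ := pb_vert RT (RT.ι 1) ξ ((M : ℝ) + 42)
  obtain ⟨e, he⟩ := eg_letter RT hM hh₀ M le_rfl (by linarith)
  refine hξ (FreeGroup.mk (h₀.toWord.take M)) e ?_
  intro R
  obtain ⟨N, hN⟩ := exists_nat_ge (R + 10)
  refine ⟨N, fun n hn => ?_⟩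
  obtain ⟨h₂, hh₂⟩ := pb_vert RT (RT.ι 1) ξ ((M : ℝ) + n + 42)
  have h1 := eg_two RT hh₀ (hh₂.mono (by
    have : (0 : ℝ) ≤ n := Nat.cast_nonneg n
    linarith))
  have h2 := eg_take RT h₀ h₂ (M + 1) (by push_cast; linarith)
  have h3 : h₂.toWord.take M = h₀.toWord.take M := by
    have := congrArg (List.take M) h2
    rw [List.take_take, List.take_take] at this
    have h4 : min M (M + 1) = M := by omega
    rw [h4] at this
    exact this.symm
  have he2 : h₂.toWord[M]? = some (true, e) := by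
    have := congrArg (fun l => l[M]?) h2
    simp only [List.getElem?_take] at this
    rw [if_pos (by omega), if_pos (by omega)] at this
    rw [← this, he]
  have h5 := eg_run RT hM hh₂ he2
  have h6 := eg_takes h₂.toWord M e n (fun m hm => h5 m (by
    have : (m : ℝ) < n := by exact_mod_cast hm
    push_cast
    linarith))
  have h7 : FreeGroup.mk (h₀.toWord.take M) * FreeGroup.of true ^ (if e then (n : ℤ) else -(n : ℤ)) =
      (FreeGroup.mk (h₂.toWord.take (M + n)) : H) := by
    rw [h6, h3, ← FreeGroup.mul_mk, eg_pow]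
  rw [h7]
  have hred := FreeGroup.isReduced_toWord (x := h₂)
  have h8 : (FreeGroup.mk (h₂.toWord.take (M + n)) : H).toWord = h₂.toWord.take (M + n) := by
    rw [FreeGroup.toWord_mk]
    exact (red_sub hred (List.take_prefix _ _).isInfix).reduce_eq
  have h9 := eg_pre RT h₂ (FreeGroup.mk (h₂.toWord.take (M + n))) (h₂.toWord.drop (M + n))
    (by rw [h8, List.take_append_drop])
  have h10 : FreeGroup.norm (FreeGroup.mk (h₂.toWord.take (M + n)) : H) = M + n := by
    unfold FreeGroup.norm
    rw [h8, List.length_take]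
    have h11 := eg_len RT hh₂
    have h12 : ((M + n : ℕ) : ℝ) ≤ FreeGroup.norm h₂ := by push_cast; linarith
    have h13 : M + n ≤ FreeGroup.norm h₂ := by exact_mod_cast h12
    unfold FreeGroup.norm at h13
    omega
  rw [h10] at h9
  have h11 : PB (RT.ι 1) ((M + n : ℕ) : ℝ) (RT.ι h₂) ξ := hh₂.mono (by push_cast; linarith)
  have h12 := pb_move (hyp_RT RT) h11 h9
  refine h12.mono ?_
  push_cast
  have h13 : (N : ℝ) ≤ n := by exact_mod_cast hn
  have h14 : (0 : ℝ) ≤ M := Nat.cast_nonneg M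
  linarith

theorem e_gen_xi (RT : Realz TG H) (ξ ξ' : Boundary RT.X) (hξ : Generic RT ξ) (hne : ξ' ≠ ξ) :
    ∃ k b, EndIn RT (HS k b) ξ ∧ EndIn RT (HS k b)ᶜ ξ' := by
  by_contra hcon
  apply hne
  refine eq_of_near (δ := 10) (by norm_num) (hyp_RT RT) (o := RT.ι 1) fun R => ?_
  obtain ⟨M, hM⟩ := exists_nat_ge (R + 20)
  obtain ⟨k, b, hk, h1k, hend⟩ := eg_far RT hξ M
  have hend' : EndIn RT (HS k b) ξ' := by
    rcases e_side RT ξ' k b with h | h
    · exact h
    · exact absurd ⟨k, b, hend, h⟩ hcon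
  have hkM : (M : ℝ) ≤ FreeGroup.norm k := by exact_mod_cast hk
  have key : ∀ ζ : Boundary RT.X, EndIn RT (HS k b) ζ →
      PB (RT.ι 1) ((FreeGroup.norm k : ℝ) - 10) (RT.ι k) ζ := by
    rintro ζ ⟨R₁, hR₁⟩
    obtain ⟨h, hh⟩ := pb_vert RT (RT.ι 1) ζ (max R₁ (FreeGroup.norm k : ℝ))
    have h1 := hR₁ h (hh.mono (le_max_left _ _))
    have h2 := eg_in RT h k b h1 h1k
    exact pb_move (hyp_RT RT) (hh.mono (le_max_right _ _)) h2
  have h3 := near_of_pb (hyp_RT RT) (key ξ' hend') (key ξ hend)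
  refine h3.mono ?_
  linarith

end Pool.Agent.Helper548.HB
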