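import Pool.Agent.Helper548.HB.Defs
import Pool.Agent.Helper548.HB.RedSub

set_option autoImplicit false

/-! Hyperbolic spaces, Gromov boundaries, hierarchically hyperbolic spaces and groups, the
hierarchically hyperbolic boundary and its topology. -/

namespace Pool.Agent.Helper548.HB



theorem e_line_h_split (L : List (Bool × Bool)) (hL : FreeGroup.IsReduced L) :
    (∃ j : ℤ, FreeGroup.mk L = FreeGroup.of true ^ j) ∨
    ∃ (i : ℤ) (e : Bool) (L2 : List (Bool × Bool)),
      FreeGroup.mk L = FreeGroup.of true ^ i * FreeGroup.mk ((false, e) :: L2) ∧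
        FreeGroup.IsReduced ((false, e) :: L2) := by
  induction L with
  | nil => exact Or.inl ⟨0, by rw [zpow_zero]; rfl⟩
  | cons a L ih =>
    obtain ⟨x, e⟩ := a
    cases x
    · exact Or.inr ⟨0, e, L, by rw [zpow_zero, one_mul], hL⟩
    · have hL' : FreeGroup.IsReduced L := red_sub hL (List.suffix_cons _ L).isInfix
      have h1 : (FreeGroup.mk ((true, e) :: L) : H) =
          FreeGroup.of true ^ (if e then (1 : ℤ) else -1) * FreeGroup.mk L := by
        have h2 : (FreeGroup.mk ((true, e) :: L) : H) = FreeGroup.mk [(true, e)] * FreeGroup.mk L := by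
          rw [FreeGroup.mul_mk]; rfl
        rw [h2]
        congr 1
        cases e
        · rfl
        · rw [if_pos rfl, zpow_one]; rfl
      rcases ih hL' with ⟨j, hj⟩ | ⟨i, e', L2, hi, hr⟩
      · refine Or.inl ⟨(if e then (1 : ℤ) else -1) + j, ?_⟩
        rw [h1, hj, zpow_add]
      · refine Or.inr ⟨(if e then (1 : ℤ) else -1) + i, e', L2, ?_, hr⟩
        rw [h1, hi, zpow_add, mul_assoc]

theorem e_line_h_pow (j : ℤ) (x : Bool × Bool) (hx : x ∈ (FreeGroup.of true ^ j : H).toWord) :
    x.1 = true := by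
  obtain ⟨n, rfl | rfl⟩ := j.eq_nat_or_neg
  · rw [zpow_natCast, FreeGroup.toWord_of_pow] at hx
    rw [List.eq_of_mem_replicate hx]
  · rw [zpow_neg, zpow_natCast, FreeGroup.toWord_inv, FreeGroup.toWord_of_pow] at hx
    unfold FreeGroup.invRev at hx
    rw [List.mem_reverse] at hx
    obtain ⟨y, hy, rfl⟩ := List.mem_map.1 hx
    rw [List.eq_of_mem_replicate hy]

theorem e_line_h (h h' : H) (hh : ∀ j : ℤ, h' ≠ h * FreeGroup.of true ^ j) :
    ∃ k b, h' ∈ HS k b ∧ ∀ j : ℤ, h * FreeGroup.of true ^ j ∉ HS k b := by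
  have hmk : FreeGroup.mk (h⁻¹ * h').toWord = h⁻¹ * h' := FreeGroup.mk_toWord
  rcases e_line_h_split _ (FreeGroup.isReduced_toWord (x := h⁻¹ * h')) with
    ⟨j, hj⟩ | ⟨i, e, L2, hi, hr⟩
  · rw [hmk] at hj
    exact absurd (by rw [← hj, mul_inv_cancel_left]) (hh j)
  · rw [hmk] at hi
    refine ⟨h * FreeGroup.of true ^ i, e, ?_, fun j hj => ?_⟩
    · show ((h * FreeGroup.of true ^ i)⁻¹ * h').toWord.head? = some (false, e)
      have h1 : (h * FreeGroup.of true ^ i)⁻¹ * h' = FreeGroup.mk ((false, e) :: L2) := by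
        rw [mul_inv_rev, mul_assoc, hi, inv_mul_cancel_left]
      rw [h1, FreeGroup.toWord_mk, hr.reduce_eq]
      rfl
    · have hj' : ((h * FreeGroup.of true ^ i)⁻¹ * (h * FreeGroup.of true ^ j)).toWord.head? =
        some (false, e) := hj
      have h1 : (h * FreeGroup.of true ^ i)⁻¹ * (h * FreeGroup.of true ^ j) =
          FreeGroup.of true ^ (-i + j) := by
        rw [mul_inv_rev, mul_assoc, inv_mul_cancel_left, zpow_add, zpow_neg]
      rw [h1] at hj'
      have h2 := e_line_h_pow (-i + j) (false, e) (List.mem_of_mem_head? (by rw [hj']; rfl))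
      exact Bool.noConfusion h2

end Pool.Agent.Helper548.HB
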