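import Pool.Agent.Helper548.HB.Defs
import Pool.Agent.Helper548.HB.P_TG_dist
import Pool.Agent.Helper548.HB.P_pb_of_rep
import Pool.Agent.Helper548.HB.P_hyp_RT

set_option autoImplicit false

/-! Hyperbolic spaces, Gromov boundaries, hierarchically hyperbolic spaces and groups, the
hierarchically hyperbolic boundary and its topology. -/

namespace Pool.Agent.Helper548.HB



theorem e_line_pb_norm (m : ℤ) :
    FreeGroup.norm ((FreeGroup.of true : H) ^ m) = m.natAbs := by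
  obtain ⟨n, rfl | rfl⟩ := m.eq_nat_or_neg
  · rw [zpow_natCast, FreeGroup.norm_of_pow, Int.natAbs_natCast]
  · rw [zpow_neg, FreeGroup.norm_inv_eq, zpow_natCast, FreeGroup.norm_of_pow, Int.natAbs_neg,
      Int.natAbs_natCast]

theorem e_line_pb_gprod (RT : Realz TG H) (h : H) (j k : ℤ) :
    gprod (RT.ι 1) (RT.ι (h * FreeGroup.of true ^ j)) (RT.ι (h * FreeGroup.of true ^ k)) ≤
      (FreeGroup.norm h : ℝ) + ((|j| + |k| - |j - k| : ℤ) : ℝ) / 2 := by
  have h1 : ∀ m : ℤ, dist (RT.ι (h * FreeGroup.of true ^ m)) (RT.ι 1) ≤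
      (FreeGroup.norm h : ℝ) + ((|m| : ℤ) : ℝ) := by
    intro m
    rw [RT.dist_ι, TG_dist, mul_one, FreeGroup.norm_inv_eq]
    have e := FreeGroup.norm_mul_le h (FreeGroup.of true ^ m)
    rw [e_line_pb_norm] at e
    have e2 : ((m.natAbs : ℕ) : ℝ) = ((|m| : ℤ) : ℝ) := by
      rw [← Int.natCast_natAbs m]; simp
    rw [← e2]
    exact_mod_cast e
  have h2 : dist (RT.ι (h * FreeGroup.of true ^ j)) (RT.ι (h * FreeGroup.of true ^ k)) =
      ((|j - k| : ℤ) : ℝ) := by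
    rw [RT.dist_ι, TG_dist]
    have e : (h * FreeGroup.of true ^ j)⁻¹ * (h * FreeGroup.of true ^ k) =
        (FreeGroup.of true : H) ^ (k - j) := by
      rw [mul_inv_rev, mul_assoc, inv_mul_cancel_left, ← zpow_neg, ← zpow_add]
      congr 1
      ring
    rw [e, e_line_pb_norm, abs_sub_comm]
    rw [← Int.natCast_natAbs (k - j)]; simp
  unfold gprod
  rw [h2]
  have hj := h1 j
  have hk := h1 k
  push_cast at hj hk ⊢
  linarith

theorem e_line_pb (RT : Realz TG H) (h : H) (b : Bool) (ξ : Boundary RT.X)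
    (hξ : IsCEnd RT h b ξ) (J : ℤ) : ∃ R : ℝ, ∀ j : ℤ,
    PB (RT.ι 1) R (RT.ι (h * FreeGroup.of true ^ j)) ξ → J ≤ (if b then j else -j) := by
  obtain ⟨v, hv⟩ := Quot.exists_rep ξ
  have hv' : v.lim = ξ := hv
  have hyp := hyp_RT RT
  set R : ℝ := (FreeGroup.norm h : ℝ) + 21 + ((|J| : ℤ) : ℝ) with hR
  refine ⟨R, fun j hj => ?_⟩
  obtain ⟨N, hN⟩ := hξ R
  obtain ⟨N1, hN1⟩ := pb_of_rep hyp hj v hv'
  obtain ⟨N2, hN2⟩ := pb_of_rep hyp (hN N le_rfl) v hv'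
  have g1 := hN1 (max N1 N2) (le_max_left _ _)
  have g2 := hN2 (max N1 N2) (le_max_right _ _)
  set k : ℤ := (if b then (N : ℤ) else -(N : ℤ)) with hk
  have hsym : gprod (RT.ι 1) (v.seq (max N1 N2)) (RT.ι (h * FreeGroup.of true ^ k)) =
      gprod (RT.ι 1) (RT.ι (h * FreeGroup.of true ^ k)) (v.seq (max N1 N2)) := by
    unfold gprod
    rw [dist_comm (v.seq (max N1 N2)) (RT.ι (h * FreeGroup.of true ^ k))]
    ring
  have g3 := hyp (RT.ι 1) (RT.ι (h * FreeGroup.of true ^ j)) (RT.ι (h * FreeGroup.of true ^ k))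
    (v.seq (max N1 N2))
  rw [hsym] at g3
  have g4 : R - 10 ≤ min (gprod (RT.ι 1) (RT.ι (h * FreeGroup.of true ^ j)) (v.seq (max N1 N2)))
    (gprod (RT.ι 1) (RT.ι (h * FreeGroup.of true ^ k)) (v.seq (max N1 N2))) := le_min g1 g2
  have g5 := e_line_pb_gprod RT h j k
  have g6 : ((2 * |J| + 2 : ℤ) : ℝ) ≤ ((|j| + |k| - |j - k| : ℤ) : ℝ) := by
    push_cast
    push_cast at g5
    rw [hR] at g4
    push_cast at g4
    linarith
  have g7 : 2 * |J| + 2 ≤ |j| + |k| - |j - k| := by exact_mod_cast g6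
  have hJ := le_abs_self J
  have hJ0 := abs_nonneg J
  have hNn : (0 : ℤ) ≤ N := Int.natCast_nonneg N
  cases b
  · simp only [Bool.false_eq_true, if_false] at hk ⊢
    rw [hk, abs_neg, abs_of_nonneg hNn] at g7
    rcases abs_cases j with ⟨e1, e2⟩ | ⟨e1, e2⟩ <;>
    rcases abs_cases (j - -(N : ℤ)) with ⟨e3, e4⟩ | ⟨e3, e4⟩ <;> omega
  · simp only [if_true] at hk ⊢
    rw [hk, abs_of_nonneg hNn] at g7
    rcases abs_cases j with ⟨e1, e2⟩ | ⟨e1, e2⟩ <;>
    rcases abs_cases (j - (N : ℤ)) with ⟨e3, e4⟩ | ⟨e3, e4⟩ <;> omega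

end Pool.Agent.Helper548.HB
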