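import Pool.Agent.Helper548.HB.Defs
import Pool.Agent.Helper548.HB.P_TG_dist
import Pool.Agent.Helper548.HB.P_pb_of_rep
import Pool.Agent.Helper548.HB.P_near_of_pb
import Pool.Agent.Helper548.HB.P_pb_move
import Pool.Agent.Helper548.HB.P_pb_vert
import Pool.Agent.Helper548.HB.P_hyp_RT
import Pool.Agent.Helper548.HB.P_e_side

set_option autoImplicit false

/-! Hyperbolic spaces, Gromov boundaries, hierarchically hyperbolic spaces and groups, the
hierarchically hyperbolic boundary and its topology. -/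

namespace Pool.Agent.Helper548.HB



theorem exi_word (e : Bool) (n : ℕ) (w : H) (hw : ∀ e', w.toWord.head? ≠ some (true, e')) :
    ((FreeGroup.mk [(true, e)]) ^ n * w).toWord = List.replicate n (true, e) ++ w.toWord := by
  induction n with
  | zero => simp
  | succ n ih =>
    rw [pow_succ', mul_assoc, FreeGroup.toWord_mul, ih]
    have h1 : (FreeGroup.mk [((true, e) : Bool × Bool)]).toWord = [(true, e)] := by
      rw [FreeGroup.toWord_mk]
      simp
    have h2 : FreeGroup.reduce (List.replicate n (true, e) ++ w.toWord) =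
        List.replicate n (true, e) ++ w.toWord := by
      rw [← ih, FreeGroup.reduce_toWord]
    rw [h1, List.singleton_append, FreeGroup.reduce.cons, h2]
    cases n with
    | zero =>
      simp only [List.replicate_zero, List.nil_append, List.replicate_succ, List.cons_append]
      cases hL : w.toWord with
      | nil => simp
      | cons hd tl =>
        have h3 : hd.1 ≠ true := by
          intro h4
          apply hw hd.2
          rw [hL, List.head?_cons, ← h4]
        simp only
        rw [if_neg]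
        rintro ⟨h4, -⟩
        exact h3 h4.symm
    | succ m =>
      simp only [List.replicate_succ, List.cons_append]
      rw [if_neg]
      rintro ⟨-, h4⟩
      cases e <;> simp at h4

theorem exi_norm (i : ℤ) (w : H) (hw : ∀ e', w.toWord.head? ≠ some (true, e')) :
    FreeGroup.norm ((FreeGroup.of true) ^ i * w) = i.natAbs + FreeGroup.norm w := by
  obtain ⟨n, rfl | rfl⟩ := i.eq_nat_or_neg
  · have h1 : (FreeGroup.of true : H) ^ (n : ℤ) = (FreeGroup.mk [(true, true)]) ^ n := by
      rw [zpow_natCast]; rfl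
    rw [h1]
    unfold FreeGroup.norm
    rw [exi_word _ _ _ hw]
    simp
  · have h1 : (FreeGroup.of true : H) ^ (-(n : ℤ)) = (FreeGroup.mk [(true, false)]) ^ n := by
      rw [zpow_neg, zpow_natCast, ← inv_pow]; rfl
    rw [h1]
    unfold FreeGroup.norm
    rw [exi_word _ _ _ hw]
    simp

theorem exi_dec (g : H) : ∃ (i : ℤ) (w : H), g = (FreeGroup.of true) ^ i * w ∧
    ∀ e', w.toWord.head? ≠ some (true, e') := by
  induction hn : FreeGroup.norm g using Nat.strong_induction_on generalizing g with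
  | _ n ih =>
    by_cases hg : ∀ e', g.toWord.head? ≠ some (true, e')
    · exact ⟨0, g, by simp, hg⟩
    · push Not at hg
      obtain ⟨e, he⟩ := hg
      obtain ⟨tl, htl⟩ : ∃ tl, g.toWord = (true, e) :: tl := by
        cases hL : g.toWord with
        | nil => rw [hL] at he; simp at he
        | cons hd tl =>
          rw [hL] at he
          simp at he
          exact ⟨tl, by rw [he]⟩
      have hgm : g = FreeGroup.mk [(true, e)] * FreeGroup.mk tl := by
        rw [FreeGroup.mul_mk, List.singleton_append, ← htl, FreeGroup.mk_toWord]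
      have hlt : FreeGroup.norm (FreeGroup.mk tl : H) < n := by
        have h1 : FreeGroup.norm (FreeGroup.mk tl : H) ≤ tl.length := FreeGroup.norm_mk_le
        have h2 : FreeGroup.norm g = tl.length + 1 := by
          unfold FreeGroup.norm
          rw [htl]; simp
        omega
      obtain ⟨i, w, hw1, hw2⟩ := ih _ hlt (FreeGroup.mk tl) rfl
      cases e with
      | true =>
        refine ⟨1 + i, w, ?_, hw2⟩
        rw [zpow_add, zpow_one, mul_assoc, ← hw1, hgm]
        rfl
      | false =>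
        refine ⟨-1 + i, w, ?_, hw2⟩
        rw [zpow_add, zpow_neg, zpow_one, mul_assoc, ← hw1, hgm]
        rfl

theorem exi_dist (RT : Realz TG H) (g h : H) :
    dist (RT.ι g) (RT.ι h) = (FreeGroup.norm (g⁻¹ * h) : ℝ) := by
  rw [RT.dist_ι, TG_dist]

theorem exi_one_head : ∀ e', (1 : H).toWord.head? ≠ some (true, e') := by
  intro e'
  simp

theorem exi_gp (RT : Realz TG H) (h w : H) (m i : ℤ)
    (hw : ∀ e', w.toWord.head? ≠ some (true, e'))
    (hm : (0 ≤ m ∧ m ≤ i) ∨ (m ≤ 0 ∧ i ≤ m)) :
    gprod (RT.ι h) (RT.ι (h * ((FreeGroup.of true) ^ i * w)))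
      (RT.ι (h * (FreeGroup.of true) ^ m)) = |(m : ℝ)| := by
  have d1 : dist (RT.ι (h * ((FreeGroup.of true) ^ i * w))) (RT.ι h) =
      ((i.natAbs + FreeGroup.norm w : ℕ) : ℝ) := by
    rw [dist_comm, exi_dist, inv_mul_cancel_left, exi_norm i w hw]
  have d2 : dist (RT.ι (h * (FreeGroup.of true) ^ m)) (RT.ι h) = ((m.natAbs : ℕ) : ℝ) := by
    rw [dist_comm, exi_dist, inv_mul_cancel_left]
    have := exi_norm m 1 exi_one_head
    rw [mul_one, FreeGroup.norm_one, add_zero] at this
    rw [this]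
  have d3 : dist (RT.ι (h * ((FreeGroup.of true) ^ i * w))) (RT.ι (h * (FreeGroup.of true) ^ m)) =
      (((i - m).natAbs + FreeGroup.norm w : ℕ) : ℝ) := by
    rw [dist_comm, exi_dist]
    have h1 : (h * (FreeGroup.of true : H) ^ m)⁻¹ * (h * ((FreeGroup.of true) ^ i * w)) =
        (FreeGroup.of true) ^ (i - m) * w := by
      rw [sub_eq_neg_add, zpow_add, zpow_neg]
      group
    rw [h1, exi_norm _ w hw]
  unfold gprod
  rw [d1, d2, d3]
  have e1 : (i.natAbs : ℤ) + m.natAbs - (i - m).natAbs = 2 * |m| := by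
    rcases hm with ⟨h1, h2⟩ | ⟨h1, h2⟩
    · rw [abs_of_nonneg h1]; omega
    · rw [abs_of_nonpos h1]; omega
  have e2 : (i.natAbs : ℝ) + m.natAbs - (i - m).natAbs = 2 * |(m : ℝ)| := by
    exact_mod_cast e1
  push_cast
  linarith

theorem exi_base {X : Type} [MetricSpace X] (o o' x y : X) :
    gprod o' x y - dist o o' ≤ gprod o x y := by
  unfold gprod
  have h1 : dist x o' ≤ dist x o + dist o o' := dist_triangle _ _ _
  have h2 : dist y o' ≤ dist y o + dist o o' := dist_triangle _ _ _
  linarith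

theorem exi_gp_le {X : Type} [MetricSpace X] (o x y : X) : gprod o x y ≤ dist x o := by
  unfold gprod
  have h1 : dist y o ≤ dist y x + dist x o := dist_triangle _ _ _
  rw [dist_comm y x] at h1
  linarith

theorem exi_gp_comm {X : Type} [MetricSpace X] (o x y : X) : gprod o x y = gprod o y x := by
  unfold gprod
  rw [dist_comm x y]
  ring

/-- two points close to the same end have a large Gromov product -/
theorem exi_two {X : Type} [MetricSpace X] {δ : ℝ} (hyp : HypC X δ) {o x y : X} {R : ℝ}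
    {ζ : Boundary X} (hδ : 0 ≤ δ) (h : PB o R x ζ) (h' : PB o R y ζ) :
    R - 2 * δ ≤ gprod o x y := by
  obtain ⟨v, hv, N', hN'⟩ := h'
  obtain ⟨N, hN⟩ := pb_of_rep hyp h v hv
  have h1 := hN (max N N') (le_max_left _ _)
  have h2 := hN' (max N N') (le_max_right _ _)
  have h3 := hyp o x y (v.seq (max N N'))
  rw [exi_gp_comm o (v.seq _) y] at h3
  have h4 : R - δ ≤ min (gprod o x (v.seq (max N N'))) (gprod o y (v.seq (max N N'))) :=
    le_min h1 (by linarith)
  linarith

/-- far away, the coordinate along the c-line is large -/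
theorem exi_far (RT : Realz TG H) (h : H) (ξ' : Boundary RT.X)
    (hno : ∀ (i : ℤ) (b : Bool), ¬ EndIn RT (HS (h * FreeGroup.of true ^ i) b) ξ') (M : ℕ) :
    ∃ R : ℝ, ∀ (i : ℤ) (w : H), (∀ e', w.toWord.head? ≠ some (true, e')) →
      PB (RT.ι 1) R (RT.ι (h * ((FreeGroup.of true) ^ i * w))) ξ' → (M : ℤ) < |i| := by
  have hend : ∀ (i : ℤ) (b : Bool), EndIn RT (HS (h * FreeGroup.of true ^ i) b)ᶜ ξ' := by
    intro i b
    rcases e_side RT ξ' (h * FreeGroup.of true ^ i) b with h1 | h1
    · exact absurd h1 (hno i b)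
    · exact h1
  choose Rf hRf using hend
  obtain ⟨R1, hR1⟩ : ∃ R1 : ℝ, ∀ i ∈ Finset.Icc (-(M : ℤ)) M, ∀ b : Bool, Rf i b ≤ R1 := by
    obtain ⟨R1, hR1⟩ := ((((Finset.Icc (-(M : ℤ)) M) ×ˢ (Finset.univ : Finset Bool)).image
      (fun p => Rf p.1 p.2)).finite_toSet).bddAbove
    refine ⟨R1, fun i hi b => hR1 ?_⟩
    simp only [Finset.coe_image, Set.mem_image]
    exact ⟨(i, b), by simpa using hi, rfl⟩
  refine ⟨max R1 (FreeGroup.norm h + M + 1), ?_⟩
  intro i w hw hPB
  by_contra hcon
  push Not at hcon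
  have hi : i ∈ Finset.Icc (-(M : ℤ)) M := by
    rw [Finset.mem_Icc]
    exact abs_le.mp hcon
  cases hh : w.toWord.head? with
  | none =>
    have hw1 : w = 1 := by
      rw [List.head?_eq_none_iff] at hh
      rwa [FreeGroup.toWord_eq_nil_iff] at hh
    subst hw1
    obtain ⟨u, hu, N, hN⟩ := hPB
    have h1 := hN N le_rfl
    have h2 := exi_gp_le (RT.ι 1) (RT.ι (h * ((FreeGroup.of true) ^ i * 1))) (u.seq N)
    have h3 : dist (RT.ι (h * ((FreeGroup.of true) ^ i * 1))) (RT.ι 1) ≤
        FreeGroup.norm h + M := by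
      rw [dist_comm, exi_dist, inv_one, one_mul]
      have h4 := FreeGroup.norm_mul_le h ((FreeGroup.of true) ^ i * 1)
      rw [exi_norm i 1 exi_one_head, FreeGroup.norm_one, add_zero] at h4
      have h5 : i.natAbs ≤ M := by
        rw [Int.abs_eq_natAbs] at hcon
        exact_mod_cast hcon
      have h6 : FreeGroup.norm (h * ((FreeGroup.of true) ^ i * 1)) ≤ FreeGroup.norm h + M := by
        omega
      exact_mod_cast h6
    have h7 := le_max_right R1 ((FreeGroup.norm h : ℝ) + M + 1)
    linarith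
  | some p =>
    obtain ⟨p1, p2⟩ := p
    cases p1 with
    | true => exact hw p2 hh
    | false =>
      have h1 : h * ((FreeGroup.of true) ^ i * w) ∈ HS (h * FreeGroup.of true ^ i) p2 := by
        unfold HS
        rw [Set.mem_setOf_eq]
        have h2 : (h * FreeGroup.of true ^ i)⁻¹ * (h * ((FreeGroup.of true) ^ i * w)) = w := by
          group
        rw [h2, hh]
      have h3 := hRf i p2 _ (hPB.mono ((hR1 i hi p2).trans (le_max_left _ _)))
      exact h3 h1

theorem e_line_xi (RT : Realz TG H) (h : H) (ξ' : Boundary RT.X)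
    (h1 : ¬ IsCEnd RT h true ξ') (h2 : ¬ IsCEnd RT h false ξ') :
    ∃ k b, EndIn RT (HS k b) ξ' ∧ ∀ j : ℤ, h * FreeGroup.of true ^ j ∉ HS k b := by
  by_cases hno : ∀ (i : ℤ) (b : Bool), ¬ EndIn RT (HS (h * FreeGroup.of true ^ i) b) ξ'
  swap
  · push Not at hno
    obtain ⟨i, b, hib⟩ := hno
    refine ⟨_, b, hib, ?_⟩
    intro j hj
    unfold HS at hj
    rw [Set.mem_setOf_eq] at hj
    have e1 : (h * FreeGroup.of true ^ i)⁻¹ * (h * FreeGroup.of true ^ j) =
        (FreeGroup.of true : H) ^ (j - i) * 1 := by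
      rw [mul_one, zpow_sub]
      group
    rw [e1] at hj
    obtain ⟨n, hn | hn⟩ := (j - i).eq_nat_or_neg
    · have e2 : (FreeGroup.of true : H) ^ (j - i) = (FreeGroup.mk [(true, true)]) ^ n := by
        rw [hn, zpow_natCast]; rfl
      rw [e2, exi_word _ _ _ exi_one_head] at hj
      cases n with
      | zero => simp at hj
      | succ n => simp [List.replicate_succ] at hj
    · have e2 : (FreeGroup.of true : H) ^ (j - i) = (FreeGroup.mk [(true, false)]) ^ n := by
        rw [hn, zpow_neg, zpow_natCast, ← inv_pow]; rfl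
      rw [e2, exi_word _ _ _ exi_one_head] at hj
      cases n with
      | zero => simp at hj
      | succ n => simp [List.replicate_succ] at hj
  exfalso
  have hyp := hyp_RT RT
  -- base change
  have hb : ∀ x y : RT.X, gprod (RT.ι h) x y - FreeGroup.norm h ≤ gprod (RT.ι 1) x y := by
    intro x y
    have e1 := exi_base (RT.ι 1) (RT.ι h) x y
    rwa [exi_dist, inv_one, one_mul] at e1
  have hb' : ∀ x y : RT.X, gprod (RT.ι 1) x y - FreeGroup.norm h ≤ gprod (RT.ι h) x y := by
    intro x y
    have e1 := exi_base (RT.ι h) (RT.ι 1) x y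
    rwa [dist_comm, exi_dist, inv_one, one_mul] at e1
  obtain ⟨R0, hR0⟩ := exi_far RT h ξ' hno 50
  set R1 : ℝ := max R0 (FreeGroup.norm h + 70) with hR1
  -- signs agree
  have hsign : ∀ (i i' : ℤ) (w w' : H), (∀ e', w.toWord.head? ≠ some (true, e')) →
      (∀ e', w'.toWord.head? ≠ some (true, e')) →
      PB (RT.ι 1) R1 (RT.ι (h * ((FreeGroup.of true) ^ i * w))) ξ' →
      PB (RT.ι 1) R1 (RT.ι (h * ((FreeGroup.of true) ^ i' * w'))) ξ' → 0 < i → 0 < i' := by
    intro i i' w w' hw hw' hp hp' hi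
    by_contra hcon
    push Not at hcon
    have k1 := hR0 i w hw (hp.mono (le_max_left _ _))
    have k2 := hR0 i' w' hw' (hp'.mono (le_max_left _ _))
    have k3 := exi_two hyp (by norm_num) hp hp'
    have k4 := hb' (RT.ι (h * ((FreeGroup.of true) ^ i * w)))
      (RT.ι (h * ((FreeGroup.of true) ^ i' * w')))
    have k5 := le_max_right R0 ((FreeGroup.norm h : ℝ) + 70)
    rw [← hR1] at k5
    have k6 : (50 : ℤ) ≤ i := by
      rw [abs_of_pos hi] at k1
      push_cast at k1
      omega
    have k7 : i' ≤ -50 := by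
      rw [abs_of_nonpos hcon] at k2
      push_cast at k2
      omega
    have g1 := exi_gp RT h w 50 i hw (Or.inl ⟨by norm_num, k6⟩)
    have g2 := exi_gp RT h w' (-50) i' hw' (Or.inr ⟨by norm_num, k7⟩)
    have g3 := exi_gp RT h 1 (-50) (-50) exi_one_head (Or.inr ⟨by norm_num, le_rfl⟩)
    have g4 : gprod (RT.ι h) (RT.ι (h * (FreeGroup.of true) ^ (50 : ℤ)))
        (RT.ι (h * (FreeGroup.of true) ^ (-50 : ℤ))) = 0 := by
      have d1 : ∀ m : ℤ, dist (RT.ι (h * (FreeGroup.of true) ^ m)) (RT.ι h) =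
          ((m.natAbs : ℕ) : ℝ) := by
        intro m
        rw [dist_comm, exi_dist, inv_mul_cancel_left]
        have := exi_norm m 1 exi_one_head
        rw [mul_one, FreeGroup.norm_one, add_zero] at this
        rw [this]
      have d2 : dist (RT.ι (h * (FreeGroup.of true) ^ (50 : ℤ)))
          (RT.ι (h * (FreeGroup.of true) ^ (-50 : ℤ))) = 100 := by
        rw [exi_dist]
        have e1 : (h * (FreeGroup.of true : H) ^ (50 : ℤ))⁻¹ *
            (h * (FreeGroup.of true) ^ (-50 : ℤ)) = (FreeGroup.of true) ^ (-100 : ℤ) * 1 := by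
          group
        rw [e1, exi_norm _ 1 exi_one_head, FreeGroup.norm_one]
        norm_num
      unfold gprod
      rw [d1, d1, d2]
      norm_num
    have q1 := hyp (RT.ι h) (RT.ι (h * (FreeGroup.of true) ^ (50 : ℤ)))
      (RT.ι (h * ((FreeGroup.of true) ^ i' * w'))) (RT.ι (h * ((FreeGroup.of true) ^ i * w)))
    have q2 := hyp (RT.ι h) (RT.ι (h * (FreeGroup.of true) ^ (50 : ℤ)))
      (RT.ι (h * (FreeGroup.of true) ^ (-50 : ℤ))) (RT.ι (h * ((FreeGroup.of true) ^ i' * w')))
    have c1 : gprod (RT.ι h) (RT.ι (h * (FreeGroup.of true) ^ (50 : ℤ)))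
        (RT.ι (h * ((FreeGroup.of true) ^ i * w))) = 50 := by
      rw [exi_gp_comm, g1]; norm_num
    have c2 : gprod (RT.ι h) (RT.ι (h * ((FreeGroup.of true) ^ i' * w')))
        (RT.ι (h * (FreeGroup.of true) ^ (-50 : ℤ))) = 50 := by
      rw [g2]; norm_num
    rw [c1] at q1
    rw [c2, g4] at q2
    have m1 : (50 : ℝ) ≤ min 50 (gprod (RT.ι h) (RT.ι (h * ((FreeGroup.of true) ^ i * w)))
        (RT.ι (h * ((FreeGroup.of true) ^ i' * w')))) := le_min le_rfl (by linarith)
    have m3 : (40 : ℝ) ≤ gprod (RT.ι h) (RT.ι (h * (FreeGroup.of true) ^ (50 : ℤ)))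
        (RT.ι (h * ((FreeGroup.of true) ^ i' * w'))) := by linarith
    have m2 : (40 : ℝ) ≤ min (gprod (RT.ι h) (RT.ι (h * (FreeGroup.of true) ^ (50 : ℤ)))
        (RT.ι (h * ((FreeGroup.of true) ^ i' * w')))) 50 := le_min m3 (by norm_num)
    linarith
  -- convergence to one of the ends
  have hconv : ∀ (b : Bool), (∀ (R : ℝ), R1 ≤ R → ∀ (i : ℤ) (w : H),
      (∀ e', w.toWord.head? ≠ some (true, e')) →
      PB (RT.ι 1) R (RT.ι (h * ((FreeGroup.of true) ^ i * w))) ξ' →
        if b then 0 < i else i ≤ 0) → IsCEnd RT h b ξ' := by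
    intro b hb0 R
    obtain ⟨N, hN⟩ := exists_nat_ge (R + 10 + FreeGroup.norm h)
    refine ⟨N, fun n hn => ?_⟩
    obtain ⟨Rn, hRn⟩ := exi_far RT h ξ' hno n
    obtain ⟨x, hx⟩ := pb_vert RT (RT.ι 1) ξ' (max (max R1 Rn) (R + 10))
    obtain ⟨i, w, hiw, hw⟩ := exi_dec (h⁻¹ * x)
    have hxe : x = h * ((FreeGroup.of true) ^ i * w) := by
      rw [← hiw]; group
    rw [hxe] at hx
    have k1 := hRn i w hw (hx.mono ((le_max_right _ _).trans (le_max_left _ _)))
    have k2 := hb0 R1 le_rfl i w hw (hx.mono ((le_max_left _ _).trans (le_max_left _ _)))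
    have hn' : (N : ℝ) ≤ n := by exact_mod_cast hn
    have key : (n : ℝ) ≤ gprod (RT.ι h) (RT.ι (h * ((FreeGroup.of true) ^ i * w)))
        (RT.ι (h * FreeGroup.of true ^ (if b then (n : ℤ) else -(n : ℤ)))) := by
      cases b with
      | true =>
        simp only [if_true] at k2 ⊢
        rw [abs_of_pos k2] at k1
        rw [exi_gp RT h w n i hw (Or.inl ⟨by omega, by omega⟩)]
        push_cast
        exact le_abs_self _
      | false =>
        simp only [Bool.false_eq_true, if_false] at k2 ⊢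
        rw [abs_of_nonpos k2] at k1
        rw [exi_gp RT h w (-n) i hw (Or.inr ⟨by omega, by omega⟩)]
        push_cast
        rw [abs_neg]
        exact le_abs_self _
    have k3 := hb (RT.ι (h * ((FreeGroup.of true) ^ i * w)))
        (RT.ι (h * FreeGroup.of true ^ (if b then (n : ℤ) else -(n : ℤ))))
    have k4 := pb_move hyp (hx.mono (le_max_right _ _)) (y :=
      RT.ι (h * FreeGroup.of true ^ (if b then (n : ℤ) else -(n : ℤ)))) (by linarith)
    have k5 : R + 10 - 10 = R := by ring
    rwa [k5] at k4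
  -- choose the sign
  obtain ⟨x, hx⟩ := pb_vert RT (RT.ι 1) ξ' R1
  obtain ⟨i, w, hiw, hw⟩ := exi_dec (h⁻¹ * x)
  have hxe : x = h * ((FreeGroup.of true) ^ i * w) := by
    rw [← hiw]; group
  rw [hxe] at hx
  by_cases hi : 0 < i
  · apply h1
    apply hconv true
    intro R hR i' w' hw' hp'
    simp only [if_true]
    exact hsign i i' w w' hw hw' hx (hp'.mono hR) hi
  · apply h2
    apply hconv false
    intro R hR i' w' hw' hp'
    simp only [Bool.false_eq_true, if_false]
    by_contra hcon
    push Not at hcon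
    exact hi (hsign i' i w' w hw' hw (hp'.mono hR) hx hcon)

end Pool.Agent.Helper548.HB
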