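import Pool.Agent.Helper548.HB.Defs
import Pool.Agent.Helper548.HB.P_pb_near
import Pool.Agent.Helper548.HB.P_near_symm
import Pool.Agent.Helper548.HB.P_hyp_RT

set_option autoImplicit false

/-! Hyperbolic spaces, Gromov boundaries, hierarchically hyperbolic spaces and groups, the
hierarchically hyperbolic boundary and its topology. -/

namespace Pool.Agent.Helper548.HB



theorem e_near (RT : Realz TG H) (A : Set H) (ξ : Boundary RT.X) (h : EndIn RT A ξ) :
    ∃ R : ℝ, ∀ ξ', Near (RT.ι 1) R ξ ξ' → EndIn RT A ξ' := by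
  obtain ⟨R0, h0⟩ := h
  refine ⟨R0 + 30, fun ξ' hN => ⟨R0 + 30, fun g hg => h0 g ?_⟩⟩
  have h1 := pb_near (by norm_num : (0 : ℝ) ≤ 10) (hyp_RT RT) hg (near_symm hN)
  exact h1.mono (by linarith)

end Pool.Agent.Helper548.HB
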