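import Pool.Agent.Helper548.HB.Defs
import Pool.Agent.Helper548.HB.P_TG_dist
import Pool.Agent.Helper548.HB.P_pb_of_rep
import Pool.Agent.Helper548.HB.P_near_of_pb
import Pool.Agent.Helper548.HB.P_seq_vert
import Pool.Agent.Helper548.HB.P_hyp_RT
import Pool.Agent.Helper548.HB.P_e_side
import Pool.Agent.Helper548.HB.P_e_HS_c
import Pool.Agent.Helper548.HB.P_e_excl

set_option autoImplicit false

/-! Hyperbolic spaces, Gromov boundaries, hierarchically hyperbolic spaces and groups, the
hierarchically hyperbolic boundary and its topology. -/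

namespace Pool.Agent.Helper548.HB



/-- blocks `n, ..., n+d-1` of the word attached to `f` -/
def e_uncount_S (f : ℕ → Bool) : ℕ → ℕ → List (Bool × Bool)
  | _, 0 => []
  | n, (d + 1) => (false, true) :: (true, f n) :: e_uncount_S f (n + 1) d

theorem e_uncount_red (f : ℕ → Bool) (M : List (Bool × Bool)) (hM : FreeGroup.IsReduced M)
    (hh : ∀ x ∈ M.head?, x.1 = false) : ∀ d n : ℕ,
    FreeGroup.IsReduced (e_uncount_S f n d ++ M) ∧ ∀ x ∈ (e_uncount_S f n d ++ M).head?, x.1 = false := by
  intro d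
  induction d with
  | zero => intro n; exact ⟨by simpa [e_uncount_S] using hM, by simpa [e_uncount_S] using hh⟩
  | succ d ih =>
    intro n
    obtain ⟨h1, h2⟩ := ih (n + 1)
    refine ⟨?_, ?_⟩
    · simp only [e_uncount_S, List.cons_append]
      rw [FreeGroup.isReduced_cons_cons]
      refine ⟨by simp, ?_⟩
      cases hL : (e_uncount_S f (n + 1) d ++ M) with
      | nil => exact FreeGroup.IsReduced.singleton
      | cons y ys =>
        rw [FreeGroup.isReduced_cons_cons]
        rw [hL] at h1 h2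
        refine ⟨?_, h1⟩
        intro h3
        have h4 := h2 y (by simp)
        rw [h4] at h3
        exact absurd h3 (by simp)
    · intro x hx
      simp only [e_uncount_S, List.cons_append, List.head?_cons, Option.mem_def, Option.some.injEq] at hx
      rw [← hx]

theorem e_uncount_red0 (f : ℕ → Bool) (d n : ℕ) : FreeGroup.IsReduced (e_uncount_S f n d) := by
  have := (e_uncount_red f [] FreeGroup.IsReduced.nil (by simp) d n).1
  simpa using this

theorem e_uncount_add (f : ℕ → Bool) : ∀ d n e : ℕ,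
    e_uncount_S f n (d + e) = e_uncount_S f n d ++ e_uncount_S f (n + d) e := by
  intro d
  induction d with
  | zero => intro n e; simp [e_uncount_S]
  | succ d ih =>
    intro n e
    have h1 : d + 1 + e = (d + e) + 1 := by ring
    rw [h1]
    simp only [e_uncount_S, List.cons_append]
    rw [ih (n + 1) e]
    have h2 : n + 1 + d = n + (d + 1) := by ring
    rw [h2]

theorem e_uncount_len (f : ℕ → Bool) : ∀ d n : ℕ, (e_uncount_S f n d).length = 2 * d := by
  intro d
  induction d with
  | zero => intro n; simp [e_uncount_S]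
  | succ d ih =>
    intro n
    simp only [e_uncount_S, List.length_cons]
    rw [ih (n + 1)]
    ring

theorem e_uncount_congr (f g : ℕ → Bool) : ∀ d n : ℕ, (∀ i, n ≤ i → i < n + d → f i = g i) →
    e_uncount_S f n d = e_uncount_S g n d := by
  intro d
  induction d with
  | zero => intro n _; simp [e_uncount_S]
  | succ d ih =>
    intro n h
    simp only [e_uncount_S]
    rw [ih (n + 1) (fun i h1 h2 => h i (by omega) (by omega)), h n le_rfl (by omega)]

/-- vertices converging to the end attached to `f` -/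
def e_uncount_h (f : ℕ → Bool) (n : ℕ) : H := FreeGroup.mk (e_uncount_S f 0 n)

theorem e_uncount_h_add (f : ℕ → Bool) (n d : ℕ) :
    (e_uncount_h f n)⁻¹ * e_uncount_h f (n + d) = FreeGroup.mk (e_uncount_S f n d) := by
  unfold e_uncount_h
  rw [e_uncount_add f n 0 d, ← FreeGroup.mul_mk, zero_add]
  group

theorem e_uncount_norm (f : ℕ → Bool) (n d : ℕ) :
    FreeGroup.norm (FreeGroup.mk (e_uncount_S f n d)) = 2 * d := by
  unfold FreeGroup.norm
  rw [FreeGroup.toWord_mk, (e_uncount_red0 f d n).reduce_eq, e_uncount_len]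

theorem e_uncount_dist (f : ℕ → Bool) (n d : ℕ) :
    FreeGroup.norm ((e_uncount_h f n)⁻¹ * e_uncount_h f (n + d)) = 2 * d := by
  rw [e_uncount_h_add, e_uncount_norm]

theorem e_uncount_gprod (RT : Realz TG H) (f : ℕ → Bool) (m n : ℕ) :
    gprod (RT.ι 1) (RT.ι (e_uncount_h f m)) (RT.ι (e_uncount_h f n)) = 2 * (min m n : ℕ) := by
  have hnm : ∀ m, (TG.dist (e_uncount_h f m) 1 : ℝ) = 2 * m := by
    intro m
    have h1 := e_uncount_dist f 0 m
    rw [SimpleGraph.dist_comm, TG_dist]
    have h0 : e_uncount_h f 0 = 1 := rfl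
    rw [zero_add, h0] at h1
    rw [h1]; push_cast; ring
  have hd : ∀ m d, (TG.dist (e_uncount_h f m) (e_uncount_h f (m + d)) : ℝ) = 2 * d := by
    intro m d
    rw [TG_dist, e_uncount_dist]
    push_cast; ring
  unfold gprod
  rw [RT.dist_ι, RT.dist_ι, RT.dist_ι, hnm, hnm]
  rcases le_total m n with h | h
  · obtain ⟨d, rfl⟩ := Nat.exists_eq_add_of_le h
    rw [hd, min_eq_left h]
    push_cast; ring
  · obtain ⟨d, rfl⟩ := Nat.exists_eq_add_of_le h
    rw [SimpleGraph.dist_comm, hd, min_eq_right h]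
    push_cast; ring

theorem e_uncount_lim (RT : Realz TG H) (f : ℕ → Bool) : ∃ ξ : Boundary RT.X,
    ∀ R : ℝ, ∃ N : ℕ, ∀ n ≥ N, PB (RT.ι 1) R (RT.ι (e_uncount_h f n)) ξ := by
  refine seq_vert (RT.ι 1) (fun n => RT.ι (e_uncount_h f n)) ?_
  intro R
  obtain ⟨N, hN⟩ := exists_nat_ge R
  refine ⟨N, fun m hm n hn => ?_⟩
  rw [e_uncount_gprod]
  have h1 : N ≤ min m n := le_min hm hn
  have h2 : (N : ℝ) ≤ (min m n : ℕ) := by exact_mod_cast h1
  have h3 : (0:ℝ) ≤ N := Nat.cast_nonneg N
  linarith

/-- the end attached to `f` -/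
noncomputable def e_uncount_xi (RT : Realz TG H) (f : ℕ → Bool) : Boundary RT.X :=
  (e_uncount_lim RT f).choose

theorem e_uncount_xi_spec (RT : Realz TG H) (f : ℕ → Bool) :
    ∀ R : ℝ, ∃ N : ℕ, ∀ n ≥ N, PB (RT.ι 1) R (RT.ι (e_uncount_h f n)) (e_uncount_xi RT f) :=
  (e_uncount_lim RT f).choose_spec

theorem e_uncount_mem (f : ℕ → Bool) (n d : ℕ) : e_uncount_h f (n + (d + 1)) ∈ HS (e_uncount_h f n) true := by
  unfold HS
  show ((e_uncount_h f n)⁻¹ * e_uncount_h f (n + (d + 1))).toWord.head? = some (false, true)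
  rw [e_uncount_h_add, FreeGroup.toWord_mk, (e_uncount_red0 f (d + 1) n).reduce_eq]
  rfl

theorem e_uncount_end (RT : Realz TG H) (f : ℕ → Bool) (A : Set H) (hA : EndIn RT A (e_uncount_xi RT f))
    (N₀ : ℕ) : ∃ m ≥ N₀, e_uncount_h f m ∈ A := by
  obtain ⟨R, hR⟩ := hA
  obtain ⟨N, hN⟩ := e_uncount_xi_spec RT f R
  exact ⟨max N N₀, le_max_right _ _, hR _ (hN _ (le_max_left _ _))⟩

theorem e_uncount_in (RT : Realz TG H) (f : ℕ → Bool) (n : ℕ) :
    EndIn RT (HS (e_uncount_h f n) true) (e_uncount_xi RT f) := by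
  rcases e_side RT (e_uncount_xi RT f) (e_uncount_h f n) true with h | h
  · exact h
  · exfalso
    obtain ⟨m, hm, hm'⟩ := e_uncount_end RT f _ h (n + 1)
    obtain ⟨d, rfl⟩ := Nat.exists_eq_add_of_le hm
    have h1 : n + 1 + d = n + (d + 1) := by ring
    rw [h1] at hm'
    exact hm' (e_uncount_mem f n d)

theorem e_uncount_big (f : ℕ → Bool) (n : ℕ) (h : H) (hh : h ∈ HS (e_uncount_h f n) true) :
    2 * n ≤ FreeGroup.norm h := by
  have h1 : ((e_uncount_h f n)⁻¹ * h).toWord.head? = some (false, true) := hh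
  set w := ((e_uncount_h f n)⁻¹ * h).toWord with hw
  have h2 : h = FreeGroup.mk (e_uncount_S f 0 n ++ w) := by
    rw [← FreeGroup.mul_mk, hw, FreeGroup.mk_toWord]
    unfold e_uncount_h
    group
  have h3 : FreeGroup.IsReduced (e_uncount_S f 0 n ++ w) :=
    (e_uncount_red f w FreeGroup.isReduced_toWord (by rw [h1]; simp) n 0).1
  rw [h2]
  unfold FreeGroup.norm
  rw [FreeGroup.toWord_mk, h3.reduce_eq, List.length_append, e_uncount_len]
  omega

theorem e_uncount_generic (RT : Realz TG H) (f : ℕ → Bool) : Generic RT (e_uncount_xi RT f) := by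
  intro h b hc
  have h1 : ∀ n, h ∈ HS (e_uncount_h f n) true := by
    intro n
    obtain ⟨R, hR⟩ := e_uncount_in RT f n
    obtain ⟨N, hN⟩ := hc R
    have h2 := hR _ (hN N le_rfl)
    exact (e_HS_c _ _ _ _).mp h2
  have h2 := e_uncount_big f (FreeGroup.norm h + 1) h (h1 _)
  omega

theorem e_uncount_inj (RT : Realz TG H) : Function.Injective (e_uncount_xi RT) := by
  intro f g hfg
  by_contra hne
  have hex : ∃ n, f n ≠ g n := by
    by_contra hcon
    push Not at hcon
    exact hne (funext hcon)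
  classical
  set n := Nat.find hex with hn
  have hn1 : f n ≠ g n := Nat.find_spec hex
  have hn2 : ∀ i < n, f i = g i := by
    intro i hi
    by_contra hc
    exact Nat.find_min hex hi hc
  have hS : e_uncount_S f 0 n = e_uncount_S g 0 n :=
    e_uncount_congr f g n 0 (fun i _ hi => hn2 i (by omega))
  have hg : g n = !(f n) := by
    cases hf : f n <;> cases hg : g n <;> simp_all
  have hout : ∀ e, e_uncount_h g (n + 1 + e) ∉ HS (e_uncount_h f (n + 1)) true := by
    intro e hmem
    have h1 : ((e_uncount_h f (n + 1))⁻¹ * e_uncount_h g (n + 1 + e)).toWord.head? = some (false, true) := hmem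
    have h2 : (e_uncount_h f (n + 1))⁻¹ * e_uncount_h g (n + 1 + e)
        = FreeGroup.mk ((true, g n) :: (true, g n) :: e_uncount_S g (n + 1) e) := by
      have e1 : e_uncount_h f (n + 1) = FreeGroup.mk (e_uncount_S g 0 n) * FreeGroup.mk [(false, true)] *
          FreeGroup.mk [(true, f n)] := by
        unfold e_uncount_h
        rw [e_uncount_add f n 0 1, hS, FreeGroup.mul_mk, FreeGroup.mul_mk]
        simp [e_uncount_S]
      have e2 : e_uncount_h g (n + 1 + e) = FreeGroup.mk (e_uncount_S g 0 n) * FreeGroup.mk [(false, true)] *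
          FreeGroup.mk [(true, g n)] * FreeGroup.mk (e_uncount_S g (n + 1) e) := by
        unfold e_uncount_h
        rw [e_uncount_add g (n + 1) 0 e, e_uncount_add g n 0 1, FreeGroup.mul_mk, FreeGroup.mul_mk,
          FreeGroup.mul_mk]
        simp [e_uncount_S]
      have e3 : (FreeGroup.mk [(true, f n)] : H)⁻¹ = FreeGroup.mk [(true, g n)] := by
        rw [hg, FreeGroup.inv_mk]
        simp [FreeGroup.invRev]
      have e4 : (FreeGroup.mk ((true, g n) :: (true, g n) :: e_uncount_S g (n + 1) e) : H)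
          = FreeGroup.mk [(true, g n)] * FreeGroup.mk [(true, g n)] * FreeGroup.mk (e_uncount_S g (n + 1) e) := by
        rw [FreeGroup.mul_mk, FreeGroup.mul_mk]
        simp
      rw [e1, e2, e4]
      have key : ∀ A B x y Z : H, x⁻¹ = y → (A * B * x)⁻¹ * (A * B * y * Z) = y * y * Z := by
        intro A B x y Z hxy
        rw [← hxy]
        group
      exact key _ _ _ _ _ e3
    have h3 : FreeGroup.IsReduced ((true, g n) :: (true, g n) :: e_uncount_S g (n + 1) e) := by
      rw [FreeGroup.isReduced_cons_cons]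
      refine ⟨by simp, ?_⟩
      have h4 := e_uncount_red g [] FreeGroup.IsReduced.nil (by simp) e (n + 1)
      rw [List.append_nil] at h4
      cases hL : e_uncount_S g (n + 1) e with
      | nil => exact FreeGroup.IsReduced.singleton
      | cons y ys =>
        rw [FreeGroup.isReduced_cons_cons]
        rw [hL] at h4
        refine ⟨?_, h4.1⟩
        intro h5
        have h6 := h4.2 y (by simp)
        rw [h6] at h5
        exact absurd h5 (by simp)
    rw [h2, FreeGroup.toWord_mk, h3.reduce_eq] at h1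
    simp at h1
  have h5 := e_uncount_in RT f (n + 1)
  rw [hfg] at h5
  obtain ⟨m, hm, hm'⟩ := e_uncount_end RT g _ h5 (n + 1)
  obtain ⟨e, rfl⟩ := Nat.exists_eq_add_of_le hm
  exact hout e hm'

theorem e_uncount (RT : Realz TG H) : ¬ {ξ : Boundary RT.X | Generic RT ξ}.Countable := by
  intro hc
  have h1 : Countable {ξ : Boundary RT.X | Generic RT ξ} := hc.to_subtype
  let F : (ℕ → Bool) → {ξ : Boundary RT.X | Generic RT ξ} :=
    fun f => ⟨e_uncount_xi RT f, e_uncount_generic RT f⟩
  have hF : Function.Injective F := by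
    intro f g h
    exact e_uncount_inj RT (congrArg Subtype.val h)
  have h2 : Countable (ℕ → Bool) := hF.countable
  obtain ⟨s, hs⟩ := exists_surjective_nat (ℕ → Bool)
  obtain ⟨n, hn⟩ := hs (fun n => !(s n n))
  have := congrFun hn n
  cases h : s n n <;> simp_all

end Pool.Agent.Helper548.HB
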