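import Pool.Agent.Helper548.HB.Defs

set_option autoImplicit false

/-! Hyperbolic spaces, Gromov boundaries, hierarchically hyperbolic spaces and groups, the
hierarchically hyperbolic boundary and its topology. -/

namespace Pool.Agent.Helper548.HB



theorem exists_tr (D : GData) (k : D.G) (x : D.Q) :
    ∃ w : V, D.ι w = (k • x).out⁻¹ * k * x.out := by
  have h1 : (((k • x).out : D.G) : D.Q) = ((k * x.out : D.G) : D.Q) := by
    rw [QuotientGroup.out_eq']
    conv_lhs => rw [← QuotientGroup.out_eq' x]
    rfl
  have h2 := QuotientGroup.eq.1 h1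
  rw [mul_assoc]
  exact h2

end Pool.Agent.Helper548.HB
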