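import Pool.Agent.Helper548.HB.Defs

set_option autoImplicit false

/-! Hyperbolic spaces, Gromov boundaries, hierarchically hyperbolic spaces and groups, the
hierarchically hyperbolic boundary and its topology. -/

namespace Pool.Agent.Helper548.HB



theorem hyp_real : HypC ℝ 0 := by
  intro o x y z
  unfold gprod
  simp only [Real.dist_eq, sub_zero]
  rcases abs_cases (x - o) with ⟨h1, h1'⟩ | ⟨h1, h1'⟩ <;>
  rcases abs_cases (y - o) with ⟨h2, h2'⟩ | ⟨h2, h2'⟩ <;>
  rcases abs_cases (z - o) with ⟨h3, h3'⟩ | ⟨h3, h3'⟩ <;>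
  rcases abs_cases (x - y) with ⟨h4, h4'⟩ | ⟨h4, h4'⟩ <;>
  rcases abs_cases (x - z) with ⟨h5, h5'⟩ | ⟨h5, h5'⟩ <;>
  rcases abs_cases (z - y) with ⟨h6, h6'⟩ | ⟨h6, h6'⟩ <;>
  rw [min_le_iff] <;>
  first
  | (left; linarith)
  | (right; linarith)
  | (rcases le_total x y with h | h <;> first | (left; linarith) | (right; linarith))

end Pool.Agent.Helper548.HB
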