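import Pool.Agent.Helper548.HB.Defs
import Pool.Agent.Helper548.HB.P_hyp_real
import Pool.Agent.Helper548.HB.P_near_of_rep

set_option autoImplicit false

/-! Hyperbolic spaces, Gromov boundaries, hierarchically hyperbolic spaces and groups, the
hierarchically hyperbolic boundary and its topology. -/

namespace Pool.Agent.Helper548.HB



theorem near_real (o R : ℝ) (b b' : Bool) (hR : 0 < R) (h : Near o R (rinf b) (rinf b')) :
    b = b' := by
  by_contra hne
  obtain ⟨N, hN⟩ := near_of_rep le_rfl hyp_real h (rseq b) (rseq b') rfl rfl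
  obtain ⟨M, hM⟩ := exists_nat_ge |o|
  have h1 := hN (max N M) (le_max_left _ _) (max N M) (le_max_left _ _)
  have hMM : (M : ℝ) ≤ ((max N M : ℕ) : ℝ) := by exact_mod_cast le_max_right N M
  set k : ℝ := ((max N M : ℕ) : ℝ) with hk
  have hok : |o| ≤ k := hM.trans hMM
  have ho1 : o ≤ k := (le_abs_self o).trans hok
  have ho2 : -k ≤ o := by linarith [neg_abs_le o]
  have hk0 : 0 ≤ k := (abs_nonneg o).trans hok
  have e1 : |k - o| = k - o := abs_of_nonneg (by linarith)
  have e2 : |-k - o| = k + o := by rw [abs_of_nonpos (by linarith)]; ring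
  have e3 : |k - -k| = 2 * k := by rw [abs_of_nonneg (by linarith)]; ring
  have e4 : |-k - k| = 2 * k := by rw [abs_of_nonpos (by linarith)]; ring
  unfold gprod rseq at h1
  simp only [Real.dist_eq] at h1
  cases b <;> cases b'
  · exact hne rfl
  · simp only [Bool.false_eq_true, if_false, if_true] at h1
    rw [← hk] at h1
    rw [e1, e2, e4] at h1
    linarith
  · simp only [Bool.false_eq_true, if_false, if_true] at h1
    rw [← hk] at h1
    rw [e1, e2, e3] at h1
    linarith
  · exact hne rfl

end Pool.Agent.Helper548.HB
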