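import Pool.Agent.Helper548.HB.Defs

set_option autoImplicit false

/-! Hyperbolic spaces, Gromov boundaries, hierarchically hyperbolic spaces and groups, the
hierarchically hyperbolic boundary and its topology. -/

namespace Pool.Agent.Helper548.HB



theorem rinf_cases (ξ : Boundary ℝ) : ξ = rinf true ∨ ξ = rinf false := by
  obtain ⟨u, rfl⟩ := Quot.exists_rep ξ
  obtain ⟨N, hN⟩ := u.conv 0 1
  unfold gprod at hN
  simp only [Real.dist_eq, sub_zero] at hN
  rcases lt_or_ge 0 (u.seq N) with h0 | h0
  · left
    have hpos : ∀ n ≥ N, 0 < u.seq n := by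
      intro n hn
      by_contra hle
      push Not at hle
      have h1 := hN N (le_refl N) n hn
      rw [abs_of_pos h0, abs_of_nonpos hle, abs_of_nonneg (by linarith)] at h1
      linarith
    refine Quot.sound ?_
    intro o R
    obtain ⟨N1, hN1⟩ := u.conv 0 (R + |o|)
    unfold gprod at hN1
    simp only [Real.dist_eq, sub_zero] at hN1
    obtain ⟨N2, hN2⟩ := exists_nat_ge (R + |o|)
    refine ⟨max N (max N1 N2), fun n hn => ?_⟩
    have ha : N ≤ n := le_trans (le_max_left _ _) hn
    have hb : N1 ≤ n := le_trans (le_trans (le_max_left _ _) (le_max_right _ _)) hn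
    have hc : N2 ≤ n := le_trans (le_trans (le_max_right _ _) (le_max_right _ _)) hn
    have hc' : (N2 : ℝ) ≤ n := by exact_mod_cast hc
    have hp := hpos n ha
    have h3 := hN1 n hb n hb
    rw [sub_self, abs_zero, abs_of_pos hp] at h3
    have h4 := le_abs_self o
    change R ≤ gprod o (u.seq n) (if true then (n : ℝ) else -(n : ℝ))
    unfold gprod
    simp only [if_true, Real.dist_eq]
    have e1 := le_abs_self (u.seq n - o)
    have e2 := le_abs_self ((n : ℝ) - o)
    have e3 : |u.seq n - (n : ℝ)| ≤ u.seq n + n - 2 * (R + |o|) := by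
      rw [abs_le]; constructor <;> linarith
    linarith
  · right
    have hneg : ∀ n ≥ N, u.seq n < 0 := by
      intro n hn
      by_contra hle
      push Not at hle
      have h1 := hN N (le_refl N) n hn
      rw [abs_of_nonpos h0, abs_of_nonneg hle, abs_of_nonpos (by linarith)] at h1
      linarith
    refine Quot.sound ?_
    intro o R
    obtain ⟨N1, hN1⟩ := u.conv 0 (R + |o|)
    unfold gprod at hN1
    simp only [Real.dist_eq, sub_zero] at hN1
    obtain ⟨N2, hN2⟩ := exists_nat_ge (R + |o|)
    refine ⟨max N (max N1 N2), fun n hn => ?_⟩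
    have ha : N ≤ n := le_trans (le_max_left _ _) hn
    have hb : N1 ≤ n := le_trans (le_trans (le_max_left _ _) (le_max_right _ _)) hn
    have hc : N2 ≤ n := le_trans (le_trans (le_max_right _ _) (le_max_right _ _)) hn
    have hc' : (N2 : ℝ) ≤ n := by exact_mod_cast hc
    have hp := hneg n ha
    have h3 := hN1 n hb n hb
    rw [sub_self, abs_zero, abs_of_neg hp] at h3
    have h4 := neg_abs_le o
    change R ≤ gprod o (u.seq n) (if false then (n : ℝ) else -(n : ℝ))
    unfold gprod
    simp only [Bool.false_eq_true, if_false, Real.dist_eq]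
    have e1 := neg_abs_le (u.seq n - o)
    have e2 := neg_abs_le (-(n : ℝ) - o)
    have e3 : |u.seq n - -(n : ℝ)| ≤ -u.seq n + n - 2 * (R + |o|) := by
      rw [abs_le]; constructor <;> linarith
    linarith

end Pool.Agent.Helper548.HB
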