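import Pool.Agent.Helper548.HB.Defs
import Pool.Agent.Helper548.HB.P_near_self
import Pool.Agent.Helper548.HB.P_rinf_cases
import Pool.Agent.Helper548.HB.P_near_real

set_option autoImplicit false

/-! Hyperbolic spaces, Gromov boundaries, hierarchically hyperbolic spaces and groups, the
hierarchically hyperbolic boundary and its topology. -/

namespace Pool.Agent.Helper548.HB



theorem f_bij_ext {X : Type} {𝔛 : Hier X} (p q : BPt 𝔛) (hw : ∀ U, p.w U = q.w U)
    (hpt : ∀ U (h : p.w U ≠ 0) (h' : q.w U ≠ 0), p.pt U h = q.pt U h') : p = q := by
  cases p with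
  | mk w _ _ _ _ pt =>
  cases q with
  | mk w' _ _ _ _ pt' =>
  obtain rfl : w = w' := funext hw
  congr
  funext U h
  exact hpt U h h

theorem f_bij_pt {X : Type} {𝔛 : Hier X} {p q : BPt 𝔛} (h : p = q) :
    (∀ U, p.w U = q.w U) ∧ ∀ U (h : p.w U ≠ 0) (h' : q.w U ≠ 0), p.pt U h = q.pt U h' := by
  subst h
  exact ⟨fun _ => rfl, fun _ _ _ => rfl⟩

theorem f_bij_aux {D : GData} {RG : Realz D.Γ D.G} {RT : Realz TG H} (t : ℝ)
    (p q : MPt D RG RT) (h : p.toB t = q.toB t) :
    (∀ U : Dm D, p.w U = q.w U) ∧
      ∀ (U : Dm D) (h1 : p.w U ≠ 0) (h2 : q.w U ≠ 0), p.bp U h1 = q.bp U h2 := by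
  obtain ⟨h1, h2⟩ := f_bij_pt h
  exact ⟨fun U => h1 U, fun U a b => h2 U a b⟩

theorem f_bij_rinf {b b' : Bool} (h : rinf b = rinf b') : b = b' :=
  near_real 0 1 b b' one_pos (h ▸ near_self 0 1 _)

theorem f_bij_inj {D : GData} {RG : Realz D.Γ D.G} {RT : Realz TG H} (t : ℝ) :
    Function.Injective (MPt.toB t : MPt D RG RT → BPt (hier D RG RT t)) := by
  intro p q h
  obtain ⟨hw, hb⟩ := f_bij_aux t p q h
  cases p with
  | lim ω =>
    cases q with
    | lim ω' =>
      have := hb .S (by simp [MPt.w]) (by simp [MPt.w])
      exact congrArg MPt.lim this
    | arc x ξ r => have := hw .S; simp [MPt.w] at this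
    | pole x b => have := hw .S; simp [MPt.w] at this
  | arc x ξ r =>
    have hr : (1 + |r|) ≠ 0 := by positivity
    cases q with
    | lim ω' => have := hw .S; simp [MPt.w] at this
    | arc x' ξ' r' =>
      have hr' : (1 + |r'|) ≠ 0 := by positivity
      have h1 := hw (.T x)
      by_cases hx : x = x'
      · subst hx
        simp only [MPt.w, if_true] at h1
        have habs : |r| = |r'| := by
          field_simp at h1
          linarith
        have h2 := hb (.T x) (by simp only [MPt.w, if_true]; positivity)
          (by simp only [MPt.w, if_true]; positivity)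
        have h2' : ξ = ξ' := h2
        subst h2'
        have h3 : r = r' := by
          by_cases h0 : r = 0
          · subst h0
            rw [abs_zero] at habs
            exact (abs_eq_zero.1 habs.symm).symm
          · have h0' : r' ≠ 0 := by
              intro h0'
              rw [h0', abs_zero] at habs
              exact h0 (abs_eq_zero.1 habs)
            have h4 := hb (.L x)
              (by simp only [MPt.w, if_true]; exact div_ne_zero (abs_ne_zero.2 h0) hr)
              (by simp only [MPt.w, if_true]; exact div_ne_zero (abs_ne_zero.2 h0') hr')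
            simp only [MPt.bp] at h4
            have h5 := f_bij_rinf h4
            rw [decide_eq_decide] at h5
            rcases lt_or_gt_of_ne h0 with hneg | hpos
            · have h6 : ¬ 0 < r' := fun h => absurd (h5.2 h) (not_lt.2 hneg.le)
              have h7 : r' < 0 := lt_of_le_of_ne (not_lt.1 h6) h0'
              rw [abs_of_neg hneg, abs_of_neg h7] at habs
              linarith
            · have h6 : 0 < r' := h5.1 hpos
              rw [abs_of_pos hpos, abs_of_pos h6] at habs
              exact habs
        rw [h3]
      · exfalso
        simp only [MPt.w, if_true, if_neg hx] at h1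
        exact (one_div_ne_zero hr) h1
    | pole x' b =>
      exfalso
      have h1 := hw (.T x)
      simp only [MPt.w, if_true] at h1
      exact (one_div_ne_zero hr) h1
  | pole x b =>
    cases q with
    | lim ω' => have := hw .S; simp [MPt.w] at this
    | arc x' ξ' r' =>
      exfalso
      have hr' : (1 + |r'|) ≠ 0 := by positivity
      have h1 := hw (.T x')
      simp only [MPt.w, if_true] at h1
      exact (one_div_ne_zero hr') h1.symm
    | pole x' b' =>
      have h1 := hw (.L x)
      by_cases hx : x = x'
      · subst hx
        have h2 := hb (.L x) (by simp [MPt.w]) (by simp [MPt.w])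
        have h3 : b = b' := f_bij_rinf h2
        rw [h3]
      · exfalso
        simp [MPt.w, hx] at h1

theorem f_bij_surj {D : GData} {RG : Realz D.Γ D.G} {RT : Realz TG H} (t : ℝ) :
    Function.Surjective (MPt.toB t : MPt D RG RT → BPt (hier D RG RT t)) := by
  classical
  intro P
  obtain ⟨w, hwdef⟩ : ∃ w : Dm D → ℝ, w = P.w := ⟨_, rfl⟩
  have hnn : ∀ U : Dm D, 0 ≤ w U := fun U => by rw [hwdef]; exact P.nonneg U
  have horth : ∀ U V : Dm D, w U ≠ 0 → w V ≠ 0 → U ≠ V → Dm.orth D U V := by
    intro U V h1 h2 h3
    rw [hwdef] at h1 h2
    exact P.orth U V h1 h2 h3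
  have hsum : ∑ᶠ U : Dm D, w U = 1 := by rw [hwdef]; exact P.sum
  by_cases hS : w .S = 0
  · by_cases hT : ∃ x, w (.T x) ≠ 0
    · obtain ⟨x, hx⟩ := hT
      have hsupp : Function.support w ⊆ (({.T x, .L x} : Finset (Dm D)) : Set (Dm D)) := by
        intro U hU
        by_cases hUT : .T x = U
        · rw [← hUT]; simp
        · have := horth _ _ hx hU hUT
          cases U with
          | S => exact absurd hS hU
          | T y => exact absurd this (by simp [Dm.orth])
          | L y =>
            have hxy : x = y := this
            subst hxy
            simp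
      rw [finsum_eq_sum_of_support_subset _ hsupp, Finset.sum_pair (by simp)] at hsum
      have ha : 0 < w (.T x) := lt_of_le_of_ne (hnn _) (Ne.symm hx)
      have hb : 0 ≤ w (.L x) := hnn _
      have hzero : ∀ U : Dm D, U ≠ .T x → U ≠ .L x → w U = 0 := by
        intro U h1 h2
        by_contra h3
        have := hsupp h3
        simp at this
        tauto
      -- the sign
      have key : ∃ r : ℝ, |r| = w (.L x) / w (.T x) ∧
          ∀ h : P.w (.L x) ≠ 0, (P.pt (.L x) h : Boundary ℝ) = rinf (decide (0 < r)) := by
        by_cases h0 : w (.L x) = 0
        · refine ⟨0, by rw [h0]; simp, fun h => absurd (by rw [← hwdef]; exact h0) h⟩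
        · have h0' : P.w (.L x) ≠ 0 := by rw [← hwdef]; exact h0
          have hbpos : 0 < w (.L x) / w (.T x) := div_pos (lt_of_le_of_ne hb (Ne.symm h0)) ha
          rcases rinf_cases (P.pt (.L x) h0' : Boundary ℝ) with hc | hc
          · refine ⟨w (.L x) / w (.T x), abs_of_pos hbpos, fun h => ?_⟩
            rw [decide_eq_true hbpos]
            exact hc
          · refine ⟨-(w (.L x) / w (.T x)), by rw [abs_neg, abs_of_pos hbpos], fun h => ?_⟩
            rw [decide_eq_false (by linarith : ¬ 0 < -(w (.L x) / w (.T x)))]
            exact hc
      obtain ⟨r, hr, hrp⟩ := key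
      have hPx : P.w (.T x) ≠ 0 := by rw [← hwdef]; exact hx
      refine ⟨.arc x (P.pt (.T x) hPx) r, ?_⟩
      have hone : 1 + |r| = 1 / w (.T x) := by
        rw [hr, eq_div_iff hx, add_mul, div_mul_cancel₀ _ hx, one_mul]; exact hsum
      have hW : ∀ U : Dm D, (MPt.arc x (P.pt (.T x) hPx) r : MPt D RG RT).w U = w U := by
        intro U
        cases U with
        | S => simp only [MPt.w]; exact hS.symm
        | T y =>
          by_cases hy : y = x
          · subst hy
            simp only [MPt.w, if_true]
            rw [hone, one_div_one_div]
          · simp only [MPt.w, if_neg hy]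
            exact (hzero _ (by simpa using hy) (by simp)).symm
        | L y =>
          by_cases hy : y = x
          · subst hy
            simp only [MPt.w, if_true]
            rw [hone, hr]
            field_simp
          · simp only [MPt.w, if_neg hy]
            exact (hzero _ (by simp) (by simpa using hy)).symm
      apply f_bij_ext
      · intro U
        have := hW U
        rw [hwdef] at this
        exact this
      · intro U h h'
        cases U with
        | S => exact absurd (by rw [← hwdef]; exact hS) h'
        | T y =>
          by_cases hy : y = x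
          · subst hy; rfl
          · exact absurd (by rw [← hwdef]; exact hzero _ (by simpa using hy) (by simp)) h'
        | L y =>
          by_cases hy : y = x
          · subst hy
            exact (hrp h').symm
          · exact absurd (by rw [← hwdef]; exact hzero _ (by simp) (by simpa using hy)) h'
    · push Not at hT
      have hL : ∃ x, w (.L x) ≠ 0 := by
        by_contra hcon
        push Not at hcon
        have : ∀ U : Dm D, w U = 0 := by
          intro U
          cases U with
          | S => exact hS
          | T y => exact hT y
          | L y => exact hcon y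
        simp [this] at hsum
      obtain ⟨x, hx⟩ := hL
      have hzero : ∀ U : Dm D, U ≠ .L x → w U = 0 := by
        intro U h1
        by_contra h3
        cases U with
        | S => exact h3 hS
        | T y => exact h3 (hT y)
        | L y => exact absurd (horth _ _ hx h3 (Ne.symm h1)) (by simp [Dm.orth])
      rw [finsum_eq_single _ (Dm.L x) hzero] at hsum
      have hPx : P.w (.L x) ≠ 0 := by rw [← hwdef]; exact hx
      obtain ⟨b, hb⟩ : ∃ b : Bool, (P.pt (.L x) hPx : Boundary ℝ) = rinf b := by
        rcases rinf_cases (P.pt (.L x) hPx : Boundary ℝ) with hc | hc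
        · exact ⟨true, hc⟩
        · exact ⟨false, hc⟩
      refine ⟨.pole x b, ?_⟩
      have hW : ∀ U : Dm D, (MPt.pole x b : MPt D RG RT).w U = w U := by
        intro U
        cases U with
        | S => simp only [MPt.w]; exact hS.symm
        | T y => simp only [MPt.w]; exact (hT y).symm
        | L y =>
          by_cases hy : y = x
          · subst hy
            simp only [MPt.w, if_true]
            exact hsum.symm
          · simp only [MPt.w, if_neg hy]
            exact (hzero _ (by simpa using hy)).symm
      apply f_bij_ext
      · intro U
        have := hW U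
        rw [hwdef] at this
        exact this
      · intro U h h'
        cases U with
        | S => exact absurd (by rw [← hwdef]; exact hS) h'
        | T y => exact absurd (by rw [← hwdef]; exact hT y) h'
        | L y =>
          by_cases hy : y = x
          · subst hy
            exact hb.symm
          · exact absurd (by rw [← hwdef]; exact hzero _ (by simpa using hy)) h'
  · have hzero : ∀ U : Dm D, U ≠ .S → w U = 0 := by
      intro U h1
      by_contra h3
      exact absurd (horth _ _ hS h3 (Ne.symm h1)) (by simp [Dm.orth])
    rw [finsum_eq_single _ (Dm.S) hzero] at hsum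
    have hPS : P.w .S ≠ 0 := by rw [← hwdef]; exact hS
    refine ⟨.lim (P.pt .S hPS), ?_⟩
    have hW : ∀ U : Dm D, (MPt.lim (P.pt .S hPS) : MPt D RG RT).w U = w U := by
      intro U
      cases U with
      | S => simp only [MPt.w]; exact hsum.symm
      | T y => simp only [MPt.w]; exact (hzero _ (by simp)).symm
      | L y => simp only [MPt.w]; exact (hzero _ (by simp)).symm
    apply f_bij_ext
    · intro U
      have := hW U
      rw [hwdef] at this
      exact this
    · intro U h h'
      cases U with
      | S => rfl
      | T y => exact absurd (by rw [← hwdef]; exact hzero _ (by simp)) h'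
      | L y => exact absurd (by rw [← hwdef]; exact hzero _ (by simp)) h'

theorem f_bij {D : GData} {RG : Realz D.Γ D.G} {RT : Realz TG H} (t : ℝ) :
    Function.Bijective (MPt.toB t : MPt D RG RT → BPt (hier D RG RT t)) :=
  ⟨f_bij_inj t, f_bij_surj t⟩

end Pool.Agent.Helper548.HB
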