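import Pool.Agent.Helper548.HB.Defs

set_option autoImplicit false

/-! Hyperbolic spaces, Gromov boundaries, hierarchically hyperbolic spaces and groups, the
hierarchically hyperbolic boundary and its topology. -/

namespace Pool.Agent.Helper548.HB



theorem near_base {X : Type} [MetricSpace X] {o o' : X} {R : ℝ} {ξ ζ : Boundary X}
    (h : Near o R ξ ζ) : Near o' (R - dist o o') ξ ζ := by
  obtain ⟨u, v, hu, hv, N, hN⟩ := h
  refine ⟨u, v, hu, hv, N, fun m hm n hn => ?_⟩
  have h1 := hN m hm n hn
  have h2 := dist_triangle (u.seq m) o' o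
  have h3 := dist_triangle (v.seq n) o' o
  have h4 := dist_comm o' o
  unfold gprod at h1 ⊢
  linarith

end Pool.Agent.Helper548.HB
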