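import Pool.Agent.Helper548.HB.Defs
import Pool.Agent.Helper548.HB.P_hyp_real
import Pool.Agent.Helper548.HB.P_pb_of_rep

set_option autoImplicit false

/-! Hyperbolic spaces, Gromov boundaries, hierarchically hyperbolic spaces and groups, the
hierarchically hyperbolic boundary and its topology. -/

namespace Pool.Agent.Helper548.HB



theorem pb_real_mp (o a R : ℝ) (b : Bool) (hR : 0 < R) (h : PB o R a (rinf b)) :
    R ≤ sgb b * (a - o) := by
  obtain ⟨N, hN⟩ := pb_of_rep hyp_real h (rseq b) rfl
  obtain ⟨M, hM⟩ := exists_nat_ge (|o| + |a|)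
  have h1 := hN (max N M) (le_max_left _ _)
  have h2 : |o| + |a| ≤ ((max N M : ℕ) : ℝ) := le_trans hM (by exact_mod_cast le_max_right N M)
  set n : ℝ := ((max N M : ℕ) : ℝ) with hn
  have ho1 := le_abs_self o
  have ho2 := neg_abs_le o
  have ha1 := le_abs_self a
  have ha2 := neg_abs_le a
  have ho3 := abs_nonneg o
  have ha3 := abs_nonneg a
  cases b with
  | true =>
    have hs : (rseq true).seq (max N M) = n := by
      simp [rseq, hn]
    rw [hs] at h1
    unfold gprod at h1
    rw [Real.dist_eq, Real.dist_eq, Real.dist_eq, abs_of_nonneg (by linarith : 0 ≤ n - o),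
      abs_of_nonpos (by linarith : a - n ≤ 0)] at h1
    simp only [sgb, if_true]
    rcases le_total 0 (a - o) with h3 | h3
    · rw [abs_of_nonneg h3] at h1
      linarith
    · rw [abs_of_nonpos h3] at h1
      linarith
  | false =>
    have hs : (rseq false).seq (max N M) = -n := by
      simp [rseq, hn]
    rw [hs] at h1
    unfold gprod at h1
    rw [Real.dist_eq, Real.dist_eq, Real.dist_eq, abs_of_nonpos (by linarith : -n - o ≤ 0),
      abs_of_nonneg (by linarith : 0 ≤ a - -n)] at h1
    simp only [sgb]
    simp only [Bool.false_eq_true, if_false]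
    rcases le_total 0 (a - o) with h3 | h3
    · rw [abs_of_nonneg h3] at h1
      linarith
    · rw [abs_of_nonpos h3] at h1
      linarith

end Pool.Agent.Helper548.HB
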