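import Pool.Agent.Helper548.HB.Defs
import Pool.Agent.Helper548.HB.P_TG_dist
import Pool.Agent.Helper548.HB.P_pb_base
import Pool.Agent.Helper548.HB.P_near_base
import Pool.Agent.Helper548.HB.P_pb_dist
import Pool.Agent.Helper548.HB.P_pb_real_mp
import Pool.Agent.Helper548.HB.P_near_real
import Pool.Agent.Helper548.HB.P_m_cases
import Pool.Agent.Helper548.HB.P_m_excl
import Pool.Agent.Helper548.HB.P_bproj_T
import Pool.Agent.Helper548.HB.P_bproj_L

set_option autoImplicit false

/-! Hyperbolic spaces, Gromov boundaries, hierarchically hyperbolic spaces and groups, the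
hierarchically hyperbolic boundary and its topology. -/

namespace Pool.Agent.Helper548.HB



theorem f_in_arc_sd {X : Type} [MetricSpace X] (a b : X) : sd ({a} : Set X) {b} = dist a b := by
  unfold sd
  have : {r | ∃ a' ∈ ({a} : Set X), ∃ b' ∈ ({b} : Set X), r = dist a' b'} = {dist a b} := by
    ext r
    simp only [Set.mem_setOf_eq, Set.mem_singleton_iff]
    constructor
    · rintro ⟨a', rfl, b', rfl, h⟩; exact h
    · intro h; exact ⟨a, rfl, b, rfl, h⟩
  rw [this, csInf_singleton]

theorem f_in_arc_wT {D : GData} {RG : Realz D.Γ D.G} {RT : Realz TG H} (q : MPt D RG RT)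
    (x : D.Q) (v : V) (h : q.away x v) : q.w (Dm.T x) = 0 := by
  cases q with
  | lim ω => rfl
  | arc y ξ r =>
    have h1 : y ≠ x := h.1
    simp only [MPt.w]
    rw [if_neg (Ne.symm h1)]
  | pole y b => rfl

theorem f_in_arc_wL {D : GData} {RG : Realz D.Γ D.G} {RT : Realz TG H} (q : MPt D RG RT)
    (x : D.Q) (v : V) (h : q.away x v) : q.w (Dm.L x) = 0 := by
  cases q with
  | lim ω => rfl
  | arc y ξ r =>
    have h1 : y ≠ x := h.1
    simp only [MPt.w]
    rw [if_neg (Ne.symm h1)]
  | pole y b =>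
    have h1 : y ≠ x := h.1
    simp only [MPt.w]
    rw [if_neg (Ne.symm h1)]

theorem f_in_arc_num1 (r r' α ε ε' : ℝ) (hα : α = 1 / (1 + |r|)) (he1 : ε' ≤ α / 2)
    (he2 : ε' ≤ ε * α ^ 2 / 2) (hs : (0 < r ↔ 0 < r')) (hr : r ≠ 0) (hr' : r' ≠ 0)
    (h : |1 / (1 + |r'|) - α| < ε') : |r' - r| < ε := by
  have habs : |r' - r| = |(1 + |r'|) - (1 + |r|)| := by
    rcases lt_or_gt_of_ne hr with h1 | h1
    · have h2 : r' < 0 := by
        rcases lt_or_gt_of_ne hr' with h2 | h2
        · exact h2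
        · exact absurd (hs.2 h2) (not_lt.2 h1.le)
      rw [abs_of_neg h1, abs_of_neg h2, ← abs_neg]
      congr 1; ring
    · have h2 : 0 < r' := hs.1 h1
      rw [abs_of_pos h1, abs_of_pos h2]
      congr 1; ring
  rw [habs]
  set A := 1 + |r'| with hA
  set B := 1 + |r| with hB
  have hA1 : 1 ≤ A := by have := abs_nonneg r'; linarith
  have hB1 : 1 ≤ B := by have := abs_nonneg r; linarith
  have hA0 : 0 < A := by linarith
  have hB0 : 0 < B := by linarith
  have hα0 : 0 < α := by rw [hα]; positivity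
  have h1 := abs_lt.1 h
  -- A ≤ 2 B
  have h2 : α / 2 ≤ 1 / A := by linarith
  have e1 : A - B = (α - 1 / A) * (A * B) := by
    rw [hα]; field_simp
  have h3 : A * B ≤ 2 / α ^ 2 := by
    have h4 : A ≤ 2 / α := by
      rw [le_div_iff₀ hα0]
      rw [le_div_iff₀ hA0] at h2
      linarith
    have h5 : B = 1 / α := by rw [hα]; field_simp
    rw [h5]
    have : A * (1 / α) ≤ 2 / α * (1 / α) := mul_le_mul_of_nonneg_right h4 (by positivity)
    refine this.trans (le_of_eq ?_)
    field_simp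
  rw [e1, abs_mul, abs_sub_comm, abs_of_pos (mul_pos hA0 hB0)]
  calc |1 / A - α| * (A * B) < ε' * (A * B) := by
        exact mul_lt_mul_of_pos_right h (mul_pos hA0 hB0)
    _ ≤ ε' * (2 / α ^ 2) := by
        refine mul_le_mul_of_nonneg_left h3 ?_
        exact (abs_nonneg _).trans h.le
    _ ≤ ε * α ^ 2 / 2 * (2 / α ^ 2) := mul_le_mul_of_nonneg_right he2 (by positivity)
    _ = ε := by field_simp

theorem f_in_arc_num2 (r ε ε' N XT Λ oL dT sg : ℝ) (hsg : sg = 1 ∨ sg = -1)
    (hr : r = sg * |r|) (he : ε' ≤ ε / 4) (hN : 0 < N) (hNd : dT ≤ N) (hdT : 0 ≤ dT)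
    (hXT : 0 < XT) (hXN : |XT - N| ≤ dT) (hY : 0 ≤ sg * (Λ - oL))
    (hN2 : |oL| + |r| * dT ≤ ε / 2 * N)
    (h : abs (sg * (Λ - oL) / XT - abs r) < ε') : |Λ / N - r| < ε := by
  have hXT2 : XT ≤ 2 * N := by have := (abs_le.1 hXN).2; linarith
  have hsq : sg * sg = 1 := by rcases hsg with h | h <;> rw [h] <;> norm_num
  have habs : |sg| = 1 := by rcases hsg with h | h <;> rw [h] <;> norm_num
  set Y := sg * (Λ - oL) with hYdef
  have hΛ : Λ = oL + sg * Y := by
    rw [hYdef, ← mul_assoc, hsq]; ring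
  have e1 : (Λ / N - r) * N = oL + sg * ((Y / XT - |r|) * XT + |r| * (XT - N)) := by
    have hr2 : (Λ / N - r) * N = (Λ / N - sg * |r|) * N := by rw [← hr]
    rw [hr2, hΛ]
    field_simp
    ring
  have h2 : |(Λ / N - r) * N| < ε * N := by
    rw [e1]
    calc |oL + sg * ((Y / XT - |r|) * XT + |r| * (XT - N))|
        ≤ |oL| + |sg * ((Y / XT - |r|) * XT + |r| * (XT - N))| := abs_add_le _ _
      _ = |oL| + |(Y / XT - |r|) * XT + |r| * (XT - N)| := by rw [abs_mul sg, habs, one_mul]
      _ ≤ |oL| + (|(Y / XT - |r|) * XT| + |(|r| * (XT - N))|) := by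
          have := abs_add_le ((Y / XT - |r|) * XT) (|r| * (XT - N))
          linarith
      _ = |oL| + (abs (Y / XT - abs r) * XT + |r| * |XT - N|) := by
          rw [abs_mul, abs_mul, abs_of_pos hXT, abs_abs]
      _ ≤ |oL| + (abs (Y / XT - abs r) * XT + |r| * dT) := by
          have := mul_le_mul_of_nonneg_left hXN (abs_nonneg r)
          linarith
      _ < |oL| + (ε' * XT + |r| * dT) := by
          have := mul_lt_mul_of_pos_right h hXT
          linarith
      _ ≤ ε * N := by
          have hε' : 0 ≤ ε' := (abs_nonneg _).trans h.le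
          have h3 : ε' * XT ≤ ε' * (2 * N) := mul_le_mul_of_nonneg_left hXT2 hε'
          have h4 : ε' * (2 * N) ≤ ε / 4 * (2 * N) :=
            mul_le_mul_of_nonneg_right he (by positivity)
          linarith
  rw [abs_mul, abs_of_pos hN] at h2
  exact lt_of_mul_lt_mul_right h2 hN.le

theorem f_in_arc {D : GData} {RG : Realz D.Γ D.G} {RT : Realz TG H} (t : ℝ) (x : D.Q)
    (ξ : Boundary RT.X) (r : ℝ) (hr : r ≠ 0)
    (R ε : ℝ) (hε : 0 < ε) : ∃ R' ε' : ℝ, 0 < ε' ∧ ∀ q : MPt D RG RT,
      q.toB t ∈ bnhd (hier D RG RT t) (1 : D.G) ((MPt.arc x ξ r : MPt D RG RT).toB t) R' ε' →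
      q ∈ mnhd t (MPt.arc x ξ r) R ε := by
  set oT : RT.X := RT.ι (D.co x 1).1 with hoT
  set oL : ℝ := lam t (D.co x 1) with hoL
  set dT : ℝ := dist oT (RT.ι 1) with hdT
  have hdT0 : 0 ≤ dT := dist_nonneg
  set α : ℝ := 1 / (1 + |r|) with hα
  have hα0 : 0 < α := by rw [hα]; positivity
  set R' : ℝ := |R| + dT + dT + 1 + 2 * (|oL| + |r| * dT) / ε with hR'
  have hq0 : 0 ≤ 2 * (|oL| + |r| * dT) / ε := by positivity
  set ε' : ℝ := min (α / 2) (min (ε * α ^ 2 / 2) (ε / 4)) with hε'
  have he1 : ε' ≤ α / 2 := min_le_left _ _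
  have he2 : ε' ≤ ε * α ^ 2 / 2 := (min_le_right _ _).trans (min_le_left _ _)
  have he3 : ε' ≤ ε / 4 := (min_le_right _ _).trans (min_le_right _ _)
  have hR'R : R ≤ R' - dT := by
    have := le_abs_self R
    linarith
  have hR'0 : 0 < R' := by
    have := abs_nonneg R
    linarith
  refine ⟨R', ε', by positivity, ?_⟩
  intro q hq
  have wT : (MPt.arc x ξ r : MPt D RG RT).w (Dm.T x) = 1 / (1 + |r|) := by simp [MPt.w]
  have wL : (MPt.arc x ξ r : MPt D RG RT).w (Dm.L x) = |r| / (1 + |r|) := by simp [MPt.w]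
  have hpT : ((MPt.arc x ξ r : MPt D RG RT).toB t).w (Dm.T x) ≠ 0 := by
    show (MPt.arc x ξ r : MPt D RG RT).w (Dm.T x) ≠ 0
    rw [wT]; positivity
  have hpL : ((MPt.arc x ξ r : MPt D RG RT).toB t).w (Dm.L x) ≠ 0 := by
    show (MPt.arc x ξ r : MPt D RG RT).w (Dm.L x) ≠ 0
    rw [wL]
    have : 0 < |r| := abs_pos.2 hr
    positivity
  obtain ⟨h1, h2, -, R₀, h4⟩ := hq
  rcases m_cases q x with hat | ⟨v, haw⟩
  · cases q with
    | lim ω => exact hat.elim
    | arc z ξ' r' =>
      have hz : z = x := hat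
      subst hz
      left
      have hr' : r' ≠ 0 := by
        rintro rfl
        obtain ⟨U, hU, hUo⟩ := h2 (Dm.L z) hpL (by
          show (MPt.arc z ξ' 0 : MPt D RG RT).w (Dm.L z) = 0
          simp [MPt.w])
        cases U with
        | S => exact hU rfl
        | T y =>
          apply hUo
          show y = z
          by_contra hne
          apply hU
          show (MPt.arc z ξ' 0 : MPt D RG RT).w (Dm.T y) = 0
          simp [MPt.w, hne]
        | L y =>
          apply hU
          show (MPt.arc z ξ' 0 : MPt D RG RT).w (Dm.L y) = 0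
          simp [MPt.w]
      have hqT : ((MPt.arc z ξ' r' : MPt D RG RT).toB t).w (Dm.T z) ≠ 0 := by
        show (MPt.arc z ξ' r' : MPt D RG RT).w (Dm.T z) ≠ 0
        have : (MPt.arc z ξ' r' : MPt D RG RT).w (Dm.T z) = 1 / (1 + |r'|) := by simp [MPt.w]
        rw [this]; positivity
      have hqL : ((MPt.arc z ξ' r' : MPt D RG RT).toB t).w (Dm.L z) ≠ 0 := by
        show (MPt.arc z ξ' r' : MPt D RG RT).w (Dm.L z) ≠ 0
        have : (MPt.arc z ξ' r' : MPt D RG RT).w (Dm.L z) = |r'| / (1 + |r'|) := by simp [MPt.w]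
        rw [this]
        have : 0 < |r'| := abs_pos.2 hr'
        positivity
      obtain ⟨a1, a2⟩ := h1 (Dm.T z) hpT hqT
      obtain ⟨b1, b2⟩ := h1 (Dm.L z) hpL hqL
      have a1' : |1 / (1 + |r'|) - α| < ε' := by
        have e1 : (MPt.arc z ξ' r' : MPt D RG RT).w (Dm.T z) = 1 / (1 + |r'|) := by simp [MPt.w]
        have : |(MPt.arc z ξ' r' : MPt D RG RT).w (Dm.T z) -
          (MPt.arc z ξ r : MPt D RG RT).w (Dm.T z)| < ε' := a1
        rw [e1, wT] at this
        exact this
      have a2' : Near oT R' ξ ξ' := a2 oT rfl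
      have b2' : Near oL R' (rinf (decide (0 < r))) (rinf (decide (0 < r'))) := by
        have e9 : (@decide (0 < r) (Classical.propDecidable _)) = decide (0 < r) := by congr
        have e10 : (@decide (0 < r') (Classical.propDecidable _)) = decide (0 < r') := by congr
        have h9 : Near oL R' (rinf (@decide (0 < r) (Classical.propDecidable _)))
          (rinf (@decide (0 < r') (Classical.propDecidable _))) := b2 oL rfl
        rw [e9, e10] at h9
        exact h9
      have hb := near_real _ _ _ _ hR'0 b2'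
      have hs : (0 < r ↔ 0 < r') := decide_eq_decide.1 hb
      refine ⟨ξ', r', rfl, ?_, ?_⟩
      · exact (near_base (o' := RT.ι 1) a2').mono hR'R
      · exact f_in_arc_num1 r r' α ε ε' hα he1 he2 hs hr hr' a1'
    | pole z b =>
      exfalso
      have hz : z = x := hat
      subst hz
      obtain ⟨U, hU, hUo⟩ := h2 (Dm.T z) hpT rfl
      cases U with
      | S => exact hU rfl
      | T y => exact hU rfl
      | L y =>
        apply hUo
        show y = z
        by_contra hne
        apply hU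
        show (MPt.pole z b : MPt D RG RT).w (Dm.L y) = 0
        simp [MPt.w, hne]
  · have hqT : (q.toB t).w (Dm.T x) = 0 := f_in_arc_wT q x v haw
    have hqL : (q.toB t).w (Dm.L x) = 0 := f_in_arc_wL q x v haw
    obtain ⟨R1, hR1⟩ := bproj_T t q x v haw
    obtain ⟨R2, hR2⟩ := bproj_L t q x v haw
    obtain ⟨c1, c2, -⟩ := h4 (max R₀ (max R1 R2)) (le_max_left _ _)
    have hbT := hR1 (max R₀ (max R1 R2)) ((le_max_left _ _).trans (le_max_right _ _))
    have hbL := hR2 (max R₀ (max R1 R2)) ((le_max_right _ _).trans (le_max_right _ _))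
    have k1 : PB oT R' (RT.ι v.1) ξ := by
      have := c1 (Dm.T x) hpT hqT (RT.ι v.1) (by rw [hbT]; rfl) oT rfl
      exact this
    have k2 : PB oL R' (lam t v) (rinf (decide (0 < r))) := by
      have e9 : (@decide (0 < r) (Classical.propDecidable _)) = decide (0 < r) := by congr
      have h9 : PB oL R' (lam t v) (rinf (@decide (0 < r) (Classical.propDecidable _))) :=
        c1 (Dm.L x) hpL hqL (lam t v) (by rw [hbL]; rfl) oL rfl
      rw [e9] at h9
      exact h9
    have k3 := c2 (Dm.L x) (Dm.T x) hpL hqL hpT hqT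
    have e1 : bdist (hier D RG RT t) (1 : D.G) (q.toB t) (max R₀ (max R1 R2)) (Dm.T x) =
        dist oT (RT.ι v.1) := by
      unfold bdist
      rw [hbT]
      exact f_in_arc_sd (X := RT.X) oT (RT.ι v.1)
    have e2 : bdist (hier D RG RT t) (1 : D.G) (q.toB t) (max R₀ (max R1 R2)) (Dm.L x) =
        dist oL (lam t v) := by
      unfold bdist
      rw [hbL]
      exact f_in_arc_sd (X := ℝ) oL (lam t v)
    rw [e1, e2] at k3
    have k3' : abs (dist oL (lam t v) / dist oT (RT.ι v.1) - abs r) < ε' := by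
      have e3 : (MPt.arc x ξ r : MPt D RG RT).w (Dm.L x) /
          (MPt.arc x ξ r : MPt D RG RT).w (Dm.T x) = |r| := by
        rw [wL, wT]
        have : (1 + |r|) ≠ 0 := by positivity
        field_simp
      have k4 : |dist oL (lam t v) / dist oT (RT.ι v.1) -
          (MPt.arc x ξ r : MPt D RG RT).w (Dm.L x) /
          (MPt.arc x ξ r : MPt D RG RT).w (Dm.T x)| < ε' := k3
      rw [e3] at k4
      exact k4
    have k5 := pb_dist k1
    have k6 := pb_real_mp _ _ _ _ hR'0 k2
    have hN : dist (RT.ι 1) (RT.ι v.1) = (FreeGroup.norm v.1 : ℝ) := by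
      rw [RT.dist_ι, TG_dist, inv_one, one_mul]
    have htri1 := dist_triangle oT (RT.ι 1) (RT.ι v.1)
    have htri2 := dist_triangle (RT.ι 1) oT (RT.ι v.1)
    rw [dist_comm (RT.ι 1) oT] at htri2
    rw [hN] at htri1 htri2
    right
    refine ⟨v, haw, (pb_base (o' := RT.ι 1) k1).mono hR'R, ?_⟩
    have hNge : |R| + dT + 1 + 2 * (|oL| + |r| * dT) / ε ≤ (FreeGroup.norm v.1 : ℝ) := by
      have : R' ≤ dT + (FreeGroup.norm v.1 : ℝ) := k5.trans htri1
      rw [hR'] at this
      linarith
    have hR0 := abs_nonneg R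
    have hsgb : sgb (decide (0 < r)) = 1 ∨ sgb (decide (0 < r)) = -1 := by
      unfold sgb
      split_ifs
      · exact Or.inl rfl
      · exact Or.inr rfl
    have hrs : r = sgb (decide (0 < r)) * |r| := by
      unfold sgb
      by_cases hr0 : 0 < r
      · simp [hr0, abs_of_pos hr0]
      · have hr1 : r < 0 := lt_of_le_of_ne (not_lt.1 hr0) hr
        simp [hr0, abs_of_neg hr1]
    have hYd : dist oL (lam t v) = sgb (decide (0 < r)) * (lam t v - oL) := by
      rw [dist_comm, Real.dist_eq]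
      have hpos : 0 < sgb (decide (0 < r)) * (lam t v - oL) := lt_of_lt_of_le hR'0 k6
      have : |sgb (decide (0 < r)) * (lam t v - oL)| = |lam t v - oL| := by
        rw [abs_mul]
        have : |sgb (decide (0 < r))| = 1 := by rcases hsgb with h | h <;> rw [h] <;> norm_num
        rw [this, one_mul]
      rw [← this, abs_of_pos hpos]
    rw [hYd] at k3'
    refine f_in_arc_num2 r ε ε' (FreeGroup.norm v.1 : ℝ) (dist oT (RT.ι v.1)) (lam t v) oL dT
      (sgb (decide (0 < r))) hsgb hrs he3 (by linarith) (by linarith) hdT0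
      (lt_of_lt_of_le hR'0 k5) (abs_le.2 ⟨by linarith, by linarith⟩)
      (hR'0.le.trans k6) ?_ k3'
    have h9 : 2 * (|oL| + |r| * dT) / ε ≤ (FreeGroup.norm v.1 : ℝ) := by linarith
    rw [div_le_iff₀ hε] at h9
    linarith

end Pool.Agent.Helper548.HB
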