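import Pool.Agent.Helper548.HB.Defs
import Pool.Agent.Helper548.HB.P_TG_dist
import Pool.Agent.Helper548.HB.P_pb_base
import Pool.Agent.Helper548.HB.P_near_base
import Pool.Agent.Helper548.HB.P_pb_dist
import Pool.Agent.Helper548.HB.P_m_cases
import Pool.Agent.Helper548.HB.P_m_excl
import Pool.Agent.Helper548.HB.P_bproj_T
import Pool.Agent.Helper548.HB.P_bproj_L

set_option autoImplicit false

/-! Hyperbolic spaces, Gromov boundaries, hierarchically hyperbolic spaces and groups, the
hierarchically hyperbolic boundary and its topology. -/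

namespace Pool.Agent.Helper548.HB



theorem f_in_arc0 {D : GData} {RG : Realz D.Γ D.G} {RT : Realz TG H} (t : ℝ) (x : D.Q)
    (ξ : Boundary RT.X)
    (R ε : ℝ) (hε : 0 < ε) : ∃ R' ε' : ℝ, 0 < ε' ∧ ∀ q : MPt D RG RT,
      q.toB t ∈ bnhd (hier D RG RT t) (1 : D.G) ((MPt.arc x ξ 0 : MPt D RG RT).toB t) R' ε' →
      q ∈ mnhd t (MPt.arc x ξ 0) R ε := by
  classical
  set c : V := D.co x 1 with hc
  set nc : ℝ := (FreeGroup.norm c.1 : ℝ) with hnc
  have hnc0 : 0 ≤ nc := Nat.cast_nonneg _
  have hd0 : dist (RT.ι c.1) (RT.ι 1) = nc := by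
    rw [RT.dist_ι, TG_dist, mul_one, FreeGroup.norm_inv_eq]
  have hwT : (MPt.arc x ξ 0 : MPt D RG RT).w (Dm.T x) = 1 := by
    simp [MPt.w]
  have hwL : (MPt.arc x ξ 0 : MPt D RG RT).w (Dm.L x) = 0 := by
    simp [MPt.w]
  have hwT0 : (MPt.arc x ξ 0 : MPt D RG RT).w (Dm.T x) ≠ 0 := by
    rw [hwT]; exact one_ne_zero
  have hsupp : ∀ U, (MPt.arc x ξ 0 : MPt D RG RT).w U ≠ 0 → U = Dm.T x := by
    intro U hU
    cases U with
    | S => exact absurd rfl hU
    | T y =>
      by_cases h : y = x
      · rw [h]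
      · exact absurd (by simp [MPt.w, h]) hU
    | L y => exact absurd (by simp [MPt.w]) hU
  refine ⟨|R| + nc + nc + 1 + 2 * |lam t c| / ε + nc, min (1 / 2) (ε / 4),
    lt_min (by norm_num) (by linarith), ?_⟩
  set R' : ℝ := |R| + nc + nc + 1 + 2 * |lam t c| / ε + nc with hR'
  set ε' : ℝ := min (1 / 2) (ε / 4) with hε'
  have hε'1 : ε' ≤ 1 / 2 := min_le_left _ _
  have hε'2 : ε' ≤ ε / 4 := min_le_right _ _
  have hε'0 : 0 < ε' := lt_min (by norm_num) (by linarith)
  have hq0 : 0 ≤ 2 * |lam t c| / ε := by positivity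
  have hRR : R ≤ R' - nc := by
    have := le_abs_self R
    rw [hR']; linarith
  rintro q ⟨h1, h2, h3, R₀, h4⟩
  rcases m_cases q x with hat | ⟨v, hv⟩
  · cases q with
    | lim ω => exact hat.elim
    | pole y b =>
      exfalso
      have hyx : y = x := hat
      subst hyx
      obtain ⟨T, hT1, hT2⟩ := h2 (Dm.T y) hwT0 rfl
      apply hT2
      have hT1' : (MPt.pole y b : MPt D RG RT).w T ≠ 0 := hT1
      cases T with
      | S => exact absurd rfl hT1'
      | T z => exact absurd rfl hT1'
      | L z =>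
        by_cases h : z = y
        · subst h; exact rfl
        · exact absurd (by simp [MPt.w, h]) hT1'
    | arc y ξ' r' =>
      have hyx : y = x := hat
      subst hyx
      left
      have hqT : (MPt.arc y ξ' r' : MPt D RG RT).w (Dm.T y) ≠ 0 := by
        simp only [MPt.w, if_true]
        positivity
      obtain ⟨ha, hb⟩ := h1 (Dm.T y) hwT0 hqT
      have hb' : Near (RT.ι c.1) R' ξ ξ' := hb (RT.ι c.1) rfl
      have hb'' := near_base (o' := RT.ι 1) hb'
      rw [hd0] at hb''
      refine ⟨ξ', r', rfl, hb''.mono hRR, ?_⟩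
      have ha' : |(MPt.arc y ξ' r' : MPt D RG RT).w (Dm.T y) -
        (MPt.arc y ξ 0 : MPt D RG RT).w (Dm.T y)| < ε' := ha
      rw [hwT] at ha'
      simp only [MPt.w, if_true] at ha'
      have hpos : 0 < 1 + |r'| := by positivity
      have e1 : 1 / (1 + |r'|) - 1 = -(|r'| / (1 + |r'|)) := by
        field_simp; ring
      rw [e1, abs_neg, abs_of_nonneg (by positivity), div_lt_iff₀ hpos] at ha'
      rw [sub_zero]
      nlinarith [abs_nonneg r']
  · right
    have hna : ¬ q.atv x := fun h => m_excl q x v h hv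
    have hqT : q.w (Dm.T x) = 0 := by
      by_contra h
      apply hna
      cases q with
      | lim ω => exact absurd rfl h
      | pole y b => exact absurd rfl h
      | arc y ξ' r' =>
        by_contra h'
        have h'' : ¬ (x = y) := fun e => h' e.symm
        exact h (by simp [MPt.w, h''])
    have hqL : q.w (Dm.L x) = 0 := by
      by_contra h
      apply hna
      cases q with
      | lim ω => exact absurd rfl h
      | pole y b =>
        by_contra h'
        have h'' : ¬ (x = y) := fun e => h' e.symm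
        exact h (by simp [MPt.w, h''])
      | arc y ξ' r' =>
        by_contra h'
        have h'' : ¬ (x = y) := fun e => h' e.symm
        exact h (by simp [MPt.w, h''])
    obtain ⟨R₁, hR₁⟩ := bproj_T t q x v hv
    obtain ⟨R₂, hR₂⟩ := bproj_L t q x v hv
    set M := max R₀ (max R₁ R₂) with hM
    have hM0 : R₀ ≤ M := le_max_left _ _
    have hM1 : R₁ ≤ M := (le_max_left _ _).trans (le_max_right _ _)
    have hM2 : R₂ ≤ M := (le_max_right _ _).trans (le_max_right _ _)
    obtain ⟨ka, kb, kc⟩ := h4 M hM0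
    have hb1 := hR₁ M hM1
    have hb2 := hR₂ M hM2
    have hp1 : PB (RT.ι c.1) R' (RT.ι v.1) ξ := by
      refine ka (Dm.T x) hwT0 hqT (RT.ι v.1) ?_ (RT.ι c.1) rfl
      rw [hb1]; exact rfl
    have hp2 := pb_base (o' := RT.ι 1) hp1
    rw [hd0] at hp2
    refine ⟨v, hv, hp2.mono hRR, ?_⟩
    have hN := pb_dist hp1
    have hT : ∃ T, q.w T ≠ 0 := by
      obtain ⟨F, hF, hF1⟩ := q.w_supp
      by_contra hcon
      push Not at hcon
      rw [Finset.sum_eq_zero (fun U _ => hcon U)] at hF1
      exact zero_ne_one hF1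
    have hkc := kc (Dm.T x) (Dm.L x) hwT0 hqT (fun U' hU' => by
      have : U' = Dm.T x := hsupp U' hU'
      rw [this]; exact rfl) hqL (by
      obtain ⟨T, hT⟩ := hT
      refine ⟨T, hT, ?_⟩
      cases T with
      | S => exact fun h => h
      | L z => exact fun h => h
      | T z =>
        intro h
        have h' : z = x := h
        rw [h'] at hT
        exact hT hqT)
    have sd1 : bdist (hier D RG RT t) (1 : D.G) (q.toB t) M (Dm.T x) =
        dist (RT.ι c.1) (RT.ι v.1) := by
      unfold bdist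
      rw [hb1]
      have : (hier D RG RT t).π (Dm.T x) (1 : D.G) = {RT.ι c.1} := rfl
      rw [this]
      unfold sd
      have e : {r | ∃ a ∈ ({RT.ι c.1} : Set RT.X), ∃ b ∈ ({RT.ι v.1} : Set RT.X),
          r = dist a b} = {dist (RT.ι c.1) (RT.ι v.1)} := by
        ext r; simp
      exact (congrArg sInf e).trans (csInf_singleton _)
    have sd2 : bdist (hier D RG RT t) (1 : D.G) (q.toB t) M (Dm.L x) =
        |lam t c - lam t v| := by
      unfold bdist
      rw [hb2]
      have : (hier D RG RT t).π (Dm.L x) (1 : D.G) = {lam t c} := rfl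
      rw [this]
      unfold sd
      have e : {r | ∃ a ∈ ({lam t c} : Set ℝ), ∃ b ∈ ({lam t v} : Set ℝ),
          r = dist a b} = {|lam t c - lam t v|} := by
        ext r; simp [Real.dist_eq]
      exact (congrArg sInf e).trans (csInf_singleton _)
    rw [sd1, sd2] at hkc
    have hR'pos : 0 < R' := by
      have := abs_nonneg R
      rw [hR']; linarith
    have hDpos : 0 < dist (RT.ι c.1) (RT.ι v.1) := lt_of_lt_of_le hR'pos hN
    rw [div_lt_iff₀ hDpos] at hkc
    set n : ℝ := (FreeGroup.norm v.1 : ℝ) with hn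
    have hnd : dist (RT.ι 1) (RT.ι v.1) = n := by
      rw [RT.dist_ι, TG_dist, inv_one, one_mul]
    have htri1 : dist (RT.ι c.1) (RT.ι v.1) ≤ nc + n := by
      calc _ ≤ dist (RT.ι c.1) (RT.ι 1) + dist (RT.ι 1) (RT.ι v.1) := dist_triangle _ _ _
        _ = _ := by rw [hd0, hnd]
    have hnlow : |R| + nc + 1 + 2 * |lam t c| / ε + nc ≤ n := by
      have : R' ≤ nc + n := hN.trans htri1
      rw [hR'] at this; linarith
    have hnpos : 0 < n := by
      have := abs_nonneg R
      linarith
    have hnc_le : nc ≤ n := by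
      have := abs_nonneg R
      linarith
    have hlc : 2 * |lam t c| < ε * n := by
      have h5 : 2 * |lam t c| / ε < n := by
        have := abs_nonneg R
        linarith
      rw [div_lt_iff₀ hε] at h5
      linarith
    have hlv : |lam t v| ≤ |lam t c - lam t v| + |lam t c| := by
      have := abs_sub_abs_le_abs_sub (lam t v) (lam t c)
      rw [abs_sub_comm (lam t v)] at this
      linarith
    rw [sub_zero, abs_div, abs_of_pos hnpos, div_lt_iff₀ hnpos]
    have h6 : ε' * dist (RT.ι c.1) (RT.ι v.1) ≤ (ε / 4) * (2 * n) := by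
      apply mul_le_mul hε'2 (htri1.trans (by linarith)) hDpos.le (by positivity)
    nlinarith

end Pool.Agent.Helper548.HB
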