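import Pool.Agent.Helper548.HB.Defs
import Pool.Agent.Helper548.HB.P_bproj_S

set_option autoImplicit false

/-! Hyperbolic spaces, Gromov boundaries, hierarchically hyperbolic spaces and groups, the
hierarchically hyperbolic boundary and its topology. -/

namespace Pool.Agent.Helper548.HB



theorem f_in_lim_aux {D : GData} {RG : Realz D.Γ D.G} {RT : Realz TG H} (t : ℝ)
    (ω : Boundary RG.X) (R : ℝ) (q : MPt D RG RT) (y : D.Q) (hy : q.atv y)
    (hw : q.w (.S : Dm D) = 0)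
    (hq : q.toB t ∈ bnhd (hier D RG RT t) (1 : D.G) ((MPt.lim ω : MPt D RG RT).toB t) R 1) :
    PB (RG.ι ((1 : D.G) : D.Q)) R (RG.ι y) ω := by
  obtain ⟨-, -, -, R0, h4⟩ := hq
  have h5 := (h4 R0 le_rfl).1 (Dm.S : Dm D) (one_ne_zero : (1 : ℝ) ≠ 0) hw (RG.ι y)
    (by rw [bproj_S t q y hy R0]; exact Set.mem_singleton _)
    (RG.ι ((1 : D.G) : D.Q)) (Set.mem_singleton _)
  exact h5

theorem f_in_lim {D : GData} {RG : Realz D.Γ D.G} {RT : Realz TG H} (t : ℝ)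
    (ω : Boundary RG.X) (R ε : ℝ) (hε : 0 < ε) : ∃ R' ε' : ℝ, 0 < ε' ∧ ∀ q : MPt D RG RT,
      q.toB t ∈ bnhd (hier D RG RT t) (1 : D.G) ((MPt.lim ω : MPt D RG RT).toB t) R' ε' →
      q ∈ mnhd t (MPt.lim ω) R ε := by
  refine ⟨R, 1, one_pos, ?_⟩
  intro q hq
  cases q with
  | lim ω' =>
    obtain ⟨h1, -, -, -⟩ := hq
    exact (h1 (Dm.S : Dm D) (one_ne_zero : (1 : ℝ) ≠ 0) (one_ne_zero : (1 : ℝ) ≠ 0)).2
      (RG.ι ((1 : D.G) : D.Q)) (Set.mem_singleton _)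
  | arc y ξ r => exact f_in_lim_aux t ω R (.arc y ξ r) y rfl rfl hq
  | pole y b => exact f_in_lim_aux t ω R (.pole y b) y rfl rfl hq

end Pool.Agent.Helper548.HB
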