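import Pool.Agent.Helper548.HB.Defs
import Pool.Agent.Helper548.HB.P_TG_dist
import Pool.Agent.Helper548.HB.P_pb_real_mp
import Pool.Agent.Helper548.HB.P_near_real
import Pool.Agent.Helper548.HB.P_m_cases
import Pool.Agent.Helper548.HB.P_m_excl
import Pool.Agent.Helper548.HB.P_bproj_T
import Pool.Agent.Helper548.HB.P_bproj_L

set_option autoImplicit false

/-! Hyperbolic spaces, Gromov boundaries, hierarchically hyperbolic spaces and groups, the
hierarchically hyperbolic boundary and its topology. -/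

namespace Pool.Agent.Helper548.HB



theorem sd_sing_aux {X : Type} [MetricSpace X] (a b : X) : sd ({a} : Set X) {b} = dist a b := by
  unfold sd
  have : {r | ∃ a' ∈ ({a} : Set X), ∃ b' ∈ ({b} : Set X), r = dist a' b'} = {dist a b} := by
    ext r; simp
  rw [this, csInf_singleton]

theorem pole_L_w {D : GData} {RG : Realz D.Γ D.G} {RT : Realz TG H} (x : D.Q) (b : Bool) :
    (MPt.pole x b : MPt D RG RT).w (Dm.L x) = 1 := by
  simp [MPt.w]

theorem pole_orth {D : GData} {RG : Realz D.Γ D.G} {RT : Realz TG H} (x : D.Q) (b : Bool)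
    (U : Dm D) (h : (MPt.pole x b : MPt D RG RT).w U ≠ 0) : Dm.orth D (Dm.T x) U := by
  cases U with
  | S => exact absurd rfl h
  | T y => exact absurd rfl h
  | L y =>
    by_cases h' : y = x
    · subst h'; rfl
    · exact absurd (by simp [MPt.w, h']) h

theorem f_in_pole {D : GData} {RG : Realz D.Γ D.G} {RT : Realz TG H} (t : ℝ) (x : D.Q)
    (b : Bool)
    (R ε : ℝ) (hε : 0 < ε) : ∃ R' ε' : ℝ, 0 < ε' ∧ ∀ q : MPt D RG RT,
      q.toB t ∈ bnhd (hier D RG RT t) (1 : D.G) ((MPt.pole x b : MPt D RG RT).toB t) R' ε' →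
      q ∈ mnhd t (MPt.pole x b) R ε := by
  classical
  obtain ⟨c, hc⟩ : ∃ c, c = D.co x (1 : D.G) := ⟨_, rfl⟩
  obtain ⟨n0, hn0⟩ : ∃ n0 : ℝ, n0 = (FreeGroup.norm c.1 : ℝ) := ⟨_, rfl⟩
  have hn0' : 0 ≤ n0 := by rw [hn0]; positivity
  obtain ⟨l0, hl0⟩ : ∃ l0 : ℝ, l0 = |lam t c| := ⟨_, rfl⟩
  have hl0' : 0 ≤ l0 := by rw [hl0]; positivity
  obtain ⟨R', hR'⟩ : ∃ R' : ℝ, R' = |R| + 2 * n0/ε + 2*l0 + 1 := ⟨_, rfl⟩
  have hR'0 : 0 < R' := by rw [hR']; positivity
  obtain ⟨ε', hε'⟩ : ∃ ε' : ℝ, ε' = min (ε/2) (1/(|R|+2)) := ⟨_, rfl⟩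
  have hε'0 : 0 < ε' := by rw [hε']; exact lt_min (by positivity) (by positivity)
  have hε'1 : ε' ≤ ε / 2 := by rw [hε']; exact min_le_left _ _
  have hε'2 : ε' ≤ 1/(|R|+2) := by rw [hε']; exact min_le_right _ _
  refine ⟨R', ε', hε'0, ?_⟩
  intro q h
  obtain ⟨h1, h2, h3, R₀, h4⟩ := h
  have hpw : ((MPt.pole x b : MPt D RG RT).toB t).w (Dm.L x) ≠ 0 := by
    show (MPt.pole x b : MPt D RG RT).w (Dm.L x) ≠ 0
    rw [pole_L_w]; norm_num
  have hoL : lam t (D.co x (1 : D.G)) ∈ (hier D RG RT t).π (Dm.L x) (1 : D.G) := by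
    show lam t (D.co x (1 : D.G)) ∈ ({lam t (D.co x (1 : D.G))} : Set ℝ)
    exact Set.mem_singleton _
  rcases m_cases q x with hat | ⟨v, hv⟩
  · cases q with
    | lim ω => exact hat.elim
    | arc z ξ r =>
      have hat' : z = x := hat
      subst hat'
      by_cases hr : r = 0
      · exfalso
        have hq0 : ((MPt.arc z ξ r : MPt D RG RT).toB t).w (Dm.L z) = 0 := by
          show (MPt.arc z ξ r : MPt D RG RT).w (Dm.L z) = 0
          simp [MPt.w, hr]
        obtain ⟨T, hT, hT'⟩ := h2 (Dm.L z) hpw hq0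
        have hT1 : (MPt.arc z ξ r : MPt D RG RT).w T ≠ 0 := hT
        have hT2 : ¬ Dm.orth D T (Dm.L z) := hT'
        cases T with
        | S => exact hT1 rfl
        | T y =>
          by_cases hy : y = z
          · subst hy; exact hT2 rfl
          · exact hT1 (by simp [MPt.w, hy])
        | L y =>
          exact hT1 (by simp [MPt.w, hr])
      · right; left
        refine ⟨ξ, r, rfl, ?_⟩
        have hrpos : 0 < |r| := abs_pos.2 hr
        have hwq : (MPt.arc z ξ r : MPt D RG RT).w (Dm.L z) = |r| / (1 + |r|) := by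
          simp [MPt.w]
        have hq0 : ((MPt.arc z ξ r : MPt D RG RT).toB t).w (Dm.L z) ≠ 0 := by
          show (MPt.arc z ξ r : MPt D RG RT).w (Dm.L z) ≠ 0
          rw [hwq]; positivity
        obtain ⟨k1, k2⟩ := h1 (Dm.L z) hpw hq0
        have k1' : |(MPt.arc z ξ r : MPt D RG RT).w (Dm.L z)
          - (MPt.pole z b : MPt D RG RT).w (Dm.L z)| < ε' := k1
        rw [hwq, pole_L_w] at k1'
        have k2' : Near (lam t (D.co z (1 : D.G))) R' (rinf b) (rinf (decide (0 < r))) :=
          k2 _ hoL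
        have hb := near_real _ _ _ _ hR'0 k2'
        have e1 : |r| / (1 + |r|) - 1 = - (1 / (1 + |r|)) := by field_simp; ring
        rw [e1, abs_neg, abs_of_pos (by positivity)] at k1'
        have e2 : 1 / (1 + |r|) < 1 / (|R| + 2) := k1'.trans_le hε'2
        have e3 : |R| + 2 < 1 + |r| := by
          rwa [one_div_lt_one_div (by positivity) (by positivity)] at e2
        have e4 : sgb b * r = |r| := by
          rw [hb]
          by_cases h0 : 0 < r
          · simp [sgb, h0, abs_of_pos h0]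
          · have h0' : r ≤ 0 := not_lt.1 h0
            simp [sgb, h0, abs_of_nonpos h0']
        rw [e4]
        have := le_abs_self R
        linarith
    | pole z b' =>
      have hat' : z = x := hat
      subst hat'
      left
      have hq0 : ((MPt.pole z b' : MPt D RG RT).toB t).w (Dm.L z) ≠ 0 := by
        show (MPt.pole z b' : MPt D RG RT).w (Dm.L z) ≠ 0
        rw [pole_L_w]; norm_num
      obtain ⟨k1, k2⟩ := h1 (Dm.L z) hpw hq0
      have k2' : Near (lam t (D.co z (1 : D.G))) R' (rinf b) (rinf b') := k2 _ hoL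
      have hb := near_real _ _ _ _ hR'0 k2'
      rw [hb]
  · right; right
    refine ⟨v, hv, ?_⟩
    obtain ⟨RT0, hT0⟩ := bproj_T t q x v hv
    obtain ⟨RL0, hL0⟩ := bproj_L t q x v hv
    obtain ⟨S, hS⟩ : ∃ S, S = max R₀ (max RT0 RL0) := ⟨_, rfl⟩
    have hS1 : R₀ ≤ S := by rw [hS]; exact le_max_left _ _
    have hS2 : RT0 ≤ S := by rw [hS]; exact (le_max_left _ _).trans (le_max_right _ _)
    have hS3 : RL0 ≤ S := by rw [hS]; exact (le_max_right _ _).trans (le_max_right _ _)
    obtain ⟨a1, _, a3⟩ := h4 S hS1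
    have hqL : (q.toB t).w (Dm.L x) = 0 := by
      show q.w (Dm.L x) = 0
      cases q with
      | lim ω => rfl
      | arc y ξ r =>
        have hy : y ≠ x := hv.1
        simp [MPt.w, hy.symm]
      | pole y b' =>
        have hy : y ≠ x := hv.1
        simp [MPt.w, hy.symm]
    have hqT : (q.toB t).w (Dm.T x) = 0 := by
      show q.w (Dm.T x) = 0
      cases q with
      | lim ω => rfl
      | arc y ξ r =>
        have hy : y ≠ x := hv.1
        simp [MPt.w, hy.symm]
      | pole y b' => rfl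
    have hTT : ∃ T, (q.toB t).w T ≠ 0 ∧ ¬ (hier D RG RT t).orth T (Dm.T x) := by
      cases q with
      | lim ω =>
        refine ⟨Dm.S, ?_, ?_⟩
        · show (MPt.lim ω : MPt D RG RT).w Dm.S ≠ 0
          simp [MPt.w]
        · show ¬ Dm.orth D Dm.S (Dm.T x)
          exact id
      | arc y ξ r =>
        refine ⟨Dm.T y, ?_, ?_⟩
        · show (MPt.arc y ξ r : MPt D RG RT).w (Dm.T y) ≠ 0
          have : (MPt.arc y ξ r : MPt D RG RT).w (Dm.T y) = 1 / (1 + |r|) := by simp [MPt.w]
          rw [this]; positivity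
        · show ¬ Dm.orth D (Dm.T y) (Dm.T x)
          exact id
      | pole y b' =>
        refine ⟨Dm.L y, ?_, ?_⟩
        · show (MPt.pole y b' : MPt D RG RT).w (Dm.L y) ≠ 0
          rw [pole_L_w]; norm_num
        · show ¬ (y = x)
          exact hv.1
    have b1 := a1 (Dm.L x) hpw hqL (lam t v) (by
      rw [hL0 S hS3]; exact Set.mem_singleton _) _ hoL
    have b1' : PB (lam t (D.co x (1 : D.G))) R' (lam t v) (rinf b) := b1
    have b2 := pb_real_mp _ _ _ _ hR'0 b1'
    rw [← hc] at b2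
    have b3 := a3 (Dm.L x) (Dm.T x) hpw hqL
      (fun U' hU' => pole_orth x b U' hU') hqT hTT
    have b4 : bdist (hier D RG RT t) (1 : D.G) (q.toB t) S (Dm.T x)
        = (FreeGroup.norm (c.1⁻¹ * v.1) : ℝ) := by
      unfold bdist
      rw [hT0 S hS2]
      have : sd ({RT.ι (D.co x (1 : D.G)).1} : Set RT.X) {RT.ι v.1}
          = (FreeGroup.norm (c.1⁻¹ * v.1) : ℝ) := by
        rw [sd_sing_aux, RT.dist_ι, TG_dist, hc]
      exact this
    have b5 : bdist (hier D RG RT t) (1 : D.G) (q.toB t) S (Dm.L x)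
        = |lam t c - lam t v| := by
      unfold bdist
      rw [hL0 S hS3]
      have : sd ({lam t (D.co x (1 : D.G))} : Set ℝ) {lam t v}
          = |lam t c - lam t v| := by
        rw [sd_sing_aux, Real.dist_eq, hc]
      exact this
    rw [b4, b5] at b3
    have hsg : sgb b = 1 ∨ sgb b = -1 := by cases b <;> simp [sgb]
    have c1 : sgb b * lam t v ≤ |lam t v| := by
      rcases hsg with h | h <;> rw [h]
      · rw [one_mul]; exact le_abs_self _
      · rw [neg_one_mul]; exact neg_le_abs _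
    have c2 : -l0 ≤ sgb b * lam t c := by
      rw [hl0]
      rcases hsg with h | h <;> rw [h]
      · rw [one_mul]; exact neg_abs_le _
      · rw [neg_one_mul]; exact neg_le_neg (le_abs_self _)
    have c3 : R' - l0 ≤ sgb b * lam t v := by
      have : sgb b * (lam t v - lam t c) = sgb b * lam t v - sgb b * lam t c := by ring
      rw [this] at b2
      linarith
    have hnE : 0 ≤ 2 * n0 / ε := by positivity
    have hRR := le_abs_self R
    refine ⟨by linarith, ?_⟩
    have c4 : 0 < |lam t c - lam t v| := by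
      apply abs_pos.2
      intro h0
      have : lam t v - lam t c = 0 := by linarith
      rw [this, mul_zero] at b2
      linarith
    rw [div_lt_iff₀ c4] at b3
    have c5 : |lam t c - lam t v| ≤ |lam t v| + l0 := by
      rw [hl0]
      have := abs_sub (lam t c) (lam t v)
      linarith
    have c6 : (FreeGroup.norm v.1 : ℝ) ≤ n0 + (FreeGroup.norm (c.1⁻¹ * v.1) : ℝ) := by
      have e : v.1 = c.1 * (c.1⁻¹ * v.1) := by group
      have := FreeGroup.norm_mul_le c.1 (c.1⁻¹ * v.1)
      rw [← e] at this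
      rw [hn0]
      exact_mod_cast this
    have c7 : ε' * |lam t c - lam t v| ≤ (ε / 2) * (|lam t v| + l0) :=
      mul_le_mul hε'1 c5 (abs_nonneg _) (by positivity)
    have c8 : 2 * n0 / ε + l0 + 1 ≤ |lam t v| := by
      have := abs_nonneg R
      linarith
    have c9 : n0 = (ε / 2) * (2 * n0 / ε) := by field_simp
    have c10 : (ε / 2) * (2 * n0 / ε + l0 + 1) ≤ (ε / 2) * |lam t v| :=
      mul_le_mul_of_nonneg_left c8 (by positivity)
    have c11 : (ε / 2) * (2 * n0 / ε + l0 + 1) = n0 + (ε / 2) * l0 + ε / 2 := by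
      rw [mul_add, mul_add, ← c9, mul_one]
    have c12 : (ε / 2) * (|lam t v| + l0) = (ε / 2) * |lam t v| + (ε / 2) * l0 := by ring
    have c13 : ε * |lam t v| = (ε / 2) * |lam t v| + (ε / 2) * |lam t v| := by ring
    rw [c13]
    linarith

end Pool.Agent.Helper548.HB
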