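import Pool.Agent.Helper548.HB.Defs

set_option autoImplicit false

/-! Hyperbolic spaces, Gromov boundaries, hierarchically hyperbolic spaces and groups, the
hierarchically hyperbolic boundary and its topology. -/

namespace Pool.Agent.Helper548.HB



theorem pb_real_mpr (o a R : ℝ) (b : Bool) (h : R ≤ sgb b * (a - o)) : PB o R a (rinf b) := by
  obtain ⟨N, hN⟩ := exists_nat_ge (|a| + |o|)
  refine ⟨rseq b, rfl, N, fun n hn => ?_⟩
  have hn' : (N : ℝ) ≤ n := by exact_mod_cast hn
  have h1 := le_abs_self o
  have h2 := neg_abs_le o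
  have h3 := le_abs_self a
  have h4 := neg_abs_le a
  have h5 := abs_nonneg o
  have h6 := abs_nonneg a
  have h7 := le_abs_self (a - o)
  have h8 := neg_abs_le (a - o)
  unfold gprod
  simp only [Real.dist_eq]
  cases b
  · have e : (rseq false).seq n = -(n : ℝ) := rfl
    have e' : sgb false = -1 := rfl
    rw [e'] at h
    rw [e, abs_of_nonpos (show -(n : ℝ) - o ≤ 0 by linarith),
      abs_of_nonneg (show 0 ≤ a - -(n : ℝ) by linarith)]
    linarith
  · have e : (rseq true).seq n = (n : ℝ) := rfl
    have e' : sgb true = 1 := rfl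
    rw [e'] at h
    rw [e, abs_of_nonneg (show 0 ≤ (n : ℝ) - o by linarith),
      abs_of_nonpos (show a - (n : ℝ) ≤ 0 by linarith)]
    linarith

end Pool.Agent.Helper548.HB
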