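import Pool.Agent.Helper548.HB.Defs
import Pool.Agent.Helper548.HB.P_TG_dist
import Pool.Agent.Helper548.HB.P_near_self
import Pool.Agent.Helper548.HB.P_pb_base
import Pool.Agent.Helper548.HB.P_near_base
import Pool.Agent.Helper548.HB.P_pb_dist
import Pool.Agent.Helper548.HB.P_pb_real_mpr
import Pool.Agent.Helper548.HB.P_m_cases
import Pool.Agent.Helper548.HB.P_m_excl
import Pool.Agent.Helper548.HB.P_bproj_T
import Pool.Agent.Helper548.HB.P_bproj_L

set_option autoImplicit false

/-! Hyperbolic spaces, Gromov boundaries, hierarchically hyperbolic spaces and groups, the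
hierarchically hyperbolic boundary and its topology. -/

namespace Pool.Agent.Helper548.HB



theorem f_out_arc_sd {X : Type} [MetricSpace X] (a b : X) : sd {a} {b} = dist a b := by
  unfold sd
  have : {r | ∃ a' ∈ ({a} : Set X), ∃ b' ∈ ({b} : Set X), r = dist a' b'} = {dist a b} := by
    ext r
    simp
  rw [this, csInf_singleton]

theorem f_out_arc_lim (r ε : ℝ) (hr : 0 < r) (hε : 0 < ε) : ∃ η > 0, η ≤ r / 2 ∧ η ≤ 1 / 2 ∧
    ∀ α β : ℝ, |α - 1| < η → |β - r| < η → |β / α - r| < ε ∧ |α / β - 1 / r| < ε := by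
  have h1 : ContinuousAt (fun p : ℝ × ℝ => p.2 / p.1) (1, r) :=
    continuousAt_snd.div continuousAt_fst (by norm_num)
  have h2 : ContinuousAt (fun p : ℝ × ℝ => p.1 / p.2) (1, r) :=
    continuousAt_fst.div continuousAt_snd hr.ne'
  obtain ⟨δ₁, hδ₁, h1'⟩ := Metric.continuousAt_iff.mp h1 ε hε
  obtain ⟨δ₂, hδ₂, h2'⟩ := Metric.continuousAt_iff.mp h2 ε hε
  refine ⟨min (min δ₁ δ₂) (min (r / 2) (1 / 2)), lt_min (lt_min hδ₁ hδ₂)
    (lt_min (by linarith) (by norm_num)), (min_le_right _ _).trans (min_le_left _ _),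
    (min_le_right _ _).trans (min_le_right _ _), ?_⟩
  intro α β hα hβ
  have e1 : dist ((α, β) : ℝ × ℝ) (1, r) < δ₁ := by
    rw [Prod.dist_eq, Real.dist_eq, Real.dist_eq]
    exact max_lt (hα.trans_le ((min_le_left _ _).trans (min_le_left _ _)))
      (hβ.trans_le ((min_le_left _ _).trans (min_le_left _ _)))
  have e2 : dist ((α, β) : ℝ × ℝ) (1, r) < δ₂ := by
    rw [Prod.dist_eq, Real.dist_eq, Real.dist_eq]
    exact max_lt (hα.trans_le ((min_le_left _ _).trans (min_le_right _ _)))
      (hβ.trans_le ((min_le_left _ _).trans (min_le_right _ _)))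
  have k1 := h1' e1
  have k2 := h2' e2
  rw [Real.dist_eq] at k1 k2
  simp only [div_one] at k1
  exact ⟨k1, k2⟩

theorem f_out_arc_noorth {D : GData} (x : D.Q) (W : Dm D) (h1 : Dm.orth D W (Dm.T x))
    (h2 : Dm.orth D W (Dm.L x)) : False := by
  cases W <;> simp [Dm.orth] at h1 h2

theorem f_out_arc_away {D : GData} {RG : Realz D.Γ D.G} {RT : Realz TG H} (q : MPt D RG RT)
    (x : D.Q) (v : V) (h : q.away x v) :
    q.w (Dm.T x) = 0 ∧ q.w (Dm.L x) = 0 ∧
      ∃ T, q.w T ≠ 0 ∧ ¬ Dm.orth D T (Dm.T x) ∧ ¬ Dm.orth D T (Dm.L x) := by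
  cases q with
  | lim ω => exact ⟨rfl, rfl, Dm.S, by simp [MPt.w], by simp [Dm.orth], by simp [Dm.orth]⟩
  | arc y ξ r =>
    obtain ⟨hy, -⟩ := h
    refine ⟨by simp [MPt.w, hy.symm], by simp [MPt.w, hy.symm], Dm.T y, ?_, ?_, ?_⟩
    · simp only [MPt.w, if_true]
      positivity
    · simp [Dm.orth]
    · simp [Dm.orth, hy]
  | pole y b =>
    obtain ⟨hy, -⟩ := h
    refine ⟨by simp [MPt.w], by simp [MPt.w, hy.symm], Dm.L y, ?_, ?_, ?_⟩
    · simp [MPt.w]
    · simp [Dm.orth, hy]
    · simp [Dm.orth]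

theorem f_out_arc_supp {D : GData} {RG : Realz D.Γ D.G} {RT : Realz TG H} (x : D.Q)
    (ξ : Boundary RT.X) (r : ℝ) (U : Dm D) (h : (MPt.arc x ξ r : MPt D RG RT).w U ≠ 0) :
    U = Dm.T x ∨ U = Dm.L x := by
  cases U with
  | S => exact absurd rfl h
  | T y =>
    by_cases hy : y = x
    · exact Or.inl (by rw [hy])
    · exact absurd (by simp [MPt.w, hy]) h
  | L y =>
    by_cases hy : y = x
    · exact Or.inr (by rw [hy])
    · exact absurd (by simp [MPt.w, hy]) h

theorem f_out_arc_wT {D : GData} {RG : Realz D.Γ D.G} {RT : Realz TG H} (x : D.Q)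
    (ξ : Boundary RT.X) (r : ℝ) : (MPt.arc x ξ r : MPt D RG RT).w (Dm.T x) = 1 / (1 + |r|) := by
  simp [MPt.w]

theorem f_out_arc_wL {D : GData} {RG : Realz D.Γ D.G} {RT : Realz TG H} (x : D.Q)
    (ξ : Boundary RT.X) (r : ℝ) : (MPt.arc x ξ r : MPt D RG RT).w (Dm.L x) = |r| / (1 + |r|) := by
  simp [MPt.w]

theorem f_out_arc_sum {D : GData} {RG : Realz D.Γ D.G} {RT : Realz TG H} (t : ℝ) (x : D.Q)
    (ξ : Boundary RT.X) (r : ℝ) (hr : r ≠ 0) (q : MPt D RG RT) :
    (∑ᶠ T ∈ {T | ∀ U, ((MPt.arc x ξ r : MPt D RG RT).toB t).w U ≠ 0 →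
      (hier D RG RT t).orth T U}, (q.toB t).w T) = 0 := by
  have hempty : {T | ∀ U, ((MPt.arc x ξ r : MPt D RG RT).toB t).w U ≠ 0 →
      (hier D RG RT t).orth T U} = ∅ := by
    rw [Set.eq_empty_iff_forall_notMem]
    intro W hW
    have hr' : 0 < |r| := abs_pos.mpr hr
    refine f_out_arc_noorth x W (hW (Dm.T x) ?_) (hW (Dm.L x) ?_)
    · change (MPt.arc x ξ r : MPt D RG RT).w (Dm.T x) ≠ 0
      rw [f_out_arc_wT]
      positivity
    · change (MPt.arc x ξ r : MPt D RG RT).w (Dm.L x) ≠ 0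
      rw [f_out_arc_wL]
      positivity
  rw [hempty]
  simp

theorem f_out_arc_A {D : GData} {RG : Realz D.Γ D.G} {RT : Realz TG H} (t : ℝ) (x : D.Q)
    (ξ : Boundary RT.X) (r : ℝ) (hr : r ≠ 0) (R ε R' : ℝ) (hε : 0 < ε)
    (hR' : R + dist (RT.ι 1) (RT.ι (D.co x 1).1) ≤ R')
    (ξ' : Boundary RT.X) (r' : ℝ) (hn : Near (RT.ι 1) R' ξ ξ') (hr1 : |r' - r| < ε)
    (hr2 : |r' - r| < |r| / 2) :
    (MPt.arc x ξ' r' : MPt D RG RT).toB t ∈
      bnhd (hier D RG RT t) (1 : D.G) ((MPt.arc x ξ r : MPt D RG RT).toB t) R ε := by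
  have hr0 : 0 < |r| := abs_pos.mpr hr
  have hr'0 : r' ≠ 0 := by
    intro h
    rw [h, zero_sub, abs_neg] at hr2
    linarith
  have hr'1 : 0 < |r'| := abs_pos.mpr hr'0
  have hsupp : ∀ U : Dm D, (MPt.arc x ξ r : MPt D RG RT).w U ≠ 0 →
      (MPt.arc x ξ' r' : MPt D RG RT).w U ≠ 0 := by
    intro U hU
    rcases f_out_arc_supp x ξ r U hU with h | h <;> rw [h]
    · rw [f_out_arc_wT]
      positivity
    · rw [f_out_arc_wL]
      positivity
  have habs : |(|r'| - |r|)| ≤ |r' - r| := abs_abs_sub_abs_le_abs_sub _ _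
  have hw : |(1 / (1 + |r'|)) - 1 / (1 + |r|)| < ε := by
    have e1 : (1 / (1 + |r'|)) - 1 / (1 + |r|) = -(|r'| - |r|) / ((1 + |r'|) * (1 + |r|)) := by
      field_simp
      ring
    rw [e1, abs_div, abs_neg, abs_of_pos (show 0 < (1 + |r'|) * (1 + |r|) by positivity),
      div_lt_iff₀ (by positivity)]
    have : 1 ≤ (1 + |r'|) * (1 + |r|) := by nlinarith
    nlinarith
  have hsign : (decide (0 < r) : Bool) = decide (0 < r') := by
    rw [decide_eq_decide]
    rcases lt_or_gt_of_ne hr with h | h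
    · rw [abs_of_neg h] at hr2
      have := (abs_lt.mp hr2).2
      constructor
      · intro h'; linarith
      · intro h'; linarith
    · rw [abs_of_pos h] at hr2
      have := (abs_lt.mp hr2).1
      constructor
      · intro h'; linarith
      · intro h'; linarith
  refine ⟨?_, ?_, ?_, 0, ?_⟩
  · intro U hp hq
    rcases f_out_arc_supp x ξ r U hp with h | h
    · subst h
      refine ⟨?_, ?_⟩
      · change |(MPt.arc x ξ' r' : MPt D RG RT).w (Dm.T x) -
          (MPt.arc x ξ r : MPt D RG RT).w (Dm.T x)| < ε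
        rw [f_out_arc_wT, f_out_arc_wT]
        exact hw
      · intro o ho
        have ho' : o = RT.ι (D.co x 1).1 := ho
        subst ho'
        change Near (X := RT.X) (RT.ι (D.co x 1).1) R ξ ξ'
        exact (near_base hn).mono (by linarith)
    · subst h
      refine ⟨?_, ?_⟩
      · change |(MPt.arc x ξ' r' : MPt D RG RT).w (Dm.L x) -
          (MPt.arc x ξ r : MPt D RG RT).w (Dm.L x)| < ε
        rw [f_out_arc_wL, f_out_arc_wL]
        have e2 : |r'| / (1 + |r'|) - |r| / (1 + |r|) = -((1 / (1 + |r'|)) - 1 / (1 + |r|)) := by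
          field_simp
          ring
        rw [e2, abs_neg]
        exact hw
      · intro o ho
        change Near (X := ℝ) o R (rinf (decide (0 < r))) (rinf (decide (0 < r')))
        rw [← hsign]
        exact near_self _ _ _
  · intro U hp hq
    exact absurd hq (hsupp U hp)
  · rw [f_out_arc_sum t x ξ r hr]
    exact hε
  · intro S hS
    refine ⟨?_, ?_, ?_⟩
    · intro U hp hq
      exact absurd hq (hsupp U hp)
    · intro U U' hp hq
      exact absurd hq (hsupp U hp)
    · intro U W hp hq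
      exact absurd hq (hsupp U hp)

theorem f_out_arc {D : GData} {RG : Realz D.Γ D.G} {RT : Realz TG H} (t : ℝ) (x : D.Q)
    (ξ : Boundary RT.X) (r : ℝ) (hr : r ≠ 0)
    (R ε : ℝ) (hε : 0 < ε) : ∃ R' ε' : ℝ, 0 < ε' ∧ ∀ q : MPt D RG RT,
      q ∈ mnhd t (MPt.arc x ξ r) R' ε' →
      q.toB t ∈ bnhd (hier D RG RT t) (1 : D.G) ((MPt.arc x ξ r : MPt D RG RT).toB t) R ε := by
  have hr0 : 0 < |r| := abs_pos.mpr hr
  obtain ⟨η, hη0, hη1, hη2, hη⟩ := f_out_arc_lim |r| ε hr0 hε
  obtain ⟨c1, hc1⟩ : ∃ c1, c1 = dist (RT.ι 1) (RT.ι (D.co x 1).1) := ⟨_, rfl⟩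
  obtain ⟨c2, hc2⟩ : ∃ c2, c2 = |lam t (D.co x 1)| := ⟨_, rfl⟩
  have hc1' : 0 ≤ c1 := by rw [hc1]; exact dist_nonneg
  have hc2' : 0 ≤ c2 := by rw [hc2]; exact abs_nonneg _
  obtain ⟨R', hR'⟩ : ∃ R', R' = max (R + c1) (max (2 * c1 / η + 1) (max (2 * c2 / η + 1)
    (2 * (R + c2) / |r|))) := ⟨_, rfl⟩
  have hR1 : R + c1 ≤ R' := by rw [hR']; exact le_max_left _ _
  have hR2 : 2 * c1 / η + 1 ≤ R' := by
    rw [hR']; exact (le_max_left _ _).trans (le_max_right _ _)
  have hR3 : 2 * c2 / η + 1 ≤ R' := by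
    rw [hR']
    exact ((le_max_left _ _).trans (le_max_right _ _)).trans (le_max_right _ _)
  have hR4 : 2 * (R + c2) / |r| ≤ R' := by
    rw [hR']
    exact ((le_max_right _ _).trans (le_max_right _ _)).trans (le_max_right _ _)
  refine ⟨R', min ε (η / 2), lt_min hε (by linarith), ?_⟩
  rintro q (⟨ξ', r', rfl, hn, hrr⟩ | ⟨v, haway, hPB, hlam⟩)
  · refine f_out_arc_A t x ξ r hr R ε R' hε (by rw [← hc1]; exact hR1) ξ' r' hn
      (hrr.trans_le (min_le_left _ _)) ?_
    have := hrr.trans_le (min_le_right _ _)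
    linarith
  · obtain ⟨hqT, hqL, W, hW1, hW2, hW3⟩ := f_out_arc_away q x v haway
    have hnn := pb_dist hPB
    have hnorm : dist (RT.ι 1) (RT.ι v.1) = (FreeGroup.norm v.1 : ℝ) := by
      rw [RT.dist_ι, TG_dist, inv_one, one_mul]
    obtain ⟨n, hn⟩ : ∃ n : ℝ, n = (FreeGroup.norm v.1 : ℝ) := ⟨_, rfl⟩
    rw [hnorm, ← hn] at hnn
    rw [← hn] at hlam hnorm
    have hn1 : 1 ≤ n := by
      have : 0 ≤ 2 * c1 / η := by positivity
      linarith
    have hn0 : 0 < n := by linarith
    have hlam' : |lam t v / n - r| < η / 2 := hlam.trans_le (min_le_right _ _)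
    -- the two distances
    obtain ⟨A, hA⟩ : ∃ A, A = dist (RT.ι (D.co x 1).1) (RT.ι v.1) := ⟨_, rfl⟩
    obtain ⟨B, hB⟩ : ∃ B, B = dist (lam t (D.co x 1)) (lam t v) := ⟨_, rfl⟩
    have hAn : |A - n| ≤ c1 := by
      rw [hA, ← hnorm, hc1, abs_le]
      have t1 := dist_triangle (RT.ι 1) (RT.ι (D.co x 1).1) (RT.ι v.1)
      have t2 := dist_triangle (RT.ι (D.co x 1).1) (RT.ι 1) (RT.ι v.1)
      rw [dist_comm (RT.ι (D.co x 1).1) (RT.ι 1)] at t2
      constructor <;> linarith
    have hBl : |B - (|lam t v|)| ≤ c2 := by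
      rw [hB, hc2, Real.dist_eq]
      have t1 := abs_abs_sub_abs_le_abs_sub (lam t (D.co x 1) - lam t v) (-lam t v)
      rw [abs_neg, sub_neg_eq_add, sub_add_cancel] at t1
      exact t1
    have hα : |A / n - 1| < η := by
      have e1 : A / n - 1 = (A - n) / n := by field_simp
      rw [e1, abs_div, abs_of_pos hn0, div_lt_iff₀ hn0]
      have h2 : 2 * c1 / η < n := by linarith
      rw [div_lt_iff₀ hη0] at h2
      nlinarith
    have hβ : |B / n - (|r|)| < η := by
      have e1 : |(|lam t v| / n) - (|r|)| < η / 2 := by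
        have e2 : |lam t v| / n = |lam t v / n| := by
          rw [abs_div, abs_of_pos hn0]
        rw [e2]
        exact (abs_abs_sub_abs_le_abs_sub _ _).trans_lt hlam'
      have e3 : |B / n - (|lam t v| / n)| ≤ η / 2 := by
        rw [← sub_div, abs_div, abs_of_pos hn0, div_le_iff₀ hn0]
        have h2 : 2 * c2 / η < n := by linarith
        rw [div_lt_iff₀ hη0] at h2
        nlinarith
      have e4 := abs_sub_le (B / n) (|lam t v| / n) |r|
      linarith
    obtain ⟨hBA, hAB⟩ := hη _ _ hα hβ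
    have hA0 : 0 < A := by
      have h1 := (abs_lt.mp hα).1
      have h2 : 0 < A / n := by linarith
      exact (div_pos_iff_of_pos_right hn0).mp h2
    have hB0 : 0 < B := by
      have h1 := (abs_lt.mp hβ).1
      have h2 : 0 < B / n := by linarith
      exact (div_pos_iff_of_pos_right hn0).mp h2
    have hBA' : |B / A - (|r|)| < ε := by
      have : B / n / (A / n) = B / A := by field_simp
      rw [this] at hBA
      exact hBA
    have hAB' : |A / B - (1 / |r|)| < ε := by
      have : A / n / (B / n) = A / B := by field_simp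
      rw [this] at hAB
      exact hAB
    have hlin : R ≤ sgb (decide (0 < r)) * (lam t v - lam t (D.co x 1)) := by
      have h1 : R + c2 ≤ |r| / 2 * n := by
        have h2 : 2 * (R + c2) / |r| ≤ n := hR4.trans hnn
        rw [div_le_iff₀ hr0] at h2
        linarith
      have h3 : |lam t v - r * n| < η / 2 * n := by
        have e1 : lam t v - r * n = (lam t v / n - r) * n := by field_simp
        rw [e1, abs_mul, abs_of_pos hn0]
        exact mul_lt_mul_of_pos_right hlam' hn0
      have h4 : η / 2 * n ≤ |r| / 2 * n := by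
        have : η / 2 ≤ |r| / 2 := by linarith
        exact mul_le_mul_of_nonneg_right this hn0.le
      rcases lt_or_gt_of_ne hr with h | h
      · have e0 : (decide (0 < r) : Bool) = false := by
          simp [h.le]
        rw [e0, sgb]
        simp only [Bool.false_eq_true, if_false]
        have h5 := (abs_lt.mp h3).2
        rw [abs_of_neg h] at h1 h4
        have h6 : -(lam t (D.co x 1)) ≤ c2 := by rw [hc2]; exact neg_le_abs _
        linarith
      · have e0 : (decide (0 < r) : Bool) = true := by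
          simp [h]
        rw [e0, sgb]
        simp only [if_true]
        have h5 := (abs_lt.mp h3).1
        rw [abs_of_pos h] at h1 h4
        have h6 : lam t (D.co x 1) ≤ c2 := by rw [hc2]; exact le_abs_self _
        linarith
    obtain ⟨S1, hS1⟩ := bproj_T t q x v haway
    obtain ⟨S2, hS2⟩ := bproj_L t q x v haway
    refine ⟨?_, ?_, ?_, max S1 S2, ?_⟩
    · intro U hp hq
      exfalso
      rcases f_out_arc_supp x ξ r U hp with h | h
      · subst h
        exact hq hqT
      · subst h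
        exact hq hqL
    · intro U hp hq
      rcases f_out_arc_supp x ξ r U hp with h | h
      · subst h
        exact ⟨W, hW1, hW2⟩
      · subst h
        exact ⟨W, hW1, hW3⟩
    · rw [f_out_arc_sum t x ξ r hr]
      exact hε
    · intro S hS
      have hS1' := hS1 S ((le_max_left _ _).trans hS)
      have hS2' := hS2 S ((le_max_right _ _).trans hS)
      have hbT : bdist (hier D RG RT t) (1 : D.G) (q.toB t) S (Dm.T x) = A := by
        unfold bdist
        rw [hS1', hA]
        exact f_out_arc_sd (X := RT.X) _ _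
      have hbL : bdist (hier D RG RT t) (1 : D.G) (q.toB t) S (Dm.L x) = B := by
        unfold bdist
        rw [hS2', hB]
        exact f_out_arc_sd (X := ℝ) _ _
      have hwT : ((MPt.arc x ξ r : MPt D RG RT).toB t).w (Dm.T x) = 1 / (1 + |r|) :=
        f_out_arc_wT (RG := RG) x ξ r
      have hwL : ((MPt.arc x ξ r : MPt D RG RT).toB t).w (Dm.L x) = |r| / (1 + |r|) :=
        f_out_arc_wL (RG := RG) x ξ r
      refine ⟨?_, ?_, ?_⟩
      · intro U hp hq a ha o ho
        rcases f_out_arc_supp x ξ r U hp with h | h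
        · subst h
          rw [hS1'] at ha
          have ha' : a = RT.ι v.1 := ha
          have ho' : o = RT.ι (D.co x 1).1 := ho
          subst ha' ho'
          change PB (X := RT.X) (RT.ι (D.co x 1).1) R (RT.ι v.1) ξ
          exact (pb_base hPB).mono (by rw [← hc1]; linarith)
        · subst h
          rw [hS2'] at ha
          have ha' : a = lam t v := ha
          have ho' : o = lam t (D.co x 1) := ho
          subst ha' ho'
          change PB (X := ℝ) (lam t (D.co x 1)) R (lam t v) (rinf (decide (0 < r)))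
          exact pb_real_mpr _ _ _ _ hlin
      · intro U U' hp hq hp' hq'
        rcases f_out_arc_supp x ξ r U hp with h | h <;>
          rcases f_out_arc_supp x ξ r U' hp' with h' | h' <;> subst h <;> subst h'
        · rw [hbT, div_self hA0.ne', hwT, div_self (by positivity), sub_self, abs_zero]
          exact hε
        · rw [hbT, hbL, hwT, hwL]
          have e : 1 / (1 + |r|) / (|r| / (1 + |r|)) = 1 / |r| := by field_simp
          rw [e]
          exact hAB'
        · rw [hbT, hbL, hwT, hwL]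
          have e : |r| / (1 + |r|) / (1 / (1 + |r|)) = |r| := by field_simp
          rw [e]
          exact hBA'
        · rw [hbL, div_self hB0.ne', hwL, div_self (by positivity), sub_self, abs_zero]
          exact hε
      · intro U W' hp hq horth
        exfalso
        refine f_out_arc_noorth x W' (horth (Dm.T x) ?_) (horth (Dm.L x) ?_)
        · rw [hwT]
          positivity
        · rw [hwL]
          positivity

end Pool.Agent.Helper548.HB
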