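import Pool.Agent.Helper548.HB.Defs
import Pool.Agent.Helper548.HB.P_TG_dist
import Pool.Agent.Helper548.HB.P_pb_base
import Pool.Agent.Helper548.HB.P_near_base
import Pool.Agent.Helper548.HB.P_pb_dist
import Pool.Agent.Helper548.HB.P_m_cases
import Pool.Agent.Helper548.HB.P_m_excl
import Pool.Agent.Helper548.HB.P_bproj_T
import Pool.Agent.Helper548.HB.P_bproj_L

set_option autoImplicit false

/-! Hyperbolic spaces, Gromov boundaries, hierarchically hyperbolic spaces and groups, the
hierarchically hyperbolic boundary and its topology. -/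

namespace Pool.Agent.Helper548.HB



theorem hb7_sd_single {X : Type} [MetricSpace X] (a b : X) : sd ({a} : Set X) {b} = dist a b := by
  unfold sd
  have : {r | ∃ a' ∈ ({a} : Set X), ∃ b' ∈ ({b} : Set X), r = dist a' b'} = {dist a b} := by
    ext r; simp
  rw [this, csInf_singleton]

theorem hb7_wp {D : GData} {RG : Realz D.Γ D.G} {RT : Realz TG H} (x : D.Q)
    (ξ : Boundary RT.X) (U : Dm D) (h : (MPt.arc x ξ 0 : MPt D RG RT).w U ≠ 0) :
    U = Dm.T x := by
  cases U with
  | S => exact absurd rfl h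
  | T y =>
    by_cases hy : y = x
    · rw [hy]
    · exact absurd (by simp [MPt.w, hy]) h
  | L y => exact absurd (by simp [MPt.w]) h

theorem hb7_wT {D : GData} {RG : Realz D.Γ D.G} {RT : Realz TG H} (x : D.Q)
    (ξ : Boundary RT.X) (r : ℝ) : (MPt.arc x ξ r : MPt D RG RT).w (Dm.T x) = 1 / (1 + |r|) := by
  simp [MPt.w]

theorem hb7_wL {D : GData} {RG : Realz D.Γ D.G} {RT : Realz TG H} (x : D.Q)
    (ξ : Boundary RT.X) (r : ℝ) : (MPt.arc x ξ r : MPt D RG RT).w (Dm.L x) = |r| / (1 + |r|) := by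
  simp [MPt.w]

theorem hb7_set {D : GData} {RG : Realz D.Γ D.G} {RT : Realz TG H} (x : D.Q)
    (ξ : Boundary RT.X) :
    {T : Dm D | ∀ U, (MPt.arc x ξ 0 : MPt D RG RT).w U ≠ 0 → Dm.orth D T U} = {Dm.L x} := by
  ext T
  simp only [Set.mem_setOf_eq, Set.mem_singleton_iff]
  constructor
  · intro h
    have h1 := h (Dm.T x) (by rw [hb7_wT]; simp)
    cases T with
    | S => exact h1.elim
    | T y => exact h1.elim
    | L y =>
      have : y = x := h1
      rw [this]
  · rintro rfl U hU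
    rw [hb7_wp x ξ U hU]
    exact (rfl : x = x)

theorem hb7_away {D : GData} {RG : Realz D.Γ D.G} {RT : Realz TG H} (q : MPt D RG RT)
    (x : D.Q) (v : V) (h : q.away x v) : q.w (Dm.T x) = 0 ∧ q.w (Dm.L x) = 0 ∧
      ∃ T, q.w T ≠ 0 ∧ ¬ Dm.orth D T (Dm.T x) := by
  cases q with
  | lim ω =>
    refine ⟨rfl, rfl, Dm.S, ?_, fun h => h⟩
    simp [MPt.w]
  | arc y ζ r =>
    have hy : y ≠ x := h.1
    refine ⟨by simp [MPt.w, hy.symm], by simp [MPt.w, hy.symm], Dm.T y, ?_, fun h => h⟩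
    rw [hb7_wT]
    positivity
  | pole y b =>
    have hy : y ≠ x := h.1
    refine ⟨rfl, by simp [MPt.w, hy.symm], Dm.L y, ?_, ?_⟩
    · simp [MPt.w]
    · intro h1
      exact hy h1

theorem f_out_arc0 {D : GData} {RG : Realz D.Γ D.G} {RT : Realz TG H} (t : ℝ) (x : D.Q)
    (ξ : Boundary RT.X)
    (R ε : ℝ) (hε : 0 < ε) : ∃ R' ε' : ℝ, 0 < ε' ∧ ∀ q : MPt D RG RT,
      q ∈ mnhd t (MPt.arc x ξ 0) R' ε' →
      q.toB t ∈ bnhd (hier D RG RT t) (1 : D.G) ((MPt.arc x ξ 0 : MPt D RG RT).toB t) R ε := by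
  set m : ℝ := dist (RT.ι (1 : H)) (RT.ι (D.co x 1).1) with hm
  set l : ℝ := |lam t (D.co x 1)| with hl
  have hm0 : 0 ≤ m := dist_nonneg
  have hl0 : 0 ≤ l := abs_nonneg _
  have hfin : ∀ q : MPt D RG RT,
      (∑ᶠ T ∈ {T | ∀ U, ((MPt.arc x ξ 0 : MPt D RG RT).toB t).w U ≠ 0 →
        (hier D RG RT t).orth T U}, (q.toB t).w T) = q.w (Dm.L x) := by
    intro q
    have h1 : {T : (hier D RG RT t).Dom | ∀ U, ((MPt.arc x ξ 0 : MPt D RG RT).toB t).w U ≠ 0 →
        (hier D RG RT t).orth T U} = {Dm.L x} := hb7_set (RG := RG) x ξ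
    rw [h1]
    exact finsum_mem_singleton
  have hdpos : 0 ≤ 4 * l / ε := by positivity
  refine ⟨|R| + 2 * m + 4 * l / ε + 1, ε / 4, by positivity, fun q hq => ?_⟩
  rcases hq with ⟨ξ', r', rfl, hN, hr⟩ | ⟨v, hv, hPB, hlam⟩
  · rw [sub_zero] at hr
    have hr0 : 0 ≤ |r'| := abs_nonneg _
    have hr1 : 0 < 1 + |r'| := by positivity
    have hne : (MPt.arc x ξ' r' : MPt D RG RT).w (Dm.T x) ≠ 0 := by
      rw [hb7_wT]; positivity
    have hlt : |r'| / (1 + |r'|) < ε := by
      rw [div_lt_iff₀ hr1]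
      nlinarith
    refine ⟨?_, ?_, ?_, 0, fun R' _ => ⟨?_, ?_, ?_⟩⟩
    · intro U hp hq
      have hU : U = Dm.T x := hb7_wp x ξ U hp
      subst hU
      refine ⟨?_, ?_⟩
      · change |(MPt.arc x ξ' r' : MPt D RG RT).w (Dm.T x) -
          (MPt.arc x ξ 0 : MPt D RG RT).w (Dm.T x)| < ε
        rw [hb7_wT, hb7_wT]
        have : 1 / (1 + |r'|) - 1 / (1 + |(0:ℝ)|) = - (|r'| / (1 + |r'|)) := by
          rw [abs_zero]; field_simp; ring
        rw [this, abs_neg, abs_of_nonneg (by positivity)]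
        exact hlt
      · intro o ho
        have ho' : o = RT.ι (D.co x 1).1 := ho
        subst ho'
        have h2 := near_base (o' := RT.ι (D.co x 1).1) hN
        refine Near.mono h2 ?_
        have := le_abs_self R
        rw [← hm]
        linarith
    · intro U hp hq
      have hU : U = Dm.T x := hb7_wp x ξ U hp
      subst hU
      exact absurd hq hne
    · rw [hfin, hb7_wL]
      exact hlt
    · intro U hp hq
      have hU : U = Dm.T x := hb7_wp x ξ U hp
      subst hU
      exact absurd hq hne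
    · intro U U' hp hq
      have hU : U = Dm.T x := hb7_wp x ξ U hp
      subst hU
      exact absurd hq hne
    · intro U V' hp hq
      have hU : U = Dm.T x := hb7_wp x ξ U hp
      subst hU
      exact absurd hq hne
  · rw [sub_zero] at hlam
    obtain ⟨hwT, hwL, T0, hT0, hT0'⟩ := hb7_away q x v hv
    obtain ⟨R1, hR1⟩ := bproj_T t q x v hv
    obtain ⟨R2, hR2⟩ := bproj_L t q x v hv
    have hR : |R| + 2 * m + 4 * l / ε + 1 ≤ dist (RT.ι (1 : H)) (RT.ι v.1) := pb_dist hPB
    have hn : dist (RT.ι (1 : H)) (RT.ι v.1) = (FreeGroup.norm v.1 : ℝ) := by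
      rw [RT.dist_ι, TG_dist]
      simp
    set n : ℝ := (FreeGroup.norm v.1 : ℝ) with hnn
    rw [hn] at hR
    have hRabs := le_abs_self R
    have hRabs0 := abs_nonneg R
    have hn0 : 0 < n := by linarith
    have hlam' : |lam t v| < ε / 4 * n := by
      rw [abs_div, abs_of_pos hn0, div_lt_iff₀ hn0] at hlam
      exact hlam
    have hdist : n - m ≤ dist (RT.ι (D.co x 1).1) (RT.ι v.1) := by
      have := dist_triangle (RT.ι (1 : H)) (RT.ι (D.co x 1).1) (RT.ι v.1)
      rw [hn, ← hm] at this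
      linarith
    have hbT : ∀ R' ≥ R1, bdist (hier D RG RT t) (1 : D.G) (q.toB t) R' (Dm.T x) =
        dist (RT.ι (D.co x 1).1) (RT.ι v.1) := by
      intro R' hR'
      unfold bdist
      rw [hR1 R' hR']
      exact hb7_sd_single (X := RT.X) _ _
    have hbL : ∀ R' ≥ R2, bdist (hier D RG RT t) (1 : D.G) (q.toB t) R' (Dm.L x) =
        |lam t (D.co x 1) - lam t v| := by
      intro R' hR'
      unfold bdist
      rw [hR2 R' hR']
      exact hb7_sd_single (X := ℝ) _ _
    have hdp : 0 < dist (RT.ι (D.co x 1).1) (RT.ι v.1) := by linarith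
    refine ⟨?_, ?_, ?_, max R1 R2, fun R' hR' => ⟨?_, ?_, ?_⟩⟩
    · intro U hp hq
      have hU : U = Dm.T x := hb7_wp x ξ U hp
      subst hU
      exact absurd hwT hq
    · intro U hp hq
      have hU : U = Dm.T x := hb7_wp x ξ U hp
      subst hU
      exact ⟨T0, hT0, hT0'⟩
    · rw [hfin, hwL]
      exact hε
    · intro U hp hq a ha o ho
      have hU : U = Dm.T x := hb7_wp x ξ U hp
      subst hU
      rw [hR1 R' (le_trans (le_max_left _ _) hR')] at ha
      have ha' : a = RT.ι v.1 := ha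
      subst ha'
      have ho' : o = RT.ι (D.co x 1).1 := ho
      subst ho'
      have h2 := pb_base (o' := RT.ι (D.co x 1).1) hPB
      refine PB.mono h2 ?_
      rw [← hm]
      linarith
    · intro U U' hp hq hp' hq'
      have hU : U = Dm.T x := hb7_wp x ξ U hp
      have hU' : U' = Dm.T x := hb7_wp x ξ U' hp'
      subst hU
      subst hU'
      rw [hbT R' (le_trans (le_max_left _ _) hR'), div_self hdp.ne', div_self hp, sub_self,
        abs_zero]
      exact hε
    · intro U V' hp hq hV hV0 _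
      have hU : U = Dm.T x := hb7_wp x ξ U hp
      subst hU
      have hV1 : V' ∈ ({Dm.L x} : Set (Dm D)) := by
        rw [← hb7_set (RG := RG) x ξ]
        exact hV
      have hV2 : V' = Dm.L x := hV1
      subst hV2
      rw [hbT R' (le_trans (le_max_left _ _) hR'), hbL R' (le_trans (le_max_right _ _) hR'),
        div_lt_iff₀ hdp]
      have h5 : |lam t (D.co x 1) - lam t v| ≤ l + |lam t v| := abs_sub _ _
      have h6 : 4 * l ≤ ε * (4 * l / ε) := by
        rw [mul_div_cancel₀ _ hε.ne']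
      have h7 : ε * (4 * l / ε + 2 * m + 1) ≤ ε * n := by
        apply mul_le_mul_of_nonneg_left _ hε.le
        linarith
      have h8 : ε * (n - m) ≤ ε * dist (RT.ι (D.co x 1).1) (RT.ι v.1) :=
        mul_le_mul_of_nonneg_left hdist hε.le
      nlinarith

end Pool.Agent.Helper548.HB
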