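import Pool.Agent.Helper548.HB.Defs
import Pool.Agent.Helper548.HB.P_bproj_S

set_option autoImplicit false

/-! Hyperbolic spaces, Gromov boundaries, hierarchically hyperbolic spaces and groups, the
hierarchically hyperbolic boundary and its topology. -/

namespace Pool.Agent.Helper548.HB



private theorem j30192_sd {X : Type} [MetricSpace X] (a b : X) :
    sd ({a} : Set X) {b} = dist a b := by
  unfold sd
  have h : {r | ∃ a' ∈ ({a} : Set X), ∃ b' ∈ ({b} : Set X), r = dist a' b'} = {dist a b} := by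
    ext r
    constructor
    · rintro ⟨a', ha, b', hb, rfl⟩
      rw [Set.mem_singleton_iff] at ha hb
      rw [ha, hb]
      rfl
    · intro hr
      exact ⟨a, rfl, b, rfl, hr⟩
  rw [h, csInf_singleton]

private theorem j30192_pb {X : Type} [MetricSpace X] {o : X} {R : ℝ} {x : X} {ζ : Boundary X}
    (h : PB o R x ζ) : R ≤ dist o x := by
  obtain ⟨u, -, N, hN⟩ := h
  have h1 := hN N le_rfl
  unfold gprod at h1
  have h2 := dist_triangle (u.seq N) x o
  rw [dist_comm (u.seq N) x] at h2
  rw [dist_comm o x]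
  linarith

theorem f_out_lim {D : GData} {RG : Realz D.Γ D.G} {RT : Realz TG H} (t : ℝ)
    (ω : Boundary RG.X) (R ε : ℝ) (hε : 0 < ε) : ∃ R' ε' : ℝ, 0 < ε' ∧ ∀ q : MPt D RG RT,
      q ∈ mnhd t (MPt.lim ω) R' ε' →
      q.toB t ∈ bnhd (hier D RG RT t) (1 : D.G) ((MPt.lim ω : MPt D RG RT).toB t) R ε := by
  refine ⟨max R 1, 1, one_pos, fun q hq => ?_⟩
  have hn : q.nearlim ω (max R 1) := hq
  have hS : ∀ T : Dm D, ¬ (hier D RG RT t).orth T Dm.S := by
    intro T h
    cases T <;> exact h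
  have hsupp : ∀ U : Dm D, ((MPt.lim ω : MPt D RG RT).toB t).w U ≠ 0 → U = Dm.S := by
    intro U hU
    cases U with
    | S => rfl
    | T x => exact absurd rfl hU
    | L x => exact absurd rfl hU
  have hw1 : ((MPt.lim ω : MPt D RG RT).toB t).w Dm.S = 1 := rfl
  have key : (q.toB t).w Dm.S = 0 → ∃ y : D.Q, q.atv y ∧
      PB (RG.ι ((1 : D.G) : D.Q)) (max R 1) (RG.ι y) ω ∧ ∃ T : Dm D, (q.toB t).w T ≠ 0 := by
    intro h0
    cases q with
    | lim ω' => exact absurd h0 (one_ne_zero (α := ℝ))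
    | arc y ξ r =>
      refine ⟨y, rfl, hn, Dm.T y, ?_⟩
      have h1 : ((MPt.arc y ξ r : MPt D RG RT).toB t).w (Dm.T y) = 1 / (1 + |r|) := by
        simp only [MPt.toB, MPt.w, if_true]
      rw [h1]
      positivity
    | pole y b =>
      refine ⟨y, rfl, hn, Dm.L y, ?_⟩
      have h1 : ((MPt.pole y b : MPt D RG RT).toB t).w (Dm.L y) = 1 := by
        simp only [MPt.toB, MPt.w, if_true]
      rw [h1]
      exact one_ne_zero
  refine ⟨?_, ?_, ?_, 0, fun R' _ => ⟨?_, ?_, ?_⟩⟩
  · intro U hp hq'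
    obtain rfl := hsupp U hp
    cases q with
    | lim ω' =>
      refine ⟨?_, fun o ho => ?_⟩
      · show |(1 : ℝ) - 1| < ε
        rw [sub_self, abs_zero]; exact hε
      · have ho' : o = RG.ι ((1 : D.G) : D.Q) := ho
        rw [ho']
        exact Near.mono (X := RG.X) hn (le_max_left _ _)
    | arc y ξ r => exact absurd rfl hq'
    | pole y b => exact absurd rfl hq'
  · intro U hp hq'
    obtain rfl := hsupp U hp
    obtain ⟨y, -, -, T, hT⟩ := key hq'
    exact ⟨T, hT, hS T⟩
  · have he : {T : (hier D RG RT t).Dom | ∀ U, ((MPt.lim ω : MPt D RG RT).toB t).w U ≠ 0 →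
        (hier D RG RT t).orth T U} = ∅ := by
      apply Set.eq_empty_of_forall_notMem
      intro T hT
      refine hS T (hT Dm.S ?_)
      rw [hw1]; exact one_ne_zero
    rw [he, finsum_mem_empty]
    exact hε
  · intro U hp hq' a ha o ho
    obtain rfl := hsupp U hp
    obtain ⟨y, hy, hPB, -⟩ := key hq'
    rw [bproj_S t q y hy R'] at ha
    have ha' : a = RG.ι y := ha
    have ho' : o = RG.ι ((1 : D.G) : D.Q) := ho
    rw [ha', ho']
    exact PB.mono (X := RG.X) hPB (le_max_left _ _)
  · intro U U' hp hq' hp' hq''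
    obtain rfl := hsupp U hp
    obtain rfl := hsupp U' hp'
    obtain ⟨y, hy, hPB, -⟩ := key hq'
    have hd := j30192_pb hPB
    have hb : bdist (hier D RG RT t) (1 : D.G) (q.toB t) R' Dm.S =
        dist (RG.ι ((1 : D.G) : D.Q)) (RG.ι y) := by
      unfold bdist
      rw [bproj_S t q y hy R']
      exact j30192_sd (X := RG.X) _ _
    have hb0 : bdist (hier D RG RT t) (1 : D.G) (q.toB t) R' Dm.S ≠ 0 := by
      rw [hb]
      have : (1 : ℝ) ≤ max R 1 := le_max_right _ _
      intro h0
      rw [h0] at hd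
      linarith
    rw [div_self hb0, hw1, div_one, sub_self, abs_zero]
    exact hε
  · intro U V' _ _ hV
    exact absurd (hV Dm.S (by rw [hw1]; exact one_ne_zero)) (hS V')

end Pool.Agent.Helper548.HB
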