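import Pool.Agent.Helper548.HB.Defs
import Pool.Agent.Helper548.HB.P_TG_dist
import Pool.Agent.Helper548.HB.P_near_self
import Pool.Agent.Helper548.HB.P_pb_real_mpr
import Pool.Agent.Helper548.HB.P_m_cases
import Pool.Agent.Helper548.HB.P_m_excl
import Pool.Agent.Helper548.HB.P_bproj_T
import Pool.Agent.Helper548.HB.P_bproj_L

set_option autoImplicit false

/-! Hyperbolic spaces, Gromov boundaries, hierarchically hyperbolic spaces and groups, the
hierarchically hyperbolic boundary and its topology. -/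

namespace Pool.Agent.Helper548.HB



theorem fo_pw {D : GData} {RG : Realz D.Γ D.G} {RT : Realz TG H} (x : D.Q) (b : Bool) (U : Dm D)
    (h : (MPt.pole x b : MPt D RG RT).w U ≠ 0) : U = .L x := by
  cases U with
  | S => exact absurd rfl h
  | T y => exact absurd rfl h
  | L y =>
    by_cases hy : y = x
    · rw [hy]
    · exact absurd (by simp [MPt.w, hy]) h

theorem fo_p1 {D : GData} {RG : Realz D.Γ D.G} {RT : Realz TG H} (x : D.Q) (b : Bool) :
    (MPt.pole x b : MPt D RG RT).w (.L x) = 1 := by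
  simp [MPt.w]

theorem fo_orth {D : GData} (x : D.Q) (V : Dm D) (h : Dm.orth D V (.L x)) : V = .T x := by
  cases V with
  | S => exact h.elim
  | T y =>
    have h' : y = x := h
    rw [h']
  | L y => exact h.elim

theorem fo_sd {X : Type} [MetricSpace X] (a b : X) : sd ({a} : Set X) {b} = dist a b := by
  unfold sd
  have h : {r | ∃ a' ∈ ({a} : Set X), ∃ b' ∈ ({b} : Set X), r = dist a' b'} = {dist a b} := by
    ext r
    constructor
    · rintro ⟨a', rfl, b', rfl, rfl⟩
      rfl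
    · rintro rfl
      exact ⟨a, rfl, b, rfl, rfl⟩
  rw [h, csInf_singleton]

theorem fo_away {D : GData} {RG : Realz D.Γ D.G} {RT : Realz TG H} (q : MPt D RG RT) (x : D.Q)
    (v : V) (h : q.away x v) : q.w (.L x) = 0 ∧ q.w (.T x) = 0 ∧
      ∃ T, q.w T ≠ 0 ∧ ¬ Dm.orth D T (.L x) := by
  cases q with
  | lim ω => exact ⟨rfl, rfl, .S, one_ne_zero, fun h => h⟩
  | arc y ξ r =>
    obtain ⟨hy, -⟩ := h
    have hy' : x ≠ y := fun h => hy h.symm
    refine ⟨by simp [MPt.w, hy'], by simp [MPt.w, hy'], .T y, ?_, fun h => hy h⟩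
    have h1 : (MPt.arc y ξ r : MPt D RG RT).w (.T y) = 1 / (1 + |r|) := by simp [MPt.w]
    rw [h1]
    positivity
  | pole y b' =>
    obtain ⟨hy, -⟩ := h
    have hy' : x ≠ y := fun h => hy h.symm
    refine ⟨by simp [MPt.w, hy'], rfl, .L y, ?_, fun h => h⟩
    rw [fo_p1]
    exact one_ne_zero

theorem fo_mem {D : GData} {RG : Realz D.Γ D.G} {RT : Realz TG H} (t : ℝ) (x : D.Q) (b : Bool)
    (R ε : ℝ) (hε : 0 < ε) (q : MPt D RG RT)
    (h1 : ∀ hq : q.w (.L x) ≠ 0, |q.w (.L x) - 1| < ε ∧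
      Near (X := ℝ) (lam t (D.co x 1)) R (rinf b) (q.bp (.L x) hq))
    (h2 : q.w (.L x) = 0 → ∃ T, q.w T ≠ 0 ∧ ¬ Dm.orth D T (.L x))
    (h3 : q.w (.T x) < ε)
    (h4 : q.w (.L x) = 0 → ∃ R₀ : ℝ, ∀ R' ≥ R₀,
      (∀ a ∈ bproj (hier D RG RT t) (1 : D.G) (q.toB t) R' (Dm.L x),
        PB (X := ℝ) (lam t (D.co x 1)) R a (rinf b)) ∧
      bdist (hier D RG RT t) (1 : D.G) (q.toB t) R' (Dm.L x) ≠ 0 ∧
      bdist (hier D RG RT t) (1 : D.G) (q.toB t) R' (Dm.T x) /
        bdist (hier D RG RT t) (1 : D.G) (q.toB t) R' (Dm.L x) < ε) :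
    q.toB t ∈ bnhd (hier D RG RT t) (1 : D.G) ((MPt.pole x b : MPt D RG RT).toB t) R ε := by
  have hset : {T : Dm D | ∀ U : Dm D, (MPt.pole x b : MPt D RG RT).w U ≠ 0 → Dm.orth D T U} =
      {Dm.T x} := by
    ext T
    constructor
    · intro h
      exact fo_orth x T (h (.L x) (by rw [fo_p1]; exact one_ne_zero))
    · intro hT U hU
      rw [fo_pw x b U hU, show T = Dm.T x from hT]
      exact rfl
  have hsum : ∑ᶠ T ∈ {T : Dm D | ∀ U : Dm D, (MPt.pole x b : MPt D RG RT).w U ≠ 0 →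
      Dm.orth D T U}, q.w T = q.w (.T x) := by
    rw [hset, finsum_mem_singleton]
  refine ⟨?_, ?_, lt_of_eq_of_lt hsum h3, ?_⟩
  · intro U hp hq
    obtain rfl : U = Dm.L x := fo_pw x b U hp
    obtain ⟨h5, h6⟩ := h1 hq
    refine ⟨?_, ?_⟩
    · change |q.w (.L x) - (MPt.pole x b : MPt D RG RT).w (.L x)| < ε
      rw [fo_p1]
      exact h5
    · intro o ho
      have ho' : o = lam t (D.co x 1) := ho
      rw [ho']
      exact h6
  · intro U hp hq
    obtain rfl : U = Dm.L x := fo_pw x b U hp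
    exact h2 hq
  · by_cases hq0 : q.w (.L x) = 0
    · obtain ⟨R₀, hR₀⟩ := h4 hq0
      refine ⟨R₀, fun R' hR' => ?_⟩
      obtain ⟨k1, k2, k3⟩ := hR₀ R' hR'
      refine ⟨?_, ?_, ?_⟩
      · intro U hp hq a ha o ho
        obtain rfl : U = Dm.L x := fo_pw x b U hp
        have ho' : o = lam t (D.co x 1) := ho
        rw [ho']
        exact k1 a ha
      · intro U U' hp hq hp' hq'
        obtain rfl : U = Dm.L x := fo_pw x b U hp
        obtain rfl : U' = Dm.L x := fo_pw x b U' hp'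
        rw [div_self k2, div_self hp, sub_self, abs_zero]
        exact hε
      · intro U V hp hq hV hqV hT
        obtain rfl : U = Dm.L x := fo_pw x b U hp
        obtain rfl : V = Dm.T x := fo_orth x V (hV (Dm.L x) hp)
        exact k3
    · refine ⟨0, fun R' hR' => ⟨?_, ?_, ?_⟩⟩
      · intro U hp hq
        obtain rfl : U = Dm.L x := fo_pw x b U hp
        exact absurd hq hq0
      · intro U U' hp hq
        obtain rfl : U = Dm.L x := fo_pw x b U hp
        exact absurd hq hq0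
      · intro U V hp hq
        obtain rfl : U = Dm.L x := fo_pw x b U hp
        exact absurd hq hq0

theorem f_out_pole {D : GData} {RG : Realz D.Γ D.G} {RT : Realz TG H} (t : ℝ) (x : D.Q)
    (b : Bool)
    (R ε : ℝ) (hε : 0 < ε) : ∃ R' ε' : ℝ, 0 < ε' ∧ ∀ q : MPt D RG RT,
      q ∈ mnhd t (MPt.pole x b) R' ε' →
      q.toB t ∈ bnhd (hier D RG RT t) (1 : D.G) ((MPt.pole x b : MPt D RG RT).toB t) R ε := by
  obtain ⟨o₀, ho₀⟩ : ∃ o₀ : ℝ, o₀ = lam t (D.co x 1) := ⟨_, rfl⟩
  obtain ⟨n₀, hn₀⟩ : ∃ n₀ : ℝ, n₀ = (FreeGroup.norm (D.co x 1).1 : ℝ) := ⟨_, rfl⟩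
  have hn0 : 0 ≤ n₀ := by rw [hn₀]; positivity
  have hsg : sgb b = 1 ∨ sgb b = -1 := by
    cases b
    · right; simp [sgb]
    · left; simp [sgb]
  refine ⟨|R| + |o₀| + 2 * (n₀ + ε * |o₀|) / ε + 1 / ε + 1, ε / 2, by positivity, fun q hq => ?_⟩
  obtain ⟨R', hR'⟩ : ∃ R' : ℝ, R' = |R| + |o₀| + 2 * (n₀ + ε * |o₀|) / ε + 1 / ε + 1 := ⟨_, rfl⟩
  rw [← hR'] at hq
  have e1 : 0 ≤ |R| := abs_nonneg _
  have e2 : 0 ≤ |o₀| := abs_nonneg _
  have e3 : 0 ≤ 2 * (n₀ + ε * |o₀|) / ε := by positivity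
  have e4 : 0 < 1 / ε := by positivity
  have hR1 : |R| + |o₀| < R' := by linarith
  have hR2 : 2 * (n₀ + ε * |o₀|) / ε < R' := by linarith
  have hR3 : 1 / ε < R' := by linarith
  have hR4 : 0 < R' := by linarith
  rcases hq with rfl | ⟨ξ', r', rfl, hr⟩ | ⟨v, hv, hv1, hv2⟩
  · refine fo_mem t x b R ε hε _ ?_ ?_ hε ?_
    · intro hq
      rw [fo_p1]
      refine ⟨by simpa using hε, ?_⟩
      exact near_self _ _ _
    · intro h0
      rw [fo_p1] at h0
      exact absurd h0 one_ne_zero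
    · intro h0
      rw [fo_p1] at h0
      exact absurd h0 one_ne_zero
  · have hw1 : (MPt.arc x ξ' r' : MPt D RG RT).w (.L x) = |r'| / (1 + |r'|) := by simp [MPt.w]
    have hw2 : (MPt.arc x ξ' r' : MPt D RG RT).w (.T x) = 1 / (1 + |r'|) := by simp [MPt.w]
    have hr1 : R' < |r'| := by
      rcases hsg with h | h
      · rw [h, one_mul] at hr
        exact hr.trans_le (le_abs_self _)
      · rw [h] at hr
        exact (by linarith : R' < -r').trans_le (neg_le_abs _)
    have hr2 : 1 / (1 + |r'|) < ε := by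
      rw [div_lt_iff₀ (by positivity)]
      have h5 : 1 / ε < 1 + |r'| := by linarith
      rw [div_lt_iff₀ hε] at h5
      linarith
    have hb : decide (0 < r') = b := by
      cases b
      · have h5 : sgb false = -1 := by simp [sgb]
        rw [h5] at hr
        exact decide_eq_false (by linarith)
      · have h5 : sgb true = 1 := by simp [sgb]
        rw [h5] at hr
        exact decide_eq_true (by linarith)
    have hne : |r'| / (1 + |r'|) ≠ 0 := by
      have h6 : 0 < |r'| := hR4.trans hr1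
      positivity
    refine fo_mem t x b R ε hε _ ?_ ?_ (by rw [hw2]; exact hr2) ?_
    · intro hq
      refine ⟨?_, ?_⟩
      · rw [hw1]
        have h7 : |r'| / (1 + |r'|) - 1 = -(1 / (1 + |r'|)) := by
          field_simp
          ring
        rw [h7, abs_neg, abs_of_pos (by positivity)]
        exact hr2
      · have h8 : (MPt.arc x ξ' r' : MPt D RG RT).bp (.L x) hq = rinf b := by
          rw [← hb]
          simp only [MPt.bp] <;> congr
        rw [h8]
        exact near_self _ _ _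
    · intro h0
      rw [hw1] at h0
      exact absurd h0 hne
    · intro h0
      rw [hw1] at h0
      exact absurd h0 hne
  · obtain ⟨k1, k2, k3⟩ := fo_away q x v hv
    refine fo_mem t x b R ε hε _ (fun h => absurd k1 h) (fun _ => k3) (by rw [k2]; exact hε) ?_
    intro _
    obtain ⟨R₁, hR₁⟩ := bproj_T t q x v hv
    obtain ⟨R₂, hR₂⟩ := bproj_L t q x v hv
    have hlam : R' < |lam t v| := by
      rcases hsg with h | h
      · rw [h, one_mul] at hv1
        exact hv1.trans_le (le_abs_self _)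
      · rw [h] at hv1
        exact (by linarith : R' < -lam t v).trans_le (neg_le_abs _)
    refine ⟨max R₁ R₂, fun S hS => ?_⟩
    have hT := hR₁ S ((le_max_left _ _).trans hS)
    have hL := hR₂ S ((le_max_right _ _).trans hS)
    have hdL : bdist (hier D RG RT t) (1 : D.G) (q.toB t) S (Dm.L x) = |o₀ - lam t v| := by
      unfold bdist
      rw [hL, ho₀]
      exact (fo_sd (X := ℝ) (lam t (D.co x 1)) (lam t v)).trans (Real.dist_eq _ _)
    have hdT : bdist (hier D RG RT t) (1 : D.G) (q.toB t) S (Dm.T x) =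
        (FreeGroup.norm ((D.co x 1).1⁻¹ * v.1) : ℝ) := by
      unfold bdist
      rw [hT]
      refine (fo_sd (X := RT.X) (RT.ι (D.co x 1).1) (RT.ι v.1)).trans ?_
      rw [RT.dist_ι, TG_dist]
    have hlow : |lam t v| - |o₀| ≤ |o₀ - lam t v| := by
      rw [abs_sub_comm]
      exact abs_sub_abs_le_abs_sub _ _
    have hpos : 0 < |o₀ - lam t v| := by linarith
    refine ⟨?_, ?_, ?_⟩
    · intro a ha
      rw [hL] at ha
      have ha' : a = lam t v := ha
      rw [ha', ← ho₀]
      apply pb_real_mpr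
      have h5 := le_abs_self R
      have h6 := le_abs_self o₀
      have h7 := neg_abs_le o₀
      rcases hsg with h | h
      · rw [h] at hv1 ⊢
        linarith
      · rw [h] at hv1 ⊢
        linarith
    · rw [hdL]
      exact hpos.ne'
    · rw [hdT, hdL, div_lt_iff₀ hpos]
      have h5 : (FreeGroup.norm ((D.co x 1).1⁻¹ * v.1) : ℝ) ≤ n₀ + FreeGroup.norm v.1 := by
        have h6 := FreeGroup.norm_mul_le (D.co x 1).1⁻¹ v.1
        rw [FreeGroup.norm_inv_eq] at h6
        rw [hn₀]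
        exact_mod_cast h6
      have h7 : 2 * (n₀ + ε * |o₀|) < |lam t v| * ε := by
        have h8 : 2 * (n₀ + ε * |o₀|) / ε < |lam t v| := by linarith
        rwa [div_lt_iff₀ hε] at h8
      have h9 : ε * (|lam t v| - |o₀|) ≤ ε * |o₀ - lam t v| :=
        mul_le_mul_of_nonneg_left hlow hε.le
      nlinarith

end Pool.Agent.Helper548.HB
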