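import Pool.Agent.Helper548.HB.Defs
import Pool.Agent.Helper548.HB.P_f_bij
import Pool.Agent.Helper548.HB.P_f_in_lim
import Pool.Agent.Helper548.HB.P_f_in_arc
import Pool.Agent.Helper548.HB.P_f_in_arc0
import Pool.Agent.Helper548.HB.P_f_in_pole
import Pool.Agent.Helper548.HB.P_f_out_lim
import Pool.Agent.Helper548.HB.P_f_out_arc
import Pool.Agent.Helper548.HB.P_f_out_arc0
import Pool.Agent.Helper548.HB.P_f_out_pole

set_option autoImplicit false

/-! Hyperbolic spaces, Gromov boundaries, hierarchically hyperbolic spaces and groups, the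
hierarchically hyperbolic boundary and its topology. -/

namespace Pool.Agent.Helper548.HB



theorem f_in_30208 {D : GData} {RG : Realz D.Γ D.G} {RT : Realz TG H} (t : ℝ)
    (p : MPt D RG RT) (R ε : ℝ) (hε : 0 < ε) : ∃ R' ε' : ℝ, 0 < ε' ∧ ∀ q : MPt D RG RT,
      q.toB t ∈ bnhd (hier D RG RT t) (1 : D.G) (p.toB t) R' ε' → q ∈ mnhd t p R ε := by
  cases p with
  | lim ω => exact f_in_lim t ω R ε hε
  | arc x ξ r =>
    by_cases hr : r = 0
    · subst hr
      exact f_in_arc0 t x ξ R ε hε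
    · exact f_in_arc t x ξ r hr R ε hε
  | pole x b => exact f_in_pole t x b R ε hε

theorem f_out_30208 {D : GData} {RG : Realz D.Γ D.G} {RT : Realz TG H} (t : ℝ)
    (p : MPt D RG RT) (R ε : ℝ) (hε : 0 < ε) : ∃ R' ε' : ℝ, 0 < ε' ∧ ∀ q : MPt D RG RT,
      q ∈ mnhd t p R' ε' → q.toB t ∈ bnhd (hier D RG RT t) (1 : D.G) (p.toB t) R ε := by
  cases p with
  | lim ω => exact f_out_lim t ω R ε hε
  | arc x ξ r =>
    by_cases hr : r = 0
    · subst hr
      exact f_out_arc0 t x ξ R ε hε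
    · exact f_out_arc t x ξ r hr R ε hε
  | pole x b => exact f_out_pole t x b R ε hε

theorem f_homeo (t : ℝ) (D : GData) (RG : Realz D.Γ D.G) (RT : Realz TG H) :
    Nonempty (@Homeomorph (MPt D RG RT) (BPt (hier D RG RT t)) (mTop t D RG RT)
      (bTop (hier D RG RT t) (1 : D.G))) := by
  letI := mTop t D RG RT
  letI := bTop (hier D RG RT t) (1 : D.G)
  refine ⟨(Equiv.ofBijective _ (f_bij (D := D) (RG := RG) (RT := RT) t)).toHomeomorph ?_⟩
  intro s
  constructor
  · intro h b hb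
    obtain ⟨p, rfl⟩ := (f_bij (D := D) (RG := RG) (RT := RT) t).2 b
    obtain ⟨R, ε, hε, hsub⟩ := h p hb
    obtain ⟨R', ε', hε', hin⟩ := f_in_30208 t p R ε hε
    refine ⟨R', ε', hε', ?_⟩
    intro b' hb'
    obtain ⟨q, rfl⟩ := (f_bij (D := D) (RG := RG) (RT := RT) t).2 b'
    exact hsub (hin q hb')
  · intro h p hp
    obtain ⟨R, ε, hε, hsub⟩ := h _ hp
    obtain ⟨R', ε', hε', hout⟩ := f_out_30208 t p R ε hε
    exact ⟨R', ε', hε', fun q hq => hsub (hout q hq)⟩

end Pool.Agent.Helper548.HB
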