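import Pool.Agent.Helper548.HB.Defs
import Pool.Agent.Helper548.HB.P_e_near
import Pool.Agent.Helper548.HB.P_m_loc

set_option autoImplicit false

/-! Hyperbolic spaces, Gromov boundaries, hierarchically hyperbolic spaces and groups, the
hierarchically hyperbolic boundary and its topology. -/

namespace Pool.Agent.Helper548.HB



theorem g_DA_open (t : ℝ) (D : GData) (RG : Realz D.Γ D.G) (RT : Realz TG H) (x : D.Q)
    (A : Set H) (hA : ∀ (h : H) (j : ℤ), h * FreeGroup.of true ^ j ∈ A ↔ h ∈ A) :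
    @IsOpen _ (mTop t D RG RT) (DA x A : Set (MPt D RG RT)) := by
  show ∀ p ∈ (DA x A : Set (MPt D RG RT)), ∃ R ε : ℝ, 0 < ε ∧ mnhd t p R ε ⊆ DA x A
  rintro p (⟨ξ, r, rfl, hE⟩ | ⟨v, hv, hvA⟩)
  · obtain ⟨R1, h1⟩ := e_near RT A ξ hE
    obtain ⟨R0, hE0⟩ := hE
    refine ⟨max R0 R1, 1, one_pos, ?_⟩
    rintro q (⟨ξ', r', rfl, h2, _⟩ | ⟨v, h2, h3, _⟩)
    · exact Or.inl ⟨ξ', r', rfl, h1 ξ' (h2.mono (le_max_right _ _))⟩
    · exact Or.inr ⟨v, h2, hE0 v.1 (h3.mono (le_max_left _ _))⟩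
  · obtain ⟨R, ε, hε, h⟩ := m_loc t p x v hv
    refine ⟨R, ε, hε, fun q hq => ?_⟩
    obtain ⟨j, _, hj⟩ := h q hq
    have e : (v * gc ^ j).1 = v.1 * FreeGroup.of true ^ j := by
      have e1 : (gc ^ j).1 = (MonoidHom.fst H (Multiplicative ℤ)) (gc ^ j) := rfl
      rw [Prod.fst_mul, e1, map_zpow]
      rfl
    exact Or.inr ⟨v * gc ^ j, hj, by rw [e]; exact (hA v.1 j).2 hvA⟩

end Pool.Agent.Helper548.HB
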