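import Pool.Agent.Helper548.HB.Defs
import Pool.Agent.Helper548.HB.P_e_side
import Pool.Agent.Helper548.HB.P_e_HS_c
import Pool.Agent.Helper548.HB.P_e_gen_h
import Pool.Agent.Helper548.HB.P_e_gen_xi
import Pool.Agent.Helper548.HB.P_e_excl
import Pool.Agent.Helper548.HB.P_away_uniq
import Pool.Agent.Helper548.HB.P_m_cases
import Pool.Agent.Helper548.HB.P_m_excl
import Pool.Agent.Helper548.HB.P_g_arc_cont
import Pool.Agent.Helper548.HB.P_g_DA_open

set_option autoImplicit false

/-! Hyperbolic spaces, Gromov boundaries, hierarchically hyperbolic spaces and groups, the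
hierarchically hyperbolic boundary and its topology. -/

namespace Pool.Agent.Helper548.HB



theorem g_comp_gen_disj {D : GData} {RG : Realz D.Γ D.G} {RT : Realz TG H} (x : D.Q)
    (A : Set H) (z : MPt D RG RT) (h1 : z ∈ (DA x A : Set (MPt D RG RT)))
    (h2 : z ∈ (DA x Aᶜ : Set (MPt D RG RT))) : False := by
  rcases h1 with ⟨ξ1, r1, e1, h1⟩ | ⟨v1, a1, h1⟩
  · rcases h2 with ⟨ξ2, r2, e2, h2⟩ | ⟨v2, a2, h2⟩
    · rw [e1] at e2
      have e3 : ξ1 = ξ2 := by
        injection e2
      subst e3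
      exact e_excl RT ξ1 A h1 h2
    · have h3 : z.atv x := by
        rw [e1]
        exact rfl
      exact m_excl z x v2 h3 a2
  · rcases h2 with ⟨ξ2, r2, e2, h2⟩ | ⟨v2, a2, h2⟩
    · have h3 : z.atv x := by
        rw [e2]
        exact rfl
      exact m_excl z x v1 h3 a1
    · have e := away_uniq z x v1 v2 a1 a2
      subst e
      exact h2 h1

theorem g_comp_gen_cover {D : GData} {RG : Realz D.Γ D.G} {RT : Realz TG H} (x : D.Q)
    (k : H) (b : Bool) (z : MPt D RG RT)
    (hz : z ∈ ({MPt.pole x true, MPt.pole x false} : Set (MPt D RG RT))ᶜ) :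
    z ∈ (DA x (HS k b) : Set (MPt D RG RT)) ∪ DA x (HS k b)ᶜ := by
  rcases m_cases z x with h | ⟨v, hv⟩
  · cases z with
    | lim ω => exact h.elim
    | arc y ξ' r' =>
      have hy : y = x := h
      subst hy
      rcases e_side RT ξ' k b with h1 | h1
      · exact Or.inl (Or.inl ⟨ξ', r', rfl, h1⟩)
      · exact Or.inr (Or.inl ⟨ξ', r', rfl, h1⟩)
    | pole y c =>
      have hy : y = x := h
      subst hy
      exfalso
      apply hz
      cases c
      · exact Or.inr rfl
      · exact Or.inl rfl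
  · by_cases h : v.1 ∈ HS k b
    · exact Or.inl (Or.inr ⟨v, hv, h⟩)
    · exact Or.inr (Or.inr ⟨v, hv, h⟩)

theorem g_comp_gen (t : ℝ) (D : GData) (RG : Realz D.Γ D.G) (RT : Realz TG H) (x : D.Q)
    (ξ : Boundary RT.X) (hξ : Generic RT ξ) (r : ℝ) :
    @connectedComponentIn _ (mTop t D RG RT)
      ({MPt.pole x true, MPt.pole x false} : Set (MPt D RG RT))ᶜ (MPt.arc x ξ r) =
      {q | ∃ r', q = MPt.arc x ξ r'} := by
  letI : TopologicalSpace (MPt D RG RT) := mTop t D RG RT
  have hcont : Continuous (fun r => (MPt.arc x ξ r : MPt D RG RT)) :=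
    g_arc_cont t D RG RT x ξ
  have hsubP : ∀ r' : ℝ, (MPt.arc x ξ r' : MPt D RG RT) ∈
      ({MPt.pole x true, MPt.pole x false} : Set (MPt D RG RT))ᶜ := by
    intro r' h
    rcases h with h | h
    · cases h
    · cases h
  have key : ∀ (k : H) (b : Bool) (q : MPt D RG RT), EndIn RT (HS k b) ξ →
      q ∈ (DA x (HS k b)ᶜ : Set (MPt D RG RT)) →
      q ∈ connectedComponentIn ({MPt.pole x true, MPt.pole x false} : Set (MPt D RG RT))ᶜ
        (MPt.arc x ξ r) → False := by
    intro k b q h1 h2 hq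
    have o1 : IsOpen (DA x (HS k b) : Set (MPt D RG RT)) :=
      g_DA_open t D RG RT x (HS k b) (fun h j => e_HS_c k h b j)
    have o2 : IsOpen (DA x (HS k b)ᶜ : Set (MPt D RG RT)) :=
      g_DA_open t D RG RT x (HS k b)ᶜ (fun h j => not_congr (e_HS_c k h b j))
    have hpc : IsPreconnected (connectedComponentIn
        ({MPt.pole x true, MPt.pole x false} : Set (MPt D RG RT))ᶜ (MPt.arc x ξ r)) :=
      isPreconnected_connectedComponentIn
    obtain ⟨z, -, hz1, hz2⟩ := hpc _ _ o1 o2
      (fun z hz => g_comp_gen_cover x k b z (connectedComponentIn_subset _ _ hz))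
      ⟨MPt.arc x ξ r, mem_connectedComponentIn (hsubP r), Or.inl ⟨ξ, r, rfl, h1⟩⟩
      ⟨q, hq, h2⟩
    exact g_comp_gen_disj x (HS k b) z hz1 hz2
  apply Set.Subset.antisymm
  · intro q hq
    by_contra hne
    have hqP := connectedComponentIn_subset _ _ hq
    rcases m_cases q x with h | ⟨v, hv⟩
    · cases q with
      | lim ω => exact h.elim
      | arc y ξ' r' =>
        have hy : y = x := h
        subst hy
        have hx : ξ' ≠ ξ := by
          intro he
          subst he
          exact hne ⟨r', rfl⟩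
        obtain ⟨k, b, h1, h2⟩ := e_gen_xi RT ξ ξ' hξ hx
        exact key k b _ h1 (Or.inl ⟨ξ', r', rfl, h2⟩) hq
      | pole y c =>
        have hy : y = x := h
        subst hy
        apply hqP
        cases c
        · exact Or.inr rfl
        · exact Or.inl rfl
    · obtain ⟨k, b, h1, h2⟩ := e_gen_h RT ξ hξ v.1
      exact key k b q h1 (Or.inr ⟨v, hv, h2⟩) hq
  · rintro q ⟨r', rfl⟩
    have hpr : IsPreconnected (Set.range (fun r => (MPt.arc x ξ r : MPt D RG RT))) :=
      isPreconnected_range hcont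
    have := hpr.subset_connectedComponentIn (F := ({MPt.pole x true, MPt.pole x false} :
      Set (MPt D RG RT))ᶜ) (x := MPt.arc x ξ r) ⟨r, rfl⟩ (by
        rintro z ⟨s, rfl⟩
        exact hsubP s)
    exact this ⟨r', rfl⟩

end Pool.Agent.Helper548.HB
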