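import Pool.Agent.Helper548.HB.Defs

set_option autoImplicit false

/-! Hyperbolic spaces, Gromov boundaries, hierarchically hyperbolic spaces and groups, the
hierarchically hyperbolic boundary and its topology. -/

namespace Pool.Agent.Helper548.HB



theorem sep_of_clopen {X : Type} [TopologicalSpace X] (Y S : Set X) (p q : X) (hS : S ⊆ Y)
    (hp : p ∈ S) (hq : q ∈ Y \ S) (h1 : ∀ a ∈ S, ∃ N ∈ nhds a, N ∩ Y ⊆ S)
    (h2 : ∀ a ∈ Y \ S, ∃ N ∈ nhds a, N ∩ S = ∅) : q ∉ connectedComponentIn Y p := by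
  intro hqC
  have hpY : p ∈ Y := hS hp
  have hC : IsPreconnected (connectedComponentIn Y p) := isPreconnected_connectedComponentIn
  have hCY : connectedComponentIn Y p ⊆ Y := connectedComponentIn_subset Y p
  have hpC : p ∈ connectedComponentIn Y p := mem_connectedComponentIn hpY
  let U : Set X := ⋃₀ {O | IsOpen O ∧ O ∩ Y ⊆ S}
  let V : Set X := ⋃₀ {O | IsOpen O ∧ O ∩ S = ∅}
  have hU : IsOpen U := isOpen_sUnion fun O hO => hO.1
  have hV : IsOpen V := isOpen_sUnion fun O hO => hO.1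
  have hSU : ∀ a ∈ S, a ∈ U := by
    intro a ha
    obtain ⟨N, hN, hNY⟩ := h1 a ha
    obtain ⟨O, hON, hO, haO⟩ := mem_nhds_iff.1 hN
    exact ⟨O, ⟨hO, fun y hy => hNY ⟨hON hy.1, hy.2⟩⟩, haO⟩
  have hSV : ∀ a ∈ Y \ S, a ∈ V := by
    intro a ha
    obtain ⟨N, hN, hNY⟩ := h2 a ha
    obtain ⟨O, hON, hO, haO⟩ := mem_nhds_iff.1 hN
    refine ⟨O, ⟨hO, ?_⟩, haO⟩
    apply Set.eq_empty_of_forall_notMem
    intro y hy
    have : y ∈ N ∩ S := ⟨hON hy.1, hy.2⟩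
    rw [hNY] at this
    exact this
  have hcov : connectedComponentIn Y p ⊆ U ∪ V := by
    intro x hx
    by_cases hxS : x ∈ S
    · exact Or.inl (hSU x hxS)
    · exact Or.inr (hSV x ⟨hCY hx, hxS⟩)
  obtain ⟨x, hxC, hxU, hxV⟩ := hC U V hU hV hcov ⟨p, hpC, hSU p hp⟩ ⟨q, hqC, hSV q hq⟩
  obtain ⟨O, ⟨_, hO⟩, hxO⟩ := hxU
  obtain ⟨O', ⟨_, hO'⟩, hxO'⟩ := hxV
  have hxS : x ∈ S := hO ⟨hxO, hCY hxC⟩
  have : x ∈ O' ∩ S := ⟨hxO', hxS⟩
  rw [hO'] at this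
  exact this

end Pool.Agent.Helper548.HB
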