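import Pool.Agent.Helper548.HB.Defs
import Pool.Agent.Helper548.HB.P_m_basis
import Pool.Agent.Helper548.HB.P_sep_of_clopen

set_option autoImplicit false

/-! Hyperbolic spaces, Gromov boundaries, hierarchically hyperbolic spaces and groups, the
hierarchically hyperbolic boundary and its topology. -/

namespace Pool.Agent.Helper548.HB



theorem g_gen_sep (t : ℝ) (D : GData) (RG : Realz D.Γ D.G) (RT : Realz TG H) (x : D.Q)
    (ξ : Boundary RT.X) (r : ℝ) :
    @Sep _ (mTop t D RG RT) {q | ∃ r', q = MPt.arc x ξ r'}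
      (MPt.pole x true : MPt D RG RT) (MPt.pole x false) {MPt.arc x ξ r} := by
  letI := mTop t D RG RT
  have hY : ∀ q : MPt D RG RT, q ∈ (({q | ∃ r', q = MPt.arc x ξ r'} : Set (MPt D RG RT)) ∪
      {MPt.pole x true, MPt.pole x false}) \ {MPt.arc x ξ r} →
      (∃ r', r' ≠ r ∧ q = MPt.arc x ξ r') ∨ q = MPt.pole x true ∨ q = MPt.pole x false := by
    rintro q ⟨h | h, h2⟩
    · obtain ⟨r', rfl⟩ := h
      refine Or.inl ⟨r', ?_, rfl⟩
      rintro rfl
      exact h2 rfl
    · exact Or.inr h
  have haway : ∀ (q : MPt D RG RT) (v : V), q ∈ (({q | ∃ r', q = MPt.arc x ξ r'} :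
      Set (MPt D RG RT)) ∪ {MPt.pole x true, MPt.pole x false}) \ {MPt.arc x ξ r} →
      ¬ q.away x v := by
    intro q v hq h
    rcases hY q hq with ⟨r', _, rfl⟩ | rfl | rfl
    · exact h.1 rfl
    · exact h.1 rfl
    · exact h.1 rfl
  have hSY : ({q | q = MPt.pole x true ∨ ∃ r', r < r' ∧ q = MPt.arc x ξ r'} :
      Set (MPt D RG RT)) ⊆ (({q | ∃ r', q = MPt.arc x ξ r'} : Set (MPt D RG RT)) ∪
      {MPt.pole x true, MPt.pole x false}) \ {MPt.arc x ξ r} := by
    rintro q (rfl | ⟨r', h, rfl⟩)
    · refine ⟨Or.inr (Or.inl rfl), ?_⟩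
      intro h
      cases (Set.mem_singleton_iff.1 h)
    · refine ⟨Or.inl ⟨r', rfl⟩, ?_⟩
      intro h'
      injection h' with _ _ h3
      exact h.ne' h3
  refine sep_of_clopen _ {q | q = MPt.pole x true ∨ ∃ r', r < r' ∧ q = MPt.arc x ξ r'} _ _
    hSY (Or.inl rfl) ⟨⟨Or.inr (Or.inr rfl), ?_⟩, ?_⟩ ?_ ?_
  · intro h
    cases (Set.mem_singleton_iff.1 h)
  · rintro (h | ⟨r', _, h⟩)
    · injection h with _ h3
      exact Bool.noConfusion h3
    · cases h
  · rintro a (rfl | ⟨r0, h0, rfl⟩)
    · refine ⟨mnhd t (MPt.pole x true) r 1, (m_basis t _).mem_of_mem (i := (r, 1)) one_pos, ?_⟩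
      rintro q ⟨(h | ⟨ξ', r', h, h'⟩ | ⟨v, h, _⟩), hq⟩
      · exact Or.inl h
      · rcases hY q hq with ⟨r'', _, h2⟩ | h2 | h2
        · right
          refine ⟨r'', ?_, h2⟩
          rw [h2] at h
          injection h with _ _ h3
          subst h3
          simpa [sgb] using h'
        · exact Or.inl h2
        · rw [h] at h2
          cases h2
      · exact (haway q v hq h).elim
    · refine ⟨mnhd t (MPt.arc x ξ r0) 0 (r0 - r),
        (m_basis t _).mem_of_mem (i := (0, r0 - r)) (sub_pos.2 h0), ?_⟩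
      rintro q ⟨(⟨ξ', r', h, _, h'⟩ | ⟨v, h, _⟩), hq⟩
      · rcases hY q hq with ⟨r'', _, h2⟩ | h2 | h2
        · right
          refine ⟨r'', ?_, h2⟩
          rw [h2] at h
          injection h with _ _ h3
          subst h3
          have := (abs_lt.1 h').1
          linarith
        · exact Or.inl h2
        · rw [h] at h2
          cases h2
      · exact (haway q v hq h).elim
  · rintro a ⟨ha, haS⟩
    rcases hY a ha with ⟨r0, hr0, rfl⟩ | rfl | rfl
    · have hlt : r0 < r := by
        rcases lt_or_gt_of_ne hr0 with h | h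
        · exact h
        · exact (haS (Or.inr ⟨r0, h, rfl⟩)).elim
      refine ⟨mnhd t (MPt.arc x ξ r0) 0 (r - r0),
        (m_basis t _).mem_of_mem (i := (0, r - r0)) (sub_pos.2 hlt), ?_⟩
      rw [Set.eq_empty_iff_forall_notMem]
      rintro q ⟨hq1, hq2⟩
      rcases hq1 with ⟨ξ', r', h, _, h'⟩ | ⟨v, h, _⟩
      · rcases hq2 with h2 | ⟨r'', h3, h2⟩
        · rw [h] at h2
          cases h2
        · rw [h2] at h
          injection h with _ _ h4
          subst h4
          have := (abs_lt.1 h').2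
          linarith
      · exact haway q v (hSY hq2) h
    · exact (haS (Or.inl rfl)).elim
    · refine ⟨mnhd t (MPt.pole x false) (-r) 1,
        (m_basis t _).mem_of_mem (i := (-r, 1)) one_pos, ?_⟩
      rw [Set.eq_empty_iff_forall_notMem]
      rintro q ⟨hq1, hq2⟩
      rcases hq1 with h | ⟨ξ', r', h, h'⟩ | ⟨v, h, _⟩
      · rcases hq2 with h2 | ⟨r'', h3, h2⟩
        · rw [h] at h2
          injection h2 with _ h5
          exact Bool.noConfusion h5
        · rw [h] at h2
          cases h2
      · rcases hq2 with h2 | ⟨r'', h3, h2⟩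
        · rw [h] at h2
          cases h2
        · rw [h2] at h
          injection h with _ _ h4
          subst h4
          simp only [sgb, Bool.false_eq_true, if_false] at h'
          linarith
      · exact haway q v (hSY hq2) h

end Pool.Agent.Helper548.HB
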