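import Pool.Agent.Helper548.HB.Defs
import Pool.Agent.Helper548.HB.P_adj_mk
import Pool.Agent.Helper548.HB.P_e_norm
import Pool.Agent.Helper548.HB.P_psi_line
import Pool.Agent.Helper548.HB.P_m_basis

set_option autoImplicit false

/-! Hyperbolic spaces, Gromov boundaries, hierarchically hyperbolic spaces and groups, the
hierarchically hyperbolic boundary and its topology. -/

namespace Pool.Agent.Helper548.HB



theorem g_B_cl (t : ℝ) (D : GData) (RG : Realz D.Γ D.G) (RT : Realz TG H) (x : D.Q) (v : V)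
    (b : Bool) (ξ : Boundary RT.X) (h : IsCEnd RT v.1 b ξ) :
    (MPt.arc x ξ (sgb b * t) : MPt D RG RT) ∈ @closure _ (mTop t D RG RT) (BB x v) := by
  letI := mTop t D RG RT
  rw [mem_closure_iff_nhds_basis (m_basis t (MPt.arc x ξ (sgb b * t) : MPt D RG RT))]
  rintro ⟨R, ε⟩ hε
  replace hε : 0 < ε := hε
  obtain ⟨N, hN⟩ := h R
  obtain ⟨C, hC⟩ := e_norm v.1
  have hC0 : 0 ≤ C := (abs_nonneg _).trans (hC 0)
  obtain ⟨n1, hn1⟩ := exists_nat_gt (C + (|lam t v| + |t| * C + 1)/ε)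
  obtain ⟨n, hn⟩ : ∃ n, n = max N n1 := ⟨_, rfl⟩
  have hnN : N ≤ n := by rw [hn]; exact le_max_left _ _
  have hnn : n1 ≤ n := by rw [hn]; exact le_max_right _ _
  have hnr : C + (|lam t v| + |t| * C + 1)/ε < n := by
    have : (n1 : ℝ) ≤ n := by exact_mod_cast hnn
    linarith
  obtain ⟨j, hj0⟩ : ∃ j : ℤ, j = if b then (n:ℤ) else -(n:ℤ) := ⟨_, rfl⟩
  have hj : (j : ℝ) = sgb b * n := by
    rw [hj0]; cases b <;> simp [sgb]
  have hja : |(j:ℝ)| = n := by
    rw [hj]; cases b <;> simp [sgb]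
  have hsq : sgb b = 1 ∨ sgb b = -1 := by cases b <;> simp [sgb]
  have hadj := adj_mk D x (v * gc ^ j)
  have haway : (MPt.pole ((x.out * D.ι (v * gc ^ j) * D.s : D.G) : D.Q) true :
      MPt D RG RT).away x (v * gc ^ j) := ⟨(D.Γ.ne_of_adj hadj.1).symm, hadj.2⟩
  refine ⟨MPt.pole ((x.out * D.ι (v * gc ^ j) * D.s : D.G) : D.Q) true, ⟨j, haway⟩, ?_⟩
  right
  have hfst : (v * gc ^ j).1 = v.1 * FreeGroup.of true ^ j := by
    simp [gc]
  refine ⟨v * gc ^ j, haway, ?_, ?_⟩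
  · rw [hfst, hj0]
    exact hN n hnN
  · rw [hfst, psi_line]
    have h1 := hC j
    rw [hja] at h1
    obtain ⟨M, hM⟩ : ∃ M : ℝ, M = (FreeGroup.norm (v.1 * FreeGroup.of true ^ j) : ℝ) := ⟨_, rfl⟩
    rw [← hM] at h1 ⊢
    have h1' := abs_le.1 h1
    have hq : 0 < (|lam t v| + |t| * C + 1)/ε := by positivity
    have hMn : (|lam t v| + |t| * C + 1)/ε < M := by linarith
    have hM0 : 0 < M := hq.trans hMn
    have e : (lam t v + t * (j:ℝ)) / M - sgb b * t = (lam t v + t * (sgb b * (n - M))) / M := by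
      rw [hj]; field_simp; ring
    rw [e, abs_div, abs_of_pos hM0, div_lt_iff₀ hM0]
    have h2 : |lam t v + t * (sgb b * (n - M))| ≤ |lam t v| + |t| * C := by
      refine (abs_add_le _ _).trans ?_
      have h3 : |t * (sgb b * (n - M))| = |t| * |(n:ℝ) - M| := by
        rw [abs_mul, abs_mul]
        rcases hsq with h | h <;> rw [h] <;> simp
      rw [h3]
      have h4 : |(n:ℝ) - M| ≤ C := by
        rw [abs_sub_comm]; exact h1
      have := mul_le_mul_of_nonneg_left h4 (abs_nonneg t)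
      linarith
    rw [div_lt_iff₀ hε] at hMn
    linarith

end Pool.Agent.Helper548.HB
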