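import Pool.Agent.Helper548.HB.Defs
import Pool.Agent.Helper548.HB.P_pb_vert
import Pool.Agent.Helper548.HB.P_m_cases
import Pool.Agent.Helper548.HB.P_m_basis
import Pool.Agent.Helper548.HB.P_beyond_walk
import Pool.Agent.Helper548.HB.P_b_edge
import Pool.Agent.Helper548.HB.P_g_sigma

set_option autoImplicit false

/-! Hyperbolic spaces, Gromov boundaries, hierarchically hyperbolic spaces and groups, the
hierarchically hyperbolic boundary and its topology. -/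

namespace Pool.Agent.Helper548.HB



theorem gbc_pole_at {D : GData} {RG : Realz D.Γ D.G} {RT : Realz TG H} (y : D.Q) :
    (MPt.pole y true : MPt D RG RT).atv y := rfl

theorem gbc_at_away {D : GData} {RG : Realz D.Γ D.G} {RT : Realz TG H} (x y : D.Q) (v : V)
    (q : MPt D RG RT) (hq : q.atv y) (hy : y ≠ x) (hj : ∃ j : ℤ, D.cq x y = v * gc ^ j) :
    q ∈ (BB x v : Set (MPt D RG RT)) := by
  obtain ⟨j, hj⟩ := hj
  cases q with
  | lim ω => exact hq.elim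
  | arc z ξ r =>
    have hz : z = y := hq
    subst hz
    exact ⟨j, hy, hj⟩
  | pole z b =>
    have hz : z = y := hq
    subst hz
    exact ⟨j, hy, hj⟩

/-- a vertex beyond, close to a point of `BB` -/
theorem gbc_vertex (t : ℝ) {D : GData} {RG : Realz D.Γ D.G} {RT : Realz TG H} (x : D.Q) (v : V)
    (q : MPt D RG RT) (hq : q ∈ (BB x v : Set (MPt D RG RT))) (W : Set (MPt D RG RT))
    (hW : @IsOpen _ (mTop t D RG RT) W) (hqW : q ∈ W) :
    ∃ y : D.Q, y ≠ x ∧ (∃ j : ℤ, D.cq x y = v * gc ^ j) ∧ ∃ q' : MPt D RG RT, q'.atv y ∧ q' ∈ W := by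
  obtain ⟨j, hj⟩ := hq
  cases q with
  | lim ω =>
    obtain ⟨R0, h0⟩ := hj
    obtain ⟨R, ε, hε, h⟩ := hW _ hqW
    obtain ⟨y, hy⟩ := pb_vert RG (RG.ι ((1 : D.G) : D.Q)) ω (max R R0)
    obtain ⟨h1, h2⟩ := h0 y (PB.mono hy (le_max_right _ _))
    refine ⟨y, h1, ⟨j, h2⟩, MPt.pole y true, rfl, h ?_⟩
    exact PB.mono hy (le_max_left _ _)
  | arc z ξ r =>
    exact ⟨z, hj.1, ⟨j, hj.2⟩, MPt.arc z ξ r, (rfl : z = z), hqW⟩
  | pole z b =>
    exact ⟨z, hj.1, ⟨j, hj.2⟩, MPt.pole z b, (rfl : z = z), hqW⟩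

theorem gbc_walk (t : ℝ) (D : GData) (RG : Realz D.Γ D.G) (RT : Realz TG H) (x : D.Q) (v : V)
    (U W : Set (MPt D RG RT)) (hU : @IsOpen _ (mTop t D RG RT) U)
    (hW : @IsOpen _ (mTop t D RG RT) W) (hcov : BB x v ⊆ U ∪ W)
    (hdis : ∀ q ∈ BB (RG := RG) (RT := RT) x v, q ∈ U → q ∈ W → False)
    (hside : ∀ y : D.Q, y ≠ x → (∃ j : ℤ, D.cq x y = v * gc ^ j) →
      {q : MPt D RG RT | q.atv y} ⊆ U ∨ {q : MPt D RG RT | q.atv y} ⊆ W)
    (y y' : D.Q) (w : D.Γ.Walk y y')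
    (hw : ∀ z ∈ w.support, z ≠ x ∧ ∃ j : ℤ, D.cq x z = v * gc ^ j)
    (h1 : {q : MPt D RG RT | q.atv y} ⊆ U) : {q : MPt D RG RT | q.atv y'} ⊆ U := by
  induction w with
  | nil => exact h1
  | @cons a b c hadj p ih =>
    have ha := hw a (by simp)
    have hb := hw b (by simp)
    refine ih (fun z hz => hw z (by simp [hz])) ?_
    exact b_edge t D RG RT x v U W hU hW hcov hdis hside a b hadj ha.1 hb.1 ha.2 hb.2 h1

theorem gbc_core (t : ℝ) (D : GData) (RG : Realz D.Γ D.G) (RT : Realz TG H) (x : D.Q) (v : V)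
    (U W : Set (MPt D RG RT)) (hU : @IsOpen _ (mTop t D RG RT) U)
    (hW : @IsOpen _ (mTop t D RG RT) W) (hcov : BB x v ⊆ U ∪ W)
    (hdis : ∀ q ∈ BB (RG := RG) (RT := RT) x v, q ∈ U → q ∈ W → False)
    (hside : ∀ y : D.Q, y ≠ x → (∃ j : ℤ, D.cq x y = v * gc ^ j) →
      {q : MPt D RG RT | q.atv y} ⊆ U ∨ {q : MPt D RG RT | q.atv y} ⊆ W)
    (y0 : D.Q) (hy0 : y0 ≠ x) (hj0 : ∃ j : ℤ, D.cq x y0 = v * gc ^ j)
    (h1 : {q : MPt D RG RT | q.atv y0} ⊆ U) (q : MPt D RG RT) (hq : q ∈ (BB x v : Set (MPt D RG RT)))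
    (hqW : q ∈ W) : False := by
  obtain ⟨y, hy, hj, q', hq', hq'W⟩ := gbc_vertex t x v q hq W hW hqW
  obtain ⟨w, hw⟩ := beyond_walk D x v y0 y hy0 hy hj0 hj
  have h2 := gbc_walk t D RG RT x v U W hU hW hcov hdis hside y0 y w hw h1
  exact hdis q' (gbc_at_away x y v q' hq' hy hj) (h2 hq') hq'W

theorem g_B_conn (t : ℝ) (D : GData) (RG : Realz D.Γ D.G) (RT : Realz TG H) (x : D.Q) (v : V) :
    @IsPreconnected _ (mTop t D RG RT) (BB x v : Set (MPt D RG RT)) := by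
  intro U W hU hW hcov hBU hBW
  by_contra hcon
  have hdis : ∀ q ∈ BB (RG := RG) (RT := RT) x v, q ∈ U → q ∈ W → False :=
    fun q hq h1 h2 => hcon ⟨q, hq, h1, h2⟩
  have hside : ∀ y : D.Q, y ≠ x → (∃ j : ℤ, D.cq x y = v * gc ^ j) →
      {q : MPt D RG RT | q.atv y} ⊆ U ∨ {q : MPt D RG RT | q.atv y} ⊆ W := by
    intro y hy hj
    have hsub : {q : MPt D RG RT | q.atv y} ⊆ BB x v := fun q hq => gbc_at_away x y v q hq hy hj
    by_cases h1 : ({q : MPt D RG RT | q.atv y} ∩ U).Nonempty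
    · by_cases h2 : ({q : MPt D RG RT | q.atv y} ∩ W).Nonempty
      · exfalso
        obtain ⟨q, hq, hqU, hqW⟩ := g_sigma t D RG RT y U W hU hW (hsub.trans hcov) h1 h2
        exact hdis q (hsub hq) hqU hqW
      · left
        intro q hq
        rcases hcov (hsub hq) with h | h
        · exact h
        · exact absurd ⟨q, hq, h⟩ h2
    · right
      intro q hq
      rcases hcov (hsub hq) with h | h
      · exact absurd ⟨q, hq, h⟩ h1
      · exact h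
  obtain ⟨q1, hq1, hq1U⟩ := hBU
  obtain ⟨q2, hq2, hq2W⟩ := hBW
  obtain ⟨y, hy, hj, q', hq', hq'U⟩ := gbc_vertex t x v q1 hq1 U hU hq1U
  rcases hside y hy hj with h | h
  · exact gbc_core t D RG RT x v U W hU hW hcov hdis hside y hy hj h q2 hq2 hq2W
  · exact hdis q' (gbc_at_away x y v q' hq' hy hj) hq'U (h hq')

end Pool.Agent.Helper548.HB
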