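import Pool.Agent.Helper548.HB.Defs
import Pool.Agent.Helper548.HB.P_e_side
import Pool.Agent.Helper548.HB.P_e_cend_ex
import Pool.Agent.Helper548.HB.P_e_cend_uniq
import Pool.Agent.Helper548.HB.P_e_HS_c
import Pool.Agent.Helper548.HB.P_e_line_h
import Pool.Agent.Helper548.HB.P_e_line_xi
import Pool.Agent.Helper548.HB.P_e_cend_out
import Pool.Agent.Helper548.HB.P_e_excl
import Pool.Agent.Helper548.HB.P_away_uniq
import Pool.Agent.Helper548.HB.P_m_cases
import Pool.Agent.Helper548.HB.P_m_excl
import Pool.Agent.Helper548.HB.P_g_arc_cont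
import Pool.Agent.Helper548.HB.P_g_B_conn
import Pool.Agent.Helper548.HB.P_g_B_cl
import Pool.Agent.Helper548.HB.P_g_DA_open

set_option autoImplicit false

/-! Hyperbolic spaces, Gromov boundaries, hierarchically hyperbolic spaces and groups, the
hierarchically hyperbolic boundary and its topology. -/

namespace Pool.Agent.Helper548.HB



theorem gl_gc (j : ℤ) : gc ^ j = ((FreeGroup.of true : H) ^ j, (1 : Multiplicative ℤ)) := by
  unfold gc
  ext <;> simp

theorem gl_side {D : GData} {RG : Realz D.Γ D.G} {RT : Realz TG H} (x : D.Q) (k : H) (b : Bool)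
    (q : MPt D RG RT) (hq : q ∉ ({MPt.pole x true, MPt.pole x false} : Set (MPt D RG RT))) :
    q ∈ (DA x (HS k b) : Set (MPt D RG RT)) ∨ q ∈ (DA x (HS k b)ᶜ : Set (MPt D RG RT)) := by
  rcases m_cases q x with h | ⟨v, hv⟩
  · cases q with
    | lim ω => exact h.elim
    | arc y ξ r =>
      have hy : y = x := h
      subst hy
      rcases e_side RT ξ k b with h1 | h1
      · exact Or.inl (Or.inl ⟨ξ, r, rfl, h1⟩)
      · exact Or.inr (Or.inl ⟨ξ, r, rfl, h1⟩)
    | pole y b' =>
      have hy : y = x := h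
      subst hy
      exfalso
      apply hq
      cases b'
      · right; rfl
      · left; rfl
  · by_cases h : v.1 ∈ HS k b
    · exact Or.inl (Or.inr ⟨v, hv, h⟩)
    · exact Or.inr (Or.inr ⟨v, hv, h⟩)

theorem gl_disj {D : GData} {RG : Realz D.Γ D.G} {RT : Realz TG H} (x : D.Q) (A : Set H)
    (q : MPt D RG RT) (h1 : q ∈ (DA x A : Set (MPt D RG RT)))
    (h2 : q ∈ (DA x Aᶜ : Set (MPt D RG RT))) : False := by
  rcases h1 with ⟨ξ, r, hq, h1⟩ | ⟨v, hv, h1⟩
  · rcases h2 with ⟨ξ', r', hq', h2⟩ | ⟨v', hv', h2⟩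
    · rw [hq] at hq'
      injection hq' with _ e _
      subst e
      exact e_excl RT ξ A h1 h2
    · exact m_excl q x v' (by rw [hq]; exact rfl) hv'
  · rcases h2 with ⟨ξ', r', hq', h2⟩ | ⟨v', hv', h2⟩
    · exact m_excl q x v (by rw [hq']; exact rfl) hv
    · rw [away_uniq q x v v' hv hv'] at h1
      exact h2 h1

theorem gl_comp (t : ℝ) (D : GData) (RG : Realz D.Γ D.G) (RT : Realz TG H) (x : D.Q) (k : H)
    (b : Bool) (a : MPt D RG RT) (ha : a ∈ (DA x (HS k b)ᶜ : Set (MPt D RG RT))) :
    @connectedComponentIn _ (mTop t D RG RT)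
      ({MPt.pole x true, MPt.pole x false} : Set (MPt D RG RT))ᶜ a ⊆ DA x (HS k b)ᶜ := by
  let _ := mTop t D RG RT
  by_cases hY : a ∈ ({MPt.pole x true, MPt.pole x false} : Set (MPt D RG RT))ᶜ
  · refine IsPreconnected.subset_left_of_subset_union (v := DA x (HS k b)) ?_ ?_ ?_ ?_ ?_
      isPreconnected_connectedComponentIn
    · exact g_DA_open t D RG RT x _ fun h j => by
        rw [Set.mem_compl_iff, Set.mem_compl_iff, e_HS_c]
    · exact g_DA_open t D RG RT x _ fun h j => e_HS_c k h b j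
    · rw [Set.disjoint_left]
      intro q h1 h2
      exact gl_disj x _ q h2 h1
    · intro q hq
      rcases gl_side x k b q (connectedComponentIn_subset _ _ hq) with h | h
      · exact Or.inr h
      · exact Or.inl h
    · exact ⟨a, mem_connectedComponentIn hY, ha⟩
  · rw [connectedComponentIn_eq_empty hY]
    exact Set.empty_subset _

theorem g_line (t : ℝ) (D : GData) (RG : Realz D.Γ D.G) (RT : Realz TG H) (x : D.Q) (h : H)
    (a : MPt D RG RT) (ha : (∃ ξ r b, a = .arc x ξ r ∧ IsCEnd RT h b ξ) ∨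
      ∃ v, a.away x v ∧ ∃ j : ℤ, v.1 = h * FreeGroup.of true ^ j) :
    @connectedComponentIn _ (mTop t D RG RT)
      ({MPt.pole x true, MPt.pole x false} : Set (MPt D RG RT))ᶜ a =
      {q | (∃ ξ r b, q = .arc x ξ r ∧ IsCEnd RT h b ξ) ∨
      ∃ v, q.away x v ∧ ∃ j : ℤ, v.1 = h * FreeGroup.of true ^ j} := by
  let _ := mTop t D RG RT
  have haDA : ∀ (k : H) (b : Bool), (∀ j : ℤ, h * FreeGroup.of true ^ j ∉ HS k b) →
      a ∈ (DA x (HS k b)ᶜ : Set (MPt D RG RT)) := by
    intro k b hk
    rcases ha with ⟨ξ, r, b', rfl, hc⟩ | ⟨v, hv, j, hj⟩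
    · left
      refine ⟨ξ, r, rfl, ?_⟩
      have := hk 0
      rw [zpow_zero, mul_one] at this
      exact e_cend_out RT h b' ξ hc k b this
    · right
      refine ⟨v, hv, ?_⟩
      rw [Set.mem_compl_iff, hj]
      exact hk j
  apply Set.Subset.antisymm
  · intro q hq
    have hqY := connectedComponentIn_subset _ _ hq
    rcases m_cases q x with hqx | ⟨v, hv⟩
    · cases q with
      | lim ω => exact hqx.elim
      | arc y ξ r =>
        have hy : y = x := hqx
        subst hy
        left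
        by_contra hcon
        have h1 : ∀ b, ¬ IsCEnd RT h b ξ := fun b hb => hcon ⟨ξ, r, b, rfl, hb⟩
        obtain ⟨k, b, h2, h3⟩ := e_line_xi RT h ξ (h1 true) (h1 false)
        have := gl_comp t D RG RT y k b a (haDA k b h3) hq
        exact gl_disj y (HS k b) _ (Or.inl ⟨ξ, r, rfl, h2⟩) this
      | pole y b' =>
        have hy : y = x := hqx
        subst hy
        exfalso
        apply hqY
        cases b'
        · right; rfl
        · left; rfl
    · right
      refine ⟨v, hv, ?_⟩
      by_contra hcon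
      push Not at hcon
      obtain ⟨k, b, h2, h3⟩ := e_line_h h v.1 hcon
      have := gl_comp t D RG RT x k b a (haDA k b h3) hq
      exact gl_disj x (HS k b) _ (Or.inr ⟨v, hv, h2⟩) this
  · obtain ⟨ξ, hξ⟩ := e_cend_ex RT h true
    obtain ⟨ξ', hξ'⟩ := e_cend_ex RT h false
    have hl : ∀ ζ : Boundary RT.X, IsPreconnected (Set.range fun r => (MPt.arc x ζ r : MPt D RG RT)) :=
      fun ζ => isPreconnected_range (g_arc_cont t D RG RT x ζ)
    let P : Multiplicative ℤ → Set (MPt D RG RT) := fun n =>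
      (Set.range fun r => (MPt.arc x ξ r : MPt D RG RT)) ∪
        (BB x (h, n) ∪ {MPt.arc x ξ t, MPt.arc x ξ' (-t)}) ∪
        (Set.range fun r => (MPt.arc x ξ' r : MPt D RG RT))
    have hP : ∀ n, IsPreconnected (P n) := by
      intro n
      have hB : IsPreconnected (BB x (h, n) ∪ {MPt.arc x ξ t, MPt.arc x ξ' (-t)} :
          Set (MPt D RG RT)) := by
        apply IsPreconnected.subset_closure (g_B_conn t D RG RT x (h, n)) Set.subset_union_left
        apply Set.union_subset subset_closure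
        have e1 := g_B_cl t D RG RT x (h, n) true ξ hξ
        have e2 := g_B_cl t D RG RT x (h, n) false ξ' hξ'
        simp only [sgb, if_true, one_mul, Bool.false_eq_true, if_false, neg_mul] at e1 e2
        rintro z (hz | hz)
        · rw [hz]; exact e1
        · rw [hz]; exact e2
      refine IsPreconnected.union (MPt.arc x ξ' (-t)) ?_ ⟨-t, rfl⟩ (IsPreconnected.union (MPt.arc x ξ t) ⟨t, rfl⟩ ?_ (hl ξ) hB) (hl ξ')
      · right; right; right; rfl
      · right; left; rfl
    have hU : IsPreconnected (⋃ n, P n) := by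
      apply isPreconnected_iUnion ⟨MPt.arc x ξ 0, ?_⟩ hP
      rw [Set.mem_iInter]
      intro n
      left; left; exact ⟨0, rfl⟩
    have hPY : ⋃ n, P n ⊆ ({MPt.pole x true, MPt.pole x false} : Set (MPt D RG RT))ᶜ := by
      rintro z hz hz'
      obtain ⟨n, hn⟩ := Set.mem_iUnion.1 hz
      have hp : ∃ b, z = MPt.pole x b := by
        rcases hz' with h | h
        · exact ⟨_, h⟩
        · exact ⟨_, h⟩
      obtain ⟨b, rfl⟩ := hp
      rcases hn with (⟨r, hr⟩ | ⟨j, hj⟩ | hn | hn) | ⟨r, hr⟩
      · cases hr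
      · exact m_excl (MPt.pole x b) x _ rfl hj
      · cases hn
      · cases hn
      · cases hr
    have hsub : {q : MPt D RG RT | (∃ ξ r b, q = .arc x ξ r ∧ IsCEnd RT h b ξ) ∨
      ∃ v, q.away x v ∧ ∃ j : ℤ, v.1 = h * FreeGroup.of true ^ j} ⊆ ⋃ n, P n := by
      rintro q (⟨ζ, r, b, rfl, hb⟩ | ⟨v, hv, j, hj⟩)
      · rw [Set.mem_iUnion]
        cases b
        · have := e_cend_uniq RT h false ζ ξ' hb hξ'
          subst this
          exact ⟨1, Or.inr ⟨r, rfl⟩⟩
        · have := e_cend_uniq RT h true ζ ξ hb hξ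
          subst this
          exact ⟨1, Or.inl (Or.inl ⟨r, rfl⟩)⟩
      · rw [Set.mem_iUnion]
        refine ⟨v.2, Or.inl (Or.inr (Or.inl ⟨j, ?_⟩))⟩
        have : ((h, v.2) : V) * gc ^ j = v := by
          rw [gl_gc]
          ext
          · exact hj.symm
          · simp
        rw [this]
        exact hv
    exact hsub.trans (hU.subset_connectedComponentIn (hsub ha) hPY)

end Pool.Agent.Helper548.HB
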