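import Pool.Agent.Helper548.HB.Defs
import Pool.Agent.Helper548.HB.P_adj_mk
import Pool.Agent.Helper548.HB.P_m_basis

set_option autoImplicit false

/-! Hyperbolic spaces, Gromov boundaries, hierarchically hyperbolic spaces and groups, the
hierarchically hyperbolic boundary and its topology. -/

namespace Pool.Agent.Helper548.HB



theorem g_B_pole_lam (t : ℝ) (v : V) (k : ℤ) : lam t (v * gz ^ k) = lam t v + k := by
  have h1 : (v * gz ^ k).2 = v.2 * Multiplicative.ofAdd k := by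
    rw [Prod.snd_mul]
    congr 1
    have : (gz ^ k).2 = gz.2 ^ k := map_zpow (MonoidHom.snd H (Multiplicative ℤ)) gz k
    rw [this]
    show (Multiplicative.ofAdd (1 : ℤ)) ^ k = _
    rw [← ofAdd_zsmul]
    simp
  have h2 : (v * gz ^ k).1 = v.1 := by
    rw [Prod.fst_mul]
    have : (gz ^ k).1 = gz.1 ^ k := map_zpow (MonoidHom.fst H (Multiplicative ℤ)) gz k
    rw [this]
    show v.1 * (1 : H) ^ k = v.1
    rw [one_zpow, mul_one]
  unfold lam
  rw [h1, h2, toAdd_mul, toAdd_ofAdd]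
  push_cast
  ring

theorem g_B_pole_fst (v : V) (k : ℤ) : (v * gz ^ k).1 = v.1 := by
  rw [Prod.fst_mul]
  have : (gz ^ k).1 = gz.1 ^ k := map_zpow (MonoidHom.fst H (Multiplicative ℤ)) gz k
  rw [this]
  show v.1 * (1 : H) ^ k = v.1
  rw [one_zpow, mul_one]

theorem g_B_pole_aux (t : ℝ) (D : GData) (RG : Realz D.Γ D.G) (RT : Realz TG H) (x : D.Q) (v : V)
    (b : Bool) (k : ℤ) (R ε : ℝ) (h1 : R < sgb b * (lam t v + k))
    (h2 : (FreeGroup.norm v.1 : ℝ) < ε * |lam t v + k|) :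
    ∃ q : MPt D RG RT, q ∈ BB x (v * gz ^ k) ∧ q ∈ mnhd t (MPt.pole x b : MPt D RG RT) R ε := by
  obtain ⟨ha, hc⟩ := adj_mk D x (v * gz ^ k)
  have hne : ((x.out * D.ι (v * gz ^ k) * D.s : D.G) : D.Q) ≠ x := fun h => ha.ne h.symm
  refine ⟨MPt.pole ((x.out * D.ι (v * gz ^ k) * D.s : D.G) : D.Q) true, ⟨0, ?_⟩, ?_⟩
  · rw [zpow_zero, mul_one]
    exact ⟨hne, hc⟩
  · refine Or.inr (Or.inr ⟨v * gz ^ k, ⟨hne, hc⟩, ?_, ?_⟩)
    · rw [g_B_pole_lam]
      exact h1
    · rw [g_B_pole_lam, g_B_pole_fst]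
      exact h2

theorem g_B_pole (t : ℝ) (D : GData) (RG : Realz D.Γ D.G) (RT : Realz TG H) (x : D.Q) (v : V)
    (N : ℕ) : (MPt.pole x true : MPt D RG RT) ∈ @closure _ (mTop t D RG RT)
      (⋃ n ≥ N, BB x (v * gz ^ (n : ℤ))) ∧
    (MPt.pole x false : MPt D RG RT) ∈ @closure _ (mTop t D RG RT)
      (⋃ n ≥ N, BB x (v * gz ^ (-(n : ℤ)))) := by
  letI := mTop t D RG RT
  constructor
  · rw [mem_closure_iff_nhds_basis (m_basis t (MPt.pole x true : MPt D RG RT))]
    rintro ⟨R, ε⟩ hε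
    replace hε : 0 < ε := hε
    obtain ⟨n, hn⟩ := exists_nat_gt (max (N : ℝ) (max (R + |lam t v|)
      ((FreeGroup.norm v.1 : ℝ) / ε + |lam t v|)))
    have hn1 : (N : ℝ) < n := (le_max_left _ _).trans_lt hn
    have hn2 : R + |lam t v| < n := ((le_max_left _ _).trans (le_max_right _ _)).trans_lt hn
    have hn3 : (FreeGroup.norm v.1 : ℝ) / ε + |lam t v| < n :=
      ((le_max_right _ _).trans (le_max_right _ _)).trans_lt hn
    have hl := neg_abs_le (lam t v)
    obtain ⟨q, hq1, hq2⟩ := g_B_pole_aux t D RG RT x v true n R ε (by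
      simp only [sgb, if_true, one_mul]
      push_cast
      linarith) (by
      have h3 : (FreeGroup.norm v.1 : ℝ) / ε < |lam t v + ((n : ℤ) : ℝ)| := by
        refine lt_of_lt_of_le ?_ (le_abs_self _)
        push_cast
        linarith
      rw [div_lt_iff₀ hε] at h3
      linarith)
    refine ⟨q, ?_, hq2⟩
    simp only [Set.mem_iUnion]
    exact ⟨n, by exact_mod_cast hn1.le, hq1⟩
  · rw [mem_closure_iff_nhds_basis (m_basis t (MPt.pole x false : MPt D RG RT))]
    rintro ⟨R, ε⟩ hε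
    replace hε : 0 < ε := hε
    obtain ⟨n, hn⟩ := exists_nat_gt (max (N : ℝ) (max (R + |lam t v|)
      ((FreeGroup.norm v.1 : ℝ) / ε + |lam t v|)))
    have hn1 : (N : ℝ) < n := (le_max_left _ _).trans_lt hn
    have hn2 : R + |lam t v| < n := ((le_max_left _ _).trans (le_max_right _ _)).trans_lt hn
    have hn3 : (FreeGroup.norm v.1 : ℝ) / ε + |lam t v| < n :=
      ((le_max_right _ _).trans (le_max_right _ _)).trans_lt hn
    have hl := le_abs_self (lam t v)
    obtain ⟨q, hq1, hq2⟩ := g_B_pole_aux t D RG RT x v false (-(n : ℤ)) R ε (by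
      simp only [sgb, Bool.false_eq_true, if_false]
      push_cast
      linarith) (by
      have h3 : (FreeGroup.norm v.1 : ℝ) / ε < |lam t v + ((-(n : ℤ) : ℤ) : ℝ)| := by
        refine lt_of_lt_of_le ?_ (neg_le_abs _)
        push_cast
        linarith
      rw [div_lt_iff₀ hε] at h3
      linarith)
    refine ⟨q, ?_, hq2⟩
    simp only [Set.mem_iUnion]
    exact ⟨n, by exact_mod_cast hn1.le, hq1⟩

end Pool.Agent.Helper548.HB
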