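import Pool.Agent.Helper548.HB.Defs
import Pool.Agent.Helper548.HB.P_away_uniq
import Pool.Agent.Helper548.HB.P_g_B_conn
import Pool.Agent.Helper548.HB.P_g_B_cl
import Pool.Agent.Helper548.HB.P_g_B_pole

set_option autoImplicit false

/-! Hyperbolic spaces, Gromov boundaries, hierarchically hyperbolic spaces and groups, the
hierarchically hyperbolic boundary and its topology. -/

namespace Pool.Agent.Helper548.HB



theorem vz_fst352 (h : H) (n j : ℤ) :
    ((((h, 1) : V) * gz ^ n * gc ^ j) : V).1 = h * FreeGroup.of true ^ j := by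
  have e1 : (gz ^ n : V).1 = 1 := by
    have := map_zpow (MonoidHom.fst H (Multiplicative ℤ)) gz n
    have h2 : (MonoidHom.fst H (Multiplicative ℤ)) gz = 1 := rfl
    rw [h2, one_zpow] at this
    exact this
  have e2 : (gc ^ j : V).1 = FreeGroup.of true ^ j := by
    have := map_zpow (MonoidHom.fst H (Multiplicative ℤ)) gc j
    exact this
  rw [Prod.fst_mul, Prod.fst_mul, e1, e2, mul_one]

theorem vz_snd352 (h : H) (n j : ℤ) :
    ((((h, 1) : V) * gz ^ n * gc ^ j) : V).2 = Multiplicative.ofAdd n := by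
  have e1 : (gz ^ n : V).2 = Multiplicative.ofAdd n := by
    have := map_zpow (MonoidHom.snd H (Multiplicative ℤ)) gz n
    have h2 : (MonoidHom.snd H (Multiplicative ℤ)) gz = Multiplicative.ofAdd 1 := rfl
    rw [h2, ← ofAdd_zsmul] at this
    have h3 : (MonoidHom.snd H (Multiplicative ℤ)) (gz ^ n) = (gz ^ n : V).2 := rfl
    rw [← h3, this]
    simp
  have e2 : (gc ^ j : V).2 = 1 := by
    have := map_zpow (MonoidHom.snd H (Multiplicative ℤ)) gc j
    have h2 : (MonoidHom.snd H (Multiplicative ℤ)) gc = 1 := rfl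
    rw [h2, one_zpow] at this
    exact this
  rw [Prod.snd_mul, Prod.snd_mul, e1, e2, mul_one, one_mul]

theorem nosep352 (t : ℝ) (D : GData) (RG : Realz D.Γ D.G) (RT : Realz TG H) (x : D.Q) (h : H)
    (b : Bool) (ξ : Boundary RT.X) (h1 : IsCEnd RT h b ξ)
    (F : Set (MPt D RG RT)) (hF : F.Finite) (hp : MPt.pole x true ∉ F)
    (hq : MPt.pole x false ∉ F) (hx : MPt.arc x ξ (sgb b * t) ∉ F) :
    ¬ @Sep _ (mTop t D RG RT) {q | (∃ ξ r b, q = .arc x ξ r ∧ IsCEnd RT h b ξ) ∨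
      ∃ v, q.away x v ∧ ∃ j : ℤ, v.1 = h * FreeGroup.of true ^ j}
      (MPt.pole x true : MPt D RG RT) (MPt.pole x false) F := by
  letI : TopologicalSpace (MPt D RG RT) := mTop t D RG RT
  obtain ⟨B, hB⟩ : ∃ B : ℤ → Set (MPt D RG RT), B = fun n => BB x (((h, 1) : V) * gz ^ n) :=
    ⟨_, rfl⟩
  obtain ⟨P, hP⟩ : ∃ P : MPt D RG RT, P = MPt.arc x ξ (sgb b * t) := ⟨_, rfl⟩
  have hBc : ∀ n, IsPreconnected (B n) := by
    intro n; rw [hB]; exact g_B_conn t D RG RT x _
  have hBP : ∀ n, P ∈ closure (B n) := by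
    intro n
    rw [hB, hP]
    refine g_B_cl t D RG RT x (((h, 1) : V) * gz ^ n) b ξ ?_
    have e := vz_fst352 h n 0
    rw [zpow_zero, mul_one, zpow_zero, mul_one] at e
    rw [e]
    exact h1
  -- disjointness
  have hdis : ∀ (f : MPt D RG RT) (n m : ℤ), f ∈ B n → f ∈ B m → n = m := by
    intro f n m hn hm
    rw [hB] at hn hm
    obtain ⟨j, hj⟩ := hn
    obtain ⟨j', hj'⟩ := hm
    have e := away_uniq f x _ _ hj hj'
    have e2 := congrArg Prod.snd e
    rw [vz_snd352, vz_snd352] at e2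
    exact Multiplicative.ofAdd.injective e2
  have hfin : {n : ℤ | ∃ f ∈ F, f ∈ B n}.Finite := by
    have h2 : (⋃ f ∈ F, {n : ℤ | f ∈ B n}).Finite := by
      refine hF.biUnion fun f _ => ?_
      exact Set.Subsingleton.finite fun n hn m hm => hdis f n m hn hm
    refine h2.subset ?_
    rintro n ⟨f, hf, hfn⟩
    exact Set.mem_iUnion₂.2 ⟨f, hf, hfn⟩
  obtain ⟨M, hM⟩ := (hfin.image Int.natAbs).bddAbove
  have hgood : ∀ n : ℤ, M < n.natAbs → ∀ f ∈ B n, f ∉ F := by
    intro n hn f hf hfF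
    have : n.natAbs ≤ M := hM ⟨n, ⟨f, hfF, hf⟩, rfl⟩
    omega
  -- the connected set
  obtain ⟨S, hS⟩ : ∃ S : Set (MPt D RG RT),
      S = ⋃₀ {A | ∃ n : ℤ, M < n.natAbs ∧ A = insert P (B n)} := ⟨_, rfl⟩
  have hSc : IsPreconnected S := by
    rw [hS]
    refine isPreconnected_sUnion P _ ?_ ?_
    · rintro A ⟨n, hn, rfl⟩
      exact Set.mem_insert _ _
    · rintro A ⟨n, hn, rfl⟩
      refine (hBc n).subset_closure (Set.subset_insert _ _) ?_
      exact Set.insert_subset (hBP n) subset_closure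
  have hBS : ∀ n : ℤ, M < n.natAbs → B n ⊆ S := by
    intro n hn f hf
    rw [hS]
    exact ⟨insert P (B n), ⟨n, hn, rfl⟩, Set.mem_insert_of_mem _ hf⟩
  have hpole := g_B_pole t D RG RT x ((h, 1) : V) (M + 1)
  have hp1 : (MPt.pole x true : MPt D RG RT) ∈ closure S := by
    refine closure_mono ?_ hpole.1
    refine Set.iUnion₂_subset fun n hn => ?_
    have := hBS (n : ℤ) (by omega)
    rw [hB] at this
    exact this
  have hp2 : (MPt.pole x false : MPt D RG RT) ∈ closure S := by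
    refine closure_mono ?_ hpole.2
    refine Set.iUnion₂_subset fun n hn => ?_
    have := hBS (-(n : ℤ)) (by omega)
    rw [hB] at this
    exact this
  have hS'c : IsPreconnected (insert (MPt.pole x true) (insert (MPt.pole x false) S)) := by
    refine hSc.subset_closure ?_ ?_
    · exact (Set.subset_insert _ _).trans (Set.subset_insert _ _)
    · exact Set.insert_subset hp1 (Set.insert_subset hp2 subset_closure)
  intro hsep
  apply hsep
  refine hS'c.subset_connectedComponentIn (Set.mem_insert _ _) ?_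
    (Set.mem_insert_of_mem _ (Set.mem_insert _ _))
  refine Set.insert_subset ⟨Or.inr (by simp), hp⟩
    (Set.insert_subset ⟨Or.inr (by simp), hq⟩ ?_)
  rw [hS]
  rintro f ⟨A, ⟨n, hn, rfl⟩, hf⟩
  rcases Set.mem_insert_iff.1 hf with rfl | hf
  · rw [hP]
    exact ⟨Or.inl (Or.inl ⟨ξ, _, b, rfl, h1⟩), hx⟩
  · refine ⟨Or.inl (Or.inr ?_), hgood n hn f hf⟩
    rw [hB] at hf
    obtain ⟨j, hj⟩ := hf
    exact ⟨_, hj, j, vz_fst352 h n j⟩

theorem g_nosep (t : ℝ) (D : GData) (RG : Realz D.Γ D.G) (RT : Realz TG H) (x : D.Q) (h : H)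
    (ξ ξ' : Boundary RT.X) (h1 : IsCEnd RT h true ξ) (h2 : IsCEnd RT h false ξ')
    (F : Set (MPt D RG RT)) (hF : F.Finite) (hp : MPt.pole x true ∉ F)
    (hq : MPt.pole x false ∉ F)
    (hx : MPt.arc x ξ t ∉ F ∨ MPt.arc x ξ' (-t) ∉ F) :
    ¬ @Sep _ (mTop t D RG RT) {q | (∃ ξ r b, q = .arc x ξ r ∧ IsCEnd RT h b ξ) ∨
      ∃ v, q.away x v ∧ ∃ j : ℤ, v.1 = h * FreeGroup.of true ^ j}
      (MPt.pole x true : MPt D RG RT) (MPt.pole x false) F := by
  rcases hx with hx | hx
  · refine nosep352 t D RG RT x h true ξ h1 F hF hp hq ?_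
    have : sgb true * t = t := by simp [sgb]
    rw [this]; exact hx
  · refine nosep352 t D RG RT x h false ξ' h2 F hF hp hq ?_
    have : sgb false * t = -t := by simp [sgb]
    rw [this]; exact hx

end Pool.Agent.Helper548.HB
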