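import Pool.Agent.Helper548.HB.Defs
import Pool.Agent.Helper548.HB.P_e_cend_ex
import Pool.Agent.Helper548.HB.P_e_cend_ne
import Pool.Agent.Helper548.HB.P_m_cases
import Pool.Agent.Helper548.HB.P_m_excl
import Pool.Agent.Helper548.HB.P_g_comp_gen
import Pool.Agent.Helper548.HB.P_g_line
import Pool.Agent.Helper548.HB.P_g_nosep
import Pool.Agent.Helper548.HB.P_g_gen_sep

set_option autoImplicit false

/-! Hyperbolic spaces, Gromov boundaries, hierarchically hyperbolic spaces and groups, the
hierarchically hyperbolic boundary and its topology. -/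

namespace Pool.Agent.Helper548.HB



theorem g_A_sub (t : ℝ) (D : GData) (RG : Realz D.Γ D.G) (RT : Realz TG H) (x : D.Q) :
    @Aset _ (mTop t D RG RT) (MPt.pole x true : MPt D RG RT) (MPt.pole x false) ⊆
      {q | ∃ ξ h b, q = .arc x ξ (sgb b * t) ∧ IsCEnd RT h b ξ} := by
  intro a ha
  obtain ⟨ha1, b', hb', hsep, hno⟩ := ha
  have hsub := @connectedComponentIn_subset _ (mTop t D RG RT)
    ({MPt.pole x true, MPt.pole x false} : Set (MPt D RG RT))ᶜ a
  have hb1 : b' ∈ ({MPt.pole x true, MPt.pole x false} : Set (MPt D RG RT))ᶜ := hsub hb'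
  -- the case of a line
  have hline : ∀ h : H, ((∃ ξ r b, a = .arc x ξ r ∧ IsCEnd RT h b ξ) ∨
      ∃ v, a.away x v ∧ ∃ j : ℤ, v.1 = h * FreeGroup.of true ^ j) →
      a ∈ {q : MPt D RG RT | ∃ ξ h b, q = .arc x ξ (sgb b * t) ∧ IsCEnd RT h b ξ} := by
    intro h hh
    have hcomp := g_line t D RG RT x h a hh
    rw [hcomp] at hsep
    obtain ⟨ξ1, h1⟩ := e_cend_ex RT h true
    obtain ⟨ξ2, h2⟩ := e_cend_ex RT h false
    have hne := e_cend_ne RT h ξ1 ξ2 h1 h2
    have hfin : ({a, b'} : Set (MPt D RG RT)).Finite := Set.toFinite _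
    have hp : MPt.pole x true ∉ ({a, b'} : Set (MPt D RG RT)) := by
      rintro (h0 | h0)
      · exact ha1 (Or.inl h0.symm)
      · exact hb1 (Or.inl (Set.mem_singleton_iff.1 h0).symm)
    have hq : MPt.pole x false ∉ ({a, b'} : Set (MPt D RG RT)) := by
      rintro (h0 | h0)
      · exact ha1 (Or.inr h0.symm)
      · exact hb1 (Or.inr (Set.mem_singleton_iff.1 h0).symm)
    have hboth : MPt.arc x ξ1 t ∈ ({a, b'} : Set (MPt D RG RT)) ∧
        MPt.arc x ξ2 (-t) ∈ ({a, b'} : Set (MPt D RG RT)) := by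
      by_contra hcon
      have hx : MPt.arc x ξ1 t ∉ ({a, b'} : Set (MPt D RG RT)) ∨
          MPt.arc x ξ2 (-t) ∉ ({a, b'} : Set (MPt D RG RT)) := by
        by_contra h3
        push Not at h3
        exact hcon h3
      exact g_nosep t D RG RT x h ξ1 ξ2 h1 h2 _ hfin hp hq hx hsep
    obtain ⟨m1, m2⟩ := hboth
    rcases m1 with m1 | m1
    · refine ⟨ξ1, h, true, ?_, h1⟩
      rw [← m1]
      simp [sgb]
    · rcases m2 with m2 | m2
      · refine ⟨ξ2, h, false, ?_, h2⟩
        rw [← m2]
        simp [sgb]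
      · exfalso
        have m3 : (MPt.arc x ξ1 t : MPt D RG RT) = MPt.arc x ξ2 (-t) :=
          (Set.mem_singleton_iff.1 m1).trans (Set.mem_singleton_iff.1 m2).symm
        apply hne
        injection m3
  rcases m_cases a x with hat | ⟨v, hv⟩
  · cases a with
    | lim ω => exact hat.elim
    | pole z b =>
      have hz : z = x := hat
      subst hz
      exfalso
      cases b with
      | true => exact ha1 (Or.inl rfl)
      | false => exact ha1 (Or.inr rfl)
    | arc z ξ r =>
      have hz : z = x := hat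
      subst hz
      by_cases hgen : Generic RT ξ
      · exfalso
        have hcomp := g_comp_gen t D RG RT z ξ hgen r
        rw [hcomp] at hno
        exact hno (MPt.arc z ξ r) ⟨r, rfl⟩ (g_gen_sep t D RG RT z ξ r)
      · unfold Generic at hgen
        push Not at hgen
        obtain ⟨h, b, hhb⟩ := hgen
        exact hline h (Or.inl ⟨ξ, r, b, rfl, hhb⟩)
  · exact hline v.1 (Or.inr ⟨v, hv, 0, by simp⟩)

end Pool.Agent.Helper548.HB
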