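import Pool.Agent.Helper548.HB.Defs
import Pool.Agent.Helper548.HB.P_near_self
import Pool.Agent.Helper548.HB.P_e_cend_uniq
import Pool.Agent.Helper548.HB.P_e_cend_ne
import Pool.Agent.Helper548.HB.P_e_norm
import Pool.Agent.Helper548.HB.P_e_line_pb
import Pool.Agent.Helper548.HB.P_psi_line
import Pool.Agent.Helper548.HB.P_away_uniq
import Pool.Agent.Helper548.HB.P_m_cases
import Pool.Agent.Helper548.HB.P_m_excl
import Pool.Agent.Helper548.HB.P_m_loc
import Pool.Agent.Helper548.HB.P_m_basis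
import Pool.Agent.Helper548.HB.P_sep_of_clopen

set_option autoImplicit false

/-! Hyperbolic spaces, Gromov boundaries, hierarchically hyperbolic spaces and groups, the
hierarchically hyperbolic boundary and its topology. -/

namespace Pool.Agent.Helper548.HB



theorem gs_bool (b b' : Bool) (h : ¬ b' = b) : b' = !b := by
  cases b <;> cases b' <;> simp_all

theorem gs_mul_gc (v : V) (j : ℤ) : v * gc ^ j = (v.1 * FreeGroup.of true ^ j, v.2) := by
  apply Prod.ext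
  · simp [gc]
  · simp [gc]

theorem gs_A1 (τ P C ε k nrm n lm r : ℝ) (hε : 0 < ε) (hlam : lm = n + P + τ * k)
    (hC : |nrm - k| ≤ C) (hk : C + (|τ| * C + |P|) / ε < k) (hr : |lm / nrm - r| < ε)
    (h : τ + ε ≤ r - ε) : 0 < n := by
  have hC0 : 0 ≤ C := (abs_nonneg _).trans hC
  obtain ⟨h1, h2⟩ := abs_le.1 hC
  have hq : 0 ≤ (|τ| * C + |P|) / ε := by positivity
  have hn : 0 < nrm := by linarith
  have hr1 := (abs_lt.1 hr).1
  have h3 : τ + ε < lm / nrm := by linarith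
  rw [lt_div_iff₀ hn] at h3
  have h4 : (|τ| * C + |P|) / ε < nrm := by linarith
  rw [div_lt_iff₀ hε] at h4
  have h5 : |τ * (nrm - k)| ≤ |τ| * C := by
    rw [abs_mul]
    exact mul_le_mul_of_nonneg_left hC (abs_nonneg _)
  have h6 := (abs_le.1 h5).1
  have h7 := le_abs_self P
  nlinarith

theorem gs_A2 (τ P C ε k nrm n lm r : ℝ) (hε : 0 < ε) (hlam : lm = n + P + τ * k)
    (hC : |nrm - k| ≤ C) (hk : C + (|τ| * C + |P|) / ε < k) (hr : |lm / nrm - r| < ε)
    (h : r + ε ≤ τ - ε) : n < 0 := by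
  have h1 := gs_A1 (-τ) (-P) C ε k nrm (-n) (-lm) (-r) hε (by rw [hlam]; ring) hC
    (by rw [abs_neg, abs_neg]; exact hk)
    (by
      have : -lm / nrm - -r = -(lm / nrm - r) := by ring
      rw [this, abs_neg]; exact hr) (by linarith)
  linarith

theorem gs_B1 (t P C R ε j nrm n lm : ℝ) (hlam : lm = n + P + t * j)
    (hC : abs (nrm - abs j) ≤ C) (hε : ε * (2 * (|t| + 1)) = 1) (hR : 2 * (|P| + |t| * C) < R)
    (h1 : R < lm) (h2 : nrm < ε * |lm|) : 0 < n := by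
  have hC0 : 0 ≤ C := (abs_nonneg _).trans hC
  have ht0 := abs_nonneg t
  have hP0 := abs_nonneg P
  have hR0 : 0 ≤ |t| * C := by positivity
  have hl : 0 < lm := by linarith
  rw [abs_of_pos hl] at h2
  have hε0 : 0 < ε := by
    by_contra hneg
    push Not at hneg
    have : ε * (2 * (|t| + 1)) ≤ 0 := mul_nonpos_of_nonpos_of_nonneg hneg (by positivity)
    linarith
  obtain ⟨h3, h4⟩ := abs_le.1 hC
  have h5 : |j| ≤ ε * lm + C := by linarith
  have h6 : |t * j| ≤ |t| * (ε * lm + C) := by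
    rw [abs_mul]
    exact mul_le_mul_of_nonneg_left h5 ht0
  have h7 := (abs_le.1 h6).2
  have h8 := le_abs_self (t * j)
  have h9 := le_abs_self P
  have h10 : |t| * (ε * lm) ≤ lm / 2 := by
    have : 2 * (ε * |t|) ≤ 1 := by nlinarith
    nlinarith
  nlinarith

theorem gs_B2 (t P C R ε j nrm n lm : ℝ) (hlam : lm = n + P + t * j)
    (hC : abs (nrm - abs j) ≤ C) (hε : ε * (2 * (|t| + 1)) = 1) (hR : 2 * (|P| + |t| * C) < R)
    (h1 : R < -lm) (h2 : nrm < ε * |lm|) : n < 0 := by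
  have h := gs_B1 (-t) (-P) C R ε j nrm (-n) (-lm) (by rw [hlam]; ring) hC
    (by rw [abs_neg]; exact hε) (by rw [abs_neg, abs_neg]; exact hR) h1 (by rw [abs_neg]; exact h2)
  linarith

theorem gs_away_ex {D : GData} {RG : Realz D.Γ D.G} {RT : Realz TG H} (x : D.Q) (v : V) :
    ∃ q : MPt D RG RT, q.away x v := by
  obtain ⟨⟨w, hw⟩, hout⟩ := QuotientGroup.mk_out_eq_mul D.ι.range (x.out * D.ι v * D.s)
  obtain ⟨w', rfl⟩ := hw
  refine ⟨MPt.pole ((x.out * D.ι v * D.s : D.G) : D.Q) true, ?_, ?_⟩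
  · intro hx
    have h1 : ((x.out * D.ι v * D.s : D.G) : D.Q) = ((x.out : D.G) : D.Q) := by
      rw [hx]; exact (QuotientGroup.out_eq' x).symm
    have h2 := QuotientGroup.eq.1 h1.symm
    have h3 : x.out⁻¹ * (x.out * D.ι v * D.s) = D.ι v * D.s := by group
    rw [h3] at h2
    have h4 : (D.ι v)⁻¹ * (D.ι v * D.s) ∈ D.ι.range :=
      D.ι.range.mul_mem (D.ι.range.inv_mem ⟨v, rfl⟩) h2
    rw [inv_mul_cancel_left] at h4
    exact D.s_not_mem h4
  · show D.cut (x.out⁻¹ * ((x.out * D.ι v * D.s : D.G) : D.Q).out) = v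
    rw [hout]
    have h3 : x.out⁻¹ * (x.out * D.ι v * D.s * D.ι w') = D.ι v * (D.s * D.ι w') := by group
    have h5 : D.s * D.ι w' ∉ D.ι.range := by
      intro h
      have h4 : D.s * D.ι w' * (D.ι w')⁻¹ ∈ D.ι.range :=
        D.ι.range.mul_mem h (D.ι.range.inv_mem ⟨w', rfl⟩)
      rw [mul_inv_cancel_right] at h4
      exact D.s_not_mem h4
    have h6 : D.ι v * (D.s * D.ι w') ∉ D.ι.range := by
      intro h
      have h4 : (D.ι v)⁻¹ * (D.ι v * (D.s * D.ι w')) ∈ D.ι.range :=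
        D.ι.range.mul_mem (D.ι.range.inv_mem ⟨v, rfl⟩) h
      rw [inv_mul_cancel_left] at h4
      exact h5 h4
    change D.cut (x.out⁻¹ * (x.out * D.ι v * D.s * D.ι w')) = v
    rw [h3]
    unfold GData.cut
    rw [dif_neg h6, D.head_left v _ h5, D.head_right w' _ D.s_not_mem, D.head_s, mul_one]

theorem gs_nsep (t : ℝ) {D : GData} (RG : Realz D.Γ D.G) (RT : Realz TG H) (x : D.Q) (h : H)
    (b : Bool) (ξa ξb : Boundary RT.X) (ha : IsCEnd RT h b ξa) (hb : IsCEnd RT h (!b) ξb) :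
    ∃ R : ℝ, ¬ Near (RT.ι 1) R ξa ξb := by
  by_contra hcon
  push Not at hcon
  let _ : TopologicalSpace (MPt D RG RT) := mTop t D RG RT
  obtain ⟨R, hR⟩ := e_line_pb RT h b ξa ha 1
  have hN : mnhd t (MPt.arc x ξa 0 : MPt D RG RT) R 1 ∈ nhds (MPt.arc x ξa 0 : MPt D RG RT) :=
    (m_basis t _).mem_of_mem (i := (R, 1)) one_pos
  obtain ⟨U, hUs, hUo, hUm⟩ := mem_nhds_iff.1 hN
  obtain ⟨⟨R', ε'⟩, hε', hs⟩ := (m_basis t _).mem_iff.1 (hUo.mem_nhds hUm)
  have hbU : (MPt.arc x ξb 0 : MPt D RG RT) ∈ U :=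
    hs (Or.inl ⟨ξb, 0, rfl, hcon R', by simpa using hε'⟩)
  obtain ⟨⟨R2, ε2⟩, hε2, hs2⟩ := (m_basis t _).mem_iff.1 (hUo.mem_nhds hbU)
  obtain ⟨C, hC⟩ := e_norm h
  obtain ⟨N1, hN1⟩ := hb R2
  obtain ⟨N2, hN2⟩ := exists_nat_gt (C + 1 / ε2)
  obtain ⟨n, hn1, hn2, hn3⟩ : ∃ n : ℕ, N1 ≤ n ∧ N2 ≤ n ∧ 1 ≤ n :=
    ⟨max N1 (max N2 1), le_max_left _ _, (le_max_left _ _).trans (le_max_right _ _),
      (le_max_right _ _).trans (le_max_right _ _)⟩
  have hpb := hN1 n hn1
  obtain ⟨j, hj⟩ : ∃ j : ℤ, j = (if (!b) = true then (n : ℤ) else -(n : ℤ)) := ⟨_, rfl⟩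
  rw [← hj] at hpb
  obtain ⟨m, hm⟩ : ∃ m : ℤ, m = round (-(t * ((psi (h * FreeGroup.of true ^ j)).toAdd : ℝ))) :=
    ⟨_, rfl⟩
  have hlam : |lam t ((h * FreeGroup.of true ^ j, Multiplicative.ofAdd m) : V)| ≤ 1 / 2 := by
    have h1 := abs_sub_round (-(t * ((psi (h * FreeGroup.of true ^ j)).toAdd : ℝ)))
    rw [← hm] at h1
    unfold lam
    have h2 : ((Multiplicative.ofAdd m).toAdd : ℝ) + t * ((psi (h * FreeGroup.of true ^ j)).toAdd : ℝ)
        = -(-(t * ((psi (h * FreeGroup.of true ^ j)).toAdd : ℝ)) - (m : ℝ)) := by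
      rw [toAdd_ofAdd]; ring
    show |((Multiplicative.ofAdd m).toAdd : ℝ) + t * ((psi (h * FreeGroup.of true ^ j)).toAdd : ℝ)|
      ≤ 1 / 2
    rw [h2, abs_neg]
    exact h1
  have hjn : |(j : ℝ)| = n := by
    rw [hj]
    cases b
    · simp
    · simp
  have hnn : C + 1 / ε2 < (n : ℝ) := hN2.trans_le (by exact_mod_cast hn2)
  have hnorm : 1 / ε2 < (FreeGroup.norm (h * FreeGroup.of true ^ j) : ℝ) := by
    have h1 := (abs_le.1 (hC j)).1
    rw [hjn] at h1
    linarith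
  have hnpos : 0 < (FreeGroup.norm (h * FreeGroup.of true ^ j) : ℝ) :=
    (by positivity : (0:ℝ) < 1 / ε2).trans hnorm
  obtain ⟨q, hq⟩ := gs_away_ex (RG := RG) (RT := RT) x
    ((h * FreeGroup.of true ^ j, Multiplicative.ofAdd m) : V)
  have hqm : q ∈ mnhd t (MPt.arc x ξb 0 : MPt D RG RT) R2 ε2 := by
    refine Or.inr ⟨_, hq, hpb, ?_⟩
    rw [sub_zero, abs_div, abs_of_pos hnpos, div_lt_iff₀ hnpos]
    rw [div_lt_iff₀ hε2] at hnorm
    have : ε2 * (FreeGroup.norm (h * FreeGroup.of true ^ j) : ℝ) > 1 := by linarith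
    change |lam t ((h * FreeGroup.of true ^ j, Multiplicative.ofAdd m) : V)| <
      ε2 * (FreeGroup.norm (h * FreeGroup.of true ^ j) : ℝ)
    linarith
  rcases hUs (hs2 hqm) with ⟨ξ', r', h1, -⟩ | ⟨v', h1, h2, -⟩
  · subst h1
    exact hq.1 rfl
  · have hv := away_uniq q x _ _ h1 hq
    subst hv
    have h3 := hR j h2
    rw [hj] at h3
    cases b
    · simp at h3; omega
    · simp at h3; omega

theorem g_sep (t : ℝ) (D : GData) (RG : Realz D.Γ D.G) (RT : Realz TG H) (x : D.Q) (h : H)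
    (ξ ξ' : Boundary RT.X) (h1 : IsCEnd RT h true ξ) (h2 : IsCEnd RT h false ξ') :
    @Sep _ (mTop t D RG RT) {q | (∃ ξ r b, q = .arc x ξ r ∧ IsCEnd RT h b ξ) ∨
      ∃ v, q.away x v ∧ ∃ j : ℤ, v.1 = h * FreeGroup.of true ^ j}
      (MPt.pole x true : MPt D RG RT) (MPt.pole x false)
      {MPt.arc x ξ t, MPt.arc x ξ' (-t)} := by
  classical
  let _ : TopologicalSpace (MPt D RG RT) := mTop t D RG RT
  have hne : ξ ≠ ξ' := e_cend_ne RT h ξ ξ' h1 h2
  obtain ⟨C, hC⟩ := e_norm h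
  have hC0 : 0 ≤ C := (abs_nonneg _).trans (hC 0)
  obtain ⟨P, hP⟩ : ∃ P : ℝ, P = t * ((psi h).toAdd : ℝ) := ⟨_, rfl⟩
  -- the formula for lam
  have hlam : ∀ (v : V) (j : ℤ), v.1 = h * FreeGroup.of true ^ j →
      lam t v = (v.2.toAdd : ℝ) + P + t * j := by
    intro v j hv
    have e1 : v = ((h, v.2) : V) * gc ^ j := by
      rw [gs_mul_gc]
      exact Prod.ext hv rfl
    rw [e1, psi_line]
    unfold lam
    rw [gs_mul_gc, hP]
  -- ends
  have hends : ∀ ξ'' b, IsCEnd RT h b ξ'' → (b = true ∧ ξ'' = ξ) ∨ (b = false ∧ ξ'' = ξ') := by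
    intro ξ'' b hb
    cases b
    · exact Or.inr ⟨rfl, e_cend_uniq RT h false _ _ hb h2⟩
    · exact Or.inl ⟨rfl, e_cend_uniq RT h true _ _ hb h1⟩
  -- unified notation for the two ends
  obtain ⟨E, hE⟩ : ∃ E : Bool → Boundary RT.X, E = fun b => if b then ξ else ξ' := ⟨_, rfl⟩
  have hEt : E true = ξ := by rw [hE]; rfl
  have hEf : E false = ξ' := by rw [hE]; rfl
  have hEc : ∀ b, IsCEnd RT h b (E b) := by
    intro b; cases b
    · rw [hEf]; exact h2
    · rw [hEt]; exact h1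
  have hEn : ∀ b, ∃ R : ℝ, ¬ Near (RT.ι 1) R (E b) (E (!b)) := fun b =>
    gs_nsep t RG RT x h b (E b) (E (!b)) (hEc b) (hEc (!b))
  obtain ⟨S, hS⟩ : ∃ S : Set (MPt D RG RT), S = {q' | q' = MPt.pole x true ∨
      (∃ b r, sgb b * t < r ∧ q' = MPt.arc x (E b) r) ∨
      (∃ v, q'.away x v ∧ (∃ j : ℤ, v.1 = h * FreeGroup.of true ^ j) ∧ 0 ≤ v.2.toAdd)} := ⟨_, rfl⟩
  obtain ⟨Y, hY⟩ : ∃ Y : Set (MPt D RG RT), Y = ({q | (∃ ξ r b, q = .arc x ξ r ∧ IsCEnd RT h b ξ) ∨
      ∃ v, q.away x v ∧ ∃ j : ℤ, v.1 = h * FreeGroup.of true ^ j} ∪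
      {MPt.pole x true, MPt.pole x false}) \ {MPt.arc x ξ t, MPt.arc x ξ' (-t)} := ⟨_, rfl⟩
  -- characterisation of Y
  have hYc : ∀ q : MPt D RG RT, q ∈ Y ↔ (q = MPt.pole x true ∨ q = MPt.pole x false ∨
      (∃ b r, r ≠ sgb b * t ∧ q = MPt.arc x (E b) r) ∨
      (∃ v, q.away x v ∧ ∃ j : ℤ, v.1 = h * FreeGroup.of true ^ j)) := by
    intro q
    rw [hY]
    constructor
    · rintro ⟨(⟨ξ'', r, b, hq, hb⟩ | hv) | hpq, hF⟩
      · refine Or.inr (Or.inr (Or.inl ⟨b, r, ?_, ?_⟩))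
        · intro hr
          apply hF
          rcases hends _ _ hb with ⟨rfl, rfl⟩ | ⟨rfl, rfl⟩
          · left; rw [hq, hr]; simp [sgb]
          · right; rw [hq, hr]; simp [sgb]
        · rcases hends _ _ hb with ⟨rfl, rfl⟩ | ⟨rfl, rfl⟩
          · rw [hEt]; exact hq
          · rw [hEf]; exact hq
      · exact Or.inr (Or.inr (Or.inr hv))
      · rcases hpq with h | h
        · exact Or.inl h
        · exact Or.inr (Or.inl h)
    · rintro (rfl | rfl | ⟨b, r, hr, rfl⟩ | ⟨v, hv, j, hj⟩)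
      · refine ⟨Or.inr (Or.inl rfl), ?_⟩
        rintro (h | h) <;> cases h
      · refine ⟨Or.inr (Or.inr rfl), ?_⟩
        rintro (h | h) <;> cases h
      · refine ⟨Or.inl (Or.inl ⟨E b, r, b, rfl, hEc b⟩), ?_⟩
        cases b
        · rw [hEf]
          rintro (h | h)
          · injection h with _ h3 _
            exact hne h3.symm
          · injection h with _ _ h3
            apply hr; rw [h3]; simp [sgb]
        · rw [hEt]
          rintro (h | h)
          · injection h with _ _ h3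
            apply hr; rw [h3]; simp [sgb]
          · injection h with _ h3 _
            exact hne h3
      · refine ⟨Or.inl (Or.inr ⟨v, hv, j, hj⟩), ?_⟩
        rintro (h | h)
        · rw [h] at hv; exact hv.1 rfl
        · rw [h] at hv; exact hv.1 rfl
  have hYarc : ∀ ξ'' r, (MPt.arc x ξ'' r : MPt D RG RT) ∈ Y → ∃ b, ξ'' = E b := by
    intro ξ'' r hq
    rcases (hYc _).1 hq with h | h | ⟨b, r', -, h⟩ | ⟨v, h, -⟩
    · cases h
    · cases h
    · injection h with _ h3 _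
      exact ⟨b, h3⟩
    · exact absurd rfl h.1
  have hYaway : ∀ (q : MPt D RG RT) v, q ∈ Y → q.away x v →
      ∃ j : ℤ, v.1 = h * FreeGroup.of true ^ j := by
    intro q v hq hv
    rcases (hYc _).1 hq with h | h | ⟨b, r', -, h⟩ | ⟨v', h, hj⟩
    · rw [h] at hv; exact absurd rfl hv.1
    · rw [h] at hv; exact absurd rfl hv.1
    · rw [h] at hv; exact absurd rfl hv.1
    · rw [away_uniq q x _ _ hv h]; exact hj
  have hSY : S ⊆ Y := by
    intro q hq
    rw [hS] at hq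
    rw [hYc]
    rcases hq with h | ⟨b, r, hr, h⟩ | ⟨v, h, hj, -⟩
    · exact Or.inl h
    · exact Or.inr (Or.inr (Or.inl ⟨b, r, hr.ne', h⟩))
    · exact Or.inr (Or.inr (Or.inr ⟨v, h, hj⟩))
  have hSarc : ∀ b r, (MPt.arc x (E b) r : MPt D RG RT) ∈ S → sgb b * t < r := by
    intro b r hq
    rw [hS] at hq
    rcases hq with h | ⟨b', r', hr, h⟩ | ⟨v, h, -⟩
    · cases h
    · injection h with _ h3 h4
      have hb : b = b' := by
        cases b <;> cases b'
        · rfl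
        · rw [hEt, hEf] at h3; exact absurd h3.symm hne
        · rw [hEt, hEf] at h3; exact absurd h3 hne
        · rfl
      rw [hb, h4]; exact hr
    · exact absurd rfl h.1
  have hSaway : ∀ (q : MPt D RG RT) v, q ∈ S → q.away x v → 0 ≤ v.2.toAdd := by
    intro q v hq hv
    rw [hS] at hq
    rcases hq with h | ⟨b', r', hr, h⟩ | ⟨v', h, -, hn⟩
    · rw [h] at hv; exact absurd rfl hv.1
    · rw [h] at hv; exact absurd rfl hv.1
    · rw [away_uniq q x _ _ hv h]; exact hn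
  -- the estimate at an arc point
  have harc : ∀ (b : Bool) (ε : ℝ), 0 < ε → ∃ R : ℝ, ∀ v : V, ∀ j : ℤ,
      v.1 = h * FreeGroup.of true ^ j → PB (RT.ι 1) R (RT.ι v.1) (E b) → ∀ r : ℝ,
      |lam t v / (FreeGroup.norm v.1 : ℝ) - r| < ε →
      (sgb b * t + ε ≤ r - ε → 0 < v.2.toAdd) ∧ (r + ε ≤ sgb b * t - ε → v.2.toAdd < 0) := by
    intro b ε hε
    obtain ⟨J, hJ⟩ := exists_nat_gt (C + (|sgb b * t| * C + |P|) / ε)
    obtain ⟨R, hR⟩ := e_line_pb RT h b (E b) (hEc b) J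
    refine ⟨R, fun v j hv hpb r hr => ?_⟩
    have hjJ := hR j (by rw [← hv]; exact hpb)
    obtain ⟨k, hk⟩ : ∃ k : ℤ, k = (if b then j else -j) := ⟨_, rfl⟩
    rw [← hk] at hjJ
    have hk0 : 0 ≤ k := (Int.natCast_nonneg J).trans hjJ
    have hkJ : C + (|sgb b * t| * C + |P|) / ε < (k : ℝ) :=
      hJ.trans_le (by exact_mod_cast hjJ)
    have hjk : t * (j : ℝ) = (sgb b * t) * (k : ℝ) := by
      rw [hk]; cases b
      · simp [sgb]
      · simp [sgb]
    have habs : |(j : ℝ)| = (k : ℝ) := by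
      have : |(j : ℝ)| = |(k : ℝ)| := by
        rw [hk]; cases b
        · simp
        · simp
      rw [this, abs_of_nonneg (by exact_mod_cast hk0)]
    have hc := hC j
    rw [habs, ← hv] at hc
    have hl := hlam v j hv
    rw [hjk] at hl
    constructor
    · intro hh
      have := gs_A1 (sgb b * t) P C ε k _ _ _ r hε hl hc hkJ hr hh
      exact_mod_cast this
    · intro hh
      have := gs_A2 (sgb b * t) P C ε k _ _ _ r hε hl hc hkJ hr hh
      exact_mod_cast this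
  -- constants for the poles
  obtain ⟨ε0, hε0⟩ : ∃ ε0 : ℝ, ε0 * (2 * (|t| + 1)) = 1 :=
    ⟨1 / (2 * (|t| + 1)), by
      have : (2 * (|t| + 1)) ≠ 0 := by positivity
      field_simp⟩
  have hε0p : 0 < ε0 := by
    by_contra hneg
    push Not at hneg
    have : ε0 * (2 * (|t| + 1)) ≤ 0 := mul_nonpos_of_nonpos_of_nonneg hneg (by positivity)
    linarith
  obtain ⟨R0, hR0⟩ : ∃ R0 : ℝ, R0 = 2 * (|P| + |t| * C) + |t| + 1 := ⟨_, rfl⟩
  have hR0a : 2 * (|P| + |t| * C) < R0 := by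
    have := abs_nonneg t
    rw [hR0]; linarith
  have hR0b : |t| ≤ R0 := by
    have h1 := abs_nonneg P
    have h2 : 0 ≤ |t| * C := by positivity
    rw [hR0]; linarith
  have hbt : ∀ b, |sgb b * t| = |t| := by
    intro b; cases b
    · simp [sgb]
    · simp [sgb]
  show MPt.pole x false ∉ connectedComponentIn _ (MPt.pole x true)
  rw [← hY]
  refine sep_of_clopen Y S _ _ hSY ?_ ?_ ?_ ?_
  · rw [hS]; exact Or.inl rfl
  · refine ⟨(hYc _).2 (Or.inr (Or.inl rfl)), ?_⟩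
    rw [hS]
    rintro (h | ⟨b', r', hr, h⟩ | ⟨v', h, -⟩)
    · cases h
    · cases h
    · exact h.1 rfl
  · -- points of S
    intro a ha
    have ha' := ha
    rw [hS] at ha'
    rcases ha' with rfl | ⟨b, r, hr, rfl⟩ | ⟨v, hv, ⟨j, hj⟩, hn⟩
    · refine ⟨_, (m_basis t _).mem_of_mem (i := (R0, ε0)) hε0p, ?_⟩
      rintro q ⟨hq1, hq2⟩
      rcases hq1 with h | ⟨ξ'', r'', h, hr⟩ | ⟨v, hv, hl1, hl2⟩
      · rw [hS]; exact Or.inl h
      · subst h
        obtain ⟨b, rfl⟩ := hYarc _ _ hq2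
        rw [hS]
        refine Or.inr (Or.inl ⟨b, r'', ?_, rfl⟩)
        have e1 := le_abs_self (sgb b * t)
        rw [hbt] at e1
        have e2 : R0 < r'' := by simpa [sgb] using hr
        linarith
      · obtain ⟨j, hj⟩ := hYaway q v hq2 hv
        rw [hS]
        refine Or.inr (Or.inr ⟨v, hv, ⟨j, hj⟩, ?_⟩)
        have hc := hC j
        rw [← hj] at hc
        have := gs_B1 t P C R0 ε0 j _ _ _ (hlam v j hj) hc hε0 hR0a (by simpa [sgb] using hl1) hl2
        have h3 : (0 : ℤ) < v.2.toAdd := by exact_mod_cast this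
        exact h3.le
    · obtain ⟨R1, hR1⟩ := hEn b
      obtain ⟨R2, hR2⟩ := harc b ((r - sgb b * t) / 2) (by linarith)
      refine ⟨_, (m_basis t _).mem_of_mem (i := (max R1 R2, (r - sgb b * t) / 2))
        (by show 0 < (r - sgb b * t) / 2; linarith), ?_⟩
      rintro q ⟨hq1, hq2⟩
      rcases hq1 with ⟨ξ'', r'', h, hnr, hr''⟩ | ⟨v, hv, hpb, hl⟩
      · subst h
        obtain ⟨b', rfl⟩ := hYarc _ _ hq2
        have hbb : b' = b := by
          by_contra hbb
          rw [gs_bool b b' hbb] at hnr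
          exact hR1 (hnr.mono (le_max_left _ _))
        subst hbb
        rw [hS]
        refine Or.inr (Or.inl ⟨b', r'', ?_, rfl⟩)
        have := (abs_lt.1 hr'').1
        simp only at this
        linarith
      · obtain ⟨j, hj⟩ := hYaway q v hq2 hv
        rw [hS]
        refine Or.inr (Or.inr ⟨v, hv, ⟨j, hj⟩, ?_⟩)
        exact ((hR2 v j hj (hpb.mono (le_max_right _ _)) r hl).1 (by linarith)).le
    · obtain ⟨R1, ε1, hε1, hloc⟩ := m_loc t a x v hv
      refine ⟨_, (m_basis t _).mem_of_mem (i := (R1, ε1)) hε1, ?_⟩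
      rintro q ⟨hq1, hq2⟩
      obtain ⟨i, -, hi⟩ := hloc q hq1
      rw [hS]
      refine Or.inr (Or.inr ⟨_, hi, ⟨j + i, ?_⟩, ?_⟩)
      · rw [gs_mul_gc, zpow_add, ← mul_assoc, ← hj]
      · rw [gs_mul_gc]; exact hn
  · -- points outside S
    rintro a ⟨haY, haS⟩
    rcases (hYc _).1 haY with rfl | rfl | ⟨b, r, hr, rfl⟩ | ⟨v, hv, j, hj⟩
    · exact absurd (by rw [hS]; exact Or.inl rfl) haS
    · refine ⟨_, (m_basis t _).mem_of_mem (i := (R0, ε0)) hε0p, ?_⟩
      rw [Set.eq_empty_iff_forall_notMem]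
      rintro q ⟨hq1, hq2⟩
      rcases hq1 with h | ⟨ξ'', r'', h, hr⟩ | ⟨v, hv, hl1, hl2⟩
      · rw [h] at hq2; exact haS hq2
      · subst h
        obtain ⟨b, rfl⟩ := hYarc _ _ (hSY hq2)
        have e0 := hSarc _ _ hq2
        have e1 := neg_abs_le (sgb b * t)
        rw [hbt] at e1
        have e2 : R0 < -r'' := by simpa [sgb] using hr
        linarith
      · obtain ⟨j, hj⟩ := hYaway q v (hSY hq2) hv
        have e0 := hSaway _ _ hq2 hv
        have hc := hC j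
        rw [← hj] at hc
        have := gs_B2 t P C R0 ε0 j _ _ _ (hlam v j hj) hc hε0 hR0a (by simpa [sgb] using hl1) hl2
        have h3 : v.2.toAdd < (0 : ℤ) := by exact_mod_cast this
        omega
    · have hr' : r < sgb b * t := by
        rcases lt_or_gt_of_ne hr with h | h
        · exact h
        · exact absurd (by rw [hS]; exact Or.inr (Or.inl ⟨b, r, h, rfl⟩)) haS
      obtain ⟨R1, hR1⟩ := hEn b
      obtain ⟨R2, hR2⟩ := harc b ((sgb b * t - r) / 2) (by linarith)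
      refine ⟨_, (m_basis t _).mem_of_mem (i := (max R1 R2, (sgb b * t - r) / 2))
        (by show 0 < (sgb b * t - r) / 2; linarith), ?_⟩
      rw [Set.eq_empty_iff_forall_notMem]
      rintro q ⟨hq1, hq2⟩
      rcases hq1 with ⟨ξ'', r'', h, hnr, hr''⟩ | ⟨v, hv, hpb, hl⟩
      · subst h
        obtain ⟨b', rfl⟩ := hYarc _ _ (hSY hq2)
        have hbb : b' = b := by
          by_contra hbb
          rw [gs_bool b b' hbb] at hnr
          exact hR1 (hnr.mono (le_max_left _ _))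
        subst hbb
        have e0 := hSarc _ _ hq2
        have := (abs_lt.1 hr'').2
        simp only at this
        linarith
      · obtain ⟨j, hj⟩ := hYaway q v (hSY hq2) hv
        have e0 := hSaway _ _ hq2 hv
        have := (hR2 v j hj (hpb.mono (le_max_right _ _)) r hl).2 (by linarith)
        omega
    · have hn : v.2.toAdd < 0 := by
        by_contra hn
        push Not at hn
        exact haS (by rw [hS]; exact Or.inr (Or.inr ⟨v, hv, ⟨j, hj⟩, hn⟩))
      obtain ⟨R1, ε1, hε1, hloc⟩ := m_loc t a x v hv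
      refine ⟨_, (m_basis t _).mem_of_mem (i := (R1, ε1)) hε1, ?_⟩
      rw [Set.eq_empty_iff_forall_notMem]
      rintro q ⟨hq1, hq2⟩
      obtain ⟨i, -, hi⟩ := hloc q hq1
      have e0 := hSaway _ _ hq2 hi
      rw [gs_mul_gc] at e0
      change 0 ≤ v.2.toAdd at e0
      omega

end Pool.Agent.Helper548.HB
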