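import Pool.Agent.Helper548.HB.Defs
import Pool.Agent.Helper548.HB.P_e_cend_ex
import Pool.Agent.Helper548.HB.P_e_cend_ne
import Pool.Agent.Helper548.HB.P_g_line
import Pool.Agent.Helper548.HB.P_g_sep
import Pool.Agent.Helper548.HB.P_g_nosep

set_option autoImplicit false

/-! Hyperbolic spaces, Gromov boundaries, hierarchically hyperbolic spaces and groups, the
hierarchically hyperbolic boundary and its topology. -/

namespace Pool.Agent.Helper548.HB



theorem gA_pole_notin (t : ℝ) (D : GData) (RG : Realz D.Γ D.G) (RT : Realz TG H) (x : D.Q) (h : H)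
    (β : Bool) : (MPt.pole x β : MPt D RG RT) ∉
      {q : MPt D RG RT | (∃ ξ r b, q = .arc x ξ r ∧ IsCEnd RT h b ξ) ∨
      ∃ v, q.away x v ∧ ∃ j : ℤ, v.1 = h * FreeGroup.of true ^ j} := by
  rintro (⟨ξ, r, b, h1, -⟩ | ⟨v, h1, -⟩)
  · cases h1
  · exact h1.1 rfl

theorem gA_core (t : ℝ) (D : GData) (RG : Realz D.Γ D.G) (RT : Realz TG H) (x : D.Q) (h : H)
    (ξ ξ' : Boundary RT.X) (h1 : IsCEnd RT h true ξ) (h2 : IsCEnd RT h false ξ')
    (c : MPt D RG RT) (hc : c ∈ {q : MPt D RG RT | (∃ ξ r b, q = .arc x ξ r ∧ IsCEnd RT h b ξ) ∨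
      ∃ v, q.away x v ∧ ∃ j : ℤ, v.1 = h * FreeGroup.of true ^ j}) :
    ¬ @Sep _ (mTop t D RG RT) {q | (∃ ξ r b, q = .arc x ξ r ∧ IsCEnd RT h b ξ) ∨
      ∃ v, q.away x v ∧ ∃ j : ℤ, v.1 = h * FreeGroup.of true ^ j}
      (MPt.pole x true : MPt D RG RT) (MPt.pole x false) {c} := by
  refine g_nosep t D RG RT x h ξ ξ' h1 h2 {c} (Set.finite_singleton c) ?_ ?_ ?_
  · intro hm
    rw [Set.mem_singleton_iff] at hm
    exact gA_pole_notin t D RG RT x h true (hm ▸ hc)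
  · intro hm
    rw [Set.mem_singleton_iff] at hm
    exact gA_pole_notin t D RG RT x h false (hm ▸ hc)
  · by_contra hcon
    rw [not_or, not_not, not_not, Set.mem_singleton_iff, Set.mem_singleton_iff] at hcon
    have h3 : (MPt.arc x ξ t : MPt D RG RT) = MPt.arc x ξ' (-t) := hcon.1.trans hcon.2.symm
    injection h3 with _ h4 _
    exact e_cend_ne RT h ξ ξ' h1 h2 h4

theorem g_A_sup (t : ℝ) (D : GData) (RG : Realz D.Γ D.G) (RT : Realz TG H) (x : D.Q)
    (ξ : Boundary RT.X) (h : H) (b : Bool) (hξ : IsCEnd RT h b ξ) :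
    (MPt.arc x ξ (sgb b * t) : MPt D RG RT) ∈
      @Aset _ (mTop t D RG RT) (MPt.pole x true) (MPt.pole x false) := by
  letI := mTop t D RG RT
  obtain ⟨ξ2, hξ2⟩ := e_cend_ex RT h (!b)
  have hZ := g_line t D RG RT x h (MPt.arc x ξ (sgb b * t)) (Or.inl ⟨ξ, sgb b * t, b, rfl, hξ⟩)
  refine ⟨?_, MPt.arc x ξ2 (sgb (!b) * t), ?_, ?_, ?_⟩
  · intro hm
    rcases hm with hm | hm <;> cases hm
  · rw [hZ]
    exact Or.inl ⟨ξ2, _, !b, rfl, hξ2⟩
  · rw [hZ]
    cases b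
    · have h3 := g_sep t D RG RT x h ξ2 ξ hξ2 hξ
      have e1 : sgb false * t = -t := by simp [sgb]
      have e2 : sgb (!false) * t = t := by simp [sgb]
      rw [e1, e2, Set.pair_comm]
      exact h3
    · have h3 := g_sep t D RG RT x h ξ ξ2 hξ hξ2
      have e1 : sgb true * t = t := by simp [sgb]
      have e2 : sgb (!true) * t = -t := by simp [sgb]
      rw [e1, e2]
      exact h3
  · rw [hZ]
    intro c hc
    cases b
    · exact gA_core t D RG RT x h ξ2 ξ hξ2 hξ c hc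
    · exact gA_core t D RG RT x h ξ ξ2 hξ hξ2 c hc

end Pool.Agent.Helper548.HB
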