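import Pool.Agent.Helper548.HB.Defs
import Pool.Agent.Helper548.HB.P_m_cases
import Pool.Agent.Helper548.HB.P_m_excl
import Pool.Agent.Helper548.HB.P_m_loc

set_option autoImplicit false

/-! Hyperbolic spaces, Gromov boundaries, hierarchically hyperbolic spaces and groups, the
hierarchically hyperbolic boundary and its topology. -/

namespace Pool.Agent.Helper548.HB



theorem g_E0 (t : ℝ) (D : GData) (RG : Realz D.Γ D.G) (RT : Realz TG H) (x : D.Q) :
    @IsClosed _ (mTop t D RG RT) {q : MPt D RG RT | ∃ ξ, q = MPt.arc x ξ 0} := by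
  refine (@isOpen_compl_iff _ _ (mTop t D RG RT)).1 ?_
  show ∀ p ∈ {q : MPt D RG RT | ∃ ξ, q = MPt.arc x ξ 0}ᶜ, ∃ R ε : ℝ, 0 < ε ∧
    mnhd t p R ε ⊆ {q : MPt D RG RT | ∃ ξ, q = MPt.arc x ξ 0}ᶜ
  intro p hp
  rcases m_cases p x with hat | ⟨v, hv⟩
  · cases p with
    | lim ω => exact hat.elim
    | arc y ξ r =>
      have hy : y = x := hat
      subst hy
      have hr : r ≠ 0 := by
        rintro rfl
        exact hp ⟨ξ, rfl⟩
      refine ⟨0, |r|, abs_pos.2 hr, ?_⟩
      rintro q (⟨ξ', r', h1, h2, h3⟩ | ⟨v, h1, h2, h3⟩) ⟨ξ'', hq⟩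
      · rw [h1] at hq
        injection hq with e1 e2 e3
        rw [e3, zero_sub, abs_neg] at h3
        exact lt_irrefl _ h3
      · rw [hq] at h1
        exact h1.1 rfl
    | pole y b =>
      have hy : y = x := hat
      subst hy
      refine ⟨0, 1, one_pos, ?_⟩
      rintro q (h | ⟨ξ', r', h1, h2⟩ | ⟨v, h1, h2, h3⟩) ⟨ξ'', hq⟩
      · rw [h] at hq
        exact absurd hq (by simp)
      · rw [h1] at hq
        injection hq with e1 e2 e3
        rw [e3, mul_zero] at h2
        exact lt_irrefl _ h2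
      · rw [hq] at h1
        exact h1.1 rfl
  · obtain ⟨R, ε, hε, h⟩ := m_loc t p x v hv
    refine ⟨R, ε, hε, ?_⟩
    rintro q hq ⟨ξ'', hq'⟩
    obtain ⟨j, -, hj⟩ := h q hq
    rw [hq'] at hj
    exact hj.1 rfl

end Pool.Agent.Helper548.HB
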