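import Pool.Agent.Helper548.HB.Defs
import Pool.Agent.Helper548.HB.P_adj_eq
import Pool.Agent.Helper548.HB.P_adj_consec
import Pool.Agent.Helper548.HB.P_cq_step
import Pool.Agent.Helper548.HB.P_connected
import Pool.Agent.Helper548.HB.P_walk_avoid
import Pool.Agent.Helper548.HB.P_bott
import Pool.Agent.Helper548.HB.P_pb_of_rep
import Pool.Agent.Helper548.HB.P_near_of_pb
import Pool.Agent.Helper548.HB.P_pb_move
import Pool.Agent.Helper548.HB.P_near_trans
import Pool.Agent.Helper548.HB.P_near_self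
import Pool.Agent.Helper548.HB.P_pb_dist
import Pool.Agent.Helper548.HB.P_eq_of_near
import Pool.Agent.Helper548.HB.P_pb_vert
import Pool.Agent.Helper548.HB.P_hyp_RG
import Pool.Agent.Helper548.HB.P_l_away_ex
import Pool.Agent.Helper548.HB.P_away_uniq

set_option autoImplicit false

/-! Hyperbolic spaces, Gromov boundaries, hierarchically hyperbolic spaces and groups, the
hierarchically hyperbolic boundary and its topology. -/

namespace Pool.Agent.Helper548.HB



theorem lsep_gprod_comm {X : Type} [MetricSpace X] (o x y : X) : gprod o x y = gprod o y x := by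
  unfold gprod
  rw [dist_comm x y]
  ring

theorem lsep_walk_mem {W : Type} {Γ : SimpleGraph W} {y z q : W} (w : Γ.Walk y z)
    (hq : q ∈ w.support) : Γ.dist y q + Γ.dist q z ≤ w.length := by
  classical
  have h1 := SimpleGraph.dist_le (w.takeUntil q hq)
  have h2 := SimpleGraph.dist_le (w.dropUntil q hq)
  have h3 : (w.takeUntil q hq).length + (w.dropUntil q hq).length = w.length := by
    have := congrArg SimpleGraph.Walk.length (w.take_spec hq)
    rwa [SimpleGraph.Walk.length_append] at this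
  omega

theorem lsep_far_gate (D : GData) (RG : Realz D.Γ D.G) (RT : Realz TG H) (ω : Boundary RG.X)
    (p : D.Q) (v : V) (hv : (MPt.lim ω : MPt D RG RT).away p v) (R : ℝ)
    (hR : dist (RG.ι ((1 : D.G) : D.Q)) (RG.ι p) + 40 ≤ R) (y : D.Q)
    (hy : PB (RG.ι ((1 : D.G) : D.Q)) R (RG.ι y) ω) : D.cq p y = v := by
  obtain ⟨R₀, h0⟩ := hv
  obtain ⟨z, hz⟩ := pb_vert RG (RG.ι ((1 : D.G) : D.Q)) ω (max R R₀)
  have hz1 := h0 z (hz.mono (le_max_right _ _))
  have hg : R - 20 ≤ gprod (RG.ι ((1 : D.G) : D.Q)) (RG.ι y) (RG.ι z) := by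
    obtain ⟨u, hu, N, hN⟩ := hz.mono (le_max_left R R₀)
    obtain ⟨M, hM⟩ := pb_of_rep (hyp_RG D RG) hy u hu
    have e1 := hN (max N M) (le_max_left _ _)
    have e2 := hM (max N M) (le_max_right _ _)
    have e3 := hyp_RG D RG (RG.ι ((1 : D.G) : D.Q)) (RG.ι y) (RG.ι z) (u.seq (max N M))
    rw [lsep_gprod_comm _ (u.seq (max N M)) (RG.ι z)] at e3
    have e4 : R - 10 ≤ min (gprod (RG.ι ((1 : D.G) : D.Q)) (RG.ι y) (u.seq (max N M)))
        (gprod (RG.ι ((1 : D.G) : D.Q)) (RG.ι z) (u.seq (max N M))) :=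
      le_min e2 (by linarith)
    linarith
  obtain ⟨w, hw⟩ := (connected D).exists_walk_length_eq_dist y z
  have hav : ∀ q ∈ w.support, 2 ≤ D.Γ.dist p q := by
    intro q hq
    have h1 := lsep_walk_mem w hq
    rw [hw] at h1
    have h2 : dist (RG.ι y) (RG.ι q) + dist (RG.ι q) (RG.ι z) ≤ dist (RG.ι y) (RG.ι z) := by
      rw [RG.dist_ι, RG.dist_ι, RG.dist_ι]
      exact_mod_cast h1
    have h3 := dist_triangle (RG.ι y) (RG.ι q) (RG.ι ((1 : D.G) : D.Q))
    have h4 := dist_triangle (RG.ι z) (RG.ι q) (RG.ι ((1 : D.G) : D.Q))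
    have h5 : dist (RG.ι z) (RG.ι q) = dist (RG.ι q) (RG.ι z) := dist_comm _ _
    have h6 := dist_triangle (RG.ι ((1 : D.G) : D.Q)) (RG.ι p) (RG.ι q)
    have h7 : dist (RG.ι q) (RG.ι ((1 : D.G) : D.Q)) =
      dist (RG.ι ((1 : D.G) : D.Q)) (RG.ι q) := dist_comm _ _
    unfold gprod at hg
    have h8 : (2 : ℝ) ≤ dist (RG.ι p) (RG.ι q) := by linarith
    rw [RG.dist_ι] at h8
    exact_mod_cast h8
  rw [walk_avoid D p y z w hav]
  exact hz1.2

theorem lsep_gate_nbr (D : GData) (p y : D.Q) (h : p ≠ y) : ∃ z, D.Γ.Adj p z ∧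
    D.Γ.dist p y = D.Γ.dist z y + 1 ∧
    (D.cq p y = D.cq p z ∨ D.cq p y = D.cq p z * gc) := by
  obtain ⟨w, hw⟩ := (connected D).exists_walk_length_eq_dist p y
  cases w with
  | nil => exact absurd rfl h
  | @cons _ z _ hadj w' =>
    rw [SimpleGraph.Walk.length_cons] at hw
    have h1 := SimpleGraph.dist_le w'
    have h2 : D.Γ.dist p y ≤ D.Γ.dist p z + D.Γ.dist z y := (connected D).dist_triangle
    have h3 : D.Γ.dist p z = 1 := SimpleGraph.dist_eq_one_iff_adj.2 hadj
    refine ⟨z, hadj, by omega, ?_⟩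
    cases w' with
    | nil => exact Or.inl rfl
    | @cons _ z2 _ hadj2 w'' =>
      rw [SimpleGraph.Walk.length_cons] at hw h1
      have hav : ∀ q ∈ w''.support, 2 ≤ D.Γ.dist p q := by
        intro q hq
        have h4 := lsep_walk_mem w'' hq
        have h5 : D.Γ.dist p y ≤ D.Γ.dist p q + D.Γ.dist q y := (connected D).dist_triangle
        omega
      have h6 := walk_avoid D p z2 y w'' hav
      have hz2 := hav z2 w''.start_mem_support
      have hz2p : z2 ≠ p := by
        rintro rfl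
        rw [SimpleGraph.dist_self] at hz2
        omega
      rcases cq_step D p z z2 hadj.ne' hz2p hadj2 with h7 | h7 | h7
      · left; rw [← h6, h7]
      · right; rw [← h6, h7.1]
      · have := SimpleGraph.dist_eq_one_iff_adj.2 h7.2
        omega

theorem lsep_gates_ne (D : GData) (p y y' : D.Q) (h1 : p ≠ y) (h2 : p ≠ y')
    (h : D.Γ.dist y p + D.Γ.dist p y' = D.Γ.dist y y') : D.cq p y ≠ D.cq p y' := by
  intro he
  obtain ⟨z, a1, a2, a3⟩ := lsep_gate_nbr D p y h1
  obtain ⟨z', b1, b2, b3⟩ := lsep_gate_nbr D p y' h2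
  have t1 : D.Γ.dist y y' ≤ D.Γ.dist y z + D.Γ.dist z y' := (connected D).dist_triangle
  have t2 : D.Γ.dist z y' ≤ D.Γ.dist z z' + D.Γ.dist z' y' := (connected D).dist_triangle
  have c1 : D.Γ.dist y p = D.Γ.dist p y := SimpleGraph.dist_comm
  have c2 : D.Γ.dist y z = D.Γ.dist z y := SimpleGraph.dist_comm
  have hd : 2 ≤ D.Γ.dist z z' := by omega
  have hz := adj_eq D p z a1
  have hz' := adj_eq D p z' b1
  have key1 : D.cq p z ≠ D.cq p z' := by
    intro hc
    rw [hc, ← hz'] at hz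
    rw [hz, SimpleGraph.dist_self] at hd
    omega
  have key2 : D.cq p z ≠ D.cq p z' * gc := by
    intro hc
    have := adj_consec D p (D.cq p z')
    rw [← hc, ← hz, ← hz'] at this
    have h3 := SimpleGraph.dist_eq_one_iff_adj.2 this.symm
    omega
  have key3 : D.cq p z' ≠ D.cq p z * gc := by
    intro hc
    have := adj_consec D p (D.cq p z)
    rw [← hc, ← hz, ← hz'] at this
    have h3 := SimpleGraph.dist_eq_one_iff_adj.2 this
    omega
  rcases a3 with a3 | a3 <;> rcases b3 with b3 | b3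
  · exact key1 (by rw [← a3, ← b3, he])
  · exact key2 (by rw [← a3, ← b3, he])
  · exact key3 (by rw [← a3, ← b3, he])
  · exact key1 (mul_right_cancel (by rw [← a3, ← b3, he]))

theorem lsep_on_geod {W : Type} {Γ : SimpleGraph W} (hc : Γ.Connected) (y y' : W) (k : ℕ)
    (hk : k ≤ Γ.dist y y') : ∃ p, Γ.dist y p = k ∧ Γ.dist y p + Γ.dist p y' = Γ.dist y y' := by
  obtain ⟨w, hw⟩ := hc.exists_walk_length_eq_dist y y'
  have h1 := SimpleGraph.dist_le (w.take k)
  have h2 := SimpleGraph.dist_le (w.drop k)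
  rw [SimpleGraph.Walk.take_length] at h1
  rw [SimpleGraph.Walk.drop_length] at h2
  have h3 : Γ.dist y y' ≤ Γ.dist y (w.getVert k) + Γ.dist (w.getVert k) y' := hc.dist_triangle
  refine ⟨w.getVert k, ?_, ?_⟩ <;> omega

theorem l_sep {D : GData} {RG : Realz D.Γ D.G} {RT : Realz TG H} (ω ω' : Boundary RG.X)
    (h : ω ≠ ω') : ∃ x v v', (MPt.lim ω : MPt D RG RT).away x v ∧
      (MPt.lim ω' : MPt D RG RT).away x v' ∧ v ≠ v' := by
  by_contra hcon
  push Not at hcon
  apply h
  have hyp := hyp_RG D RG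
  refine eq_of_near (by norm_num : (0 : ℝ) ≤ 10) hyp (o := RG.ι ((1 : D.G) : D.Q)) fun R => ?_
  obtain ⟨y, hy⟩ := pb_vert RG (RG.ι ((1 : D.G) : D.Q)) ω (R + 100)
  obtain ⟨y', hy'⟩ := pb_vert RG (RG.ι ((1 : D.G) : D.Q)) ω' (R + 100)
  have hgp : R + 39 ≤ gprod (RG.ι ((1 : D.G) : D.Q)) (RG.ι y) (RG.ι y') := by
    set o := RG.ι ((1 : D.G) : D.Q) with ho
    have tr1 := dist_triangle (RG.ι y') o (RG.ι y)
    have tr2 := dist_triangle o (RG.ι y) (RG.ι y')
    have tr3 := dist_triangle o (RG.ι y') (RG.ι y)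
    have c1 : dist (RG.ι y) (RG.ι y') = dist (RG.ι y') (RG.ι y) := dist_comm _ _
    have c2 : dist (RG.ι y') o = dist o (RG.ι y') := dist_comm _ _
    have c3 : dist (RG.ι y) o = dist o (RG.ι y) := dist_comm _ _
    have g0 : 0 ≤ gprod (RG.ι y) o (RG.ι y') := by
      unfold gprod; linarith
    have g1 : gprod (RG.ι y) o (RG.ι y') ≤ dist (RG.ι y) (RG.ι y') := by
      unfold gprod; linarith
    set k := ⌊gprod (RG.ι y) o (RG.ι y')⌋₊ with hk
    have k1 : (k : ℝ) ≤ gprod (RG.ι y) o (RG.ι y') := Nat.floor_le g0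
    have k2 : gprod (RG.ι y) o (RG.ι y') < k + 1 := Nat.lt_floor_add_one _
    have k3 : k ≤ D.Γ.dist y y' := by
      have : (k : ℝ) ≤ (D.Γ.dist y y' : ℝ) := by
        rw [← RG.dist_ι]; linarith
      exact_mod_cast this
    obtain ⟨p, p1, p2⟩ := lsep_on_geod (connected D) y y' k k3
    have hop : R + 60 ≤ dist o (RG.ι p) := by
      by_cases e1 : p = y
      · rw [e1]
        have := pb_dist hy
        linarith
      by_cases e2 : p = y'
      · rw [e2]
        have := pb_dist hy'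
        linarith
      by_contra hlt
      push Not at hlt
      obtain ⟨v, hv⟩ := l_away_ex D RG RT p ω
      obtain ⟨v', hv'⟩ := l_away_ex D RG RT p ω'
      have f1 := lsep_far_gate D RG RT ω p v hv (R + 100) (by linarith) y hy
      have f2 := lsep_far_gate D RG RT ω' p v' hv' (R + 100) (by linarith) y' hy'
      exact lsep_gates_ne D p y y' e1 e2 p2 (by rw [f1, f2]; exact hcon p v v' hv hv')
    have d1 : dist (RG.ι y) (RG.ι p) = k := by rw [RG.dist_ι, p1]
    have d2 : dist (RG.ι y) (RG.ι p) + dist (RG.ι p) (RG.ι y') = dist (RG.ι y) (RG.ι y') := by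
      rw [RG.dist_ι, RG.dist_ι, RG.dist_ι]
      exact_mod_cast p2
    have e3 := hyp (RG.ι y) o (RG.ι p) (RG.ι y')
    have c4 : dist (RG.ι p) (RG.ι y) = dist (RG.ι y) (RG.ι p) := dist_comm _ _
    have c5 : dist (RG.ι y') (RG.ι p) = dist (RG.ι p) (RG.ι y') := dist_comm _ _
    have e4 : gprod (RG.ι y) (RG.ι y') (RG.ι p) = k := by
      unfold gprod; linarith
    rw [e4, min_eq_right k1] at e3
    unfold gprod at e3 k1 k2 ⊢
    linarith
  have q1 : PB (RG.ι ((1 : D.G) : D.Q)) (R + 39 - 10) (RG.ι y') ω :=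
    pb_move hyp (hy.mono (by linarith)) hgp
  have q2 := near_of_pb hyp q1 (hy'.mono (by linarith))
  exact q2.mono (by linarith)

end Pool.Agent.Helper548.HB
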