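import Pool.Agent.Helper548.HB.Defs
import Pool.Agent.Helper548.HB.P_l_away_ex
import Pool.Agent.Helper548.HB.P_away_uniq
import Pool.Agent.Helper548.HB.P_l_near
import Pool.Agent.Helper548.HB.P_l_sep
import Pool.Agent.Helper548.HB.P_m_basis

set_option autoImplicit false

/-! Hyperbolic spaces, Gromov boundaries, hierarchically hyperbolic spaces and groups, the
hierarchically hyperbolic boundary and its topology. -/

namespace Pool.Agent.Helper548.HB



theorem g_lim_td (t : ℝ) (D : GData) (RG : Realz D.Γ D.G) (RT : Realz TG H)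
    (C : Set (MPt D RG RT)) (hC : @IsPreconnected _ (mTop t D RG RT) C)
    (h : ∀ q ∈ C, ∃ ω, q = MPt.lim ω) : C.Subsingleton := by
  letI : TopologicalSpace (MPt D RG RT) := mTop t D RG RT
  intro q hq q' hq'
  by_contra hne
  obtain ⟨ω, rfl⟩ := h q hq
  obtain ⟨ω', rfl⟩ := h q' hq'
  have hω : ω ≠ ω' := fun h' => hne (by rw [h'])
  obtain ⟨x, v, v', hv, hv', hvv⟩ := l_sep (RT := RT) ω ω' hω
  have hint : ∀ (ζ : Boundary RG.X) (w : V) (S : Set (MPt D RG RT)),
      (MPt.lim ζ : MPt D RG RT).away x w → (∀ p : MPt D RG RT, p.away x w → p ∈ S) →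
      (MPt.lim ζ : MPt D RG RT) ∈ interior S := by
    intro ζ w S hw hS
    rw [mem_interior_iff_mem_nhds]
    obtain ⟨R, hR⟩ := l_near ζ x w hw
    refine Filter.mem_of_superset
      ((m_basis t (MPt.lim ζ : MPt D RG RT)).mem_of_mem (i := (R, 1)) one_pos) ?_
    intro p hp
    exact hS p (hR p hp)
  obtain ⟨A, hA⟩ : ∃ A : Set (MPt D RG RT), A = {p | p.away x v} := ⟨_, rfl⟩
  obtain ⟨B, hB⟩ : ∃ B : Set (MPt D RG RT), B = {p | ∃ w, w ≠ v ∧ p.away x w} := ⟨_, rfl⟩
  have hcov : C ⊆ interior A ∪ interior B := by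
    intro p hp
    obtain ⟨ζ, rfl⟩ := h p hp
    obtain ⟨w, hw⟩ := l_away_ex D RG RT x ζ
    by_cases hwv : w = v
    · left
      subst hwv
      exact hint ζ w A hw (fun p hp => by rw [hA]; exact hp)
    · right
      exact hint ζ w B hw (fun p hp => by rw [hB]; exact ⟨w, hwv, hp⟩)
  have h1 : (C ∩ interior A).Nonempty :=
    ⟨MPt.lim ω, hq, hint ω v A hv (fun p hp => by rw [hA]; exact hp)⟩
  have h2 : (C ∩ interior B).Nonempty :=
    ⟨MPt.lim ω', hq', hint ω' v' B hv' (fun p hp => by rw [hB]; exact ⟨v', hvv.symm, hp⟩)⟩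
  obtain ⟨p, _, hpA, hpB⟩ := hC (interior A) (interior B) isOpen_interior isOpen_interior hcov h1 h2
  have hpA' := interior_subset hpA
  have hpB' := interior_subset hpB
  rw [hA] at hpA'
  rw [hB] at hpB'
  obtain ⟨w, hw, hpw⟩ := hpB'
  exact hw (away_uniq p x w v hpw hpA')

end Pool.Agent.Helper548.HB
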