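import Pool.Agent.Helper548.HB.Defs
import Pool.Agent.Helper548.HB.P_g_sigma
import Pool.Agent.Helper548.HB.P_g_arc_cont
import Pool.Agent.Helper548.HB.P_g_pole_cl

set_option autoImplicit false

/-! Hyperbolic spaces, Gromov boundaries, hierarchically hyperbolic spaces and groups, the
hierarchically hyperbolic boundary and its topology. -/

namespace Pool.Agent.Helper548.HB



/-- part of a longitude between removed points -/
def gsm_I {D : GData} {RG : Realz D.Γ D.G} {RT : Realz TG H} (y : D.Q) (p q : MPt D RG RT)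
    (ξ : Boundary RT.X) (s1 s2 : Bool) : Set ℝ :=
  {r | (∀ r', p = .arc y ξ r' → sgb s1 * r' < sgb s1 * r) ∧
    (∀ r', q = .arc y ξ r' → sgb s2 * r' < sgb s2 * r)}

theorem gsm_ord (s : Bool) (r' a c x : ℝ) (ha : sgb s * r' < sgb s * a)
    (hc : sgb s * r' < sgb s * c) (hax : a ≤ x) (hxc : x ≤ c) : sgb s * r' < sgb s * x := by
  cases s
  · simp only [sgb, Bool.false_eq_true, if_false] at *
    linarith
  · simp only [sgb, if_true] at *
    linarith

theorem gsm_conn {D : GData} {RG : Realz D.Γ D.G} {RT : Realz TG H} (y : D.Q)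
    (p q : MPt D RG RT) (ξ : Boundary RT.X) (s1 s2 : Bool) :
    IsPreconnected (gsm_I y p q ξ s1 s2) := by
  have h : (gsm_I y p q ξ s1 s2).OrdConnected := by
    refine ⟨fun a ha c hc x hx => ⟨fun r' hr' => ?_, fun r' hr' => ?_⟩⟩
    · exact gsm_ord s1 r' a c x (ha.1 r' hr') (hc.1 r' hr') hx.1 hx.2
    · exact gsm_ord s2 r' a c x (ha.2 r' hr') (hc.2 r' hr') hx.1 hx.2
  exact h.isPreconnected

theorem gsm_bound {D : GData} {RG : Realz D.Γ D.G} {RT : Realz TG H} (y : D.Q)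
    (p : MPt D RG RT) (ξ : Boundary RT.X) (b : Bool) :
    ∃ r₀ : ℝ, ∀ r', p = .arc y ξ r' → sgb b * r' ≤ r₀ := by
  by_cases h : ∃ r', p = .arc y ξ r'
  · obtain ⟨r, hr⟩ := h
    refine ⟨sgb b * r, fun r' hr' => ?_⟩
    rw [hr] at hr'
    injection hr' with _ _ h3
    rw [h3]
  · exact ⟨0, fun r' hr' => absurd ⟨r', hr'⟩ h⟩

theorem gsm_sign {D : GData} {RG : Realz D.Γ D.G} {RT : Realz TG H} (y : D.Q)
    (p : MPt D RG RT) (ξ : Boundary RT.X) (r : ℝ) (hp : (MPt.arc y ξ r : MPt D RG RT) ≠ p) :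
    ∃ s : Bool, ∀ r', p = .arc y ξ r' → sgb s * r' < sgb s * r := by
  by_cases h : ∃ r', p = .arc y ξ r'
  · obtain ⟨r1, hr1⟩ := h
    have hne : r ≠ r1 := by
      rintro rfl
      exact hp hr1.symm
    rcases lt_or_gt_of_ne hne with h1 | h1
    · refine ⟨false, fun r' hr' => ?_⟩
      rw [hr1] at hr'
      injection hr' with _ _ h3
      rw [← h3]
      simp only [sgb, Bool.false_eq_true, if_false]
      linarith
    · refine ⟨true, fun r' hr' => ?_⟩
      rw [hr1] at hr'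
      injection hr' with _ _ h3
      rw [← h3]
      simp only [sgb, if_true]
      linarith
  · exact ⟨true, fun r' hr' => absurd ⟨r', hr'⟩ h⟩

theorem gsm_pole {D : GData} {RG : Realz D.Γ D.G} {RT : Realz TG H} (y : D.Q)
    (p q : MPt D RG RT)
    (h : ¬ ((p = .pole y true ∧ q = .pole y false) ∨ (p = .pole y false ∧ q = .pole y true))) :
    ∃ b : Bool, (MPt.pole y b : MPt D RG RT) ≠ p ∧ (MPt.pole y b : MPt D RG RT) ≠ q := by
  by_contra hcon
  push Not at hcon
  have h1 := hcon true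
  have h2 := hcon false
  have hne : (MPt.pole y true : MPt D RG RT) ≠ MPt.pole y false := by
    intro h3; injection h3 with _ h4; exact absurd h4 (by decide)
  apply h
  by_cases hp : (MPt.pole y true : MPt D RG RT) = p
  · left
    refine ⟨hp.symm, ?_⟩
    have : (MPt.pole y false : MPt D RG RT) ≠ p := by
      intro h3; exact hne (hp.trans h3.symm)
    exact (h2 this).symm
  · right
    have hq := h1 hp
    refine ⟨?_, hq.symm⟩
    by_contra h3
    have h4 := h2 (fun h5 => h3 h5.symm)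
    exact hne (hq.trans h4.symm)

theorem g_sigma_minus (t : ℝ) (D : GData) (RG : Realz D.Γ D.G) (RT : Realz TG H) (y : D.Q)
    (p q : MPt D RG RT)
    (h : ¬ ((p = .pole y true ∧ q = .pole y false) ∨ (p = .pole y false ∧ q = .pole y true))) :
    ∃ F : Set (Set (MPt D RG RT)), F.Finite ∧
      (∀ S ∈ F, @IsPreconnected _ (mTop t D RG RT) S ∧ S ⊆ {z | z.atv y} \ {p, q}) ∧
      {z : MPt D RG RT | z.atv y} \ {p, q} ⊆ ⋃₀ F := by
  letI : TopologicalSpace (MPt D RG RT) := mTop t D RG RT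
  obtain ⟨b, hbp, hbq⟩ := gsm_pole y p q h
  let arcf : Boundary RT.X → ℝ → MPt D RG RT := fun ξ r => .arc y ξ r
  have hcont : ∀ ξ, Continuous (arcf ξ) := fun ξ => g_arc_cont t D RG RT y ξ
  let Ξ : Set (Boundary RT.X) := {ξ | ∃ r, p = .arc y ξ r} ∪ {ξ | ∃ r, q = .arc y ξ r}
  have hΞ : Ξ.Finite := by
    have hs : ∀ p : MPt D RG RT, {ξ | ∃ r, p = .arc y ξ r}.Subsingleton := by
      rintro p ξ ⟨r, hr⟩ ξ' ⟨r', hr'⟩
      rw [hr] at hr'
      injection hr'
    exact (hs p).finite.union (hs q).finite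
  let cc : Set (Set (MPt D RG RT)) := insert {.pole y b}
    (Set.range fun ξ : Boundary RT.X => ({.pole y b} ∪ arcf ξ '' gsm_I y p q ξ b b))
  let star : Set (MPt D RG RT) := ⋃₀ cc
  let S2 : Set (MPt D RG RT) := {z | z = .pole y (!b) ∧ z ≠ p ∧ z ≠ q}
  let F3 : Set (Set (MPt D RG RT)) :=
    (fun x : (Boundary RT.X) × (Bool × Bool) => arcf x.1 '' gsm_I y p q x.1 x.2.1 x.2.2) ''
      (Ξ ×ˢ Set.univ)
  have hpc : ∀ ξ s1 s2, IsPreconnected (arcf ξ '' gsm_I y p q ξ s1 s2) := fun ξ s1 s2 =>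
    (gsm_conn y p q ξ s1 s2).image _ (hcont ξ).continuousOn
  have harc : ∀ ξ s1 s2, arcf ξ '' gsm_I y p q ξ s1 s2 ⊆ {z | z.atv y} \ {p, q} := by
    rintro ξ s1 s2 _ ⟨r, hr, rfl⟩
    refine ⟨rfl, ?_⟩
    rintro (h1 | h1)
    · exact lt_irrefl _ (hr.1 r h1.symm)
    · exact lt_irrefl _ (hr.2 r h1.symm)
  have hstar : IsPreconnected star := by
    have h1 : ∀ ξ, IsPreconnected ({.pole y b} ∪ arcf ξ '' gsm_I y p q ξ b b) := by
      intro ξ
      refine (hpc ξ b b).subset_closure Set.subset_union_right ?_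
      rintro z (hz | hz)
      · rw [Set.mem_singleton_iff] at hz
        subst hz
        obtain ⟨r1, hr1⟩ := gsm_bound y p ξ b
        obtain ⟨r2, hr2⟩ := gsm_bound y q ξ b
        have h2 := g_pole_cl t D RG RT y ξ b (max r1 r2)
        refine closure_mono ?_ h2
        rintro z ⟨r, hr, rfl⟩
        refine ⟨r, ⟨fun r' hr' => ?_, fun r' hr' => ?_⟩, rfl⟩
        · exact lt_of_le_of_lt ((hr1 r' hr').trans (le_max_left _ _)) hr
        · exact lt_of_le_of_lt ((hr2 r' hr').trans (le_max_right _ _)) hr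
      · exact subset_closure hz
    refine isPreconnected_sUnion (.pole y b) cc ?_ ?_
    · rintro S (rfl | ⟨ξ, rfl⟩)
      · exact Set.mem_singleton _
      · exact Or.inl rfl
    · rintro S (rfl | ⟨ξ, rfl⟩)
      · exact isPreconnected_singleton
      · exact h1 ξ
  refine ⟨{star, S2} ∪ F3, ?_, ?_, ?_⟩
  · exact ((Set.finite_singleton S2).insert star).union ((hΞ.prod Set.finite_univ).image _)
  · rintro S ((rfl | rfl) | ⟨⟨ξ, s1, s2⟩, _, rfl⟩)
    · refine ⟨hstar, ?_⟩
      intro z hz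
      have hpol : (MPt.pole y b : MPt D RG RT) ∈ {z : MPt D RG RT | z.atv y} \ {p, q} := by
        refine ⟨rfl, ?_⟩
        rintro (h1 | h1)
        · exact hbp h1
        · exact hbq h1
      obtain ⟨S, (rfl | ⟨ξ, rfl⟩), hz⟩ := hz
      · rw [Set.mem_singleton_iff] at hz
        rw [hz]; exact hpol
      · rcases hz with hz | hz
        · rw [Set.mem_singleton_iff] at hz
          rw [hz]; exact hpol
        · exact harc ξ b b hz
    · refine ⟨?_, ?_⟩
      · have hss : S2.Subsingleton := by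
          rintro z ⟨hz, _⟩ z' ⟨hz', _⟩
          rw [hz, hz']
        exact hss.isPreconnected
      · rintro z ⟨hz, hzp, hzq⟩
        refine ⟨?_, ?_⟩
        · rw [hz]; exact rfl
        · rintro (h1 | h1)
          · exact hzp h1
          · exact hzq h1
    · exact ⟨hpc ξ s1 s2, harc ξ s1 s2⟩
  · rintro z ⟨hz, hzn⟩
    have hzp : z ≠ p := fun h1 => hzn (Or.inl h1)
    have hzq : z ≠ q := fun h1 => hzn (Or.inr h1)
    cases z with
    | lim ω => exact absurd hz (fun h => h)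
    | arc y' ξ r =>
      have hy : y' = y := hz
      subst hy
      by_cases hξ : ξ ∈ Ξ
      · obtain ⟨s1, hs1⟩ := gsm_sign y' p ξ r hzp
        obtain ⟨s2, hs2⟩ := gsm_sign y' q ξ r hzq
        refine ⟨arcf ξ '' gsm_I y' p q ξ s1 s2, Or.inr ⟨(ξ, s1, s2), ⟨hξ, trivial⟩, rfl⟩, ?_⟩
        exact ⟨r, ⟨hs1, hs2⟩, rfl⟩
      · refine ⟨star, Or.inl (Or.inl rfl), ?_⟩
        refine ⟨_, Or.inr ⟨ξ, rfl⟩, Or.inr ⟨r, ⟨fun r' hr' => ?_, fun r' hr' => ?_⟩, rfl⟩⟩
        · exact absurd (Or.inl ⟨r', hr'⟩) hξ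
        · exact absurd (Or.inr ⟨r', hr'⟩) hξ
    | pole y' b' =>
      have hy : y' = y := hz
      subst hy
      by_cases hb : b' = b
      · subst hb
        exact ⟨star, Or.inl (Or.inl rfl), {.pole y' b'}, Or.inl rfl, rfl⟩
      · refine ⟨S2, Or.inl (Or.inr rfl), ?_, hzp, hzq⟩
        have : b' = !b := by cases b <;> cases b' <;> simp_all
        rw [this]

end Pool.Agent.Helper548.HB
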