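import Pool.Agent.Helper548.HB.Defs
import Pool.Agent.Helper548.HB.P_e_uncount
import Pool.Agent.Helper548.HB.P_g_comp_gen

set_option autoImplicit false

/-! Hyperbolic spaces, Gromov boundaries, hierarchically hyperbolic spaces and groups, the
hierarchically hyperbolic boundary and its topology. -/

namespace Pool.Agent.Helper548.HB



theorem g_wild (t : ℝ) (D : GData) (RG : Realz D.Γ D.G) (RT : Realz TG H) (x : D.Q) :
    @Wild _ (mTop t D RG RT) (MPt.pole x true : MPt D RG RT) (MPt.pole x false) := by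
  letI : TopologicalSpace (MPt D RG RT) := mTop t D RG RT
  refine ⟨by simp, fun hc => e_uncount RT ?_⟩
  refine Set.countable_of_injective_of_countable_image
    (f := fun ξ : Boundary RT.X => {q : MPt D RG RT | ∃ r' : ℝ, q = MPt.arc x ξ r'}) ?_
    (hc.mono ?_)
  · intro ξ _ ζ _ h
    have h1 : (MPt.arc x ξ 0 : MPt D RG RT) ∈ {q : MPt D RG RT | ∃ r' : ℝ, q = MPt.arc x ξ r'} :=
      ⟨0, rfl⟩
    have h' : {q : MPt D RG RT | ∃ r' : ℝ, q = MPt.arc x ξ r'} =
      {q : MPt D RG RT | ∃ r' : ℝ, q = MPt.arc x ζ r'} := h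
    rw [h'] at h1
    obtain ⟨r', hr'⟩ := h1
    injection hr'
  · rintro C ⟨ξ, hξ, rfl⟩
    refine ⟨?_, MPt.arc x ξ 0, by simp, ?_⟩
    · refine ⟨MPt.arc x ξ 0, ⟨0, rfl⟩, MPt.arc x ξ 1, ⟨1, rfl⟩, ?_⟩
      intro h
      injection h with h1 h2 h3
      exact zero_ne_one h3
    · exact (g_comp_gen t D RG RT x ξ hξ 0).symm

end Pool.Agent.Helper548.HB
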