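import Pool.Agent.Helper548.HB.Defs
import Pool.Agent.Helper548.HB.P_g_sigma_minus
import Pool.Agent.Helper548.HB.P_g_lim_td
import Pool.Agent.Helper548.HB.P_Q_countable

set_option autoImplicit false

/-! Hyperbolic spaces, Gromov boundaries, hierarchically hyperbolic spaces and groups, the
hierarchically hyperbolic boundary and its topology. -/

namespace Pool.Agent.Helper548.HB



theorem g_wild_conv (t : ℝ) (D : GData) (RG : Realz D.Γ D.G) (RT : Realz TG H)
    (p q : MPt D RG RT) (h : @Wild _ (mTop t D RG RT) p q) :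
    ∃ x, (p = .pole x true ∧ q = .pole x false) ∨ (p = .pole x false ∧ q = .pole x true) := by
  letI := mTop t D RG RT
  by_contra hcon
  push Not at hcon
  apply h.2
  have hF : ∀ y : D.Q, ∃ F : Set (Set (MPt D RG RT)), F.Finite ∧
      (∀ S ∈ F, IsPreconnected S ∧ S ⊆ {z | z.atv y} \ {p, q}) ∧
      {z : MPt D RG RT | z.atv y} \ {p, q} ⊆ ⋃₀ F := by
    intro y
    apply g_sigma_minus t D RG RT y p q
    rintro (⟨h1, h2⟩ | ⟨h1, h2⟩)
    · exact (hcon y).1 h1 h2
    · exact (hcon y).2 h1 h2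
  choose F hFfin hF1 hF2 using hF
  haveI := Q_countable D
  have key : {C : Set (MPt D RG RT) | C.Nontrivial ∧ ∃ a ∈ ({p, q} : Set (MPt D RG RT))ᶜ,
      C = connectedComponentIn ({p, q} : Set (MPt D RG RT))ᶜ a} ⊆
      ⋃ y : D.Q, ⋃ S ∈ F y, {C | ∃ a ∈ S, C = connectedComponentIn ({p, q} : Set (MPt D RG RT))ᶜ a} := by
    rintro C ⟨hC, a, ha, rfl⟩
    have hpre : IsPreconnected (connectedComponentIn ({p, q} : Set (MPt D RG RT))ᶜ a) :=
      isPreconnected_connectedComponentIn
    have hex : ∃ z ∈ connectedComponentIn ({p, q} : Set (MPt D RG RT))ᶜ a, ∀ ω, z ≠ MPt.lim ω := by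
      by_contra hno
      push Not at hno
      have := g_lim_td t D RG RT _ hpre hno
      exact absurd this (Set.not_subsingleton_iff.2 hC)
    obtain ⟨z, hz, hzl⟩ := hex
    have hy : ∃ y, z.atv y := by
      cases z with
      | lim ω => exact absurd rfl (hzl ω)
      | arc y _ _ => exact ⟨y, rfl⟩
      | pole y _ => exact ⟨y, rfl⟩
    obtain ⟨y, hy⟩ := hy
    have hzc : z ∈ ({p, q} : Set (MPt D RG RT))ᶜ := connectedComponentIn_subset _ _ hz
    obtain ⟨S, hS, hzS⟩ := hF2 y ⟨hy, hzc⟩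
    refine Set.mem_iUnion.2 ⟨y, Set.mem_iUnion₂.2 ⟨S, hS, z, hzS, ?_⟩⟩
    exact connectedComponentIn_eq hz
  refine Set.Countable.mono key ?_
  refine Set.countable_iUnion fun y => ?_
  refine (hFfin y).countable.biUnion fun S hS => ?_
  apply Set.Subsingleton.countable
  rintro C ⟨a, ha, rfl⟩ C' ⟨a', ha', rfl⟩
  have hsub : S ⊆ connectedComponentIn ({p, q} : Set (MPt D RG RT))ᶜ a :=
    (hF1 y S hS).1.subset_connectedComponentIn ha (fun z hz => ((hF1 y S hS).2 hz).2)
  exact connectedComponentIn_eq (hsub ha')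

end Pool.Agent.Helper548.HB
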