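import Pool.Agent.Helper548.HB.Defs

set_option autoImplicit false

/-! Hyperbolic spaces, Gromov boundaries, hierarchically hyperbolic spaces and groups, the
hierarchically hyperbolic boundary and its topology. -/

namespace Pool.Agent.Helper548.HB



theorem geod_real : GeodesicSpace ℝ := by
  intro x y
  rcases le_total x y with h | h
  · refine ⟨fun s => x + s, by simp, ?_, ?_⟩
    · show x + dist x y = y
      rw [Real.dist_eq, abs_of_nonpos (by linarith)]
      ring
    · intro s _ t _
      show dist (x + s) (x + t) = |s - t|
      rw [Real.dist_eq]
      congr 1
      ring
  · refine ⟨fun s => x - s, by simp, ?_, ?_⟩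
    · show x - dist x y = y
      rw [Real.dist_eq, abs_of_nonneg (by linarith)]
      ring
    · intro s _ t _
      show dist (x - s) (x - t) = |s - t|
      rw [Real.dist_eq, abs_sub_comm s t]
      congr 1
      ring

end Pool.Agent.Helper548.HB
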