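import Pool.Agent.Helper548.HB.Defs

set_option autoImplicit false

/-! Hyperbolic spaces, Gromov boundaries, hierarchically hyperbolic spaces and groups, the
hierarchically hyperbolic boundary and its topology. -/

namespace Pool.Agent.Helper548.HB


theorem ccIn_image_753 {X Y : Type} [TopologicalSpace X] [TopologicalSpace Y] (e : X ≃ₜ Y)
    (s : Set X) (x : X) :
    connectedComponentIn (e '' s) (e x) = e '' connectedComponentIn s x := by
  by_cases hx : x ∈ s
  · exact (e.image_connectedComponentIn hx).symm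
  · rw [connectedComponentIn_eq_empty hx, connectedComponentIn_eq_empty, Set.image_empty]
    rintro ⟨y, hy, hxy⟩
    exact hx (e.injective hxy ▸ hy)

theorem compl_image_753 {X Y : Type} [TopologicalSpace X] [TopologicalSpace Y] (e : X ≃ₜ Y)
    (p q : X) : ({e p, e q} : Set Y)ᶜ = e '' ({p, q} : Set X)ᶜ := by
  rw [Set.image_compl_eq e.bijective, Set.image_pair]

theorem sep_image_753 {X Y : Type} [TopologicalSpace X] [TopologicalSpace Y] (e : X ≃ₜ Y)
    (Z : Set X) (p q : X) (F : Set X) : Sep (e '' Z) (e p) (e q) (e '' F) ↔ Sep Z p q F := by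
  unfold Sep
  have h : (e '' Z ∪ {e p, e q}) \ e '' F = e '' ((Z ∪ {p, q}) \ F) := by
    rw [Set.image_diff e.injective, Set.image_union, Set.image_pair]
  rw [h, ccIn_image_753, e.injective.mem_set_image]

theorem aset_image_753 {X Y : Type} [TopologicalSpace X] [TopologicalSpace Y] (e : X ≃ₜ Y)
    (p q : X) : Aset (e p) (e q) = e '' Aset p q := by
  ext y
  obtain ⟨a, rfl⟩ := e.surjective y
  rw [e.injective.mem_set_image]
  unfold Aset
  simp only [Set.mem_setOf_eq]
  rw [compl_image_753, ccIn_image_753, e.injective.mem_set_image]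
  apply and_congr Iff.rfl
  constructor
  · rintro ⟨_, ⟨b, hb, rfl⟩, h1, h2⟩
    refine ⟨b, hb, ?_, fun c hc => ?_⟩
    · rw [← sep_image_753 e, Set.image_pair]; exact h1
    · have := h2 (e c) ⟨c, hc, rfl⟩
      rwa [← Set.image_singleton, sep_image_753] at this
  · rintro ⟨b, hb, h1, h2⟩
    refine ⟨e b, ⟨b, hb, rfl⟩, ?_, ?_⟩
    · rw [← Set.image_pair, sep_image_753]; exact h1
    · rintro _ ⟨c, hc, rfl⟩
      rw [← Set.image_singleton, sep_image_753]
      exact h2 c hc

theorem inv_homeo {X Y : Type} [TopologicalSpace X] [TopologicalSpace Y] (e : X ≃ₜ Y)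
    (h : Inv X) : Inv Y := by
  obtain ⟨p, q, ⟨hpq, hw⟩, a, ha, hsub⟩ := h
  refine ⟨e p, e q, ⟨fun h => hpq (e.injective h), ?_⟩, e a, ?_, ?_⟩
  · intro hc
    apply hw
    apply Set.countable_of_injective_of_countable_image (f := fun C => e '' C)
      (Set.image_injective.2 e.injective).injOn
    apply hc.mono
    rintro _ ⟨C, ⟨hC, b, hb, rfl⟩, rfl⟩
    refine ⟨hC.image e.injective, e b, ?_, ?_⟩
    · rw [compl_image_753, e.injective.mem_set_image]; exact hb
    · rw [compl_image_753, ccIn_image_753]
  · rw [compl_image_753, e.injective.mem_set_image]; exact ha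
  · rw [aset_image_753, compl_image_753, ccIn_image_753, ← e.image_closure,
      ← Set.image_inter e.injective]
    exact hsub.image _

end Pool.Agent.Helper548.HB
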