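import Pool.Agent.Helper548.HB.Defs
import Pool.Agent.Helper548.HB.P_e_cend_ex
import Pool.Agent.Helper548.HB.P_e_approx
import Pool.Agent.Helper548.HB.P_m_cases
import Pool.Agent.Helper548.HB.P_m_basis
import Pool.Agent.Helper548.HB.P_g_comp_gen
import Pool.Agent.Helper548.HB.P_g_wild_conv
import Pool.Agent.Helper548.HB.P_g_line
import Pool.Agent.Helper548.HB.P_aset_symm
import Pool.Agent.Helper548.HB.P_g_A_sup

set_option autoImplicit false

/-! Hyperbolic spaces, Gromov boundaries, hierarchically hyperbolic spaces and groups, the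
hierarchically hyperbolic boundary and its topology. -/

namespace Pool.Agent.Helper548.HB



theorem inv_one_line (D : GData) (RG : Realz D.Γ D.G) (RT : Realz TG H) (x : D.Q) (h : H)
    (a : MPt D RG RT) (ha : (∃ ξ r b, a = .arc x ξ r ∧ IsCEnd RT h b ξ) ∨
      ∃ v, a.away x v ∧ ∃ j : ℤ, v.1 = h * FreeGroup.of true ^ j)
    (hsub : (@closure _ (mTop 1 D RG RT) (@Aset _ (mTop 1 D RG RT)
      (MPt.pole x true : MPt D RG RT) (MPt.pole x false)) ∩
      @connectedComponentIn _ (mTop 1 D RG RT)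
        ({MPt.pole x true, MPt.pole x false} : Set (MPt D RG RT))ᶜ a).Subsingleton) : False := by
  let _ : TopologicalSpace (MPt D RG RT) := mTop 1 D RG RT
  obtain ⟨ξ1, h1⟩ := e_cend_ex RT h true
  obtain ⟨ξ2, h2⟩ := e_cend_ex RT h false
  have hA1 := g_A_sup 1 D RG RT x ξ1 h true h1
  have hA2 := g_A_sup 1 D RG RT x ξ2 h false h2
  have hl := g_line 1 D RG RT x h a ha
  have hm1 : (MPt.arc x ξ1 (sgb true * 1) : MPt D RG RT) ∈ @connectedComponentIn _ (mTop 1 D RG RT)
        ({MPt.pole x true, MPt.pole x false} : Set (MPt D RG RT))ᶜ a := by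
    rw [hl]
    exact Or.inl ⟨ξ1, _, true, rfl, h1⟩
  have hm2 : (MPt.arc x ξ2 (sgb false * 1) : MPt D RG RT) ∈ @connectedComponentIn _ (mTop 1 D RG RT)
        ({MPt.pole x true, MPt.pole x false} : Set (MPt D RG RT))ᶜ a := by
    rw [hl]
    exact Or.inl ⟨ξ2, _, false, rfl, h2⟩
  have he := hsub ⟨subset_closure hA1, hm1⟩ ⟨subset_closure hA2, hm2⟩
  rw [MPt.arc.injEq] at he
  have := he.2.2
  simp [sgb] at this
  linarith

theorem inv_one_clos (D : GData) (RG : Realz D.Γ D.G) (RT : Realz TG H) (x : D.Q)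
    (ξ : Boundary RT.X) (b : Bool) :
    (MPt.arc x ξ (sgb b * 1) : MPt D RG RT) ∈ @closure _ (mTop 1 D RG RT)
      (@Aset _ (mTop 1 D RG RT) (MPt.pole x true : MPt D RG RT) (MPt.pole x false)) := by
  let _ : TopologicalSpace (MPt D RG RT) := mTop 1 D RG RT
  rw [mem_closure_iff_nhds_basis (m_basis 1 (MPt.arc x ξ (sgb b * 1) : MPt D RG RT))]
  rintro ⟨R, ε⟩ hε
  obtain ⟨h, hh⟩ := e_approx RT ξ R
  obtain ⟨ξ', hξ'⟩ := e_cend_ex RT h b
  refine ⟨MPt.arc x ξ' (sgb b * 1), g_A_sup 1 D RG RT x ξ' h b hξ', ?_⟩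
  refine Or.inl ⟨ξ', _, rfl, hh b ξ' hξ', ?_⟩
  rw [sub_self, abs_zero]
  exact hε

theorem inv_one_main (D : GData) (RG : Realz D.Γ D.G) (RT : Realz TG H) (x : D.Q)
    (a : MPt D RG RT) (ha : a ∈ ({MPt.pole x true, MPt.pole x false} : Set (MPt D RG RT))ᶜ)
    (hsub : (@closure _ (mTop 1 D RG RT) (@Aset _ (mTop 1 D RG RT)
      (MPt.pole x true : MPt D RG RT) (MPt.pole x false)) ∩
      @connectedComponentIn _ (mTop 1 D RG RT)
        ({MPt.pole x true, MPt.pole x false} : Set (MPt D RG RT))ᶜ a).Subsingleton) : False := by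
  rcases m_cases a x with hat | ⟨v, hv⟩
  · cases a with
    | lim ω => exact hat
    | pole z b =>
      have hz : z = x := hat
      subst hz
      apply ha
      cases b
      · exact Or.inr rfl
      · exact Or.inl rfl
    | arc z ξ r =>
      have hz : z = x := hat
      subst hz
      by_cases hg : Generic RT ξ
      · have hc := g_comp_gen 1 D RG RT z ξ hg r
        have hm : ∀ b, (MPt.arc z ξ (sgb b * 1) : MPt D RG RT) ∈
            @connectedComponentIn _ (mTop 1 D RG RT)
            ({MPt.pole z true, MPt.pole z false} : Set (MPt D RG RT))ᶜ (MPt.arc z ξ r) := by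
          intro b
          rw [hc]
          exact ⟨_, rfl⟩
        have he := hsub ⟨inv_one_clos D RG RT z ξ true, hm true⟩
          ⟨inv_one_clos D RG RT z ξ false, hm false⟩
        rw [MPt.arc.injEq] at he
        have := he.2.2
        simp [sgb] at this
        linarith
      · unfold Generic at hg
        push Not at hg
        obtain ⟨h, b, hb⟩ := hg
        exact inv_one_line D RG RT z h _ (Or.inl ⟨ξ, r, b, rfl, hb⟩) hsub
  · exact inv_one_line D RG RT x v.1 a (Or.inr ⟨v, hv, 0, by simp⟩) hsub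

theorem inv_one (D : GData) (RG : Realz D.Γ D.G) (RT : Realz TG H) :
    ¬ @Inv (MPt D RG RT) (mTop 1 D RG RT) := by
  rintro ⟨p, q, hw, a, ha, hsub⟩
  obtain ⟨x, hx⟩ := g_wild_conv 1 D RG RT p q hw
  rcases hx with ⟨rfl, rfl⟩ | ⟨rfl, rfl⟩
  · exact inv_one_main D RG RT x a ha hsub
  · have hs := @aset_symm _ (mTop 1 D RG RT) (MPt.pole x false : MPt D RG RT) (MPt.pole x true)
    rw [hs, Set.pair_comm] at hsub
    rw [Set.pair_comm] at ha
    exact inv_one_main D RG RT x a ha hsub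

end Pool.Agent.Helper548.HB
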