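import Pool.Agent.Helper548.HB.Defs
import Pool.Agent.Helper548.HB.P_e_uncount
import Pool.Agent.Helper548.HB.P_g_E0
import Pool.Agent.Helper548.HB.P_g_comp_gen
import Pool.Agent.Helper548.HB.P_g_wild
import Pool.Agent.Helper548.HB.P_g_A_sub

set_option autoImplicit false

/-! Hyperbolic spaces, Gromov boundaries, hierarchically hyperbolic spaces and groups, the
hierarchically hyperbolic boundary and its topology. -/

namespace Pool.Agent.Helper548.HB



theorem inv_zero (D : GData) (RG : Realz D.Γ D.G) (RT : Realz TG H) :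
    @Inv (MPt D RG RT) (mTop 0 D RG RT) := by
  letI : TopologicalSpace (MPt D RG RT) := mTop 0 D RG RT
  let x : D.Q := ((1 : D.G) : D.Q)
  have hne : {ξ : Boundary RT.X | Generic RT ξ}.Nonempty := by
    by_contra h
    rw [Set.not_nonempty_iff_eq_empty] at h
    exact e_uncount RT (by rw [h]; exact Set.countable_empty)
  obtain ⟨ξ, hξ⟩ := hne
  have hsub : closure (Aset (MPt.pole x true : MPt D RG RT) (MPt.pole x false)) ⊆
      {q : MPt D RG RT | ∃ ξ, q = MPt.arc x ξ 0} := by
    refine closure_minimal (fun q hq => ?_) (g_E0 0 D RG RT x)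
    obtain ⟨ξ', h, b, e, _⟩ := g_A_sub 0 D RG RT x hq
    exact ⟨ξ', by rw [e, mul_zero]⟩
  refine ⟨MPt.pole x true, MPt.pole x false, g_wild 0 D RG RT x, MPt.arc x ξ 0, ?_, ?_⟩
  · intro h
    rcases h with h | h
    · injection h
    · have h' : MPt.arc x ξ 0 = (MPt.pole x false : MPt D RG RT) := h
      injection h'
  · rw [g_comp_gen 0 D RG RT x ξ hξ 0]
    rintro q ⟨h1, r1, rfl⟩ q' ⟨h2, r2, rfl⟩
    obtain ⟨ξ1, e1⟩ := hsub h1
    obtain ⟨ξ2, e2⟩ := hsub h2
    injection e1 with _ _ e3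
    injection e2 with _ _ e4
    rw [e3, e4]

end Pool.Agent.Helper548.HB
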