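import Pool.Agent.Helper548.HB.Defs

set_option autoImplicit false

/-! Hyperbolic spaces, Gromov boundaries, hierarchically hyperbolic spaces and groups, the
hierarchically hyperbolic boundary and its topology. -/

namespace Pool.Agent.Helper548.HB



theorem lamv_bound (L : List (Bool × Bool)) :
    |(psi (FreeGroup.mk L)).toAdd| ≤ (L.length : ℤ) := by
  unfold psi
  rw [FreeGroup.lift_mk]
  induction L with
  | nil => simp
  | cons x L ih =>
    rw [List.map_cons, List.prod_cons, toAdd_mul, List.length_cons]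
    push_cast
    refine (abs_add_le _ _).trans ?_
    have : |(cond x.2 (if x.1 then Multiplicative.ofAdd (1:ℤ) else 1)
        (if x.1 then Multiplicative.ofAdd (1:ℤ) else 1)⁻¹).toAdd| ≤ 1 := by
      rcases x with ⟨a, b⟩
      cases a <;> cases b <;> simp
    linarith

theorem lam_vsz (t : ℝ) (u v : V) : |lam t u - lam t v| ≤ (1 + |t|) * vsz (u⁻¹ * v) := by
  have h1 : lam t u - lam t v = -(lam t (u⁻¹ * v)) := by
    unfold lam
    simp only [Prod.fst_mul, Prod.snd_mul, Prod.fst_inv, Prod.snd_inv, map_mul, map_inv, toAdd_mul,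
      toAdd_inv]
    push_cast
    ring
  rw [h1, abs_neg]
  generalize u⁻¹ * v = w
  have h2 := lamv_bound w.1.toWord
  rw [FreeGroup.mk_toWord] at h2
  have h3 : |((psi w.1).toAdd : ℝ)| ≤ (FreeGroup.norm w.1 : ℝ) := by
    have : ((|(psi w.1).toAdd| : ℤ) : ℝ) ≤ ((w.1.toWord.length : ℤ) : ℝ) := by exact_mod_cast h2
    rw [Int.cast_abs] at this
    simpa [FreeGroup.norm] using this
  have h4 : |(w.2.toAdd : ℝ)| = (w.2.toAdd.natAbs : ℝ) := by
    rw [Nat.cast_natAbs, Int.cast_abs]
  unfold lam vsz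
  refine (abs_add_le _ _).trans ?_
  rw [abs_mul, h4]
  push_cast
  have h5 : 0 ≤ |t| := abs_nonneg t
  have h6 : (0 : ℝ) ≤ (w.2.toAdd.natAbs : ℝ) := by positivity
  have h7 : (0 : ℝ) ≤ (FreeGroup.norm w.1 : ℝ) := by positivity
  have h8 := mul_le_mul_of_nonneg_left h3 h5
  nlinarith [mul_nonneg h5 h6]

end Pool.Agent.Helper548.HB
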