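import Pool.Agent.Helper548.HB.Defs
import Pool.Agent.Helper548.HB.P_wlen_iota

set_option autoImplicit false

/-! Hyperbolic spaces, Gromov boundaries, hierarchically hyperbolic spaces and groups, the
hierarchically hyperbolic boundary and its topology. -/

namespace Pool.Agent.Helper548.HB



theorem norm_c_pow (n : ℕ) : FreeGroup.norm ((FreeGroup.of true : H) ^ n) = n := by
  rw [FreeGroup.norm, FreeGroup.toWord_of_pow, List.length_replicate]

theorem wd_iota (D : GData) (u v : V) :
    wd D.gens (D.ι u) (D.ι v) =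
      (FreeGroup.norm (u.1⁻¹ * v.1) : ℝ) + ((u.2⁻¹ * v.2).toAdd.natAbs : ℝ) := by
  unfold wd
  rw [← map_inv, ← map_mul, wlen_iota]
  push_cast
  rfl

theorem not_hyp (D : GData) : ¬ HypCayley D.gens := by
  rintro ⟨δ, hδ⟩
  obtain ⟨n, hn⟩ := exists_nat_gt |δ|
  have h := hδ (D.ι 1) (D.ι ((FreeGroup.of true : H) ^ n, Multiplicative.ofAdd (n : ℤ)))
    (D.ι ((FreeGroup.of true : H) ^ n, 1)) (D.ι (1, Multiplicative.ofAdd (n : ℤ)))
  simp only [wd_iota] at h
  have e1 : (1 : V).1 = 1 := rfl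
  have e2 : (1 : V).2 = 1 := rfl
  simp only [e1, e2, inv_one, one_mul, mul_one, inv_mul_cancel, norm_c_pow, FreeGroup.norm_inv_eq,
    FreeGroup.norm_one, toAdd_one, toAdd_ofAdd, toAdd_inv, Int.natAbs_neg, Int.natAbs_natCast,
    Int.natAbs_zero, Nat.cast_zero, add_zero, zero_add] at h
  rw [max_self] at h
  have := le_abs_self δ
  have := abs_nonneg δ
  linarith

end Pool.Agent.Helper548.HB
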