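import Pool.Agent.Helper548.HB.Core
set_option autoImplicit false

namespace Pool.Agent.Helper548.HB

theorem wl_exists {G : Type} [Group G] (S : Finset G) (hS : Subgroup.closure (S : Set G) = ⊤)
    (g : G) : ∃ l : List G, l.length = wlen S g ∧ (∀ x ∈ l, x ∈ S ∨ x⁻¹ ∈ S) ∧ l.prod = g := by
  have hg : g ∈ Subgroup.closure (S : Set G) := by
    rw [hS]
    exact Subgroup.mem_top g
  have hg' : g ∈ (Subgroup.closure (S : Set G)).toSubmonoid := hg
  rw [Subgroup.closure_toSubmonoid] at hg'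
  obtain ⟨l, hl0, hlg⟩ := Submonoid.exists_list_of_mem_closure hg'
  have hl : ∀ x ∈ l, x ∈ (S : Set G) ∨ x⁻¹ ∈ (S : Set G) := fun x hx => by
    rcases hl0 x hx with h | h
    · exact Or.inl h
    · exact Or.inr h
  have hne : {n | ∃ l : List G, l.length = n ∧ (∀ x ∈ l, x ∈ S ∨ x⁻¹ ∈ S) ∧ l.prod = g}.Nonempty :=
    ⟨l.length, l, rfl, fun x hx => by simpa using hl x hx, hlg⟩
  exact Nat.sInf_mem hne

theorem wl_le {G : Type} [Group G] (S : Finset G) (l : List G) (hl : ∀ x ∈ l, x ∈ S ∨ x⁻¹ ∈ S) :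
    wlen S l.prod ≤ l.length := Nat.sInf_le ⟨l, rfl, hl, rfl⟩

theorem wl_mul {G : Type} [Group G] (S : Finset G) (hS : Subgroup.closure (S : Set G) = ⊤)
    (g h : G) : wlen S (g * h) ≤ wlen S g + wlen S h := by
  obtain ⟨l, hl, hlS, rfl⟩ := wl_exists S hS g
  obtain ⟨m, hm, hmS, rfl⟩ := wl_exists S hS h
  rw [← List.prod_append, ← hl, ← hm, ← List.length_append]
  apply wl_le
  intro x hx
  rcases List.mem_append.mp hx with h | h
  · exact hlS x h
  · exact hmS x h

theorem wl_one {G : Type} [Group G] (S : Finset G) : wlen S (1 : G) = 0 := by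
  have := wl_le S [] (by simp)
  simpa using this

theorem wl_inv_le {G : Type} [Group G] (S : Finset G) (hS : Subgroup.closure (S : Set G) = ⊤)
    (g : G) : wlen S g⁻¹ ≤ wlen S g := by
  obtain ⟨l, hl, hlS, rfl⟩ := wl_exists S hS g
  rw [← hl, List.prod_inv_reverse]
  refine (wl_le S _ ?_).trans (le_of_eq (by simp))
  intro x hx
  rw [List.mem_reverse, List.mem_map] at hx
  obtain ⟨y, hy, rfl⟩ := hx
  rcases hlS y hy with h | h
  · right
    rwa [inv_inv]
  · left
    exact h

/-- comparison of the word lengths of two finite generating sets -/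
theorem wlen_comp {G : Type} [Group G] (S S' : Finset G) (hS : Subgroup.closure (S : Set G) = ⊤)
    (hS' : Subgroup.closure (S' : Set G) = ⊤) :
    ∃ C : ℝ, 0 < C ∧ ∀ g : G, (wlen S g : ℝ) ≤ C * wlen S' g := by
  classical
  obtain ⟨K, hK⟩ : ∃ K, K = ∑ s ∈ S', wlen S s := ⟨_, rfl⟩
  have hx : ∀ x : G, x ∈ S' ∨ x⁻¹ ∈ S' → wlen S x ≤ K := by
    have h1 : ∀ x ∈ S', wlen S x ≤ K := by
      intro x hx
      rw [hK]
      exact Finset.single_le_sum (f := fun s => wlen S s) (fun i _ => Nat.zero_le _) hx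
    intro x hx
    rcases hx with hx | hx
    · exact h1 x hx
    · have h2 := wl_inv_le S hS x⁻¹
      rw [inv_inv] at h2
      exact h2.trans (h1 _ hx)
  have hlist : ∀ l : List G, (∀ x ∈ l, x ∈ S' ∨ x⁻¹ ∈ S') → wlen S l.prod ≤ K * l.length := by
    intro l
    induction l with
    | nil =>
      intro _
      rw [List.prod_nil, wl_one]
      exact Nat.zero_le _
    | cons a l ih =>
      intro hl
      rw [List.prod_cons, List.length_cons]
      have h1 := wl_mul S hS a l.prod
      have h2 := ih (fun x hx => hl x (List.mem_cons_of_mem _ hx))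
      have h3 := hx a (hl a List.mem_cons_self)
      calc wlen S (a * l.prod) ≤ wlen S a + wlen S l.prod := h1
        _ ≤ K + K * l.length := Nat.add_le_add h3 h2
        _ = K * (l.length + 1) := by ring
  refine ⟨(K : ℝ) + 1, by positivity, fun g => ?_⟩
  obtain ⟨l, hl, hlS, hlg⟩ := wl_exists S' hS' g
  have h1 := hlist l hlS
  rw [hlg, hl] at h1
  have h2 : (wlen S g : ℝ) ≤ K * wlen S' g := by exact_mod_cast h1
  have h3 : (0:ℝ) ≤ wlen S' g := Nat.cast_nonneg _
  linarith


/-- elementary properties of the word length -/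
theorem wlen_basic {G : Type} [Group G] (S : Finset G) (hS : Subgroup.closure (S : Set G) = ⊤) :
    (∀ g h : G, wlen S (g * h) ≤ wlen S g + wlen S h) ∧ (∀ g : G, wlen S g⁻¹ = wlen S g) ∧
    wlen S (1 : G) = 0 := by
  refine ⟨wl_mul S hS, fun g => ?_, wl_one S⟩
  apply le_antisymm (wl_inv_le S hS g)
  have h := wl_inv_le S hS g⁻¹
  rwa [inv_inv] at h


end Pool.Agent.Helper548.HB
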