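import Mathlib
set_option autoImplicit false

namespace Pool.Agent.Helper548.HB

open Filter Topology in
/-- There is no subadditive symmetric function on ℤ × ℤ, bounded below by a multiple of the l1 norm,
with the four point inequality of a hyperbolic space. -/
theorem z2_norm (f : ℤ × ℤ → ℝ) (κ δ : ℝ) (hκ : 0 < κ)
    (hsub : ∀ u v, f (u + v) ≤ f u + f v) (hneg : ∀ u, f (-u) = f u)
    (hlow : ∀ u : ℤ × ℤ, κ * (|(u.1 : ℝ)| + |(u.2 : ℝ)|) ≤ f u)
    (h4 : ∀ u v, f (u + v) + f (u - v) ≤ 2 * max (f u) (f v) + δ) : False := by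
  have hf0 : ∀ u, 0 ≤ f u := fun u => le_trans (by positivity) (hlow u)
  have hex : ∀ u : ℤ × ℤ, ∃ L : ℝ, Tendsto (fun n : ℕ => f (n • u) / n) atTop (𝓝 L) := by
    intro u
    have hs : Subadditive (fun n : ℕ => f (n • u)) := by
      intro m n
      show f ((m + n) • u) ≤ f (m • u) + f (n • u)
      rw [add_smul]
      exact hsub _ _
    refine ⟨hs.lim, hs.tendsto_lim ⟨0, ?_⟩⟩
    rintro _ ⟨n, rfl⟩
    exact div_nonneg (hf0 _) (Nat.cast_nonneg _)
  choose N hN using hex
  have ha : ∀ u : ℤ × ℤ, κ * (|(u.1 : ℝ)| + |(u.2 : ℝ)|) ≤ N u := by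
    intro u
    refine ge_of_tendsto (hN u) ?_
    filter_upwards [eventually_ge_atTop 1] with n hn
    have hn0 : (0:ℝ) < n := by exact_mod_cast hn
    rw [le_div_iff₀ hn0]
    have h1 := hlow (n • u)
    have e1 : (((n • u).1 : ℤ) : ℝ) = n * u.1 := by simp
    have e2 : (((n • u).2 : ℤ) : ℝ) = n * u.2 := by simp
    rw [e1, e2, abs_mul, abs_mul, abs_of_pos hn0] at h1
    calc κ * (|(u.1 : ℝ)| + |(u.2 : ℝ)|) * n = κ * (n * |(u.1 : ℝ)| + n * |(u.2 : ℝ)|) := by ring
      _ ≤ f (n • u) := h1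
  have hb : ∀ u v : ℤ × ℤ, N (u + v) + N (u - v) ≤ 2 * max (N u) (N v) := by
    intro u v
    have t1 := (hN (u + v)).add (hN (u - v))
    have t2 : Tendsto (fun n : ℕ => 2 * max (f (n • u) / n) (f (n • v) / n) + δ / n) atTop
        (𝓝 (2 * max (N u) (N v) + 0)) :=
      (((hN u).max (hN v)).const_mul 2).add (tendsto_const_div_atTop_nhds_zero_nat δ)
    rw [add_zero] at t2
    refine le_of_tendsto_of_tendsto t1 t2 ?_
    filter_upwards [eventually_ge_atTop 1] with n hn
    have hn0 : (0:ℝ) < n := by exact_mod_cast hn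
    rw [max_div_div_right hn0.le, ← add_div, ← mul_div_assoc, ← add_div,
      div_le_div_iff_of_pos_right hn0, smul_add, smul_sub]
    exact h4 _ _
  have hc : ∀ (k : ℕ) (u : ℤ × ℤ), N (k • u) = k * N u := by
    intro k u
    rcases Nat.eq_zero_or_pos k with rfl | hk
    · rw [zero_smul, Nat.cast_zero, zero_mul]
      have t1 := hN 0
      have t2 : Tendsto (fun n : ℕ => f (n • (0 : ℤ × ℤ)) / n) atTop (𝓝 0) := by
        simp only [smul_zero]
        exact tendsto_const_div_atTop_nhds_zero_nat _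
      exact tendsto_nhds_unique t1 t2
    · have hk0 : (0:ℝ) < k := by exact_mod_cast hk
      have hkt : Tendsto (fun n : ℕ => n * k) atTop atTop :=
        tendsto_id.atTop_mul_const' hk
      have t1 := ((hN u).comp hkt).const_mul (k:ℝ)
      refine tendsto_nhds_unique (hN (k • u)) (t1.congr' ?_)
      filter_upwards [eventually_ge_atTop 1] with n hn
      have hn0 : (0:ℝ) < n := by exact_mod_cast hn
      show (k:ℝ) * (f ((n * k) • u) / ((n * k : ℕ) : ℝ)) = f (n • (k • u)) / n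
      rw [mul_smul]
      push_cast
      field_simp
  have hd : ∀ u v : ℤ × ℤ, N u + N v ≤ max (N (u + v)) (N (u - v)) := by
    intro u v
    have h1 := hb (u + v) (u - v)
    have e1 : u + v + (u - v) = (2:ℕ) • u := by rw [two_smul]; abel
    have e2 : u + v - (u - v) = (2:ℕ) • v := by rw [two_smul]; abel
    rw [e1, e2, hc, hc] at h1
    push_cast at h1
    linarith
  set a := N (1, 0) with haN
  set b := N (0, 1) with hbN
  have ha0 : 0 < a := by
    have := ha (1, 0)
    simp at this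
    linarith
  have hb0 : 0 < b := by
    have := ha (0, 1)
    simp at this
    linarith
  obtain ⟨i, hi⟩ := exists_nat_gt (b / κ)
  rw [div_lt_iff₀ hκ] at hi
  set j : ℕ := ⌊(i:ℝ) * a / b⌋₊ with hj
  have hj1 : (j:ℝ) * b ≤ i * a := by
    have := Nat.floor_le (show 0 ≤ (i:ℝ) * a / b by positivity)
    rwa [le_div_iff₀ hb0] at this
  have hj2 : (i:ℝ) * a < (j + 1) * b := by
    have := Nat.lt_floor_add_one ((i:ℝ) * a / b)
    rwa [div_lt_iff₀ hb0] at this
  have hu : N (((i:ℤ), 0) : ℤ × ℤ) = i * a := by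
    have := hc i (1, 0)
    rw [← haN] at this
    rw [← this]
    congr 1
    ext <;> simp
  have hv : N ((0, (j:ℤ)) : ℤ × ℤ) = j * b := by
    have := hc j (0, 1)
    rw [← hbN] at this
    rw [← this]
    congr 1
    ext <;> simp
  have h1 := hb (((i:ℤ), 0) : ℤ × ℤ) (0, (j:ℤ))
  have h2 := hd (((i:ℤ), 0) : ℤ × ℤ) (0, (j:ℤ))
  have h3 := ha ((((i:ℤ), 0) : ℤ × ℤ) + (0, (j:ℤ)))
  have h5 := ha ((((i:ℤ), 0) : ℤ × ℤ) - (0, (j:ℤ)))
  rw [hu, hv] at h1 h2
  simp at h3 h5
  set p := N ((((i:ℤ), 0) : ℤ × ℤ) + (0, (j:ℤ))) with hp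
  set q := N ((((i:ℤ), 0) : ℤ × ℤ) - (0, (j:ℤ))) with hq
  have hp' : N ((i:ℤ), (j:ℤ)) = p := by rw [hp]; congr 1; simp
  have hq' : N ((i:ℤ), -(j:ℤ)) = q := by rw [hq]; congr 1; simp
  have hij : b < κ * (i + j) := by
    have : 0 ≤ κ * (j:ℝ) := by positivity
    nlinarith
  have k1 : b < p := by
    try rw [hp'] at h3
    linarith
  have k2 : b < q := by
    try rw [hq'] at h5
    linarith
  have k3 : 2 * max ((i:ℝ) * a) (j * b) ≤ i * a + j * b + b := by
    rw [max_eq_left hj1]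
    linarith
  rcases max_cases p q with ⟨h, -⟩ | ⟨h, -⟩
  · rw [h] at h2
    linarith
  · rw [h] at h2
    linarith

end Pool.Agent.Helper548.HB
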