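import Pool.Agent.Helper548.HB.Defs
import Pool.Agent.Helper548.HB.P_wlen_iota
import Pool.Agent.Helper548.HB.P_gens_top
import Pool.Agent.Helper548.HB.P_z2_norm
import Pool.Agent.Helper548.HB.P_wlen_comp
set_option autoImplicit false

namespace Pool.Agent.Helper548.HB

/-! TARGET -/

theorem nh_norm (n : ℤ) : FreeGroup.norm ((FreeGroup.of true : H) ^ n) = n.natAbs := by
  have h1 : ∀ m : ℕ, FreeGroup.norm ((FreeGroup.of true : H) ^ m) = m := by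
    intro m
    rw [FreeGroup.norm, FreeGroup.toWord_of_pow]
    simp
  obtain ⟨m, rfl | rfl⟩ := n.eq_nat_or_neg
  · rw [zpow_natCast, h1]; simp
  · rw [zpow_neg, FreeGroup.norm_inv_eq, zpow_natCast, h1]; simp

theorem nh_comm : Commute gc gz := by
  show gc * gz = gz * gc
  unfold gc gz
  ext1 <;> simp

/-- auxiliary -/
noncomputable def nhE (u : ℤ × ℤ) : V := gc ^ u.1 * gz ^ u.2

theorem nhE_add (u v : ℤ × ℤ) : nhE (u + v) = nhE u * nhE v := by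
  unfold nhE
  have h1 : gz ^ u.2 * gc ^ v.1 = gc ^ v.1 * gz ^ u.2 := ((nh_comm.zpow_zpow v.1 u.2).eq).symm
  rw [Prod.fst_add, Prod.snd_add, zpow_add, zpow_add]
  calc gc ^ u.1 * gc ^ v.1 * (gz ^ u.2 * gz ^ v.2) = gc ^ u.1 * (gc ^ v.1 * gz ^ u.2) * gz ^ v.2 := by
        simp only [mul_assoc]
    _ = gc ^ u.1 * (gz ^ u.2 * gc ^ v.1) * gz ^ v.2 := by rw [h1]
    _ = _ := by simp only [mul_assoc]

theorem nhE_zero : nhE 0 = 1 := by simp [nhE]

theorem nhE_neg (u : ℤ × ℤ) : nhE (-u) = (nhE u)⁻¹ := by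
  rw [eq_inv_iff_mul_eq_one, ← nhE_add, neg_add_cancel, nhE_zero]

theorem nhE_size (u : ℤ × ℤ) :
    FreeGroup.norm (nhE u).1 + (nhE u).2.toAdd.natAbs = u.1.natAbs + u.2.natAbs := by
  have h1 : (nhE u).1 = (FreeGroup.of true : H) ^ u.1 := by
    simp [nhE, gc, gz]
  have h2 : (nhE u).2 = Multiplicative.ofAdd u.2 := by
    simp only [nhE, gc, gz, Prod.snd_mul, Prod.pow_snd, one_zpow, one_mul]
    rw [← ofAdd_zsmul]; simp
  rw [h1, h2, nh_norm]; rfl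

theorem not_hyp_all (D : GData) (S' : Finset D.G) (hS' : Subgroup.closure (S' : Set D.G) = ⊤) :
    ¬ HypCayley S' := by
  rintro ⟨δ, hδ⟩
  obtain ⟨C, hC, hcomp⟩ := wlen_comp D.gens S' (gens_top D) hS'
  obtain ⟨hb1, hb2, -⟩ := wlen_basic S' hS'
  have hneg : ∀ u : ℤ × ℤ, (wlen S' (D.ι (nhE (-u))) : ℝ) = (wlen S' (D.ι (nhE u)) : ℝ) := by
    intro u
    rw [nhE_neg, map_inv, hb2]
  have hwd : ∀ u v : ℤ × ℤ, wd S' (D.ι (nhE u)) (D.ι (nhE v)) = (wlen S' (D.ι (nhE (-u + v))) : ℝ) := by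
    intro u v
    unfold wd
    rw [nhE_add, nhE_neg, map_mul, map_inv]
  refine z2_norm (fun u => (wlen S' (D.ι (nhE u)) : ℝ)) (1 / C) δ (by positivity) ?_ hneg ?_ ?_
  · intro u v
    simp only [nhE_add, map_mul]
    exact_mod_cast hb1 _ _
  · intro u
    have h1 := hcomp (D.ι (nhE u))
    rw [wlen_iota, nhE_size] at h1
    have h2 : ((u.1.natAbs + u.2.natAbs : ℕ) : ℝ) = |(u.1 : ℝ)| + |(u.2 : ℝ)| := by
      push_cast
      rw [Nat.cast_natAbs, Nat.cast_natAbs]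
      push_cast
      rfl
    rw [h2] at h1
    show 1 / C * _ ≤ _
    rw [one_div, inv_mul_le_iff₀ hC]
    exact h1
  · intro u v
    have h1 := hδ (D.ι (nhE 0)) (D.ι (nhE (u + v))) (D.ι (nhE u)) (D.ι (nhE v))
    rw [hwd, hwd, hwd, hwd, hwd, hwd] at h1
    have e1 : -(0 : ℤ × ℤ) + (u + v) = u + v := by simp
    have e2 : -u + v = -(u - v) := by abel
    have e3 : -(0 : ℤ × ℤ) + u = u := by simp
    have e4 : -(u + v) + v = -u := by abel
    have e5 : -(0 : ℤ × ℤ) + v = v := by simp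
    have e6 : -(u + v) + u = -v := by abel
    rw [e1, e2, e3, e4, e5, e6, hneg, hneg, hneg] at h1
    show (wlen S' (D.ι (nhE (u + v))) : ℝ) + (wlen S' (D.ι (nhE (u - v))) : ℝ) ≤
      2 * max (wlen S' (D.ι (nhE u)) : ℝ) (wlen S' (D.ι (nhE v)) : ℝ) + δ
    have e7 : max ((wlen S' (D.ι (nhE u)) : ℝ) + (wlen S' (D.ι (nhE u)) : ℝ))
        ((wlen S' (D.ι (nhE v)) : ℝ) + (wlen S' (D.ι (nhE v)) : ℝ)) =
        2 * max (wlen S' (D.ι (nhE u)) : ℝ) (wlen S' (D.ι (nhE v)) : ℝ) := by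
      rw [← two_mul, ← two_mul, mul_max_of_nonneg _ _ (by norm_num : (0:ℝ) ≤ 2)]
    rw [e7] at h1
    exact h1

end Pool.Agent.Helper548.HB
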