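import Pool.Agent.Helper548.HB.Defs

set_option autoImplicit false

/-! Hyperbolic spaces, Gromov boundaries, hierarchically hyperbolic spaces and groups, the
hierarchically hyperbolic boundary and its topology. -/

namespace Pool.Agent.Helper548.HB



theorem smul_adj_aux (D : GData) (g : D.G) (x y : D.Q) (h : D.Γ.Adj x y) :
    D.Γ.Adj (g • x) (g • y) := by
  obtain ⟨k, hx, hy⟩ := h
  refine ⟨g * k, ?_, ?_⟩
  · rw [hx]; rfl
  · rw [hy, mul_assoc]; rfl

theorem smul_adj (D : GData) (g : D.G) (x y : D.Q) : D.Γ.Adj (g • x) (g • y) ↔ D.Γ.Adj x y := by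
  constructor
  · intro h
    have := smul_adj_aux D g⁻¹ _ _ h
    rwa [inv_smul_smul, inv_smul_smul] at this
  · exact smul_adj_aux D g x y

end Pool.Agent.Helper548.HB
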