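import Pool.Agent.Helper548.HB.Defs

set_option autoImplicit false

/-! Hyperbolic spaces, Gromov boundaries, hierarchically hyperbolic spaces and groups, the
hierarchically hyperbolic boundary and its topology. -/

namespace Pool.Agent.Helper548.HB


theorem h396_psi_list (L : List (Bool × Bool)) :
    |((psi (FreeGroup.mk L)).toAdd : ℤ)| ≤ L.length := by
  induction L with
  | nil =>
    have e : psi (FreeGroup.mk []) = 1 := by
      rw [← FreeGroup.one_eq_mk, map_one]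
    rw [e]
    simp
  | cons x L ih =>
    have e1 : FreeGroup.mk (x :: L) = FreeGroup.mk [x] * FreeGroup.mk L := by
      rw [FreeGroup.mul_mk]
      rfl
    rw [e1, map_mul, toAdd_mul]
    have h1 : |((psi (FreeGroup.mk [x])).toAdd : ℤ)| ≤ 1 := by
      unfold psi
      rw [FreeGroup.lift_mk]
      obtain ⟨b, e⟩ := x
      cases b <;> cases e <;> simp
    have h2 := abs_add_le ((psi (FreeGroup.mk [x])).toAdd) ((psi (FreeGroup.mk L)).toAdd)
    rw [List.length_cons]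
    push_cast
    linarith

theorem h396_psi_le (h : H) : |((psi h).toAdd : ℤ)| ≤ FreeGroup.norm h := by
  have h1 := h396_psi_list h.toWord
  rw [FreeGroup.mk_toWord] at h1
  exact h1

theorem vsz_lam (t : ℝ) (u v : V) :
    (vsz (u⁻¹ * v) : ℝ) ≤ (1 + |t|) * FreeGroup.norm (u.1⁻¹ * v.1) + |lam t u - lam t v| := by
  have h1 := h396_psi_le (u.1⁻¹ * v.1)
  have e1 : (psi (u.1⁻¹ * v.1)).toAdd = (psi v.1).toAdd - (psi u.1).toAdd := by
    rw [map_mul, map_inv, toAdd_mul, toAdd_inv]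
    ring
  rw [e1] at h1
  have h1' : |((psi v.1).toAdd : ℝ) - ((psi u.1).toAdd : ℝ)| ≤ (FreeGroup.norm (u.1⁻¹ * v.1) : ℝ) := by
    exact_mod_cast h1
  have e2 : (vsz (u⁻¹ * v) : ℝ) = (FreeGroup.norm (u.1⁻¹ * v.1) : ℝ) +
      |(v.2.toAdd : ℝ) - (u.2.toAdd : ℝ)| := by
    have e3 : (u⁻¹ * v).1 = u.1⁻¹ * v.1 := rfl
    have e4 : ((u⁻¹ * v).2).toAdd = v.2.toAdd - u.2.toAdd := by
      have e5 : (u⁻¹ * v).2 = u.2⁻¹ * v.2 := rfl
      rw [e5, toAdd_mul, toAdd_inv]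
      ring
    unfold vsz
    rw [e3, e4]
    push_cast
    rw [Nat.cast_natAbs]
    push_cast
    rfl
  rw [e2]
  have e5 : (v.2.toAdd : ℝ) - (u.2.toAdd : ℝ) = -(lam t u - lam t v) -
      t * (((psi v.1).toAdd : ℝ) - ((psi u.1).toAdd : ℝ)) := by
    unfold lam
    ring
  have h2 : |(v.2.toAdd : ℝ) - (u.2.toAdd : ℝ)| ≤ |lam t u - lam t v| +
      |t| * |((psi v.1).toAdd : ℝ) - ((psi u.1).toAdd : ℝ)| := by
    rw [e5]
    refine (abs_sub _ _).trans ?_
    rw [abs_neg, abs_mul]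
  have h3 : |t| * |((psi v.1).toAdd : ℝ) - ((psi u.1).toAdd : ℝ)| ≤
      |t| * (FreeGroup.norm (u.1⁻¹ * v.1) : ℝ) := mul_le_mul_of_nonneg_left h1' (abs_nonneg _)
  have e6 : (1 + |t|) * (FreeGroup.norm (u.1⁻¹ * v.1) : ℝ) =
      (FreeGroup.norm (u.1⁻¹ * v.1) : ℝ) + |t| * (FreeGroup.norm (u.1⁻¹ * v.1) : ℝ) := by ring
  rw [e6]
  linarith

end Pool.Agent.Helper548.HB
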