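import Pool.Agent.Helper548.HB.Defs
import Pool.Agent.Helper548.HB.P_connected
import Pool.Agent.Helper548.HB.P_walk_avoid

set_option autoImplicit false

/-! Hyperbolic spaces, Gromov boundaries, hierarchically hyperbolic spaces and groups, the
hierarchically hyperbolic boundary and its topology. -/

namespace Pool.Agent.Helper548.HB



theorem x_bgi_step (D : GData) (RG : Realz D.Γ D.G) (x : D.Q) (γ : ℝ → RG.X) (l : ℝ)
    (hγ : IsGeod γ l) (hf : ∀ s ∈ Set.Icc (0 : ℝ) l, 5 < dist (γ s) (RG.ι x))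
    (s s' : ℝ) (hs : s ∈ Set.Icc (0 : ℝ) l) (hs' : s' ∈ Set.Icc (0 : ℝ) l) (hss : |s - s'| ≤ 1 / 4)
    (y y' : D.Q)
    (hy : dist (γ s) (RG.ι y) ≤ 1) (hy' : dist (γ s') (RG.ι y') ≤ 1) : D.cq x y = D.cq x y' := by
  classical
  have hd : (D.Γ.dist y y' : ℝ) ≤ 9 / 4 := by
    rw [← RG.dist_ι]
    have h1 := dist_triangle (RG.ι y) (γ s) (RG.ι y')
    have h2 := dist_triangle (γ s) (γ s') (RG.ι y')
    rw [dist_comm] at hy
    rw [hγ.2 s hs s' hs'] at h2
    linarith
  have hd2 : D.Γ.dist y y' ≤ 2 := by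
    by_contra h
    push Not at h
    have h3 : (3 : ℝ) ≤ (D.Γ.dist y y' : ℝ) := by exact_mod_cast h
    linarith
  have hx : 5 ≤ D.Γ.dist x y := by
    have h1 : (4 : ℝ) < (D.Γ.dist x y : ℝ) := by
      rw [← RG.dist_ι]
      have h2 := dist_triangle (γ s) (RG.ι y) (RG.ι x)
      have h3 := hf s hs
      rw [dist_comm (RG.ι y)] at h2
      linarith
    have h2 : (4 : ℕ) < D.Γ.dist x y := by exact_mod_cast h1
    exact h2
  obtain ⟨w, hw⟩ := (connected D).exists_walk_length_eq_dist y y'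
  refine walk_avoid D x y y' w (fun q hq => ?_)
  have h1 : D.Γ.dist y q ≤ 2 := by
    have h2 := SimpleGraph.dist_le (w.takeUntil q hq)
    have h3 := w.length_takeUntil_le_length hq
    omega
  have h4 := (connected D).dist_triangle (u := x) (v := q) (w := y)
  rw [SimpleGraph.dist_comm (u := q)] at h4
  omega

theorem x_bgi_chain (D : GData) (RG : Realz D.Γ D.G) (x : D.Q) (γ : ℝ → RG.X) (l : ℝ)
    (hγ : IsGeod γ l) (hf : ∀ s ∈ Set.Icc (0 : ℝ) l, 5 < dist (γ s) (RG.ι x)) (n : ℕ) :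
    ∀ (s s' : ℝ), s ∈ Set.Icc (0 : ℝ) l → s' ∈ Set.Icc (0 : ℝ) l → |s - s'| ≤ n / 4 →
    ∀ (y y' : D.Q), dist (γ s) (RG.ι y) ≤ 1 → dist (γ s') (RG.ι y') ≤ 1 →
      D.cq x y = D.cq x y' := by
  induction n with
  | zero =>
    intro s s' hs hs' hss y y' hy hy'
    refine x_bgi_step D RG x γ l hγ hf s s' hs hs' (hss.trans ?_) y y' hy hy'
    norm_num
  | succ n ih =>
    intro s s' hs hs' hss y y' hy hy'
    have hn : (0 : ℝ) < (n : ℝ) + 1 := by positivity
    have hn0 : (0 : ℝ) ≤ (n : ℝ) := by positivity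
    have hmem : ((n : ℝ) * s + s') / (n + 1) ∈ Set.Icc (0 : ℝ) l := by
      constructor
      · have h1 := hs.1
        have h2 := hs'.1
        positivity
      · rw [div_le_iff₀ hn]
        have h1 := mul_le_mul_of_nonneg_left hs.2 hn0
        have h2 := hs'.2
        linarith
    obtain ⟨y'', hy''⟩ := RG.dense (γ (((n : ℝ) * s + s') / (n + 1)))
    push_cast at hss
    have e1 : |s - ((n : ℝ) * s + s') / (n + 1)| ≤ 1 / 4 := by
      have e : s - ((n : ℝ) * s + s') / (n + 1) = (s - s') / (n + 1) := by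
        field_simp
        ring
      rw [e, abs_div, abs_of_pos hn, div_le_iff₀ hn]
      linarith
    have e2 : |((n : ℝ) * s + s') / (n + 1) - s'| ≤ n / 4 := by
      have e : ((n : ℝ) * s + s') / (n + 1) - s' = n * (s - s') / (n + 1) := by
        field_simp
        ring
      rw [e, abs_div, abs_of_pos hn, abs_mul, abs_of_nonneg hn0, div_le_iff₀ hn]
      have := mul_le_mul_of_nonneg_left hss hn0
      linarith
    exact (x_bgi_step D RG x γ l hγ hf s _ hs hmem e1 y y'' hy hy'').trans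
      (ih _ s' hmem hs' e2 y'' y' hy'' hy')

/-- along a geodesic far from x the gate in x is constant -/
theorem x_bgi_aux (D : GData) (RG : Realz D.Γ D.G) (x : D.Q) (γ : ℝ → RG.X) (l : ℝ)
    (hγ : IsGeod γ l) (hf : ∀ s ∈ Set.Icc (0 : ℝ) l, 5 < dist (γ s) (RG.ι x))
    (s s' : ℝ) (hs : s ∈ Set.Icc (0 : ℝ) l) (hs' : s' ∈ Set.Icc (0 : ℝ) l) (y y' : D.Q)
    (hy : dist (γ s) (RG.ι y) ≤ 1) (hy' : dist (γ s') (RG.ι y') ≤ 1) : D.cq x y = D.cq x y' := by
  obtain ⟨n, hn⟩ := exists_nat_ge (4 * |s - s'|)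
  exact x_bgi_chain D RG x γ l hγ hf n s s' hs hs' (by linarith) y y' hy hy'

end Pool.Agent.Helper548.HB
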