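import Pool.Agent.Helper548.HB.Defs
import Pool.Agent.Helper548.HB.P_x_bgi_aux

set_option autoImplicit false

/-! Hyperbolic spaces, Gromov boundaries, hierarchically hyperbolic spaces and groups, the
hierarchically hyperbolic boundary and its topology. -/

namespace Pool.Agent.Helper548.HB



theorem x_bgi_core (D : GData) (RG : Realz D.Γ D.G) (t : ℝ) (x : D.Q) (γ : ℝ → RG.X) (l : ℝ)
    (hγ : IsGeod γ l) {Y : Type} [MetricSpace Y] (F : V → Y) :
    DiamLE (KK t) (⋃ s ∈ Set.Icc (0 : ℝ) l, {a : Y | dist (γ s) (RG.ι x) ≤ 3 ∨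
      ∃ y, dist (γ s) (RG.ι y) ≤ 1 ∧ a = F (D.cq x y)}) ∨
    ∃ s ∈ Set.Icc (0 : ℝ) l, dist (γ s) (RG.ι x) ≤ KK t := by
  have hK : 100 ≤ KK t := by
    unfold KK
    have := abs_nonneg t
    linarith
  by_cases hc : ∃ s ∈ Set.Icc (0 : ℝ) l, dist (γ s) (RG.ι x) ≤ KK t
  · exact Or.inr hc
  · left
    push Not at hc
    have hf : ∀ s ∈ Set.Icc (0 : ℝ) l, 5 < dist (γ s) (RG.ι x) := fun s hs => by
      have := hc s hs
      linarith
    intro a ha b hb
    obtain ⟨s, hs, ha⟩ := Set.mem_iUnion₂.1 ha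
    obtain ⟨s', hs', hb⟩ := Set.mem_iUnion₂.1 hb
    rcases ha with ha | ⟨y, hy, rfl⟩
    · have := hf s hs
      linarith
    · rcases hb with hb | ⟨y', hy', rfl⟩
      · have := hf s' hs'
        linarith
      · rw [x_bgi_aux D RG x γ l hγ hf s s' hs hs' y y' hy hy', dist_self]
        linarith

theorem x_bgi (D : GData) (RG : Realz D.Γ D.G) (RT : Realz TG H) (t : ℝ)
    (V W : (hier D RG RT t).Dom) (h : (hier D RG RT t).pnest V W)
    (γ : ℝ → (hier D RG RT t).C W) (l : ℝ) (hγ : IsGeod γ l) :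
    DiamLE (KK t) (⋃ s ∈ Set.Icc (0 : ℝ) l, (hier D RG RT t).ρd W V (γ s)) ∨
    ∃ s ∈ Set.Icc (0 : ℝ) l, ∃ p ∈ (hier D RG RT t).ρ V W, dist (γ s) p ≤ KK t := by
  obtain ⟨hn, hne⟩ := h
  rcases hn with rfl | rfl
  · exact absurd rfl hne
  · cases V with
    | S => exact absurd rfl hne
    | T x =>
      rcases x_bgi_core D RG t x γ l hγ (fun v => RT.ι v.1) with h | ⟨s, hs, h⟩
      · exact Or.inl h
      · exact Or.inr ⟨s, hs, RG.ι x, rfl, h⟩
    | L x =>
      rcases x_bgi_core D RG t x γ l hγ (lam t) with h | ⟨s, hs, h⟩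
      · exact Or.inl h
      · exact Or.inr ⟨s, hs, RG.ι x, rfl, h⟩

end Pool.Agent.Helper548.HB
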