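import Pool.Agent.Helper548.HB.Defs
import Pool.Agent.Helper548.HB.P_co_eq_cq
import Pool.Agent.Helper548.HB.P_connected
import Pool.Agent.Helper548.HB.P_walk_geo
import Pool.Agent.Helper548.HB.P_TG_dist
import Pool.Agent.Helper548.HB.P_lam_vsz
import Pool.Agent.Helper548.HB.P_vsz_lam
import Pool.Agent.Helper548.HB.P_G_lip
import Pool.Agent.Helper548.HB.P_dist_lower
import Pool.Agent.Helper548.HB.P_dist_upper

set_option autoImplicit false

/-! Hyperbolic spaces, Gromov boundaries, hierarchically hyperbolic spaces and groups, the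
hierarchically hyperbolic boundary and its topology. -/

namespace Pool.Agent.Helper548.HB



theorem xd_sd {X : Type} [MetricSpace X] (a b : X) : sd ({a} : Set X) {b} = dist a b := by
  unfold sd
  have : {r : ℝ | ∃ a' ∈ ({a} : Set X), ∃ b' ∈ ({b} : Set X), r = dist a' b'} = {dist a b} := by
    ext r
    simp
  rw [this, csInf_singleton]

theorem xd_S (D : GData) (RG : Realz D.Γ D.G) (RT : Realz TG H) (t : ℝ) (x y : D.G) :
    (hier D RG RT t).dom (Dm.S : Dm D) x y = (D.Γ.dist (x : D.Q) (y : D.Q) : ℝ) := by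
  have h : (hier D RG RT t).dom (Dm.S : Dm D) x y =
      @dist RG.X _ (RG.ι (x : D.Q)) (RG.ι (y : D.Q)) := xd_sd (X := RG.X) _ _
  rw [h, RG.dist_ι]

theorem xd_T (D : GData) (RG : Realz D.Γ D.G) (RT : Realz TG H) (t : ℝ) (x y : D.G) (z : D.Q) :
    (hier D RG RT t).dom (Dm.T z : Dm D) x y =
      (FreeGroup.norm ((D.co z x).1⁻¹ * (D.co z y).1) : ℝ) := by
  have h : (hier D RG RT t).dom (Dm.T z : Dm D) x y =
      @dist RT.X _ (RT.ι (D.co z x).1) (RT.ι (D.co z y).1) := xd_sd (X := RT.X) _ _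
  rw [h, RT.dist_ι, TG_dist]

theorem xd_L (D : GData) (RG : Realz D.Γ D.G) (RT : Realz TG H) (t : ℝ) (x y : D.G) (z : D.Q) :
    (hier D RG RT t).dom (Dm.L z : Dm D) x y = |lam t (D.co z x) - lam t (D.co z y)| := by
  have h : (hier D RG RT t).dom (Dm.L z : Dm D) x y =
      @dist ℝ _ (lam t (D.co z x)) (lam t (D.co z y)) := xd_sd (X := ℝ) _ _
  rw [h, Real.dist_eq]

theorem xd_norm_npow (g : H) (n : ℕ) : FreeGroup.norm (g ^ n) ≤ n * FreeGroup.norm g := by
  induction n with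
  | zero => simp
  | succ n ih =>
    rw [pow_succ]
    refine (FreeGroup.norm_mul_le _ _).trans ?_
    rw [Nat.succ_mul]
    exact Nat.add_le_add_right ih _

theorem xd_norm_zpow (g : H) (j : ℤ) : FreeGroup.norm (g ^ j) ≤ j.natAbs * FreeGroup.norm g := by
  rcases Int.natAbs_eq j with h | h
  · rw [h, zpow_natCast, Int.natAbs_natCast]
    exact xd_norm_npow g _
  · rw [h, zpow_neg, zpow_natCast, FreeGroup.norm_inv_eq, Int.natAbs_neg, Int.natAbs_natCast]
    exact xd_norm_npow g _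

theorem xd_gc (j : ℤ) (hj : |j| ≤ 4) : vsz (gc ^ j) ≤ 4 := by
  have h1 : (gc ^ j).1 = (FreeGroup.of true : H) ^ j := rfl
  have h2 : (gc ^ j).2 = (1 : Multiplicative ℤ) := by
    show (1 : Multiplicative ℤ) ^ j = 1
    exact one_zpow j
  unfold vsz
  rw [h1, h2]
  have h3 := xd_norm_zpow (FreeGroup.of true : H) j
  rw [FreeGroup.norm_of, mul_one] at h3
  have h4 : (Multiplicative.toAdd (1 : Multiplicative ℤ)).natAbs = 0 := by simp
  rw [h4]
  have h5 : j.natAbs ≤ 4 := by
    have := abs_le.mp hj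
    omega
  omega

/-- the estimate outside of the geodesic -/
theorem xd_far (D : GData) (t : ℝ) (x y : D.G) (w : D.Γ.Walk (x : D.Q) (y : D.Q))
    (hw : w.length = D.Γ.dist (x : D.Q) (y : D.Q)) (z : D.Q) (hz : z ∉ w.support) :
    vsz ((D.co z x)⁻¹ * D.co z y) ≤ 4 := by
  have hx : (x : D.Q) ≠ z := fun h => hz (h ▸ w.start_mem_support)
  have hy : (y : D.Q) ≠ z := fun h => hz (h ▸ w.end_mem_support)
  obtain ⟨j, hj, he⟩ := walk_geo D z _ _ w hw hz
  rw [co_eq_cq D z x hx, co_eq_cq D z y hy, he, inv_mul_cancel_left]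
  exact xd_gc j hj

theorem xd_fst_le (u v : V) : FreeGroup.norm (u.1⁻¹ * v.1) ≤ vsz (u⁻¹ * v) := by
  have : (u⁻¹ * v).1 = u.1⁻¹ * v.1 := rfl
  unfold vsz
  rw [this]
  exact Nat.le_add_right _ _

theorem thr_nonneg {s a : ℝ} (ha : 0 ≤ a) : 0 ≤ thr s a := by
  unfold thr
  split_ifs
  · exact ha
  · exact le_rfl

theorem thr_le {s a : ℝ} (ha : 0 ≤ a) : thr s a ≤ a := by
  unfold thr
  split_ifs
  · exact le_rfl
  · exact ha

theorem le_thr {s a : ℝ} (hs : 0 ≤ s) : a ≤ thr s a + s := by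
  unfold thr
  split_ifs with h
  · linarith
  · linarith

theorem thr_zero {s a : ℝ} (h : a < s) : thr s a = 0 := by
  unfold thr
  rw [if_neg (not_le.mpr h)]

theorem x_distance (D : GData) (RG : Realz D.Γ D.G) (RT : Realz TG H) (t : ℝ) :
    ∃ s₀ : ℝ, ∀ s ≥ s₀, ∃ A : ℝ, ∀ x y : D.G,
    {U | s ≤ (hier D RG RT t).dom U x y}.Finite ∧
    (∑ᶠ U, thr s ((hier D RG RT t).dom U x y)) ≤ A * wd D.gens x y + A ∧
    wd D.gens x y ≤ A * (∑ᶠ U, thr s ((hier D RG RT t).dom U x y)) + A := by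
  classical
  refine ⟨KK t, fun s hs => ?_⟩
  have ht : 0 ≤ |t| := abs_nonneg t
  have hs100 : 100 + 20 * |t| ≤ s := hs
  have hs0 : 0 ≤ s := by linarith
  set B : ℝ := (2 + |t|) * s + 4 with hB
  have hB0 : 0 ≤ B := by positivity
  refine ⟨(1 + B) * (1 + s) + B + (1 + |t|) + (1 + 8 * (2 + |t|)), fun x y => ?_⟩
  set A : ℝ := (1 + B) * (1 + s) + B + (1 + |t|) + (1 + 8 * (2 + |t|)) with hA
  obtain ⟨w, hw⟩ := (connected D).exists_walk_length_eq_dist (x : D.Q) (y : D.Q)
  set F : Finset D.Q := w.support.toFinset with hF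
  have hmem : ∀ z, z ∈ F ↔ z ∈ w.support := fun z => List.mem_toFinset
  set p : D.Q → ℝ := fun z => (FreeGroup.norm ((D.co z x).1⁻¹ * (D.co z y).1) : ℝ) with hp
  set q : D.Q → ℝ := fun z => |lam t (D.co z x) - lam t (D.co z y)| with hq
  set v : D.Q → ℝ := fun z => (vsz ((D.co z x)⁻¹ * D.co z y) : ℝ) with hv
  have hp0 : ∀ z, 0 ≤ p z := fun z => Nat.cast_nonneg _
  have hq0 : ∀ z, 0 ≤ q z := fun z => abs_nonneg _
  have hv0 : ∀ z, 0 ≤ v z := fun z => Nat.cast_nonneg _
  have hpv : ∀ z, p z ≤ v z := fun z => by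
    simp only [hp, hv]
    exact_mod_cast xd_fst_le _ _
  have hqv : ∀ z, q z ≤ (1 + |t|) * v z := fun z => lam_vsz t _ _
  have hvpq : ∀ z, v z ≤ (1 + |t|) * p z + q z := fun z => vsz_lam t _ _
  have hfar : ∀ z, z ∉ F → v z ≤ 4 := by
    intro z hz
    rw [hmem] at hz
    simp only [hv]
    exact_mod_cast xd_far D t x y w hw z hz
  have hfp : ∀ z, z ∉ F → p z < s := fun z hz => by
    have := hpv z
    have := hfar z hz
    linarith
  have hfq : ∀ z, z ∉ F → q z < s := fun z hz => by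
    have h1 := hqv z
    have h2 := hfar z hz
    have h3 : (1 + |t|) * v z ≤ (1 + |t|) * 4 := mul_le_mul_of_nonneg_left h2 (by linarith)
    linarith
  set P : Finset (Dm D) := insert Dm.S (F.image Dm.T ∪ F.image Dm.L) with hP
  have hout : ∀ U : Dm D, U ∉ P → (hier D RG RT t).dom U x y < s := by
    intro U hU
    rw [hP, Finset.mem_insert, Finset.mem_union, Finset.mem_image, Finset.mem_image] at hU
    push Not at hU
    obtain ⟨h1, h2, h3⟩ := hU
    cases U with
    | S => exact absurd rfl h1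
    | T z =>
      rw [xd_T]
      exact hfp z (fun hz => h2 z hz rfl)
    | L z =>
      rw [xd_L]
      exact hfq z (fun hz => h3 z hz rfl)
  have hfin : {U : Dm D | s ≤ (hier D RG RT t).dom U x y}.Finite := by
    apply P.finite_toSet.subset
    intro U hU
    by_contra hcon
    exact absurd hU (not_le.mpr (hout U hcon))
  set n : ℝ := (D.Γ.dist (x : D.Q) (y : D.Q) : ℝ) with hn
  have hn0 : 0 ≤ n := Nat.cast_nonneg _
  have hsum : (∑ᶠ U : Dm D, thr s ((hier D RG RT t).dom U x y)) =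
      thr s n + (∑ z ∈ F, thr s (p z) + ∑ z ∈ F, thr s (q z)) := by
    rw [finsum_eq_sum_of_support_subset (s := P)]
    · rw [hP, Finset.sum_insert, Finset.sum_union, Finset.sum_image, Finset.sum_image]
      · congr 1
        · rw [xd_S]
        · congr 1
          · exact Finset.sum_congr rfl fun z _ => by rw [xd_T]
          · exact Finset.sum_congr rfl fun z _ => by rw [xd_L]
      · intro a _ b _ hab
        injection hab
      · intro a _ b _ hab
        injection hab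
      · rw [Finset.disjoint_left]
        intro U h1 h2
        rw [Finset.mem_image] at h1 h2
        obtain ⟨a, _, ha⟩ := h1
        obtain ⟨b, _, hb⟩ := h2
        rw [← hb] at ha
        cases ha
      · rw [Finset.mem_union, Finset.mem_image, Finset.mem_image]
        rintro (⟨a, _, ha⟩ | ⟨a, _, ha⟩) <;> cases ha
    · intro U hU
      by_contra hcon
      exact hU (thr_zero (hout U hcon))
  have hwd0 : 0 ≤ wd D.gens x y := Nat.cast_nonneg _
  have hlow := dist_lower D x y w hw F (fun z hz => (hmem z).mp hz)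
  have hup := dist_upper D x y w hw F (fun z hz => (hmem z).mpr hz)
  have hlip := G_lip D x y
  have hcard : (F.card : ℝ) ≤ n + 1 := by
    have h1 : F.card ≤ w.support.length := List.toFinset_card_le _
    rw [SimpleGraph.Walk.length_support, hw] at h1
    rw [hn]
    exact_mod_cast h1
  have hSp : ∑ z ∈ F, thr s (p z) ≤ ∑ z ∈ F, v z :=
    Finset.sum_le_sum fun z _ => (thr_le (hp0 z)).trans (hpv z)
  have hSq : ∑ z ∈ F, thr s (q z) ≤ (1 + |t|) * ∑ z ∈ F, v z := by
    rw [Finset.mul_sum]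
    exact Finset.sum_le_sum fun z _ => (thr_le (hq0 z)).trans (hqv z)
  have hSp0 : 0 ≤ ∑ z ∈ F, thr s (p z) := Finset.sum_nonneg fun z _ => thr_nonneg (hp0 z)
  have hSq0 : 0 ≤ ∑ z ∈ F, thr s (q z) := Finset.sum_nonneg fun z _ => thr_nonneg (hq0 z)
  have hTn : thr s n ≤ n := thr_le hn0
  have hTn0 : 0 ≤ thr s n := thr_nonneg hn0
  have hTn1 : n ≤ thr s n + s := le_thr hs0
  have hlow' : ∑ z ∈ F, v z ≤ 8 * wd D.gens x y := hlow
  have hA1 : (1 + 8 * (2 + |t|)) ≤ A := by
    have : 0 ≤ (1 + B) * (1 + s) := by positivity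
    linarith
  have hA0 : 0 ≤ A := by linarith
  have e : (∑ᶠ U, thr s ((hier D RG RT t).dom U x y)) =
      thr s n + (∑ z ∈ F, thr s (p z) + ∑ z ∈ F, thr s (q z)) := hsum
  refine ⟨hfin, ?_, ?_⟩
  · rw [e]
    have h1 : thr s n + (∑ z ∈ F, thr s (p z) + ∑ z ∈ F, thr s (q z)) ≤
        (1 + 8 * (2 + |t|)) * wd D.gens x y := by
      have h2 : (1 + |t|) * ∑ z ∈ F, v z ≤ (1 + |t|) * (8 * wd D.gens x y) :=
        mul_le_mul_of_nonneg_left hlow' (by linarith)
      nlinarith
    have h3 : (1 + 8 * (2 + |t|)) * wd D.gens x y ≤ A * wd D.gens x y :=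
      mul_le_mul_of_nonneg_right hA1 hwd0
    linarith
  · rw [e]
    have h1 : ∑ z ∈ F, ((vsz ((D.co z x)⁻¹ * D.co z y) : ℝ) + 4) ≤
        (1 + |t|) * (∑ z ∈ F, thr s (p z)) + (∑ z ∈ F, thr s (q z)) + F.card * B := by
      rw [Finset.mul_sum, ← Finset.sum_add_distrib, ← nsmul_eq_mul, ← Finset.sum_const,
        ← Finset.sum_add_distrib]
      apply Finset.sum_le_sum
      intro z _
      have h2 := hvpq z
      have h3 : p z ≤ thr s (p z) + s := le_thr hs0
      have h4 : q z ≤ thr s (q z) + s := le_thr hs0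
      have h5 : (1 + |t|) * p z ≤ (1 + |t|) * (thr s (p z) + s) :=
        mul_le_mul_of_nonneg_left h3 (by linarith)
      have h6 : (vsz ((D.co z x)⁻¹ * D.co z y) : ℝ) = v z := rfl
      rw [h6, hB]
      linarith
    have h7 : (F.card : ℝ) * B ≤ (n + 1) * B := mul_le_mul_of_nonneg_right hcard hB0
    have h8 : (w.length : ℝ) = n := by rw [hw]
    rw [h8] at hup
    have h9 : wd D.gens x y ≤ n + ((1 + |t|) * (∑ z ∈ F, thr s (p z)) + (∑ z ∈ F, thr s (q z)) +
        (n + 1) * B) := by linarith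
    have h10 : n * (1 + B) ≤ (thr s n + s) * (1 + B) :=
      mul_le_mul_of_nonneg_right hTn1 (by linarith)
    have h11 : (1 + B) * thr s n ≤ A * thr s n := by
      apply mul_le_mul_of_nonneg_right _ hTn0
      rw [hA]
      nlinarith [mul_nonneg (show (0:ℝ) ≤ 1 + B by linarith) hs0]
    have h12 : (1 + |t|) * (∑ z ∈ F, thr s (p z)) ≤ A * (∑ z ∈ F, thr s (p z)) := by
      apply mul_le_mul_of_nonneg_right _ hSp0
      rw [hA]
      nlinarith [mul_nonneg (show (0:ℝ) ≤ 1 + B by linarith) (show (0:ℝ) ≤ 1 + s by linarith)]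
    have h13 : (∑ z ∈ F, thr s (q z)) ≤ A * (∑ z ∈ F, thr s (q z)) := by
      nlinarith [mul_nonneg (show (0:ℝ) ≤ A - 1 by linarith) hSq0]
    have h14 : s * (1 + B) + B ≤ A := by
      rw [hA]
      nlinarith
    nlinarith

end Pool.Agent.Helper548.HB
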