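import Pool.Agent.Helper548.HB.Defs
import Pool.Agent.Helper548.HB.P_co_eq_cq
import Pool.Agent.Helper548.HB.P_connected
import Pool.Agent.Helper548.HB.P_walk_geo
import Pool.Agent.Helper548.HB.P_TG_dist
import Pool.Agent.Helper548.HB.P_lam_vsz

set_option autoImplicit false

/-! Hyperbolic spaces, Gromov boundaries, hierarchically hyperbolic spaces and groups, the
hierarchically hyperbolic boundary and its topology. -/

namespace Pool.Agent.Helper548.HB



theorem xl_sd {X : Type} [MetricSpace X] (a b : X) : sd ({a} : Set X) {b} = dist a b := by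
  unfold sd
  have h : {r : ℝ | ∃ a' ∈ ({a} : Set X), ∃ b' ∈ ({b} : Set X), r = dist a' b'} = {dist a b} := by
    ext r
    simp
  rw [h, csInf_singleton]

theorem xl_dom_S (D : GData) (RG : Realz D.Γ D.G) (RT : Realz TG H) (t : ℝ) (x x' : D.G) :
    (hier D RG RT t).dom (Dm.S : Dm D) x x' = (D.Γ.dist (x : D.Q) (x' : D.Q) : ℝ) := by
  change @sd RG.X RG.met {RG.ι (x : D.Q)} {RG.ι (x' : D.Q)} = _
  rw [xl_sd, RG.dist_ι]

theorem xl_dom_T (D : GData) (RG : Realz D.Γ D.G) (RT : Realz TG H) (t : ℝ) (y : D.Q)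
    (x x' : D.G) : (hier D RG RT t).dom (Dm.T y : Dm D) x x' =
      (FreeGroup.norm ((D.co y x).1⁻¹ * (D.co y x').1) : ℝ) := by
  change @sd RT.X RT.met {RT.ι (D.co y x).1} {RT.ι (D.co y x').1} = _
  rw [xl_sd, RT.dist_ι, TG_dist]

theorem xl_dom_L (D : GData) (RG : Realz D.Γ D.G) (RT : Realz TG H) (t : ℝ) (y : D.Q)
    (x x' : D.G) : (hier D RG RT t).dom (Dm.L y : Dm D) x x' =
      |lam t (D.co y x) - lam t (D.co y x')| := by
  change sd ({lam t (D.co y x)} : Set ℝ) {lam t (D.co y x')} = _
  rw [xl_sd, Real.dist_eq]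

theorem xl_norm_pow (x : H) (n : ℕ) : FreeGroup.norm (x ^ n) ≤ n * FreeGroup.norm x := by
  induction n with
  | zero => simp
  | succ n ih =>
    rw [pow_succ]
    refine (FreeGroup.norm_mul_le _ _).trans ?_
    rw [Nat.add_mul, one_mul]
    omega

theorem xl_norm_zpow (x : H) (j : ℤ) : FreeGroup.norm (x ^ j) ≤ j.natAbs * FreeGroup.norm x := by
  cases j with
  | ofNat n => simpa using xl_norm_pow x n
  | negSucc n =>
    rw [zpow_negSucc, FreeGroup.norm_inv_eq]
    simpa using xl_norm_pow x (n + 1)

theorem xl_gc (j : ℤ) : (gc ^ j).1 = (FreeGroup.of true : H) ^ j ∧ (gc ^ j).2 = 1 := by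
  constructor
  · exact map_zpow (MonoidHom.fst H (Multiplicative ℤ)) gc j
  · have := map_zpow (MonoidHom.snd H (Multiplicative ℤ)) gc j
    have h1 : (MonoidHom.snd H (Multiplicative ℤ)) gc = 1 := rfl
    rw [h1, one_zpow] at this
    exact this

theorem xl_KK (t : ℝ) : 100 ≤ KK t := by
  unfold KK
  have := abs_nonneg t
  linarith

theorem x_large (D : GData) (RG : Realz D.Γ D.G) (RT : Realz TG H) (t : ℝ)
    (W : (hier D RG RT t).Dom) (x x' : D.G) : ∃ F : Finset (hier D RG RT t).Dom,
    (F.card : ℝ) ≤ KK t * (hier D RG RT t).dom W x x' + KK t ∧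
    (∀ T ∈ F, (hier D RG RT t).pnest T W ∧
      sd ((hier D RG RT t).π W x) ((hier D RG RT t).ρ T W) ≤
        KK t * (hier D RG RT t).dom W x x' + KK t) ∧
    ∀ U, (hier D RG RT t).pnest U W → (∃ T ∈ F, (hier D RG RT t).nest U T) ∨
      (hier D RG RT t).dom U x x' < KK t := by
  classical
  have hK := xl_KK t
  match W with
  | .S =>
    have hdS := xl_dom_S D RG RT t x x'
    obtain ⟨w, hw⟩ := ((connected D).preconnected (x : D.Q) (x' : D.Q)).exists_walk_length_eq_dist
    set n := D.Γ.dist (x : D.Q) (x' : D.Q) with hn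
    let F1 : Finset (Dm D) := w.support.toFinset.image Dm.T
    let F2 : Finset (Dm D) := w.support.toFinset.image Dm.L
    have hcard : (F1 ∪ F2).card ≤ 2 * (n + 1) := by
      have h1 : F1.card ≤ n + 1 := by
        refine Finset.card_image_le.trans ((List.toFinset_card_le _).trans ?_)
        rw [SimpleGraph.Walk.length_support, hw]
      have h2 : F2.card ≤ n + 1 := by
        refine Finset.card_image_le.trans ((List.toFinset_card_le _).trans ?_)
        rw [SimpleGraph.Walk.length_support, hw]
      have h3 := Finset.card_union_le F1 F2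
      omega
    have hsupp : ∀ y ∈ w.support, (D.Γ.dist (x : D.Q) y : ℝ) ≤ KK t * n + KK t := by
      intro y hy
      have h1 : D.Γ.dist (x : D.Q) y ≤ n := by
        have h2 := SimpleGraph.dist_le (w.takeUntil y hy)
        have h3 := w.length_takeUntil_le hy
        omega
      have h4 : (D.Γ.dist (x : D.Q) y : ℝ) ≤ n := by exact_mod_cast h1
      have h5 : (0 : ℝ) ≤ n := by positivity
      nlinarith
    refine ⟨(F1 ∪ F2 : Finset (Dm D)), ?_, ?_, ?_⟩
    · have h1 : (((F1 ∪ F2 : Finset (Dm D)).card : ℕ) : ℝ) ≤ 2 * (n + 1) := by exact_mod_cast hcard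
      refine h1.trans ?_
      rw [hdS]
      have h5 : (0 : ℝ) ≤ n := by positivity
      nlinarith
    · intro T hT
      rw [hdS]
      rcases Finset.mem_union.mp hT with h | h
      · obtain ⟨y, hy, rfl⟩ := Finset.mem_image.mp h
        refine ⟨⟨Or.inr rfl, fun h => by cases h⟩, ?_⟩
        change @sd RG.X RG.met {RG.ι (x : D.Q)} {RG.ι y} ≤ _
        rw [xl_sd, RG.dist_ι]
        exact hsupp y (List.mem_toFinset.mp hy)
      · obtain ⟨y, hy, rfl⟩ := Finset.mem_image.mp h
        refine ⟨⟨Or.inr rfl, fun h => by cases h⟩, ?_⟩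
        change @sd RG.X RG.met {RG.ι (x : D.Q)} {RG.ι y} ≤ _
        rw [xl_sd, RG.dist_ι]
        exact hsupp y (List.mem_toFinset.mp hy)
    · intro U hU
      have hgeo : ∀ y, y ∉ w.support → ∃ j : ℤ, |j| ≤ 4 ∧
          (D.co y x)⁻¹ * D.co y x' = gc ^ j := by
        intro y hy
        obtain ⟨j, hj, hjj⟩ := walk_geo D y _ _ w hw hy
        refine ⟨j, hj, ?_⟩
        have h1 : (x : D.Q) ≠ y := fun h => hy (h ▸ w.start_mem_support)
        have h2 : (x' : D.Q) ≠ y := fun h => hy (h ▸ w.end_mem_support)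
        rw [co_eq_cq D y x h1, co_eq_cq D y x' h2, hjj]
        group
      have hn4 : ∀ j : ℤ, |j| ≤ 4 → FreeGroup.norm ((FreeGroup.of true : H) ^ j) ≤ 4 := by
        intro j hj
        refine (xl_norm_zpow _ j).trans ?_
        rw [FreeGroup.norm_of, mul_one]
        rw [Int.abs_eq_natAbs] at hj
        omega
      match U, hU with
      | .S, hU => exact absurd rfl hU.2
      | .T y, hU =>
        by_cases hy : y ∈ w.support
        · left
          exact ⟨Dm.T y, Finset.mem_union_left _ (Finset.mem_image.mpr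
            ⟨y, List.mem_toFinset.mpr hy, rfl⟩), Or.inl rfl⟩
        · right
          obtain ⟨j, hj, hjj⟩ := hgeo y hy
          have h1 := xl_dom_T D RG RT t y x x'
          have h2 : (D.co y x).1⁻¹ * (D.co y x').1 = (FreeGroup.of true : H) ^ j := by
            rw [← (xl_gc j).1, ← hjj]
            rfl
          rw [h2] at h1
          have h3 : (FreeGroup.norm ((FreeGroup.of true : H) ^ j) : ℝ) ≤ 4 := by
            exact_mod_cast hn4 j hj
          refine lt_of_le_of_lt (h1.le.trans h3) (by linarith)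
      | .L y, hU =>
        by_cases hy : y ∈ w.support
        · left
          exact ⟨Dm.L y, Finset.mem_union_right _ (Finset.mem_image.mpr
            ⟨y, List.mem_toFinset.mpr hy, rfl⟩), Or.inl rfl⟩
        · right
          obtain ⟨j, hj, hjj⟩ := hgeo y hy
          have h1 := xl_dom_L D RG RT t y x x'
          have h2 := lam_vsz t (D.co y x) (D.co y x')
          rw [hjj] at h2
          have h3 : vsz (gc ^ j) ≤ 4 := by
            unfold vsz
            rw [(xl_gc j).1, (xl_gc j).2]
            simpa using hn4 j hj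
          have h4 : (vsz (gc ^ j) : ℝ) ≤ 4 := by exact_mod_cast h3
          have h5 : (1 + |t|) * (vsz (gc ^ j) : ℝ) ≤ (1 + |t|) * 4 :=
            mul_le_mul_of_nonneg_left h4 (by positivity)
          refine lt_of_le_of_lt (h1.le.trans (h2.trans h5)) ?_
          unfold KK
          have := abs_nonneg t
          linarith
  | .T y =>
    refine ⟨∅, ?_, fun T hT => absurd hT (Finset.notMem_empty T), fun U hU => ?_⟩
    · have h1 : 0 ≤ (hier D RG RT t).dom (Dm.T y : Dm D) x x' := by
        rw [xl_dom_T]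
        positivity
      have h2 : 0 ≤ KK t * (hier D RG RT t).dom (Dm.T y : Dm D) x x' :=
        mul_nonneg (by linarith) h1
      rw [Finset.card_empty, Nat.cast_zero]
      exact add_nonneg h2 (by linarith)
    · exfalso
      rcases hU.1 with h | h
      · exact hU.2 h
      · cases h
  | .L y =>
    refine ⟨∅, ?_, fun T hT => absurd hT (Finset.notMem_empty T), fun U hU => ?_⟩
    · have h1 : 0 ≤ (hier D RG RT t).dom (Dm.L y : Dm D) x x' := by
        rw [xl_dom_L]
        positivity
      have h2 : 0 ≤ KK t * (hier D RG RT t).dom (Dm.L y : Dm D) x x' :=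
        mul_nonneg (by linarith) h1
      rw [Finset.card_empty, Nat.cast_zero]
      exact add_nonneg h2 (by linarith)
    · exfalso
      rcases hU.1 with h | h
      · exact hU.2 h
      · cases h

end Pool.Agent.Helper548.HB
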