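import Pool.Agent.Helper548.HB.Defs
import Pool.Agent.Helper548.HB.P_TG_dist
import Pool.Agent.Helper548.HB.P_lam_vsz
import Pool.Agent.Helper548.HB.P_co_lip
import Pool.Agent.Helper548.HB.P_G_lip

set_option autoImplicit false

/-! Hyperbolic spaces, Gromov boundaries, hierarchically hyperbolic spaces and groups, the
hierarchically hyperbolic boundary and its topology. -/

namespace Pool.Agent.Helper548.HB



theorem x_lip (D : GData) (RG : Realz D.Γ D.G) (RT : Realz TG H) (t : ℝ) (U : Dm D) (g h : D.G) :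
    ∀ p ∈ Dm.π D RG RT t U g, ∀ q ∈ Dm.π D RG RT t U h,
      dist p q ≤ KK t * wd D.gens g h + KK t := by
  have hw : 0 ≤ wd D.gens g h := by unfold wd; positivity
  have ht : 0 ≤ |t| := abs_nonneg t
  have hK : ∀ c : ℝ, c ≤ wd D.gens g h → c ≤ KK t * wd D.gens g h + KK t := by
    intro c hc
    unfold KK
    nlinarith [mul_nonneg ht hw]
  intro p hp q hq
  cases U with
  | S =>
    have hp' : p = RG.ι (g : D.Q) := hp
    have hq' : q = RG.ι (h : D.Q) := hq
    subst hp' hq'
    apply hK
    change dist (RG.ι (g : D.Q)) (RG.ι (h : D.Q)) ≤ _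
    rw [RG.dist_ι]
    exact G_lip D g h
  | T x =>
    have hp' : p = RT.ι (D.co x g).1 := hp
    have hq' : q = RT.ι (D.co x h).1 := hq
    subst hp' hq'
    apply hK
    change dist (RT.ι (D.co x g).1) (RT.ι (D.co x h).1) ≤ _
    rw [RT.dist_ι, TG_dist]
    refine le_trans ?_ (co_lip D x g h)
    unfold vsz
    push_cast
    have h1 : ((D.co x g)⁻¹ * D.co x h).1 = (D.co x g).1⁻¹ * (D.co x h).1 := rfl
    rw [h1]
    have h2 : (0 : ℝ) ≤ (((D.co x g)⁻¹ * D.co x h).2.toAdd.natAbs : ℝ) := Nat.cast_nonneg _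
    first
      | exact le_add_of_nonneg_right (by positivity)
      | linarith
  | L x =>
    have hp' : p = lam t (D.co x g) := hp
    have hq' : q = lam t (D.co x h) := hq
    subst hp' hq'
    change dist (lam t (D.co x g)) (lam t (D.co x h)) ≤ _
    rw [Real.dist_eq]
    refine le_trans (lam_vsz t _ _) ?_
    have h1 := co_lip D x g h
    have h2 : (1 + |t|) * (vsz ((D.co x g)⁻¹ * D.co x h) : ℝ) ≤ (1 + |t|) * wd D.gens g h :=
      mul_le_mul_of_nonneg_left h1 (by positivity)
    unfold KK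
    nlinarith [mul_nonneg ht hw]

end Pool.Agent.Helper548.HB
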