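import Pool.Agent.Helper548.HB.Defs
import Pool.Agent.Helper548.HB.P_cut_iota
import Pool.Agent.Helper548.HB.P_co_eq_cq

set_option autoImplicit false

/-! Hyperbolic spaces, Gromov boundaries, hierarchically hyperbolic spaces and groups, the
hierarchically hyperbolic boundary and its topology. -/

namespace Pool.Agent.Helper548.HB



theorem sd_singl_le {X : Type} [MetricSpace X] (a b : X) (r : ℝ) (hr : dist a b ≤ r) :
    sd {a} {b} ≤ r := by
  unfold sd
  have h : {r | ∃ a' ∈ ({a} : Set X), ∃ b' ∈ ({b} : Set X), r = dist a' b'} = {dist a b} := by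
    ext r
    simp
  rw [h, csInf_singleton]
  exact hr

theorem KK_ge (t : ℝ) : 1 ≤ KK t := by
  unfold KK
  have := abs_nonneg t
  linarith

theorem T_ne_S (D : GData) (x : D.Q) : (Dm.T x : Dm D) ≠ Dm.S := by
  intro h; cases h

theorem L_ne_S (D : GData) (x : D.Q) : (Dm.L x : Dm D) ≠ Dm.S := by
  intro h; cases h

/-- the relative projections at the element with gate coordinates `v` in the coset `x0` -/
theorem x_real_aux (D : GData) (RG : Realz D.Γ D.G) (RT : Realz TG H) (t : ℝ) (x0 : D.Q)
    (g : D.G) (hg : (g : D.Q) = x0) (U : Dm D) (hU : U = Dm.T x0 ∨ U = Dm.L x0)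
    (W : Dm D) (hne : U ≠ W) (ho : ¬ Dm.orth D U W) :
    @sd _ ((hier D RG RT t).met W) ((hier D RG RT t).π W g) ((hier D RG RT t).ρ U W) ≤ KK t := by
  have hK := KK_ge t
  cases W with
  | S =>
    rcases hU with h | h
    · subst h
      exact @sd_singl_le RG.X RG.met (RG.ι (g : D.Q)) (RG.ι x0) _ (by
        rw [hg, dist_self]; linarith)
    · subst h
      exact @sd_singl_le RG.X RG.met (RG.ι (g : D.Q)) (RG.ι x0) _ (by
        rw [hg, dist_self]; linarith)
  | T y =>
    have hxy : x0 ≠ y := by
      intro h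
      rcases hU with h2 | h2
      · exact hne (by rw [h2, h])
      · rw [h2] at ho
        exact ho h
    have hco : D.co y g = D.cq y x0 := by
      rw [← hg]
      exact co_eq_cq D y g (by rw [hg]; exact hxy)
    rcases hU with h | h
    · subst h
      exact @sd_singl_le RT.X RT.met (RT.ι (D.co y g).1) (RT.ι (D.cq y x0).1) _ (by
        rw [hco, dist_self]; linarith)
    · subst h
      exact @sd_singl_le RT.X RT.met (RT.ι (D.co y g).1) (RT.ι (D.cq y x0).1) _ (by
        rw [hco, dist_self]; linarith)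
  | L y =>
    have hxy : x0 ≠ y := by
      intro h
      rcases hU with h2 | h2
      · rw [h2] at ho
        exact ho h
      · exact hne (by rw [h2, h])
    have hco : D.co y g = D.cq y x0 := by
      rw [← hg]
      exact co_eq_cq D y g (by rw [hg]; exact hxy)
    rcases hU with h | h
    · subst h
      exact @sd_singl_le ℝ _ (lam t (D.co y g)) (lam t (D.cq y x0)) _ (by
        rw [hco, dist_self]; linarith)
    · subst h
      exact @sd_singl_le ℝ _ (lam t (D.co y g)) (lam t (D.cq y x0)) _ (by
        rw [hco, dist_self]; linarith)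

theorem x_real_TL (D : GData) (RG : Realz D.Γ D.G) (RT : Realz TG H) (t : ℝ)
    (x0 : D.Q) (pT : RT.X) (pL : ℝ) : ∃ x : D.G, (x : D.Q) = x0 ∧
      dist (RT.ι (D.co x0 x).1) pT ≤ 1 ∧ dist (lam t (D.co x0 x)) pL ≤ 1 := by
  obtain ⟨h, hh⟩ := RT.dense pT
  obtain ⟨n, hn⟩ : ∃ n : ℤ, n = ⌊pL - t * ((psi h).toAdd : ℝ)⌋ := ⟨_, rfl⟩
  have hg : ((x0.out * D.ι ((h, Multiplicative.ofAdd n) : V) : D.G) : D.Q) = x0 := by
    rw [QuotientGroup.mk_mul_of_mem _ (MonoidHom.mem_range.2 ⟨_, rfl⟩)]
    exact QuotientGroup.out_eq' x0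
  have hco : D.co x0 (x0.out * D.ι ((h, Multiplicative.ofAdd n) : V)) =
      ((h, Multiplicative.ofAdd n) : V) := by
    unfold GData.co
    rw [inv_mul_cancel_left, cut_iota]
  refine ⟨x0.out * D.ι ((h, Multiplicative.ofAdd n) : V), hg, ?_, ?_⟩
  · rw [hco, dist_comm]
    exact hh
  · rw [hco, Real.dist_eq]
    have h1 := Int.floor_le (pL - t * ((psi h).toAdd : ℝ))
    have h2 := Int.lt_floor_add_one (pL - t * ((psi h).toAdd : ℝ))
    rw [← hn] at h1 h2
    unfold lam
    simp only [toAdd_ofAdd]
    rw [abs_le]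
    constructor <;> linarith

theorem x_real_S (D : GData) (RG : Realz D.Γ D.G) (pS : RG.X) : ∃ x : D.G,
    dist (RG.ι (x : D.Q)) pS ≤ 1 := by
  obtain ⟨y, hy⟩ := RG.dense pS
  refine ⟨y.out, ?_⟩
  rw [QuotientGroup.out_eq', dist_comm]
  exact hy

theorem x_realize (D : GData) (RG : Realz D.Γ D.G) (RT : Realz TG H) (t : ℝ)
    (F : Set (hier D RG RT t).Dom)
    (hF : ∀ U ∈ F, ∀ V ∈ F, U ≠ V → (hier D RG RT t).orth U V)
    (p : ∀ U, (hier D RG RT t).C U) : ∃ x, ∀ U ∈ F,
      sd ((hier D RG RT t).π U x) {p U} ≤ KK t ∧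
      (∀ W, ((hier D RG RT t).pnest U W ∨ (hier D RG RT t).trans U W) →
        sd ((hier D RG RT t).π W x) ((hier D RG RT t).ρ U W) ≤ KK t) := by
  have hK := KK_ge t
  rcases Set.eq_empty_or_nonempty F with hE | ⟨U, hU⟩
  · refine ⟨1, fun U hU => ?_⟩
    rw [hE] at hU
    exact absurd hU (Set.notMem_empty _)
  · have hcase : ∀ U : Dm D, U = Dm.S ∨ ∃ x0, U = Dm.T x0 ∨ U = Dm.L x0 := by
      intro U
      cases U with
      | S => exact Or.inl rfl
      | T x0 => exact Or.inr ⟨x0, Or.inl rfl⟩
      | L x0 => exact Or.inr ⟨x0, Or.inr rfl⟩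
    rcases hcase U with hS | ⟨x0, hx0⟩
    · obtain ⟨x, hx⟩ := x_real_S D RG (p Dm.S)
      refine ⟨x, fun W hW => ?_⟩
      have hWS : W = (Dm.S : Dm D) := by
        by_contra hne
        have h1 : Dm.orth D U W := hF U hU W hW (by rw [hS]; exact Ne.symm hne)
        rw [hS] at h1
        exact h1
      subst hWS
      refine ⟨?_, ?_⟩
      · exact @sd_singl_le RG.X RG.met (RG.ι (x : D.Q)) (p Dm.S) _ (le_trans hx hK)
      · rintro W (h1 | h1)
        · rcases h1.1 with h2 | h2
          · exact absurd h2 h1.2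
          · exact absurd h2.symm h1.2
        · exact absurd (Or.inr rfl) h1.2.2
    · obtain ⟨x, hx1, hx2, hx3⟩ := x_real_TL D RG RT t x0 (p (Dm.T x0)) (p (Dm.L x0))
      refine ⟨x, fun W hW => ?_⟩
      have hW0 : ∀ W' : Dm D, W' = W → (W' = Dm.T x0 ∨ W' = Dm.L x0) := by
        intro W' hW'
        by_cases hUW : U = W
        · rw [hW', ← hUW]; exact hx0
        · have h1 : Dm.orth D U W := hF U hU W hW hUW
          rw [← hW'] at h1
          rcases hx0 with h2 | h2
          · rw [h2] at h1
            cases W' with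
            | S => exact absurd h1 (fun h => h)
            | T y => exact absurd h1 (fun h => h)
            | L y => right; rw [show x0 = y from h1]
          · rw [h2] at h1
            cases W' with
            | S => exact absurd h1 (fun h => h)
            | T y => left; rw [show x0 = y from h1]
            | L y => exact absurd h1 (fun h => h)
      have hWc := hW0 W rfl
      refine ⟨?_, fun W2 hW2 => ?_⟩
      · rcases hWc with h | h
        · subst h
          exact @sd_singl_le RT.X RT.met (RT.ι (D.co x0 x).1) (p (Dm.T x0)) _ (hx2.trans hK)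
        · subst h
          exact @sd_singl_le ℝ _ (lam t (D.co x0 x)) (p (Dm.L x0)) _ (hx3.trans hK)
      · refine x_real_aux D RG RT t x0 x hx1 W hWc W2 ?_ ?_
        · rcases hW2 with h | h
          · exact h.2
          · exact fun h' => h.2.1 (Or.inl h')
        · rcases hW2 with h | h
          · rcases h.1 with h3 | h3
            · exact absurd h3 h.2
            · intro h4
              rw [h3] at h4
              rcases hWc with h5 | h5 <;> rw [h5] at h4 <;> exact h4
          · exact h.1

end Pool.Agent.Helper548.HB
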