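import Pool.Agent.Helper548.HB.Defs
import Pool.Agent.Helper548.HB.P_cut_iota

set_option autoImplicit false

/-! Hyperbolic spaces, Gromov boundaries, hierarchically hyperbolic spaces and groups, the
hierarchically hyperbolic boundary and its topology. -/

namespace Pool.Agent.Helper548.HB



theorem xs_co (D : GData) (x : D.Q) (v : V) : D.co x (x.out * D.ι v) = v := by
  unfold GData.co
  rw [inv_mul_cancel_left, cut_iota]

theorem xs_KK (t : ℝ) : 1 ≤ KK t := by
  unfold KK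
  have := abs_nonneg t
  linarith

theorem x_surj (D : GData) (RG : Realz D.Γ D.G) (RT : Realz TG H) (t : ℝ) (U : Dm D)
    (p : Dm.C D RG RT U) : ∃ g : D.G, ∃ q ∈ Dm.π D RG RT t U g, dist p q ≤ KK t := by
  cases U with
  | S =>
    obtain ⟨a, ha⟩ := RG.dense p
    refine ⟨a.out, RG.ι ((a.out : D.G) : D.Q), rfl, ?_⟩
    have h1 : ((a.out : D.G) : D.Q) = a := QuotientGroup.out_eq' a
    rw [h1]
    exact ha.trans (xs_KK t)
  | T x =>
    obtain ⟨h, hh⟩ := RT.dense p
    refine ⟨x.out * D.ι (h, 1), RT.ι (D.co x (x.out * D.ι (h, 1))).1, rfl, ?_⟩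
    rw [xs_co]
    exact hh.trans (xs_KK t)
  | L x =>
    obtain ⟨r, hr⟩ : ∃ r : ℝ, r = p := ⟨_, rfl⟩
    have hl : lam t ((1 : H), Multiplicative.ofAdd ⌊r⌋) = ⌊r⌋ := by
      unfold lam
      simp
    refine ⟨x.out * D.ι (1, Multiplicative.ofAdd ⌊r⌋),
      lam t (D.co x (x.out * D.ι (1, Multiplicative.ofAdd ⌊r⌋))), rfl, ?_⟩
    rw [xs_co, hl, ← hr]
    have h2 : dist r ((⌊r⌋ : ℤ) : ℝ) ≤ 1 := by
      rw [Real.dist_eq, abs_of_nonneg (sub_nonneg.2 (Int.floor_le r))]
      have := Int.lt_floor_add_one r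
      linarith
    exact h2.trans (xs_KK t)

end Pool.Agent.Helper548.HB
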