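import Pool.Agent.Helper548.HB.Defs
import Pool.Agent.Helper548.HB.P_behr
import Pool.Agent.Helper548.HB.P_TG_dist
import Pool.Agent.Helper548.HB.P_lam_vsz

set_option autoImplicit false

/-! Hyperbolic spaces, Gromov boundaries, hierarchically hyperbolic spaces and groups, the
hierarchically hyperbolic boundary and its topology. -/

namespace Pool.Agent.Helper548.HB



theorem norm_of_pow_le (n : ℕ) : FreeGroup.norm ((FreeGroup.of true : H) ^ n) ≤ n := by
  induction n with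
  | zero => simp
  | succ n ih =>
    rw [pow_succ]
    refine (FreeGroup.norm_mul_le _ _).trans ?_
    have : FreeGroup.norm (FreeGroup.of true : H) = 1 := FreeGroup.norm_of _
    omega

theorem norm_of_zpow_le (j : ℤ) : FreeGroup.norm ((FreeGroup.of true : H) ^ j) ≤ j.natAbs := by
  obtain ⟨n, rfl | rfl⟩ := Int.eq_nat_or_neg j
  · rw [zpow_natCast, Int.natAbs_natCast]
    exact norm_of_pow_le n
  · rw [zpow_neg, zpow_natCast, FreeGroup.norm_inv_eq, Int.natAbs_neg, Int.natAbs_natCast]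
    exact norm_of_pow_le n

theorem sd_sing {X : Type} [MetricSpace X] (a b : X) : sd ({a} : Set X) {b} = dist a b := by
  unfold sd
  have : {r | ∃ a' ∈ ({a} : Set X), ∃ b' ∈ ({b} : Set X), r = dist a' b'} = {dist a b} := by
    ext r
    simp
  rw [this, csInf_singleton]

theorem hT_aux (RT : Realz TG H) (t : ℝ) (u v : V) (j : ℤ) (hj : |j| ≤ 6) (h : u = v * gc ^ j) :
    sd ({RT.ι u.1} : Set RT.X) {RT.ι v.1} ≤ KK t := by
  rw [sd_sing, RT.dist_ι, TG_dist, h]
  have h1 : ((v * gc ^ j).1)⁻¹ * v.1 = ((FreeGroup.of true : H) ^ j)⁻¹ := by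
    simp [gc, mul_assoc]
  rw [h1, FreeGroup.norm_inv_eq]
  have h2 := norm_of_zpow_le j
  have h3 : j.natAbs ≤ 6 := by
    have := hj
    rw [Int.abs_eq_natAbs] at this
    exact_mod_cast this
  have h4 : FreeGroup.norm ((FreeGroup.of true : H) ^ j) ≤ 6 := h2.trans h3
  have h5 : ((FreeGroup.norm ((FreeGroup.of true : H) ^ j) : ℕ) : ℝ) ≤ 6 := by exact_mod_cast h4
  unfold KK
  have := abs_nonneg t
  linarith

theorem hL_aux (t : ℝ) (u v : V) (j : ℤ) (hj : |j| ≤ 6) (h : u = v * gc ^ j) :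
    sd ({lam t u} : Set ℝ) {lam t v} ≤ KK t := by
  rw [sd_sing, Real.dist_eq]
  have h0 := lam_vsz t u v
  have h1 : u⁻¹ * v = (gc ^ j)⁻¹ := by
    rw [h]; group
  rw [h1] at h0
  have h2 := norm_of_zpow_le j
  have h3 : j.natAbs ≤ 6 := by
    have := hj
    rw [Int.abs_eq_natAbs] at this
    exact_mod_cast this
  have h4 : vsz ((gc ^ j)⁻¹) ≤ 6 := by
    have : vsz ((gc ^ j)⁻¹) = FreeGroup.norm ((FreeGroup.of true : H) ^ j) := by
      simp [vsz, gc, FreeGroup.norm_inv_eq]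
    omega
  have h5 : ((vsz ((gc ^ j)⁻¹) : ℕ) : ℝ) ≤ 6 := by exact_mod_cast h4
  unfold KK
  have h6 := abs_nonneg t
  have h7 : (1 + |t|) * ((vsz ((gc ^ j)⁻¹) : ℕ) : ℝ) ≤ (1 + |t|) * 6 :=
    mul_le_mul_of_nonneg_left h5 (by linarith)
  linarith

theorem x_trans (D : GData) (RG : Realz D.Γ D.G) (RT : Realz TG H) (t : ℝ)
    (U W : (hier D RG RT t).Dom) (h : (hier D RG RT t).trans U W) (g : D.G) :
    sd ((hier D RG RT t).π W g) ((hier D RG RT t).ρ U W) ≤ KK t ∨
    sd ((hier D RG RT t).π U g) ((hier D RG RT t).ρ W U) ≤ KK t := by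
  obtain ⟨h1, h2, h3⟩ := h
  match U, W with
  | .S, _ => exact absurd (Or.inr rfl) h3
  | .T x, .S => exact absurd (Or.inr rfl) h2
  | .L x, .S => exact absurd (Or.inr rfl) h2
  | .T y, .T x =>
    have hxy : x ≠ y := fun e => h2 (Or.inl (by rw [e]))
    rcases behr D x y hxy g with ⟨j, hj, e⟩ | ⟨j, hj, e⟩
    · exact Or.inl (hT_aux RT t _ _ j hj e)
    · exact Or.inr (hT_aux RT t _ _ j hj e)
  | .T y, .L x =>
    have hxy : x ≠ y := fun e => h1 e.symm
    rcases behr D x y hxy g with ⟨j, hj, e⟩ | ⟨j, hj, e⟩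
    · exact Or.inl (hL_aux t _ _ j hj e)
    · exact Or.inr (hT_aux RT t _ _ j hj e)
  | .L y, .T x =>
    have hxy : x ≠ y := fun e => h1 e.symm
    rcases behr D x y hxy g with ⟨j, hj, e⟩ | ⟨j, hj, e⟩
    · exact Or.inl (hT_aux RT t _ _ j hj e)
    · exact Or.inr (hL_aux t _ _ j hj e)
  | .L y, .L x =>
    have hxy : x ≠ y := fun e => h2 (Or.inl (by rw [e]))
    rcases behr D x y hxy g with ⟨j, hj, e⟩ | ⟨j, hj, e⟩
    · exact Or.inl (hL_aux t _ _ j hj e)
    · exact Or.inr (hL_aux t _ _ j hj e)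

end Pool.Agent.Helper548.HB
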