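import Pool.Agent.Helper548.HB.Defs
import Pool.Agent.Helper548.HB.P_connected
import Pool.Agent.Helper548.HB.P_bott
import Pool.Agent.Helper548.HB.P_four_of_bott
import Pool.Agent.Helper548.HB.P_hyp_of_four
import Pool.Agent.Helper548.HB.P_TG_connected
import Pool.Agent.Helper548.HB.P_TG_bott
import Pool.Agent.Helper548.HB.P_hyp_real
import Pool.Agent.Helper548.HB.P_geod_real
import Pool.Agent.Helper548.HB.P_x_lip
import Pool.Agent.Helper548.HB.P_x_surj
import Pool.Agent.Helper548.HB.P_x_trans
import Pool.Agent.Helper548.HB.P_x_nest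
import Pool.Agent.Helper548.HB.P_x_large
import Pool.Agent.Helper548.HB.P_x_bgi
import Pool.Agent.Helper548.HB.P_x_realize
import Pool.Agent.Helper548.HB.P_x_distance

set_option autoImplicit false

/-! Hyperbolic spaces, Gromov boundaries, hierarchically hyperbolic spaces and groups, the
hierarchically hyperbolic boundary and its topology. -/

namespace Pool.Agent.Helper548.HB



theorem x_isHHS_mono {X : Type} [MetricSpace X] {δ δ' : ℝ} (h : HypC X δ) (hle : δ ≤ δ') :
    HypC X δ' := fun o x y z => by have := h o x y z; linarith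

theorem x_isHHS_sd {X : Type} [MetricSpace X] {A : Set X} (hA : A.Nonempty) : sd A A ≤ 0 := by
  obtain ⟨a, ha⟩ := hA
  apply csInf_le
  · refine ⟨0, ?_⟩
    rintro r ⟨a, _, b, _, rfl⟩
    exact dist_nonneg
  · exact ⟨a, ha, a, ha, (dist_self a).symm⟩

theorem x_isHHS_diam {X : Type} [MetricSpace X] (a : X) {K : ℝ} (hK : 0 ≤ K) :
    DiamLE K ({a} : Set X) := by
  intro x hx y hy
  rw [Set.mem_singleton_iff] at hx hy
  rw [hx, hy, dist_self]; exact hK

theorem x_isHHS_ne_S (D : GData) (RG : Realz D.Γ D.G) (RT : Realz TG H) (t : ℝ)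
    (V W : Dm D) (h : (hier D RG RT t).pnest V W ∨ (hier D RG RT t).trans V W) : V ≠ Dm.S := by
  rintro rfl
  rcases h with ⟨h1 | h1, h2⟩ | ⟨h1, h2, h3⟩
  · exact h2 h1
  · exact h2 h1.symm
  · exact h3 (Or.inr rfl)

theorem x_isHHS (D : GData) (RG : Realz D.Γ D.G) (RT : Realz TG H) (t : ℝ) :
    IsHHS (wd D.gens) (hier D RG RT t) (KK t) := by
  have hK : (100 : ℝ) ≤ KK t := by unfold KK; have := abs_nonneg t; linarith
  have hρ : ∀ V W : Dm D, V ≠ Dm.S → ∃ a, (hier D RG RT t).ρ V W = {a} := by
    intro V W hV
    cases V with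
    | S => exact absurd rfl hV
    | T x => cases W <;> exact ⟨_, rfl⟩
    | L x => cases W <;> exact ⟨_, rfl⟩
  refine
  { one_le := by linarith
    geod := ?_
    hyp := ?_
    π_ne := ?_
    π_diam := ?_
    π_lip := x_lip D RG RT t
    π_surj := x_surj D RG RT t
    nest_refl := fun U => Or.inl rfl
    nest_antisymm := ?_
    nest_trans := ?_
    nest_max := ⟨Dm.S, fun U => Or.inr rfl⟩
    ρ_ne := ?_
    ρ_diam := ?_
    ρd_ne := ?_
    orth_symm := ?_
    orth_irrefl := ?_
    orth_nest := ?_
    container := ?_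
    orth_not_nest := ?_
    cons_trans := fun V W h x => x_trans D RG RT t V W h x
    cons_nest := fun V W h x => x_nest D RG RT t V W h x
    cons_ρ := ?_
    complexity := ?_
    large_links := fun W x x' => x_large D RG RT t W x x'
    bgi := fun V W h γ l hγ => x_bgi D RG RT t V W h γ l hγ
    realization := fun F hF p => x_realize D RG RT t F hF p
    uniqueness := ?_
    distance := x_distance D RG RT t }
  · intro (U : Dm D)
    cases U with
    | S => exact RG.geod
    | T x => exact RT.geod
    | L x => exact geod_real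
  · intro (U : Dm D)
    cases U with
    | S =>
      exact x_isHHS_mono (X := RG.X) (hyp_of_four D.Γ D.G RG (four_of_bott D.Γ (connected D) (bott D)))
        (by linarith : (10 : ℝ) ≤ KK t)
    | T x =>
      exact x_isHHS_mono (X := RT.X) (hyp_of_four TG H RT (four_of_bott TG TG_connected TG_bott))
        (by linarith : (10 : ℝ) ≤ KK t)
    | L x => exact x_isHHS_mono (X := ℝ) hyp_real (by linarith : (0 : ℝ) ≤ KK t)
  · intro (U : Dm D) x
    cases U <;> exact Set.singleton_nonempty _
  · intro (U : Dm D) x
    cases U with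
    | S => exact x_isHHS_diam (X := RG.X) _ (by linarith)
    | T y => exact x_isHHS_diam (X := RT.X) _ (by linarith)
    | L y => exact x_isHHS_diam (X := ℝ) _ (by linarith)
  · rintro (U : Dm D) (V : Dm D) (h1 | h1) (h2 | h2)
    · exact h1
    · exact h1
    · exact h2.symm
    · rw [h1, h2]
  · rintro (U : Dm D) (V : Dm D) (W : Dm D) (h1 | h1) (h2 | h2)
    · exact Or.inl (h1.trans h2)
    · exact Or.inr h2
    · exact Or.inr (h2.symm.trans h1)
    · exact Or.inr h2
  · intro (V : Dm D) (W : Dm D) h
    obtain ⟨a, ha⟩ := hρ V W (x_isHHS_ne_S D RG RT t V W h)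
    rw [ha]; exact Set.singleton_nonempty a
  · intro (V : Dm D) (W : Dm D) h
    obtain ⟨a, ha⟩ := hρ V W (x_isHHS_ne_S D RG RT t V W h)
    rw [ha]
    exact @x_isHHS_diam _ ((hier D RG RT t).met W) a _ (by linarith)
  · intro (V : Dm D) (W : Dm D) h p
    have hV := x_isHHS_ne_S D RG RT t V W (Or.inl h)
    have hW : W = Dm.S := by
      rcases h with ⟨h1 | h1, h2⟩
      · exact absurd h1 h2
      · exact h1
    subst hW
    obtain ⟨y, hy⟩ := RG.dense p
    cases V with
    | S => exact absurd rfl hV
    | T x => exact ⟨RT.ι (D.cq x y).1, Or.inr ⟨y, hy, rfl⟩⟩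
    | L x => exact ⟨lam t (D.cq x y), Or.inr ⟨y, hy, rfl⟩⟩
  · intro (U : Dm D) (V : Dm D) h
    cases U <;> cases V <;> first | exact h.elim | exact Eq.symm h
  · intro (U : Dm D) h
    cases U <;> exact h
  · rintro (V : Dm D) (W : Dm D) (U : Dm D) (h1 | h1) h2
    · subst h1; exact h2
    · subst h1
      cases U <;> exact h2.elim
  · rintro (T : Dm D) (U : Dm D) h1 ⟨V, h2, h3⟩
    have hirr : ∀ U : Dm D, ¬ Dm.orth D U U := by
      intro U h; cases U <;> exact h
    have hT : T = Dm.S := by
      rcases h1 with h1 | h1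
      · rcases h2 with h2 | h2
        · exfalso
          have e : V = U := h2.trans h1.symm
          subst e
          exact hirr _ h3
        · exact h2
      · exact h1
    subst hT
    have hU : ∃ W : Dm D, W ≠ Dm.S ∧ ∀ V : Dm D, Dm.orth D V U → V = W := by
      have h3' : Dm.orth D V U := h3
      cases U with
      | S => cases V <;> exact h3'.elim
      | T x =>
        refine ⟨Dm.L x, (by intro h; cases h), ?_⟩
        intro V' hV'
        cases V' with
        | S => exact hV'.elim
        | T y => exact hV'.elim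
        | L y => exact congrArg Dm.L hV'
      | L x =>
        refine ⟨Dm.T x, (by intro h; cases h), ?_⟩
        intro V' hV'
        cases V' with
        | S => exact hV'.elim
        | T y => exact congrArg Dm.T hV'
        | L y => exact hV'.elim
    obtain ⟨W, hW1, hW2⟩ := hU
    exact ⟨W, ⟨Or.inr rfl, hW1⟩, fun V' _ h => Or.inl (hW2 V' h)⟩
  · intro (V : Dm D) (W : Dm D) h
    have h' : Dm.orth D V W := h
    have : V ≠ W ∧ V ≠ Dm.S ∧ W ≠ Dm.S := by
      cases V <;> cases W <;> first | exact h'.elim | (refine ⟨?_, ?_, ?_⟩ <;> intro h <;> cases h)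
    refine ⟨?_, ?_⟩
    · rintro (h1 | h1)
      · exact this.1 h1
      · exact this.2.2 h1
    · rintro (h1 | h1)
      · exact this.1 h1.symm
      · exact this.2.1 h1
  · intro (U : Dm D) (V : Dm D) (W : Dm D) h1 h2
    have hV : V ≠ Dm.S := by
      apply x_isHHS_ne_S D RG RT t V W
      rcases h2 with h2 | h2
      · exact Or.inl h2
      · exact Or.inr h2.1
    rcases h1 with h1 | h1
    · subst h1
      obtain ⟨a, ha⟩ := hρ U W hV
      rw [ha]
      have := @x_isHHS_sd _ ((hier D RG RT t).met W) _ (Set.singleton_nonempty a)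
      exact this.trans (by linarith)
    · exact absurd h1 hV
  · refine ⟨2, ?_⟩
    intro (s : Finset (Dm D)) hs
    classical
    by_cases h : ∃ U ∈ s, U ≠ Dm.S
    · obtain ⟨U, hU, hU2⟩ := h
      have hsub : s ⊆ {Dm.S, U} := by
        intro V hV
        rcases hs U hU V hV with (h | h) | (h | h)
        · simp [h]
        · simp [h]
        · simp [h]
        · exact absurd h hU2
      exact (Finset.card_le_card hsub).trans Finset.card_le_two
    · push Not at h
      have hsub : s ⊆ {Dm.S} := by
        intro V hV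
        rw [h V hV]; simp
      exact (Finset.card_le_card hsub).trans (by simp)
  · intro κ
    obtain ⟨s₀, hs⟩ := x_distance D RG RT t
    obtain ⟨A, hA⟩ := hs (max s₀ κ) (le_max_left _ _)
    refine ⟨A + 1, fun x y hxy => ?_⟩
    by_contra hno
    push Not at hno
    have h0 : (∑ᶠ U, thr (max s₀ κ) ((hier D RG RT t).dom U x y)) = 0 := by
      apply finsum_eq_zero_of_forall_eq_zero
      intro U
      unfold thr
      rw [if_neg]
      intro hle
      exact absurd ((le_max_right s₀ κ).trans hle) (not_le.2 (hno U))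
    have := (hA x y).2.2
    rw [h0] at this
    linarith

end Pool.Agent.Helper548.HB
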