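import Pool.Agent.Helper548.HB.Defs
import Pool.Agent.Helper548.HB.P_exists_tr
import Pool.Agent.Helper548.HB.P_co_smul
import Pool.Agent.Helper548.HB.P_co_eq_cq
import Pool.Agent.Helper548.HB.P_smul_adj
import Pool.Agent.Helper548.HB.P_x_isHHS

set_option autoImplicit false

/-! Hyperbolic spaces, Gromov boundaries, hierarchically hyperbolic spaces and groups, the
hierarchically hyperbolic boundary and its topology. -/

namespace Pool.Agent.Helper548.HB

variable (D : GData) (RG : Realz D.Γ D.G) (RT : Realz TG H) (t : ℝ)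


theorem mulQ_smul (g k : D.G) : ((g * k : D.G) : D.Q) = g • (k : D.Q) := rfl

theorem out_cls (x : D.Q) : ((x.out : D.G) : D.Q) = x := QuotientGroup.out_eq' x

noncomputable def trD (g : D.G) (x : D.Q) : V := (exists_tr D g x).choose

theorem trD_spec (g : D.G) (x : D.Q) : D.ι (trD D g x) = (g • x).out⁻¹ * g * x.out :=
  (exists_tr D g x).choose_spec

theorem trD_one (x : D.Q) : trD D 1 x = 1 := by
  apply D.ι_inj
  rw [trD_spec, one_smul, map_one]
  group

theorem trD_mul (g h : D.G) (x : D.Q) : trD D (g * h) x = trD D g (h • x) * trD D h x := by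
  apply D.ι_inj
  rw [map_mul, trD_spec, trD_spec, trD_spec, mul_smul]
  group

theorem lam_mul (t : ℝ) (v w : V) : lam t (v * w) = lam t v + lam t w := by
  simp only [lam, Prod.snd_mul, Prod.fst_mul, map_mul, toAdd_mul]
  push_cast
  ring

theorem lam_one (t : ℝ) : lam t 1 = 0 := by
  simp [lam]

theorem co_tr (g : D.G) (x : D.Q) (k : D.G) :
    D.co (g • x) (g * k) = trD D g x * D.co x k :=
  co_smul D g x _ (trD_spec D g x) k

theorem cq_tr (g : D.G) (x y : D.Q) (h : y ≠ x) :
    D.cq (g • x) (g • y) = trD D g x * D.cq x y := by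
  have h1 := co_tr D g x y.out
  have h2 : ((g * y.out : D.G) : D.Q) = g • y := by
    rw [mulQ_smul, out_cls]
  have h3 : ((g * y.out : D.G) : D.Q) ≠ g • x := by
    rw [h2]
    intro h4
    exact h (smul_left_cancel g h4)
  rw [co_eq_cq D (g • x) (g * y.out) h3, h2] at h1
  exact h1

def actD (g : D.G) : Dm D → Dm D
  | .S => .S
  | .T x => .T (g • x)
  | .L x => .L (g • x)

noncomputable def isoD (g : D.G) : ∀ U : Dm D, Dm.C D RG RT U → Dm.C D RG RT (actD D g U)
  | .S => fun (p : RG.X) => (g • p : RG.X)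
  | .T x => fun (p : RT.X) => ((trD D g x).1 • p : RT.X)
  | .L x => fun (r : ℝ) => (r + lam t (trD D g x) : ℝ)

theorem img_single {α β : Type} (f : α → β) (a : α) (b : β) (h : f a = b) :
    ({b} : Set β) = f '' {a} := by
  rw [Set.image_singleton, h]

theorem actD_inj (g : D.G) (U W : Dm D) (h : actD D g U = actD D g W) : U = W := by
  cases U <;> cases W <;> simp only [actD, Dm.T.injEq, Dm.L.injEq, reduceCtorEq] at h ⊢
  · exact smul_left_cancel g h
  · exact smul_left_cancel g h

theorem actD_S (g : D.G) (U : Dm D) : actD D g U = .S ↔ U = .S := by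
  cases U <;> simp [actD]

theorem isoD_surj (g : D.G) (U : Dm D) : Function.Surjective (isoD D RG RT t g U) := by
  cases U with
  | S => intro (p : RG.X); exact ⟨(g⁻¹ • p : RG.X), smul_inv_smul g p⟩
  | T x => intro (p : RT.X); exact ⟨((trD D g x).1⁻¹ • p : RT.X), smul_inv_smul _ p⟩
  | L x =>
    intro (p : ℝ)
    exact ⟨(p - lam t (trD D g x) : ℝ), sub_add_cancel p _⟩

theorem isoD_isom (g : D.G) (U : Dm D) (p q : Dm.C D RG RT U) :
    dist (isoD D RG RT t g U p) (isoD D RG RT t g U q) = dist p q := by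
  cases U with
  | S => exact RG.isom g p q
  | T x => exact RT.isom _ p q
  | L x =>
    have key : ∀ p q : ℝ, dist (p + lam t (trD D g x)) (q + lam t (trD D g x)) = dist p q :=
      fun p q => dist_add_right p q _
    exact key p q

theorem isoD_T (g : D.G) (x : D.Q) (v : V) :
    isoD D RG RT t g (.T x) (RT.ι v.1 : RT.X) = (RT.ι (trD D g x * v).1 : RT.X) := by
  show ((trD D g x).1 • (RT.ι v.1) : RT.X) = RT.ι (trD D g x * v).1
  rw [← RT.ι_smul]
  rfl

theorem isoD_L (g : D.G) (x : D.Q) (v : V) :
    isoD D RG RT t g (.L x) (lam t v : ℝ) = (lam t (trD D g x * v) : ℝ) := by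
  show ((lam t v : ℝ) + lam t (trD D g x) : ℝ) = lam t (trD D g x * v)
  rw [lam_mul, add_comm]

theorem isoD_π (g : D.G) (U : Dm D) (x : D.G) :
    Dm.π D RG RT t (actD D g U) (g * x) = isoD D RG RT t g U '' Dm.π D RG RT t U x := by
  cases U with
  | S =>
    exact img_single (isoD D RG RT t g .S) (RG.ι (x : D.Q)) (RG.ι ((g * x : D.G) : D.Q))
      (RG.ι_smul g (x : D.Q)).symm
  | T y =>
    exact img_single (isoD D RG RT t g (.T y)) (RT.ι (D.co y x).1)
      (RT.ι (D.co (g • y) (g * x)).1) (by rw [co_tr]; exact isoD_T D RG RT t g y _)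
  | L y =>
    exact img_single (isoD D RG RT t g (.L y)) (lam t (D.co y x))
      (lam t (D.co (g • y) (g * x))) (by rw [co_tr]; exact isoD_L D RG RT t g y _)

theorem isoD_ρ (g : D.G) (U W : Dm D)
    (h : (hier D RG RT t).pnest U W ∨ (hier D RG RT t).trans U W) :
    Dm.ρ D RG RT t (actD D g U) (actD D g W) = isoD D RG RT t g W '' Dm.ρ D RG RT t U W := by
  have hne : ∀ A B : Dm D, ((hier D RG RT t).pnest A B ∨ (hier D RG RT t).trans A B) → A ≠ B := by
    rintro A B (h | h) e
    · exact h.2 e
    · exact h.2.1 (Or.inl e)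
  have hno : ∀ A B : Dm D, ((hier D RG RT t).pnest A B ∨ (hier D RG RT t).trans A B) →
      B ≠ .S → ¬ Dm.orth D A B := by
    rintro A B (h | h) hB ho
    · rcases h.1 with h1 | h1
      · exact h.2 h1
      · exact hB h1
    · exact h.1 ho
  cases W with
  | S =>
    cases U with
    | S => exact absurd rfl (hne _ _ h)
    | T x =>
      exact img_single (isoD D RG RT t g .S) (RG.ι x) (RG.ι (g • x)) (RG.ι_smul g x).symm
    | L x =>
      exact img_single (isoD D RG RT t g .S) (RG.ι x) (RG.ι (g • x)) (RG.ι_smul g x).symm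
  | T x =>
    cases U with
    | S =>
      exfalso
      rcases h with h | h
      · rcases h.1 with h1 | h1 <;> cases h1
      · exact h.2.2 (Or.inr rfl)
    | T y =>
      have hyx : y ≠ x := fun e => hne _ _ h (by rw [e])
      exact img_single (isoD D RG RT t g (.T x)) (RT.ι (D.cq x y).1)
        (RT.ι (D.cq (g • x) (g • y)).1)
        (by rw [cq_tr D g x y hyx]; exact isoD_T D RG RT t g x _)
    | L y =>
      have hyx : y ≠ x := fun e => hno _ _ h (by simp) (show y = x from e)
      exact img_single (isoD D RG RT t g (.T x)) (RT.ι (D.cq x y).1)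
        (RT.ι (D.cq (g • x) (g • y)).1)
        (by rw [cq_tr D g x y hyx]; exact isoD_T D RG RT t g x _)
  | L x =>
    cases U with
    | S =>
      exfalso
      rcases h with h | h
      · rcases h.1 with h1 | h1 <;> cases h1
      · exact h.2.2 (Or.inr rfl)
    | T y =>
      have hyx : y ≠ x := fun e => hno _ _ h (by simp) (show y = x from e)
      exact img_single (isoD D RG RT t g (.L x)) (lam t (D.cq x y))
        (lam t (D.cq (g • x) (g • y)))
        (by rw [cq_tr D g x y hyx]; exact isoD_L D RG RT t g x _)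
    | L y =>
      have hyx : y ≠ x := fun e => hne _ _ h (by rw [e])
      exact img_single (isoD D RG RT t g (.L x)) (lam t (D.cq x y))
        (lam t (D.cq (g • x) (g • y)))
        (by rw [cq_tr D g x y hyx]; exact isoD_L D RG RT t g x _)

theorem dist_gι (g : D.G) (p : RG.X) (x : D.Q) :
    dist (g • p) (RG.ι (g • x)) = dist p (RG.ι x) := by
  rw [RG.ι_smul, RG.isom]

theorem isoD_ρd (g : D.G) (W U : Dm D) (p : Dm.C D RG RT W)
    (h : (hier D RG RT t).pnest U W) :
    Dm.ρd D RG RT t (actD D g W) (actD D g U) (isoD D RG RT t g W p) =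
      isoD D RG RT t g U '' Dm.ρd D RG RT t W U p := by
  have hWS : W = .S := by
    rcases h.1 with h1 | h1
    · exact absurd h1 h.2
    · exact h1
  subst hWS
  change RG.X at p
  cases U with
  | S => exact absurd rfl h.2
  | T x =>
    by_cases h3 : dist p (RG.ι x) ≤ 3
    · have e1 : Dm.ρd D RG RT t .S (.T x) p = Set.univ :=
        Set.eq_univ_of_forall fun a => Or.inl h3
      have e2 : Dm.ρd D RG RT t (actD D g .S) (actD D g (.T x)) (isoD D RG RT t g .S p) =
          Set.univ := Set.eq_univ_of_forall fun a => Or.inl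
            (show dist (g • p) (RG.ι (g • x)) ≤ 3 by rw [dist_gι]; exact h3)
      rw [e1, e2, Set.image_univ, (isoD_surj D RG RT t g (.T x)).range_eq]
    · apply Set.Subset.antisymm
      · rintro a (ha | ⟨y, hy, rfl⟩)
        · exact absurd (show dist p (RG.ι x) ≤ 3 by
            rw [← dist_gι D RG g p x]; exact ha) h3
        · have hy' : dist p (RG.ι (g⁻¹ • y)) ≤ 1 := by
            rw [← dist_gι D RG g p (g⁻¹ • y), smul_inv_smul]; exact hy
          have hne : g⁻¹ • y ≠ x := by
            rintro rfl; apply h3; linarith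
          refine ⟨RT.ι (D.cq x (g⁻¹ • y)).1, Or.inr ⟨g⁻¹ • y, hy', rfl⟩, ?_⟩
          refine (isoD_T D RG RT t g x (D.cq x (g⁻¹ • y))).trans ?_
          rw [← cq_tr D g x _ hne, smul_inv_smul]
      · rintro _ ⟨a, (ha | ⟨y, hy, rfl⟩), rfl⟩
        · exact absurd ha h3
        · have hne : y ≠ x := by
            rintro rfl; exact h3 (le_trans hy (by norm_num))
          refine Or.inr ⟨g • y, ?_, ?_⟩
          · show dist (g • p) (RG.ι (g • y)) ≤ 1
            rw [dist_gι]; exact hy
          · refine (isoD_T D RG RT t g x (D.cq x y)).trans ?_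
            rw [← cq_tr D g x _ hne]
  | L x =>
    by_cases h3 : dist p (RG.ι x) ≤ 3
    · have e1 : Dm.ρd D RG RT t .S (.L x) p = Set.univ :=
        Set.eq_univ_of_forall fun a => Or.inl h3
      have e2 : Dm.ρd D RG RT t (actD D g .S) (actD D g (.L x)) (isoD D RG RT t g .S p) =
          Set.univ := Set.eq_univ_of_forall fun a => Or.inl
            (show dist (g • p) (RG.ι (g • x)) ≤ 3 by rw [dist_gι]; exact h3)
      rw [e1, e2, Set.image_univ, (isoD_surj D RG RT t g (.L x)).range_eq]
    · apply Set.Subset.antisymm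
      · rintro a (ha | ⟨y, hy, rfl⟩)
        · exact absurd (show dist p (RG.ι x) ≤ 3 by
            rw [← dist_gι D RG g p x]; exact ha) h3
        · have hy' : dist p (RG.ι (g⁻¹ • y)) ≤ 1 := by
            rw [← dist_gι D RG g p (g⁻¹ • y), smul_inv_smul]; exact hy
          have hne : g⁻¹ • y ≠ x := by
            rintro rfl; apply h3; linarith
          refine ⟨(lam t (D.cq x (g⁻¹ • y)) : ℝ), Or.inr ⟨g⁻¹ • y, hy', rfl⟩, ?_⟩
          refine (isoD_L D RG RT t g x (D.cq x (g⁻¹ • y))).trans ?_
          rw [← cq_tr D g x _ hne, smul_inv_smul]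
      · rintro _ ⟨a, (ha | ⟨y, hy, rfl⟩), rfl⟩
        · exact absurd ha h3
        · have hne : y ≠ x := by
            rintro rfl; exact h3 (le_trans hy (by norm_num))
          refine Or.inr ⟨g • y, ?_, ?_⟩
          · show dist (g • p) (RG.ι (g • y)) ≤ 1
            rw [dist_gι]; exact hy
          · refine (isoD_L D RG RT t g x (D.cq x y)).trans ?_
            rw [← cq_tr D g x _ hne]

theorem isoD_one (U : Dm D) (p : Dm.C D RG RT U) : HEq (isoD D RG RT t 1 U p) p := by
  cases U with
  | S =>
    apply heq_of_eq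
    have key : ∀ p : RG.X, (1 : D.G) • p = p := one_smul D.G
    exact key p
  | T x =>
    apply heq_of_eq
    have key : ∀ p : RT.X, (trD D 1 x).1 • p = p := by
      intro p; rw [trD_one]; exact one_smul H p
    exact key p
  | L x =>
    apply heq_of_eq
    have key : ∀ p : ℝ, p + lam t (trD D 1 x) = p := by
      intro p; rw [trD_one, lam_one, add_zero]
    exact key p

theorem isoD_mul (g h : D.G) (U : Dm D) (p : Dm.C D RG RT U) :
    HEq (isoD D RG RT t (g * h) U p)
      (isoD D RG RT t g (actD D h U) (isoD D RG RT t h U p)) := by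
  cases U with
  | S =>
    apply heq_of_eq
    have key : ∀ p : RG.X, (g * h) • p = g • (h • p) := mul_smul g h
    exact key p
  | T x =>
    apply heq_of_eq
    have key : ∀ p : RT.X, (trD D (g * h) x).1 • p =
        (trD D g (h • x)).1 • ((trD D h x).1 • p) := by
      intro p; rw [trD_mul, ← mul_smul]; rfl
    exact key p
  | L x =>
    apply heq_of_eq
    have key : ∀ p : ℝ, p + lam t (trD D (g * h) x) =
        (p + lam t (trD D h x)) + lam t (trD D g (h • x)) := by
      intro p; rw [trD_mul, lam_mul]; ring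
    exact key p

theorem x_HHG (D : GData) (RG : Realz D.Γ D.G) (RT : Realz TG H) (t : ℝ) :
    ∃ 𝔊 : HHG D.G D.gens, 𝔊.H = hier D RG RT t := by
  classical
  refine ⟨{ H := hier D RG RT t
            K := KK t
            isHHS := x_isHHS D RG RT t
            act := actD D
            act_one := ?_
            act_mul := ?_
            cofinite := ?_
            act_nest := ?_
            act_orth := ?_
            iso := isoD D RG RT t
            iso_isom := isoD_isom D RG RT t
            iso_surj := isoD_surj D RG RT t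
            iso_one := isoD_one D RG RT t
            iso_mul := isoD_mul D RG RT t
            iso_π := isoD_π D RG RT t
            iso_ρ := isoD_ρ D RG RT t
            iso_ρd := fun g W U p h => isoD_ρd D RG RT t g W U p h }, rfl⟩
  · intro (U : Dm D)
    cases U with
    | S => rfl
    | T x => exact congrArg Dm.T (one_smul D.G x)
    | L x => exact congrArg Dm.L (one_smul D.G x)
  · intro g h (U : Dm D)
    cases U with
    | S => rfl
    | T x => exact congrArg Dm.T (mul_smul g h x)
    | L x => exact congrArg Dm.L (mul_smul g h x)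
  · refine ⟨({Dm.S, Dm.T ((1 : D.G) : D.Q), Dm.L ((1 : D.G) : D.Q)} : Finset (Dm D)), ?_⟩
    intro (U : Dm D)
    have m1 : Dm.S ∈ ({Dm.S, Dm.T ((1 : D.G) : D.Q), Dm.L ((1 : D.G) : D.Q)} :
      Finset (Dm D)) := by simp
    have m2 : Dm.T ((1 : D.G) : D.Q) ∈ ({Dm.S, Dm.T ((1 : D.G) : D.Q), Dm.L ((1 : D.G) : D.Q)} :
      Finset (Dm D)) := by simp
    have m3 : Dm.L ((1 : D.G) : D.Q) ∈ ({Dm.S, Dm.T ((1 : D.G) : D.Q), Dm.L ((1 : D.G) : D.Q)} :
      Finset (Dm D)) := by simp
    have hx : ∀ x : D.Q, x.out • ((1 : D.G) : D.Q) = x := by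
      intro x
      rw [← mulQ_smul, mul_one, out_cls]
    cases U with
    | S => exact ⟨1, Dm.S, m1, rfl⟩
    | T x => exact ⟨x.out, Dm.T ((1 : D.G) : D.Q), m2, congrArg Dm.T (hx x)⟩
    | L x => exact ⟨x.out, Dm.L ((1 : D.G) : D.Q), m3, congrArg Dm.L (hx x)⟩
  · intro g (U : Dm D) (W : Dm D)
    show (actD D g U = actD D g W ∨ actD D g W = .S) ↔ (U = W ∨ W = .S)
    rw [actD_S]
    constructor
    · rintro (h | h)
      · exact Or.inl (actD_inj D g U W h)
      · exact Or.inr h
    · rintro (h | h)
      · exact Or.inl (by rw [h])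
      · exact Or.inr h
  · intro g (U : Dm D) (W : Dm D)
    cases U <;> cases W
    all_goals first
      | exact Iff.rfl
      | exact ⟨fun h => smul_left_cancel g h, fun h => congrArg (g • ·) h⟩

end Pool.Agent.Helper548.HB
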