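import Pool.Agent.Helper548.HB.Defs
import Pool.Agent.Helper548.HB.P_co_eq_cq
import Pool.Agent.Helper548.HB.P_cq_step
import Pool.Agent.Helper548.HB.P_connected

set_option autoImplicit false

/-! Hyperbolic spaces, Gromov boundaries, hierarchically hyperbolic spaces and groups, the
hierarchically hyperbolic boundary and its topology. -/

namespace Pool.Agent.Helper548.HB



theorem xn_cq (D : GData) (RG : Realz D.Γ D.G) (x : D.Q) (g : D.G)
    (hd : 3 < dist (RG.ι (g : D.Q)) (RG.ι x)) (y : D.Q)
    (hy : dist (RG.ι (g : D.Q)) (RG.ι y) ≤ 1) : D.cq x y = D.co x g := by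
  rw [RG.dist_ι] at hd hy
  have hd' : 3 < D.Γ.dist (g : D.Q) x := by exact_mod_cast hd
  have hy' : D.Γ.dist (g : D.Q) y ≤ 1 := by exact_mod_cast hy
  have hcon := connected D
  have hgx : (g : D.Q) ≠ x := by
    intro h
    rw [h, SimpleGraph.dist_self] at hd'
    omega
  rw [co_eq_cq D x g hgx]
  rcases Nat.lt_or_ge (D.Γ.dist (g : D.Q) y) 1 with h0 | h1
  · have : (g : D.Q) = y := (hcon.dist_eq_zero_iff).1 (by omega)
    rw [this]
  · have hadj : D.Γ.Adj (g : D.Q) y := SimpleGraph.dist_eq_one_iff_adj.1 (by omega)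
    have htri := hcon.dist_triangle (u := (g : D.Q)) (v := y) (w := x)
    have hyx : y ≠ x := by
      rintro rfl
      omega
    rcases cq_step D x (g : D.Q) y hgx hyx hadj with h | ⟨_, h⟩ | ⟨_, h⟩
    · exact h.symm
    · have := SimpleGraph.dist_eq_one_iff_adj.2 h.symm
      omega
    · have := SimpleGraph.dist_eq_one_iff_adj.2 h.symm
      omega

theorem xn_sd {X : Type} [MetricSpace X] (a b : X) : sd {a} {b} = dist a b := by
  have : {r | ∃ x ∈ ({a} : Set X), ∃ y ∈ ({b} : Set X), r = dist x y} = {dist a b} := by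
    ext r
    simp
  unfold sd
  rw [this, csInf_singleton]

theorem x_nest (D : GData) (RG : Realz D.Γ D.G) (RT : Realz TG H) (t : ℝ)
    (V W : (hier D RG RT t).Dom) (h : (hier D RG RT t).pnest V W) (g : D.G) :
    sd ((hier D RG RT t).π W g) ((hier D RG RT t).ρ V W) ≤ KK t ∨
    DiamLE (KK t) ((hier D RG RT t).π V g ∪
      ⋃ p ∈ (hier D RG RT t).π W g, (hier D RG RT t).ρd W V p) := by
  obtain ⟨h1, h2⟩ := h
  have hWS : W = Dm.S := by
    rcases h1 with h1 | h1
    · exact absurd h1 h2
    · exact h1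
  subst hWS
  have hKK : 100 ≤ KK t := by
    unfold KK
    have := abs_nonneg t
    linarith
  have hKK0 : 0 ≤ KK t := by linarith
  cases V with
  | S => exact absurd rfl h2
  | T x =>
    by_cases hle : dist (RG.ι (g : D.Q)) (RG.ι x) ≤ KK t
    · left
      exact (xn_sd (RG.ι (g : D.Q)) (RG.ι x)).le.trans hle
    · right
      have hd : 3 < dist (RG.ι (g : D.Q)) (RG.ι x) := by linarith [not_le.1 hle]
      have hall : ∀ a : RT.X, a ∈ (({RT.ι (D.co x g).1} : Set RT.X) ∪
          ⋃ p ∈ ({RG.ι (g : D.Q)} : Set RG.X), {a : RT.X | dist p (RG.ι x) ≤ 3 ∨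
            ∃ y, dist p (RG.ι y) ≤ 1 ∧ a = RT.ι (D.cq x y).1}) → a = RT.ι (D.co x g).1 := by
        intro a ha
        rcases ha with ha | ha
        · exact ha
        · simp only [Set.mem_singleton_iff, Set.iUnion_iUnion_eq_left] at ha
          rcases ha with ha | ⟨y, hy, rfl⟩
          · exact absurd ha (not_le.2 hd)
          · rw [xn_cq D RG x g hd y hy]
      intro a ha b hb
      have ea := hall a ha
      have eb := hall b hb
      have : dist (α := RT.X) a b = 0 := by
        rw [ea, eb]
        exact dist_self _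
      exact this.le.trans hKK0
  | L x =>
    by_cases hle : dist (RG.ι (g : D.Q)) (RG.ι x) ≤ KK t
    · left
      exact (xn_sd (RG.ι (g : D.Q)) (RG.ι x)).le.trans hle
    · right
      have hd : 3 < dist (RG.ι (g : D.Q)) (RG.ι x) := by linarith [not_le.1 hle]
      have hall : ∀ a : ℝ, a ∈ (({lam t (D.co x g)} : Set ℝ) ∪
          ⋃ p ∈ ({RG.ι (g : D.Q)} : Set RG.X), {a : ℝ | dist p (RG.ι x) ≤ 3 ∨
            ∃ y, dist p (RG.ι y) ≤ 1 ∧ a = lam t (D.cq x y)}) → a = lam t (D.co x g) := by
        intro a ha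
        rcases ha with ha | ha
        · exact ha
        · simp only [Set.mem_singleton_iff, Set.iUnion_iUnion_eq_left] at ha
          rcases ha with ha | ⟨y, hy, rfl⟩
          · exact absurd ha (not_le.2 hd)
          · rw [xn_cq D RG x g hd y hy]
      intro a ha b hb
      have ea := hall a ha
      have eb := hall b hb
      have : dist (α := ℝ) a b = 0 := by
        rw [ea, eb]
        exact dist_self _
      exact this.le.trans hKK0

end Pool.Agent.Helper548.HB
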