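import Mathlib
import Pool.Agent.Helper548.HB.Defs

/-! JOB J1: geometric realisation of a connected locally finite graph as a proper geodesic
metric space, functorially with respect to a group of graph automorphisms. -/

namespace Pool.Agent.Helper548.HBG
open Pool.Agent.Helper548.HB (GeodesicSpace)


namespace Realize

/-- Points of the doubled edges. -/
@[ext] structure Pt {V : Type} (Γ : SimpleGraph V) where
  a : V
  b : V
  h : a = b ∨ Γ.Adj a b
  t : ℝ
  ht : t ∈ Set.Icc (0 : ℝ) 1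

variable {V : Type} {Γ : SimpleGraph V}

/-- end points: `false ↦ a`, `true ↦ b`. -/
def ep (p : Pt Γ) (i : Bool) : V := cond i p.b p.a

/-- distances to the end points -/
def wt (p : Pt Γ) (i : Bool) : ℝ := cond i (1 - p.t) p.t

/-- length of the path through the chosen ends -/
noncomputable def tm (p q : Pt Γ) (i j : Bool) : ℝ := wt p i + (Γ.dist (ep p i) (ep q j) : ℝ) + wt q j

def Le (p q : Pt Γ) (r : ℝ) : Prop :=
  (∃ i j, tm p q i j ≤ r) ∨ (p.a = q.a ∧ p.b = q.b ∧ |p.t - q.t| ≤ r)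

open Classical in
/-- the path pseudometric -/
noncomputable def D (p q : Pt Γ) : ℝ :=
  if p.a = q.a ∧ p.b = q.b then
    min (min (min (tm p q false false) (tm p q false true))
      (min (tm p q true false) (tm p q true true))) |p.t - q.t|
  else (min (min (tm p q false false) (tm p q false true))
      (min (tm p q true false) (tm p q true true)))

theorem D_le_iff (p q : Pt Γ) (r : ℝ) : D p q ≤ r ↔ Le p q r := by
  unfold D Le
  split_ifs with h
  · simp only [min_le_iff, Bool.exists_bool, h, true_and]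
  · simp only [min_le_iff, Bool.exists_bool]
    constructor
    · intro h'; exact Or.inl h'
    · rintro (h' | ⟨h1, h2, _⟩)
      · exact h'
      · exact absurd ⟨h1, h2⟩ h

theorem wt_nonneg (p : Pt Γ) (i : Bool) : 0 ≤ wt p i := by
  have := p.ht
  cases i <;> simp [wt] <;> linarith [this.1, this.2]

theorem wt_le_one (p : Pt Γ) (i : Bool) : wt p i ≤ 1 := by
  have := p.ht
  cases i <;> simp [wt] <;> linarith [this.1, this.2]

theorem dist_ends (p : Pt Γ) (i j : Bool) : (Γ.dist (ep p i) (ep p j) : ℝ) ≤ wt p i + wt p j := by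
  have h1 : Γ.dist p.a p.b ≤ 1 := by
    rcases p.h with h | h
    · rw [h]; simp
    · rw [SimpleGraph.dist_eq_one_iff_adj.2 h]
  have h1' : (Γ.dist p.a p.b : ℝ) ≤ 1 := by exact_mod_cast h1
  have h2 : (Γ.dist p.b p.a : ℝ) ≤ 1 := by rw [SimpleGraph.dist_comm]; exact h1'
  have := p.ht
  cases i <;> cases j
  · simp [ep, wt, this.1]
  · simp only [ep, wt, cond]; linarith
  · simp only [ep, wt, cond]; linarith
  · simp [ep, wt, this.2]

theorem tm_nonneg (p q : Pt Γ) (i j : Bool) : 0 ≤ tm p q i j := by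
  unfold tm
  have := wt_nonneg p i
  have := wt_nonneg q j
  positivity

theorem Le.nonneg {p q : Pt Γ} {r : ℝ} (h : Le p q r) : 0 ≤ r := by
  rcases h with ⟨i, j, h⟩ | ⟨_, _, h⟩
  · exact (tm_nonneg _ _ _ _).trans h
  · exact (abs_nonneg _).trans h

theorem tm_comm (p q : Pt Γ) (i j : Bool) : tm p q i j = tm q p j i := by
  unfold tm
  rw [SimpleGraph.dist_comm]
  ring

theorem Le.symm {p q : Pt Γ} {r : ℝ} (h : Le p q r) : Le q p r := by
  rcases h with ⟨i, j, h⟩ | ⟨h1, h2, h⟩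
  · exact Or.inl ⟨j, i, by rw [tm_comm]; exact h⟩
  · exact Or.inr ⟨h1.symm, h2.symm, by rw [abs_sub_comm]; exact h⟩

theorem ep_eq {p q : Pt Γ} (h1 : p.a = q.a) (h2 : p.b = q.b) (i : Bool) : ep p i = ep q i := by
  cases i <;> simp [ep, h1, h2]

theorem wt_le {p q : Pt Γ} (i : Bool) : wt p i ≤ wt q i + |p.t - q.t| := by
  have h1 := le_abs_self (p.t - q.t)
  have h2 := neg_abs_le (p.t - q.t)
  cases i <;> simp [wt] <;> linarith

theorem Le.trans_tm (hconn : Γ.Connected) {p q s : Pt Γ} {r r' : ℝ} {i j : Bool}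
    (h : tm p q i j ≤ r) (h' : Le q s r') : ∃ k l, tm p s k l ≤ r + r' := by
  rcases h' with ⟨k, l, h'⟩ | ⟨h1, h2, h'⟩
  · refine ⟨i, l, ?_⟩
    have h3 : (Γ.dist (ep p i) (ep s l) : ℝ) ≤ Γ.dist (ep p i) (ep q j) + Γ.dist (ep q j) (ep q k)
        + Γ.dist (ep q k) (ep s l) := by
      have e1 := hconn.dist_triangle (u := ep p i) (v := ep q j) (w := ep s l)
      have e2 := hconn.dist_triangle (u := ep q j) (v := ep q k) (w := ep s l)
      have e1' : (Γ.dist (ep p i) (ep s l) : ℝ) ≤ Γ.dist (ep p i) (ep q j) + Γ.dist (ep q j) (ep s l) := by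
        exact_mod_cast e1
      have e2' : (Γ.dist (ep q j) (ep s l) : ℝ) ≤ Γ.dist (ep q j) (ep q k) + Γ.dist (ep q k) (ep s l) := by
        exact_mod_cast e2
      linarith
    have h4 := dist_ends q j k
    unfold tm at h h' ⊢
    linarith
  · refine ⟨i, j, ?_⟩
    have e := ep_eq h1 h2 j
    have w := @wt_le _ _ s q j
    rw [abs_sub_comm] at w
    unfold tm at h ⊢
    rw [← e]
    linarith

theorem Le.trans (hconn : Γ.Connected) {p q s : Pt Γ} {r r' : ℝ} (h : Le p q r) (h' : Le q s r') :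
    Le p s (r + r') := by
  rcases h with ⟨i, j, h⟩ | ⟨h1, h2, h⟩
  · exact Or.inl (Le.trans_tm hconn h h')
  · rcases h' with ⟨k, l, h'⟩ | ⟨h3, h4, h'⟩
    · refine Or.inl ?_
      rw [tm_comm] at h'
      obtain ⟨x, y, hxy⟩ := Le.trans_tm hconn h' (Or.inr ⟨h1.symm, h2.symm, by
        rw [abs_sub_comm]; exact h⟩ : Le q p r)
      exact ⟨y, x, by rw [tm_comm]; linarith⟩
    · refine Or.inr ⟨h1.trans h3, h2.trans h4, ?_⟩
      calc |p.t - s.t| ≤ |p.t - q.t| + |q.t - s.t| := abs_sub_le _ _ _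
        _ ≤ r + r' := add_le_add h h'

theorem D_nonneg (p q : Pt Γ) : 0 ≤ D p q := ((D_le_iff p q _).1 le_rfl).nonneg

theorem D_self (p : Pt Γ) : D p p = 0 :=
  le_antisymm ((D_le_iff _ _ _).2 (Or.inr ⟨rfl, rfl, by simp⟩)) (D_nonneg _ _)

theorem D_comm (p q : Pt Γ) : D p q = D q p :=
  le_antisymm ((D_le_iff _ _ _).2 ((D_le_iff _ _ _).1 le_rfl).symm)
    ((D_le_iff _ _ _).2 ((D_le_iff _ _ _).1 le_rfl).symm)

theorem D_triangle (hconn : Γ.Connected) (p q s : Pt Γ) : D p s ≤ D p q + D q s :=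
  (D_le_iff _ _ _).2 (Le.trans hconn ((D_le_iff _ _ _).1 le_rfl) ((D_le_iff _ _ _).1 le_rfl))

/-- The pseudometric realisation. -/
def RP (Γ : SimpleGraph V) (_ : Γ.Connected) : Type := Pt Γ

noncomputable instance (hconn : Γ.Connected) : PseudoMetricSpace (RP Γ hconn) where
  dist p q := D (Γ := Γ) p q
  dist_self p := D_self (Γ := Γ) p
  dist_comm p q := D_comm (Γ := Γ) p q
  dist_triangle p q s := D_triangle hconn p q s

theorem dist_def (hconn : Γ.Connected) (p q : RP Γ hconn) : dist p q = D (Γ := Γ) p q := rfl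

/-! ### The action -/

section action

variable {G : Type} [Group G] [MulAction G V]

theorem gdist_le (hG : ∀ (g : G) (a b : V), Γ.Adj (g • a) (g • b) ↔ Γ.Adj a b)
    (hconn : Γ.Connected) (g : G) (a b : V) : Γ.dist (g • a) (g • b) ≤ Γ.dist a b := by
  obtain ⟨w, hw⟩ := hconn.exists_walk_length_eq_dist a b
  let φ : Γ →g Γ := ⟨fun v => g • v, fun {a b} h => (hG g a b).2 h⟩
  have := SimpleGraph.dist_le (w.map φ)
  rw [SimpleGraph.Walk.length_map, hw] at this
  exact this

theorem gdist (hG : ∀ (g : G) (a b : V), Γ.Adj (g • a) (g • b) ↔ Γ.Adj a b)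
    (hconn : Γ.Connected) (g : G) (a b : V) : Γ.dist (g • a) (g • b) = Γ.dist a b := by
  refine le_antisymm (gdist_le hG hconn g a b) ?_
  have := gdist_le hG hconn g⁻¹ (g • a) (g • b)
  rwa [inv_smul_smul, inv_smul_smul] at this

/-- the action on points -/
@[reducible] def act (hG : ∀ (g : G) (a b : V), Γ.Adj (g • a) (g • b) ↔ Γ.Adj a b)
    (hconn : Γ.Connected) : MulAction G (RP Γ hconn) where
  smul g p := (⟨g • p.a, g • p.b, p.h.imp (fun h => by rw [h]) (fun h => (hG g _ _).2 h), p.t, p.ht⟩ : Pt Γ)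
  one_smul p := by
    change (⟨(1 : G) • p.a, (1 : G) • p.b, _, p.t, p.ht⟩ : Pt Γ) = p
    apply Pt.ext <;> simp
  mul_smul g g' p := by
    change (⟨(g * g') • p.a, (g * g') • p.b, _, p.t, p.ht⟩ : Pt Γ) =
      ⟨g • g' • p.a, g • g' • p.b, _, p.t, p.ht⟩
    apply Pt.ext <;> simp [mul_smul]

theorem act_isom (hG : ∀ (g : G) (a b : V), Γ.Adj (g • a) (g • b) ↔ Γ.Adj a b)
    (hconn : Γ.Connected) :
    letI := act hG hconn
    ∀ (g : G) (p q : RP Γ hconn), dist (g • p) (g • q) = dist p q := by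
  letI := act hG hconn
  intro g p q
  have key : ∀ r, Le (Γ := Γ) (g • p) (g • q) r ↔ Le (Γ := Γ) p q r := by
    intro r
    have e1 : ∀ i, ep (Γ := Γ) (g • p) i = g • ep (Γ := Γ) p i := by intro i; cases i <;> rfl
    have e2 : ∀ i, ep (Γ := Γ) (g • q) i = g • ep (Γ := Γ) q i := by intro i; cases i <;> rfl
    have e3 : ∀ i, wt (Γ := Γ) (g • p) i = wt (Γ := Γ) p i := by intro i; cases i <;> rfl
    have e4 : ∀ i, wt (Γ := Γ) (g • q) i = wt (Γ := Γ) q i := by intro i; cases i <;> rfl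
    have e5 : Pt.a (Γ := Γ) (g • p) = g • Pt.a (Γ := Γ) p := rfl
    have e6 : Pt.a (Γ := Γ) (g • q) = g • Pt.a (Γ := Γ) q := rfl
    have e7 : Pt.b (Γ := Γ) (g • p) = g • Pt.b (Γ := Γ) p := rfl
    have e8 : Pt.b (Γ := Γ) (g • q) = g • Pt.b (Γ := Γ) q := rfl
    have e9 : Pt.t (Γ := Γ) (g • p) = Pt.t (Γ := Γ) p := rfl
    have e10 : Pt.t (Γ := Γ) (g • q) = Pt.t (Γ := Γ) q := rfl
    unfold Le tm
    simp only [e1, e2, e3, e4, e5, e6, e7, e8, e9, e10, gdist hG hconn, smul_left_cancel_iff]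
  apply le_antisymm
  · exact (D_le_iff (Γ := Γ) _ _ _).2 ((key _).2 ((D_le_iff (Γ := Γ) _ _ _).1 le_rfl))
  · exact (D_le_iff (Γ := Γ) _ _ _).2 ((key _).1 ((D_le_iff (Γ := Γ) _ _ _).1 le_rfl))

end action

/-! ### Lipschitz paths -/

section LP

variable {X : Type*} [MetricSpace X]

def LP (x y : X) (L : ℝ) : Prop :=
  0 ≤ L ∧ ∃ γ : ℝ → X, γ 0 = x ∧ γ L = y ∧
    ∀ s ∈ Set.Icc (0 : ℝ) L, ∀ t ∈ Set.Icc (0 : ℝ) L, dist (γ s) (γ t) ≤ |s - t|

theorem LP.refl (x : X) : LP x x 0 :=
  ⟨le_rfl, fun _ => x, rfl, rfl, fun s _ t _ => by simp⟩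

theorem LP.symm {x y : X} {L : ℝ} (h : LP x y L) : LP y x L := by
  obtain ⟨h0, γ, h1, h2, h3⟩ := h
  refine ⟨h0, fun s => γ (L - s), by simpa using h2, by simpa using h1, ?_⟩
  intro s hs t ht
  refine (h3 _ ⟨by linarith [hs.2], by linarith [hs.1]⟩ _ ⟨by linarith [ht.2], by linarith [ht.1]⟩).trans ?_
  rw [abs_sub_comm]
  apply le_of_eq
  congr 1
  ring

theorem LP.trans {x y z : X} {L M : ℝ} (h : LP x y L) (h' : LP y z M) : LP x z (L + M) := by
  obtain ⟨h0, γ, h1, h2, h3⟩ := h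
  obtain ⟨k0, δ, k1, k2, k3⟩ := h'
  refine ⟨by linarith, fun s => if s ≤ L then γ s else δ (s - L), ?_, ?_, ?_⟩
  · simp [h0, h1]
  · by_cases hM : M ≤ 0
    · have : M = 0 := le_antisymm hM k0
      subst this
      simp only [add_zero, le_refl, if_true, h2]
      rw [← k2, k1]
    · have : ¬ (L + M ≤ L) := by linarith
      simp only [this, if_false]
      rw [add_sub_cancel_left, k2]
  · have key : ∀ s ∈ Set.Icc (0 : ℝ) (L + M), ∀ t ∈ Set.Icc (0 : ℝ) (L + M), s ≤ t →
        dist (if s ≤ L then γ s else δ (s - L)) (if t ≤ L then γ t else δ (t - L)) ≤ t - s := by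
      intro s hs t ht hst
      by_cases hs' : s ≤ L
      · by_cases ht' : t ≤ L
        · simp only [hs', ht', if_true]
          refine (h3 s ⟨hs.1, hs'⟩ t ⟨ht.1, ht'⟩).trans ?_
          rw [abs_sub_comm, abs_of_nonneg (by linarith)]
        · simp only [hs', ht', if_true, if_false]
          have e1 := h3 s ⟨hs.1, hs'⟩ L ⟨h0, le_rfl⟩
          have e2 := k3 0 ⟨le_rfl, k0⟩ (t - L) ⟨by linarith, by linarith [ht.2]⟩
          rw [h2, abs_sub_comm, abs_of_nonneg (by linarith)] at e1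
          rw [k1, abs_sub_comm, abs_of_nonneg (by linarith)] at e2
          have := dist_triangle (γ s) y (δ (t - L))
          linarith
      · have ht' : ¬ (t ≤ L) := by linarith
        simp only [hs', ht', if_false]
        refine (k3 (s - L) ⟨by linarith, by linarith [hs.2]⟩ (t - L) ⟨by linarith, by linarith [ht.2]⟩).trans ?_
        rw [abs_sub_comm, abs_of_nonneg (by linarith)]
        linarith
    intro s hs t ht
    rcases le_total s t with hst | hst
    · rw [abs_sub_comm, abs_of_nonneg (by linarith)]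
      exact key s hs t ht hst
    · rw [abs_of_nonneg (by linarith), dist_comm]
      exact key t ht s hs hst

theorem LP.geod {x y : X} (h : LP x y (dist x y)) : ∃ γ : ℝ → X, γ 0 = x ∧ γ (dist x y) = y ∧
    ∀ s ∈ Set.Icc (0 : ℝ) (dist x y), ∀ t ∈ Set.Icc (0 : ℝ) (dist x y),
      dist (γ s) (γ t) = |s - t| := by
  obtain ⟨h0, γ, h1, h2, h3⟩ := h
  have key : ∀ s ∈ Set.Icc (0 : ℝ) (dist x y), ∀ t ∈ Set.Icc (0 : ℝ) (dist x y), s ≤ t →
      t - s ≤ dist (γ s) (γ t) := by
    intro s hs t ht hst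
    have e1 := h3 0 ⟨le_rfl, h0⟩ s hs
    have e2 := h3 t ht _ ⟨h0, le_rfl⟩
    rw [h1, abs_sub_comm, abs_of_nonneg (by linarith [hs.1])] at e1
    rw [h2, abs_sub_comm, abs_of_nonneg (by linarith [ht.2])] at e2
    have e3 := dist_triangle4 x (γ s) (γ t) y
    linarith
  refine ⟨γ, h1, h2, ?_⟩
  intro s hs t ht
  apply le_antisymm (h3 s hs t ht)
  rcases le_total s t with hst | hst
  · rw [abs_sub_comm, abs_of_nonneg (by linarith)]
    exact key s hs t ht hst
  · rw [abs_of_nonneg (by linarith), dist_comm]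
    exact key t ht s hs hst

end LP

/-! ### The metric space -/

section metric

/-- the realisation -/
abbrev RX (Γ : SimpleGraph V) (hconn : Γ.Connected) : Type := SeparationQuotient (RP Γ hconn)

/-- projection -/
noncomputable def mk (hconn : Γ.Connected) (p : Pt Γ) : RX Γ hconn :=
  SeparationQuotient.mk (X := RP Γ hconn) p

theorem dist_mk (hconn : Γ.Connected) (p q : Pt Γ) : dist (mk hconn p) (mk hconn q) = D p q :=
  SeparationQuotient.dist_mk (α := RP Γ hconn) p q

theorem mk_surj (hconn : Γ.Connected) (x : RX Γ hconn) : ∃ p, mk hconn p = x :=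
  SeparationQuotient.surjective_mk x

/-- clamped points on an edge -/
noncomputable def pt (a b : V) (h : a = b ∨ Γ.Adj a b) (t : ℝ) : Pt Γ :=
  ⟨a, b, h, max 0 (min 1 t), ⟨le_max_left _ _, max_le zero_le_one (min_le_left _ _)⟩⟩

theorem pt_of_mem {p : Pt Γ} : pt p.a p.b p.h p.t = p := by
  have := p.ht
  apply Pt.ext
  · rfl
  · rfl
  · simp only [pt]
    rw [min_eq_right this.2, max_eq_right this.1]

theorem dist_pt_le (hconn : Γ.Connected) (a b : V) (h : a = b ∨ Γ.Adj a b) (s t : ℝ) :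
    dist (mk hconn (pt a b h s)) (mk hconn (pt a b h t)) ≤ |s - t| := by
  rw [dist_mk, D_le_iff]
  refine Or.inr ⟨rfl, rfl, ?_⟩
  simp only [pt]
  calc |max 0 (min 1 s) - max 0 (min 1 t)| ≤ |min 1 s - min 1 t| := by
        rw [max_comm 0, max_comm 0]; exact abs_max_sub_max_le_abs _ _ _
    _ ≤ |s - t| := by
        have := abs_min_sub_min_le_max (1 : ℝ) s 1 t
        simpa using this

/-- vertices -/
noncomputable def vt (v : V) : Pt Γ := ⟨v, v, Or.inl rfl, 0, ⟨le_rfl, zero_le_one⟩⟩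

theorem D_vt_vt (hconn : Γ.Connected) (a b : V) : D (Γ := Γ) (vt a) (vt b) = Γ.dist a b := by
  apply le_antisymm
  · rw [D_le_iff]
    exact Or.inl ⟨false, false, by simp [tm, wt, ep, vt]⟩
  · have := (D_le_iff (Γ := Γ) (vt a) (vt b) _).1 le_rfl
    rcases this with ⟨i, j, h⟩ | ⟨h1, h2, h⟩
    · refine le_trans ?_ h
      unfold tm
      have e1 := wt_nonneg (Γ := Γ) (vt a) i
      have e2 := wt_nonneg (Γ := Γ) (vt b) j
      have e3 : ep (Γ := Γ) (vt a) i = a := by cases i <;> rfl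
      have e4 : ep (Γ := Γ) (vt b) j = b := by cases j <;> rfl
      rw [e3, e4]
      linarith
    · have : a = b := h1
      subst this
      simp [D_nonneg]

theorem D_vt (p : Pt Γ) (i : Bool) : D p (vt (ep p i)) ≤ wt p i := by
  rw [D_le_iff]
  exact Or.inl ⟨i, false, by simp [tm, wt, ep, vt]⟩

theorem mk_eq_of_wt (hconn : Γ.Connected) (p : Pt Γ) (i : Bool) (h : wt p i = 0) :
    mk hconn p = mk hconn (vt (ep p i)) := by
  apply dist_le_zero.1
  rw [dist_mk, ← h]
  exact D_vt p i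

theorem LP_edge' (hconn : Γ.Connected) (p q : Pt Γ) (h1 : p.a = q.a) (h2 : p.b = q.b)
    (h3 : p.t ≤ q.t) : LP (mk hconn p) (mk hconn q) (q.t - p.t) := by
  refine ⟨by linarith, fun s => mk hconn (pt p.a p.b p.h (p.t + s)), ?_, ?_, ?_⟩
  · simp only [add_zero, pt_of_mem]
  · have : pt p.a p.b p.h (p.t + (q.t - p.t)) = q := by
      rw [add_sub_cancel]
      conv_rhs => rw [← pt_of_mem (p := q)]
      simp only [h1, h2]
    simp only [this]
  · intro s _ t _
    refine (dist_pt_le hconn _ _ _ _ _).trans ?_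
    apply le_of_eq
    congr 1
    ring

theorem LP_edge (hconn : Γ.Connected) (p q : Pt Γ) (h1 : p.a = q.a) (h2 : p.b = q.b) :
    LP (mk hconn p) (mk hconn q) |p.t - q.t| := by
  rcases le_total p.t q.t with h | h
  · rw [abs_sub_comm, abs_of_nonneg (by linarith)]
    exact LP_edge' hconn p q h1 h2 h
  · rw [abs_of_nonneg (by linarith)]
    exact (LP_edge' hconn q p h1.symm h2.symm h).symm

theorem LP_end (hconn : Γ.Connected) (p : Pt Γ) (i : Bool) :
    LP (mk hconn p) (mk hconn (vt (ep p i))) (wt p i) := by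
  have ht := p.ht
  cases i
  · have h := LP_edge hconn p ⟨p.a, p.b, p.h, 0, ⟨le_rfl, zero_le_one⟩⟩ rfl rfl
    simp only [sub_zero] at h
    rw [abs_of_nonneg ht.1] at h
    have e := mk_eq_of_wt hconn ⟨p.a, p.b, p.h, 0, ⟨le_rfl, zero_le_one⟩⟩ false rfl
    rw [e] at h
    exact h
  · have h := LP_edge hconn p ⟨p.a, p.b, p.h, 1, ⟨zero_le_one, le_rfl⟩⟩ rfl rfl
    simp only at h
    rw [abs_sub_comm, abs_of_nonneg (by linarith [ht.2])] at h
    have e := mk_eq_of_wt hconn ⟨p.a, p.b, p.h, 1, ⟨zero_le_one, le_rfl⟩⟩ true (by simp [wt])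
    rw [e] at h
    exact h

theorem LP_adj (hconn : Γ.Connected) {a b : V} (h : Γ.Adj a b) :
    LP (mk hconn (vt a)) (mk hconn (vt b)) 1 := by
  have h1 := LP_end hconn (⟨a, b, Or.inr h, 0, ⟨le_rfl, zero_le_one⟩⟩ : Pt Γ) true
  have e := mk_eq_of_wt hconn (⟨a, b, Or.inr h, 0, ⟨le_rfl, zero_le_one⟩⟩ : Pt Γ) false rfl
  rw [e] at h1
  simpa [wt, ep] using h1

theorem LP_walk (hconn : Γ.Connected) {a b : V} (w : Γ.Walk a b) :
    LP (mk hconn (vt a)) (mk hconn (vt b)) w.length := by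
  induction w with
  | nil => simpa using LP.refl _
  | cons h w ih =>
    have := (LP_adj hconn h).trans ih
    rw [SimpleGraph.Walk.length_cons]
    push_cast
    rw [add_comm]
    exact this

theorem LP_vt (hconn : Γ.Connected) (a b : V) :
    LP (mk hconn (vt a)) (mk hconn (vt b)) (Γ.dist a b) := by
  obtain ⟨w, hw⟩ := hconn.exists_walk_length_eq_dist a b
  rw [← hw]
  exact LP_walk hconn w

theorem LP_tm (hconn : Γ.Connected) (p q : Pt Γ) (i j : Bool) :
    LP (mk hconn p) (mk hconn q) (tm p q i j) :=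
  ((LP_end hconn p i).trans (LP_vt hconn _ _)).trans (LP_end hconn q j).symm

theorem LP_all (hconn : Γ.Connected) (x y : RX Γ hconn) : LP x y (dist x y) := by
  obtain ⟨p, rfl⟩ := mk_surj hconn x
  obtain ⟨q, rfl⟩ := mk_surj hconn y
  rw [dist_mk]
  rcases (D_le_iff p q _).1 le_rfl with ⟨i, j, h⟩ | ⟨h1, h2, h⟩
  · have : D p q = tm p q i j :=
      le_antisymm ((D_le_iff _ _ _).2 (Or.inl ⟨i, j, le_rfl⟩)) h
    rw [this]
    exact LP_tm hconn p q i j
  · have : D p q = |p.t - q.t| :=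
      le_antisymm ((D_le_iff _ _ _).2 (Or.inr ⟨h1, h2, le_rfl⟩)) h
    rw [this]
    exact LP_edge hconn p q h1 h2

theorem geodesic (hconn : Γ.Connected) : GeodesicSpace (RX Γ hconn) :=
  fun x y => (LP_all hconn x y).geod

/-! ### properness -/

theorem finite_walks (hlf : ∀ v, (Γ.neighborSet v).Finite) (N : ℕ) :
    ∀ v, {a | ∃ w : Γ.Walk v a, w.length ≤ N}.Finite := by
  induction N with
  | zero =>
    intro v
    refine (Set.finite_singleton v).subset ?_
    rintro a ⟨w, hw⟩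
    cases w with
    | nil => rfl
    | cons h w => simp at hw
  | succ N ih =>
    intro v
    refine ((Set.finite_singleton v).union ((hlf v).biUnion (t := fun u => {a | ∃ w : Γ.Walk u a, w.length ≤ N}) fun u _ => ih u)).subset ?_
    rintro a ⟨w, hw⟩
    cases w with
    | nil => exact Or.inl rfl
    | cons h w =>
      refine Or.inr ?_
      rw [Set.mem_iUnion₂]
      refine ⟨_, h, w, ?_⟩
      simpa using hw

/-- an edge as a subset -/
def E (hconn : Γ.Connected) (a b : V) : Set (RX Γ hconn) :=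
  {x | ∃ p : Pt Γ, p.a = a ∧ p.b = b ∧ mk hconn p = x}

theorem E_compact (hconn : Γ.Connected) (a b : V) : IsCompact (E hconn a b) := by
  by_cases h : a = b ∨ Γ.Adj a b
  · have hc : Continuous (fun t => mk hconn (pt a b h t)) := by
      apply LipschitzWith.continuous (K := 1)
      apply LipschitzWith.of_dist_le_mul
      intro s t
      simpa [Real.dist_eq] using dist_pt_le hconn a b h s t
    have : E hconn a b = (fun t => mk hconn (pt a b h t)) '' Set.Icc 0 1 := by
      ext x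
      constructor
      · rintro ⟨p, h1, h2, h3⟩
        subst h1 h2
        refine ⟨p.t, p.ht, ?_⟩
        simp only [pt_of_mem, h3]
      · rintro ⟨t, _, rfl⟩
        exact ⟨_, rfl, rfl, rfl⟩
    rw [this]
    exact isCompact_Icc.image hc
  · have : E hconn a b = ∅ := by
      ext x
      simp only [E, Set.mem_setOf_eq, Set.mem_empty_iff_false, iff_false]
      rintro ⟨p, h1, h2, _⟩
      subst h1 h2
      exact h p.h
    rw [this]
    exact isCompact_empty

theorem proper (hconn : Γ.Connected) (hlf : ∀ v, (Γ.neighborSet v).Finite) :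
    ProperSpace (RX Γ hconn) := by
  obtain ⟨v0⟩ := hconn.nonempty
  refine ProperSpace.of_seq_closedBall (x := mk hconn (vt v0)) (r := fun n : ℕ => (n : ℝ))
    (l := Filter.atTop) tendsto_natCast_atTop_atTop (Filter.Eventually.of_forall fun n => ?_)
  have hfin := finite_walks hlf (n + 1) v0
  have hK : IsCompact (⋃ a ∈ {a | ∃ w : Γ.Walk v0 a, w.length ≤ n + 1},
      ⋃ b ∈ insert a (Γ.neighborSet a), E hconn a b) := by
    refine hfin.isCompact_biUnion fun a _ => ?_
    exact ((hlf a).insert a).isCompact_biUnion fun b _ => E_compact hconn a b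
  refine hK.of_isClosed_subset Metric.isClosed_closedBall ?_
  intro x hx
  obtain ⟨p, rfl⟩ := mk_surj hconn x
  rw [Metric.mem_closedBall, dist_mk] at hx
  have h1 : D (Γ := Γ) (vt v0) (vt p.a) ≤ n + 1 := by
    have e1 := D_triangle hconn (vt v0) p (vt p.a)
    have e2 := D_vt p false
    have e3 := wt_le_one p false
    rw [D_comm] at hx
    have e4 : ep p false = p.a := rfl
    rw [e4] at e2
    linarith
  rw [D_vt_vt hconn] at h1
  have h2 : Γ.dist v0 p.a ≤ n + 1 := by exact_mod_cast h1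
  obtain ⟨w, hw⟩ := hconn.exists_walk_length_eq_dist v0 p.a
  simp only [Set.mem_iUnion]
  refine ⟨p.a, ⟨w, by rw [hw]; exact h2⟩, p.b, ?_, p, rfl, rfl, rfl⟩
  rcases p.h with h | h
  · exact Or.inl h.symm
  · exact Or.inr h

end metric

end Realize

end Pool.Agent.Helper548.HBG
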