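import Mathlib
import Pool.Agent.Helper548.HB.Defs
import Pool.Agent.Helper548.HB.VGeo
set_option autoImplicit false

namespace Pool.Agent.Helper548.HB

open Pool.Agent.Helper548.HBG.Realize in
theorem exists_realz {W : Type} (Γ : SimpleGraph W) (hc : Γ.Connected) (A : Type) [Group A]
    [MulAction A W] (h : ∀ (g : A) (a b : W), Γ.Adj (g • a) (g • b) ↔ Γ.Adj a b) :
    Nonempty (Realz Γ A) := by
  letI act' := act h hc
  haveI : IsIsometricSMul A (RP Γ hc) := ⟨fun g => Isometry.of_dist_eq (act_isom h hc g)⟩
  refine ⟨{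
    X := RX Γ hc
    ι := fun v => mk hc (vt v)
    geod := fun x y => (LP_all hc x y).geod
    isom := ?_
    dist_ι := ?_
    ι_smul := ?_
    dense := ?_ }⟩
  · intro g x y
    obtain ⟨p, rfl⟩ := mk_surj hc x
    obtain ⟨q, rfl⟩ := mk_surj hc y
    have key : ∀ p q : RP Γ hc, dist (g • (SeparationQuotient.mk p)) (g • (SeparationQuotient.mk q)) =
        dist (SeparationQuotient.mk p) (SeparationQuotient.mk q) := by
      intro p q
      exact (SeparationQuotient.dist_mk (g • p) (g • q)).trans
        ((act_isom h hc g p q).trans (SeparationQuotient.dist_mk p q).symm)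
    exact key p q
  · intro a b
    rw [dist_mk, D_vt_vt hc]
  · intro g a
    rfl
  · intro x
    obtain ⟨p, rfl⟩ := mk_surj hc x
    refine ⟨p.a, ?_⟩
    rw [dist_mk]
    exact (D_vt p false).trans (wt_le_one p false)

end Pool.Agent.Helper548.HB
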